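import Pool.Agent.Helper55.MEI.Tent6

/-!
# Product form of the apex mass: the integrals
-/

namespace Pool.Agent.Helper55.TentL

open Set MeasureTheory Matrix Pool.Agent.Helper55.Sx Pool.Agent.Helper55.Mass
open Pool.Agent.Helper55.Apex Pool.Agent.Helper55.Fill Pool.Agent.Helper55.ApexP
open Helper75.MEI2 (vt Qf mu TC nn dd cc)

variable {N : Fin 3 → Fin 3 → ℝ}

theorem XL_gen2 {Z c Dt R W k g M : ℝ} (hZ : 0 < Z) (hc : 0 < c) (hD : 0 ≤ Dt)
    (hW : Z * R ≤ W) (hk : 0 ≤ k) (hM : 0 < M) (hg : g * M ≤ 20951 / 100000)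
    (h : k * (4 * c) ^ 2 ≤ M * (Dt * R)) :
    g * k ≤ 1 / √2 * (Dt / (54 * Z * c ^ 2)) * W := by
  have h2 : (7071 : ℝ) / 10000 ≤ 1 / √2 := by
    have h3 : √2 ≤ 14142136 / 10000000 := by
      rw [Real.sqrt_le_iff]
      constructor <;> norm_num
    have h4 : 0 < √2 := by positivity
    rw [le_div_iff₀ h4]
    nlinarith
  have p1 : 0 < 54 * Z * c ^ 2 := by positivity
  have p2 : 0 ≤ Dt / (54 * Z * c ^ 2) := div_nonneg hD p1.le
  have g1 : Dt / (54 * Z * c ^ 2) * (Z * R) ≤ Dt / (54 * Z * c ^ 2) * W :=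
    mul_le_mul_of_nonneg_left hW p2
  have g2 : Dt / (54 * Z * c ^ 2) * (Z * R) = Dt * R / (54 * c ^ 2) := by
    field_simp
  have g3 : 16 / (M * 54) * k ≤ Dt * R / (54 * c ^ 2) := by
    rw [le_div_iff₀ (by positivity)]
    have e1 : 16 / (M * 54) * k * (54 * c ^ 2) = k * (4 * c) ^ 2 / M := by
      field_simp
      ring
    rw [e1, div_le_iff₀ hM]
    linarith
  have g4 : 16 / (M * 54) * k ≤ Dt / (54 * Z * c ^ 2) * W := by
    rw [g2] at g1
    exact g3.trans g1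
  have g5 : 0 ≤ 16 / (M * 54) * k := by positivity
  have g6 := mul_le_mul h2 g4 g5 (by positivity)
  have g7 : g ≤ 7071 / 10000 * (16 / (M * 54)) := by
    rw [← mul_div_assoc, le_div_iff₀ (by positivity)]
    linarith
  calc g * k ≤ 7071 / 10000 * (16 / (M * 54)) * k := mul_le_mul_of_nonneg_right g7 hk
    _ = 7071 / 10000 * (16 / (M * 54) * k) := by ring
    _ ≤ 1 / √2 * (Dt / (54 * Z * c ^ 2) * W) := g6
    _ = 1 / √2 * (Dt / (54 * Z * c ^ 2)) * W := by ring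

/-- the six permutations -/
def P6 (σ : Fin 3 → Fin 3) : Prop :=
  σ = ![1, 2, 0] ∨ σ = ![2, 0, 1] ∨ σ = ![0, 2, 1] ∨ σ = ![1, 0, 2] ∨ σ = ![2, 1, 0]
    ∨ σ = ![0, 1, 2]

theorem XL_perm (hd : ∀ k, N k k = 0) {σ : Fin 3 → Fin 3} (hσ : P6 σ) (ζ : Fin 3 → ℝ) :
    XL (pN σ N) (fun k => ζ (σ k)) = XL N ζ := by
  obtain ⟨h1, h2, h3, h4⟩ := perm_data (N := N) hd (fun k => ζ k / (ζ 0 + ζ 1 + ζ 2)) hσ
  have h5 : ζ (σ 0) + ζ (σ 1) + ζ (σ 2) = ζ 0 + ζ 1 + ζ 2 :=
    (perm_data (N := N) hd ζ hσ).2.2.2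
  unfold XL
  simp only [h5]
  rw [h2, h1]

theorem Qf_perm {σ : Fin 3 → Fin 3} (hσ : P6 σ) (v : Fin 3 → ℝ) :
    Qf (fun k => v (σ k)) = Qf v := by
  rcases hσ with rfl | rfl | rfl | rfl | rfl | rfl
  all_goals
    simp only [Qf, Matrix.cons_val_zero, Matrix.cons_val_one, Matrix.cons_val] <;> ring

theorem LN_perm {σ : Fin 3 → Fin 3} (hσ : P6 σ) (m : Fin 3 → ℝ) (k : Fin 3) :
    LN (pN σ N) (fun i => m (σ i)) k = LN N m (σ k) := by
  rcases hσ with rfl | rfl | rfl | rfl | rfl | rfl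
  all_goals
    simp only [LN, pN, Matrix.cons_val_zero, Matrix.cons_val_one, Matrix.cons_val] <;> ring

theorem pN_nonneg (hN : ∀ k m, 0 ≤ N k m) (σ : Fin 3 → Fin 3) : ∀ k m, 0 ≤ pN σ N k m :=
  fun _ _ => hN _ _

theorem nc_perm (hd : ∀ k, N k k = 0) {σ : Fin 3 → Fin 3} (hσ : P6 σ) (k : Fin 3) :
    nc (pN σ N) k = nc N (σ k) :=
  (perm_data (N := N) hd (fun _ => 0) hσ).2.2.1 k

/-- two clipped coordinates `1`, `2` at the level of the explicit mass -/
theorem XL_v12 (hN : ∀ k m, 0 ≤ N k m) (hd : ∀ k, N k k = 0) (ht : ∀ k, nc N k ≤ 1 / 2)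
    (hdet : 0 ≤ (PN N).det) {m u : Fin 3 → ℝ} (hu : ∀ k, u k = m k + LN N m k) (m0 : 0 < m 0)
    (m1 : m 1 ≤ 0) (m2 : m 2 ≤ 0) {V r : ℝ} (hV0 : 0 ≤ V) (hV : ∀ k, -V ≤ u k)
    (hr : √(Qf (fun k => max (u k) 0)) ≤ r) (hVr : V ≤ 1 / 4 * r) :
    19203 / 100000 * ((1 - 13 / 10 * nc N 0) * (1 - 11 / 10 * nc N 1) * (1 - 13 / 10 * nc N 2))
      ≤ XL N (fun k => max (m k) 0) * (r + nc N 1 * V) := by
  have u0 := hu 0
  have u1 := hu 1
  have u2 := hu 2
  simp only [LN, hd, zero_mul] at u0 u1 u2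
  have n1 := nc_nonneg hN 1
  have n2 := nc_nonneg hN 2
  have r0 : 0 ≤ r := (Real.sqrt_nonneg _).trans hr
  obtain ⟨yi, y0, y1, y2⟩ := clip_two (mi := m 0) (mj := m 2) (mn := m 1) (ui := u 0)
    (uj := u 2) (un := u 1) (V := V) (Nji := N 2 0) (Nni := N 1 0) (hN 0 2) (hN 0 1) (hN 2 1) (hN 1 2)
    (by linarith) (by linarith) (by linarith) m1 m2 (hV 2) (hV 1)
  have e0 : max (m 0) 0 = m 0 := max_eq_left m0.le
  have e1 : max (m 1) 0 = 0 := max_eq_right m1
  have e2 : max (m 2) 0 = 0 := max_eq_right m2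
  have hnorm : m 0 ≤ √(Qf (fun k => max (u k) 0))
      + ((N 0 1 * N 1 0 + N 0 2 * N 2 0) * m 0 + (N 0 1 + N 0 2) * V) := by
    have h1 := norm_add (p := fun k => max (u k) 0) (q := fun k => max (m k) 0)
      (y := ![yi, 0, 0]) (w := (N 0 1 * N 1 0 + N 0 2 * N 2 0) * m 0 + (N 0 1 + N 0 2) * V)
      (fun k => le_max_right _ _) (fun k => le_max_right _ _)
      (by
        intro k
        fin_cases k
        · exact y0
        · exact le_rfl
        · exact le_rfl)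
      (by
        intro k
        fin_cases k
        · show max (m 0) 0 ≤ max (u 0) 0 + yi
          rw [e0]; exact y1
        · show max (m 1) 0 ≤ max (u 1) 0 + 0
          rw [e1, add_zero]; exact le_max_right _ _
        · show max (m 2) 0 ≤ max (u 2) 0 + 0
          rw [e2, add_zero]; exact le_max_right _ _)
      (by
        show yi + 0 + 0 ≤ _
        linarith)
    have h2 : √(Qf fun k => max (m k) 0) = m 0 := by
      have : Qf (fun k => max (m k) 0) = m 0 ^ 2 := by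
        simp only [Qf, e0, e1, e2]
        ring
      rw [this, Real.sqrt_sq m0.le]
    rwa [h2] at h1
  set ζ : Fin 3 → ℝ := fun k => max (m k) 0 with hζ
  have z0 : ζ 0 = m 0 := e0
  have z1 : ζ 1 = 0 := e1
  have z2 : ζ 2 = 0 := e2
  have hZ : ζ 0 + ζ 1 + ζ 2 = m 0 := by rw [z0, z1, z2]; ring
  have k := vert_prod12 hN hd ht (A := fun k => ζ k / (ζ 0 + ζ 1 + ζ 2))
    (by rw [hZ, z0]; exact div_self m0.ne') (by rw [z1, zero_div]) (by rw [z2, zero_div])
  have hc0 : (1 : ℝ) / 5 ≤ cbP N (fun k => ζ k / (ζ 0 + ζ 1 + ζ 2)) := by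
    refine cbP_pos hN hd (fun k => div_nonneg (le_max_right _ _) (by rw [hZ]; exact m0.le)) ?_
    rw [← add_div, ← add_div, div_self (by rw [hZ]; exact m0.ne')]
  have hP : 0 ≤ (1 - 13 / 10 * nc N 0) * (1 - 11 / 10 * nc N 1) * (1 - 13 / 10 * nc N 2)
      * (1 + 1 / 4 * nc N 2) := by
    have := ht 0
    have := ht 1
    have := ht 2
    exact mul_nonneg (mul_nonneg (mul_nonneg (by linarith) (by linarith)) (by linarith))
      (by linarith)
  have a1 : N 0 1 ≤ nc N 1 := by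
    simp only [nc, hd]
    linarith [hN 2 1]
  have a2 : N 0 2 ≤ nc N 2 := by
    simp only [nc, hd]
    linarith [hN 1 2]
  have hW : (ζ 0 + ζ 1 + ζ 2) * (1 - (N 0 1 * N 1 0 + N 0 2 * N 2 0))
      ≤ (r + nc N 1 * V) * (1 + 1 / 4 * nc N 2) := by
    have b1 : (N 0 1 + N 0 2) * V ≤ (nc N 1 + nc N 2) * V :=
      mul_le_mul_of_nonneg_right (by linarith) hV0
    have b2 : nc N 2 * V ≤ nc N 2 * (1 / 4 * r) := mul_le_mul_of_nonneg_left hVr n2
    have b3 : 0 ≤ 1 / 4 * nc N 2 * (nc N 1 * V) := by positivity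
    rw [hZ]
    linarith
  have key := XL_gen2 (Z := ζ 0 + ζ 1 + ζ 2) (W := (r + nc N 1 * V) * (1 + 1 / 4 * nc N 2))
    (M := 1091 / 1000) (g := 19203 / 100000) (by rw [hZ]; exact m0) (by linarith) hdet hW hP
    (by norm_num) (by norm_num) k
  have pos : 0 < 1 + 1 / 4 * nc N 2 := by linarith
  have key2 : (19203 / 100000 * ((1 - 13 / 10 * nc N 0) * (1 - 11 / 10 * nc N 1)
      * (1 - 13 / 10 * nc N 2))) * (1 + 1 / 4 * nc N 2)
      ≤ (XL N ζ * (r + nc N 1 * V)) * (1 + 1 / 4 * nc N 2) := by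
    refine le_trans (le_of_eq (by ring)) (key.trans (le_of_eq ?_))
    unfold XL
    ring
  exact le_of_mul_le_mul_right key2 pos

/-- clipped coordinate `2` at the level of the explicit mass -/
theorem XL_l2 (hN : ∀ k m, 0 ≤ N k m) (hd : ∀ k, N k k = 0) (ht : ∀ k, nc N k ≤ 1 / 2)
    (hdet : 0 ≤ (PN N).det) {m u : Fin 3 → ℝ} (hu : ∀ k, u k = m k + LN N m k) (m2 : m 2 ≤ 0)
    (hZp : 0 < max (m 0) 0 + max (m 1) 0 + max (m 2) 0)
    {V r : ℝ} (hV0 : 0 ≤ V) (hV : ∀ k, -V ≤ u k)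
    (hr : √(Qf (fun k => max (u k) 0)) ≤ r) (hVr : V ≤ 1 / 4 * r) :
    19203 / 100000 * ((1 - 13 / 10 * nc N 0) * (1 - 13 / 10 * nc N 1) * (1 - 11 / 10 * nc N 2))
      ≤ XL N (fun k => max (m k) 0) * (r + nc N 2 * V) := by
  rcases le_or_gt (m 1) 0 with m1 | m1
  · -- `m 0 > 0`, `1` and `2` clipped
    have m0 : 0 < m 0 := by
      rw [max_eq_right m1, max_eq_right m2] at hZp
      by_contra hneg
      rw [max_eq_right (not_lt.1 hneg)] at hZp
      linarith
    have hσ : P6 ![0, 2, 1] := by unfold P6; simp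
    have k := XL_v12 (N := pN ![0, 2, 1] N) (m := fun k => m (![0, 2, 1] k))
      (u := fun k => u (![0, 2, 1] k)) (pN_nonneg hN _) (fun k => hd _)
      (fun k => by rw [nc_perm hd hσ]; exact ht _)
      (by rw [(perm_data (N := N) hd (fun _ => 0) hσ).2.1]; exact hdet)
      (fun k => by rw [LN_perm hσ]; exact hu _) m0 m2 m1 hV0 (fun k => hV _)
      (by
        have := Qf_perm hσ (fun k => max (u k) 0)
        rw [this]; exact hr) hVr
    have hX := XL_perm (N := N) hd hσ (fun k => max (m k) 0)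
    rw [hX, nc_perm hd hσ, nc_perm hd hσ, nc_perm hd hσ] at k
    refine le_trans (le_of_eq ?_) k
    simp only [Matrix.cons_val_zero, Matrix.cons_val_one, Matrix.cons_val]
    ring
  rcases le_or_gt (m 0) 0 with m0 | m0
  · have hσ : P6 ![1, 2, 0] := by unfold P6; simp
    have k := XL_v12 (N := pN ![1, 2, 0] N) (m := fun k => m (![1, 2, 0] k))
      (u := fun k => u (![1, 2, 0] k)) (pN_nonneg hN _) (fun k => hd _)
      (fun k => by rw [nc_perm hd hσ]; exact ht _)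
      (by rw [(perm_data (N := N) hd (fun _ => 0) hσ).2.1]; exact hdet)
      (fun k => by rw [LN_perm hσ]; exact hu _) m1 m2 m0 hV0 (fun k => hV _)
      (by
        have := Qf_perm hσ (fun k => max (u k) 0)
        rw [this]; exact hr) hVr
    have hX := XL_perm (N := N) hd hσ (fun k => max (m k) 0)
    rw [hX, nc_perm hd hσ, nc_perm hd hσ, nc_perm hd hσ] at k
    refine le_trans (le_of_eq ?_) k
    simp only [Matrix.cons_val_zero, Matrix.cons_val_one, Matrix.cons_val]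
    ring
  · -- one clipped coordinate
    have u0 := hu 0
    have u1 := hu 1
    have u2 := hu 2
    simp only [LN, hd, zero_mul] at u0 u1 u2
    have e0 : max (m 0) 0 = m 0 := max_eq_left m0.le
    have e1 : max (m 1) 0 = m 1 := max_eq_left m1.le
    have e2 : max (m 2) 0 = 0 := max_eq_right m2
    obtain ⟨yi, yj, a1, a2, a3, a4, a5⟩ := clip_one (mi := m 0) (mj := m 1) (mn := m 2)
      (ui := u 0) (uj := u 1) (un := u 2) (V := V) (Nni := N 2 0) (Nnj := N 2 1) (hN 0 1) (hN 1 0) (hN 0 2) (hN 1 2)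
      (by linarith) (by linarith) (by linarith) m2 (hV 2) m0.le m1.le
    set ζ : Fin 3 → ℝ := fun k => max (m k) 0 with hζ
    have z0 : ζ 0 = m 0 := e0
    have z1 : ζ 1 = m 1 := e1
    have z2 : ζ 2 = 0 := e2
    have hnorm : √(Qf ζ) ≤ √(Qf (fun k => max (u k) 0))
        + nc N 2 * (N 2 0 * m 0 + N 2 1 * m 1 + V) := by
      have hn2 : nc N 2 = N 0 2 + N 1 2 := by simp only [nc, hd]; ring
      rw [hn2]
      exact norm_add (p := fun k => max (u k) 0) (q := ζ) (y := ![yi, yj, 0])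
        (fun k => le_max_right _ _) (fun k => le_max_right _ _)
        (by
          intro k
          fin_cases k
          · exact a1
          · exact a2
          · exact le_rfl)
        (by
          intro k
          fin_cases k
          · show max (m 0) 0 ≤ max (u 0) 0 + yi
            rw [e0]; exact a3
          · show max (m 1) 0 ≤ max (u 1) 0 + yj
            rw [e1]; exact a4
          · show max (m 2) 0 ≤ max (u 2) 0 + 0
            rw [e2, add_zero]; exact le_max_right _ _)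
        (by
          show yi + yj + 0 ≤ _
          linarith)
    set Z := ζ 0 + ζ 1 + ζ 2 with hZd
    have hZ : 0 < Z := hZp
    have hA : ∀ k, 0 ≤ ζ k / Z := fun k => div_nonneg (le_max_right _ _) hZ.le
    have hs : ζ 0 / Z + ζ 1 / Z + ζ 2 / Z = 1 := by
      rw [← add_div, ← add_div, ← hZd, div_self hZ.ne']
    have k := clip_prod2 hN hd ht (A := fun k => ζ k / Z) hA hs (by rw [z2, zero_div])
    have hc0 : (1 : ℝ) / 5 ≤ cbP N (fun k => ζ k / Z) := cbP_pos hN hd hA hs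
    have hP : 0 ≤ (1 - 13 / 10 * nc N 0) * (1 - 13 / 10 * nc N 1)
        * (1 - 11 / 10 * nc N 2) := by
      have := ht 0
      have := ht 1
      have := ht 2
      exact mul_nonneg (mul_nonneg (by linarith) (by linarith)) (by linarith)
    have hQ : Z * √(1 - ζ 0 / Z * (ζ 1 / Z)) = √(Qf ζ) := by
      have h1 : Qf ζ = Z ^ 2 * (1 - ζ 0 / Z * (ζ 1 / Z)) := by
        have hz1 : Z ^ 2 * (1 - ζ 0 / Z * (ζ 1 / Z)) = Z ^ 2 - ζ 0 * ζ 1 := by
          field_simp
        rw [hz1, hZd]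
        unfold Qf
        rw [z2]
        ring
      rw [h1, Real.sqrt_mul (by positivity), Real.sqrt_sq hZ.le]
    have hW : Z * (√(1 - ζ 0 / Z * (ζ 1 / Z)) - nc N 2 * (N 2 0 * (ζ 0 / Z) + N 2 1 * (ζ 1 / Z)))
        ≤ r + nc N 2 * V := by
      have h1 : Z * (nc N 2 * (N 2 0 * (ζ 0 / Z) + N 2 1 * (ζ 1 / Z)))
          = nc N 2 * (N 2 0 * m 0 + N 2 1 * m 1) := by
        rw [z0, z1]
        field_simp
      rw [mul_sub, hQ, h1]
      linarith
    exact XL_gen2 (M := 1091 / 1000) (g := 19203 / 100000) hZ (by linarith) hdet hW hP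
      (by norm_num) (by norm_num) k

/-- the product of the cone class -/
noncomputable def PC (N : Fin 3 → Fin 3 → ℝ) : ℝ :=
  (1 - 19 / 20 * nc N 0) * (1 - 19 / 20 * nc N 1) * (1 - 19 / 20 * nc N 2)

/-- the product of the class of the clipped coordinate `l` -/
noncomputable def PX (N : Fin 3 → Fin 3 → ℝ) (l : Fin 3) : ℝ :=
  (1 - (if l = 0 then 11 / 10 else 13 / 10) * nc N 0)
    * (1 - (if l = 1 then 11 / 10 else 13 / 10) * nc N 1)
    * (1 - (if l = 2 then 11 / 10 else 13 / 10) * nc N 2)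

/-- any clipped coordinate, at the level of the explicit mass -/
theorem XL_l (hN : ∀ k m, 0 ≤ N k m) (hd : ∀ k, N k k = 0) (ht : ∀ k, nc N k ≤ 1 / 2)
    (hdet : 0 ≤ (PN N).det) {m u : Fin 3 → ℝ} (hu : ∀ k, u k = m k + LN N m k) {l : Fin 3}
    (ml : m l ≤ 0) (hZp : 0 < max (m 0) 0 + max (m 1) 0 + max (m 2) 0)
    {V r : ℝ} (hV0 : 0 ≤ V) (hV : ∀ k, -V ≤ u k)
    (hr : √(Qf (fun k => max (u k) 0)) ≤ r) (hVr : V ≤ 1 / 4 * r) :
    19203 / 100000 * PX N l ≤ XL N (fun k => max (m k) 0) * (r + nc N l * V) := by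
  fin_cases l
  · have hσ : P6 ![1, 2, 0] := by unfold P6; simp
    have k := XL_l2 (N := pN ![1, 2, 0] N) (m := fun k => m (![1, 2, 0] k))
      (u := fun k => u (![1, 2, 0] k)) (pN_nonneg hN _) (fun k => hd _)
      (fun k => by rw [nc_perm hd hσ]; exact ht _)
      (by rw [(perm_data (N := N) hd (fun _ => 0) hσ).2.1]; exact hdet)
      (fun k => by rw [LN_perm hσ]; exact hu _) ml
      (by
        show 0 < max (m 1) 0 + max (m 2) 0 + max (m 0) 0
        linarith) hV0 (fun k => hV _)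
      (by
        have := Qf_perm hσ (fun k => max (u k) 0)
        rw [this]; exact hr) hVr
    have hX := XL_perm (N := N) hd hσ (fun k => max (m k) 0)
    rw [hX, nc_perm hd hσ, nc_perm hd hσ, nc_perm hd hσ] at k
    refine le_trans (le_of_eq ?_) k
    simp [PX]
    ring
  · have hσ : P6 ![2, 0, 1] := by unfold P6; simp
    have k := XL_l2 (N := pN ![2, 0, 1] N) (m := fun k => m (![2, 0, 1] k))
      (u := fun k => u (![2, 0, 1] k)) (pN_nonneg hN _) (fun k => hd _)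
      (fun k => by rw [nc_perm hd hσ]; exact ht _)
      (by rw [(perm_data (N := N) hd (fun _ => 0) hσ).2.1]; exact hdet)
      (fun k => by rw [LN_perm hσ]; exact hu _) ml
      (by
        show 0 < max (m 2) 0 + max (m 0) 0 + max (m 1) 0
        linarith) hV0 (fun k => hV _)
      (by
        have := Qf_perm hσ (fun k => max (u k) 0)
        rw [this]; exact hr) hVr
    have hX := XL_perm (N := N) hd hσ (fun k => max (m k) 0)
    rw [hX, nc_perm hd hσ, nc_perm hd hσ, nc_perm hd hσ] at k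
    refine le_trans (le_of_eq ?_) k
    simp [PX]
    ring
  · have k := XL_l2 hN hd ht hdet hu ml hZp hV0 hV hr hVr
    refine le_trans (le_of_eq ?_) k
    simp [PX]

section
variable (hN : ∀ k m, 0 ≤ N k m) (hd : ∀ k, N k k = 0) {c : ℝ} (hc : c < 1)
  (hcol : ∀ m, nc N m ≤ c)
include hN hd hc hcol

/-- from the explicit mass at the closed position to the integral, general constants -/
theorem apex_of_XL2 {m : Fin 3 → ℝ} {W k g g' : ℝ} (hg : g < g') (hW : 0 ≤ W)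
    (hZ : 0 < max (m 0) 0 + max (m 1) 0 + max (m 2) 0) (hk : 0 < k)
    (h : g' * k ≤ XL N (fun i => max (m i) 0) * W) :
    ∃ ζp : Fin 3 → ℝ, (∀ i, 0 < ζp i) ∧ (∀ i, m i ≤ ζp i) ∧
      g * k ≤ Pool.Agent.Helper55.Mass.Id (alP N ζp) * W := by
  have h1 : g * k < XL N (fun i => max (m i) 0) * W :=
    lt_of_lt_of_le (mul_lt_mul_of_pos_right hg hk) h
  obtain ⟨ε, hε, h2⟩ := XL_near hN hd (fun i => le_max_right (m i) 0) hZ h1
  have hp : ∀ i, 0 < max (m i) 0 + ε := fun i => by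
    have := le_max_right (m i) 0
    linarith
  refine ⟨fun i => max (m i) 0 + ε, hp, fun i => ?_, ?_⟩
  · have := le_max_left (m i) 0
    linarith
  · exact h2.le.trans (mul_le_mul_of_nonneg_right (XL_le_Id hN hd hc hcol hp) hW)

theorem pos_sum {u : Fin 3 → ℝ} (hu : ∃ k, 0 < u k) :
    0 < max (mu (PN N) u 0) 0 + max (mu (PN N) u 1) 0 + max (mu (PN N) u 2) 0 := by
  have hbal := mu_bal hN hd hc hcol u
  set m := mu (PN N) u with hm
  have x0 := le_max_right (m 0) 0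
  have x1 := le_max_right (m 1) 0
  have x2 := le_max_right (m 2) 0
  by_contra hneg
  have z0 : m 0 ≤ 0 := by linarith [le_max_left (m 0) 0]
  have z1 : m 1 ≤ 0 := by linarith [le_max_left (m 1) 0]
  have z2 : m 2 ≤ 0 := by linarith [le_max_left (m 2) 0]
  obtain ⟨k, hk⟩ := hu
  have h1 := hbal k
  have h2 := mul_nonpos_of_nonneg_of_nonpos (hN k 0) z0
  have h3 := mul_nonpos_of_nonneg_of_nonpos (hN k 1) z1
  have h4 := mul_nonpos_of_nonneg_of_nonpos (hN k 2) z2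
  have hz : m k ≤ 0 := by fin_cases k <;> assumption
  simp only [LN] at h1
  linarith

/-- **the apex in the cone of the contact points, product form** -/
theorem apex_cone_prod (ht : ∀ k, nc N k ≤ 1 / 2) {u : Fin 3 → ℝ}
    (hμ : ∀ k, 0 ≤ mu (PN N) u k) (hu : ∃ k, 0 < u k) :
    ∃ ζp : Fin 3 → ℝ, (∀ k, 0 < ζp k) ∧ (∀ k, mu (PN N) u k ≤ ζp k) ∧
      1872 / 10000 * PC N ≤ Pool.Agent.Helper55.Mass.Id (alP N ζp) * √(Qf u) := by
  have hbal := mu_bal hN hd hc hcol u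
  have hZ0 := pos_sum hN hd hc hcol hu
  set m := mu (PN N) u with hm
  have hmm : (fun i => max (m i) 0) = m := by
    funext i
    exact max_eq_left (hμ i)
  have hPC : 0 < PC N := by
    have := ht 0
    have := ht 1
    have := ht 2
    unfold PC
    exact mul_pos (mul_pos (by linarith) (by linarith)) (by linarith)
  refine apex_of_XL2 (g' := 18722 / 100000) hN hd hc hcol (by norm_num) (Real.sqrt_nonneg _) hZ0
    hPC ?_
  rw [hmm]
  have hZ : 0 < m 0 + m 1 + m 2 := by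
    rwa [max_eq_left (hμ 0), max_eq_left (hμ 1), max_eq_left (hμ 2)] at hZ0
  set Z := m 0 + m 1 + m 2 with hZd
  have hA : ∀ k, 0 ≤ m k / Z := fun k => div_nonneg (hμ k) hZ.le
  have hs : m 0 / Z + m 1 / Z + m 2 / Z = 1 := by
    rw [← add_div, ← add_div, ← hZd, div_self hZ.ne']
  have hcore := cone_prod hN hd ht (A := fun k => m k / Z) hA hs
  have hu2 : u = Z • (PN N *ᵥ fun k => m k / Z) := by
    funext k
    rw [Pi.smul_apply, PN_mul, smul_eq_mul, ← hbal k]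
    simp only [LN]
    field_simp
  have hQ : √(Qf u) = Z * √(Qf (PN N *ᵥ fun k => m k / Z)) := by
    rw [hu2, Helper75.MEI2.Qf_smul, Real.sqrt_mul (by positivity), Real.sqrt_sq hZ.le]
  exact XL_gen2 (M := 1119 / 1000) (g := 18722 / 100000) hZ
    (by linarith [cbP_pos hN hd (A := fun k => m k / Z) hA hs])
    (PN_det_pos hN hd hc hcol).le hQ.ge hPC.le (by norm_num) (by norm_num) hcore

/-- **the apex with a clipped coordinate `l`, product form** -/
theorem apex_clip_prod (ht : ∀ k, nc N k ≤ 1 / 2) {u : Fin 3 → ℝ} (hu : ∃ k, 0 < u k)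
    {l : Fin 3} (hl : mu (PN N) u l ≤ 0) {V r : ℝ} (hV0 : 0 ≤ V) (hV : ∀ k, -V ≤ u k)
    (hr : √(Qf (fun k => max (u k) 0)) ≤ r) (hVr : V ≤ 1 / 4 * r) :
    ∃ ζp : Fin 3 → ℝ, (∀ k, 0 < ζp k) ∧ (∀ k, mu (PN N) u k ≤ ζp k) ∧
      192 / 1000 * PX N l ≤ Pool.Agent.Helper55.Mass.Id (alP N ζp) * (r + nc N l * V) := by
  have hbal := mu_bal hN hd hc hcol u
  have hZ0 := pos_sum hN hd hc hcol hu
  have hP : 0 < PX N l := by
    have := ht 0
    have := ht 1
    have := ht 2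
    have n0 := nc_nonneg hN 0
    have n1 := nc_nonneg hN 1
    have n2 := nc_nonneg hN 2
    unfold PX
    refine mul_pos (mul_pos ?_ ?_) ?_
    all_goals
      split_ifs <;> linarith
  have r0 : 0 ≤ r := (Real.sqrt_nonneg _).trans hr
  refine apex_of_XL2 (g' := 19203 / 100000) hN hd hc hcol (by norm_num)
    (add_nonneg r0 (mul_nonneg (nc_nonneg hN l) hV0)) hZ0 hP ?_
  exact XL_l hN hd ht (PN_det_pos hN hd hc hcol).le (fun k => (hbal k).symm) hl hZ0 hV0 hV hr hVr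

/-- **four classes of positions** -/
theorem apex_four (ht : ∀ k, nc N k ≤ 1 / 2) {u : Fin 3 → ℝ} {s C r V : ℝ}
    (hf : Qf u = 1 + s) (hs0 : 0 ≤ s)
    (hs1 : s ≤ 1 / 3) (hcap : ∀ k, s - C ≤ u k + (u 0 + u 1 + u 2) - 1) (hC0 : 0 ≤ C)
    (hC : C < 1) (hr0 : 0 ≤ r) (hr : 3 / 2 * (1 + s) - 3 / 8 * (1 + s - C) ^ 2 ≤ r ^ 2)
    (hV0 : 0 ≤ V) (hV : 1 / 2 * (1 + s) - (1 + s - C) ^ 2 / 8 ≤ (V + (1 + s - C) / 2) ^ 2)
    (hVr : V ≤ 1 / 4 * r) :
    ∃ ζp : Fin 3 → ℝ, (∀ k, 0 < ζp k) ∧ (∀ k, mu (PN N) u k ≤ ζp k) ∧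
      (((∀ k, 0 ≤ mu (PN N) u k) ∧
          1872 / 10000 * PC N ≤ Pool.Agent.Helper55.Mass.Id (alP N ζp) * √(1 + s)) ∨
        ∃ l, mu (PN N) u l ≤ 0 ∧ 192 / 1000 * PX N l ≤
          Pool.Agent.Helper55.Mass.Id (alP N ζp) * (r + nc N l * V)) := by
  obtain ⟨h1, h2⟩ := pos_bounds hf hs0 hs1 hcap hC0 (by linarith)
  have hu : ∃ k, 0 < u k := by
    by_contra hneg
    push Not at hneg
    have a0 := hneg 0
    have a1 := hneg 1
    have a2 := hneg 2
    have c0 := hcap 0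
    have c1 := hcap 1
    have c2 := hcap 2
    linarith
  by_cases hall : ∀ k, 0 ≤ mu (PN N) u k
  · obtain ⟨ζp, k1, k2, k3⟩ := apex_cone_prod hN hd hc hcol ht hall hu
    rw [hf] at k3
    exact ⟨ζp, k1, k2, Or.inl ⟨hall, k3⟩⟩
  · push Not at hall
    obtain ⟨l, hl⟩ := hall
    have h3 : √(Qf fun k => max (u k) 0) ≤ r := by
      rw [Real.sqrt_le_iff]
      exact ⟨hr0, h1.trans hr⟩
    obtain ⟨ζp, k1, k2, k3⟩ := apex_clip_prod hN hd hc hcol ht hu hl.le hV0 (h2 hV0 hV) h3 hVr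
    exact ⟨ζp, k1, k2, Or.inr ⟨l, hl.le, k3⟩⟩

end

end Pool.Agent.Helper55.TentL
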