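import Pool.Agent.Helper55.MEI.Tent2

/-!
# Lower bound of the apex mass: any position of the apex
-/

namespace Pool.Agent.Helper55.TentL

open Set MeasureTheory Matrix Filter Topology Pool.Agent.Helper55.Sx Pool.Agent.Helper55.Mass
open Pool.Agent.Helper55.Apex Pool.Agent.Helper55.Fill Pool.Agent.Helper55.ApexP
open Helper75.MEI2 (vt Qf mu TC nn dd cc)

variable {N : Fin 3 → Fin 3 → ℝ}

/-- the triangle inequality in the form used below -/
theorem norm_add {p q y : Fin 3 → ℝ} {w : ℝ} (hp : ∀ k, 0 ≤ p k) (hq : ∀ k, 0 ≤ q k)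
    (hy : ∀ k, 0 ≤ y k) (h : ∀ k, q k ≤ p k + y k) (hw : y 0 + y 1 + y 2 ≤ w) :
    √(Qf q) ≤ √(Qf p) + w := by
  have p0 := hp 0
  have p1 := hp 1
  have p2 := hp 2
  have y0 := hy 0
  have y1 := hy 1
  have y2 := hy 2
  have hP := Real.sq_sqrt (Helper75.MEI2.Qf_nonneg p)
  have hP0 := Real.sqrt_nonneg (Qf p)
  have c0 : p 0 + (p 1 + p 2) / 2 ≤ √(Qf p) := by
    refine Real.le_sqrt_of_sq_le ?_
    unfold Qf
    nlinarith [sq_nonneg (p 1 + p 2), sq_nonneg (p 1 - p 2)]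
  have c1 : p 1 + (p 0 + p 2) / 2 ≤ √(Qf p) := by
    refine Real.le_sqrt_of_sq_le ?_
    unfold Qf
    nlinarith [sq_nonneg (p 0 + p 2), sq_nonneg (p 0 - p 2)]
  have c2 : p 2 + (p 0 + p 1) / 2 ≤ √(Qf p) := by
    refine Real.le_sqrt_of_sq_le ?_
    unfold Qf
    nlinarith [sq_nonneg (p 0 + p 1), sq_nonneg (p 0 - p 1)]
  set P := √(Qf p)
  have m0 := mul_le_mul_of_nonneg_left c0 y0
  have m1 := mul_le_mul_of_nonneg_left c1 y1
  have m2 := mul_le_mul_of_nonneg_left c2 y2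
  have w0 : 0 ≤ y 0 + y 1 + y 2 := by linarith
  have hPw : 0 ≤ P + w := by linarith
  refine Real.sqrt_le_iff.2 ⟨hPw, ?_⟩
  have k1 : Qf q ≤ Qf (fun k => p k + y k) := by
    have q0 := hq 0
    have q1 := hq 1
    have q2 := hq 2
    have h0 := h 0
    have h1 := h 1
    have h2 := h 2
    simp only [Qf]
    have s0 := pow_le_pow_left₀ q0 h0 2
    have s1 := pow_le_pow_left₀ q1 h1 2
    have s2 := pow_le_pow_left₀ q2 h2 2
    have s01 := mul_le_mul h0 h1 q1 (q0.trans h0)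
    have s02 := mul_le_mul h0 h2 q2 (q0.trans h0)
    have s12 := mul_le_mul h1 h2 q2 (q1.trans h1)
    linarith
  have k2 : Qf (fun k => p k + y k) = Qf p + 2 * (y 0 * (p 0 + (p 1 + p 2) / 2)
      + y 1 * (p 1 + (p 0 + p 2) / 2) + y 2 * (p 2 + (p 0 + p 1) / 2)) + Qf y := by
    simp only [Qf]
    ring
  have k3 : Qf y ≤ (y 0 + y 1 + y 2) ^ 2 := by
    simp only [Qf]
    nlinarith [mul_nonneg y0 y1, mul_nonneg y0 y2, mul_nonneg y1 y2]
  have k4 : (y 0 + y 1 + y 2) ^ 2 ≤ w ^ 2 := pow_le_pow_left₀ w0 hw 2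
  have k5 : 2 * P * (y 0 + y 1 + y 2) ≤ 2 * P * w :=
    mul_le_mul_of_nonneg_left hw (by positivity)
  calc Qf q ≤ Qf p + 2 * (y 0 * (p 0 + (p 1 + p 2) / 2)
      + y 1 * (p 1 + (p 0 + p 2) / 2) + y 2 * (p 2 + (p 0 + p 1) / 2)) + Qf y := by
        rw [← k2]; exact k1
    _ ≤ P ^ 2 + 2 * P * w + w ^ 2 := by rw [← hP]; nlinarith
    _ = (P + w) ^ 2 := by ring

/-- the clipped coordinates, scalars -/
theorem clip_scal {mi mj mn ui uj un Nij Nji Nin Nni Njn Nnj V b T : ℝ} (h1 : 0 ≤ Nij)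
    (h2 : 0 ≤ Nji) (h3 : 0 ≤ Nin) (h4 : 0 ≤ Nni) (h5 : 0 ≤ Njn) (h6 : 0 ≤ Nnj)
    (hui : ui = mi + Nij * mj + Nin * mn) (huj : uj = mj + Nji * mi + Njn * mn)
    (hun : un = mn + Nni * mi + Nnj * mj) (hmn : mn ≤ 0) (hV : 0 ≤ V)
    (v2 : -V ≤ uj) (v1 : -V ≤ ui) (v3 : -V ≤ un) (hb : 0 ≤ b) (b1 : mi ≤ b) (b2 : mj ≤ b)
    (hT : T = Nij + Nji + Nin + Nni + Njn + Nnj) :
    ∃ yi yj, 0 ≤ yi ∧ 0 ≤ yj ∧ max mi 0 ≤ max ui 0 + yi ∧ max mj 0 ≤ max uj 0 + yj ∧
      yi + yj ≤ T * V + b * T ^ 2 / 4 := by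
  have x1 := le_max_left ui 0
  have x2 := le_max_left uj 0
  have x3 := le_max_right ui 0
  have x4 := le_max_right uj 0
  have T0 : 0 ≤ T := by rw [hT]; positivity
  have hbT : 0 ≤ b * T ^ 2 / 4 := by positivity
  have hTV : 0 ≤ T * V := by positivity
  have nm : 0 ≤ -mn := by linarith
  rcases le_total 0 mi with hi | hi <;> rcases le_total 0 mj with hj | hj
  · refine ⟨Nin * (-mn), Njn * (-mn), by positivity, by positivity, ?_, ?_, ?_⟩
    · rw [max_eq_left hi]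
      have := mul_nonneg h1 hj
      linarith
    · rw [max_eq_left hj]
      have := mul_nonneg h2 hi
      linarith
    · have g1 : -mn ≤ (Nni + Nnj) * b + V := by
        have := mul_le_mul_of_nonneg_left b1 h4
        have := mul_le_mul_of_nonneg_left b2 h6
        linarith
      have g2 := mul_le_mul_of_nonneg_left g1 (show 0 ≤ Nin + Njn by linarith)
      have g3 : (Nin + Njn) * (Nni + Nnj) ≤ T ^ 2 / 4 := by
        have : (Nin + Njn) + (Nni + Nnj) ≤ T := by rw [hT]; linarith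
        nlinarith [sq_nonneg ((Nin + Njn) - (Nni + Nnj))]
      have g4 := mul_le_mul_of_nonneg_right g3 hb
      have g5 : (Nin + Njn) * V ≤ T * V :=
        mul_le_mul_of_nonneg_right (by rw [hT]; linarith) hV
      nlinarith
  · have nj : 0 ≤ -mj := by linarith
    refine ⟨Nin * (-mn) + Nij * (-mj), 0, by positivity, le_rfl, ?_, ?_, ?_⟩
    · rw [max_eq_left hi]
      linarith
    · rw [max_eq_right hj]
      linarith
    · have m1 := mul_nonneg h6 nj
      have m2 := mul_nonneg h5 nm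
      have g1 : -mn ≤ Nni * b + V := by
        have := mul_le_mul_of_nonneg_left b1 h4
        linarith
      have g2 : -mj ≤ Nji * b + V := by
        have := mul_le_mul_of_nonneg_left b1 h2
        linarith
      have g3 := mul_le_mul_of_nonneg_left g1 h3
      have g4 := mul_le_mul_of_nonneg_left g2 h1
      have g5 : Nin * Nni + Nij * Nji ≤ T ^ 2 / 4 := by
        have : (Nin + Nij) + (Nni + Nji) ≤ T := by rw [hT]; linarith
        nlinarith [sq_nonneg ((Nin + Nij) - (Nni + Nji)), mul_nonneg h3 h2, mul_nonneg h1 h4]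
      have g6 := mul_le_mul_of_nonneg_right g5 hb
      have g7 : (Nin + Nij) * V ≤ T * V :=
        mul_le_mul_of_nonneg_right (by rw [hT]; linarith) hV
      nlinarith
  · have ni : 0 ≤ -mi := by linarith
    refine ⟨0, Njn * (-mn) + Nji * (-mi), le_rfl, by positivity, ?_, ?_, ?_⟩
    · rw [max_eq_right hi]
      linarith
    · rw [max_eq_left hj]
      linarith
    · have m1 := mul_nonneg h4 ni
      have m2 := mul_nonneg h3 nm
      have g1 : -mn ≤ Nnj * b + V := by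
        have := mul_le_mul_of_nonneg_left b2 h6
        linarith
      have g2 : -mi ≤ Nij * b + V := by
        have := mul_le_mul_of_nonneg_left b2 h1
        linarith
      have g3 := mul_le_mul_of_nonneg_left g1 h5
      have g4 := mul_le_mul_of_nonneg_left g2 h2
      have g5 : Njn * Nnj + Nji * Nij ≤ T ^ 2 / 4 := by
        have : (Njn + Nji) + (Nnj + Nij) ≤ T := by rw [hT]; linarith
        nlinarith [sq_nonneg ((Njn + Nji) - (Nnj + Nij)), mul_nonneg h5 h1, mul_nonneg h2 h6]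
      have g6 := mul_le_mul_of_nonneg_right g5 hb
      have g7 : (Njn + Nji) * V ≤ T * V :=
        mul_le_mul_of_nonneg_right (by rw [hT]; linarith) hV
      nlinarith
  · refine ⟨0, 0, le_rfl, le_rfl, ?_, ?_, by linarith⟩
    · rw [max_eq_right hi]
      linarith
    · rw [max_eq_right hj]
      linarith

/-- **the length of the clipped coordinates** -/
theorem clip_norm (hN : ∀ k m, 0 ≤ N k m) (hd : ∀ k, N k k = 0) {u μ : Fin 3 → ℝ} {V b : ℝ}
    (hV0 : 0 ≤ V) (hV : ∀ k, -V ≤ u k) (hu : ∀ k, u k = μ k + LN N μ k) {n : Fin 3}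
    (hn : μ n ≤ 0) (hb0 : 0 ≤ b) (hb : ∀ k, μ k ≤ b) :
    √(Qf (fun k => max (μ k) 0)) ≤ √(Qf (fun k => max (u k) 0))
      + (TT N * V + b * TT N ^ 2 / 4) := by
  have u0 := hu 0
  have u1 := hu 1
  have u2 := hu 2
  simp only [LN, hd, zero_mul] at u0 u1 u2
  have hp : ∀ k, 0 ≤ (fun k => max (u k) 0) k := fun k => le_max_right _ _
  have hq : ∀ k, 0 ≤ (fun k => max (μ k) 0) k := fun k => le_max_right _ _
  have fin : ∀ y : Fin 3 → ℝ, (∀ k, 0 ≤ y k) → (∀ k, max (μ k) 0 ≤ max (u k) 0 + y k) →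
      y 0 + y 1 + y 2 ≤ TT N * V + b * TT N ^ 2 / 4 →
      √(Qf (fun k => max (μ k) 0)) ≤ √(Qf (fun k => max (u k) 0))
      + (TT N * V + b * TT N ^ 2 / 4) := fun y h1 h2 h3 => norm_add hp hq h1 h2 h3
  fin_cases n
  · have hn' : μ 0 ≤ 0 := hn
    obtain ⟨yi, yj, a1, a2, a3, a4, a5⟩ := clip_scal (mi := μ 1) (mj := μ 2) (mn := μ 0)
      (ui := u 1) (uj := u 2) (un := u 0) (T := TT N) (hN 1 2) (hN 2 1) (hN 1 0) (hN 0 1)
      (hN 2 0) (hN 0 2) (by linarith) (by linarith) (by linarith) hn' hV0 (hV 2) (hV 1) (hV 0)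
      hb0 (hb 1) (hb 2) (by unfold TT; ring)
    refine fin ![0, yi, yj] ?_ ?_ ?_
    · intro k
      fin_cases k
      · exact le_rfl
      · exact a1
      · exact a2
    · intro k
      fin_cases k
      · show max (μ 0) 0 ≤ max (u 0) 0 + 0
        rw [max_eq_right hn', add_zero]
        exact le_max_right _ _
      · exact a3
      · exact a4
    · show 0 + yi + yj ≤ _
      linarith
  · have hn' : μ 1 ≤ 0 := hn
    obtain ⟨yi, yj, a1, a2, a3, a4, a5⟩ := clip_scal (mi := μ 0) (mj := μ 2) (mn := μ 1)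
      (ui := u 0) (uj := u 2) (un := u 1) (T := TT N) (hN 0 2) (hN 2 0) (hN 0 1) (hN 1 0)
      (hN 2 1) (hN 1 2) (by linarith) (by linarith) (by linarith) hn' hV0 (hV 2) (hV 0) (hV 1)
      hb0 (hb 0) (hb 2) (by unfold TT; ring)
    refine fin ![yi, 0, yj] ?_ ?_ ?_
    · intro k
      fin_cases k
      · exact a1
      · exact le_rfl
      · exact a2
    · intro k
      fin_cases k
      · exact a3
      · show max (μ 1) 0 ≤ max (u 1) 0 + 0
        rw [max_eq_right hn', add_zero]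
        exact le_max_right _ _
      · exact a4
    · show yi + 0 + yj ≤ _
      linarith
  · have hn' : μ 2 ≤ 0 := hn
    obtain ⟨yi, yj, a1, a2, a3, a4, a5⟩ := clip_scal (mi := μ 0) (mj := μ 1) (mn := μ 2)
      (ui := u 0) (uj := u 1) (un := u 2) (T := TT N) (hN 0 1) (hN 1 0) (hN 0 2) (hN 2 0)
      (hN 1 2) (hN 2 1) (by linarith) (by linarith) (by linarith) hn' hV0 (hV 1) (hV 0) (hV 2)
      hb0 (hb 0) (hb 1) (by unfold TT; ring)
    refine fin ![yi, yj, 0] ?_ ?_ ?_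
    · intro k
      fin_cases k
      · exact a1
      · exact a2
      · exact le_rfl
    · intro k
      fin_cases k
      · exact a3
      · exact a4
      · show max (μ 2) 0 ≤ max (u 2) 0 + 0
        rw [max_eq_right hn', add_zero]
        exact le_max_right _ _
    · show yi + yj + 0 ≤ _
      linarith

/-- the explicit apex mass -/
noncomputable def XL (N : Fin 3 → Fin 3 → ℝ) (ζ : Fin 3 → ℝ) : ℝ :=
  1 / √2 * ((PN N).det / (54 * (ζ 0 + ζ 1 + ζ 2) *
    cbP N (fun k => ζ k / (ζ 0 + ζ 1 + ζ 2)) ^ 2))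

theorem XL_gen {Z c Dt R W k : ℝ} (hZ : 0 < Z) (hc : 0 < c) (hD : 0 ≤ Dt) (hW : Z * R ≤ W)
    (hk : 0 ≤ k) (h : k * (4 * c) ^ 2 ≤ 1119 / 1000 * (Dt * R)) :
    18723 / 100000 * k ≤ 1 / √2 * (Dt / (54 * Z * c ^ 2)) * W := by
  have h2 : (7071 : ℝ) / 10000 ≤ 1 / √2 := by
    have h3 : √2 ≤ 14142136 / 10000000 := by
      rw [Real.sqrt_le_iff]
      constructor <;> norm_num
    have h4 : 0 < √2 := by positivity
    rw [le_div_iff₀ h4]
    nlinarith
  have p1 : 0 < 54 * Z * c ^ 2 := by positivity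
  have p2 : 0 ≤ Dt / (54 * Z * c ^ 2) := div_nonneg hD p1.le
  have g1 : Dt / (54 * Z * c ^ 2) * (Z * R) ≤ Dt / (54 * Z * c ^ 2) * W :=
    mul_le_mul_of_nonneg_left hW p2
  have g2 : Dt / (54 * Z * c ^ 2) * (Z * R) = Dt * R / (54 * c ^ 2) := by
    field_simp
  have g3 : 16000 / (1119 * 54) * k ≤ Dt * R / (54 * c ^ 2) := by
    rw [le_div_iff₀ (by positivity)]
    nlinarith
  have g4 : 16000 / (1119 * 54) * k ≤ Dt / (54 * Z * c ^ 2) * W := by
    rw [g2] at g1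
    exact g3.trans g1
  have g5 : 0 ≤ 16000 / (1119 * 54) * k := by positivity
  have g6 := mul_le_mul h2 g4 g5 (by positivity)
  calc 18723 / 100000 * k ≤ 7071 / 10000 * (16000 / (1119 * 54) * k) := by nlinarith
    _ ≤ 1 / √2 * (Dt / (54 * Z * c ^ 2) * W) := g6
    _ = 1 / √2 * (Dt / (54 * Z * c ^ 2)) * W := by ring

theorem cbP_cont : Continuous fun A : Fin 3 → ℝ => cbP N A := by
  unfold cbP
  fun_prop

/-- the explicit mass is continuous -/
theorem XL_near (hN : ∀ k m, 0 ≤ N k m) (hd : ∀ k, N k k = 0) {ζ : Fin 3 → ℝ}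
    (hζ : ∀ k, 0 ≤ ζ k) (hZ : 0 < ζ 0 + ζ 1 + ζ 2) {W x : ℝ} (h : x < XL N ζ * W) :
    ∃ ε, 0 < ε ∧ x < XL N (fun k => ζ k + ε) * W := by
  have cA : ContinuousAt (fun ε : ℝ => fun k : Fin 3 =>
      (ζ k + ε) / ((ζ 0 + ε) + (ζ 1 + ε) + (ζ 2 + ε))) 0 := by
    refine continuousAt_pi.2 fun k => ?_
    refine ContinuousAt.div (by fun_prop) (by fun_prop) ?_
    simp only [add_zero]
    exact hZ.ne'
  have e0 : (fun k : Fin 3 => (ζ k + 0) / ((ζ 0 + 0) + (ζ 1 + 0) + (ζ 2 + 0)))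
      = fun k => ζ k / (ζ 0 + ζ 1 + ζ 2) := by
    funext k
    simp only [add_zero]
  have cb : ContinuousAt (fun ε : ℝ => cbP N (fun k : Fin 3 =>
      (ζ k + ε) / ((ζ 0 + ε) + (ζ 1 + ε) + (ζ 2 + ε)))) 0 :=
    ContinuousAt.comp (f := fun ε : ℝ => fun k : Fin 3 =>
      (ζ k + ε) / ((ζ 0 + ε) + (ζ 1 + ε) + (ζ 2 + ε))) (g := fun A => cbP N A)
      (cbP_cont.continuousAt) cA
  have hpos : 1 / 5 ≤ cbP N (fun k => ζ k / (ζ 0 + ζ 1 + ζ 2)) :=
    cbP_pos hN hd (fun k => div_nonneg (hζ k) hZ.le) (by field_simp)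
  have cX : ContinuousAt (fun ε : ℝ => XL N (fun k => ζ k + ε) * W) 0 := by
    unfold XL
    refine ContinuousAt.mul (ContinuousAt.mul continuousAt_const
      (ContinuousAt.div continuousAt_const (ContinuousAt.mul (by fun_prop) (cb.pow 2)) ?_))
      continuousAt_const
    show 54 * (ζ 0 + 0 + (ζ 1 + 0) + (ζ 2 + 0)) * cbP N (fun k : Fin 3 =>
      (ζ k + 0) / ((ζ 0 + 0) + (ζ 1 + 0) + (ζ 2 + 0))) ^ 2 ≠ 0
    rw [e0]
    simp only [add_zero]
    have : 0 < cbP N (fun k => ζ k / (ζ 0 + ζ 1 + ζ 2)) := by linarith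
    positivity
  have h0 : x < (fun ε : ℝ => XL N (fun k => ζ k + ε) * W) 0 := by
    simpa using h
  have hev := cX.eventually (lt_mem_nhds h0)
  obtain ⟨δ, hδ, hδ2⟩ := Metric.eventually_nhds_iff.1 hev
  refine ⟨δ / 2, by positivity, ?_⟩
  refine hδ2 ?_
  rw [Real.dist_eq, sub_zero, abs_of_pos (by positivity)]
  linarith

/-- the largest coordinate if one coordinate is zero -/
theorem clip_a {A : Fin 3 → ℝ} (hA : ∀ k, 0 ≤ A k) (hs : A 0 + A 1 + A 2 = 1) {n : Fin 3}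
    (hn : A n = 0) : ∃ a, 1 / 2 ≤ a ∧ a ≤ 1 ∧ (∀ k, A k ≤ a) ∧
      A 0 * A 1 + A 0 * A 2 + A 1 * A 2 = a * (1 - a) := by
  have a0 := hA 0
  have a1 := hA 1
  have a2 := hA 2
  have key : ∀ x y : ℝ, 0 ≤ x → 0 ≤ y → x + y = 1 →
      1 / 2 ≤ max x y ∧ max x y ≤ 1 ∧ x ≤ max x y ∧ y ≤ max x y ∧ x * y = max x y * (1 - max x y)
      ∧ 0 ≤ max x y := by
    intro x y hx hy h
    rcases le_total x y with h1 | h1
    · rw [max_eq_right h1]
      refine ⟨by linarith, by linarith, h1, le_rfl, ?_, hy⟩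
      have : x = 1 - y := by linarith
      rw [this]; ring
    · rw [max_eq_left h1]
      refine ⟨by linarith, by linarith, le_rfl, h1, ?_, hx⟩
      have : y = 1 - x := by linarith
      rw [this]
  fin_cases n
  · have hn' : A 0 = 0 := hn
    obtain ⟨k1, k2, k3, k4, k5, k6⟩ := key (A 1) (A 2) a1 a2 (by linarith)
    refine ⟨_, k1, k2, ?_, ?_⟩
    · intro k
      fin_cases k
      · show A 0 ≤ _
        rw [hn']; exact k6
      · exact k3
      · exact k4
    · rw [← k5, hn']; ring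
  · have hn' : A 1 = 0 := hn
    obtain ⟨k1, k2, k3, k4, k5, k6⟩ := key (A 0) (A 2) a0 a2 (by linarith)
    refine ⟨_, k1, k2, ?_, ?_⟩
    · intro k
      fin_cases k
      · exact k3
      · show A 1 ≤ _
        rw [hn']; exact k6
      · exact k4
    · rw [← k5, hn']; ring
  · have hn' : A 2 = 0 := hn
    obtain ⟨k1, k2, k3, k4, k5, k6⟩ := key (A 0) (A 1) a0 a1 (by linarith)
    refine ⟨_, k1, k2, ?_, ?_⟩
    · intro k
      fin_cases k
      · exact k3
      · exact k4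
      · show A 2 ≤ _
        rw [hn']; exact k6
    · rw [← k5, hn']; ring

section
variable (hN : ∀ k m, 0 ≤ N k m) (hd : ∀ k, N k k = 0) {c : ℝ} (hc : c < 1)
  (hcol : ∀ m, nc N m ≤ c)
include hN hd hc hcol

theorem XL_le_Id {ζ : Fin 3 → ℝ} (hζ : ∀ k, 0 < ζ k) :
    XL N ζ ≤ Pool.Agent.Helper55.Mass.Id (alP N ζ) :=
  alP_mass hN hd hc hcol hζ rfl

theorem Id_alP_nonneg {ζ : Fin 3 → ℝ} (hζ : ∀ k, 0 < ζ k) :
    0 ≤ Pool.Agent.Helper55.Mass.Id (alP N ζ) := by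
  refine le_trans ?_ (XL_le_Id hN hd hc hcol hζ)
  have h1 := PN_det_pos hN hd hc hcol
  have := hζ 0
  have := hζ 1
  have := hζ 2
  unfold XL
  positivity

/-- from the explicit mass at the (closed) position to the integral -/
theorem apex_of_XL {m : Fin 3 → ℝ} {W k : ℝ} (hW : 0 ≤ W) (hZ : 0 < k →
    0 < max (m 0) 0 + max (m 1) 0 + max (m 2) 0)
    (h : 0 < k → 18723 / 100000 * k ≤ XL N (fun i => max (m i) 0) * W) :
    ∃ ζp : Fin 3 → ℝ, (∀ i, 0 < ζp i) ∧ (∀ i, m i ≤ ζp i) ∧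
      1872 / 10000 * k ≤ Pool.Agent.Helper55.Mass.Id (alP N ζp) * W := by
  rcases le_or_gt k 0 with hk | hk
  · refine ⟨fun i => max (m i) 0 + 1, fun i => ?_, fun i => ?_, ?_⟩
    · have := le_max_right (m i) 0
      linarith
    · have := le_max_left (m i) 0
      linarith
    · have h1 : 0 ≤ Pool.Agent.Helper55.Mass.Id (alP N (fun i => max (m i) 0 + 1)) :=
        Id_alP_nonneg hN hd hc hcol fun i => by
          have := le_max_right (m i) 0
          linarith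
      have h2 := mul_nonneg h1 hW
      linarith
  · have h1 : 1872 / 10000 * k < XL N (fun i => max (m i) 0) * W := by
      have := h hk
      linarith
    obtain ⟨ε, hε, h2⟩ := XL_near hN hd (fun i => le_max_right (m i) 0) (hZ hk) h1
    have hp : ∀ i, 0 < max (m i) 0 + ε := fun i => by
      have := le_max_right (m i) 0
      linarith
    refine ⟨fun i => max (m i) 0 + ε, hp, fun i => ?_, ?_⟩
    · have := le_max_left (m i) 0
      linarith
    · have h3 := mul_le_mul_of_nonneg_right (XL_le_Id hN hd hc hcol hp) hW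
      linarith

/-- **the apex in the cone of the contact points** -/
theorem apex_cone {u : Fin 3 → ℝ} (hμ : ∀ k, 0 ≤ mu (PN N) u k) (hu : ∃ k, 0 < u k) :
    ∃ ζp : Fin 3 → ℝ, (∀ k, 0 < ζp k) ∧ (∀ k, mu (PN N) u k ≤ ζp k) ∧
      1872 / 10000 * (1 - TT N) ≤ Pool.Agent.Helper55.Mass.Id (alP N ζp) * √(Qf u) := by
  have hbal := mu_bal hN hd hc hcol u
  set m := mu (PN N) u with hm
  have m0 := hμ 0
  have m1 := hμ 1
  have m2 := hμ 2
  have hmm : (fun i => max (m i) 0) = m := by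
    funext i
    exact max_eq_left (hμ i)
  have hZ : 0 < m 0 + m 1 + m 2 := by
    by_contra hneg
    have z0 : m 0 = 0 := by linarith
    have z1 : m 1 = 0 := by linarith
    have z2 : m 2 = 0 := by linarith
    obtain ⟨k, hk⟩ := hu
    have := hbal k
    simp only [LN, z0, z1, z2, mul_zero, add_zero] at this
    have hz : m k = 0 := by fin_cases k <;> assumption
    linarith
  refine apex_of_XL hN hd hc hcol (Real.sqrt_nonneg _) (fun _ => ?_) fun hk => ?_
  · rw [max_eq_left m0, max_eq_left m1, max_eq_left m2]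
    exact hZ
  rw [hmm]
  set Z := m 0 + m 1 + m 2 with hZd
  have hA : ∀ k, 0 ≤ m k / Z := fun k => div_nonneg (hμ k) hZ.le
  have hs : m 0 / Z + m 1 / Z + m 2 / Z = 1 := by
    rw [← add_div, ← add_div, ← hZd, div_self hZ.ne']
  have hcore := cone_core hN hd (A := fun k => m k / Z) hA hs (by linarith)
  have hu2 : u = Z • (PN N *ᵥ fun k => m k / Z) := by
    funext k
    rw [Pi.smul_apply, PN_mul, smul_eq_mul, ← hbal k]
    simp only [LN]
    field_simp
  have hQ : √(Qf u) = Z * √(Qf (PN N *ᵥ fun k => m k / Z)) := by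
    rw [hu2, Helper75.MEI2.Qf_smul, Real.sqrt_mul (by positivity), Real.sqrt_sq hZ.le]
  exact XL_gen hZ (by linarith [cbP_pos hN hd (A := fun k => m k / Z) hA hs])
    (PN_det_pos hN hd hc hcol).le hQ.ge hk.le hcore

/-- **any position of the apex**: `V` bounds the negative coordinates -/
theorem apex_any {u : Fin 3 → ℝ} (hu : ∃ k, 0 < u k) {V : ℝ} (hV0 : 0 ≤ V)
    (hV : ∀ k, -V ≤ u k) :
    ∃ ζp : Fin 3 → ℝ, (∀ k, 0 < ζp k) ∧ (∀ k, mu (PN N) u k ≤ ζp k) ∧
      1872 / 10000 * (1 - 5 / 4 * TT N) ≤ Pool.Agent.Helper55.Mass.Id (alP N ζp) *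
        (√(Qf (fun k => max (u k) 0)) + TT N * V) := by
  have hbal := mu_bal hN hd hc hcol u
  have T0 := TT_nonneg hN
  by_cases hall : ∀ k, 0 ≤ mu (PN N) u k
  · obtain ⟨ζp, h1, h2, h3⟩ := apex_cone hN hd hc hcol hall hu
    refine ⟨ζp, h1, h2, ?_⟩
    have hu0 : (fun k => max (u k) 0) = u := by
      funext k
      refine max_eq_left ?_
      rw [← hbal k]
      have := LN_nonneg hN hall k
      have := hall k
      linarith
    rw [hu0]
    have h4 := mul_nonneg (Id_alP_nonneg hN hd hc hcol h1) (mul_nonneg T0 hV0)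
    nlinarith
  · push Not at hall
    obtain ⟨n, hn⟩ := hall
    set m := mu (PN N) u with hm
    have x0 := le_max_right (m 0) 0
    have x1 := le_max_right (m 1) 0
    have x2 := le_max_right (m 2) 0
    have hZ : 0 < max (m 0) 0 + max (m 1) 0 + max (m 2) 0 := by
      by_contra hneg
      have z0 : m 0 ≤ 0 := by linarith [le_max_left (m 0) 0]
      have z1 : m 1 ≤ 0 := by linarith [le_max_left (m 1) 0]
      have z2 : m 2 ≤ 0 := by linarith [le_max_left (m 2) 0]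
      obtain ⟨k, hk⟩ := hu
      have h1 := hbal k
      have h2 := mul_nonpos_of_nonneg_of_nonpos (hN k 0) z0
      have h3 := mul_nonpos_of_nonneg_of_nonpos (hN k 1) z1
      have h4 := mul_nonpos_of_nonneg_of_nonpos (hN k 2) z2
      have hz : m k ≤ 0 := by fin_cases k <;> assumption
      simp only [LN] at h1
      linarith
    have W0 : 0 ≤ √(Qf (fun k => max (u k) 0)) + TT N * V :=
      add_nonneg (Real.sqrt_nonneg _) (mul_nonneg T0 hV0)
    refine apex_of_XL hN hd hc hcol W0 (fun _ => hZ) fun hk => ?_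
    set ζ : Fin 3 → ℝ := fun i => max (m i) 0 with hζd
    have hζ0 : ∀ k, 0 ≤ ζ k := fun k => le_max_right _ _
    set Z := ζ 0 + ζ 1 + ζ 2 with hZd
    have hZp : 0 < Z := hZ
    have hA : ∀ k, 0 ≤ ζ k / Z := fun k => div_nonneg (hζ0 k) hZp.le
    have hs : ζ 0 / Z + ζ 1 / Z + ζ 2 / Z = 1 := by
      rw [← add_div, ← add_div, ← hZd, div_self hZp.ne']
    have hn0 : (fun k => ζ k / Z) n = 0 := by
      show max (m n) 0 / Z = 0
      rw [max_eq_right hn.le, zero_div]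
    obtain ⟨a, a1, a2, a3, a4⟩ := clip_a (A := fun k => ζ k / Z) hA hs hn0
    obtain ⟨e, he⟩ : ∃ e, e = a * (1 - a) := ⟨_, rfl⟩
    have hcore := clip_core hN hd (A := fun k => ζ k / Z) hA hs a1 a2 a3 (by rw [he]; exact a4.symm)
      he (by linarith)
    have hb : ∀ k, m k ≤ a * Z := fun k => by
      have h1 := a3 k
      have h2 : ζ k ≤ a * Z := by
        have h3 : ζ k / Z * Z ≤ a * Z := mul_le_mul_of_nonneg_right h1 hZp.le
        rwa [div_mul_cancel₀ _ hZp.ne'] at h3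
      exact (le_max_left _ _).trans h2
    have hnorm := clip_norm hN hd hV0 hV (fun k => (hbal k).symm) hn.le
      (mul_nonneg (by linarith) hZp.le) hb
    have hQ : √(Qf ζ) = Z * √(1 - e) := by
      have e1 : Qf ζ = Z ^ 2 * (1 - e) := by
        have z0 : ζ 0 = Z * (ζ 0 / Z) := by field_simp
        have z1 : ζ 1 = Z * (ζ 1 / Z) := by field_simp
        have z2 : ζ 2 = Z * (ζ 2 / Z) := by field_simp
        have h2 : e = ζ 0 / Z * (ζ 1 / Z) + ζ 0 / Z * (ζ 2 / Z) + ζ 1 / Z * (ζ 2 / Z) := by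
          rw [he]; exact a4.symm
        rw [h2]
        unfold Qf
        have hZ2 : Z ≠ 0 := hZp.ne'
        field_simp
        rw [hZd]
        ring
      rw [e1, Real.sqrt_mul (by positivity), Real.sqrt_sq hZp.le]
    refine XL_gen hZp (by linarith [cbP_pos hN hd (A := fun k => ζ k / Z) hA hs])
      (PN_det_pos hN hd hc hcol).le ?_ hk.le hcore
    have h5 : √(Qf ζ) ≤ √(Qf fun k => max (u k) 0) + (TT N * V + a * Z * TT N ^ 2 / 4) := hnorm
    rw [hQ] at h5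
    linarith

end

/-- one excluded corner, scalars -/
theorem pos_scal {x y z s C : ℝ} (hf : x ^ 2 + y ^ 2 + z ^ 2 + x * y + x * z + y * z = 1 + s)
    (hx : s - C ≤ x + (x + y + z) - 1) (hC : C ≤ 1 + s) :
    2 / 3 * (max y 0 ^ 2 + max z 0 ^ 2 + max y 0 * max z 0) ≤ 1 + s - (1 + s - C) ^ 2 / 4 ∧
    ((y + z) / 2) ^ 2 ≤ 1 / 2 * (1 + s) - (1 + s - C) ^ 2 / 8 := by
  have h1 : (1 + s - C) ^ 2 / 4 ≤ (x + (y + z) / 2) ^ 2 := by
    have := pow_le_pow_left₀ (show 0 ≤ 1 + s - C by linarith)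
      (show 1 + s - C ≤ 2 * x + (y + z) by linarith) 2
    nlinarith
  have h2 : 1 + s = (x + (y + z) / 2) ^ 2 + (3 / 4 * (y ^ 2 + z ^ 2) + 1 / 2 * (y * z)) := by
    rw [← hf]; ring
  constructor
  · have h3 : 2 / 3 * (max y 0 ^ 2 + max z 0 ^ 2 + max y 0 * max z 0)
        ≤ 3 / 4 * (y ^ 2 + z ^ 2) + 1 / 2 * (y * z) := by
      rcases le_total 0 y with hy | hy <;> rcases le_total 0 z with hz | hz
      · rw [max_eq_left hy, max_eq_left hz]
        nlinarith [sq_nonneg (y - z)]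
      · rw [max_eq_left hy, max_eq_right hz]
        nlinarith [sq_nonneg (y + 3 * z)]
      · rw [max_eq_right hy, max_eq_left hz]
        nlinarith [sq_nonneg (3 * y + z)]
      · rw [max_eq_right hy, max_eq_right hz]
        nlinarith [mul_nonneg_of_nonpos_of_nonpos hy hz, sq_nonneg y, sq_nonneg z]
    linarith
  · nlinarith [sq_nonneg (y - z)]

/-- **the position of the apex**: length of the positive part and bound of the negative
coordinates -/
theorem pos_bounds {u : Fin 3 → ℝ} {s C : ℝ} (hf : Qf u = 1 + s) (hs0 : 0 ≤ s)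
    (hs1 : s ≤ 1 / 3) (hc : ∀ k, s - C ≤ u k + (u 0 + u 1 + u 2) - 1) (hC0 : 0 ≤ C)
    (hC : C ≤ 1 + s) :
    Qf (fun k => max (u k) 0) ≤ 3 / 2 * (1 + s) - 3 / 8 * (1 + s - C) ^ 2 ∧
    ∀ {V : ℝ}, 0 ≤ V → 1 / 2 * (1 + s) - (1 + s - C) ^ 2 / 8 ≤ (V + (1 + s - C) / 2) ^ 2 →
      ∀ k, -V ≤ u k := by
  have f0 : u 0 ^ 2 + u 1 ^ 2 + u 2 ^ 2 + u 0 * u 1 + u 0 * u 2 + u 1 * u 2 = 1 + s := hf
  have c0 := hc 0
  have c1 := hc 1
  have c2 := hc 2
  obtain ⟨p0, v0⟩ := pos_scal (x := u 0) (y := u 1) (z := u 2) f0 (by linarith) hC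
  obtain ⟨p1, v1⟩ := pos_scal (x := u 1) (y := u 0) (z := u 2) (by rw [← f0]; ring)
    (by linarith) hC
  obtain ⟨p2, v2⟩ := pos_scal (x := u 2) (y := u 0) (z := u 1) (by rw [← f0]; ring)
    (by linarith) hC
  constructor
  · by_cases h0 : u 0 ≤ 0
    · simp only [Qf, max_eq_right h0]
      nlinarith
    by_cases h1 : u 1 ≤ 0
    · simp only [Qf, max_eq_right h1]
      nlinarith
    by_cases h2 : u 2 ≤ 0
    · simp only [Qf, max_eq_right h2]
      nlinarith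
    have e0 := max_eq_left (not_le.1 h0).le
    have e1 := max_eq_left (not_le.1 h1).le
    have e2 := max_eq_left (not_le.1 h2).le
    have h3 : (1 + s - C) ^ 2 ≤ (1 + s) ^ 2 := pow_le_pow_left₀ (by linarith) (by linarith) 2
    simp only [Qf, e0, e1, e2]
    rw [f0]
    nlinarith
  · intro V hV0 hV k
    have key : ∀ x y z : ℝ, s - C ≤ x + (x + y + z) - 1 →
        ((y + z) / 2) ^ 2 ≤ 1 / 2 * (1 + s) - (1 + s - C) ^ 2 / 8 → -V ≤ x := by
      intro x y z h1 h2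
      have h3 : (y + z) / 2 ≤ V + (1 + s - C) / 2 :=
        abs_le_of_sq_le_sq' (h2.trans hV) (by linarith) |>.2
      linarith
    fin_cases k
    · exact key _ _ _ c0 v0
    · exact key (u 1) (u 0) (u 2) (by linarith) v1
    · exact key (u 2) (u 0) (u 1) (by linarith) v2

/-- **uniform lower bound of the apex mass**, all positions -/
theorem apex_uni (hN : ∀ k m, 0 ≤ N k m) (hd : ∀ k, N k k = 0) {c : ℝ} (hc : c < 1)
    (hcol : ∀ m, nc N m ≤ c) {u : Fin 3 → ℝ} {s C r V : ℝ} (hf : Qf u = 1 + s) (hs0 : 0 ≤ s)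
    (hs1 : s ≤ 1 / 3) (hcap : ∀ k, s - C ≤ u k + (u 0 + u 1 + u 2) - 1) (hC0 : 0 ≤ C)
    (hC : C < 1) (hr0 : 0 ≤ r) (hr : 3 / 2 * (1 + s) - 3 / 8 * (1 + s - C) ^ 2 ≤ r ^ 2)
    (hV0 : 0 ≤ V) (hV : 1 / 2 * (1 + s) - (1 + s - C) ^ 2 / 8 ≤ (V + (1 + s - C) / 2) ^ 2) :
    ∃ ζp : Fin 3 → ℝ, (∀ k, 0 < ζp k) ∧ (∀ k, mu (PN N) u k ≤ ζp k) ∧
      1872 / 10000 * (1 - 5 / 4 * TT N) ≤
        Pool.Agent.Helper55.Mass.Id (alP N ζp) * (r + TT N * V) := by
  obtain ⟨h1, h2⟩ := pos_bounds hf hs0 hs1 hcap hC0 (by linarith)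
  have hu : ∃ k, 0 < u k := by
    by_contra hneg
    push Not at hneg
    have a0 := hneg 0
    have a1 := hneg 1
    have a2 := hneg 2
    have c0 := hcap 0
    have c1 := hcap 1
    have c2 := hcap 2
    linarith
  obtain ⟨ζp, k1, k2, k3⟩ := apex_any hN hd hc hcol hu hV0 (h2 hV0 hV)
  refine ⟨ζp, k1, k2, k3.trans ?_⟩
  refine mul_le_mul_of_nonneg_left ?_ (Id_alP_nonneg hN hd hc hcol k1)
  have h3 : √(Qf fun k => max (u k) 0) ≤ r := by
    rw [Real.sqrt_le_iff]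
    exact ⟨hr0, h1.trans hr⟩
  linarith

/-- **linear form**: `x₀ - x₁ T ≤` mass of the apex, all positions -/
theorem apex_lin (hN : ∀ k m, 0 ≤ N k m) (hd : ∀ k, N k k = 0) {c : ℝ} (hc : c < 1)
    (hcol : ∀ m, nc N m ≤ c) {u : Fin 3 → ℝ} {s C r V : ℝ} (hf : Qf u = 1 + s) (hs0 : 0 ≤ s)
    (hs1 : s ≤ 1 / 3) (hcap : ∀ k, s - C ≤ u k + (u 0 + u 1 + u 2) - 1) (hC0 : 0 ≤ C)
    (hC : C < 1) (hr0 : 0 < r) (hr : 3 / 2 * (1 + s) - 3 / 8 * (1 + s - C) ^ 2 ≤ r ^ 2)
    (hV0 : 0 ≤ V) (hV : 1 / 2 * (1 + s) - (1 + s - C) ^ 2 / 8 ≤ (V + (1 + s - C) / 2) ^ 2)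
    {x0 x1 : ℝ} (h0 : 0 ≤ x0) (h0r : x0 * r ≤ 1872 / 10000) (h1 : x0 * (5 / 4 * r + V) ≤ x1 * r) :
    ∃ ζp : Fin 3 → ℝ, (∀ k, 0 < ζp k) ∧ (∀ k, mu (PN N) u k ≤ ζp k) ∧
      x0 - x1 * TT N ≤ Pool.Agent.Helper55.Mass.Id (alP N ζp) := by
  obtain ⟨ζp, k1, k2, k3⟩ := apex_uni hN hd hc hcol hf hs0 hs1 hcap hC0 hC hr0.le hr hV0 hV
  refine ⟨ζp, k1, k2, ?_⟩
  have T0 := TT_nonneg hN
  have hI := Id_alP_nonneg hN hd hc hcol k1
  rcases le_or_gt (x0 - x1 * TT N) 0 with h | h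
  · exact h.trans hI
  have hx1 : 0 ≤ x1 := by
    have : 0 ≤ x1 * r := le_trans (by positivity) h1
    exact nonneg_of_mul_nonneg_left this hr0
  have hT : TT N ≤ 4 / 5 := by
    by_contra hneg
    push Not at hneg
    have h2 : 5 / 4 * x0 * r ≤ x1 * r := by
      have := mul_nonneg h0 hV0
      linarith
    have h3 : 5 / 4 * x0 ≤ x1 := le_of_mul_le_mul_right h2 hr0
    have h4 := mul_le_mul_of_nonneg_left hneg.le hx1
    linarith
  have hrT : 0 < r + TT N * V := by positivity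
  have h5 : (x0 - x1 * TT N) * (r + TT N * V) ≤
      Pool.Agent.Helper55.Mass.Id (alP N ζp) * (r + TT N * V) := by
    refine le_trans ?_ k3
    have h6 : 0 ≤ x1 * V * TT N ^ 2 := by positivity
    have h7 := mul_le_mul_of_nonneg_right h1 T0
    have h8 := mul_le_mul_of_nonneg_right h0r (show 0 ≤ 1 - 5 / 4 * TT N by linarith)
    nlinarith
  exact le_of_mul_le_mul_right h5 hrT

end Pool.Agent.Helper55.TentL
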