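import Pool.Agent.Helper22.MEI.Hess

/-!
# Project MEI: the extremal functions `f0` and `f1` are admissible
-/

namespace Helper55.MEI

open Set MeasureTheory Helper22.MEI

theorem sqrt3_pos : (0 : ℝ) < √3 := by positivity

theorem sqrt3_sq : √3 * √3 = 3 := Real.mul_self_sqrt (by norm_num)

/-- in the lens the sign times the coordinate -/
theorem sg_facts {p : ℝ × ℝ} (h : ¬ 3 * p.2 ^ 2 ≤ 1 + p.1 ^ 2) :
    sg p.2 * p.2 = |p.2| ∧ sg p.2 * sg p.2 = 1 ∧ NN p ≤ 2 * |p.2| ∧ AA p.1 ≤ √3 * |p.2| := by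
  have hy := half_lt (not_le.1 h).le
  have hN := NN_sq p
  have hA := AA_sq p.1
  have h3 := sqrt3_sq
  have h0 := sqrt3_pos
  refine ⟨sg_mul hy.le, sg_sq hy.le, ?_, ?_⟩
  · refine abs_le_of_sq_le_sq' ?_ (by positivity) |>.2
    rw [mul_pow, sq_abs, hN]
    linarith [not_le.1 h]
  · refine abs_le_of_sq_le_sq' ?_ (by positivity) |>.2
    rw [mul_pow, sq_abs, hA, Real.sq_sqrt (by norm_num)]
    linarith [not_le.1 h]

theorem mid_facts {p : ℝ × ℝ} (h : 3 * p.2 ^ 2 ≤ 1 + p.1 ^ 2) :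
    √3 * |p.2| ≤ AA p.1 ∧ c3 * NN p ≤ AA p.1 := by
  have hN := NN_sq p
  have hA := AA_sq p.1
  have hc := c3_sq
  constructor
  · refine abs_le_of_sq_le_sq' ?_ (AA_pos _).le |>.2
    rw [mul_pow, sq_abs, hA, Real.sq_sqrt (by norm_num)]
    exact h
  · refine abs_le_of_sq_le_sq' ?_ (AA_pos _).le |>.2
    rw [mul_pow, hc, hN, hA]
    linarith

/-- support inequality of the intersection of the two balls -/
theorem sup_top {x y z : ℝ} (h : x ^ 2 + z ^ 2 + y ^ 2 + |y| ≤ 3 / 4) (V : ℝ × ℝ) :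
    x * V.1 + y * V.2 + z ≤ f0 V + t := by
  unfold f0
  split_ifs with hm
  · obtain ⟨h1, -⟩ := mid_facts hm
    have hA := AA_pos V.1
    have hA2 := AA_sq V.1
    have h3 := sqrt3_sq
    have h0 := sqrt3_pos
    have ha := abs_nonneg y
    have hy2 : y ^ 2 = |y| ^ 2 := (sq_abs y).symm
    have hale : |y| ≤ 1 / 2 := by nlinarith [sq_nonneg x, sq_nonneg z]
    have hc : c3 = √3 / 2 := rfl
    have hr : 0 ≤ c3 - |y| / √3 := by
      rw [hc, sub_nonneg, div_le_iff₀ h0]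
      nlinarith
    have hr2 : (c3 - |y| / √3) ^ 2 = 3 / 4 - |y| + |y| ^ 2 / 3 := by
      rw [hc]
      field_simp
      ring_nf
      rw [show √3 ^ 4 = 9 by
        rw [show √3 ^ 4 = (√3 * √3) ^ 2 by ring, h3]; norm_num, show √3 ^ 2 = 3 by rw [pow_two, h3]]
      ring
    have e1 : x * V.1 + z ≤ (c3 - |y| / √3) * AA V.1 := by
      refine abs_le_of_sq_le_sq' ?_ (by positivity) |>.2
      rw [mul_pow, hr2, hA2]
      have : (x * V.1 + z) ^ 2 ≤ (x ^ 2 + z ^ 2) * (1 + V.1 ^ 2) := by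
        nlinarith [sq_nonneg (x - z * V.1)]
      refine this.trans (mul_le_mul_of_nonneg_right ?_ (by positivity))
      nlinarith [sq_nonneg |y|]
    have e2 : y * V.2 ≤ |y| / √3 * AA V.1 := by
      have : y * V.2 ≤ |y| * |V.2| := by rw [← abs_mul]; exact le_abs_self _
      refine this.trans ?_
      rw [div_mul_eq_mul_div, le_div_iff₀ h0]
      nlinarith
    have : (c3 - |y| / √3) * AA V.1 + |y| / √3 * AA V.1 = c3 * AA V.1 := by ring
    linarith
  · obtain ⟨h1, h2, -, -⟩ := sg_facts hm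
    have hN := NN_sq V
    have key : x * V.1 + (y + sg V.2 / 2) * V.2 + z ≤ NN V := by
      refine abs_le_of_sq_le_sq' ?_ (NN_pos V).le |>.2
      have hs : sg V.2 * y ≤ |y| := by
        have h5 : |sg V.2| = 1 := by
          have : |sg V.2| * |sg V.2| = 1 := by rw [← abs_mul, h2, abs_one]
          nlinarith [abs_nonneg (sg V.2)]
        calc sg V.2 * y ≤ |sg V.2 * y| := le_abs_self _
          _ = |y| := by rw [abs_mul, h5, one_mul]
      have hb : x ^ 2 + (y + sg V.2 / 2) ^ 2 + z ^ 2 ≤ 1 := by nlinarith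
      have hc : (x * V.1 + (y + sg V.2 / 2) * V.2 + z) ^ 2 ≤
          (x ^ 2 + (y + sg V.2 / 2) ^ 2 + z ^ 2) * (1 + V.1 ^ 2 + V.2 ^ 2) := by
        nlinarith [sq_nonneg (x * V.2 - (y + sg V.2 / 2) * V.1), sq_nonneg (x - z * V.1),
          sq_nonneg ((y + sg V.2 / 2) - z * V.2)]
      rw [hN]
      refine hc.trans ?_
      have : 0 ≤ 1 + V.1 ^ 2 + V.2 ^ 2 := by positivity
      nlinarith
    nlinarith

/-- the support point of `f0` -/
theorem pt_top (P : ℝ × ℝ) :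
    g0X P ^ 2 + (f0 P - P.1 * g0X P - P.2 * g0Y P + t) ^ 2 + g0Y P ^ 2 + |g0Y P| ≤ 3 / 4 := by
  have hN := NN_sq P
  have hA := AA_sq P.1
  have hn := NN_pos P
  have ha := AA_pos P.1
  unfold f0 g0X g0Y
  split_ifs with hm
  · rw [abs_zero]
    have e : c3 * AA P.1 - t - P.1 * (c3 * P.1 / AA P.1) - P.2 * 0 + t = c3 / AA P.1 := by
      field_simp
      linear_combination c3 * hA
    rw [e]
    have : (c3 * P.1 / AA P.1) ^ 2 + (c3 / AA P.1) ^ 2 = 3 / 4 := by
      rw [div_pow, mul_pow, c3_sq, div_pow, c3_sq, hA]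
      field_simp
      ring
    rw [this]
    norm_num
  · obtain ⟨h1, h2, h3, -⟩ := sg_facts hm
    have e : NN P - |P.2| / 2 - t - P.1 * (P.1 / NN P) - P.2 * (P.2 / NN P - sg P.2 / 2) + t
        = 1 / NN P := by
      rw [← h1]
      field_simp
      linear_combination (2 : ℝ) * hN
    rw [e]
    have h5 : |sg P.2| = 1 := by
      have : |sg P.2| * |sg P.2| = 1 := by rw [← abs_mul, h2, abs_one]
      nlinarith [abs_nonneg (sg P.2)]
    have habs : |P.2 / NN P - sg P.2 / 2| = |P.2| / NN P - 1 / 2 := by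
      have e2 : P.2 / NN P - sg P.2 / 2 = sg P.2 * (|P.2| / NN P - 1 / 2) := by
        rw [← h1]
        have : sg P.2 * (sg P.2 * P.2 / NN P - 1 / 2) =
          (sg P.2 * sg P.2) * (P.2 / NN P) - sg P.2 / 2 := by ring
        rw [this, h2, one_mul]
      rw [e2, abs_mul, h5, one_mul, abs_of_nonneg]
      rw [sub_nonneg, div_le_div_iff₀ two_pos hn]
      linarith
    rw [habs]
    have e3 : (P.1 / NN P) ^ 2 + (1 / NN P) ^ 2 + (P.2 / NN P - sg P.2 / 2) ^ 2
        + (|P.2| / NN P - 1 / 2) = 3 / 4 := by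
      rw [← h1]
      field_simp
      linear_combination (4 * NN P ^ 2) * h2 - 16 * hN
    exact e3.le

theorem f0_convex : ConvexOn ℝ univ f0 := by
  refine ⟨convex_univ, fun P _ Q _ a b ha hb hab => ?_⟩
  set V := a • P + b • Q with hV
  have hV1 : V.1 = a * P.1 + b * Q.1 := by rw [hV]; simp
  have hV2 : V.2 = a * P.2 + b * Q.2 := by rw [hV]; simp
  have e1 : g0X V * V.1 = g0X V * (a * P.1 + b * Q.1) := congrArg (g0X V * ·) hV1
  have e2 : g0Y V * V.2 = g0Y V * (a * P.2 + b * Q.2) := congrArg (g0Y V * ·) hV2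
  have h1 := sup_top (pt_top V) P
  have h2 := sup_top (pt_top V) Q
  simp only [smul_eq_mul]
  have h3 := mul_le_mul_of_nonneg_left h1 ha
  have h4 := mul_le_mul_of_nonneg_left h2 hb
  have h5 : b = 1 - a := by linarith
  rw [h5] at h4 e1 e2 ⊢
  linarith

/-- support inequality of the spindle -/
theorem sup_bot {x y z ρ : ℝ} (hρ : 0 ≤ ρ) (h : x ^ 2 + z ^ 2 ≤ ρ ^ 2)
    (h' : (ρ + c3) ^ 2 + y ^ 2 ≤ 1) (V : ℝ × ℝ) :
    x * V.1 + y * V.2 + z ≤ NN V - f0 V - t := by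
  have hA := AA_pos V.1
  have hA2 := AA_sq V.1
  have hN := NN_sq V
  have e1 : x * V.1 + z ≤ ρ * AA V.1 := by
    refine abs_le_of_sq_le_sq' ?_ (by positivity) |>.2
    rw [mul_pow, hA2]
    have : (x * V.1 + z) ^ 2 ≤ (x ^ 2 + z ^ 2) * (1 + V.1 ^ 2) := by
      nlinarith [sq_nonneg (x - z * V.1)]
    exact this.trans (mul_le_mul_of_nonneg_right h (by positivity))
  unfold f0
  split_ifs with hm
  · have e2 : (ρ + c3) * AA V.1 + y * V.2 ≤ NN V := by
      refine abs_le_of_sq_le_sq' ?_ (NN_pos V).le |>.2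
      have hc : ((ρ + c3) * AA V.1 + y * V.2) ^ 2 ≤
          ((ρ + c3) ^ 2 + y ^ 2) * (AA V.1 ^ 2 + V.2 ^ 2) := by
        nlinarith [sq_nonneg ((ρ + c3) * V.2 - y * AA V.1)]
      rw [hN]
      refine hc.trans ?_
      rw [hA2]
      have : 0 ≤ 1 + V.1 ^ 2 + V.2 ^ 2 := by positivity
      nlinarith
    nlinarith
  · obtain ⟨-, -, -, h4⟩ := sg_facts hm
    have h3 := sqrt3_sq
    have h0 := sqrt3_pos
    have hc : c3 = √3 / 2 := rfl
    have hy2 : y ^ 2 = |y| ^ 2 := (sq_abs y).symm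
    have ha := abs_nonneg y
    have hc2 := c3_sq
    have hcp := c3_pos
    have hy : |y| ≤ 1 / 2 := by
      have : |y| ^ 2 ≤ 1 / 4 := by
        rw [← hy2]; nlinarith [mul_nonneg hρ hcp.le, sq_nonneg ρ]
      nlinarith
    have hr : √3 * ρ ≤ 1 / 2 - |y| := by
      by_contra hcon
      push Not at hcon
      have h5 : 2 - |y| < √3 * (ρ + c3) := by
        rw [hc]; nlinarith
      have h6 : (2 - |y|) ^ 2 < (√3 * (ρ + c3)) ^ 2 :=
        pow_lt_pow_left₀ h5 (by linarith) two_ne_zero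
      rw [mul_pow, Real.sq_sqrt (by norm_num)] at h6
      nlinarith [sq_nonneg (2 * |y| - 1)]
    have e3 : ρ * AA V.1 ≤ (1 / 2 - |y|) * |V.2| := by
      have h7 : ρ * AA V.1 ≤ ρ * (√3 * |V.2|) := mul_le_mul_of_nonneg_left h4 hρ
      have h8 : ρ * (√3 * |V.2|) = (√3 * ρ) * |V.2| := by ring
      rw [h8] at h7
      exact h7.trans (mul_le_mul_of_nonneg_right hr (abs_nonneg _))
    have e4 : y * V.2 ≤ |y| * |V.2| := by rw [← abs_mul]; exact le_abs_self _
    nlinarith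

/-- the support point of `N - f0` -/
theorem pt_bot (P : ℝ × ℝ) : ∃ ρ, 0 ≤ ρ ∧
    (P.1 / NN P - g0X P) ^ 2 +
      (NN P - f0 P - P.1 * (P.1 / NN P - g0X P) - P.2 * (P.2 / NN P - g0Y P) - t) ^ 2 ≤ ρ ^ 2 ∧
    (ρ + c3) ^ 2 + (P.2 / NN P - g0Y P) ^ 2 ≤ 1 := by
  have hN := NN_sq P
  have hA := AA_sq P.1
  have hn := NN_pos P
  have ha := AA_pos P.1
  have hc2 := c3_sq
  unfold f0 g0X g0Y
  split_ifs with hm
  · obtain ⟨-, h2⟩ := mid_facts hm
    refine ⟨AA P.1 / NN P - c3, ?_, ?_, ?_⟩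
    · rw [sub_nonneg, le_div_iff₀ hn]; exact h2
    · have e : NN P - (c3 * AA P.1 - t) - P.1 * (P.1 / NN P - c3 * P.1 / AA P.1)
          - P.2 * (P.2 / NN P - 0) - t = 1 / NN P - c3 / AA P.1 := by
        field_simp
        linear_combination (AA P.1) * hN - (c3 * NN P) * hA
      rw [e]
      have e2 : (P.1 / NN P - c3 * P.1 / AA P.1) ^ 2 + (1 / NN P - c3 / AA P.1) ^ 2
          = (AA P.1 / NN P - c3) ^ 2 := by
        have : (P.1 / NN P - c3 * P.1 / AA P.1) ^ 2 + (1 / NN P - c3 / AA P.1) ^ 2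
          = (1 / NN P - c3 / AA P.1) ^ 2 * (1 + P.1 ^ 2) := by ring
        rw [this, ← hA, ← mul_pow]
        congr 1
        field_simp
      exact e2.le
    · have e3 : (AA P.1 / NN P - c3 + c3) ^ 2 + (P.2 / NN P - 0) ^ 2 = 1 := by
        rw [sub_add_cancel, sub_zero, div_pow, div_pow, hA, ← add_div, ← hN]
        exact div_self (by positivity)
      exact e3.le
  · obtain ⟨h1, h2, -, -⟩ := sg_facts hm
    refine ⟨0, le_rfl, ?_, ?_⟩
    · have e : NN P - (NN P - |P.2| / 2 - t) - P.1 * (P.1 / NN P - P.1 / NN P)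
          - P.2 * (P.2 / NN P - (P.2 / NN P - sg P.2 / 2)) - t = 0 := by
        rw [← h1]; ring
      rw [e]
      have : (P.1 / NN P - P.1 / NN P) ^ 2 + (0 : ℝ) ^ 2 = 0 ^ 2 := by ring
      exact this.le
    · have e3 : (0 + c3) ^ 2 + (P.2 / NN P - (P.2 / NN P - sg P.2 / 2)) ^ 2 = 1 := by
        linear_combination hc2 + h2 / 4
      exact e3.le

theorem Nf0_convex : ConvexOn ℝ univ (fun p => NN p - f0 p) := by
  refine ⟨convex_univ, fun P _ Q _ a b ha hb hab => ?_⟩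
  set V := a • P + b • Q with hV
  have hV1 : V.1 = a * P.1 + b * Q.1 := by rw [hV]; simp
  have hV2 : V.2 = a * P.2 + b * Q.2 := by rw [hV]; simp
  obtain ⟨ρ, h0, h0', h0''⟩ := pt_bot V
  have e1 : (V.1 / NN V - g0X V) * V.1 = (V.1 / NN V - g0X V) * (a * P.1 + b * Q.1) :=
    congrArg ((V.1 / NN V - g0X V) * ·) hV1
  have e2 : (V.2 / NN V - g0Y V) * V.2 = (V.2 / NN V - g0Y V) * (a * P.2 + b * Q.2) :=
    congrArg ((V.2 / NN V - g0Y V) * ·) hV2
  have h1 := sup_bot h0 h0' h0'' P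
  have h2 := sup_bot h0 h0' h0'' Q
  simp only [smul_eq_mul]
  have h3 := mul_le_mul_of_nonneg_left h1 ha
  have h4 := mul_le_mul_of_nonneg_left h2 hb
  have h5 : b = 1 - a := by linarith
  rw [h5] at h4 e1 e2 ⊢
  linarith

theorem adm_f0 : Adm f0 where
  diff := f0_diff
  cv := f0_convex
  cvN := Nf0_convex
  bX := fun p h1 h2 => f0_bX h1 h2
  bY := fun p h1 h2 => f0_bY h1 h2
  gXX := by
    intro p h1 h2
    have hx : p.1 ^ 2 = 1 / 2 := by rw [← sq_abs, h1, s_sq]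
    have hy : p.2 ^ 2 ≤ 1 / 2 := by
      rw [← sq_abs, ← s_sq]; exact pow_le_pow_left₀ (abs_nonneg _) h2 2
    rw [dX_f0]
    unfold g0X
    rw [if_pos (by rw [hx]; linarith)]
    have hA : AA p.1 = √3 * s := by
      unfold AA
      rw [hx, show (1 : ℝ) + 1 / 2 = 3 * s ^ 2 by rw [s_sq]; norm_num,
        Real.sqrt_mul (by norm_num), Real.sqrt_sq s_pos.le]
    rw [hA]
    unfold c3
    have := sqrt3_pos
    have := s_pos
    field_simp
  gXY := by
    intro p h1 h2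
    have hx : p.1 ^ 2 = 1 / 2 := by rw [← sq_abs, h1, s_sq]
    have hy : p.2 ^ 2 ≤ 1 / 2 := by
      rw [← sq_abs, ← s_sq]; exact pow_le_pow_left₀ (abs_nonneg _) h2 2
    rw [dY_f0]
    unfold g0Y
    rw [if_pos (by rw [hx]; linarith)]
  gYX := by
    intro p h1 h2
    have hx : p.2 ^ 2 = 1 / 2 := by rw [← sq_abs, h1, s_sq]
    have hy : p.1 ^ 2 ≤ 1 / 2 := by
      rw [← sq_abs, ← s_sq]; exact pow_le_pow_left₀ (abs_nonneg _) h2 2
    rw [dX_f0]
    unfold g0X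
    split_ifs with hc
    · have he : 3 * p.2 ^ 2 = 1 + p.1 ^ 2 := by
        rw [hx] at hc ⊢; linarith
      obtain ⟨e1, e2⟩ := iface he
      rw [e1, e2]
      unfold c3
      have := sqrt3_pos
      have hh : 0 < |p.2| := by rw [h1]; exact s_pos
      field_simp
    · rfl
  gYY := by
    intro p h1 h2
    have hs := s_pos
    have hx : p.2 ^ 2 = 1 / 2 := by rw [← sq_abs, h1, s_sq]
    have hy : p.1 ^ 2 ≤ 1 / 2 := by
      rw [← sq_abs, ← s_sq]; exact pow_le_pow_left₀ (abs_nonneg _) h2 2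
    rw [dY_f0]
    unfold g0Y
    split_ifs with hc
    · have he : 3 * p.2 ^ 2 = 1 + p.1 ^ 2 := by
        rw [hx] at hc ⊢; linarith
      obtain ⟨e1, e2⟩ := iface he
      rw [e1, h1]
      ring
    · have hy : 1 / 2 ≤ |p.2| := (half_lt (not_le.1 hc).le).le
      have e1 := sg_mul hy
      have e2 := sg_sq hy
      have e3 : sg p.2 = p.2 / s := by
        rw [eq_div_iff hs.ne', ← h1, ← e1, ← mul_assoc, e2, one_mul]
      rw [e3]
      field_simp

theorem adm_f1 : Adm f1 := adm_f0.swap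

end Helper55.MEI
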