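import Pool.Agent.Helper55.MEI.L3b

/-!
# Project MEI (MP_8bdc10_gt), local theorem: weights on a slice

Notation: `z0 = 1/√3`, `nz z = √(1+z²)`, `om = nz ^ (-3)`, `Wz = 2 (1 - c0 nz) / nz ^ 4`.
-/

open MeasureTheory Set Real

namespace Pool.Agent.Helper55.MEI

/-- the interface -/
noncomputable def z0 : ℝ := 1 / √3

theorem z0_pos : 0 < z0 := by
  unfold z0
  positivity

theorem z0_sq : z0 ^ 2 = 1 / 3 := by
  unfold z0
  rw [div_pow, Real.sq_sqrt (by norm_num)]
  norm_num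

theorem z0_gt : 0.5773 < z0 := by
  by_contra h
  push Not at h
  have := z0_sq
  have := z0_pos
  nlinarith

theorem z0_lt : z0 < 0.57736 := by
  by_contra h
  push Not at h
  have := z0_sq
  nlinarith

theorem s0_lt : s0 < 0.70711 := by
  by_contra h
  push Not at h
  have := s0_sq
  nlinarith

theorem c0_gt : 0.86602 < c0 := by
  by_contra h
  push Not at h
  have := c0_sq
  have := c0_pos
  nlinarith

theorem c0_lt : c0 < 0.866026 := by
  by_contra h
  push Not at h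
  have := c0_sq
  nlinarith

theorem c0_z0 : 2 * c0 * z0 = 1 := by
  unfold c0 z0
  have : √3 ≠ 0 := by positivity
  field_simp

theorem s0_sub_z0 : s0 - z0 < 0.12977 := by
  have h1 : z0 = 2 / 3 * c0 := by
    have := c0_z0
    have := c0_sq
    have := c0_pos
    nlinarith
  have := s0_sq
  have := c0_sq
  have hs := s0_pos
  have hc := c0_pos
  by_contra h
  push Not at h
  rw [h1] at h
  have h2 : c0 > 0.866025 := by
    by_contra h'
    push Not at h'
    nlinarith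
  have h3 : s0 < 0.70710679 := by
    by_contra h'
    push Not at h'
    nlinarith
  linarith

/-- the norm on a slice -/
noncomputable def nz (z : ℝ) : ℝ := √(1 + z ^ 2)

theorem nz_nr (z : ℝ) : nz z = nr 1 z := by
  rw [nz, nr, one_pow]

theorem nz_sq (z : ℝ) : nz z ^ 2 = 1 + z ^ 2 := Real.sq_sqrt (by positivity)

theorem nz_pos (z : ℝ) : 0 < nz z := Real.sqrt_pos.2 (by positivity)

theorem nz_ge (z : ℝ) : 1 ≤ nz z := Real.one_le_sqrt.2 (by nlinarith [sq_nonneg z])

theorem nz_neg (z : ℝ) : nz (-z) = nz z := by rw [nz, nz, neg_sq]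

theorem nz_cont : Continuous nz := by
  unfold nz
  fun_prop

theorem nz_z0 : nz z0 = 2 * z0 := by
  rw [nz, z0_sq]
  have h : (2 * z0) ^ 2 = 1 + 1 / 3 := by
    rw [mul_pow, z0_sq]
    norm_num
  rw [← h]
  exact Real.sqrt_sq (by have := z0_pos; positivity)

theorem nz_mono {a b : ℝ} (ha : 0 ≤ a) (hab : a ≤ b) : nz a ≤ nz b := by
  unfold nz
  apply Real.sqrt_le_sqrt
  nlinarith

theorem nz_abs (z : ℝ) : nz |z| = nz z := by rw [nz, nz, sq_abs]

theorem nz_le {z : ℝ} (h : |z| ≤ z0) : nz z ≤ 2 * z0 := by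
  rw [← nz_abs, ← nz_z0]
  exact nz_mono (abs_nonneg z) h

theorem nz_ge' {z : ℝ} (h : z0 ≤ |z|) : 2 * z0 ≤ nz z := by
  rw [← nz_abs, ← nz_z0]
  exact nz_mono z0_pos.le h

/-- the weight of the latitude energy -/
noncomputable def om (z : ℝ) : ℝ := 1 / nz z ^ 3

/-- the weight of the linear term in the middle -/
noncomputable def Wz (z : ℝ) : ℝ := 2 * (1 - c0 * nz z) / nz z ^ 4

theorem om_pos (z : ℝ) : 0 < om z := by
  have := nz_pos z
  unfold om
  positivity

theorem om_neg (z : ℝ) : om (-z) = om z := by rw [om, om, nz_neg]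

theorem Wz_neg (z : ℝ) : Wz (-z) = Wz z := by rw [Wz, Wz, nz_neg]

theorem nzi_cont (k : ℕ) : Continuous fun z => 1 / nz z ^ k :=
  continuous_const.div (nz_cont.pow k) fun z => (pow_pos (nz_pos z) k).ne'

theorem om_cont : Continuous om := nzi_cont 3

theorem Wz_eq (z : ℝ) : Wz z = 2 * (1 / nz z ^ 4 - c0 * (1 / nz z ^ 3)) := by
  have := (nz_pos z).ne'
  unfold Wz
  field_simp

theorem Wz_om (z : ℝ) : Wz z = om z * (2 * (1 / nz z - c0)) := by
  have := (nz_pos z).ne'
  unfold Wz om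
  field_simp

theorem Wz_cont : Continuous Wz := by
  have h : Wz = fun z => 2 * (1 / nz z ^ 4 - c0 * (1 / nz z ^ 3)) := funext Wz_eq
  rw [h]
  have h3 := nzi_cont 3
  have h4 := nzi_cont 4
  fun_prop

theorem Wz_nonneg {z : ℝ} (h : |z| ≤ z0) : 0 ≤ Wz z := by
  have h1 := nz_le h
  have h2 := nz_pos z
  have h3 := c0_z0
  have h4 := c0_pos
  unfold Wz
  have : 0 ≤ 1 - c0 * nz z := by nlinarith
  positivity

theorem om_le {z : ℝ} : om z ≤ 1 := by
  unfold om
  rw [div_le_one (pow_pos (nz_pos z) 3)]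
  exact one_le_pow₀ (nz_ge z)

/-- `z om(z) <= 2 / (3 √3)` -/
theorem z_om_le (z : ℝ) : |z| * om z ≤ 0.38491 := by
  have h1 := nz_pos z
  have h2 := nz_sq z
  have h3 : (|z| * om z) ^ 2 ≤ 0.38491 ^ 2 := by
    unfold om
    rw [mul_pow, div_pow, one_pow, sq_abs]
    have h4 : (nz z ^ 3) ^ 2 = (1 + z ^ 2) ^ 3 := by rw [← h2]; ring
    rw [h4, mul_one_div, div_le_iff₀ (by positivity)]
    nlinarith [mul_nonneg (sq_nonneg (z ^ 2 - 1 / 2)) (by positivity : (0:ℝ) ≤ z ^ 2 + 4),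
      pow_nonneg (by positivity : (0:ℝ) ≤ 1 + z ^ 2) 3]
  exact abs_le_of_sq_le_sq' h3 (by norm_num) |>.2

/-! ### the integrals -/

theorem int_om : ∫ z in (0:ℝ)..z0, om z = 1 / 2 := by
  have h : ∀ z ∈ uIcc (0:ℝ) z0, HasDerivAt (fun z => z / nr 1 z / 1 ^ 2) (om z) z := by
    intro z _
    have := a3_deriv one_pos z
    rw [om, nz_nr]
    exact this
  rw [intervalIntegral.integral_eq_sub_of_hasDerivAt h (om_cont.intervalIntegrable _ _), ← nz_nr,
    nz_z0]
  have := z0_pos.ne'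
  field_simp
  norm_num

theorem int_zom : ∫ z in (0:ℝ)..z0, om z * z = 1 - c0 := by
  have h : ∀ z ∈ uIcc (0:ℝ) z0, HasDerivAt (fun z => -(nr 1 z)⁻¹) (om z * z) z := by
    intro z _
    have := (v_deriv one_pos z).neg
    refine this.congr_deriv ?_
    rw [om, nz_nr]
    ring
  rw [intervalIntegral.integral_eq_sub_of_hasDerivAt h
    ((om_cont.mul continuous_id).intervalIntegrable _ _), ← nz_nr, ← nz_nr, nz_z0]
  have h0 : nz 0 = 1 := by
    unfold nz
    norm_num
  have := z0_pos.ne'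
  have h2 := c0_z0
  rw [h0]
  field_simp
  linarith

theorem int_W : ∫ z in (0:ℝ)..z0, Wz z = π / 6 - c0 / 2 := by
  have h : ∀ z ∈ uIcc (0:ℝ) z0, HasDerivAt (fun z => 2 * ((z / nr 1 z * (nr 1 z)⁻¹ / (2 * 1 ^ 2) +
      arctan (z / 1) / (2 * 1 ^ 3)) - c0 * (z / nr 1 z / 1 ^ 2))) (Wz z) z := by
    intro z _
    have := ((a4_deriv one_pos z).sub ((a3_deriv one_pos z).const_mul c0)).const_mul 2
    rw [Wz_eq, nz_nr]
    exact this
  rw [intervalIntegral.integral_eq_sub_of_hasDerivAt h (Wz_cont.intervalIntegrable _ _), ← nz_nr,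
    nz_z0]
  have ha : arctan z0 = π / 6 := by
    rw [z0, ← Real.tan_pi_div_six]
    exact Real.arctan_tan (by linarith [Real.pi_pos]) (by linarith [Real.pi_pos])
  have := z0_pos.ne'
  have h2 := c0_z0
  have h3 := z0_sq
  have h4 := c0_sq
  rw [div_one, ha]
  simp
  field_simp
  nlinarith

theorem int_zW : ∫ z in (0:ℝ)..z0, Wz z * z = 7 / 4 - 2 * c0 := by
  have h : ∀ z ∈ uIcc (0:ℝ) z0, HasDerivAt (fun z => 2 * (-(nr 1 z)⁻¹ ^ 2 / 2 -
      c0 * (-(nr 1 z)⁻¹))) (Wz z * z) z := by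
    intro z _
    have := ((b4_deriv one_pos z).sub ((v_deriv one_pos z).neg.const_mul c0)).const_mul 2
    refine this.congr_deriv ?_
    rw [Wz_eq, nz_nr]
    ring
  rw [intervalIntegral.integral_eq_sub_of_hasDerivAt h
    ((Wz_cont.mul continuous_id).intervalIntegrable _ _), ← nz_nr, ← nz_nr, nz_z0]
  have h0 : nz 0 = 1 := by
    unfold nz
    norm_num
  have hi : (2 * z0)⁻¹ = c0 := by
    rw [inv_eq_iff_eq_inv]
    have := c0_z0
    have := c0_pos.ne'
    field_simp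
    linarith
  have h4 := c0_sq
  rw [h0, hi]
  norm_num
  linarith

end Pool.Agent.Helper55.MEI
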