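import Pool.Agent.Helper55.MEI.L3f
import Pool.Agent.Helper22.MEI.Def

/-!
# Elementary integrals for the volume of the Meissner bodies (MP_8bdc10_gt), part g

The square part for the function `f0`, and the value of the formula.
-/

open MeasureTheory Set Real

namespace Pool.Agent.Helper55.MEI

open Helper22.MEI (f0 NN AA c3)

theorem AA_eq (x : ℝ) : AA x = nr 1 x := by
  rw [AA, nr, one_pow]

theorem NN_eq (p : ℝ × ℝ) : NN p = nr (nr 1 p.1) p.2 := by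
  rw [NN, nr, nr_sq]
  congr 1
  ring

theorem NN_Nn (p : ℝ × ℝ) : NN p = Helper14.CW.Nn p := by rw [NN_eq, Nn_eq]

/-- the interface is a null set -/
theorem iface_null : volume {p : ℝ × ℝ | 3 * p.2 ^ 2 = 1 + p.1 ^ 2} = 0 := by
  have hm : MeasurableSet {p : ℝ × ℝ | 3 * p.2 ^ 2 = 1 + p.1 ^ 2} := by
    refine (isClosed_eq ?_ ?_).measurableSet <;> fun_prop
  rw [Measure.volume_eq_prod, Measure.measure_prod_null hm]
  refine Filter.Eventually.of_forall fun x => ?_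
  have hsub : Prod.mk x ⁻¹' {p : ℝ × ℝ | 3 * p.2 ^ 2 = 1 + p.1 ^ 2} ⊆
      {√((1 + x ^ 2) / 3), -√((1 + x ^ 2) / 3)} := by
    intro y hy
    have hy' : 3 * y ^ 2 = 1 + x ^ 2 := hy
    have h1 : y ^ 2 = √((1 + x ^ 2) / 3) ^ 2 := by
      rw [Real.sq_sqrt (by positivity)]
      linarith
    rcases sq_eq_sq_iff_eq_or_eq_neg.1 h1 with h | h
    · exact Or.inl h
    · exact Or.inr h
  have hfin : ({√((1 + x ^ 2) / 3), -√((1 + x ^ 2) / 3)} : Set ℝ).Finite := Set.toFinite _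
  exact measure_mono_null hsub (hfin.measure_zero _)

theorem f0_mid {p : ℝ × ℝ} (h : 3 * p.2 ^ 2 < 1 + p.1 ^ 2) :
    HasFDerivAt f0 ((c3 * (p.1 / AA p.1)) • ContinuousLinearMap.fst ℝ ℝ ℝ) p := by
  have h1 := (nr_deriv one_pos p.1).const_mul c3
  have h2 := h1.comp_hasFDerivAt p (hasFDerivAt_fst (𝕜 := ℝ) (p := p))
  have h3 := h2.sub_const Helper22.MEI.t
  rw [AA_eq]
  refine h3.congr_of_eventuallyEq ?_
  have ho : IsOpen {q : ℝ × ℝ | 3 * q.2 ^ 2 < 1 + q.1 ^ 2} := by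
    refine isOpen_lt ?_ ?_ <;> fun_prop
  filter_upwards [ho.mem_nhds h] with q hq
  have hq' : 3 * q.2 ^ 2 ≤ 1 + q.1 ^ 2 := le_of_lt hq
  rw [f0, if_pos hq', AA_eq]
  rfl

theorem NN_fderiv (p : ℝ × ℝ) : HasFDerivAt NN ((p.1 / NN p) • ContinuousLinearMap.fst ℝ ℝ ℝ +
    (p.2 / NN p) • ContinuousLinearMap.snd ℝ ℝ ℝ) p := by
  have h1 : HasFDerivAt (fun q : ℝ × ℝ => 1 + q.1 ^ 2 + q.2 ^ 2)
      ((2 * p.1) • ContinuousLinearMap.fst ℝ ℝ ℝ + (2 * p.2) • ContinuousLinearMap.snd ℝ ℝ ℝ) p := by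
    have a1 := ((hasDerivAt_pow 2 p.1).comp_hasFDerivAt p (hasFDerivAt_fst (𝕜 := ℝ) (p := p)))
    have a2 := ((hasDerivAt_pow 2 p.2).comp_hasFDerivAt p (hasFDerivAt_snd (𝕜 := ℝ) (p := p)))
    have a3 := ((a1.const_add 1).add a2)
    refine a3.congr_fderiv ?_
    norm_num
  have h2 := h1.sqrt (by positivity)
  refine h2.congr_fderiv ?_
  have hN : √(1 + p.1 ^ 2 + p.2 ^ 2) = NN p := rfl
  rw [hN]
  have h0 : NN p ≠ 0 := Helper22.MEI.NN_ne p
  rw [smul_add, smul_smul, smul_smul]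
  congr 2 <;> field_simp

/-- the sign -/
theorem f0_lens {p : ℝ × ℝ} (h : 1 + p.1 ^ 2 < 3 * p.2 ^ 2) :
    ∃ σ : ℝ, σ ^ 2 = 1 ∧ |p.2| = σ * p.2 ∧
    HasFDerivAt f0 ((p.1 / NN p) • ContinuousLinearMap.fst ℝ ℝ ℝ +
    (p.2 / NN p - σ / 2) • ContinuousLinearMap.snd ℝ ℝ ℝ) p := by
  have h0 : p.2 ≠ 0 := by
    intro h0
    rw [h0] at h
    nlinarith [sq_nonneg p.1]
  have ho : IsOpen {q : ℝ × ℝ | 1 + q.1 ^ 2 < 3 * q.2 ^ 2} := by
    refine isOpen_lt ?_ ?_ <;> fun_prop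
  have key : ∀ σ : ℝ, HasDerivAt (fun y : ℝ => |y|) σ p.2 →
      HasFDerivAt f0 ((p.1 / NN p) • ContinuousLinearMap.fst ℝ ℝ ℝ +
      (p.2 / NN p - σ / 2) • ContinuousLinearMap.snd ℝ ℝ ℝ) p := by
    intro σ hσ
    have h2 := (hσ.div_const 2).comp_hasFDerivAt p (hasFDerivAt_snd (𝕜 := ℝ) (p := p))
    have h3 := ((NN_fderiv p).sub h2).sub_const Helper22.MEI.t
    have h4 : HasFDerivAt f0 ((p.1 / NN p) • ContinuousLinearMap.fst ℝ ℝ ℝ +
      (p.2 / NN p) • ContinuousLinearMap.snd ℝ ℝ ℝ -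
      (σ / 2) • ContinuousLinearMap.snd ℝ ℝ ℝ) p := by
      refine h3.congr_of_eventuallyEq ?_
      filter_upwards [ho.mem_nhds h] with q hq
      have hq' : ¬ 3 * q.2 ^ 2 ≤ 1 + q.1 ^ 2 := not_le.2 hq
      rw [f0, if_neg hq']
      rfl
    refine h4.congr_fderiv ?_
    refine ContinuousLinearMap.ext fun v => ?_
    show p.1 / NN p * v.1 + p.2 / NN p * v.2 - σ / 2 * v.2 =
      p.1 / NN p * v.1 + (p.2 / NN p - σ / 2) * v.2
    ring
  rcases lt_or_gt_of_ne h0 with hn | hp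
  · exact ⟨-1, by norm_num, by rw [abs_of_neg hn]; ring, key _ (hasDerivAt_abs_neg hn)⟩
  · exact ⟨1, by norm_num, by rw [abs_of_pos hp]; ring, key _ (hasDerivAt_abs_pos hp)⟩

/-- the integrand of the square part for `f0` -/
theorem qd_f0 {p : ℝ × ℝ} (h : 3 * p.2 ^ 2 ≠ 1 + p.1 ^ 2) :
    Helper14.CW.qd f0 p * (Helper14.CW.Nn p ^ 3)⁻¹ = G2 p := by
  have hN := NN_pos p
  have hr := nr_pos one_pos p.1
  have b2 := s0_sq
  have hc2 := c0_sq
  have r2 : nr 1 p.1 ^ 2 = 1 + p.1 ^ 2 := by rw [nr_sq]; ring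
  have n2 : nr (nr 1 p.1) p.2 ^ 2 = 1 + p.1 ^ 2 + p.2 ^ 2 := by rw [nr_sq, r2]
  have ht : Helper22.MEI.t = s0 / 2 := by unfold Helper22.MEI.t s0; ring
  have hc : c3 = c0 := rfl
  rcases lt_or_gt_of_ne h with hl | hg
  · have h1 := (f0_mid hl).fderiv
    have e0 : f0 p = c0 * nr 1 p.1 - s0 / 2 := by
      rw [f0, if_pos hl.le, AA_eq, ht, hc]
    have e1 : fderiv ℝ f0 p (1, 0) = c0 * (p.1 / nr 1 p.1) := by
      rw [h1, AA_eq, hc]
      simp
    have e2 : fderiv ℝ f0 p (0, 1) = 0 := by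
      rw [h1]
      simp
    have e3 : G2 p = gm (nr 1 p.1) p.2 := if_pos hl.le
    rw [Helper14.CW.qd, e0, e1, e2, e3, gm, Nn_eq]
    generalize nr (nr 1 p.1) p.2 = N at *
    generalize nr 1 p.1 = r at *
    have hx : p.1 ^ 2 = r ^ 2 - 1 := by linarith
    field_simp
    rw [hx]
    ring_nf
    rw [hc2, b2]
    ring_nf
  · obtain ⟨σ, s2, sa, hd⟩ := f0_lens hg
    have h1 := hd.fderiv
    have e0 : f0 p = NN p - |p.2| / 2 - s0 / 2 := by
      rw [f0, if_neg (not_le.2 hg), ht]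
    have e1 : fderiv ℝ f0 p (1, 0) = p.1 / NN p := by
      rw [h1]
      simp
    have e2 : fderiv ℝ f0 p (0, 1) = p.2 / NN p - σ / 2 := by
      rw [h1]
      simp
    have e3 : G2 p = gl (nr 1 p.1) |p.2| := if_neg (not_le.2 hg)
    have e4 : nr (nr 1 p.1) |p.2| = nr (nr 1 p.1) p.2 := by
      unfold nr
      rw [sq_abs]
    rw [Helper14.CW.qd, e0, e1, e2, e3, gl, e4, NN_eq, Nn_eq, sa]
    generalize nr (nr 1 p.1) p.2 = N at *
    generalize nr 1 p.1 = r at *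
    have hx : p.1 ^ 2 = N ^ 2 - 1 - p.2 ^ 2 := by linarith
    field_simp
    rw [hx]
    ring_nf
    rw [s2, b2]
    ring_nf

theorem SQ_eq : Helper14.CW.SQ = SQ := rfl

/-- the square part -/
theorem sq_f0 : ∫ p in Helper14.CW.SQ, Helper14.CW.qd f0 p * (Helper14.CW.Nn p ^ 3)⁻¹ =
    2 * π + √2 * √3 * π / 9 - √2 / 3 - (4 + √3 * π / 6) * arccos (1 / 3) := by
  have h1 : ∀ᵐ p : ℝ × ℝ ∂(volume.restrict Helper14.CW.SQ),
      Helper14.CW.qd f0 p * (Helper14.CW.Nn p ^ 3)⁻¹ = G2 p := by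
    refine ae_restrict_of_ae ?_
    have h := measure_eq_zero_iff_ae_notMem.1 iface_null
    filter_upwards [h] with p hp
    exact qd_f0 hp
  rw [integral_congr_ae h1, SQ_eq, sq_val, FI_val]
  unfold s0 c0
  ring

/-- the integrand of the square part is integrable -/
theorem sq_f0_int : IntegrableOn
    (fun p => Helper14.CW.qd f0 p * (Helper14.CW.Nn p ^ 3)⁻¹) Helper14.CW.SQ := by
  have h1 : ∀ᵐ p : ℝ × ℝ ∂(volume.restrict Helper14.CW.SQ),
      G2 p = Helper14.CW.qd f0 p * (Helper14.CW.Nn p ^ 3)⁻¹ := by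
    refine ae_restrict_of_ae ?_
    have h := measure_eq_zero_iff_ae_notMem.1 iface_null
    filter_upwards [h] with p hp
    exact (qd_f0 hp).symm
  exact G2_int.congr h1

/-- L3: the value of the volume formula for the Meissner bodies. -/
theorem meissner_value :
    Helper14.CW.CT + 3 / 2 * (∫ p in Helper14.CW.SQ, Helper14.CW.qd f0 p *
      (Helper14.CW.Nn p ^ 3)⁻¹) = π * (2 / 3 - √3 / 4 * arccos (1 / 3)) := by
  rw [CT_val, sq_f0]
  ring

end Pool.Agent.Helper55.MEI
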