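import Pool.Agent.Helper55.MEI.Sx4

/-!
# Side functions of the flat simplex
-/

namespace Pool.Agent.Helper55.Sx

open Set MeasureTheory

theorem int_W : ∫ x in ((0) : ℝ)..(1), ∫ y in (0 : ℝ)..(1 - x), (1 + 2 * e2 (x, y) + 3 * e2 (x, y) ^ 2 + 4 * e2 (x, y) ^ 3 + 5 * e2 (x, y) ^ 4
      + 6 * e2 (x, y) ^ 5) = (199 / 220) := by
  have h1 : ∀ x : ℝ, ∫ y in (0 : ℝ)..(1 - x), (1 + 2 * e2 (x, y) + 3 * e2 (x, y) ^ 2 + 4 * e2 (x, y) ^ 3 + 5 * e2 (x, y) ^ 4
      + 6 * e2 (x, y) ^ 5) = (10201 / 6930) * x ^ 0 + (167 / 210) * x ^ 1 + (-181 / 70) * x ^ 2 + (-157 / 42) * x ^ 3 + (13 / 14) * x ^ 4 + (63 / 10) * x ^ 5 + (14 / 5) * x ^ 6 + (-162 / 35) * x ^ 7 + (-108 / 7) * x ^ 8 + (1579 / 63) * x ^ 9 + (-571 / 42) * x ^ 10 + (403 / 154) * x ^ 11 := by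
    intro x
    refine Eq.trans (intervalIntegral.integral_congr fun y _ => ?_)
      ((P11
      ((1) * x ^ 0 + (2) * x ^ 1 + (1) * x ^ 2 + (-2) * x ^ 3 + (-4) * x ^ 4 + (-2) * x ^ 5 + (-4) * x ^ 6 + (40) * x ^ 7 + (-55) * x ^ 8 + (30) * x ^ 9 + (-6) * x ^ 10)
      ((2) * x ^ 0 + (4) * x ^ 1 + (-10) * x ^ 3 + (-14) * x ^ 4 + (-42) * x ^ 5 + (220) * x ^ 6 + (-280) * x ^ 7 + (150) * x ^ 8 + (-30) * x ^ 9)
      ((1) * x ^ 0 + (-9) * x ^ 2 + (-20) * x ^ 3 + (-114) * x ^ 4 + (540) * x ^ 5 + (-730) * x ^ 6 + (420) * x ^ 7 + (-90) * x ^ 8)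
      ((-2) * x ^ 0 + (-10) * x ^ 1 + (-20) * x ^ 2 + (-148) * x ^ 3 + (820) * x ^ 4 + (-1240) * x ^ 5 + (780) * x ^ 6 + (-180) * x ^ 7)
      ((-4) * x ^ 0 + (-14) * x ^ 1 + (-114) * x ^ 2 + (820) * x ^ 3 + (-1465) * x ^ 4 + (1050) * x ^ 5 + (-270) * x ^ 6)
      ((-2) * x ^ 0 + (-42) * x ^ 1 + (540) * x ^ 2 + (-1240) * x ^ 3 + (1050) * x ^ 4 + (-306) * x ^ 5)
      ((-4) * x ^ 0 + (220) * x ^ 1 + (-730) * x ^ 2 + (780) * x ^ 3 + (-270) * x ^ 4)
      ((40) * x ^ 0 + (-280) * x ^ 1 + (420) * x ^ 2 + (-180) * x ^ 3)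
      ((-55) * x ^ 0 + (150) * x ^ 1 + (-90) * x ^ 2)
      ((30) * x ^ 0 + (-30) * x ^ 1)
      ((-6) * x ^ 0)
      (0 : ℝ) (1 - x)).trans ?_)
    · simp only [e2, t3]
      ring
    · ring
  simp only [h1]
  refine Eq.trans (intervalIntegral.integral_congr fun x _ => ?_)
    ((P12
      (10201 / 6930)
      (167 / 210)
      (-181 / 70)
      (-157 / 42)
      (13 / 14)
      (63 / 10)
      (14 / 5)
      (-162 / 35)
      (-108 / 7)
      (1579 / 63)
      (-571 / 42)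
      (403 / 154)
      ((0) : ℝ) (1)).trans ?_)
  · ring
  · norm_num

theorem int_hW : ∫ x in ((1 / 2) : ℝ)..(1), ∫ y in (0 : ℝ)..(1 - x), (x - 1 / 2) * (1 + 2 * e2 (x, y) + 3 * e2 (x, y) ^ 2 + 4 * e2 (x, y) ^ 3 + 5 * e2 (x, y) ^ 4
      + 6 * e2 (x, y) ^ 5) = (2433457 / 75694080) := by
  have h1 : ∀ x : ℝ, ∫ y in (0 : ℝ)..(1 - x), (x - 1 / 2) * (1 + 2 * e2 (x, y) + 3 * e2 (x, y) ^ 2 + 4 * e2 (x, y) ^ 3 + 5 * e2 (x, y) ^ 4
      + 6 * e2 (x, y) ^ 5) = (-10201 / 13860) * x ^ 0 + (14891 / 13860) * x ^ 1 + (877 / 420) * x ^ 2 + (-43 / 60) * x ^ 3 + (-353 / 84) * x ^ 4 + (-311 / 140) * x ^ 5 + (49 / 10) * x ^ 6 + (179 / 35) * x ^ 7 + (108 / 35) * x ^ 8 + (-3523 / 126) * x ^ 9 + (1147 / 36) * x ^ 10 + (-13771 / 924) * x ^ 11 + (403 / 154) * x ^ 12 := by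
    intro x
    refine Eq.trans (intervalIntegral.integral_congr fun y _ => ?_)
      ((P11
      ((-1 / 2) * x ^ 0 + (3 / 2) * x ^ 2 + (2) * x ^ 3 + (-3) * x ^ 5 + (-24) * x ^ 7 + (135 / 2) * x ^ 8 + (-70) * x ^ 9 + (33) * x ^ 10 + (-6) * x ^ 11)
      ((-1) * x ^ 0 + (4) * x ^ 2 + (5) * x ^ 3 + (-3) * x ^ 4 + (7) * x ^ 5 + (-152) * x ^ 6 + (360) * x ^ 7 + (-355) * x ^ 8 + (165) * x ^ 9 + (-30) * x ^ 10)
      ((-1 / 2) * x ^ 0 + (1) * x ^ 1 + (9 / 2) * x ^ 2 + (1) * x ^ 3 + (37) * x ^ 4 + (-384) * x ^ 5 + (905) * x ^ 6 + (-940) * x ^ 7 + (465) * x ^ 8 + (-90) * x ^ 9)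
      ((1) * x ^ 0 + (3) * x ^ 1 + (54) * x ^ 3 + (-558) * x ^ 4 + (1440) * x ^ 5 + (-1630) * x ^ 6 + (870) * x ^ 7 + (-180) * x ^ 8)
      ((2) * x ^ 0 + (3) * x ^ 1 + (43) * x ^ 2 + (-524) * x ^ 3 + (3105 / 2) * x ^ 4 + (-1990) * x ^ 5 + (1185) * x ^ 6 + (-270) * x ^ 7)
      ((1) * x ^ 0 + (19) * x ^ 1 + (-312) * x ^ 2 + (1160) * x ^ 3 + (-1765) * x ^ 4 + (1203) * x ^ 5 + (-306) * x ^ 6)
      ((2) * x ^ 0 + (-114) * x ^ 1 + (585) * x ^ 2 + (-1120) * x ^ 3 + (915) * x ^ 4 + (-270) * x ^ 5)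
      ((-20) * x ^ 0 + (180) * x ^ 1 + (-490) * x ^ 2 + (510) * x ^ 3 + (-180) * x ^ 4)
      ((55 / 2) * x ^ 0 + (-130) * x ^ 1 + (195) * x ^ 2 + (-90) * x ^ 3)
      ((-15) * x ^ 0 + (45) * x ^ 1 + (-30) * x ^ 2)
      ((3) * x ^ 0 + (-6) * x ^ 1)
      (0 : ℝ) (1 - x)).trans ?_)
    · simp only [e2, t3]
      ring
    · ring
  simp only [h1]
  refine Eq.trans (intervalIntegral.integral_congr fun x _ => ?_)
    ((P13
      (-10201 / 13860)
      (14891 / 13860)
      (877 / 420)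
      (-43 / 60)
      (-353 / 84)
      (-311 / 140)
      (49 / 10)
      (179 / 35)
      (108 / 35)
      (-3523 / 126)
      (1147 / 36)
      (-13771 / 924)
      (403 / 154)
      ((1 / 2) : ℝ) (1)).trans ?_)
  · ring
  · norm_num

/-- the side function of the side opposite to the first corner -/
noncomputable def xs (x y z : ℝ) : ℝ := max 0 (min (1 / 2 - x) (min y z))

theorem xs_cont {f g h : ℝ × ℝ → ℝ} (hf : Continuous f) (hg : Continuous g)
    (hh : Continuous h) : Continuous fun t => xs (f t) (g t) (h t) :=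
  continuous_const.sup ((continuous_const.sub hf).inf (hg.inf hh))

theorem xs_comm (x y z : ℝ) : xs x y z = xs x z y := by
  simp only [xs, min_comm y z]

/-- the two side functions at a corner use at most the corner coordinate -/
theorem xs_use {x y z : ℝ} (hx : 0 ≤ x) (hy : 0 ≤ y) (hz : 0 ≤ z) (h : x + y + z = 1) :
    xs y z x + xs z x y ≤ x := by
  have a1 : xs y z x ≤ max 0 (min (1 / 2 - y) z) := by
    simp only [xs]
    exact max_le_max le_rfl (min_le_min le_rfl (min_le_left _ _))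
  have a2 : xs z x y ≤ max 0 (min (1 / 2 - z) y) := by
    simp only [xs]
    exact max_le_max le_rfl (min_le_min le_rfl (min_le_right _ _))
  rcases le_total x (1 / 2) with h1 | h1
  · -- `1/2 - y + 1/2 - z = x`
    rcases le_total y (1 / 2) with h2 | h2
    · rcases le_total z (1 / 2) with h3 | h3
      · have b1 : xs y z x ≤ 1 / 2 - y := by
          refine a1.trans (max_le (by linarith) (min_le_left _ _))
        have b2 : xs z x y ≤ 1 / 2 - z := by
          refine a2.trans (max_le (by linarith) (min_le_left _ _))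
        linarith
      · have b1 : xs y z x ≤ x := by
          simp only [xs]
          exact max_le hx ((min_le_right _ _).trans (min_le_right _ _))
        have b2 : xs z x y ≤ 0 := by
          refine a2.trans (max_le le_rfl ((min_le_left _ _).trans (by linarith)))
        linarith
    · have b1 : xs y z x ≤ 0 := by
        refine a1.trans (max_le le_rfl ((min_le_left _ _).trans (by linarith)))
      have b2 : xs z x y ≤ x := by
        simp only [xs]
        exact max_le hx ((min_le_right _ _).trans (min_le_left _ _))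
      linarith
  · have b1 : xs y z x ≤ z := a1.trans (max_le hz (min_le_right _ _))
    have b2 : xs z x y ≤ y := a2.trans (max_le hy (min_le_right _ _))
    linarith

theorem xs_sum {x y z : ℝ} (hx : 0 ≤ x) (hy : 0 ≤ y) (hz : 0 ≤ z) (h : x + y + z = 1) :
    1 / 2 - (max (x - 1 / 2) 0 + max (y - 1 / 2) 0 + max (z - 1 / 2) 0)
      ≤ xs x y z + xs y z x + xs z x y := by
  have lx : min (1 / 2 - x) (min y z) ≤ xs x y z := le_max_right _ _
  have ly : min (1 / 2 - y) (min z x) ≤ xs y z x := le_max_right _ _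
  have lz : min (1 / 2 - z) (min x y) ≤ xs z x y := le_max_right _ _
  have px : 0 ≤ xs x y z := le_max_left _ _
  have py : 0 ≤ xs y z x := le_max_left _ _
  have pz : 0 ≤ xs z x y := le_max_left _ _
  rcases le_total x (1 / 2) with h1 | h1
  · rcases le_total y (1 / 2) with h2 | h2
    · rcases le_total z (1 / 2) with h3 | h3
      · have e1 : min (1 / 2 - x) (min y z) = 1 / 2 - x :=
          min_eq_left (le_min (by linarith) (by linarith))
        have e2 : min (1 / 2 - y) (min z x) = 1 / 2 - y :=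
          min_eq_left (le_min (by linarith) (by linarith))
        have e3 : min (1 / 2 - z) (min x y) = 1 / 2 - z :=
          min_eq_left (le_min (by linarith) (by linarith))
        have q1 := le_max_right (x - 1 / 2) 0
        have q2 := le_max_right (y - 1 / 2) 0
        have q3 := le_max_right (z - 1 / 2) 0
        linarith
      · have e1 : min (1 / 2 - x) (min y z) = y := by
          rw [min_eq_left (by linarith : y ≤ z), min_eq_right (by linarith)]
        have e2 : min (1 / 2 - y) (min z x) = x := by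
          rw [min_eq_right (by linarith : x ≤ z), min_eq_right (by linarith)]
        have q1 := le_max_right (x - 1 / 2) 0
        have q2 := le_max_right (y - 1 / 2) 0
        have q3 := le_max_left (z - 1 / 2) 0
        linarith
    · have e1 : min (1 / 2 - x) (min y z) = z := by
        rw [min_eq_right (by linarith : z ≤ y), min_eq_right (by linarith)]
      have e3 : min (1 / 2 - z) (min x y) = x := by
        rw [min_eq_left (by linarith : x ≤ y), min_eq_right (by linarith)]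
      have q1 := le_max_right (x - 1 / 2) 0
      have q2 := le_max_left (y - 1 / 2) 0
      have q3 := le_max_right (z - 1 / 2) 0
      linarith
  · have e2 : min (1 / 2 - y) (min z x) = z := by
      rw [min_eq_left (by linarith : z ≤ x), min_eq_right (by linarith)]
    have e3 : min (1 / 2 - z) (min x y) = y := by
      rw [min_eq_right (by linarith : y ≤ x), min_eq_right (by linarith)]
    have q1 := le_max_left (x - 1 / 2) 0
    have q2 := le_max_right (y - 1 / 2) 0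
    have q3 := le_max_right (z - 1 / 2) 0
    linarith

/-- the weight polynomial as a function of `m` -/
def Wm (m : ℝ) : ℝ :=
  1 + 2 * (1 - m) + 3 * (1 - m) ^ 2 + 4 * (1 - m) ^ 3 + 5 * (1 - m) ^ 4 + 6 * (1 - m) ^ 5

theorem Wm_eq (t : ℝ × ℝ) : Wm (mm t)
    = 1 + 2 * e2 t + 3 * e2 t ^ 2 + 4 * e2 t ^ 3 + 5 * e2 t ^ 4 + 6 * e2 t ^ 5 := by
  simp only [Wm, mm, sub_sub_cancel]

theorem Wm_cont : Continuous fun t : ℝ × ℝ => Wm (mm t) := by
  have := mm_cont
  unfold Wm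
  fun_prop

theorem half_W : ∫ t in Sim, max (t.1 - 1 / 2) 0 * Wm (mm t) = 2433457/75694080 := by
  have hc : Continuous fun t : ℝ × ℝ => max (t.1 - 1 / 2) 0 * Wm (mm t) :=
    ((continuous_fst.sub continuous_const).sup continuous_const).mul Wm_cont
  rw [int_Sim hc]
  have hin : Continuous fun x : ℝ => ∫ y in (0 : ℝ)..(1 - x), max (x - 1 / 2) 0 * Wm (mm (x, y)) := by
    refine intervalIntegral.continuous_parametric_intervalIntegral_of_continuous ?_ (by fun_prop)
    exact hc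
  have hsp := intervalIntegral.integral_add_adjacent_intervals
    (hin.intervalIntegrable (μ := volume) 0 (1 / 2)) (hin.intervalIntegrable (1 / 2) 1)
  rw [← hsp]
  have z1 : ∫ x in (0 : ℝ)..(1 / 2), ∫ y in (0 : ℝ)..(1 - x), max (x - 1 / 2) 0 * Wm (mm (x, y))
      = 0 := by
    refine intervalIntegral.integral_zero_ae (Filter.Eventually.of_forall fun x hx => ?_)
    rw [uIoc_of_le (by norm_num)] at hx
    rw [max_eq_right (by linarith [hx.2])]
    simp
  rw [z1, zero_add, ← int_hW]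
  refine intervalIntegral.integral_congr fun x hx => ?_
  rw [uIcc_of_le (by norm_num)] at hx
  rw [max_eq_left (by linarith [hx.1])]
  refine intervalIntegral.integral_congr fun y _ => ?_
  simp only [Wm_eq]

theorem all_W : ∫ t in Sim, Wm (mm t) = 199/220 := by
  rw [int_Sim Wm_cont, ← int_W]
  simp only [Wm_eq]

theorem side1 : (8977999/25231360 / 3 : ℝ) ≤ ∫ t in Sim, xs t.1 t.2 (t3 t) / mm t ^ 2 := by
  have c3 : Continuous t3 := by unfold t3; fun_prop
  have hm : ∀ t : ℝ × ℝ, mm t ^ 2 ≠ 0 := fun t => by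
    have := mm_pos t
    have h2 : 0 < mm t ^ 2 := by positivity
    exact h2.ne'
  have ii : ∀ f : ℝ × ℝ → ℝ, Continuous f → IntegrableOn f Sim := fun f hf =>
    hf.continuousOn.integrableOn_compact Sim_compact
  have k1 : IntegrableOn (fun t => xs t.1 t.2 (t3 t) / mm t ^ 2) Sim :=
    ii _ ((xs_cont continuous_fst continuous_snd c3).div (mm_cont.pow 2) hm)
  have k2 : IntegrableOn (fun t => xs t.2 (t3 t) t.1 / mm t ^ 2) Sim :=
    ii _ ((xs_cont continuous_snd c3 continuous_fst).div (mm_cont.pow 2) hm)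
  have k3 : IntegrableOn (fun t => xs (t3 t) t.1 t.2 / mm t ^ 2) Sim :=
    ii _ ((xs_cont c3 continuous_fst continuous_snd).div (mm_cont.pow 2) hm)
  -- symmetry
  have s2 : ∫ t in Sim, xs t.2 (t3 t) t.1 / mm t ^ 2 = ∫ t in Sim, xs t.1 t.2 (t3 t) / mm t ^ 2 := by
    rw [← Sim_swap fun t => xs t.1 t.2 (t3 t) / mm t ^ 2]
    refine integral_congr_ae (Filter.Eventually.of_forall fun t => ?_)
    simp only [mm_swap]
    rw [xs_comm]
    congr 2
    simp only [t3]
    ring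
  have s3 : ∫ t in Sim, xs (t3 t) t.1 t.2 / mm t ^ 2 = ∫ t in Sim, xs t.1 t.2 (t3 t) / mm t ^ 2 := by
    rw [← Sim_sh fun t => xs t.1 t.2 (t3 t) / mm t ^ 2]
    refine integral_congr_ae (Filter.Eventually.of_forall fun t => ?_)
    simp only [mm_sh]
    have e1 : (sh t).1 = t3 t := rfl
    have e2 : (sh t).2 = t.2 := rfl
    have e3 : t3 (sh t) = t.1 := by simp only [t3, sh]; ring
    rw [e1, e2, e3, xs_comm]
  have x1 := integral_add (k1.add k2) k3
  have x2 := integral_add k1 k2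
  simp only [Pi.add_apply] at x1
  rw [x2, s2, s3] at x1
  -- lower bound
  have cb : Continuous fun t : ℝ × ℝ =>
      1 / 2 - (max (t.1 - 1 / 2) 0 + max (t.2 - 1 / 2) 0 + max (t3 t - 1 / 2) 0) :=
    continuous_const.sub (((((continuous_fst.sub continuous_const).sup continuous_const)).add
      ((continuous_snd.sub continuous_const).sup continuous_const)).add
      ((c3.sub continuous_const).sup continuous_const))
  have hle : ∫ t in Sim, (1 / 2 - (max (t.1 - 1 / 2) 0 + max (t.2 - 1 / 2) 0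
      + max (t3 t - 1 / 2) 0)) * Wm (mm t)
      ≤ ∫ t in Sim, (xs t.1 t.2 (t3 t) / mm t ^ 2 + xs t.2 (t3 t) t.1 / mm t ^ 2
        + xs (t3 t) t.1 t.2 / mm t ^ 2) := by
    refine setIntegral_mono_on (ii _ (cb.mul Wm_cont)) ((k1.add k2).add k3) Sim_meas fun t ht => ?_
    obtain ⟨h1, h2, h3⟩ := ht
    have h4 : 0 ≤ t3 t := by simp only [t3]; linarith
    have hs := xs_sum h1 h2 h4 (by simp only [t3]; ring)
    have hW0 : 0 ≤ Wm (mm t) := by
      rw [Wm_eq]
      have := e2_nonneg (t := t) ⟨h1, h2, h3⟩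
      positivity
    have hW : Wm (mm t) ≤ 1 / mm t ^ 2 := by
      rw [Wm_eq]
      exact W_le ⟨h1, h2, h3⟩
    have hx0 : 0 ≤ xs t.1 t.2 (t3 t) + xs t.2 (t3 t) t.1 + xs (t3 t) t.1 t.2 := by
      have a1 : 0 ≤ xs t.1 t.2 (t3 t) := le_max_left _ _
      have a2 : 0 ≤ xs t.2 (t3 t) t.1 := le_max_left _ _
      have a3 : 0 ≤ xs (t3 t) t.1 t.2 := le_max_left _ _
      linarith
    calc _ ≤ (xs t.1 t.2 (t3 t) + xs t.2 (t3 t) t.1 + xs (t3 t) t.1 t.2) * Wm (mm t) :=
          mul_le_mul_of_nonneg_right hs hW0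
      _ ≤ (xs t.1 t.2 (t3 t) + xs t.2 (t3 t) t.1 + xs (t3 t) t.1 t.2) * (1 / mm t ^ 2) :=
          mul_le_mul_of_nonneg_left hW hx0
      _ = _ := by ring
  rw [x1] at hle
  -- value
  have j1 : IntegrableOn (fun t : ℝ × ℝ => max (t.1 - 1 / 2) 0 * Wm (mm t)) Sim :=
    ii _ (((continuous_fst.sub continuous_const).sup continuous_const).mul Wm_cont)
  have j2 : IntegrableOn (fun t : ℝ × ℝ => max (t.2 - 1 / 2) 0 * Wm (mm t)) Sim :=
    ii _ (((continuous_snd.sub continuous_const).sup continuous_const).mul Wm_cont)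
  have j3 : IntegrableOn (fun t : ℝ × ℝ => max (t3 t - 1 / 2) 0 * Wm (mm t)) Sim :=
    ii _ (((c3.sub continuous_const).sup continuous_const).mul Wm_cont)
  have j0 : IntegrableOn (fun t : ℝ × ℝ => Wm (mm t)) Sim := ii _ Wm_cont
  have g2 : ∫ t in Sim, max (t.2 - 1 / 2) 0 * Wm (mm t) = 2433457/75694080 := by
    rw [Sim_c2 fun x m => max (x - 1 / 2) 0 * Wm m]
    exact half_W
  have g3 : ∫ t in Sim, max (t3 t - 1 / 2) 0 * Wm (mm t) = 2433457/75694080 := by
    rw [Sim_c3 fun x m => max (x - 1 / 2) 0 * Wm m]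
    exact half_W
  have y1 := integral_add j1 j2
  have y2 := integral_add (j1.add j2) j3
  have y3 := integral_sub (j0.const_mul (1 / 2)) ((j1.add j2).add j3)
  simp only [Pi.add_apply] at y1 y2 y3
  rw [y2, y1, g2, g3, half_W, integral_const_mul, all_W] at y3
  have e : ∀ t : ℝ × ℝ, (1 / 2 - (max (t.1 - 1 / 2) 0 + max (t.2 - 1 / 2) 0
      + max (t3 t - 1 / 2) 0)) * Wm (mm t) = 1 / 2 * Wm (mm t)
        - (max (t.1 - 1 / 2) 0 * Wm (mm t) + max (t.2 - 1 / 2) 0 * Wm (mm t)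
          + max (t3 t - 1 / 2) 0 * Wm (mm t)) := by
    intro t; ring
  simp only [e] at hle
  rw [y3] at hle
  linarith

/-- the three side functions have the same integral -/
theorem side_all : (8977999/25231360 / 3 : ℝ) ≤ ∫ t in Sim, xs t.1 t.2 (t3 t) / mm t ^ 2 ∧
    (8977999/25231360 / 3 : ℝ) ≤ ∫ t in Sim, xs t.2 (t3 t) t.1 / mm t ^ 2 ∧
    (8977999/25231360 / 3 : ℝ) ≤ ∫ t in Sim, xs (t3 t) t.1 t.2 / mm t ^ 2 := by
  have s2 : ∫ t in Sim, xs t.2 (t3 t) t.1 / mm t ^ 2 = ∫ t in Sim, xs t.1 t.2 (t3 t) / mm t ^ 2 := by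
    rw [← Sim_swap fun t => xs t.1 t.2 (t3 t) / mm t ^ 2]
    refine integral_congr_ae (Filter.Eventually.of_forall fun t => ?_)
    simp only [mm_swap]
    rw [xs_comm]
    congr 2
    simp only [t3]
    ring
  have s3 : ∫ t in Sim, xs (t3 t) t.1 t.2 / mm t ^ 2 = ∫ t in Sim, xs t.1 t.2 (t3 t) / mm t ^ 2 := by
    rw [← Sim_sh fun t => xs t.1 t.2 (t3 t) / mm t ^ 2]
    refine integral_congr_ae (Filter.Eventually.of_forall fun t => ?_)
    simp only [mm_sh]
    have e1 : (sh t).1 = t3 t := rfl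
    have e2 : (sh t).2 = t.2 := rfl
    have e3 : t3 (sh t) = t.1 := by simp only [t3, sh]; ring
    rw [e1, e2, e3, xs_comm]
  rw [s2, s3]
  exact ⟨side1, side1, side1⟩

end Pool.Agent.Helper55.Sx
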