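import Pool.Agent.Helper55.MEI.Sx5
import Pool.Agent.Helper55.MEI.Sx6
import Pool.Agent.Helper33.MEI.Red
import Pool.Agent.Helper29.MEI.Tent

/-!
# The simplex integrals in the form of the face reduction (`Dl`, `mt`, `M3`)
-/

namespace Pool.Agent.Helper55.Sx

open Set MeasureTheory Helper33.MEI

theorem line1_null : volume {t : ℝ × ℝ | t.1 = 0} = 0 := by
  have h : {t : ℝ × ℝ | t.1 = 0} = ({0} : Set ℝ) ×ˢ (univ : Set ℝ) := by
    ext t
    simp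
  rw [h, Measure.volume_eq_prod, Measure.prod_prod]
  simp

theorem line2_null : volume {t : ℝ × ℝ | t.2 = 0} = 0 := by
  have h : {t : ℝ × ℝ | t.2 = 0} = (univ : Set ℝ) ×ˢ ({0} : Set ℝ) := by
    ext t
    simp
  rw [h, Measure.volume_eq_prod, Measure.prod_prod]
  simp

theorem line3_null : volume {t : ℝ × ℝ | t.1 + t.2 = 1} = 0 := by
  have h : {t : ℝ × ℝ | t.1 + t.2 = 1} = sh ⁻¹' {t : ℝ × ℝ | t.1 = 0} := by
    ext t
    simp only [mem_ofPred_eq, mem_preimage, sh]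
    constructor
    · intro h
      linarith
    · intro h
      linarith
  have hm : MeasurableSet {t : ℝ × ℝ | t.1 = 0} :=
    (isClosed_eq continuous_fst continuous_const).measurableSet
  rw [h, sh_mp.measure_preimage hm.nullMeasurableSet]
  exact line1_null

theorem Dl_ae : (Dl : Set (ℝ × ℝ)) =ᵐ[volume] Sim := by
  have hsub : Dl ⊆ Sim := by
    rintro t ⟨h1, h2, h3⟩
    exact ⟨h1.le, h2.le, h3.le⟩
  have hnull : volume (Sim \ Dl) = 0 := by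
    have hs : Sim \ Dl ⊆ {t : ℝ × ℝ | t.1 = 0} ∪ ({t : ℝ × ℝ | t.2 = 0}
        ∪ {t : ℝ × ℝ | t.1 + t.2 = 1}) := by
      rintro t ⟨⟨h1, h2, h3⟩, hn⟩
      by_contra hcon
      simp only [mem_union, mem_ofPred_eq, not_or] at hcon
      obtain ⟨n1, n2, n3⟩ := hcon
      exact hn ⟨lt_of_le_of_ne h1 (Ne.symm n1), lt_of_le_of_ne h2 (Ne.symm n2),
        lt_of_le_of_ne h3 n3⟩
    refine measure_mono_null hs ?_
    exact measure_union_null line1_null (measure_union_null line2_null line3_null)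
  refine (ae_eq_set.2 ⟨?_, hnull⟩)
  rw [sdiff_eq_empty.2 hsub]
  exact measure_empty

theorem int_Dl (f : ℝ × ℝ → ℝ) : ∫ t in Dl, f t = ∫ t in Sim, f t :=
  setIntegral_congr_set Dl_ae

theorem mt_mm (t : ℝ × ℝ) : mt t = mm t := by
  simp only [Helper33.MEI.mt, mm, e2, t3]

theorem M3_mm (t : ℝ × ℝ) : M3 t = 1 / (mm t * √(mm t)) := by
  have h0 : 0 < mm t := by have := mm_pos t; linarith
  have hs : 0 < √(mm t) := Real.sqrt_pos.2 h0
  have e : mm t * √(mm t) = √(mm t) ^ 3 := by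
    have := Real.sq_sqrt h0.le
    calc mm t * √(mm t) = √(mm t) ^ 2 * √(mm t) := by rw [this]
      _ = _ := by ring
  rw [M3, mt_mm, inv_pow, e, one_div]

/-- coordinates of the direction on the unit sphere -/
noncomputable def c1 (t : ℝ × ℝ) : ℝ := t.1 / √(mt t)
/-- second coordinate -/
noncomputable def c2 (t : ℝ × ℝ) : ℝ := t.2 / √(mt t)
/-- third coordinate -/
noncomputable def c3 (t : ℝ × ℝ) : ℝ := (1 - t.1 - t.2) / √(mt t)

/-- **strip integral** for every profile `φ ≥ 0` -/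
theorem strip33 {φ : ℝ → ℝ} (hφ : Continuous φ) (h0 : ∀ x, 0 ≤ φ x) :
    (√2)⁻¹ * ∫ t in Dl, φ (c1 t) * M3 t ≤ 0.8551 * ∫ x in (0 : ℝ)..1, φ x ∧
    (√2)⁻¹ * ∫ t in Dl, φ (c2 t) * M3 t ≤ 0.8551 * ∫ x in (0 : ℝ)..1, φ x ∧
    (√2)⁻¹ * ∫ t in Dl, φ (c3 t) * M3 t ≤ 0.8551 * ∫ x in (0 : ℝ)..1, φ x := by
  obtain ⟨h1, h2, h3⟩ := pf_side hφ h0
  refine ⟨?_, ?_, ?_⟩
  · rw [int_Dl, ← one_div]
    refine le_trans (le_of_eq ?_) h1
    congr 2
    funext t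
    rw [M3_mm, c1, pf, mt_mm]
    ring
  · rw [int_Dl, ← one_div]
    refine le_trans (le_of_eq ?_) h2
    congr 2
    funext t
    rw [M3_mm, c2, pf, mt_mm]
    ring
  · rw [int_Dl, ← one_div]
    refine le_trans (le_of_eq ?_) h3
    congr 2
    funext t
    rw [M3_mm, c3, pf, mt_mm]
    simp only [t3]
    ring

/-- degree one functions in the measure of directions -/
theorem deg1 (f : ℝ × ℝ → ℝ) :
    (√2)⁻¹ * ∫ t in Dl, f t / √(mt t) * M3 t = 1 / √2 * ∫ t in Sim, f t / mm t ^ 2 := by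
  rw [int_Dl, ← one_div]
  congr 2
  funext t
  have h0 : 0 < mm t := by have := mm_pos t; linarith
  rw [M3_mm, mt_mm, ← deg_one h0]
  ring

/-- **corner constants** -/
theorem corner33 : (0.2132 : ℝ) ≤ (√2)⁻¹ * ∫ t in Dl, c1 t * M3 t ∧
    (0.2132 : ℝ) ≤ (√2)⁻¹ * ∫ t in Dl, c2 t * M3 t ∧
    (0.2132 : ℝ) ≤ (√2)⁻¹ * ∫ t in Dl, c3 t * M3 t := by
  obtain ⟨h1, h2, h3⟩ := corner_dir
  simp only [c1, c2, c3]
  refine ⟨?_, ?_, ?_⟩
  · rw [deg1 fun t => t.1]; exact h1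
  · rw [deg1 fun t => t.2]; exact h2
  · rw [deg1 fun t => 1 - t.1 - t.2]; exact h3

/-- **side constants**: the three side functions, `xs` of the three coordinates -/
theorem side33 : (0.0838 : ℝ) ≤ (√2)⁻¹ * ∫ t in Dl, xs t.1 t.2 (1 - t.1 - t.2) / √(mt t) * M3 t ∧
    (0.0838 : ℝ) ≤ (√2)⁻¹ * ∫ t in Dl, xs t.2 (1 - t.1 - t.2) t.1 / √(mt t) * M3 t ∧
    (0.0838 : ℝ) ≤ (√2)⁻¹ * ∫ t in Dl, xs (1 - t.1 - t.2) t.1 t.2 / √(mt t) * M3 t := by
  obtain ⟨h1, h2, h3⟩ := side_all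
  have hc : (0.0838 : ℝ) ≤ 1 / √2 * ((8977999 / 25231360 : ℝ) / 3 : ℝ) := by
    have h : √2 ≤ (1.41422 : ℝ) := by
      rw [show (1.41422 : ℝ) = √(1.41422 ^ 2) from (Real.sqrt_sq (by norm_num)).symm]
      exact Real.sqrt_le_sqrt (by norm_num)
    rw [one_div, ← div_eq_inv_mul, le_div_iff₀ (by positivity)]
    nlinarith
  have hs : (0 : ℝ) ≤ 1 / √2 := by positivity
  refine ⟨?_, ?_, ?_⟩
  · rw [deg1 fun t => xs t.1 t.2 (1 - t.1 - t.2)]
    exact hc.trans (mul_le_mul_of_nonneg_left h1 hs)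
  · rw [deg1 fun t => xs t.2 (1 - t.1 - t.2) t.1]
    exact hc.trans (mul_le_mul_of_nonneg_left h2 hs)
  · rw [deg1 fun t => xs (1 - t.1 - t.2) t.1 t.2]
    exact hc.trans (mul_le_mul_of_nonneg_left h3 hs)

end Pool.Agent.Helper55.Sx
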