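import Pool.Agent.Helper55.MEI.Fill

/-!
# The masses of the exact filling and the value of the face certificate
-/

namespace Pool.Agent.Helper55.Fill

open Set MeasureTheory Pool.Agent.Helper55.Sx Pool.Agent.Helper55.Mass Pool.Agent.Helper55.Apex

variable {N : Fin 3 → Fin 3 → ℝ}

/-- the wall constant of the coordinate `j` -/
def wc (N : Fin 3 → Fin 3 → ℝ) (j l k : Fin 3) : ℝ :=
  0.1673 * (N l j + N k j) + 0.0933 * (N l k + N k l)

/-- mass of a function above the linear function up to the wall terms -/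
theorem mass_gen (hN : ∀ k m, 0 ≤ N k m) (hd : ∀ k, N k k = 0) {j l k : Fin 3} (hjl : j ≠ l)
    (hjk : j ≠ k) (hlk : l ≠ k) {g : ℝ × ℝ → ℝ} (hg : IntegrableOn (fun t => g t / mm t ^ 2) Sim)
    (h : ∀ t ∈ Sim, vv t j - LN N (vv t) j - (1 - thl N (vv t) l) * vv t j
      - (1 - thl N (vv t) k) * vv t j ≤ g t) :
    B0 * (1 - N j l - N j k) - wc N j l k ≤ Pool.Agent.Helper55.Mass.Id g := by
  have i0 := vv_int 0
  have i1 := vv_int 1
  have i2 := vv_int 2
  have ij := vv_int j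
  have wl := wl_int hN l j
  have wk := wl_int hN k j
  have iL : IntegrableOn (fun t => LN N (vv t) j / mm t ^ 2) Sim := by
    have hi : IntegrableOn (fun t => N j 0 * (vv t 0 / mm t ^ 2) + N j 1 * (vv t 1 / mm t ^ 2)
        + N j 2 * (vv t 2 / mm t ^ 2)) Sim :=
      ((i0.const_mul (N j 0)).add (i1.const_mul (N j 1))).add (i2.const_mul (N j 2))
    refine IntegrableOn.congr_fun hi (fun t _ => ?_) Sim_meas
    simp only [LN]
    ring
  have hLint : 1 / √2 * ∫ t in Sim, LN N (vv t) j / mm t ^ 2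
      = B0 * (N j 0 + N j 1 + N j 2) := by
    have e : ∀ t : ℝ × ℝ, LN N (vv t) j / mm t ^ 2 = N j 0 * (vv t 0 / mm t ^ 2)
        + N j 1 * (vv t 1 / mm t ^ 2) + N j 2 * (vv t 2 / mm t ^ 2) := by
      intro t; simp only [LN]; ring
    simp only [e]
    have x1 := integral_add ((i0.const_mul (N j 0)).add (i1.const_mul (N j 1)))
      (i2.const_mul (N j 2))
    have x2 := integral_add (i0.const_mul (N j 0)) (i1.const_mul (N j 1))
    simp only [Pi.add_apply] at x1
    rw [x2, integral_const_mul, integral_const_mul, integral_const_mul] at x1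
    rw [x1, mul_add, mul_add]
    have b0 := B0_eq 0
    have b1 := B0_eq 1
    have b2 := B0_eq 2
    linear_combination (N j 0) * b0 + (N j 1) * b1 + (N j 2) * b2
  have hsum : N j 0 + N j 1 + N j 2 = N j l + N j k := by
    have hjj := hd j
    fin_cases j <;> fin_cases l <;> fin_cases k <;> simp only [Fin.zero_eta, Fin.mk_one,
      Fin.reduceFinMk, ne_eq, not_true_eq_false] at hjl hjk hlk hjj ⊢ <;> linarith
  have hle : ∫ t in Sim, (vv t j / mm t ^ 2 - LN N (vv t) j / mm t ^ 2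
      - (1 - thl N (vv t) l) * vv t j / mm t ^ 2 - (1 - thl N (vv t) k) * vv t j / mm t ^ 2)
      ≤ ∫ t in Sim, g t / mm t ^ 2 := by
    refine setIntegral_mono_on (((ij.sub iL).sub wl).sub wk) hg Sim_meas
      fun t ht => ?_
    have hm : 0 ≤ mm t ^ 2 := by positivity
    have h2 := div_le_div_of_nonneg_right (h t ht) hm
    refine le_trans (le_of_eq ?_) h2
    ring
  have y1 := integral_sub ((ij.sub iL).sub wl) wk
  have y2 := integral_sub (ij.sub iL) wl
  have y3 := integral_sub ij iL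
  simp only [Pi.sub_apply] at y1 y2
  rw [y1, y2, y3] at hle
  have h0 : (0 : ℝ) ≤ 1 / √2 := by positivity
  have h1 := mul_le_mul_of_nonneg_left hle h0
  have hwl := wl_le hN hd (Ne.symm hjl) hlk hjk
  have hwk := wl_le hN hd (Ne.symm hjk) (Ne.symm hlk) hjl
  have hb := B0_eq j
  rw [mul_sub, mul_sub, mul_sub, hb, hLint, hsum] at h1
  unfold wc Pool.Agent.Helper55.Mass.Id
  nlinarith

/-- mass of a function below the wall terms -/
theorem res_gen (hN : ∀ k m, 0 ≤ N k m) (hd : ∀ k, N k k = 0) {j l k : Fin 3} (hjl : j ≠ l)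
    (hjk : j ≠ k) (hlk : l ≠ k) {g : ℝ × ℝ → ℝ} (hg : IntegrableOn (fun t => g t / mm t ^ 2) Sim)
    (h : ∀ t ∈ Sim, g t ≤ (1 - thl N (vv t) l) * vv t j + (1 - thl N (vv t) k) * vv t j) :
    Pool.Agent.Helper55.Mass.Id g ≤ wc N j l k := by
  have wl := wl_int hN l j
  have wk := wl_int hN k j
  have hle : ∫ t in Sim, g t / mm t ^ 2 ≤ ∫ t in Sim, ((1 - thl N (vv t) l) * vv t j / mm t ^ 2
      + (1 - thl N (vv t) k) * vv t j / mm t ^ 2) := by
    refine setIntegral_mono_on hg (wl.add wk) Sim_meas fun t ht => ?_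
    have hm : 0 ≤ mm t ^ 2 := by positivity
    have h2 := div_le_div_of_nonneg_right (h t ht) hm
    refine le_trans h2 (le_of_eq ?_)
    ring
  have y1 := integral_add wl wk
  rw [y1] at hle
  have h0 : (0 : ℝ) ≤ 1 / √2 := by positivity
  have h1 := mul_le_mul_of_nonneg_left hle h0
  have hwl := wl_le hN hd (Ne.symm hjl) hlk hjk
  have hwk := wl_le hN hd (Ne.symm hjk) (Ne.symm hlk) hjl
  rw [mul_add] at h1
  unfold wc Pool.Agent.Helper55.Mass.Id
  linarith

section
variable (hN : ∀ k m, 0 ≤ N k m) (hd : ∀ k, N k k = 0) {c : ℝ} (hc : c < 1)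
  (hcol : ∀ m, nc N m ≤ c)
include hN hd hc hcol

/-- **mass of the load on the node `j`** -/
theorem xx_mass {j l k : Fin 3} (hjl : j ≠ l) (hjk : j ≠ k) (hlk : l ≠ k) :
    B0 * (1 - N j l - N j k) - wc N j l k
      ≤ Pool.Agent.Helper55.Mass.Id fun t => xx N (vv t) j :=
  mass_gen hN hd hjl hjk hlk (xx_int hN hc hcol j) fun _ ht =>
    xx_low hN hc hcol (fun k => vv_nonneg ht k) hjl hjk hlk

/-- **mass of the residual** -/
theorem rr_mass {j l k : Fin 3} (hjl : j ≠ l) (hjk : j ≠ k) (hlk : l ≠ k) :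
    Pool.Agent.Helper55.Mass.Id (fun t => rr N (vv t) j) ≤ wc N j l k :=
  res_gen hN hd hjl hjk hlk (rr_int hN hc hcol j) fun _ ht =>
    rr_le hN hc hcol (fun k => vv_nonneg ht k) hjl hjk hlk

end

/-! ### extra loads -/

/-- the loads on the contact points beside the extra loads `al m` with contact coordinates
`ζ m` -/
noncomputable def xe {ι : Type*} [Fintype ι] (N : Fin 3 → Fin 3 → ℝ) (al : ι → ℝ × ℝ → ℝ)
    (ζ : ι → Fin 3 → ℝ) (t : ℝ × ℝ) (j : Fin 3) : ℝ := xx N (vv t) j - ∑ m, al m t * ζ m j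

/-- **the balance**: the residual does not change -/
theorem xe_bal {ι : Type*} [Fintype ι] (al : ι → ℝ × ℝ → ℝ) (ζ : ι → Fin 3 → ℝ) (t : ℝ × ℝ)
    (k : Fin 3) :
    xe N al ζ t k + LN N (xe N al ζ t) k + ∑ m, al m t * (ζ m k + LN N (ζ m) k)
      + rr N (vv t) k = vv t k := by
  have e : LN N (xe N al ζ t) k = LN N (xx N (vv t)) k - ∑ m, al m t * LN N (ζ m) k := by
    simp only [LN, xe, mul_sub, Finset.mul_sum, mul_add, Finset.sum_add_distrib]
    have f : ∀ i, ∑ m, N k i * (al m t * ζ m i) = ∑ m, al m t * (N k i * ζ m i) := fun i =>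
      Finset.sum_congr rfl fun m _ => by ring
    rw [f, f, f]
    ring
  have e2 : ∑ m, al m t * (ζ m k + LN N (ζ m) k)
      = ∑ m, al m t * ζ m k + ∑ m, al m t * LN N (ζ m) k := by
    rw [← Finset.sum_add_distrib]
    exact Finset.sum_congr rfl fun m _ => by ring
  rw [e, e2, xe, rr]
  ring

/-- **value of the certificate**: `L m` = value of the extra node `m`, `R j` = value of the contact
point `j`, `S k` = cap of the corner `k` -/
theorem value {ι : Type*} [Fintype ι] (hN : ∀ k m, 0 ≤ N k m) (hd : ∀ k, N k k = 0) {c : ℝ}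
    (hc : c < 1) (hcol : ∀ m, nc N m ≤ c) {al : ι → ℝ × ℝ → ℝ}
    (hal : ∀ m, IntegrableOn (fun t => al m t / mm t ^ 2) Sim) {ζ : ι → Fin 3 → ℝ} {L : ι → ℝ}
    {R S : Fin 3 → ℝ} (hR : ∀ k, 0 ≤ R k) (hS : ∀ k, 0 ≤ S k) :
    ∑ m, (L m - (ζ m 0 * R 0 + ζ m 1 * R 1 + ζ m 2 * R 2)) * Pool.Agent.Helper55.Mass.Id (al m)
      + ((B0 * (1 - N 0 1 - N 0 2) - wc N 0 1 2) * R 0
        + (B0 * (1 - N 1 0 - N 1 2) - wc N 1 0 2) * R 1
        + (B0 * (1 - N 2 0 - N 2 1) - wc N 2 0 1) * R 2)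
      - (wc N 0 1 2 * S 0 + wc N 1 0 2 * S 1 + wc N 2 0 1 * S 2)
      ≤ Pool.Agent.Helper55.Mass.Id fun t => ∑ m, al m t * L m
        + (xe N al ζ t 0 * R 0 + xe N al ζ t 1 * R 1 + xe N al ζ t 2 * R 2)
        - (rr N (vv t) 0 * S 0 + rr N (vv t) 1 * S 1 + rr N (vv t) 2 * S 2) := by
  have x0 := xx_int hN hc hcol (0 : Fin 3)
  have x1 := xx_int hN hc hcol (1 : Fin 3)
  have x2 := xx_int hN hc hcol (2 : Fin 3)
  have r0 := rr_int hN hc hcol (0 : Fin 3)
  have r1 := rr_int hN hc hcol (1 : Fin 3)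
  have r2 := rr_int hN hc hcol (2 : Fin 3)
  have m0 := xx_mass hN hd hc hcol (j := 0) (l := 1) (k := 2) (by decide) (by decide) (by decide)
  have m1 := xx_mass hN hd hc hcol (j := 1) (l := 0) (k := 2) (by decide) (by decide) (by decide)
  have m2 := xx_mass hN hd hc hcol (j := 2) (l := 0) (k := 1) (by decide) (by decide) (by decide)
  have n0 := rr_mass hN hd hc hcol (j := 0) (l := 1) (k := 2) (by decide) (by decide) (by decide)
  have n1 := rr_mass hN hd hc hcol (j := 1) (l := 0) (k := 2) (by decide) (by decide) (by decide)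
  have n2 := rr_mass hN hd hc hcol (j := 2) (l := 0) (k := 1) (by decide) (by decide) (by decide)
  set lm : ι → ℝ := fun m => L m - (ζ m 0 * R 0 + ζ m 1 * R 1 + ζ m 2 * R 2) with hlm
  -- the integral is linear
  have hE : ∀ t : ℝ × ℝ, (∑ m, al m t * L m
        + (xe N al ζ t 0 * R 0 + xe N al ζ t 1 * R 1 + xe N al ζ t 2 * R 2)
        - (rr N (vv t) 0 * S 0 + rr N (vv t) 1 * S 1 + rr N (vv t) 2 * S 2)) / mm t ^ 2
      = (∑ m, lm m * (al m t / mm t ^ 2))
        + (R 0 * (xx N (vv t) 0 / mm t ^ 2) + R 1 * (xx N (vv t) 1 / mm t ^ 2)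
          + R 2 * (xx N (vv t) 2 / mm t ^ 2))
        - (S 0 * (rr N (vv t) 0 / mm t ^ 2) + S 1 * (rr N (vv t) 1 / mm t ^ 2)
          + S 2 * (rr N (vv t) 2 / mm t ^ 2)) := by
    intro t
    have e1 : ∑ m, lm m * (al m t / mm t ^ 2) = (∑ m, al m t * L m
        - ((∑ m, al m t * ζ m 0) * R 0 + (∑ m, al m t * ζ m 1) * R 1
          + (∑ m, al m t * ζ m 2) * R 2)) / mm t ^ 2 := by
      rw [Finset.sum_mul, Finset.sum_mul, Finset.sum_mul, ← Finset.sum_add_distrib,
        ← Finset.sum_add_distrib, ← Finset.sum_sub_distrib, Finset.sum_div]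
      refine Finset.sum_congr rfl fun m _ => ?_
      rw [hlm]
      ring
    rw [e1]
    simp only [xe]
    ring
  have iA : IntegrableOn (fun t => ∑ m, lm m * (al m t / mm t ^ 2)) Sim :=
    integrable_finsetSum _ fun m _ => (hal m).const_mul _
  have iR : IntegrableOn (fun t => R 0 * (xx N (vv t) 0 / mm t ^ 2)
      + R 1 * (xx N (vv t) 1 / mm t ^ 2) + R 2 * (xx N (vv t) 2 / mm t ^ 2)) Sim :=
    ((x0.const_mul _).add (x1.const_mul _)).add (x2.const_mul _)
  have iS : IntegrableOn (fun t => S 0 * (rr N (vv t) 0 / mm t ^ 2)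
      + S 1 * (rr N (vv t) 1 / mm t ^ 2) + S 2 * (rr N (vv t) 2 / mm t ^ 2)) Sim :=
    ((r0.const_mul _).add (r1.const_mul _)).add (r2.const_mul _)
  have hI : Pool.Agent.Helper55.Mass.Id (fun t => ∑ m, al m t * L m
        + (xe N al ζ t 0 * R 0 + xe N al ζ t 1 * R 1 + xe N al ζ t 2 * R 2)
        - (rr N (vv t) 0 * S 0 + rr N (vv t) 1 * S 1 + rr N (vv t) 2 * S 2))
      = ∑ m, lm m * Pool.Agent.Helper55.Mass.Id (al m)
        + (R 0 * Pool.Agent.Helper55.Mass.Id (fun t => xx N (vv t) 0)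
          + R 1 * Pool.Agent.Helper55.Mass.Id (fun t => xx N (vv t) 1)
          + R 2 * Pool.Agent.Helper55.Mass.Id (fun t => xx N (vv t) 2))
        - (S 0 * Pool.Agent.Helper55.Mass.Id (fun t => rr N (vv t) 0)
          + S 1 * Pool.Agent.Helper55.Mass.Id (fun t => rr N (vv t) 1)
          + S 2 * Pool.Agent.Helper55.Mass.Id (fun t => rr N (vv t) 2)) := by
    unfold Pool.Agent.Helper55.Mass.Id
    simp only [hE]
    have k1 := integral_sub (iA.add iR) iS
    have k2 := integral_add iA iR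
    have k3 := integral_add ((x0.const_mul (R 0)).add (x1.const_mul (R 1))) (x2.const_mul (R 2))
    have k4 := integral_add (x0.const_mul (R 0)) (x1.const_mul (R 1))
    have k5 := integral_add ((r0.const_mul (S 0)).add (r1.const_mul (S 1))) (r2.const_mul (S 2))
    have k6 := integral_add (r0.const_mul (S 0)) (r1.const_mul (S 1))
    have k7 : ∫ t in Sim, ∑ m, lm m * (al m t / mm t ^ 2)
        = ∑ m, lm m * ∫ t in Sim, al m t / mm t ^ 2 := by
      rw [integral_finsetSum _ fun m _ => (hal m).const_mul _]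
      exact Finset.sum_congr rfl fun m _ => integral_const_mul _ _
    simp only [Pi.add_apply] at k1 k3 k5
    rw [k1, k2, k3, k4, k5, k6, k7]
    simp only [integral_const_mul]
    have k8 : ∑ m, lm m * (1 / √2 * ∫ t in Sim, al m t / mm t ^ 2)
        = 1 / √2 * ∑ m, lm m * ∫ t in Sim, al m t / mm t ^ 2 := by
      rw [Finset.mul_sum]
      exact Finset.sum_congr rfl fun m _ => by ring
    rw [k8]
    ring
  rw [hI]
  have p0 := mul_le_mul_of_nonneg_left m0 (hR 0)
  have p1 := mul_le_mul_of_nonneg_left m1 (hR 1)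
  have p2 := mul_le_mul_of_nonneg_left m2 (hR 2)
  have q0 := mul_le_mul_of_nonneg_left n0 (hS 0)
  have q1 := mul_le_mul_of_nonneg_left n1 (hS 1)
  have q2 := mul_le_mul_of_nonneg_left n2 (hS 2)
  linarith

end Pool.Agent.Helper55.Fill
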