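import Pool.Agent.Helper55.MEI.Apex
import Pool.Agent.Helper55.MEI.Fill2

/-!
# The mass of the apex in the coordinates of the contact points
-/

namespace Pool.Agent.Helper55.ApexP

open Set MeasureTheory Matrix Pool.Agent.Helper55.Sx Pool.Agent.Helper55.Mass
open Pool.Agent.Helper55.Apex Pool.Agent.Helper55.Fill
open Helper75.MEI2 (vt Qf mu TC nn dd cc)
open Helper29.MEI (tent TD)

variable {N : Fin 3 → Fin 3 → ℝ}

/-- the matrix of the normalised contact points -/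
def PN (N : Fin 3 → Fin 3 → ℝ) : Matrix (Fin 3) (Fin 3) ℝ := 1 + Matrix.of N

theorem PN_mul (b : Fin 3 → ℝ) (k : Fin 3) : (PN N *ᵥ b) k = b k + LN N b k := by
  unfold PN
  rw [Matrix.add_mulVec, Matrix.one_mulVec, Pi.add_apply]
  simp only [Matrix.mulVec, dotProduct, Fin.sum_univ_three, LN, Matrix.of_apply]

theorem PN_nonneg (hN : ∀ k m, 0 ≤ N k m) (i j : Fin 3) : 0 ≤ PN N i j := by
  unfold PN
  rw [Matrix.add_apply, Matrix.of_apply, Matrix.one_apply]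
  have := hN i j
  split_ifs <;> linarith

theorem PN_apply (hd : ∀ k, N k k = 0) : PN N 0 0 = 1 ∧ PN N 1 1 = 1 ∧ PN N 2 2 = 1 ∧
    PN N 0 1 = N 0 1 ∧ PN N 0 2 = N 0 2 ∧ PN N 1 0 = N 1 0 ∧ PN N 1 2 = N 1 2 ∧
    PN N 2 0 = N 2 0 ∧ PN N 2 1 = N 2 1 := by
  have h0 := hd 0
  have h1 := hd 1
  have h2 := hd 2
  simp [PN, h0, h1, h2]

theorem PN_det (hd : ∀ k, N k k = 0) : (PN N).det = 1 - N 0 1 * N 1 0 - N 0 2 * N 2 0
    - N 1 2 * N 2 1 + N 0 1 * N 1 2 * N 2 0 + N 0 2 * N 1 0 * N 2 1 := by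
  obtain ⟨p00, p11, p22, p01, p02, p10, p12, p20, p21⟩ := PN_apply hd
  rw [Matrix.det_fin_three, p00, p11, p22, p01, p02, p10, p12, p20, p21]
  ring

theorem pair_le {a b d e f g c : ℝ} (ha : 0 ≤ a) (hb : 0 ≤ b) (hd : 0 ≤ d) (he : 0 ≤ e)
    (hf : 0 ≤ f) (hg : 0 ≤ g) (h1 : a + b ≤ c) (h2 : d + e ≤ c) (h3 : f + g ≤ c) :
    d * a + f * b + g * e ≤ c ^ 2 := by
  rcases le_total g a with h | h
  · have k1 : g * e ≤ a * e := mul_le_mul_of_nonneg_right h he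
    have k2 : (d + e) * a ≤ c * a := mul_le_mul_of_nonneg_right h2 ha
    have k3 : f * b ≤ c * b := mul_le_mul_of_nonneg_right (by linarith) hb
    have k4 : c * (a + b) ≤ c * c := mul_le_mul_of_nonneg_left h1 (by linarith)
    nlinarith
  · have k1 : d * a ≤ d * g := mul_le_mul_of_nonneg_left h hd
    have k2 : (d + e) * g ≤ c * g := mul_le_mul_of_nonneg_right h2 hg
    have k3 : f * b ≤ f * c := mul_le_mul_of_nonneg_left (by linarith) hf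
    have k4 : c * (f + g) ≤ c * c := mul_le_mul_of_nonneg_left h3 (by linarith)
    nlinarith

theorem PN_det_pos (hN : ∀ k m, 0 ≤ N k m) (hd : ∀ k, N k k = 0) {c : ℝ} (hc : c < 1)
    (hcol : ∀ m, nc N m ≤ c) : 0 < (PN N).det := by
  have h0 := hcol 0
  have h1 := hcol 1
  have h2 := hcol 2
  simp only [nc, hd] at h0 h1 h2
  have hp := pair_le (c := c) (hN 1 0) (hN 2 0) (hN 0 1) (hN 2 1) (hN 0 2) (hN 1 2)
    (by linarith) (by linarith) (by linarith)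
  have hc0 : 0 ≤ c := by linarith [hN 1 0, hN 2 0]
  have p1 := mul_nonneg (mul_nonneg (hN 0 1) (hN 1 2)) (hN 2 0)
  have p2 := mul_nonneg (mul_nonneg (hN 0 2) (hN 1 0)) (hN 2 1)
  rw [PN_det hd]
  nlinarith

/-- explicit bound of the mean of the quadratic form -/
noncomputable def cbP (N : Fin 3 → Fin 3 → ℝ) (A : Fin 3 → ℝ) : ℝ :=
  1 / 4 - (A 0 * A 1 + A 0 * A 2 + A 1 * A 2) / 30
    + ((1 + A 0) * (nc N 0 + nc N 0 ^ 2 - N 1 0 * N 2 0)
      + (1 + A 1) * (nc N 1 + nc N 1 ^ 2 - N 0 1 * N 2 1)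
      + (1 + A 2) * (nc N 2 + nc N 2 ^ 2 - N 0 2 * N 1 2)) / 12
    + ((N 0 1 + N 1 0) * (1 + A 0 + A 1 + 2 * A 0 * A 1)
      + (N 0 2 + N 2 0) * (1 + A 0 + A 2 + 2 * A 0 * A 2)
      + (N 1 2 + N 2 1) * (1 + A 1 + A 2 + 2 * A 1 * A 2)) / 60

theorem nn_PN (hd : ∀ k, N k k = 0) :
    nn (PN N) 0 = 1 + nc N 0 + nc N 0 ^ 2 - N 1 0 * N 2 0 ∧
    nn (PN N) 1 = 1 + nc N 1 + nc N 1 ^ 2 - N 0 1 * N 2 1 ∧
    nn (PN N) 2 = 1 + nc N 2 + nc N 2 ^ 2 - N 0 2 * N 1 2 := by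
  obtain ⟨p00, p11, p22, p01, p02, p10, p12, p20, p21⟩ := PN_apply hd
  simp only [nn, Helper75.MEI2.col, Qf, nc, hd, p00, p11, p22, p01, p02, p10, p12, p20, p21]
  refine ⟨?_, ?_, ?_⟩ <;> ring

theorem dd_PN (hd : ∀ k, N k k = 0) : 1 - (N 0 1 + N 1 0) ≤ dd (PN N) 0 1 ∧
    1 - (N 0 2 + N 2 0) ≤ dd (PN N) 0 2 ∧ 1 - (N 1 2 + N 2 1) ≤ dd (PN N) 1 2 := by
  obtain ⟨p00, p11, p22, p01, p02, p10, p12, p20, p21⟩ := PN_apply hd
  simp only [dd, Qf, p00, p11, p22, p01, p02, p10, p12, p20, p21]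
  refine ⟨?_, ?_, ?_⟩
  · have g := ddA (p := 1 - N 0 1) (q := 1 - N 1 0) (r := N 2 0 - N 2 1)
      (s := N 0 1 + N 1 0) (by linarith)
    refine g.trans (le_of_eq ?_)
    ring
  · have g := ddA (p := 1 - N 0 2) (q := 1 - N 2 0) (r := N 1 0 - N 1 2)
      (s := N 0 2 + N 2 0) (by linarith)
    refine g.trans (le_of_eq ?_)
    ring
  · have g := ddA (p := 1 - N 1 2) (q := 1 - N 2 1) (r := N 0 1 - N 0 2)
      (s := N 1 2 + N 2 1) (by linarith)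
    refine g.trans (le_of_eq ?_)
    ring

theorem ccP_le (hd : ∀ k, N k k = 0) {A : Fin 3 → ℝ} (hA : ∀ k, 0 ≤ A k)
    (hs : A 0 + A 1 + A 2 = 1) : cc (PN N) (A 0) (A 1) (A 2) ≤ cbP N A := by
  obtain ⟨n0, n1, n2⟩ := nn_PN hd
  obtain ⟨d01, d02, d12⟩ := dd_PN hd
  have A0 := hA 0
  have A1 := hA 1
  have A2 := hA 2
  have p01 := mul_nonneg A0 A1
  have p02 := mul_nonneg A0 A2
  have p12 := mul_nonneg A1 A2
  have g01 := mul_le_mul_of_nonneg_right d01 (show 0 ≤ 1 + A 0 + A 1 + 2 * A 0 * A 1 by nlinarith)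
  have g02 := mul_le_mul_of_nonneg_right d02 (show 0 ≤ 1 + A 0 + A 2 + 2 * A 0 * A 2 by nlinarith)
  have g12 := mul_le_mul_of_nonneg_right d12 (show 0 ≤ 1 + A 1 + A 2 + 2 * A 1 * A 2 by nlinarith)
  unfold cc cbP
  rw [n0, n1, n2]
  have e1 : (1 + A 0) + (1 + A 1) + (1 + A 2) = 4 := by linarith
  have e2 : (1 + A 0 + A 1 + 2 * A 0 * A 1) + (1 + A 0 + A 2 + 2 * A 0 * A 2)
      + (1 + A 1 + A 2 + 2 * A 1 * A 2) = 5 + 2 * (A 0 * A 1 + A 0 * A 2 + A 1 * A 2) := by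
    linear_combination 2 * hs
  nlinarith

/-- the load on the apex: `ζ` dominates the contact coordinates of the apex -/
noncomputable def alP (N : Fin 3 → Fin 3 → ℝ) (ζ : Fin 3 → ℝ) (t : ℝ × ℝ) : ℝ :=
  if ∀ k, 0 ≤ mu (PN N) (vt t) k then
    min (mu (PN N) (vt t) 0 / ζ 0) (min (mu (PN N) (vt t) 1 / ζ 1)
      (mu (PN N) (vt t) 2 / ζ 2)) else 0

theorem alP_nonneg {ζ : Fin 3 → ℝ} (hζ : ∀ k, 0 < ζ k) (t : ℝ × ℝ) : 0 ≤ alP N ζ t := by
  unfold alP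
  split_ifs with h
  · exact le_min (div_nonneg (h 0) (hζ 0).le)
      (le_min (div_nonneg (h 1) (hζ 1).le) (div_nonneg (h 2) (hζ 2).le))
  · exact le_rfl

theorem alP_zeta {ζ : Fin 3 → ℝ} (hζ : ∀ k, 0 < ζ k) {t : ℝ × ℝ}
    (h : ∀ k, 0 ≤ mu (PN N) (vt t) k) (k : Fin 3) :
    alP N ζ t * ζ k ≤ mu (PN N) (vt t) k := by
  have hk : alP N ζ t ≤ mu (PN N) (vt t) k / ζ k := by
    unfold alP
    rw [if_pos h]
    fin_cases k
    · exact min_le_left _ _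
    · exact (min_le_right _ _).trans (min_le_left _ _)
    · exact (min_le_right _ _).trans (min_le_right _ _)
  exact (le_div_iff₀ (hζ k)).1 hk

theorem mu_meas (k : Fin 3) : Measurable fun t : ℝ × ℝ => mu (PN N) (vt t) k := by
  have h : Continuous fun t : ℝ × ℝ => mu (PN N) (vt t) k :=
    (continuous_apply k).comp ((Helper75.MEI2.mu_cont _).comp Helper75.MEI2.vt_cont)
  exact h.measurable

theorem alP_meas {ζ : Fin 3 → ℝ} : Measurable (alP N ζ) := by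
  unfold alP
  have hs : MeasurableSet {t : ℝ × ℝ | ∀ k, 0 ≤ mu (PN N) (vt t) k} := by
    have : {t : ℝ × ℝ | ∀ k, 0 ≤ mu (PN N) (vt t) k}
        = ⋂ k, {t : ℝ × ℝ | 0 ≤ mu (PN N) (vt t) k} := by
      ext t
      simp
    rw [this]
    exact MeasurableSet.iInter fun k => measurableSet_le measurable_const (mu_meas k)
  exact Measurable.ite hs (((mu_meas 0).div_const _).min (((mu_meas 1).div_const _).min
    ((mu_meas 2).div_const _))) measurable_const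

section
variable (hN : ∀ k m, 0 ≤ N k m) (hd : ∀ k, N k k = 0) {c : ℝ} (hc : c < 1)
  (hcol : ∀ m, nc N m ≤ c)
include hN hd hc hcol

theorem mu_bal (b : Fin 3 → ℝ) (k : Fin 3) :
    mu (PN N) b k + LN N (mu (PN N) b) k = b k := by
  rw [← PN_mul, Helper75.MEI2.mul_mu (PN_det_pos hN hd hc hcol)]

/-- the loads in the cone of the contact points -/
theorem xx_mu {b : Fin 3 → ℝ} (h : ∀ k, 0 ≤ mu (PN N) b k) : xx N b = mu (PN N) b :=
  xx_cone hN hc hcol h (mu_bal hN hd hc hcol b)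

/-- the apex load respects the loads of the contact points -/
theorem alP_le {ζ ζ' : Fin 3 → ℝ} (hζ : ∀ k, 0 < ζ k) (h' : ∀ k, ζ' k ≤ ζ k) {t : ℝ × ℝ}
    (ht : t ∈ Sim) (k : Fin 3) : alP N ζ t * ζ' k ≤ xx N (vv t) k := by
  by_cases h : ∀ k, 0 ≤ mu (PN N) (vt t) k
  · have h1 := alP_zeta hζ h k
    have h2 : xx N (vv t) k = mu (PN N) (vt t) k := by
      rw [← vt_vv, xx_mu hN hd hc hcol h]
    rw [h2]
    exact (mul_le_mul_of_nonneg_left (h' k) (alP_nonneg hζ t)).trans h1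
  · have h1 : alP N ζ t = 0 := by
      unfold alP
      rw [if_neg h]
    rw [h1, zero_mul]
    exact xx_nonneg hN hc hcol (fun k => vv_nonneg ht k) k

theorem alP_bound {ζ : Fin 3 → ℝ} (hζ : ∀ k, 0 < ζ k) {t : ℝ × ℝ} (ht : t ∈ Sim) :
    alP N ζ t ≤ 1 / ζ 0 := by
  rw [le_div_iff₀ (hζ 0)]
  have h1 := alP_le hN hd hc hcol hζ (ζ' := ζ) (fun k => le_rfl) ht 0
  have h2 := xx_le hN hc hcol (fun k => vv_nonneg ht k) 0
  have h3 := vv_le ht 0
  linarith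

theorem alP_int {ζ : Fin 3 → ℝ} (hζ : ∀ k, 0 < ζ k) :
    IntegrableOn (fun t => alP N ζ t / mm t ^ 2) Sim :=
  intOn (C := 1 / ζ 0) alP_meas fun t ht => by
    rw [abs_of_nonneg (alP_nonneg hζ t)]
    exact alP_bound hN hd hc hcol hζ ht

omit hN hd hc hcol in
theorem alP_Sim (ζ : Fin 3 → ℝ) : ∫ t in Sim, alP N ζ t / mm t ^ 2
    = ∫ t in TC (PN N), min (mu (PN N) (vt t) 0 / ζ 0) (min (mu (PN N) (vt t) 1 / ζ 1)
      (mu (PN N) (vt t) 2 / ζ 2)) / Qf (vt t) ^ 2 := by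
  have hsub : TC (PN N) ⊆ Sim := fun t ht => mem_Sim_vv.1 ht.1
  have e1 : ∫ t in Sim, alP N ζ t / mm t ^ 2 = ∫ t in TC (PN N), alP N ζ t / mm t ^ 2 := by
    refine setIntegral_eq_of_subset_of_forall_sdiff_eq_zero Sim_meas hsub fun t ht => ?_
    have h : ¬ ∀ k, 0 ≤ mu (PN N) (vt t) k := by
      intro h
      exact ht.2 ⟨mem_Sim_vv.2 ht.1, h⟩
    unfold alP
    rw [if_neg h, zero_div]
  rw [e1]
  refine setIntegral_congr_fun (Helper75.MEI2.TC_meas _) fun t ht => ?_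
  simp only [Qf_vv]
  unfold alP
  rw [if_pos ht.2]

omit hd hc hcol in
theorem ccP_ge {A : Fin 3 → ℝ} (hA : ∀ k, 0 < A k) (hs : A 0 + A 1 + A 2 = 1) :
    2 / 9 ≤ cc (PN N) (A 0) (A 1) (A 2) := by
  have h1 : ∫ t in TD, tent (A 0) (A 1) (A 2) t.1 t.2 = 1 / 6 := by
    have h := Helper75.MEI2.tent_qp (hA 0) (hA 1) (hA 2) hs 1 0 0 0 0 0
    have e : (fun t : ℝ × ℝ => tent (A 0) (A 1) (A 2) t.1 t.2
        * Helper75.MEI2.qp 1 0 0 0 0 0 t.1 t.2) =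
        fun t => tent (A 0) (A 1) (A 2) t.1 t.2 := by
      funext t
      unfold Helper75.MEI2.qp
      ring
    rw [e] at h
    rw [h]
    unfold Helper75.MEI2.qv
    ring
  have h2 : ∫ t in TD, tent (A 0) (A 1) (A 2) t.1 t.2 * Qf (PN N *ᵥ vt t)
      = cc (PN N) (A 0) (A 1) (A 2) / 2 := by
    simp only [Helper75.MEI2.Qf_mv]
    rw [Helper75.MEI2.tent_qp (hA 0) (hA 1) (hA 2) hs, Helper75.MEI2.qv_cc _ hs]
  have hf : Continuous fun t : ℝ × ℝ => tent (A 0) (A 1) (A 2) t.1 t.2 :=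
    Helper29.MEI.tent_cont _ _ _
  have i1 : IntegrableOn (fun t : ℝ × ℝ => tent (A 0) (A 1) (A 2) t.1 t.2) TD :=
    hf.continuousOn.integrableOn_compact Helper29.MEI.TD_compact
  have i2 : IntegrableOn (fun t : ℝ × ℝ => tent (A 0) (A 1) (A 2) t.1 t.2
      * Qf (PN N *ᵥ vt t)) TD :=
    (hf.mul ((Helper75.MEI2.Qf_cont.comp (Helper75.MEI2.mv_cont _)).comp
      Helper75.MEI2.vt_cont)).continuousOn.integrableOn_compact Helper29.MEI.TD_compact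
  have h3 : ∫ t in TD, 2 / 3 * tent (A 0) (A 1) (A 2) t.1 t.2
      ≤ ∫ t in TD, tent (A 0) (A 1) (A 2) t.1 t.2 * Qf (PN N *ᵥ vt t) := by
    refine setIntegral_mono_on (i1.const_mul _) i2 Helper29.MEI.TD_meas fun t ht => ?_
    have hb : ∀ k, 0 ≤ vt t k := Helper75.MEI2.vt_nn.2 ht
    have h4 : 2 / 3 ≤ Qf (PN N *ᵥ vt t) := by
      have hm := mm_pos t
      rw [← Qf_vv] at hm
      refine hm.trans ?_
      have m : ∀ k, vt t k ≤ (PN N *ᵥ vt t) k := fun k => by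
        rw [PN_mul]
        have := LN_nonneg hN hb k
        linarith
      have m0 := m 0
      have m1 := m 1
      have m2 := m 2
      have b0 := hb 0
      have b1 := hb 1
      have b2 := hb 2
      unfold Qf
      have s0 : vt t 0 ^ 2 ≤ (PN N *ᵥ vt t) 0 ^ 2 := by nlinarith
      have s1 : vt t 1 ^ 2 ≤ (PN N *ᵥ vt t) 1 ^ 2 := by nlinarith
      have s2 : vt t 2 ^ 2 ≤ (PN N *ᵥ vt t) 2 ^ 2 := by nlinarith
      have s01 := mul_le_mul m0 m1 b1 (b0.trans m0)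
      have s02 := mul_le_mul m0 m2 b2 (b0.trans m0)
      have s12 := mul_le_mul m1 m2 b2 (b1.trans m1)
      linarith
    have h5 := Helper29.MEI.tent_nonneg (hA 0) (hA 1) (hA 2) ht
    nlinarith
  rw [integral_const_mul, h1, h2] at h3
  linarith

/-- **the mass of the apex** in contact coordinates -/
theorem alP_mass {ζ : Fin 3 → ℝ} (hζ : ∀ k, 0 < ζ k) {Z : ℝ} (hZ : Z = ζ 0 + ζ 1 + ζ 2) :
    1 / √2 * ((PN N).det / (54 * Z * cbP N (fun k => ζ k / Z) ^ 2))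
      ≤ Pool.Agent.Helper55.Mass.Id (alP N ζ) := by
  have hZ0 : 0 < Z := by rw [hZ]; linarith [hζ 0, hζ 1, hζ 2]
  have hA : ∀ k, 0 < ζ k / Z := fun k => div_pos (hζ k) hZ0
  have hs : ζ 0 / Z + ζ 1 / Z + ζ 2 / Z = 1 := by
    rw [← add_div, ← add_div, ← hZ, div_self hZ0.ne']
  have hdp := PN_det_pos hN hd hc hcol
  have h1 := Helper75.MEI2.tentC (PN_nonneg hN) hdp hζ hZ
  have h2 := ccP_le hd (A := fun k => ζ k / Z) (fun k => (hA k).le) hs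
  have h3 := ccP_ge hN (A := fun k => ζ k / Z) hA hs
  unfold Pool.Agent.Helper55.Mass.Id
  refine mul_le_mul_of_nonneg_left ?_ (by positivity)
  rw [alP_Sim]
  refine le_trans ?_ h1
  set C := cc (PN N) (ζ 0 / Z) (ζ 1 / Z) (ζ 2 / Z)
  set D := cbP N (fun k => ζ k / Z)
  have hC0 : 0 < C := by linarith
  have hCD : C ^ 2 ≤ D ^ 2 := by nlinarith
  have hp : 0 < 54 * Z * C ^ 2 := by positivity
  have hq : 54 * Z * C ^ 2 ≤ 54 * Z * D ^ 2 := mul_le_mul_of_nonneg_left hCD (by positivity)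
  exact div_le_div_of_nonneg_left hdp.le hp hq

end

end Pool.Agent.Helper55.ApexP
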