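import Pool.Agent.Helper55.MEI.Tent7
import Pool.Agent.Helper73.MEI.SidePhi

/-!
# Project MEI (M2): the weight of the apex as a polynomial of the leaks

`C1 T Q` = the number of the share of the arcs, `w = 22.6276 C1 ^ 2 / (A' (1 - T ^ 2 / 4))`;
`apx_phi`: the share `φ` of the arcs with the strips taken off, and the weight
`g0 + γ (kv p + (rb - rbp p) / A')` for the arc `p` with the largest price.
-/

set_option autoImplicit false

namespace Pool.Agent.Helper55.GApx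

open Pool.Agent.Helper55.Apex (nc)
open Pool.Agent.Helper55.TentL (PC PX)
open Pool.Agent.Helper73.MEI.SideP (TN QN TN_nonneg)

/-- the polynomial of the share -/
noncomputable def C1 (T Q : ℝ) : ℝ := 35 / 48 + 9 / 16 * T + 5 / 12 * Q

theorem C1_pos {T Q : ℝ} (hT : 0 ≤ T) (hQ : 0 ≤ Q) : 0 < C1 T Q := by
  unfold C1
  positivity

/-- **share of the arcs and weight of the apex** -/
theorem apx_phi {A' T Q rb γ g0 Xq Xc : ℝ} {kv rbp : Fin 3 → ℝ} (hA : 0 < A') (hT : 0 ≤ T)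
    (hT2 : T < 2) (hQ : 0 ≤ Q) (hrb : ∀ p, rbp p ≤ rb) (hkv : ∀ p, 0 ≤ kv p)
    (hsum : A' * (kv 0 + kv 1 + kv 2) < rbp 0 + rbp 1 + rbp 2)
    (hφ : ∀ p, 22.6276 * (rbp p - A' * kv p) * C1 T Q ^ 2 ≤ A' * (1 - T ^ 2 / 4))
    (k1 : g0 * (A' * (1 - T ^ 2 / 4)) ≤
      (A' * (1 - T ^ 2 / 4) - 22.6276 * rb * C1 T Q ^ 2) * (A' * Xq))
    (k2 : γ * (1 - T ^ 2 / 4) ≤ A' * (22.6276 * C1 T Q ^ 2 * Xq)) (hX : Xq ≤ Xc) :
    ∃ (φ : ℝ) (p : Fin 3), 0 < φ ∧ φ ≤ 1 ∧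
      (∀ p', 22.6276 * (rbp p' - A' * kv p') * (35 / 48 + 9 / 16 * T + 5 / 12 * Q) ^ 2 ≤
        φ * (A' * (1 - T ^ 2 / 4))) ∧
      φ = (rbp p - A' * kv p) * (22.6276 * C1 T Q ^ 2 / (A' * (1 - T ^ 2 / 4))) ∧
      g0 + γ * (kv p + (rb - rbp p) / A') ≤ A' * (1 - φ) * Xc := by
  have hC := C1_pos hT hQ
  have hC2 : 0 < C1 T Q ^ 2 := by positivity
  set c := C1 T Q ^ 2 with hc
  have hD : 0 < 1 - T ^ 2 / 4 := by nlinarith
  set D := 1 - T ^ 2 / 4 with hDd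
  have hAD : 0 < A' * D := mul_pos hA hD
  have h22 : (0 : ℝ) < 22.6276 * c := by positivity
  -- the arc with the largest price
  obtain ⟨p, hp⟩ : ∃ p : Fin 3, ∀ p', rbp p' - A' * kv p' ≤ rbp p - A' * kv p := by
    obtain ⟨p, -, hp⟩ := Finset.exists_max_image (Finset.univ : Finset (Fin 3))
      (fun p => rbp p - A' * kv p) ⟨0, Finset.mem_univ _⟩
    exact ⟨p, fun p' => hp p' (Finset.mem_univ _)⟩
  have hp0 : 0 < rbp p - A' * kv p := by
    have a0 := hp 0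
    have a1 := hp 1
    have a2 := hp 2
    nlinarith
  refine ⟨(rbp p - A' * kv p) * (22.6276 * c / (A' * D)), p, by positivity, ?_, ?_, rfl, ?_⟩
  · have h := hφ p
    rw [← mul_div_assoc, div_le_one hAD]
    linarith
  · intro p'
    have e : (rbp p - A' * kv p) * (22.6276 * c / (A' * D)) * (A' * D) =
        22.6276 * (rbp p - A' * kv p) * c := by
      field_simp
    rw [e]
    show 22.6276 * (rbp p' - A' * kv p') * C1 T Q ^ 2 ≤ _
    rw [← hc]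
    have h := mul_le_mul_of_nonneg_right (hp p') hC2.le
    linarith
  · have hφ1 : (rbp p - A' * kv p) * (22.6276 * c / (A' * D)) ≤ 1 := by
      have h := hφ p
      rw [← mul_div_assoc, div_le_one hAD]
      linarith
    have e1 : A' * (1 - (rbp p - A' * kv p) * (22.6276 * c / (A' * D))) * Xq ≤
        A' * (1 - (rbp p - A' * kv p) * (22.6276 * c / (A' * D))) * Xc := by
      apply mul_le_mul_of_nonneg_left hX
      apply mul_nonneg hA.le
      linarith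
    refine le_trans ?_ e1
    have hδ : 0 ≤ kv p + (rb - rbp p) / A' :=
      add_nonneg (hkv p) (div_nonneg (sub_nonneg.2 (hrb p)) hA.le)
    have k1' : g0 ≤ (A' * D - 22.6276 * rb * c) * (A' * Xq) / (A' * D) := by
      rw [le_div_iff₀ hAD]
      exact k1
    have k2' : γ ≤ A' * (22.6276 * c * Xq) / D := by
      rw [le_div_iff₀ hD]
      exact k2
    have k3 := mul_le_mul_of_nonneg_right k2' hδ
    have e2 : (A' * D - 22.6276 * rb * c) * (A' * Xq) / (A' * D) +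
        A' * (22.6276 * c * Xq) / D * (kv p + (rb - rbp p) / A') =
        A' * (1 - (rbp p - A' * kv p) * (22.6276 * c / (A' * D))) * Xq := by
      field_simp
      ring
    linarith

/-- the weight in the class `cone`, numbers -/
theorem Xc_cone {q s PC : ℝ} (hq : 0 < q) (hs : 1 + s ≤ q ^ 2) (hs0 : 0 < 1 + s) (hP : 0 ≤ PC) :
    1872 / 10000 * PC / q ≤ 1872 / 10000 * PC / √(1 + s) := by
  have h1 : √(1 + s) ≤ q := Real.sqrt_le_iff.2 ⟨hq.le, hs⟩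
  have h2 : 0 < √(1 + s) := Real.sqrt_pos.2 hs0
  exact div_le_div_of_nonneg_left (by positivity) h2 h1

/-- the multi affine symmetric polynomial of the cone class -/
def gC (c0 c1 c2 c3 x y z : ℝ) : ℝ :=
  c0 - c1 * (x + y + z) + c2 * (x * y + x * z + y * z) - c3 * (x * y * z)

/-- the multi affine polynomial of the class of the clipped coordinate `x` -/
def gS (c0 c1 c2 c3 c4 c5 x y z : ℝ) : ℝ :=
  c0 - c1 * x - c2 * (y + z) + c3 * (x * (y + z)) + c4 * (y * z) - c5 * (x * y * z)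

section
variable {N : Fin 3 → Fin 3 → ℝ}

theorem QN_nonneg : 0 ≤ QN N := by
  unfold QN
  positivity

theorem TN_perm (N : Fin 3 → Fin 3 → ℝ) {l j k : Fin 3} (hlj : l ≠ j) (hlk : l ≠ k)
    (hjk : j ≠ k) : TN N = nc N l + nc N j + nc N k := by
  unfold TN
  fin_cases l <;> fin_cases j <;> fin_cases k <;> simp at hlj hlk hjk ⊢ <;> ring

theorem QN_perm (N : Fin 3 → Fin 3 → ℝ) {l j k : Fin 3} (hlj : l ≠ j) (hlk : l ≠ k)
    (hjk : j ≠ k) : QN N = nc N l ^ 2 + nc N j ^ 2 + nc N k ^ 2 := by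
  unfold QN
  fin_cases l <;> fin_cases j <;> fin_cases k <;> simp at hlj hlk hjk ⊢ <;> ring

theorem PX_perm (N : Fin 3 → Fin 3 → ℝ) {l j k : Fin 3} (hlj : l ≠ j) (hlk : l ≠ k)
    (hjk : j ≠ k) : PX N l =
      (1 - 11 / 10 * nc N l) * (1 - 13 / 10 * nc N j) * (1 - 13 / 10 * nc N k) := by
  have e0 : PX N 0 = (1 - 11 / 10 * nc N 0) * (1 - 13 / 10 * nc N 1) *
      (1 - 13 / 10 * nc N 2) := by
    unfold PX
    rw [if_pos rfl, if_neg (by decide), if_neg (by decide)]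
  have e1 : PX N 1 = (1 - 13 / 10 * nc N 0) * (1 - 11 / 10 * nc N 1) *
      (1 - 13 / 10 * nc N 2) := by
    unfold PX
    rw [if_neg (by decide), if_pos rfl, if_neg (by decide)]
  have e2 : PX N 2 = (1 - 13 / 10 * nc N 0) * (1 - 13 / 10 * nc N 1) *
      (1 - 11 / 10 * nc N 2) := by
    unfold PX
    rw [if_neg (by decide), if_neg (by decide), if_pos rfl]
  obtain rfl | rfl | rfl : l = 0 ∨ l = 1 ∨ l = 2 := by
    fin_cases l <;> simp
  · rw [e0]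
    obtain ⟨rfl, rfl⟩ | ⟨rfl, rfl⟩ : (j = 1 ∧ k = 2) ∨ (j = 2 ∧ k = 1) := by
      revert hlj hlk hjk
      revert j k
      decide
    · ring
    · ring
  · rw [e1]
    obtain ⟨rfl, rfl⟩ | ⟨rfl, rfl⟩ : (j = 0 ∧ k = 2) ∨ (j = 2 ∧ k = 0) := by
      revert hlj hlk hjk
      revert j k
      decide
    · ring
    · ring
  · rw [e2]
    obtain ⟨rfl, rfl⟩ | ⟨rfl, rfl⟩ : (j = 0 ∧ k = 1) ∨ (j = 1 ∧ k = 0) := by
      revert hlj hlk hjk
      revert j k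
      decide
    · ring
    · ring

/-- **cone class**: `K1`, `K2`, `K3` are polynomial inequalities in the three columns -/
theorem apx_cone (hN : ∀ k m, 0 ≤ N k m) {A' rb γ q s c0 c1 c2 c3 : ℝ} {kv rbp : Fin 3 → ℝ}
    (hA : 0 < A') (hT2 : TN N < 2) (hrb : ∀ p, rbp p ≤ rb) (hkv : ∀ p, 0 ≤ kv p)
    (hsum : A' * (kv 0 + kv 1 + kv 2) < rbp 0 + rbp 1 + rbp 2)
    (ht : ∀ k, nc N k ≤ 1) (hq : 0 < q) (hs : 1 + s ≤ q ^ 2) (hs0 : 0 < 1 + s)
    (k1 : q * gC c0 c1 c2 c3 (nc N 0) (nc N 1) (nc N 2) * (1 - TN N ^ 2 / 4) ≤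
      (A' * (1 - TN N ^ 2 / 4) - 22.6276 * rb * C1 (TN N) (QN N) ^ 2) * (1872 / 10000 * PC N))
    (k2 : γ * q * (1 - TN N ^ 2 / 4) ≤
      A' * (22.6276 * C1 (TN N) (QN N) ^ 2) * (1872 / 10000 * PC N))
    (k3 : 22.6276 * rb * C1 (TN N) (QN N) ^ 2 ≤ A' * (1 - TN N ^ 2 / 4)) :
    ∃ (φ : ℝ) (p : Fin 3), 0 < φ ∧ φ ≤ 1 ∧
      (∀ p', 22.6276 * (rbp p' - A' * kv p')
        * (35 / 48 + 9 / 16 * TN N + 5 / 12 * QN N) ^ 2 ≤ φ * (A' * (1 - TN N ^ 2 / 4))) ∧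
      gC c0 c1 c2 c3 (nc N 0) (nc N 1) (nc N 2) + γ * (kv p + (rb - rbp p) / A') ≤
        A' * (1 - φ) * (1872 / 10000 * PC N / √(1 + s)) := by
  have hPC : 0 ≤ PC N := by
    unfold PC
    have t0 := ht 0
    have t1 := ht 1
    have t2 := ht 2
    exact mul_nonneg (mul_nonneg (by linarith) (by linarith)) (by linarith)
  have hC2 : 0 ≤ C1 (TN N) (QN N) ^ 2 := sq_nonneg _
  obtain ⟨φ, p, f0, f1, f2, -, f4⟩ := apx_phi (γ := γ)
    (g0 := gC c0 c1 c2 c3 (nc N 0) (nc N 1) (nc N 2)) (Xq := 1872 / 10000 * PC N / q) hA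
    (TN_nonneg hN) hT2 (QN_nonneg (N := N)) hrb hkv hsum
    (fun p => by
      have h1 : rbp p - A' * kv p ≤ rb := by
        have := mul_nonneg hA.le (hkv p)
        linarith [hrb p]
      have h2 := mul_le_mul_of_nonneg_right h1 hC2
      nlinarith)
    (by
      rw [← mul_div_assoc, ← mul_div_assoc, le_div_iff₀ hq]
      have h := mul_le_mul_of_nonneg_left k1 hA.le
      linarith)
    (by
      rw [← mul_div_assoc, ← mul_div_assoc, le_div_iff₀ hq]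
      linarith)
    (Xc_cone hq hs hs0 hPC)
  exact ⟨φ, p, f0, f1, f2, f4⟩

/-- **class of the clipped coordinate `l`**, `j`, `k` the two others -/
theorem apx_side (hN : ∀ k m, 0 ≤ N k m) {A' rb γ r V c0 c1 c2 c3 c4 c5 : ℝ}
    {kv rbp : Fin 3 → ℝ} {l j k : Fin 3}
    (hA : 0 < A') (hT2 : TN N < 2) (hrb : ∀ p, rbp p ≤ rb) (hkv : ∀ p, 0 ≤ kv p)
    (hsum : A' * (kv 0 + kv 1 + kv 2) < rbp 0 + rbp 1 + rbp 2)
    (hr : 0 < r) (hV : 0 ≤ V)
    (k1 : (r + nc N l * V) * gS c0 c1 c2 c3 c4 c5 (nc N l) (nc N j) (nc N k)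
        * (1 - TN N ^ 2 / 4) ≤
      (A' * (1 - TN N ^ 2 / 4) - 22.6276 * rb * C1 (TN N) (QN N) ^ 2)
        * (192 / 1000 * PX N l))
    (k2 : γ * (r + nc N l * V) * (1 - TN N ^ 2 / 4) ≤
      A' * (22.6276 * C1 (TN N) (QN N) ^ 2) * (192 / 1000 * PX N l))
    (k3 : 22.6276 * rb * C1 (TN N) (QN N) ^ 2 ≤ A' * (1 - TN N ^ 2 / 4)) :
    ∃ (φ : ℝ) (p : Fin 3), 0 < φ ∧ φ ≤ 1 ∧
      (∀ p', 22.6276 * (rbp p' - A' * kv p')
        * (35 / 48 + 9 / 16 * TN N + 5 / 12 * QN N) ^ 2 ≤ φ * (A' * (1 - TN N ^ 2 / 4))) ∧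
      gS c0 c1 c2 c3 c4 c5 (nc N l) (nc N j) (nc N k) + γ * (kv p + (rb - rbp p) / A') ≤
        A' * (1 - φ) * (192 / 1000 * PX N l / (r + nc N l * V)) := by
  have hl : 0 ≤ nc N l := Pool.Agent.Helper73.MEI.SideP.nc_nonneg hN l
  have hq : 0 < r + nc N l * V := by
    have := mul_nonneg hl hV
    linarith
  have hC2 : 0 ≤ C1 (TN N) (QN N) ^ 2 := sq_nonneg _
  obtain ⟨φ, p, f0, f1, f2, -, f4⟩ := apx_phi (γ := γ)
    (g0 := gS c0 c1 c2 c3 c4 c5 (nc N l) (nc N j) (nc N k))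
    (Xq := 192 / 1000 * PX N l / (r + nc N l * V)) hA
    (TN_nonneg hN) hT2 (QN_nonneg (N := N)) hrb hkv hsum
    (fun p => by
      have h1 : rbp p - A' * kv p ≤ rb := by
        have := mul_nonneg hA.le (hkv p)
        linarith [hrb p]
      have h2 := mul_le_mul_of_nonneg_right h1 hC2
      nlinarith)
    (by
      rw [← mul_div_assoc, ← mul_div_assoc, le_div_iff₀ hq]
      have h := mul_le_mul_of_nonneg_left k1 hA.le
      linarith)
    (by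
      rw [← mul_div_assoc, ← mul_div_assoc, le_div_iff₀ hq]
      linarith)
    le_rfl
  exact ⟨φ, p, f0, f1, f2, f4⟩

/-- **cone class, the simple share** `φ = 22.6276 rb C1 ^ 2 / (A' (1 - T ^ 2 / 4))` (helper73's
`phiN`): only `K1`, `K3` -/
theorem gC_le (hN : ∀ k m, 0 ≤ N k m) {A' rb q s c0 c1 c2 c3 : ℝ}
    (hA : 0 < A') (hT2 : TN N < 2) (ht : ∀ k, nc N k ≤ 1) (hq : 0 < q) (hs : 1 + s ≤ q ^ 2)
    (hs0 : 0 < 1 + s)
    (k1 : q * gC c0 c1 c2 c3 (nc N 0) (nc N 1) (nc N 2) * (1 - TN N ^ 2 / 4) ≤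
      (A' * (1 - TN N ^ 2 / 4) - 22.6276 * rb * C1 (TN N) (QN N) ^ 2) * (1872 / 10000 * PC N))
    (k3 : 22.6276 * rb * C1 (TN N) (QN N) ^ 2 ≤ A' * (1 - TN N ^ 2 / 4)) :
    22.6276 * rb * (35 / 48 + 9 / 16 * TN N + 5 / 12 * QN N) ^ 2 / (A' * (1 - TN N ^ 2 / 4))
        ≤ 1 ∧
    gC c0 c1 c2 c3 (nc N 0) (nc N 1) (nc N 2) ≤
      A' * (1 - 22.6276 * rb * (35 / 48 + 9 / 16 * TN N + 5 / 12 * QN N) ^ 2 /
        (A' * (1 - TN N ^ 2 / 4))) * (1872 / 10000 * PC N / √(1 + s)) := by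
  have hT0 := TN_nonneg hN
  have hD : 0 < 1 - TN N ^ 2 / 4 := by nlinarith
  have hAD : 0 < A' * (1 - TN N ^ 2 / 4) := mul_pos hA hD
  have hPC : 0 ≤ PC N := by
    unfold PC
    have t0 := ht 0
    have t1 := ht 1
    have t2 := ht 2
    exact mul_nonneg (mul_nonneg (by linarith) (by linarith)) (by linarith)
  have e : (35 / 48 + 9 / 16 * TN N + 5 / 12 * QN N) ^ 2 = C1 (TN N) (QN N) ^ 2 := rfl
  rw [e]
  have h1 : 22.6276 * rb * C1 (TN N) (QN N) ^ 2 / (A' * (1 - TN N ^ 2 / 4)) ≤ 1 := by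
    rw [div_le_one hAD]
    exact k3
  refine ⟨h1, ?_⟩
  have h2 := mul_le_mul_of_nonneg_left (Xc_cone hq hs hs0 hPC)
    (mul_nonneg hA.le (sub_nonneg.2 h1))
  refine le_trans ?_ h2
  have e2 : A' * (1 - 22.6276 * rb * C1 (TN N) (QN N) ^ 2 / (A' * (1 - TN N ^ 2 / 4))) *
      (1872 / 10000 * PC N / q) =
      (A' * (1 - TN N ^ 2 / 4) - 22.6276 * rb * C1 (TN N) (QN N) ^ 2) * (1872 / 10000 * PC N)
        / (q * (1 - TN N ^ 2 / 4)) := by
    clear h2 h1 k3 k1 hAD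
    generalize 1 - TN N ^ 2 / 4 = D at *
    field_simp
  rw [e2, le_div_iff₀ (by positivity)]
  linarith

/-- **class of the clipped coordinate, the simple share** -/
theorem gS_le (hN : ∀ k m, 0 ≤ N k m) {A' rb r V c0 c1 c2 c3 c4 c5 : ℝ} {l j k : Fin 3}
    (hA : 0 < A') (hT2 : TN N < 2) (hr : 0 < r) (hV : 0 ≤ V)
    (k1 : (r + nc N l * V) * gS c0 c1 c2 c3 c4 c5 (nc N l) (nc N j) (nc N k)
        * (1 - TN N ^ 2 / 4) ≤
      (A' * (1 - TN N ^ 2 / 4) - 22.6276 * rb * C1 (TN N) (QN N) ^ 2)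
        * (192 / 1000 * PX N l)) :
    gS c0 c1 c2 c3 c4 c5 (nc N l) (nc N j) (nc N k) ≤
      A' * (1 - 22.6276 * rb * (35 / 48 + 9 / 16 * TN N + 5 / 12 * QN N) ^ 2 /
        (A' * (1 - TN N ^ 2 / 4))) * (192 / 1000 * PX N l / (r + nc N l * V)) := by
  have hT0 := TN_nonneg hN
  have hD : 0 < 1 - TN N ^ 2 / 4 := by nlinarith
  have hl : 0 ≤ nc N l := Pool.Agent.Helper73.MEI.SideP.nc_nonneg hN l
  have hq : 0 < r + nc N l * V := by
    have := mul_nonneg hl hV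
    linarith
  have e : (35 / 48 + 9 / 16 * TN N + 5 / 12 * QN N) ^ 2 = C1 (TN N) (QN N) ^ 2 := rfl
  rw [e]
  have e2 : A' * (1 - 22.6276 * rb * C1 (TN N) (QN N) ^ 2 / (A' * (1 - TN N ^ 2 / 4))) *
      (192 / 1000 * PX N l / (r + nc N l * V)) =
      (A' * (1 - TN N ^ 2 / 4) - 22.6276 * rb * C1 (TN N) (QN N) ^ 2) * (192 / 1000 * PX N l)
        / ((r + nc N l * V) * (1 - TN N ^ 2 / 4)) := by
    clear k1
    generalize 1 - TN N ^ 2 / 4 = D at *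
    field_simp
  rw [e2, le_div_iff₀ (by positivity)]
  linarith

end

end Pool.Agent.Helper55.GApx
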