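import Pool.Agent.Helper55.MEI.Sx8

/-!
# The feasible load `x_j = th (b_j - L_j)` and its masses
-/

namespace Pool.Agent.Helper55.Mass

open Set MeasureTheory Pool.Agent.Helper55.Sx

/-- `L_k(b) = ∑ N_km b_m` (zero diagonal) -/
def LN (N : Fin 3 → Fin 3 → ℝ) (b : Fin 3 → ℝ) (k : Fin 3) : ℝ :=
  N k 0 * b 0 + N k 1 * b 1 + N k 2 * b 2

/-- wall factor -/
noncomputable def thl (N : Fin 3 → Fin 3 → ℝ) (b : Fin 3 → ℝ) (l : Fin 3) : ℝ :=
  if b l < LN N b l then b l / LN N b l else 1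

/-- common factor -/
noncomputable def thN (N : Fin 3 → Fin 3 → ℝ) (b : Fin 3 → ℝ) : ℝ :=
  min (thl N b 0) (min (thl N b 1) (thl N b 2))

/-- the load on the node `j` -/
noncomputable def xN (N : Fin 3 → Fin 3 → ℝ) (b : Fin 3 → ℝ) (j : Fin 3) : ℝ :=
  thN N b * max (b j - LN N b j) 0

variable {N : Fin 3 → Fin 3 → ℝ} {b : Fin 3 → ℝ}

theorem LN_nonneg (hN : ∀ k m, 0 ≤ N k m) (hb : ∀ k, 0 ≤ b k) (k : Fin 3) : 0 ≤ LN N b k := by
  have := mul_nonneg (hN k 0) (hb 0)
  have := mul_nonneg (hN k 1) (hb 1)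
  have := mul_nonneg (hN k 2) (hb 2)
  unfold LN
  linarith

theorem thl_nonneg (hN : ∀ k m, 0 ≤ N k m) (hb : ∀ k, 0 ≤ b k) (l : Fin 3) : 0 ≤ thl N b l := by
  unfold thl
  split_ifs
  · exact div_nonneg (hb l) (LN_nonneg hN hb l)
  · exact zero_le_one

theorem thl_le_one (hb : ∀ k, 0 ≤ b k) (l : Fin 3) : thl N b l ≤ 1 := by
  unfold thl
  split_ifs with h
  · exact (div_le_one (lt_of_le_of_lt (hb l) h)).2 h.le
  · exact le_rfl

theorem thN_nonneg (hN : ∀ k m, 0 ≤ N k m) (hb : ∀ k, 0 ≤ b k) : 0 ≤ thN N b :=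
  le_min (thl_nonneg hN hb 0) (le_min (thl_nonneg hN hb 1) (thl_nonneg hN hb 2))

theorem thN_le (l : Fin 3) : thN N b ≤ thl N b l := by
  unfold thN
  fin_cases l
  · exact min_le_left _ _
  · exact (min_le_right _ _).trans (min_le_left _ _)
  · exact (min_le_right _ _).trans (min_le_right _ _)

theorem xN_nonneg (hN : ∀ k m, 0 ≤ N k m) (hb : ∀ k, 0 ≤ b k) (j : Fin 3) : 0 ≤ xN N b j :=
  mul_nonneg (thN_nonneg hN hb) (le_max_right _ _)

theorem xN_le (hN : ∀ k m, 0 ≤ N k m) (hb : ∀ k, 0 ≤ b k) (j : Fin 3) : xN N b j ≤ b j := by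
  have h1 : thN N b ≤ 1 := (thN_le 0).trans (thl_le_one hb 0)
  have h2 : max (b j - LN N b j) 0 ≤ b j := by
    have := LN_nonneg hN hb j
    exact max_le (by linarith) (hb j)
  calc xN N b j ≤ 1 * max (b j - LN N b j) 0 :=
        mul_le_mul_of_nonneg_right h1 (le_max_right _ _)
    _ ≤ b j := by rw [one_mul]; exact h2

/-- **feasibility** -/
theorem xN_feas (hN : ∀ k m, 0 ≤ N k m) (hb : ∀ k, 0 ≤ b k) (k : Fin 3) :
    xN N b k + LN N (xN N b) k ≤ b k := by
  have hth := thN_nonneg hN hb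
  have hu : ∀ m, max (b m - LN N b m) 0 ≤ b m := fun m => by
    have := LN_nonneg hN hb m
    exact max_le (by linarith) (hb m)
  have h1 : LN N (xN N b) k ≤ thN N b * LN N b k := by
    have g0 := mul_le_mul_of_nonneg_left (hu 0) (hN k 0)
    have g1 := mul_le_mul_of_nonneg_left (hu 1) (hN k 1)
    have g2 := mul_le_mul_of_nonneg_left (hu 2) (hN k 2)
    have g := mul_le_mul_of_nonneg_left (add_le_add (add_le_add g0 g1) g2) hth
    calc LN N (xN N b) k = thN N b * (N k 0 * max (b 0 - LN N b 0) 0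
          + N k 1 * max (b 1 - LN N b 1) 0 + N k 2 * max (b 2 - LN N b 2) 0) := by
          simp only [LN, xN]; ring
      _ ≤ _ := g
  have hL := LN_nonneg hN hb k
  rcases lt_or_ge (b k) (LN N b k) with h | h
  · have e1 : xN N b k = 0 := by
      unfold xN
      rw [max_eq_right (by linarith), mul_zero]
    have e2 : thN N b * LN N b k ≤ b k := by
      have hlt : thl N b k = b k / LN N b k := by
        unfold thl
        rw [if_pos h]
      have h3 := mul_le_mul_of_nonneg_right (thN_le (N := N) (b := b) k) hL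
      rw [hlt, div_mul_cancel₀ _ (lt_of_le_of_lt (hb k) h).ne'] at h3
      exact h3
    linarith
  · have e1 : xN N b k = thN N b * (b k - LN N b k) := by
      unfold xN
      rw [max_eq_left (by linarith)]
    have h2 : thN N b ≤ 1 := (thN_le 0).trans (thl_le_one hb 0)
    have h3 : thN N b * b k ≤ 1 * b k := mul_le_mul_of_nonneg_right h2 (hb k)
    rw [e1]
    linarith

/-- lower bound by the linear function and the wall terms -/
theorem xN_low (hN : ∀ k m, 0 ≤ N k m) (hb : ∀ k, 0 ≤ b k) {j l k : Fin 3} (hjl : j ≠ l)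
    (hjk : j ≠ k) (hlk : l ≠ k) :
    b j - LN N b j - (1 - thl N b l) * b j - (1 - thl N b k) * b j ≤ xN N b j := by
  have hj1 := thl_le_one (N := N) hb j
  have hl1 := thl_le_one (N := N) hb l
  have hk1 := thl_le_one (N := N) hb k
  have hL := LN_nonneg hN hb j
  have hl2 := mul_nonneg (sub_nonneg.2 hl1) (hb j)
  have hk2 := mul_nonneg (sub_nonneg.2 hk1) (hb j)
  rcases lt_or_ge (b j) (LN N b j) with h | h
  · have := xN_nonneg hN hb j
    linarith
  · have hj : thl N b j = 1 := by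
      unfold thl
      rw [if_neg (not_lt.2 h)]
    have hth : 1 - (1 - thl N b l) - (1 - thl N b k) ≤ thN N b := by
      have key : ∀ i, 1 - (1 - thl N b l) - (1 - thl N b k) ≤ thl N b i := by
        intro i
        have hi : i = j ∨ i = l ∨ i = k := by
          revert hjl hjk hlk
          clear * -
          revert i j l k
          decide
        rcases hi with h' | h' | h'
        · rw [h', hj]; linarith
        · rw [h']; linarith
        · rw [h']; linarith
      exact le_min (key 0) (le_min (key 1) (key 2))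
    have e1 : xN N b j = thN N b * (b j - LN N b j) := by
      unfold xN
      rw [max_eq_left (by linarith)]
    rw [e1]
    have h1 := mul_le_mul_of_nonneg_right hth (show 0 ≤ b j - LN N b j by linarith)
    have h2 : (1 - thl N b l) * (b j - LN N b j) ≤ (1 - thl N b l) * b j :=
      mul_le_mul_of_nonneg_left (by linarith) (by linarith)
    have h3 : (1 - thl N b k) * (b j - LN N b j) ≤ (1 - thl N b k) * b j :=
      mul_le_mul_of_nonneg_left (by linarith) (by linarith)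
    linarith

/-- homogeneity -/
theorem xN_smul {c : ℝ} (hc : 0 < c) (j : Fin 3) :
    xN N (fun k => c * b k) j = c * xN N b j := by
  have hL : ∀ k, LN N (fun k => c * b k) k = c * LN N b k := fun k => by
    simp only [LN]; ring
  have ht : ∀ l, thl N (fun k => c * b k) l = thl N b l := by
    intro l
    unfold thl
    rw [hL]
    by_cases h : b l < LN N b l
    · rw [if_pos h, if_pos (mul_lt_mul_of_pos_left h hc), mul_div_mul_left _ _ hc.ne']
    · rw [if_neg h, if_neg]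
      intro h2
      exact h (lt_of_mul_lt_mul_left h2 hc.le)
  unfold xN thN
  rw [ht, ht, ht, hL]
  have : max (c * b j - c * LN N b j) 0 = c * max (b j - LN N b j) 0 := by
    rw [← mul_sub, mul_max_of_nonneg _ _ hc.le, mul_zero]
  simp only
  rw [this]
  ring

/-! ### the integrals -/

/-- the flat coordinates -/
def vv (t : ℝ × ℝ) : Fin 3 → ℝ := ![t.1, t.2, t3 t]

/-- common mean value of the coordinate functions -/
noncomputable def B0 : ℝ := 1 / √2 * ∫ t in Sim, t.1 / mm t ^ 2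

theorem B0_ge : 0.2132 ≤ B0 := corner_dir.1

theorem B0_2 : 1 / √2 * ∫ t in Sim, t.2 / mm t ^ 2 = B0 := by
  rw [B0, Sim_c2 fun x m => x / m ^ 2]

theorem B0_3 : 1 / √2 * ∫ t in Sim, t3 t / mm t ^ 2 = B0 := by
  rw [B0, Sim_c3 fun x m => x / m ^ 2]

theorem vv_nonneg {t : ℝ × ℝ} (ht : t ∈ Sim) (k : Fin 3) : 0 ≤ vv t k := by
  obtain ⟨h1, h2, h3⟩ := ht
  have h4 : 0 ≤ t3 t := by simp only [t3]; linarith
  fin_cases k
  · exact h1
  · exact h2
  · exact h4

theorem vv_meas (k : Fin 3) : Measurable fun t => vv t k := by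
  have h3 : Measurable t3 := by unfold t3; fun_prop
  fin_cases k
  · exact measurable_fst
  · exact measurable_snd
  · exact h3

theorem LN_meas (k : Fin 3) : Measurable fun t => LN N (vv t) k := by
  unfold LN
  exact (((vv_meas 0).const_mul _).add ((vv_meas 1).const_mul _)).add ((vv_meas 2).const_mul _)

theorem thl_meas (l : Fin 3) : Measurable fun t => thl N (vv t) l := by
  unfold thl
  exact Measurable.ite (measurableSet_lt (vv_meas l) (LN_meas l))
    ((vv_meas l).div (LN_meas l)) measurable_const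

theorem xN_meas (j : Fin 3) : Measurable fun t => xN N (vv t) j := by
  unfold xN thN
  exact ((thl_meas 0).min ((thl_meas 1).min (thl_meas 2))).mul
    (((vv_meas j).sub (LN_meas j)).max measurable_const)

theorem vv_le {t : ℝ × ℝ} (ht : t ∈ Sim) (k : Fin 3) : vv t k ≤ 1 := by
  obtain ⟨h1, h2, h3⟩ := ht
  have h4 : t3 t ≤ 1 := by simp only [t3]; linarith
  fin_cases k
  · change t.1 ≤ 1
    linarith
  · change t.2 ≤ 1
    linarith
  · exact h4

/-- bounded measurable functions are integrable against `m ^ (-2)` -/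
theorem intOn {f : ℝ × ℝ → ℝ} (hf : Measurable f) {C : ℝ} (hC : ∀ t ∈ Sim, |f t| ≤ C) :
    IntegrableOn (fun t => f t / mm t ^ 2) Sim := by
  refine Measure.integrableOn_of_bounded (M := C * (9 / 4))
    Sim_compact.measure_lt_top.ne (hf.div (mm_cont.measurable.pow_const 2)).aestronglyMeasurable ?_
  filter_upwards [ae_restrict_mem Sim_meas] with t ht
  have hm := mm_pos t
  have hm2 : (4 / 9 : ℝ) ≤ mm t ^ 2 := by nlinarith
  have h0 : 0 ≤ |f t| := abs_nonneg _
  have hC' := hC t ht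
  rw [Real.norm_eq_abs, abs_div, abs_of_nonneg (show 0 ≤ mm t ^ 2 by positivity),
    div_le_iff₀ (by positivity)]
  have : C * 1 ≤ C * (9 / 4 * mm t ^ 2) := mul_le_mul_of_nonneg_left (by linarith) (h0.trans hC')
  linarith

theorem wl_int (hN : ∀ k m, 0 ≤ N k m) (l j : Fin 3) :
    IntegrableOn (fun t => (1 - thl N (vv t) l) * vv t j / mm t ^ 2) Sim := by
  refine intOn (C := 1) ((measurable_const.sub (thl_meas l)).mul (vv_meas j)) fun t ht => ?_
  have hb := fun k => vv_nonneg ht k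
  have h1 := thl_nonneg hN hb l
  have h2 := thl_le_one (N := N) hb l
  have h3 := vv_le ht j
  rw [abs_of_nonneg (mul_nonneg (by linarith) (hb j))]
  exact mul_le_one₀ (by linarith) (hb j) h3

theorem w0_eq (hd : ∀ k, N k k = 0) (S₁ S₂ : ℝ) (t : ℝ × ℝ) :
    (1 - thl N (vv t) 0) * (S₁ * t.2 + S₂ * t3 t) / mm t ^ 2
      = wallf (N 0 1) (N 0 2) S₁ S₂ t := by
  have e : LN N (vv t) 0 = N 0 1 * t.2 + N 0 2 * t3 t := by
    simp only [LN, hd, vv, Matrix.cons_val_zero, Matrix.cons_val_one, Matrix.cons_val]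
    ring
  have e0 : vv t 0 = t.1 := rfl
  unfold thl wallf
  rw [e, e0]
  split_ifs
  · rfl
  · simp

theorem w1_eq (hd : ∀ k, N k k = 0) (S₁ S₂ : ℝ) (t : ℝ × ℝ) :
    (1 - thl N (vv t) 1) * (S₁ * t.1 + S₂ * t3 t) / mm t ^ 2
      = wallf (N 1 0) (N 1 2) S₁ S₂ (t.2, t.1) := by
  have e : LN N (vv t) 1 = N 1 0 * t.1 + N 1 2 * t3 t := by
    simp only [LN, hd, vv, Matrix.cons_val_zero, Matrix.cons_val_one, Matrix.cons_val]
    ring
  have e0 : vv t 1 = t.2 := rfl
  have e3 : t3 (t.2, t.1) = t3 t := by simp only [t3]; ring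
  unfold thl wallf
  rw [e, e0, e3, mm_swap]
  split_ifs
  · rfl
  · simp

theorem w2_eq (hd : ∀ k, N k k = 0) (S₁ S₂ : ℝ) (t : ℝ × ℝ) :
    (1 - thl N (vv t) 2) * (S₁ * t.2 + S₂ * t.1) / mm t ^ 2
      = wallf (N 2 1) (N 2 0) S₁ S₂ (sh t) := by
  have e : LN N (vv t) 2 = N 2 1 * t.2 + N 2 0 * t.1 := by
    simp only [LN, hd, vv, Matrix.cons_val_zero, Matrix.cons_val_one, Matrix.cons_val]
    ring
  have e0 : vv t 2 = t3 t := rfl
  have e1 : (sh t).1 = t3 t := rfl
  have e2 : (sh t).2 = t.2 := rfl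
  have e3 : t3 (sh t) = t.1 := by simp only [t3, sh]; ring
  unfold thl wallf
  rw [e, e0, e3, mm_sh, e1, e2]
  split_ifs
  · rfl
  · simp

theorem half_const {I X Y : ℝ} (hX : 0 ≤ X) (hY : 0 ≤ Y)
    (h : I ≤ 1 / 2 * (4916 / 10395 * X + 32891 / 124740 * Y)) :
    1 / √2 * I ≤ 0.1673 * X + 0.0933 * Y := by
  have h0 : (0 : ℝ) ≤ 1 / √2 := by positivity
  have hsq : (1.4142 : ℝ) ≤ √2 := Real.le_sqrt_of_sq_le (by norm_num)
  have c1 : 1 / √2 * (1 / 2 * (4916 / 10395) : ℝ) ≤ 0.1673 := by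
    rw [one_div, inv_mul_le_iff₀ (by positivity)]
    nlinarith
  have c2 : 1 / √2 * (1 / 2 * (32891 / 124740) : ℝ) ≤ 0.0933 := by
    rw [one_div, inv_mul_le_iff₀ (by positivity)]
    nlinarith
  have k1 := mul_le_mul_of_nonneg_right c1 hX
  have k2 := mul_le_mul_of_nonneg_right c2 hY
  have h3 := mul_le_mul_of_nonneg_left h h0
  refine h3.trans ?_
  nlinarith

/-- **wall terms** -/
theorem wl_le (hN : ∀ k m, 0 ≤ N k m) (hd : ∀ k, N k k = 0) {l j k : Fin 3} (hlj : l ≠ j)
    (hlk : l ≠ k) (hjk : j ≠ k) :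
    1 / √2 * ∫ t in Sim, (1 - thl N (vv t) l) * vv t j / mm t ^ 2
      ≤ 0.1673 * N l j + 0.0933 * N l k := by
  have q01 : ∀ t : ℝ × ℝ, (1 - thl N (vv t) 0) * vv t 1 / mm t ^ 2
      = wallf (N 0 1) (N 0 2) 1 0 t := fun t => by
    rw [← w0_eq hd, one_mul, zero_mul, add_zero]; rfl
  have q02 : ∀ t : ℝ × ℝ, (1 - thl N (vv t) 0) * vv t 2 / mm t ^ 2
      = wallf (N 0 1) (N 0 2) 0 1 t := fun t => by
    rw [← w0_eq hd, one_mul, zero_mul, zero_add]; rfl
  have q10 : ∀ t : ℝ × ℝ, (1 - thl N (vv t) 1) * vv t 0 / mm t ^ 2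
      = wallf (N 1 0) (N 1 2) 1 0 (t.2, t.1) := fun t => by
    rw [← w1_eq hd, one_mul, zero_mul, add_zero]; rfl
  have q12 : ∀ t : ℝ × ℝ, (1 - thl N (vv t) 1) * vv t 2 / mm t ^ 2
      = wallf (N 1 0) (N 1 2) 0 1 (t.2, t.1) := fun t => by
    rw [← w1_eq hd, one_mul, zero_mul, zero_add]; rfl
  have q21 : ∀ t : ℝ × ℝ, (1 - thl N (vv t) 2) * vv t 1 / mm t ^ 2
      = wallf (N 2 1) (N 2 0) 1 0 (sh t) := fun t => by
    rw [← w2_eq hd, one_mul, zero_mul, add_zero]; rfl
  have q20 : ∀ t : ℝ × ℝ, (1 - thl N (vv t) 2) * vv t 0 / mm t ^ 2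
      = wallf (N 2 1) (N 2 0) 0 1 (sh t) := fun t => by
    rw [← w2_eq hd, one_mul, zero_mul, zero_add]; rfl
  have p01 := (wall_Sim (hN 0 1) (hN 0 2) zero_le_one (le_refl (0 : ℝ))).2
  have p02 := (wall_Sim (hN 0 1) (hN 0 2) (le_refl (0 : ℝ)) zero_le_one).2
  have p10 := (wall_Sim (hN 1 0) (hN 1 2) zero_le_one (le_refl (0 : ℝ))).2
  have p12 := (wall_Sim (hN 1 0) (hN 1 2) (le_refl (0 : ℝ)) zero_le_one).2
  have p21 := (wall_Sim (hN 2 1) (hN 2 0) zero_le_one (le_refl (0 : ℝ))).2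
  have p20 := (wall_Sim (hN 2 1) (hN 2 0) (le_refl (0 : ℝ)) zero_le_one).2
  rw [← Sim_swap] at p10 p12
  rw [← Sim_sh] at p21 p20
  fin_cases l <;> fin_cases j <;> fin_cases k <;> simp only [Fin.zero_eta, Fin.mk_one,
    Fin.reduceFinMk, ne_eq, not_true_eq_false] at hlj hlk hjk ⊢
  · simp only [q01]
    exact half_const (hN 0 1) (hN 0 2) (p01.trans (le_of_eq (by ring)))
  · simp only [q02]
    exact half_const (hN 0 2) (hN 0 1) (p02.trans (le_of_eq (by ring)))
  · simp only [q10]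
    exact half_const (hN 1 0) (hN 1 2) (p10.trans (le_of_eq (by ring)))
  · simp only [q12]
    exact half_const (hN 1 2) (hN 1 0) (p12.trans (le_of_eq (by ring)))
  · simp only [q20]
    exact half_const (hN 2 0) (hN 2 1) (p20.trans (le_of_eq (by ring)))
  · simp only [q21]
    exact half_const (hN 2 1) (hN 2 0) (p21.trans (le_of_eq (by ring)))

theorem B0_eq (j : Fin 3) : 1 / √2 * ∫ t in Sim, vv t j / mm t ^ 2 = B0 := by
  fin_cases j
  · rfl
  · exact B0_2
  · exact B0_3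

theorem vv_int (j : Fin 3) : IntegrableOn (fun t => vv t j / mm t ^ 2) Sim :=
  intOn (C := 1) (vv_meas j) fun t ht => by
    rw [abs_of_nonneg (vv_nonneg ht j)]
    exact vv_le ht j

theorem xN_int (hN : ∀ k m, 0 ≤ N k m) (j : Fin 3) :
    IntegrableOn (fun t => xN N (vv t) j / mm t ^ 2) Sim :=
  intOn (C := 1) (xN_meas j) fun t ht => by
    rw [abs_of_nonneg (xN_nonneg hN (fun k => vv_nonneg ht k) j)]
    exact (xN_le hN (fun k => vv_nonneg ht k) j).trans (vv_le ht j)

/-- **mass of the node `j`** -/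
theorem mass_low (hN : ∀ k m, 0 ≤ N k m) (hd : ∀ k, N k k = 0) {j l k : Fin 3} (hjl : j ≠ l)
    (hjk : j ≠ k) (hlk : l ≠ k) :
    B0 * (1 - N j l - N j k) - (0.1673 * (N l j + N k j) + 0.0933 * (N l k + N k l))
      ≤ 1 / √2 * ∫ t in Sim, xN N (vv t) j / mm t ^ 2 := by
  have i0 := vv_int 0
  have i1 := vv_int 1
  have i2 := vv_int 2
  have ij := vv_int j
  have wl := wl_int hN l j
  have wk := wl_int hN k j
  have iL : IntegrableOn (fun t => LN N (vv t) j / mm t ^ 2) Sim := by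
    have hi : IntegrableOn (fun t => N j 0 * (vv t 0 / mm t ^ 2) + N j 1 * (vv t 1 / mm t ^ 2)
        + N j 2 * (vv t 2 / mm t ^ 2)) Sim :=
      ((i0.const_mul (N j 0)).add (i1.const_mul (N j 1))).add (i2.const_mul (N j 2))
    refine IntegrableOn.congr_fun hi (fun t _ => ?_) Sim_meas
    simp only [LN]
    ring
  have hLint : 1 / √2 * ∫ t in Sim, LN N (vv t) j / mm t ^ 2
      = B0 * (N j 0 + N j 1 + N j 2) := by
    have e : ∀ t : ℝ × ℝ, LN N (vv t) j / mm t ^ 2 = N j 0 * (vv t 0 / mm t ^ 2)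
        + N j 1 * (vv t 1 / mm t ^ 2) + N j 2 * (vv t 2 / mm t ^ 2) := by
      intro t; simp only [LN]; ring
    simp only [e]
    have x1 := integral_add ((i0.const_mul (N j 0)).add (i1.const_mul (N j 1)))
      (i2.const_mul (N j 2))
    have x2 := integral_add (i0.const_mul (N j 0)) (i1.const_mul (N j 1))
    simp only [Pi.add_apply] at x1
    rw [x2, integral_const_mul, integral_const_mul, integral_const_mul] at x1
    rw [x1, mul_add, mul_add]
    have b0 := B0_eq 0
    have b1 := B0_eq 1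
    have b2 := B0_eq 2
    linear_combination (N j 0) * b0 + (N j 1) * b1 + (N j 2) * b2
  have hsum : N j 0 + N j 1 + N j 2 = N j l + N j k := by
    have hjj := hd j
    fin_cases j <;> fin_cases l <;> fin_cases k <;> simp only [Fin.zero_eta, Fin.mk_one,
      Fin.reduceFinMk, ne_eq, not_true_eq_false] at hjl hjk hlk hjj ⊢ <;> linarith
  have hle : ∫ t in Sim, (vv t j / mm t ^ 2 - LN N (vv t) j / mm t ^ 2
      - (1 - thl N (vv t) l) * vv t j / mm t ^ 2 - (1 - thl N (vv t) k) * vv t j / mm t ^ 2)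
      ≤ ∫ t in Sim, xN N (vv t) j / mm t ^ 2 := by
    refine setIntegral_mono_on (((ij.sub iL).sub wl).sub wk) (xN_int hN j) Sim_meas
      fun t ht => ?_
    have h := xN_low hN (fun k => vv_nonneg ht k) hjl hjk hlk
    have hm : 0 ≤ mm t ^ 2 := by positivity
    have h2 := div_le_div_of_nonneg_right h hm
    refine le_trans (le_of_eq ?_) h2
    ring
  have y1 := integral_sub ((ij.sub iL).sub wl) wk
  have y2 := integral_sub (ij.sub iL) wl
  have y3 := integral_sub ij iL
  simp only [Pi.sub_apply] at y1 y2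
  rw [y1, y2, y3] at hle
  have h0 : (0 : ℝ) ≤ 1 / √2 := by positivity
  have h1 := mul_le_mul_of_nonneg_left hle h0
  have hwl := wl_le hN hd (Ne.symm hjl) hlk hjk
  have hwk := wl_le hN hd (Ne.symm hjk) (Ne.symm hlk) hjl
  have hb := B0_eq j
  rw [mul_sub, mul_sub, mul_sub, hb, hLint, hsum] at h1
  nlinarith

end Pool.Agent.Helper55.Mass
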