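import Pool.Agent.Helper55.MEI.D2
import Pool.Agent.Helper75.MEI.Sheet

/-!
# Project MEI, row D of the sheet
-/

namespace Helper55.MEI

open Helper22.MEI

/-- **row D** -/
theorem st_D : Helper75.MEI.ST_D := by
  intro f hf
  refine ⟨dfun_vol hf, ?_⟩
  have h := blaschke hf adm_f0
  show St f + St (sw f) - (St f0 + St (sw f0)) = 2 * (Vt f + Vt (sw f) - (Vt f0 + Vt (sw f0)))
  linarith

end Helper55.MEI
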