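import Pool.Agent.Helper55.MEI.Fill2

/-!
# The plane form of the face certificate
-/

namespace Pool.Agent.Helper55.Fill

open Set MeasureTheory Pool.Agent.Helper55.Sx Pool.Agent.Helper55.Mass Pool.Agent.Helper55.Apex

variable {N : Fin 3 → Fin 3 → ℝ} {b : Fin 3 → ℝ}

section
variable (hN : ∀ k m, 0 ≤ N k m) {c : ℝ} (hc : c < 1) (hcol : ∀ m, nc N m ≤ c)
include hN hc hcol

/-- **the residual**, sharp form -/
theorem rr_max (hb : ∀ k, 0 ≤ b k) {j l k : Fin 3} (hjl : j ≠ l) (hjk : j ≠ k) (hlk : l ≠ k) :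
    rr N b j ≤ max (1 - thl N b l) (1 - thl N b k) * b j := by
  have hl := thl_le_tu hN hc hcol hb l
  have hk := thl_le_tu hN hc hcol hb k
  have hl1 := thl_le_one (N := N) hb l
  have hbj := hb j
  have ml : (1 - tu N b l) * b j ≤ max (1 - thl N b l) (1 - thl N b k) * b j :=
    mul_le_mul_of_nonneg_right ((by linarith : 1 - tu N b l ≤ 1 - thl N b l).trans
      (le_max_left _ _)) hbj
  have mk : (1 - tu N b k) * b j ≤ max (1 - thl N b l) (1 - thl N b k) * b j :=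
    mul_le_mul_of_nonneg_right ((by linarith : 1 - tu N b k ≤ 1 - thl N b k).trans
      (le_max_right _ _)) hbj
  have m0 : 0 ≤ max (1 - thl N b l) (1 - thl N b k) * b j :=
    mul_nonneg ((sub_nonneg.2 hl1).trans (le_max_left _ _)) hbj
  unfold rr
  rw [LN_xx]
  have hcase : tq N b = tu N b j ∨ tq N b = tu N b l ∨ tq N b = tu N b k := by
    have hi : ∀ i : Fin 3, i = j ∨ i = l ∨ i = k := by
      intro i
      revert hjl hjk hlk
      clear * -
      revert i j l k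
      decide
    rcases tq_eq (N := N) (b := b) with h | h | h <;> rw [h]
    · rcases hi 0 with h' | h' | h' <;> rw [h'] <;> simp
    · rcases hi 1 with h' | h' | h' <;> rw [h'] <;> simp
    · rcases hi 2 with h' | h' | h' <;> rw [h'] <;> simp
  rcases lt_or_ge (b j) (LN N (uu N b) j) with h | h
  · have h0 := uu_zero hN hc hcol h
    have h3 : xx N b j = 0 := by rw [xx, h0, mul_zero]
    rw [h3, zero_add]
    rcases hcase with h4 | h4 | h4
    · have h1 : tu N b j = b j / LN N (uu N b) j := by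
        unfold tu
        rw [if_pos h]
      have hL : 0 < LN N (uu N b) j := lt_of_le_of_lt (hb j) h
      rw [h4, h1, div_mul_cancel₀ _ hL.ne']
      linarith
    · have h5 : tq N b * b j ≤ tq N b * LN N (uu N b) j :=
        mul_le_mul_of_nonneg_left h.le (tq_nonneg hN hc hcol hb)
      rw [h4] at h5 ⊢
      linarith
    · have h5 : tq N b * b j ≤ tq N b * LN N (uu N b) j :=
        mul_le_mul_of_nonneg_left h.le (tq_nonneg hN hc hcol hb)
      rw [h4] at h5 ⊢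
      linarith
  · have h1 := uu_exact hN hc hcol h
    have e : b j - (xx N b j + tq N b * LN N (uu N b) j) = (1 - tq N b) * b j := by
      have : xx N b j + tq N b * LN N (uu N b) j = tq N b * b j := by
        rw [xx, ← mul_add, h1]
      rw [this]; ring
    rw [e]
    rcases hcase with h4 | h4 | h4
    · have h5 : tu N b j = 1 := by
        unfold tu
        rw [if_neg (not_lt.2 h)]
      rw [h4, h5]
      linarith
    · rw [h4]
      exact ml
    · rw [h4]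
      exact mk

/-- the residual of the wall coordinate `l` itself vanishes if only this wall is violated -/
theorem rr_zero (hb : ∀ k, 0 ≤ b k) {j l k : Fin 3} (hjl : j ≠ l) (hjk : j ≠ k) (hlk : l ≠ k)
    (h1 : LN N b l ≤ b l) (h2 : LN N b k ≤ b k) : rr N b j = 0 := by
  have h3 := rr_max hN hc hcol hb hjl hjk hlk
  have h4 : thl N b l = 1 := by unfold thl; rw [if_neg (not_lt.2 h1)]
  have h5 : thl N b k = 1 := by unfold thl; rw [if_neg (not_lt.2 h2)]
  rw [h4, h5] at h3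
  simp only [sub_self, max_self, zero_mul] at h3
  exact le_antisymm h3 (rr_nonneg hN hc hcol hb j)

end

/-- **plane form of the value**: `ρ` = the linear function through the contact nodes -/
theorem value_plane {ι : Type*} [Fintype ι] (hN : ∀ k m, 0 ≤ N k m) {c : ℝ}
    (hc : c < 1) (hcol : ∀ m, nc N m ≤ c) {al : ι → ℝ × ℝ → ℝ}
    (hal : ∀ m, IntegrableOn (fun t => al m t / mm t ^ 2) Sim) {ζ : ι → Fin 3 → ℝ} {L : ι → ℝ}
    {R S ρ : Fin 3 → ℝ} (hρ : ∀ j, R j = ρ j + (N 0 j * ρ 0 + N 1 j * ρ 1 + N 2 j * ρ 2)) :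
    Pool.Agent.Helper55.Mass.Id (fun t => ∑ m, al m t * L m
        + (xe N al ζ t 0 * R 0 + xe N al ζ t 1 * R 1 + xe N al ζ t 2 * R 2)
        - (rr N (vv t) 0 * S 0 + rr N (vv t) 1 * S 1 + rr N (vv t) 2 * S 2))
    = ∑ m, (L m - ((ζ m 0 + LN N (ζ m) 0) * ρ 0 + (ζ m 1 + LN N (ζ m) 1) * ρ 1
        + (ζ m 2 + LN N (ζ m) 2) * ρ 2)) * Pool.Agent.Helper55.Mass.Id (al m)
      + B0 * (ρ 0 + ρ 1 + ρ 2)
      - ((S 0 + ρ 0) * Pool.Agent.Helper55.Mass.Id (fun t => rr N (vv t) 0)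
        + (S 1 + ρ 1) * Pool.Agent.Helper55.Mass.Id (fun t => rr N (vv t) 1)
        + (S 2 + ρ 2) * Pool.Agent.Helper55.Mass.Id (fun t => rr N (vv t) 2)) := by
  have v0 := vv_int 0
  have v1 := vv_int 1
  have v2 := vv_int 2
  have r0 := rr_int hN hc hcol (0 : Fin 3)
  have r1 := rr_int hN hc hcol (1 : Fin 3)
  have r2 := rr_int hN hc hcol (2 : Fin 3)
  set lm : ι → ℝ := fun m => L m - ((ζ m 0 + LN N (ζ m) 0) * ρ 0 + (ζ m 1 + LN N (ζ m) 1) * ρ 1
        + (ζ m 2 + LN N (ζ m) 2) * ρ 2) with hlm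
  have hE : ∀ t : ℝ × ℝ, (∑ m, al m t * L m
        + (xe N al ζ t 0 * R 0 + xe N al ζ t 1 * R 1 + xe N al ζ t 2 * R 2)
        - (rr N (vv t) 0 * S 0 + rr N (vv t) 1 * S 1 + rr N (vv t) 2 * S 2)) / mm t ^ 2
      = (∑ m, lm m * (al m t / mm t ^ 2))
        + (ρ 0 * (vv t 0 / mm t ^ 2) + ρ 1 * (vv t 1 / mm t ^ 2) + ρ 2 * (vv t 2 / mm t ^ 2))
        - ((S 0 + ρ 0) * (rr N (vv t) 0 / mm t ^ 2) + (S 1 + ρ 1) * (rr N (vv t) 1 / mm t ^ 2)
          + (S 2 + ρ 2) * (rr N (vv t) 2 / mm t ^ 2)) := by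
    intro t
    have b0 := xe_bal (N := N) al ζ t 0
    have b1 := xe_bal (N := N) al ζ t 1
    have b2 := xe_bal (N := N) al ζ t 2
    have e1 : ∑ m, lm m * (al m t / mm t ^ 2) = (∑ m, al m t * L m
        - ((∑ m, al m t * (ζ m 0 + LN N (ζ m) 0)) * ρ 0
          + (∑ m, al m t * (ζ m 1 + LN N (ζ m) 1)) * ρ 1
          + (∑ m, al m t * (ζ m 2 + LN N (ζ m) 2)) * ρ 2)) / mm t ^ 2 := by
      rw [Finset.sum_mul, Finset.sum_mul, Finset.sum_mul, ← Finset.sum_add_distrib,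
        ← Finset.sum_add_distrib, ← Finset.sum_sub_distrib, Finset.sum_div]
      refine Finset.sum_congr rfl fun m _ => ?_
      rw [hlm]
      ring
    rw [e1, hρ 0, hρ 1, hρ 2]
    simp only [LN] at b0 b1 b2 ⊢
    linear_combination (ρ 0 * b0 + ρ 1 * b1 + ρ 2 * b2) / mm t ^ 2
  have iA : IntegrableOn (fun t => ∑ m, lm m * (al m t / mm t ^ 2)) Sim :=
    integrable_finsetSum _ fun m _ => (hal m).const_mul _
  have iR : IntegrableOn (fun t => ρ 0 * (vv t 0 / mm t ^ 2) + ρ 1 * (vv t 1 / mm t ^ 2)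
      + ρ 2 * (vv t 2 / mm t ^ 2)) Sim :=
    ((v0.const_mul _).add (v1.const_mul _)).add (v2.const_mul _)
  have iS : IntegrableOn (fun t => (S 0 + ρ 0) * (rr N (vv t) 0 / mm t ^ 2)
      + (S 1 + ρ 1) * (rr N (vv t) 1 / mm t ^ 2) + (S 2 + ρ 2) * (rr N (vv t) 2 / mm t ^ 2)) Sim :=
    ((r0.const_mul _).add (r1.const_mul _)).add (r2.const_mul _)
  have w0 := B0_eq 0
  have w1 := B0_eq 1
  have w2 := B0_eq 2
  unfold Pool.Agent.Helper55.Mass.Id
  simp only [hE]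
  have k1 := integral_sub (iA.add iR) iS
  have k2 := integral_add iA iR
  have k3 := integral_add ((v0.const_mul (ρ 0)).add (v1.const_mul (ρ 1))) (v2.const_mul (ρ 2))
  have k4 := integral_add (v0.const_mul (ρ 0)) (v1.const_mul (ρ 1))
  have k5 := integral_add ((r0.const_mul (S 0 + ρ 0)).add (r1.const_mul (S 1 + ρ 1)))
    (r2.const_mul (S 2 + ρ 2))
  have k6 := integral_add (r0.const_mul (S 0 + ρ 0)) (r1.const_mul (S 1 + ρ 1))
  have k7 : ∫ t in Sim, ∑ m, lm m * (al m t / mm t ^ 2)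
      = ∑ m, lm m * ∫ t in Sim, al m t / mm t ^ 2 := by
    rw [integral_finsetSum _ fun m _ => (hal m).const_mul _]
    exact Finset.sum_congr rfl fun m _ => integral_const_mul _ _
  simp only [Pi.add_apply] at k1 k3 k5
  rw [k1, k2, k3, k4, k5, k6, k7]
  simp only [integral_const_mul]
  have k8 : ∑ m, lm m * (1 / √2 * ∫ t in Sim, al m t / mm t ^ 2)
      = 1 / √2 * ∑ m, lm m * ∫ t in Sim, al m t / mm t ^ 2 := by
    rw [Finset.mul_sum]
    exact Finset.sum_congr rfl fun m _ => by ring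
  rw [k8]
  linear_combination ρ 0 * w0 + ρ 1 * w1 + ρ 2 * w2

theorem rr_Id_nonneg (hN : ∀ k m, 0 ≤ N k m) {c : ℝ} (hc : c < 1) (hcol : ∀ m, nc N m ≤ c)
    (j : Fin 3) : 0 ≤ Pool.Agent.Helper55.Mass.Id fun t => rr N (vv t) j := by
  unfold Pool.Agent.Helper55.Mass.Id
  refine mul_nonneg (by positivity) (setIntegral_nonneg Sim_meas fun t ht => ?_)
  exact div_nonneg (rr_nonneg hN hc hcol (fun k => vv_nonneg ht k) j) (by positivity)

/-- **plane form**: `W/A' ≥ B₀ ∑ ρ - ∑ (S + ρ)⁺ w + ∑ (L - ρ·z) mass` -/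
theorem value_plane_ge {ι : Type*} [Fintype ι] (hN : ∀ k m, 0 ≤ N k m) (hd : ∀ k, N k k = 0)
    {c : ℝ} (hc : c < 1) (hcol : ∀ m, nc N m ≤ c) {al : ι → ℝ × ℝ → ℝ}
    (hal : ∀ m, IntegrableOn (fun t => al m t / mm t ^ 2) Sim) {ζ : ι → Fin 3 → ℝ} {L : ι → ℝ}
    {R S ρ : Fin 3 → ℝ} (hρ : ∀ j, R j = ρ j + (N 0 j * ρ 0 + N 1 j * ρ 1 + N 2 j * ρ 2)) :
    ∑ m, (L m - ((ζ m 0 + LN N (ζ m) 0) * ρ 0 + (ζ m 1 + LN N (ζ m) 1) * ρ 1
        + (ζ m 2 + LN N (ζ m) 2) * ρ 2)) * Pool.Agent.Helper55.Mass.Id (al m)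
      + B0 * (ρ 0 + ρ 1 + ρ 2)
      - (max (S 0 + ρ 0) 0 * wc N 0 1 2 + max (S 1 + ρ 1) 0 * wc N 1 0 2
        + max (S 2 + ρ 2) 0 * wc N 2 0 1)
    ≤ Pool.Agent.Helper55.Mass.Id (fun t => ∑ m, al m t * L m
        + (xe N al ζ t 0 * R 0 + xe N al ζ t 1 * R 1 + xe N al ζ t 2 * R 2)
        - (rr N (vv t) 0 * S 0 + rr N (vv t) 1 * S 1 + rr N (vv t) 2 * S 2)) := by
  rw [value_plane hN hc hcol hal hρ]
  have n0 := rr_mass hN hd hc hcol (j := 0) (l := 1) (k := 2) (by decide) (by decide) (by decide)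
  have n1 := rr_mass hN hd hc hcol (j := 1) (l := 0) (k := 2) (by decide) (by decide) (by decide)
  have n2 := rr_mass hN hd hc hcol (j := 2) (l := 0) (k := 1) (by decide) (by decide) (by decide)
  have p0 := rr_Id_nonneg hN hc hcol 0
  have p1 := rr_Id_nonneg hN hc hcol 1
  have p2 := rr_Id_nonneg hN hc hcol 2
  have key : ∀ {x I w : ℝ}, 0 ≤ I → I ≤ w → x * I ≤ max x 0 * w := by
    intro x I w h1 h2
    calc x * I ≤ max x 0 * I := mul_le_mul_of_nonneg_right (le_max_left _ _) h1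
      _ ≤ max x 0 * w := mul_le_mul_of_nonneg_left h2 (le_max_right _ _)
  have q0 := key (x := S 0 + ρ 0) p0 n0
  have q1 := key (x := S 1 + ρ 1) p1 n1
  have q2 := key (x := S 2 + ρ 2) p2 n2
  linarith

end Pool.Agent.Helper55.Fill
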