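import Pool.Agent.Helper55.MEI.ApexM

/-!
# The mass of the apex
-/

namespace Pool.Agent.Helper55.Apex

open Set MeasureTheory Matrix Pool.Agent.Helper55.Sx Pool.Agent.Helper55.Mass
open Helper75.MEI2 (vt Qf mu TC nn dd cc)
open Helper29.MEI (tent TD)

variable {N : Fin 3 → Fin 3 → ℝ}

theorem vt_vv (t : ℝ × ℝ) : vt t = vv t := rfl

theorem Qf_vv (t : ℝ × ℝ) : Qf (vt t) = mm t := by
  simp only [Qf, vt, mm, e2, t3, Matrix.cons_val_zero, Matrix.cons_val_one, Matrix.cons_val]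
  ring

theorem mem_Sim_vv {t : ℝ × ℝ} : (∀ i, 0 ≤ vt t i) ↔ t ∈ Sim := by
  constructor
  · intro h
    have h0 := h 0
    have h1 := h 1
    have h2 := h 2
    simp only [vt, Matrix.cons_val_zero, Matrix.cons_val_one, Matrix.cons_val] at h0 h1 h2
    exact ⟨h0, h1, by linarith⟩
  · intro h
    exact vv_nonneg h

/-- explicit bound of the mean of the quadratic form -/
noncomputable def cbar (c : ℝ) (A e : Fin 3 → ℝ) : ℝ :=
  1 / 4 - (A 0 * A 1 + A 0 * A 2 + A 1 * A 2) / 30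
    + ((e 0 * ((1 + A 0) * (1 + c + e 0) / 12 + 1 / 24)
      + e 1 * ((1 + A 1) * (1 + c + e 1) / 12 + 1 / 24))
      + e 2 * ((1 + A 2) * (1 + c + e 2) / 12 + 1 / 24))

section
variable (hN : ∀ k m, 0 ≤ N k m) (hd : ∀ k, N k k = 0) {c : ℝ} (hc : c ≤ 1 / 2)
  (hcol : ∀ m, nc N m ≤ c)
include hN hd hc hcol

theorem ee_nonneg (k : Fin 3) : 0 ≤ ee N k := by
  have h := (cols hN hd hc hcol k).1
  have h0 := MN_nonneg hN hd hc hcol 0 k
  have h1 := MN_nonneg hN hd hc hcol 1 k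
  have h2 := MN_nonneg hN hd hc hcol 2 k
  unfold ee
  fin_cases k
  · change 1 ≤ MN N 0 0 at h
    simp only [Fin.zero_eta] at *
    linarith
  · change 1 ≤ MN N 1 1 at h
    simp only [Fin.mk_one] at *
    linarith
  · change 1 ≤ MN N 2 2 at h
    simp only [Fin.reduceFinMk] at *
    linarith

theorem dd_ge : 1 - (MN N 0 1 + MN N 1 0) ≤ dd (MN N) 0 1 ∧
    1 - (MN N 0 2 + MN N 2 0) ≤ dd (MN N) 0 2 ∧ 1 - (MN N 1 2 + MN N 2 1) ≤ dd (MN N) 1 2 := by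
  have h0 := (cols hN hd hc hcol 0).1
  have h1 := (cols hN hd hc hcol 1).1
  have h2 := (cols hN hd hc hcol 2).1
  refine ⟨?_, ?_, ?_⟩
  · have g := ddA (p := MN N 0 0 - MN N 0 1) (q := MN N 1 1 - MN N 1 0)
      (r := MN N 2 0 - MN N 2 1) (s := MN N 0 1 + MN N 1 0) (by linarith)
    refine g.trans (le_of_eq ?_)
    simp only [dd, Qf]
    ring
  · have g := ddA (p := MN N 0 0 - MN N 0 2) (q := MN N 2 2 - MN N 2 0)
      (r := MN N 1 0 - MN N 1 2) (s := MN N 0 2 + MN N 2 0) (by linarith)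
    refine g.trans (le_of_eq ?_)
    simp only [dd, Qf]
    ring
  · have g := ddA (p := MN N 1 1 - MN N 1 2) (q := MN N 2 2 - MN N 2 1)
      (r := MN N 0 1 - MN N 0 2) (s := MN N 1 2 + MN N 2 1) (by linarith)
    refine g.trans (le_of_eq ?_)
    simp only [dd, Qf]
    ring

theorem cc_le {A : Fin 3 → ℝ} (hA : ∀ k, 0 ≤ A k) (hs : A 0 + A 1 + A 2 = 1) :
    cc (MN N) (A 0) (A 1) (A 2) ≤ cbar c A (ee N) := by
  obtain ⟨d01, d02, d12⟩ := dd_ge hN hd hc hcol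
  have n0 := (cols hN hd hc hcol 0).2.2
  have n1 := (cols hN hd hc hcol 1).2.2
  have n2 := (cols hN hd hc hcol 2).2.2
  have m00 := (cols hN hd hc hcol 0).1
  have m11 := (cols hN hd hc hcol 1).1
  have m22 := (cols hN hd hc hcol 2).1
  have m01 := MN_nonneg hN hd hc hcol 0 1
  have m02 := MN_nonneg hN hd hc hcol 0 2
  have m10 := MN_nonneg hN hd hc hcol 1 0
  have m12 := MN_nonneg hN hd hc hcol 1 2
  have m20 := MN_nonneg hN hd hc hcol 2 0
  have m21 := MN_nonneg hN hd hc hcol 2 1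
  have A0 := hA 0
  have A1 := hA 1
  have A2 := hA 2
  have p01 := mul_nonneg A0 A1
  have p02 := mul_nonneg A0 A2
  have p12 := mul_nonneg A1 A2
  have b01 : 1 + A 0 + A 1 + 2 * A 0 * A 1 ≤ 5 / 2 := by
    nlinarith [sq_nonneg (A 0 - A 1)]
  have b02 : 1 + A 0 + A 2 + 2 * A 0 * A 2 ≤ 5 / 2 := by
    nlinarith [sq_nonneg (A 0 - A 2)]
  have b12 : 1 + A 1 + A 2 + 2 * A 1 * A 2 ≤ 5 / 2 := by
    nlinarith [sq_nonneg (A 1 - A 2)]
  have g01 : (1 - (MN N 0 1 + MN N 1 0)) * (1 + A 0 + A 1 + 2 * A 0 * A 1)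
      ≤ dd (MN N) 0 1 * (1 + A 0 + A 1 + 2 * A 0 * A 1) :=
    mul_le_mul_of_nonneg_right d01 (by nlinarith)
  have g02 : (1 - (MN N 0 2 + MN N 2 0)) * (1 + A 0 + A 2 + 2 * A 0 * A 2)
      ≤ dd (MN N) 0 2 * (1 + A 0 + A 2 + 2 * A 0 * A 2) :=
    mul_le_mul_of_nonneg_right d02 (by nlinarith)
  have g12 : (1 - (MN N 1 2 + MN N 2 1)) * (1 + A 1 + A 2 + 2 * A 1 * A 2)
      ≤ dd (MN N) 1 2 * (1 + A 1 + A 2 + 2 * A 1 * A 2) :=
    mul_le_mul_of_nonneg_right d12 (by nlinarith)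
  have k01 : (MN N 0 1 + MN N 1 0) * (1 + A 0 + A 1 + 2 * A 0 * A 1)
      ≤ (MN N 0 1 + MN N 1 0) * (5 / 2) := mul_le_mul_of_nonneg_left b01 (by linarith)
  have k02 : (MN N 0 2 + MN N 2 0) * (1 + A 0 + A 2 + 2 * A 0 * A 2)
      ≤ (MN N 0 2 + MN N 2 0) * (5 / 2) := mul_le_mul_of_nonneg_left b02 (by linarith)
  have k12 : (MN N 1 2 + MN N 2 1) * (1 + A 1 + A 2 + 2 * A 1 * A 2)
      ≤ (MN N 1 2 + MN N 2 1) * (5 / 2) := mul_le_mul_of_nonneg_left b12 (by linarith)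
  have q0 := mul_le_mul_of_nonneg_right n0 (show 0 ≤ 1 + A 0 by linarith)
  have q1 := mul_le_mul_of_nonneg_right n1 (show 0 ≤ 1 + A 1 by linarith)
  have q2 := mul_le_mul_of_nonneg_right n2 (show 0 ≤ 1 + A 2 by linarith)
  -- column sums
  have hE : MN N 0 1 + MN N 1 0 + (MN N 0 2 + MN N 2 0) + (MN N 1 2 + MN N 2 1)
      ≤ ee N 0 + ee N 1 + ee N 2 := by
    unfold ee
    linarith
  unfold cc cbar
  have hA2 : A 2 = 1 - A 0 - A 1 := by linarith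
  have e1 : (1 + A 0) + (1 + A 1) + (1 + A 2) = 4 := by linarith
  have e2 : (1 + A 0 + A 1 + 2 * A 0 * A 1) + (1 + A 0 + A 2 + 2 * A 0 * A 2)
      + (1 + A 1 + A 2 + 2 * A 1 * A 2) = 5 + 2 * (A 0 * A 1 + A 0 * A 2 + A 1 * A 2) := by
    linear_combination 2 * hs
  linarith

theorem MN_mv {t : ℝ × ℝ} (ht : t ∈ Sim) (k : Fin 3) : vt t k ≤ (MN N *ᵥ vt t) k := by
  have hb := vv_nonneg ht
  have h := (cols hN hd hc hcol k).1
  have h0 := MN_nonneg hN hd hc hcol k 0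
  have h1 := MN_nonneg hN hd hc hcol k 1
  have h2 := MN_nonneg hN hd hc hcol k 2
  have b0 := hb 0
  have b1 := hb 1
  have b2 := hb 2
  rw [← vt_vv] at b0 b1 b2
  simp only [Matrix.mulVec, dotProduct, Fin.sum_univ_three]
  have p0 := mul_nonneg h0 b0
  have p1 := mul_nonneg h1 b1
  have p2 := mul_nonneg h2 b2
  fin_cases k
  · change 1 ≤ MN N 0 0 at h
    have := mul_le_mul_of_nonneg_right h b0
    simp only [Fin.zero_eta] at *
    linarith
  · change 1 ≤ MN N 1 1 at h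
    have := mul_le_mul_of_nonneg_right h b1
    simp only [Fin.mk_one] at *
    linarith
  · change 1 ≤ MN N 2 2 at h
    have := mul_le_mul_of_nonneg_right h b2
    simp only [Fin.reduceFinMk] at *
    linarith

theorem Qf_MN {t : ℝ × ℝ} (ht : t ∈ Sim) : 2 / 3 ≤ Qf (MN N *ᵥ vt t) := by
  have h := mm_pos t
  rw [← Qf_vv] at h
  refine h.trans ?_
  have hb := vv_nonneg ht
  have b0 := hb 0
  have b1 := hb 1
  have b2 := hb 2
  rw [← vt_vv] at b0 b1 b2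
  have m0 := MN_mv hN hd hc hcol ht 0
  have m1 := MN_mv hN hd hc hcol ht 1
  have m2 := MN_mv hN hd hc hcol ht 2
  unfold Qf
  have s0 : vt t 0 ^ 2 ≤ (MN N *ᵥ vt t) 0 ^ 2 := by nlinarith
  have s1 : vt t 1 ^ 2 ≤ (MN N *ᵥ vt t) 1 ^ 2 := by nlinarith
  have s2 : vt t 2 ^ 2 ≤ (MN N *ᵥ vt t) 2 ^ 2 := by nlinarith
  have s01 := mul_le_mul m0 m1 b1 (b0.trans m0)
  have s02 := mul_le_mul m0 m2 b2 (b0.trans m0)
  have s12 := mul_le_mul m1 m2 b2 (b1.trans m1)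
  linarith

end

theorem TD_Sim : TD = Sim := rfl

/-- the load on the apex: `ζ` dominates the contact coordinates of the apex -/
noncomputable def al (N : Fin 3 → Fin 3 → ℝ) (ζ : Fin 3 → ℝ) (t : ℝ × ℝ) : ℝ :=
  if ∀ k, LN N (vv t) k ≤ vv t k then
    min ((vv t 0 - LN N (vv t) 0) / ζ 0) (min ((vv t 1 - LN N (vv t) 1) / ζ 1)
      ((vv t 2 - LN N (vv t) 2) / ζ 2)) else 0

theorem al_zero {ζ : Fin 3 → ℝ} {t : ℝ × ℝ} (h : ∃ k, vv t k < LN N (vv t) k) :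
    al N ζ t = 0 := by
  obtain ⟨k, hk⟩ := h
  unfold al
  rw [if_neg]
  intro h
  exact absurd (h k) (not_le.2 hk)

theorem al_nonneg {ζ : Fin 3 → ℝ} (hζ : ∀ k, 0 < ζ k) (t : ℝ × ℝ) : 0 ≤ al N ζ t := by
  unfold al
  split_ifs with h
  · exact le_min (div_nonneg (sub_nonneg.2 (h 0)) (hζ 0).le)
      (le_min (div_nonneg (sub_nonneg.2 (h 1)) (hζ 1).le)
        (div_nonneg (sub_nonneg.2 (h 2)) (hζ 2).le))
  · exact le_rfl

theorem al_zeta {ζ : Fin 3 → ℝ} (hζ : ∀ k, 0 < ζ k) {t : ℝ × ℝ}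
    (h : ∀ k, LN N (vv t) k ≤ vv t k) (k : Fin 3) :
    al N ζ t * ζ k ≤ vv t k - LN N (vv t) k := by
  have hk : al N ζ t ≤ (vv t k - LN N (vv t) k) / ζ k := by
    unfold al
    rw [if_pos h]
    fin_cases k
    · exact min_le_left _ _
    · exact (min_le_right _ _).trans (min_le_left _ _)
    · exact (min_le_right _ _).trans (min_le_right _ _)
  exact (le_div_iff₀ (hζ k)).1 hk

/-- first hypothesis of `mass_extra` -/
theorem al_h0 {ζ u : Fin 3 → ℝ} (t : ℝ × ℝ) (h : ∃ k, vv t k < LN N (vv t) k) (k : Fin 3) :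
    al N ζ t * u k = 0 := by
  rw [al_zero h, zero_mul]

/-- second hypothesis of `mass_extra` -/
theorem al_h1 {ζ u : Fin 3 → ℝ} (hζ : ∀ k, 0 < ζ k) (hu : ∀ k, u k - LN N u k ≤ ζ k)
    {t : ℝ × ℝ} (h : ∀ k, LN N (vv t) k ≤ vv t k) (k : Fin 3) :
    al N ζ t * u k - LN N (fun i => al N ζ t * u i) k ≤ vv t k - LN N (vv t) k := by
  have e : al N ζ t * u k - LN N (fun i => al N ζ t * u i) k
      = al N ζ t * (u k - LN N u k) := by
    simp only [LN]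
    ring
  rw [e]
  exact (mul_le_mul_of_nonneg_left (hu k) (al_nonneg hζ t)).trans (al_zeta hζ h k)

/-- the apex load respects the directions -/
theorem al_le {ζ u : Fin 3 → ℝ} (hN : ∀ k m, 0 ≤ N k m) {c : ℝ} (hc : c < 1)
    (hcol : ∀ m, nc N m ≤ c) (hζ : ∀ k, 0 < ζ k)
    (hu : ∀ k, u k - LN N u k ≤ ζ k) {t : ℝ × ℝ} (ht : t ∈ Sim) (k : Fin 3) :
    al N ζ t * u k ≤ vv t k := by
  by_cases h : ∀ k, LN N (vv t) k ≤ vv t k
  · have h2 := mmat hN hc hcol (x := fun k => vv t k - al N ζ t * u k) (fun k => by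
      have h1 := al_h1 (u := u) hζ hu h k
      have e : LN N (fun k => vv t k - al N ζ t * u k) k
          = LN N (vv t) k - LN N (fun i => al N ζ t * u i) k := by
        simp only [LN]
        ring
      rw [e]
      linarith) k
    exact sub_nonneg.1 h2
  · push Not at h
    rw [al_h0 t h]
    exact vv_nonneg ht k

theorem al_meas {ζ : Fin 3 → ℝ} : Measurable (al N ζ) := by
  unfold al
  have hm : ∀ k, Measurable fun t => (vv t k - LN N (vv t) k) / ζ k := fun k =>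
    ((vv_meas k).sub (LN_meas k)).div_const _
  have hs : MeasurableSet {t : ℝ × ℝ | ∀ k, LN N (vv t) k ≤ vv t k} := by
    have : {t : ℝ × ℝ | ∀ k, LN N (vv t) k ≤ vv t k}
        = ⋂ k, {t : ℝ × ℝ | LN N (vv t) k ≤ vv t k} := by
      ext t
      simp
    rw [this]
    exact MeasurableSet.iInter fun k => measurableSet_le (LN_meas k) (vv_meas k)
  exact Measurable.ite hs ((hm 0).min ((hm 1).min (hm 2))) measurable_const

theorem al_bound {ζ : Fin 3 → ℝ} (hN : ∀ k m, 0 ≤ N k m) (hζ : ∀ k, 0 < ζ k) {t : ℝ × ℝ}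
    (ht : t ∈ Sim) : al N ζ t ≤ 1 / ζ 0 := by
  have h0 := vv_nonneg ht
  by_cases h : ∀ k, LN N (vv t) k ≤ vv t k
  · rw [le_div_iff₀ (hζ 0)]
    have h1 := al_zeta hζ h 0
    have h2 := LN_nonneg hN h0 0
    have h3 := vv_le ht 0
    linarith
  · push Not at h
    rw [al_zero h]
    exact (one_div_pos.2 (hζ 0)).le

theorem al_int {ζ : Fin 3 → ℝ} (hN : ∀ k m, 0 ≤ N k m) (hζ : ∀ k, 0 < ζ k) :
    IntegrableOn (fun t => al N ζ t / mm t ^ 2) Sim :=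
  intOn (C := 1 / ζ 0) al_meas fun t ht => by
    rw [abs_of_nonneg (al_nonneg hζ t)]
    exact al_bound hN hζ ht

theorem al_int_mul {ζ : Fin 3 → ℝ} (hN : ∀ k m, 0 ≤ N k m) (hζ : ∀ k, 0 < ζ k) (v : ℝ) :
    IntegrableOn (fun t => al N ζ t * v / mm t ^ 2) Sim := by
  have h : IntegrableOn (fun t => al N ζ t / mm t ^ 2 * v) Sim := (al_int hN hζ).mul_const v
  exact h.congr_fun (fun t _ => by simp only; ring) Sim_meas

section
variable (hN : ∀ k m, 0 ≤ N k m) (hd : ∀ k, N k k = 0) {c : ℝ} (hc : c ≤ 1 / 2)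
  (hcol : ∀ m, nc N m ≤ c)
include hN hd hc hcol

theorem mem_TC {t : ℝ × ℝ} : t ∈ TC (MN N) ↔ t ∈ Sim ∧ ∀ k, LN N (vv t) k ≤ vv t k := by
  have h1 : ∀ k, mu (MN N) (vt t) k = vv t k - LN N (vv t) k := fun k =>
    mu_MN hN hd hc hcol (vt t) k
  constructor
  · rintro ⟨h2, h3⟩
    refine ⟨mem_Sim_vv.1 h2, fun k => ?_⟩
    have := h3 k
    rw [h1] at this
    linarith
  · rintro ⟨h2, h3⟩
    refine ⟨mem_Sim_vv.2 h2, fun k => ?_⟩
    rw [h1]
    linarith [h3 k]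

theorem al_Sim (ζ : Fin 3 → ℝ) : ∫ t in Sim, al N ζ t / mm t ^ 2
    = ∫ t in TC (MN N), min (mu (MN N) (vt t) 0 / ζ 0) (min (mu (MN N) (vt t) 1 / ζ 1)
      (mu (MN N) (vt t) 2 / ζ 2)) / Qf (vt t) ^ 2 := by
  have hsub : TC (MN N) ⊆ Sim := fun t ht => ((mem_TC hN hd hc hcol).1 ht).1
  have e1 : ∫ t in Sim, al N ζ t / mm t ^ 2 = ∫ t in TC (MN N), al N ζ t / mm t ^ 2 := by
    refine setIntegral_eq_of_subset_of_forall_sdiff_eq_zero Sim_meas hsub fun t ht => ?_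
    have h : ∃ k, vv t k < LN N (vv t) k := by
      by_contra h
      push Not at h
      exact ht.2 ((mem_TC hN hd hc hcol).2 ⟨ht.1, h⟩)
    rw [al_zero h, zero_div]
  rw [e1]
  refine setIntegral_congr_fun (Helper75.MEI2.TC_meas _) fun t ht => ?_
  have h := ((mem_TC hN hd hc hcol).1 ht).2
  simp only [mu_MN hN hd hc hcol, Qf_vv]
  unfold al
  rw [if_pos h]
  rfl

theorem cc_ge {A : Fin 3 → ℝ} (hA : ∀ k, 0 < A k) (hs : A 0 + A 1 + A 2 = 1) :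
    2 / 9 ≤ cc (MN N) (A 0) (A 1) (A 2) := by
  have h1 : ∫ t in TD, tent (A 0) (A 1) (A 2) t.1 t.2 = 1 / 6 := by
    have h := Helper75.MEI2.tent_qp (hA 0) (hA 1) (hA 2) hs 1 0 0 0 0 0
    have e : (fun t : ℝ × ℝ => tent (A 0) (A 1) (A 2) t.1 t.2
        * Helper75.MEI2.qp 1 0 0 0 0 0 t.1 t.2) =
        fun t => tent (A 0) (A 1) (A 2) t.1 t.2 := by
      funext t
      unfold Helper75.MEI2.qp
      ring
    rw [e] at h
    rw [h]
    unfold Helper75.MEI2.qv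
    ring
  have h2 : ∫ t in TD, tent (A 0) (A 1) (A 2) t.1 t.2 * Qf (MN N *ᵥ vt t)
      = cc (MN N) (A 0) (A 1) (A 2) / 2 := by
    simp only [Helper75.MEI2.Qf_mv]
    rw [Helper75.MEI2.tent_qp (hA 0) (hA 1) (hA 2) hs, Helper75.MEI2.qv_cc _ hs]
  have hf : Continuous fun t : ℝ × ℝ => tent (A 0) (A 1) (A 2) t.1 t.2 :=
    Helper29.MEI.tent_cont _ _ _
  have i1 : IntegrableOn (fun t : ℝ × ℝ => tent (A 0) (A 1) (A 2) t.1 t.2) TD :=
    hf.continuousOn.integrableOn_compact Helper29.MEI.TD_compact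
  have i2 : IntegrableOn (fun t : ℝ × ℝ => tent (A 0) (A 1) (A 2) t.1 t.2
      * Qf (MN N *ᵥ vt t)) TD :=
    (hf.mul ((Helper75.MEI2.Qf_cont.comp (Helper75.MEI2.mv_cont _)).comp
      Helper75.MEI2.vt_cont)).continuousOn.integrableOn_compact Helper29.MEI.TD_compact
  have h3 : ∫ t in TD, 2 / 3 * tent (A 0) (A 1) (A 2) t.1 t.2
      ≤ ∫ t in TD, tent (A 0) (A 1) (A 2) t.1 t.2 * Qf (MN N *ᵥ vt t) := by
    refine setIntegral_mono_on (i1.const_mul _) i2 Helper29.MEI.TD_meas fun t ht => ?_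
    have h4 := Qf_MN hN hd hc hcol (t := t) ht
    have h5 := Helper29.MEI.tent_nonneg (hA 0) (hA 1) (hA 2) ht
    nlinarith
  rw [integral_const_mul, h1, h2] at h3
  linarith

/-- **the mass of the apex** -/
theorem apex_mass {ζ : Fin 3 → ℝ} (hζ : ∀ k, 0 < ζ k) {Z : ℝ} (hZ : Z = ζ 0 + ζ 1 + ζ 2) :
    1 / √2 * (1 / (54 * Z * cbar c (fun k => ζ k / Z) (ee N) ^ 2)) ≤ Id (al N ζ) := by
  have hZ0 : 0 < Z := by rw [hZ]; linarith [hζ 0, hζ 1, hζ 2]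
  have hA : ∀ k, 0 < ζ k / Z := fun k => div_pos (hζ k) hZ0
  have hs : ζ 0 / Z + ζ 1 / Z + ζ 2 / Z = 1 := by
    rw [← add_div, ← add_div, ← hZ, div_self hZ0.ne']
  have h1 := Helper75.MEI2.tentC (MN_nonneg hN hd hc hcol)
    (lt_of_lt_of_le zero_lt_one (det_MN hN hd hc hcol)) hζ hZ
  have h2 := cc_le hN hd hc hcol (A := fun k => ζ k / Z) (fun k => (hA k).le) hs
  have h3 := cc_ge hN hd hc hcol (A := fun k => ζ k / Z) hA hs
  have h4 := det_MN hN hd hc hcol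
  unfold Pool.Agent.Helper55.Mass.Id
  refine mul_le_mul_of_nonneg_left ?_ (by positivity)
  rw [al_Sim hN hd hc hcol]
  refine le_trans ?_ h1
  set C := cc (MN N) (ζ 0 / Z) (ζ 1 / Z) (ζ 2 / Z)
  set D := cbar c (fun k => ζ k / Z) (ee N)
  have hC0 : 0 < C := by linarith
  have hCD : C ^ 2 ≤ D ^ 2 := by nlinarith
  have hp : 0 < 54 * Z * C ^ 2 := by positivity
  have hq : 54 * Z * C ^ 2 ≤ 54 * Z * D ^ 2 := mul_le_mul_of_nonneg_left hCD (by positivity)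
  calc 1 / (54 * Z * D ^ 2) ≤ 1 / (54 * Z * C ^ 2) := one_div_le_one_div_of_le hp hq
    _ ≤ (MN N).det / (54 * Z * C ^ 2) := div_le_div_of_nonneg_right h4 hp.le

/-- the column excess in terms of the column sums -/
theorem ee_le (k : Fin 3) : ee N k ≤ nc N k / (1 - c) := by
  rw [le_div_iff₀ (by linarith)]
  have := (cols hN hd hc hcol k).2.1
  linarith

end

theorem cbar_mono {c : ℝ} (hc0 : 0 ≤ c) {A e e' : Fin 3 → ℝ} (hA : ∀ k, 0 ≤ A k)
    (he : ∀ k, 0 ≤ e k) (h : ∀ k, e k ≤ e' k) : cbar c A e ≤ cbar c A e' := by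
  have key : ∀ k, e k * ((1 + A k) * (1 + c + e k) / 12 + 1 / 24)
      ≤ e' k * ((1 + A k) * (1 + c + e' k) / 12 + 1 / 24) := by
    intro k
    have hk := hA k
    have hek := he k
    have h1 : (1 + A k) * (1 + c + e k) ≤ (1 + A k) * (1 + c + e' k) :=
      mul_le_mul_of_nonneg_left (by linarith [h k]) (by linarith)
    have h2 : 0 ≤ (1 + A k) * (1 + c + e k) := mul_nonneg (by linarith) (by linarith)
    exact mul_le_mul (h k) (by linarith) (by linarith) ((he k).trans (h k))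
  have h0 := key 0
  have h1 := key 1
  have h2 := key 2
  unfold cbar
  linarith

theorem sqrt2_le : √2 ≤ 1.41422 := by
  rw [Real.sqrt_le_left (by norm_num)]
  norm_num

/-- linear form of the bound -/
theorem apex_lin {Z D : ℝ} (hZ : 0 < Z) (hD : 0 < D) :
    0.2095 / Z * (1 - 8 * (D - 1 / 4)) ≤ 1 / √2 * (1 / (54 * Z * D ^ 2)) := by
  have h1 : 16 * (1 - 8 * (D - 1 / 4)) ≤ 1 / D ^ 2 := by
    rw [le_div_iff₀ (by positivity)]
    -- `16 (3 - 8 D) D^2 ≤ 1`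
    nlinarith [mul_nonneg (sq_nonneg (4 * D - 1)) (show 0 ≤ 1 + 8 * D by linarith)]
  have hs := sqrt2_le
  have hs0 : 0 < √2 := by positivity
  have e1 : 1 / √2 * (1 / (54 * Z * D ^ 2)) = 1 / (54 * √2) / Z * (1 / D ^ 2) := by
    field_simp
  rw [e1]
  have h0 : 0 ≤ 1 / D ^ 2 := by positivity
  rcases le_or_gt (1 - 8 * (D - 1 / 4)) 0 with h | h
  · have h2 : 0 ≤ 1 / (54 * √2) / Z * (1 / D ^ 2) := by positivity
    have h3 : 0.2095 / Z * (1 - 8 * (D - 1 / 4)) ≤ 0 :=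
      mul_nonpos_of_nonneg_of_nonpos (by positivity) h
    linarith
  · have h2 : 0.2095 / Z ≤ 1 / (54 * √2) / Z * 16 := by
      have : (0.2095 : ℝ) ≤ 1 / (54 * √2) * 16 := by
        rw [one_div, ← div_le_iff₀ (by norm_num : (0 : ℝ) < 16)]
        rw [le_inv_comm₀ (by norm_num) (by positivity)]
        norm_num
        linarith
      calc 0.2095 / Z ≤ 1 / (54 * √2) * 16 / Z := div_le_div_of_nonneg_right this hZ.le
        _ = _ := by ring
    calc 0.2095 / Z * (1 - 8 * (D - 1 / 4))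
        ≤ 1 / (54 * √2) / Z * 16 * (1 - 8 * (D - 1 / 4)) := mul_le_mul_of_nonneg_right h2 h.le
      _ = 1 / (54 * √2) / Z * (16 * (1 - 8 * (D - 1 / 4))) := by ring
      _ ≤ _ := mul_le_mul_of_nonneg_left h1 (by positivity)

/-- **the mass of the apex, linear form** -/
theorem apex_X (hN : ∀ k m, 0 ≤ N k m) (hd : ∀ k, N k k = 0) {c : ℝ} (hc : c ≤ 1 / 2)
    (hcol : ∀ m, nc N m ≤ c) {ζ : Fin 3 → ℝ} (hζ : ∀ k, 0 < ζ k) {Z : ℝ}
    (hZ : Z = ζ 0 + ζ 1 + ζ 2) {e : Fin 3 → ℝ} (he : ∀ k, nc N k ≤ (1 - c) * e k) :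
    0.2095 / Z * (1 + 8 / 30 * ((ζ 0 * ζ 1 + ζ 0 * ζ 2 + ζ 1 * ζ 2) / Z ^ 2)
      - ((e 0 * ((1 + ζ 0 / Z) * (1 + c + e 0) * (2 / 3) + 1 / 3)
      + e 1 * ((1 + ζ 1 / Z) * (1 + c + e 1) * (2 / 3) + 1 / 3))
      + e 2 * ((1 + ζ 2 / Z) * (1 + c + e 2) * (2 / 3) + 1 / 3))) ≤ Id (al N ζ) := by
  have hZ0 : 0 < Z := by rw [hZ]; linarith [hζ 0, hζ 1, hζ 2]
  have hA : ∀ k, 0 ≤ ζ k / Z := fun k => (div_pos (hζ k) hZ0).le
  have hs : ζ 0 / Z + ζ 1 / Z + ζ 2 / Z = 1 := by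
    rw [← add_div, ← add_div, ← hZ, div_self hZ0.ne']
  have hc0 : 0 ≤ c := by
    have := hcol 0
    have h1 := hN 0 0
    have h2 := hN 1 0
    have h3 := hN 2 0
    simp only [nc] at this
    linarith
  have hee : ∀ k, ee N k ≤ e k := fun k => by
    have h := (cols hN hd hc hcol k).2.1
    have h2 := he k
    exact le_of_mul_le_mul_left (h.trans h2) (by linarith)
  have h1 := apex_mass hN hd hc hcol hζ hZ
  have h2 := cbar_mono hc0 (A := fun k => ζ k / Z) hA (ee_nonneg hN hd hc hcol) hee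
  have h3 := cc_le hN hd hc hcol (A := fun k => ζ k / Z) hA hs
  have h4 := cc_ge hN hd hc hcol (A := fun k => ζ k / Z) (fun k => div_pos (hζ k) hZ0) hs
  have hD1 : 0 < cbar c (fun k => ζ k / Z) (ee N) := by linarith
  have h5 := apex_lin hZ0 hD1
  refine le_trans ?_ (h5.trans h1)
  refine mul_le_mul_of_nonneg_left ?_ (by positivity)
  have e1 : 1 - 8 * (cbar c (fun k => ζ k / Z) e - 1 / 4)
      = 1 + 8 / 30 * ((ζ 0 * ζ 1 + ζ 0 * ζ 2 + ζ 1 * ζ 2) / Z ^ 2)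
      - ((e 0 * ((1 + ζ 0 / Z) * (1 + c + e 0) * (2 / 3) + 1 / 3)
      + e 1 * ((1 + ζ 1 / Z) * (1 + c + e 1) * (2 / 3) + 1 / 3))
      + e 2 * ((1 + ζ 2 / Z) * (1 + c + e 2) * (2 / 3) + 1 / 3)) := by
    unfold cbar
    field_simp
    ring
  rw [← e1]
  linarith

end Pool.Agent.Helper55.Apex
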