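import Pool.Agent.Helper55.MEI.Mass

/-!
# Extra loads and the closed form of the face certificate
-/

namespace Pool.Agent.Helper55.Mass

open Set MeasureTheory Pool.Agent.Helper55.Sx

variable {N : Fin 3 → Fin 3 → ℝ}

theorem LN_sub (b e : Fin 3 → ℝ) (k : Fin 3) :
    LN N (fun i => b i - e i) k = LN N b k - LN N e k := by
  simp only [LN]; ring

/-- the filling of the rest is exactly linear in the extra load -/
theorem xN_sub {b e : Fin 3 → ℝ} (h0 : (∃ k, b k < LN N b k) → ∀ k, e k = 0)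
    (h1 : (∀ k, LN N b k ≤ b k) → ∀ k, e k - LN N e k ≤ b k - LN N b k) (j : Fin 3) :
    xN N (fun i => b i - e i) j = xN N b j - (e j - LN N e j) := by
  by_cases h : ∃ k, b k < LN N b k
  · have he := h0 h
    have e1 : (fun i => b i - e i) = b := by
      funext i
      rw [he i, sub_zero]
    have e2 : LN N e j = 0 := by simp [LN, he]
    rw [e1, he j, e2]
    ring
  · have hall : ∀ k, LN N b k ≤ b k := fun k => not_lt.1 fun hk => h ⟨k, hk⟩
    have hle := h1 hall
    have ht : ∀ l, thl N b l = 1 := fun l => by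
      unfold thl
      rw [if_neg (not_lt.2 (hall l))]
    have ht' : ∀ l, thl N (fun i => b i - e i) l = 1 := fun l => by
      unfold thl
      rw [LN_sub, if_neg]
      rw [not_lt]
      simp only
      linarith [hle l]
    unfold xN thN
    rw [ht, ht, ht, ht', ht', ht', LN_sub]
    simp only [min_self, one_mul]
    rw [max_eq_left (by linarith [hle j]), max_eq_left (by linarith [hall j])]
    ring

/-- direction integral of a degree one function given in the flat coordinates -/
noncomputable def Id (f : ℝ × ℝ → ℝ) : ℝ := 1 / √2 * ∫ t in Sim, f t / mm t ^ 2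

theorem Id_sub {f g : ℝ × ℝ → ℝ} (hf : IntegrableOn (fun t => f t / mm t ^ 2) Sim)
    (hg : IntegrableOn (fun t => g t / mm t ^ 2) Sim) :
    Id (fun t => f t - g t) = Id f - Id g := by
  unfold Id
  have h := integral_sub hf hg
  have e : ∀ t : ℝ × ℝ, (f t - g t) / mm t ^ 2 = f t / mm t ^ 2 - g t / mm t ^ 2 := fun t => by
    ring
  simp only [e]
  rw [h, mul_sub]

theorem Id_add {f g : ℝ × ℝ → ℝ} (hf : IntegrableOn (fun t => f t / mm t ^ 2) Sim)
    (hg : IntegrableOn (fun t => g t / mm t ^ 2) Sim) :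
    Id (fun t => f t + g t) = Id f + Id g := by
  unfold Id
  have h := integral_add hf hg
  have e : ∀ t : ℝ × ℝ, (f t + g t) / mm t ^ 2 = f t / mm t ^ 2 + g t / mm t ^ 2 := fun t => by
    ring
  simp only [e]
  rw [h, mul_add]

theorem Id_const (c : ℝ) (f : ℝ × ℝ → ℝ) : Id (fun t => c * f t) = c * Id f := by
  unfold Id
  have e : ∀ t : ℝ × ℝ, c * f t / mm t ^ 2 = c * (f t / mm t ^ 2) := fun t => by ring
  simp only [e]
  rw [integral_const_mul]
  ring

theorem Id_mono {f g : ℝ × ℝ → ℝ} (hf : IntegrableOn (fun t => f t / mm t ^ 2) Sim)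
    (hg : IntegrableOn (fun t => g t / mm t ^ 2) Sim) (h : ∀ t ∈ Sim, f t ≤ g t) :
    Id f ≤ Id g := by
  unfold Id
  refine mul_le_mul_of_nonneg_left ?_ (by positivity)
  exact setIntegral_mono_on hf hg Sim_meas fun t ht =>
    div_le_div_of_nonneg_right (h t ht) (by positivity)

theorem Id_congr {f g : ℝ × ℝ → ℝ} (h : ∀ t ∈ Sim, f t = g t) : Id f = Id g := by
  unfold Id
  congr 1
  exact setIntegral_congr_fun Sim_meas fun t ht => by
    simp only [h t ht]

theorem Id_LN {e : ℝ × ℝ → Fin 3 → ℝ}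
    (he : ∀ k, IntegrableOn (fun t => e t k / mm t ^ 2) Sim) (j : Fin 3) :
    IntegrableOn (fun t => LN N (e t) j / mm t ^ 2) Sim ∧
    Id (fun t => LN N (e t) j) = LN N (fun k => Id fun t => e t k) j := by
  have i0 : IntegrableOn (fun t => N j 0 * e t 0 / mm t ^ 2) Sim := by
    have hi : IntegrableOn (fun t => N j 0 * (e t 0 / mm t ^ 2)) Sim := (he 0).const_mul _
    exact hi.congr_fun (fun t _ => by simp only; ring) Sim_meas
  have i1 : IntegrableOn (fun t => N j 1 * e t 1 / mm t ^ 2) Sim := by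
    have hi : IntegrableOn (fun t => N j 1 * (e t 1 / mm t ^ 2)) Sim := (he 1).const_mul _
    exact hi.congr_fun (fun t _ => by simp only; ring) Sim_meas
  have i2 : IntegrableOn (fun t => N j 2 * e t 2 / mm t ^ 2) Sim := by
    have hi : IntegrableOn (fun t => N j 2 * (e t 2 / mm t ^ 2)) Sim := (he 2).const_mul _
    exact hi.congr_fun (fun t _ => by simp only; ring) Sim_meas
  have i01 : IntegrableOn (fun t => (N j 0 * e t 0 + N j 1 * e t 1) / mm t ^ 2) Sim := by
    have hi : IntegrableOn (fun t => N j 0 * e t 0 / mm t ^ 2 + N j 1 * e t 1 / mm t ^ 2) Sim :=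
      i0.add i1
    exact hi.congr_fun (fun t _ => by simp only; ring) Sim_meas
  refine ⟨?_, ?_⟩
  · have hi : IntegrableOn (fun t => (N j 0 * e t 0 + N j 1 * e t 1) / mm t ^ 2
        + N j 2 * e t 2 / mm t ^ 2) Sim := i01.add i2
    exact hi.congr_fun (fun t _ => by simp only [LN]; ring) Sim_meas
  · have h1 := Id_add i01 i2
    have h2 := Id_add i0 i1
    simp only [LN]
    rw [h1, h2, Id_const, Id_const, Id_const]

/-- **masses with extra loads** -/
theorem mass_extra (hN : ∀ k m, 0 ≤ N k m) {e : ℝ × ℝ → Fin 3 → ℝ}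
    (he : ∀ k, IntegrableOn (fun t => e t k / mm t ^ 2) Sim)
    (h0 : ∀ t ∈ Sim, (∃ k, vv t k < LN N (vv t) k) → ∀ k, e t k = 0)
    (h1 : ∀ t ∈ Sim, (∀ k, LN N (vv t) k ≤ vv t k) →
      ∀ k, e t k - LN N (e t) k ≤ vv t k - LN N (vv t) k) (j : Fin 3) :
    Id (fun t => xN N (fun i => vv t i - e t i) j)
      = Id (fun t => xN N (vv t) j) - (Id (fun t => e t j) - LN N (fun k => Id fun t => e t k) j) := by
  obtain ⟨iL, eL⟩ := Id_LN (N := N) he j
  have e1 : Id (fun t => xN N (fun i => vv t i - e t i) j)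
      = Id (fun t => xN N (vv t) j - (e t j - LN N (e t) j)) :=
    Id_congr fun t ht => xN_sub (h0 t ht) (h1 t ht) j
  have iq : IntegrableOn (fun t => (e t j - LN N (e t) j) / mm t ^ 2) Sim := by
    have hi : IntegrableOn (fun t => e t j / mm t ^ 2 - LN N (e t) j / mm t ^ 2) Sim :=
      (he j).sub iL
    exact hi.congr_fun (fun t _ => by simp only; ring) Sim_meas
  rw [e1, Id_sub (xN_int hN j) iq, Id_sub (he j) iL, eL]

/-- **closed form of the value** (arithmetic): `X_j` the masses of the filling without extra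
loads, `E_k` the masses of the extra loads, `V` their value, `R_j` the value of the node `j`,
`S_k` the caps.  The first order inner terms cancel. -/
theorem face_value {B V : ℝ} {X E R S w : Fin 3 → ℝ} (hN : ∀ k m, 0 ≤ N k m)
    (hd : ∀ k, N k k = 0) (hE : ∀ k, 0 ≤ E k) (hR : ∀ k, 0 ≤ R k) (hS : ∀ k, 0 ≤ S k)
    (hX : ∀ j, B * (1 - (N j 0 + N j 1 + N j 2)) - w j ≤ X j) :
    V - ∑ j, (E j - LN N E j) * R j + ∑ j, (B * (1 - (N j 0 + N j 1 + N j 2)) - w j) * R j
      - ∑ j, w j * (S j + ∑ k, N k j * S k)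
      - B * ∑ j, (N j 0 + N j 1 + N j 2) * ∑ k, N k j * S k
      ≤ V + ∑ j, (X j - (E j - LN N E j)) * R j
        - ∑ k, S k * (B - E k - (X k - (E k - LN N E k))
          - LN N (fun m => X m - (E m - LN N E m)) k) := by
  have hY : ∀ j, 0 ≤ S j + (N 0 j * S 0 + N 1 j * S 1 + N 2 j * S 2) := fun j => by
    have := mul_nonneg (hN 0 j) (hS 0)
    have := mul_nonneg (hN 1 j) (hS 1)
    have := mul_nonneg (hN 2 j) (hS 2)
    linarith [hS j]
  have g : ∀ j, (B * (1 - (N j 0 + N j 1 + N j 2)) - w j)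
      * (R j + (S j + (N 0 j * S 0 + N 1 j * S 1 + N 2 j * S 2)))
      ≤ X j * (R j + (S j + (N 0 j * S 0 + N 1 j * S 1 + N 2 j * S 2))) := fun j =>
    mul_le_mul_of_nonneg_right (hX j) (by linarith [hR j, hY j])
  have g0 := g 0
  have g1 := g 1
  have g2 := g 2
  have hLL : 0 ≤ S 0 * LN N (LN N E) 0 + S 1 * LN N (LN N E) 1 + S 2 * LN N (LN N E) 2 := by
    have hL := LN_nonneg hN hE
    have hL2 := LN_nonneg hN hL
    have := mul_nonneg (hS 0) (hL2 0)
    have := mul_nonneg (hS 1) (hL2 1)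
    have := mul_nonneg (hS 2) (hL2 2)
    linarith
  simp only [LN, hd, zero_mul, add_zero, zero_add] at g0 g1 g2 hLL
  simp only [Fin.sum_univ_three, LN, hd, zero_mul, add_zero, zero_add]
  linarith

end Pool.Agent.Helper55.Mass
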