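import Pool.Agent.Helper75.MEI2.TentC
import Pool.Agent.Helper55.MEI.Mass2

/-!
# The matrix of the leaks: `M = (1 - N)⁻¹`
-/

namespace Pool.Agent.Helper55.Apex

open Set MeasureTheory Matrix Pool.Agent.Helper55.Sx Pool.Agent.Helper55.Mass

variable {N : Fin 3 → Fin 3 → ℝ}

/-- column sums of the leaks -/
def nc (N : Fin 3 → Fin 3 → ℝ) (m : Fin 3) : ℝ := N 0 m + N 1 m + N 2 m

/-- one minus the matrix of the leaks -/
def IN (N : Fin 3 → Fin 3 → ℝ) : Matrix (Fin 3) (Fin 3) ℝ := 1 - Matrix.of N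

/-- its inverse -/
noncomputable def MN (N : Fin 3 → Fin 3 → ℝ) : Matrix (Fin 3) (Fin 3) ℝ := (IN N)⁻¹

theorem IN_mul (b : Fin 3 → ℝ) (k : Fin 3) : (IN N *ᵥ b) k = b k - LN N b k := by
  unfold IN
  rw [Matrix.sub_mulVec, Matrix.one_mulVec, Pi.sub_apply]
  simp only [Matrix.mulVec, dotProduct, Fin.sum_univ_three, LN, Matrix.of_apply]

/-- **M-matrix**: `x - N x ≥ 0` implies `x ≥ 0` -/
theorem mmat (hN : ∀ k m, 0 ≤ N k m) {c : ℝ} (hc : c < 1) (hcol : ∀ m, nc N m ≤ c)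
    {x : Fin 3 → ℝ} (hx : ∀ k, LN N x k ≤ x k) (k : Fin 3) : 0 ≤ x k := by
  have hy0 : ∀ k, 0 ≤ max (-x k) 0 := fun k => le_max_right _ _
  have hy1 : ∀ k, -x k ≤ max (-x k) 0 := fun k => le_max_left _ _
  have key : ∀ k, max (-x k) 0 ≤ LN N (fun m => max (-x m) 0) k := by
    intro k
    apply max_le
    · have h := hx k
      have g0 := mul_le_mul_of_nonneg_left (hy1 0) (hN k 0)
      have g1 := mul_le_mul_of_nonneg_left (hy1 1) (hN k 1)
      have g2 := mul_le_mul_of_nonneg_left (hy1 2) (hN k 2)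
      simp only [LN] at h ⊢
      linarith
    · exact LN_nonneg hN hy0 k
  have k0 := key 0
  have k1 := key 1
  have k2 := key 2
  have c0 := mul_le_mul_of_nonneg_right (hcol 0) (hy0 0)
  have c1 := mul_le_mul_of_nonneg_right (hcol 1) (hy0 1)
  have c2 := mul_le_mul_of_nonneg_right (hcol 2) (hy0 2)
  simp only [LN, nc] at k0 k1 k2 c0 c1 c2
  set y0 := max (-x 0) 0
  set y1 := max (-x 1) 0
  set y2 := max (-x 2) 0
  have z0 := hy0 0
  have z1 := hy0 1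
  have z2 := hy0 2
  have hs : (1 - c) * (y0 + y1 + y2) ≤ 0 := by nlinarith
  have hs2 : y0 + y1 + y2 ≤ 0 := by
    by_contra h
    push Not at h
    have := mul_pos (sub_pos.2 hc) h
    linarith
  have w0 : -x 0 ≤ y0 := hy1 0
  have w1 : -x 1 ≤ y1 := hy1 1
  have w2 : -x 2 ≤ y2 := hy1 2
  have v0 : 0 ≤ y0 := hy0 0
  have v1 : 0 ≤ y1 := hy0 1
  have v2 : 0 ≤ y2 := hy0 2
  fin_cases k
  · change 0 ≤ x 0
    linarith
  · change 0 ≤ x 1
    linarith
  · change 0 ≤ x 2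
    linarith

theorem IN_det (hd : ∀ k, N k k = 0) : (IN N).det = 1 - N 0 1 * N 1 0 - N 0 2 * N 2 0
    - N 1 2 * N 2 1 - N 0 1 * N 1 2 * N 2 0 - N 0 2 * N 1 0 * N 2 1 := by
  have h0 := hd 0
  have h1 := hd 1
  have h2 := hd 2
  simp [Matrix.det_fin_three, IN, h0, h1, h2]
  ring

theorem IN_det_pos (hN : ∀ k m, 0 ≤ N k m) (hd : ∀ k, N k k = 0) (hcol : ∀ m, nc N m ≤ 1 / 2) :
    0 < (IN N).det ∧ (IN N).det ≤ 1 := by
  rw [IN_det hd]
  have h0 := hcol 0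
  have h1 := hcol 1
  have h2 := hcol 2
  simp only [nc, hd] at h0 h1 h2
  have a := hN 1 0
  have b := hN 2 0
  have d := hN 0 1
  have e := hN 2 1
  have f := hN 0 2
  have g := hN 1 2
  have p1 := mul_nonneg d a
  have p2 := mul_nonneg f b
  have p3 := mul_nonneg g e
  have p4 := mul_nonneg (mul_nonneg d g) b
  have p5 := mul_nonneg (mul_nonneg f a) e
  refine ⟨?_, by linarith⟩
  have q1 : N 0 2 * N 2 1 ≤ 1 / 4 := by
    calc N 0 2 * N 2 1 ≤ 1 / 2 * (1 / 2) := mul_le_mul (by linarith) (by linarith) e (by norm_num)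
      _ = 1 / 4 := by norm_num
  have q2 : N 0 1 * N 1 2 ≤ 1 / 4 := by
    calc N 0 1 * N 1 2 ≤ 1 / 2 * (1 / 2) := mul_le_mul (by linarith) (by linarith) g (by norm_num)
      _ = 1 / 4 := by norm_num
  have q3 : N 1 2 * N 2 1 ≤ 1 / 4 := by
    calc N 1 2 * N 2 1 ≤ 1 / 2 * (1 / 2) := mul_le_mul (by linarith) (by linarith) e (by norm_num)
      _ = 1 / 4 := by norm_num
  have r1 : N 1 0 * (N 0 1 + N 0 2 * N 2 1) ≤ N 1 0 * (3 / 4) :=
    mul_le_mul_of_nonneg_left (by linarith) a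
  have r2 : N 2 0 * (N 0 2 + N 0 1 * N 1 2) ≤ N 2 0 * (3 / 4) :=
    mul_le_mul_of_nonneg_left (by linarith) b
  nlinarith

/-- one column of the inverse -/
theorem colA {c x y z n01 n02 n10 n12 n20 n21 : ℝ}
    (a01 : 0 ≤ n01) (a02 : 0 ≤ n02) (a10 : 0 ≤ n10) (a12 : 0 ≤ n12) (a20 : 0 ≤ n20)
    (a21 : 0 ≤ n21) (h0 : n10 + n20 ≤ c) (h1 : n01 + n21 ≤ c) (h2 : n02 + n12 ≤ c)
    (hy : 0 ≤ y) (hz : 0 ≤ z)
    (ex : x = 1 + (n01 * y + n02 * z)) (ey : y = n10 * x + n12 * z) (ez : z = n20 * x + n21 * y) :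
    1 ≤ x ∧ (1 - c) * (x + y + z - 1) ≤ n10 + n20 ∧
      x ^ 2 + y ^ 2 + z ^ 2 + x * y + x * z + y * z
        ≤ 1 + (x + y + z - 1) * (1 + c + (x + y + z - 1)) := by
  have hx1 : 1 ≤ x := by
    have := mul_nonneg a01 hy
    have := mul_nonneg a02 hz
    linarith
  have hc0 : 0 ≤ c := by linarith
  have u1 : n01 * y ≤ c * y := mul_le_mul_of_nonneg_right (by linarith) hy
  have u2 : n02 * z ≤ c * z := mul_le_mul_of_nonneg_right (by linarith) hz
  have hxx : x - 1 ≤ c * (y + z) := by linarith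
  refine ⟨hx1, ?_, ?_⟩
  · -- `e = ∑ c_m x_m`
    have e1 : x + y + z - 1 = (n10 + n20) * x + (n01 + n21) * y + (n02 + n12) * z := by
      linear_combination ex + ey + ez
    have v1 : (n01 + n21) * y ≤ c * y := mul_le_mul_of_nonneg_right h1 hy
    have v2 : (n02 + n12) * z ≤ c * z := mul_le_mul_of_nonneg_right h2 hz
    have v3 : (n10 + n20) * (x - 1) ≤ c * (x - 1) :=
      mul_le_mul_of_nonneg_right h0 (by linarith)
    nlinarith
  · have hyz : 0 ≤ y * z := mul_nonneg hy hz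
    have w1 : 0 ≤ (x - 1) * (y + z) := mul_nonneg (by linarith) (by linarith)
    have w2 : 0 ≤ c * (x - 1) := mul_nonneg hc0 (by linarith)
    nlinarith

/-- difference of two columns -/
theorem ddA {p q r s : ℝ} (h : 2 - s ≤ p + q) :
    1 - s ≤ p ^ 2 + q ^ 2 + r ^ 2 - p * q + r * (p - q) := by
  have h1 : ((p + q) / 2) ^ 2 ≤ p ^ 2 + q ^ 2 + r ^ 2 - p * q + r * (p - q) := by
    nlinarith [sq_nonneg (r + (p - q) / 2), sq_nonneg (p - q)]
  have h2 : 1 - s ≤ ((p + q) / 2) ^ 2 := by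
    nlinarith [sq_nonneg ((p + q) / 2 - 1)]
  exact h2.trans h1

section
variable (hN : ∀ k m, 0 ≤ N k m) (hd : ∀ k, N k k = 0) {c : ℝ} (hc : c ≤ 1 / 2)
  (hcol : ∀ m, nc N m ≤ c)
include hN hd hc hcol

theorem det_IN : 0 < (IN N).det ∧ (IN N).det ≤ 1 :=
  IN_det_pos hN hd fun m => (hcol m).trans hc

theorem det_MN : 1 ≤ (MN N).det := by
  obtain ⟨h1, h2⟩ := det_IN hN hd hc hcol
  unfold MN
  rw [Matrix.det_nonsing_inv, Ring.inverse_eq_inv']
  exact (one_le_inv₀ h1).2 h2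

theorem mu_MN (b : Fin 3 → ℝ) (k : Fin 3) :
    Helper75.MEI2.mu (MN N) b k = b k - LN N b k := by
  obtain ⟨h1, -⟩ := det_IN hN hd hc hcol
  unfold Helper75.MEI2.mu MN
  rw [Matrix.nonsing_inv_nonsing_inv _ (isUnit_iff_ne_zero.2 h1.ne'), IN_mul]

theorem col_eq (k l : Fin 3) :
    MN N l k - LN N (fun m => MN N m k) l = (1 : Matrix (Fin 3) (Fin 3) ℝ) l k := by
  obtain ⟨h1, -⟩ := det_IN hN hd hc hcol
  have h : IN N * MN N = 1 := Matrix.mul_nonsing_inv _ (isUnit_iff_ne_zero.2 h1.ne')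
  have h2 := IN_mul (N := N) (fun m => MN N m k) l
  rw [← h, Matrix.mul_apply]
  exact h2.symm

theorem MN_nonneg (l k : Fin 3) : 0 ≤ MN N l k := by
  refine mmat hN (c := c) (by linarith) hcol (x := fun m => MN N m k) (fun i => ?_) l
  have h := col_eq hN hd hc hcol k i
  have h1 : (0 : ℝ) ≤ (1 : Matrix (Fin 3) (Fin 3) ℝ) i k := by
    rw [Matrix.one_apply]
    split_ifs
    · exact zero_le_one
    · exact le_rfl
  linarith

/-- column excess -/
noncomputable def ee (N : Fin 3 → Fin 3 → ℝ) (k : Fin 3) : ℝ := MN N 0 k + MN N 1 k + MN N 2 k - 1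

omit hN hd hc hcol in
theorem Qf_col (k : Fin 3) : Helper75.MEI2.nn (MN N) k = MN N 0 k ^ 2 + MN N 1 k ^ 2 + MN N 2 k ^ 2
    + MN N 0 k * MN N 1 k + MN N 0 k * MN N 2 k + MN N 1 k * MN N 2 k := rfl

theorem cols : ∀ k, 1 ≤ MN N k k ∧ (1 - c) * ee N k ≤ nc N k ∧
    Helper75.MEI2.nn (MN N) k ≤ 1 + ee N k * (1 + c + ee N k) := by
  have h0 := hcol 0
  have h1 := hcol 1
  have h2 := hcol 2
  have d0 := hd 0
  have d1 := hd 1
  have d2 := hd 2
  simp only [nc] at h0 h1 h2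
  have e00 := col_eq hN hd hc hcol 0 0
  have e01 := col_eq hN hd hc hcol 0 1
  have e02 := col_eq hN hd hc hcol 0 2
  have e10 := col_eq hN hd hc hcol 1 0
  have e11 := col_eq hN hd hc hcol 1 1
  have e12 := col_eq hN hd hc hcol 1 2
  have e20 := col_eq hN hd hc hcol 2 0
  have e21 := col_eq hN hd hc hcol 2 1
  have e22 := col_eq hN hd hc hcol 2 2
  simp only [LN, d0, d1, d2, zero_mul, zero_add, add_zero] at e00 e01 e02 e10 e11 e12 e20 e21 e22
  simp at e00 e01 e02 e10 e11 e12 e20 e21 e22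
  intro k
  rw [Qf_col]
  unfold ee nc
  fin_cases k
  · have g := colA (c := c) (x := MN N 0 0) (y := MN N 1 0) (z := MN N 2 0)
      (hN 0 1) (hN 0 2) (hN 1 0) (hN 1 2) (hN 2 0) (hN 2 1)
      (by linarith) (by linarith) (by linarith)
      (MN_nonneg hN hd hc hcol 1 0) (MN_nonneg hN hd hc hcol 2 0)
      (by linarith) (by linarith) (by linarith)
    refine ⟨g.1, ?_, ?_⟩
    · have := g.2.1
      change (1 - c) * (MN N 0 0 + MN N 1 0 + MN N 2 0 - 1) ≤ N 0 0 + N 1 0 + N 2 0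
      linarith
    · exact g.2.2
  · have g := colA (c := c) (x := MN N 1 1) (y := MN N 0 1) (z := MN N 2 1)
      (hN 1 0) (hN 1 2) (hN 0 1) (hN 0 2) (hN 2 1) (hN 2 0)
      (by linarith) (by linarith) (by linarith)
      (MN_nonneg hN hd hc hcol 0 1) (MN_nonneg hN hd hc hcol 2 1)
      (by linarith) (by linarith) (by linarith)
    refine ⟨g.1, ?_, ?_⟩
    · have := g.2.1
      change (1 - c) * (MN N 0 1 + MN N 1 1 + MN N 2 1 - 1) ≤ N 0 1 + N 1 1 + N 2 1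
      linarith
    · have := g.2.2
      change MN N 0 1 ^ 2 + MN N 1 1 ^ 2 + MN N 2 1 ^ 2
        + MN N 0 1 * MN N 1 1 + MN N 0 1 * MN N 2 1 + MN N 1 1 * MN N 2 1
        ≤ 1 + (MN N 0 1 + MN N 1 1 + MN N 2 1 - 1) * (1 + c + (MN N 0 1 + MN N 1 1 + MN N 2 1 - 1))
      linarith
  · have g := colA (c := c) (x := MN N 2 2) (y := MN N 1 2) (z := MN N 0 2)
      (hN 2 1) (hN 2 0) (hN 1 2) (hN 1 0) (hN 0 2) (hN 0 1)
      (by linarith) (by linarith) (by linarith)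
      (MN_nonneg hN hd hc hcol 1 2) (MN_nonneg hN hd hc hcol 0 2)
      (by linarith) (by linarith) (by linarith)
    refine ⟨g.1, ?_, ?_⟩
    · have := g.2.1
      change (1 - c) * (MN N 0 2 + MN N 1 2 + MN N 2 2 - 1) ≤ N 0 2 + N 1 2 + N 2 2
      linarith
    · have := g.2.2
      change MN N 0 2 ^ 2 + MN N 1 2 ^ 2 + MN N 2 2 ^ 2
        + MN N 0 2 * MN N 1 2 + MN N 0 2 * MN N 2 2 + MN N 1 2 * MN N 2 2
        ≤ 1 + (MN N 0 2 + MN N 1 2 + MN N 2 2 - 1) * (1 + c + (MN N 0 2 + MN N 1 2 + MN N 2 2 - 1))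
      linarith

end

end Pool.Agent.Helper55.Apex
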