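import Pool.Agent.Helper22.MEI.Flux
import Pool.Agent.Helper55.MEI.AdmF0

/-!
# Project MEI, row D: Blaschke relation and the functional in terms of volumes
-/

namespace Helper55.MEI

open Set MeasureTheory Helper22.MEI

variable {f h : ℝ × ℝ → ℝ}

/-- volume under the top surface -/
noncomputable def Vt (f : ℝ × ℝ → ℝ) : ℝ := (1 / 3) * ∫ p in SQ, f p * hd f p

/-- area of the top surface -/
noncomputable def St (f : ℝ × ℝ → ℝ) : ℝ := ∫ p in SQ, NN p * hd f p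

noncomputable def nX (p : ℝ × ℝ) : ℝ := p.1 / NN p

noncomputable def nY (p : ℝ × ℝ) : ℝ := p.2 / NN p

theorem dX_NN' : dX NN = nX := funext dX_NN

theorem dY_NN' : dY NN = nY := funext dY_NN

theorem nX_fd (p : ℝ × ℝ) : HasFDerivAt nX
    (((1 + p.2 ^ 2) / NN p ^ 3) • ContinuousLinearMap.fst ℝ ℝ ℝ
      + (-(p.1 * p.2) / NN p ^ 3) • ContinuousLinearMap.snd ℝ ℝ ℝ) p := by
  have hn := NN_ne p
  have hi : HasFDerivAt (fun q : ℝ × ℝ => (NN q)⁻¹) ((-(NN p ^ 2)⁻¹) •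
      ((p.1 / NN p) • ContinuousLinearMap.fst ℝ ℝ ℝ + (p.2 / NN p) • ContinuousLinearMap.snd ℝ ℝ ℝ))
      p := (hasDerivAt_inv hn).comp_hasFDerivAt p (NN_hasFDerivAt p)
  have h0 : HasFDerivAt (fun q : ℝ × ℝ => q.1) (ContinuousLinearMap.fst ℝ ℝ ℝ) p :=
    hasFDerivAt_fst
  have h1 := h0.mul hi
  rw [show nX = (fun q => q.1) * (fun q => (NN q)⁻¹) from by
    funext q; simp [nX, div_eq_mul_inv]]
  refine h1.congr_fderiv ?_
  ext
  · simp
    field_simp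
    nlinarith [NN_sq p]
  · simp
    field_simp

theorem nY_fd (p : ℝ × ℝ) : HasFDerivAt nY
    ((-(p.1 * p.2) / NN p ^ 3) • ContinuousLinearMap.fst ℝ ℝ ℝ
      + ((1 + p.1 ^ 2) / NN p ^ 3) • ContinuousLinearMap.snd ℝ ℝ ℝ) p := by
  have hn := NN_ne p
  have hi : HasFDerivAt (fun q : ℝ × ℝ => (NN q)⁻¹) ((-(NN p ^ 2)⁻¹) •
      ((p.1 / NN p) • ContinuousLinearMap.fst ℝ ℝ ℝ + (p.2 / NN p) • ContinuousLinearMap.snd ℝ ℝ ℝ))
      p := (hasDerivAt_inv hn).comp_hasFDerivAt p (NN_hasFDerivAt p)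
  have h0 : HasFDerivAt (fun q : ℝ × ℝ => q.2) (ContinuousLinearMap.snd ℝ ℝ ℝ) p :=
    hasFDerivAt_snd
  have h1 := h0.mul hi
  rw [show nY = (fun q => q.2) * (fun q => (NN q)⁻¹) from by
    funext q; simp [nY, div_eq_mul_inv]]
  refine h1.congr_fderiv ?_
  ext
  · simp
    field_simp
  · simp
    field_simp
    nlinarith [NN_sq p]

theorem nXX (p : ℝ × ℝ) : fderiv ℝ nX p (1, 0) = (1 + p.2 ^ 2) / NN p ^ 3 := by
  rw [(nX_fd p).fderiv]; simp

theorem nXY (p : ℝ × ℝ) : fderiv ℝ nX p (0, 1) = -(p.1 * p.2) / NN p ^ 3 := by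
  rw [(nX_fd p).fderiv]; simp

theorem nYX (p : ℝ × ℝ) : fderiv ℝ nY p (1, 0) = -(p.1 * p.2) / NN p ^ 3 := by
  rw [(nY_fd p).fderiv]; simp

theorem nYY (p : ℝ × ℝ) : fderiv ℝ nY p (0, 1) = (1 + p.1 ^ 2) / NN p ^ 3 := by
  rw [(nY_fd p).fderiv]; simp

theorem NN_cd : ContDiff ℝ 1 NN := by
  unfold NN
  exact ContDiff.sqrt (by fun_prop) fun p => by positivity

theorem nX_cd : ContDiff ℝ 1 nX := contDiff_fst.div NN_cd NN_ne

theorem nY_cd : ContDiff ℝ 1 nY := contDiff_snd.div NN_cd NN_ne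

theorem NN_lp : Lp NN := Lp.loc NN_cd.locallyLipschitz

theorem nX_lp : Lp nX := Lp.loc nX_cd.locallyLipschitz

theorem nY_lp : Lp nY := Lp.loc nY_cd.locallyLipschitz

/-- `N f_X - f N_X` -/
noncomputable def A1 (f : ℝ × ℝ → ℝ) (p : ℝ × ℝ) : ℝ := NN p * dX f p - f p * nX p

noncomputable def A2 (f : ℝ × ℝ → ℝ) (p : ℝ × ℝ) : ℝ := NN p * dY f p - f p * nY p

theorem A1_lp (hf : Adm f) : Lp (A1 f) := (NN_lp.mul hf.lpX).sub (hf.lp.mul nX_lp)

theorem A2_lp (hf : Adm f) : Lp (A2 f) := (NN_lp.mul hf.lpY).sub (hf.lp.mul nY_lp)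

/-- `N : D^2 f` -/
noncomputable def mix (f : ℝ × ℝ → ℝ) (p : ℝ × ℝ) : ℝ :=
  ((1 + p.2 ^ 2) * dY (dY f) p + (1 + p.1 ^ 2) * dX (dX f) p + 2 * (p.1 * p.2) * dX (dY f) p)
    / NN p ^ 3

theorem A1_fd (hf : Differentiable ℝ f) {p : ℝ × ℝ} (H : Hess f p) (v : ℝ × ℝ) :
    fderiv ℝ (A1 f) p v = fderiv ℝ NN p v * dX f p + NN p * fderiv ℝ (dX f) p v
      - (fderiv ℝ f p v * nX p + f p * fderiv ℝ nX p v) := by
  have d1 : DifferentiableAt ℝ (fun p => NN p * dX f p) p := (NN_diff p).mul H.dx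
  have d2 : DifferentiableAt ℝ (fun p => f p * nX p) p := (hf p).mul (nX_fd p).differentiableAt
  have e : fderiv ℝ (A1 f) p v = fderiv ℝ (fun p => NN p * dX f p) p v
      - fderiv ℝ (fun p => f p * nX p) p v := sub_fd d1 d2 v
  rw [e, mul_fd (NN_diff p) H.dx, mul_fd (hf p) (nX_fd p).differentiableAt]

theorem A2_fd (hf : Differentiable ℝ f) {p : ℝ × ℝ} (H : Hess f p) (v : ℝ × ℝ) :
    fderiv ℝ (A2 f) p v = fderiv ℝ NN p v * dY f p + NN p * fderiv ℝ (dY f) p v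
      - (fderiv ℝ f p v * nY p + f p * fderiv ℝ nY p v) := by
  have d1 : DifferentiableAt ℝ (fun p => NN p * dY f p) p := (NN_diff p).mul H.dy
  have d2 : DifferentiableAt ℝ (fun p => f p * nY p) p := (hf p).mul (nY_fd p).differentiableAt
  have e : fderiv ℝ (A2 f) p v = fderiv ℝ (fun p => NN p * dY f p) p v
      - fderiv ℝ (fun p => f p * nY p) p v := sub_fd d1 d2 v
  rw [e, mul_fd (NN_diff p) H.dy, mul_fd (hf p) (nY_fd p).differentiableAt]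

theorem pt1 (hf : Differentiable ℝ f) {p : ℝ × ℝ} (H : Hess f p) :
    Jc (A1 f) (dY f) p + Jc (dX f) (A2 f) p = 2 * (NN p * hd f p) - f p * mix f p := by
  have hn := NN_ne p
  have s1 : fderiv ℝ (dX f) p (0, 1) = fderiv ℝ (dY f) p (1, 0) := H.symm
  have n1 : fderiv ℝ NN p (1, 0) = nX p := dX_NN p
  have n2 : fderiv ℝ NN p (0, 1) = nY p := dY_NN p
  unfold Jc hd mix
  simp only [dX, dY]
  have e1 := A1_fd hf H
  have e2 := A2_fd hf H
  simp only [dX, dY] at e1 e2 s1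
  rw [e1, e1, e2, e2]
  rw [nXX, nXY, nYX, nYY, n1, n2, s1]
  field_simp
  ring

theorem pt2 (hf : Differentiable ℝ f) {p : ℝ × ℝ} (H : Hess f p) :
    Jc (A1 f) nY p + Jc nX (A2 f) p = NN p * mix f p - 2 * f p / NN p ^ 4 := by
  have hn := NN_ne p
  have hN := NN_sq p
  have s1 : fderiv ℝ (dX f) p (0, 1) = fderiv ℝ (dY f) p (1, 0) := H.symm
  have n1 : fderiv ℝ NN p (1, 0) = nX p := dX_NN p
  have n2 : fderiv ℝ NN p (0, 1) = nY p := dY_NN p
  unfold Jc mix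
  simp only [dX, dY]
  have e1 := A1_fd hf H
  have e2 := A2_fd hf H
  simp only [dX, dY] at e1 e2 s1
  rw [e1, e1, e2, e2]
  rw [nXX, nXY, nYX, nYY, n1, n2, s1]
  unfold nX nY
  field_simp
  linear_combination (2 * f p) * hN

theorem pt3 (hf : Differentiable ℝ f) {p : ℝ × ℝ} (H : Hess f p) :
    Jc (fun p => f p * dX f p) nY p + Jc nX (fun p => f p * dY f p) p
      = f p * mix f p + cq p (dX f p) (dY f p) := by
  have hn := NN_ne p
  have hN := NN_sq p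
  have s1 : fderiv ℝ (dX f) p (0, 1) = fderiv ℝ (dY f) p (1, 0) := H.symm
  unfold Jc mix cq
  simp only [dX, dY]
  have e1 := mul_fd (hf p) H.dx
  have e2 := mul_fd (hf p) H.dy
  simp only [dX, dY] at e1 e2 s1
  rw [e1, e1, e2, e2]
  rw [nXX, nXY, nYX, nYY, s1]
  field_simp
  ring

end Helper55.MEI
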