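import Pool.Agent.Helper55.MEI.D1

/-!
# Project MEI, row D, second part: integration
-/

namespace Helper55.MEI

open Set MeasureTheory Helper22.MEI

variable {f h : ℝ × ℝ → ℝ}

noncomputable def nc (p : ℝ × ℝ) : ℝ := (NN p ^ 3)⁻¹

theorem nc_fd (p : ℝ × ℝ) : HasFDerivAt nc ((-3 / NN p ^ 4) •
    ((p.1 / NN p) • ContinuousLinearMap.fst ℝ ℝ ℝ + (p.2 / NN p) • ContinuousLinearMap.snd ℝ ℝ ℝ))
    p := by
  have hn := NN_ne p
  have h1 : HasDerivAt (fun x : ℝ => (x ^ 3)⁻¹) (-3 / NN p ^ 4) (NN p) := by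
    have h2 := (hasDerivAt_pow 3 (NN p)).inv (pow_ne_zero 3 hn)
    refine h2.congr_deriv ?_
    field_simp
    push_cast
    ring
  exact h1.comp_hasFDerivAt p (NN_hasFDerivAt p)

theorem ncX (p : ℝ × ℝ) : fderiv ℝ nc p (1, 0) = -3 * p.1 / NN p ^ 5 := by
  have hn := NN_ne p
  rw [(nc_fd p).fderiv]; simp
  field_simp

theorem ncY (p : ℝ × ℝ) : fderiv ℝ nc p (0, 1) = -3 * p.2 / NN p ^ 5 := by
  have hn := NN_ne p
  rw [(nc_fd p).fderiv]; simp
  field_simp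

theorem nc_cd : ContDiff ℝ 1 nc := by
  unfold nc
  exact (NN_cd.pow 3).inv fun p => pow_ne_zero 3 (NN_ne p)

theorem nc_lp : Lp nc := Lp.loc nc_cd.locallyLipschitz

noncomputable def B1 (f : ℝ × ℝ → ℝ) (p : ℝ × ℝ) : ℝ := p.1 * (f p * f p * nc p)

noncomputable def B2 (f : ℝ × ℝ → ℝ) (p : ℝ × ℝ) : ℝ := p.2 * (f p * f p * nc p)

theorem B1_lp (hf : Adm f) : Lp (B1 f) := Lp.fst.mul ((hf.lp.mul hf.lp).mul nc_lp)

theorem B2_lp (hf : Adm f) : Lp (B2 f) := Lp.snd.mul ((hf.lp.mul hf.lp).mul nc_lp)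

theorem pt4 (hf : Differentiable ℝ f) (p : ℝ × ℝ) :
    Jc (B1 f) (fun p => p.2) p + Jc (fun p => p.1) (B2 f) p
      = qd f p * (NN p ^ 3)⁻¹ + cq p (dX f p) (dY f p) + 2 * f p / NN p ^ 4 - (NN p ^ 3)⁻¹ := by
  have hn := NN_ne p
  have hN := NN_sq p
  have x1 : ∀ v : ℝ × ℝ, fderiv ℝ (fun q : ℝ × ℝ => q.1) p v = v.1 := by
    intro v
    rw [(hasFDerivAt_fst (𝕜 := ℝ) (p := p)).fderiv]; rfl
  have x2 : ∀ v : ℝ × ℝ, fderiv ℝ (fun q : ℝ × ℝ => q.2) p v = v.2 := by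
    intro v
    rw [(hasFDerivAt_snd (𝕜 := ℝ) (p := p)).fderiv]; rfl
  have d1 : DifferentiableAt ℝ (fun p => f p * f p) p := (hf p).mul (hf p)
  have d2 : DifferentiableAt ℝ (fun p => f p * f p * nc p) p := d1.mul (nc_fd p).differentiableAt
  have e1 : ∀ v, fderiv ℝ (B1 f) p v = v.1 * (f p * f p * nc p)
      + p.1 * ((fderiv ℝ f p v * f p + f p * fderiv ℝ f p v) * nc p
        + f p * f p * fderiv ℝ nc p v) := by
    intro v
    have := mul_fd (a := fun q : ℝ × ℝ => q.1) differentiableAt_fst d2 v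
    rw [mul_fd d1 (nc_fd p).differentiableAt, mul_fd (hf p) (hf p), x1] at this
    exact this
  have e2 : ∀ v, fderiv ℝ (B2 f) p v = v.2 * (f p * f p * nc p)
      + p.2 * ((fderiv ℝ f p v * f p + f p * fderiv ℝ f p v) * nc p
        + f p * f p * fderiv ℝ nc p v) := by
    intro v
    have := mul_fd (a := fun q : ℝ × ℝ => q.2) differentiableAt_snd d2 v
    rw [mul_fd d1 (nc_fd p).differentiableAt, mul_fd (hf p) (hf p), x2] at this
    exact this
  unfold Jc qd cq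
  simp only [dX, dY]
  rw [e1, e1, e2, e2, ncX, ncY, x1, x1, x2, x2]
  unfold nc
  simp only
  field_simp
  linear_combination (3 * f p ^ 2) * hN

theorem hd_g (hf : Adm f) {p : ℝ × ℝ} (H : Hess f p) :
    hd (fun q => NN q - f q) p = 1 / NN p ^ 4 - mix f p + hd f p := by
  have hn := NN_ne p
  have hN := NN_sq p
  have ex : dX (fun q => NN q - f q) = fun q => nX q - dX f q := funext (dX_Nsub hf)
  have ey : dY (fun q => NN q - f q) = fun q => nY q - dY f q := funext (dY_Nsub hf)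
  have fx : ∀ v, fderiv ℝ (dX (fun q => NN q - f q)) p v
      = fderiv ℝ nX p v - fderiv ℝ (dX f) p v := by
    intro v
    rw [ex]; exact sub_fd (nX_fd p).differentiableAt H.dx v
  have fy : ∀ v, fderiv ℝ (dY (fun q => NN q - f q)) p v
      = fderiv ℝ nY p v - fderiv ℝ (dY f) p v := by
    intro v
    rw [ey]; exact sub_fd (nY_fd p).differentiableAt H.dy v
  have s1 : fderiv ℝ (dX f) p (0, 1) = fderiv ℝ (dY f) p (1, 0) := H.symm
  unfold hd mix
  show fderiv ℝ (dX (fun q => NN q - f q)) p (1, 0) * fderiv ℝ (dY (fun q => NN q - f q)) p (0, 1)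
    - fderiv ℝ (dY (fun q => NN q - f q)) p (1, 0)
      * fderiv ℝ (dX (fun q => NN q - f q)) p (0, 1) = _
  rw [fx, fx, fy, fy, nXX, nXY, nYX, nYY]
  have g1 : dX (dX f) p = fderiv ℝ (dX f) p (1, 0) := rfl
  have g2 : dY (dY f) p = fderiv ℝ (dY f) p (0, 1) := rfl
  have g3 : dX (dY f) p = fderiv ℝ (dY f) p (1, 0) := rfl
  have g4 : dY (dX f) p = fderiv ℝ (dX f) p (0, 1) := rfl
  rw [g1, g2, g3, g4, s1]
  field_simp
  linear_combination (-1 : ℝ) * hN

/-- total integrand of the two areas -/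
theorem area_pt (hf : Adm f) {p : ℝ × ℝ} (H : Hess f p) :
    NN p * hd f p + NN p * hd (fun q => NN q - f q) p
      = qd f p * (NN p ^ 3)⁻¹ + (Jc (A1 f) (dY f) p + Jc (dX f) (A2 f) p)
        - (Jc (A1 f) nY p + Jc nX (A2 f) p)
        + (Jc (fun p => f p * dX f p) nY p + Jc nX (fun p => f p * dY f p) p)
        - (Jc (B1 f) (fun p => p.2) p + Jc (fun p => p.1) (B2 f) p) := by
  have hn := NN_ne p
  rw [hd_g hf H, pt1 hf.diff H, pt2 hf.diff H, pt3 hf.diff H, pt4 hf.diff p]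
  field_simp
  ring

/-- Blaschke integrand -/
theorem bla_pt (hf : Adm f) {p : ℝ × ℝ} (H : Hess f p) :
    NN p * hd f p + NN p * hd (fun q => NN q - f q) p
      - 2 / 3 * (f p * hd f p + (NN p - f p) * hd (fun q => NN q - f q) p)
      = 2 / 3 * (Jc (A1 f) (dY f) p + Jc (dX f) (A2 f) p)
        - 1 / 3 * (Jc (A1 f) nY p + Jc nX (A2 f) p) + 1 / 3 * (NN p ^ 3)⁻¹ := by
  have hn := NN_ne p
  rw [hd_g hf H, pt1 hf.diff H, pt2 hf.diff H]
  field_simp
  ring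

theorem jc_congr {a b a' b' : ℝ × ℝ → ℝ} (ha : Lp a) (hb : Lp b) (ha' : Lp a') (hb' : Lp b')
    (h1 : ∀ p ∈ CQ, |p.1| = s ∨ |p.2| = s → a p = a' p)
    (h2 : ∀ p ∈ CQ, |p.1| = s ∨ |p.2| = s → b p = b' p) :
    ∫ p in SQ, Jc a b p = ∫ p in SQ, Jc a' b' p := by
  obtain ⟨K1, k1⟩ := ha
  obtain ⟨K2, k2⟩ := hb
  obtain ⟨K3, k3⟩ := ha'
  obtain ⟨K4, k4⟩ := hb'
  exact jac_congr k1 k2 k3 k4 h1 h2

/-- the sum of two Jacobians with fixed boundary values -/
theorem jc2_congr {a b c d a' b' c' d' : ℝ × ℝ → ℝ} (ha : Lp a) (hb : Lp b) (hc : Lp c) (hd : Lp d)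
    (ha' : Lp a') (hb' : Lp b') (hc' : Lp c') (hd' : Lp d')
    (h1 : ∀ p ∈ CQ, |p.1| = s ∨ |p.2| = s → a p = a' p)
    (h2 : ∀ p ∈ CQ, |p.1| = s ∨ |p.2| = s → b p = b' p)
    (h3 : ∀ p ∈ CQ, |p.1| = s ∨ |p.2| = s → c p = c' p)
    (h4 : ∀ p ∈ CQ, |p.1| = s ∨ |p.2| = s → d p = d' p) :
    ∫ p in SQ, (Jc a b p + Jc c d p) = ∫ p in SQ, (Jc a' b' p + Jc c' d' p) := by
  rw [integral_add (ha.jint hb) (hc.jint hd), integral_add (ha'.jint hb') (hc'.jint hd'),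
    jc_congr ha hb ha' hb' h1 h2, jc_congr hc hd hc' hd' h3 h4]

theorem A1_bd (hf : Adm f) (hh : Adm h) : ∀ p ∈ CQ, |p.1| = s ∨ |p.2| = s → A1 f p = A1 h p := by
  intro p hp hb
  obtain ⟨e1, e2, e3⟩ := hf.bdry hh hp hb
  unfold A1
  rw [e1, e2]

theorem A2_bd (hf : Adm f) (hh : Adm h) : ∀ p ∈ CQ, |p.1| = s ∨ |p.2| = s → A2 f p = A2 h p := by
  intro p hp hb
  obtain ⟨e1, e2, e3⟩ := hf.bdry hh hp hb
  unfold A2
  rw [e1, e3]

theorem c1 (hf : Adm f) (hh : Adm h) :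
    ∫ p in SQ, (Jc (A1 f) (dY f) p + Jc (dX f) (A2 f) p)
      = ∫ p in SQ, (Jc (A1 h) (dY h) p + Jc (dX h) (A2 h) p) :=
  jc2_congr (A1_lp hf) hf.lpY hf.lpX (A2_lp hf) (A1_lp hh) hh.lpY hh.lpX (A2_lp hh) (A1_bd hf hh)
    (fun _ hp hb => (hf.bdry hh hp hb).2.2) (fun _ hp hb => (hf.bdry hh hp hb).2.1) (A2_bd hf hh)

theorem c2 (hf : Adm f) (hh : Adm h) :
    ∫ p in SQ, (Jc (A1 f) nY p + Jc nX (A2 f) p) = ∫ p in SQ, (Jc (A1 h) nY p + Jc nX (A2 h) p) :=
  jc2_congr (A1_lp hf) nY_lp nX_lp (A2_lp hf) (A1_lp hh) nY_lp nX_lp (A2_lp hh) (A1_bd hf hh)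
    (fun _ _ _ => rfl) (fun _ _ _ => rfl) (A2_bd hf hh)

theorem c3' (hf : Adm f) (hh : Adm h) :
    ∫ p in SQ, (Jc (fun p => f p * dX f p) nY p + Jc nX (fun p => f p * dY f p) p)
      = ∫ p in SQ, (Jc (fun p => h p * dX h p) nY p + Jc nX (fun p => h p * dY h p) p) :=
  jc2_congr (hf.lp.mul hf.lpX) nY_lp nX_lp (hf.lp.mul hf.lpY) (hh.lp.mul hh.lpX) nY_lp nX_lp
    (hh.lp.mul hh.lpY)
    (fun _ hp hb => by obtain ⟨e1, e2, e3⟩ := hf.bdry hh hp hb; simp only [e1, e2])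
    (fun _ _ _ => rfl) (fun _ _ _ => rfl)
    (fun _ hp hb => by obtain ⟨e1, e2, e3⟩ := hf.bdry hh hp hb; simp only [e1, e3])

theorem c4 (hf : Adm f) (hh : Adm h) :
    ∫ p in SQ, (Jc (B1 f) (fun p => p.2) p + Jc (fun p => p.1) (B2 f) p)
      = ∫ p in SQ, (Jc (B1 h) (fun p => p.2) p + Jc (fun p => p.1) (B2 h) p) :=
  jc2_congr (B1_lp hf) Lp.snd Lp.fst (B2_lp hf) (B1_lp hh) Lp.snd Lp.fst (B2_lp hh)
    (fun _ hp hb => by obtain ⟨e1, e2, e3⟩ := hf.bdry hh hp hb; unfold B1; rw [e1])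
    (fun _ _ _ => rfl) (fun _ _ _ => rfl)
    (fun _ hp hb => by obtain ⟨e1, e2, e3⟩ := hf.bdry hh hp hb; unfold B2; rw [e1])

/-! ### the mirror image -/

theorem sw_eq (f : ℝ × ℝ → ℝ) : sw f = fun q => (fun q => NN q - f q) (q.2, q.1) := by
  funext q
  simp only [sw]
  rw [NN_swap]

theorem hd_sw (f : ℝ × ℝ → ℝ) (p : ℝ × ℝ) : hd (sw f) p = hd (fun q => NN q - f q) (p.2, p.1) := by
  set G : ℝ × ℝ → ℝ := fun q => NN q - f q with hG
  have e : sw f = fun q => G (q.2, q.1) := sw_eq f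
  have ex : dX (sw f) = fun q => dY G (q.2, q.1) := by
    rw [e]; exact funext dX_swap
  have ey : dY (sw f) = fun q => dX G (q.2, q.1) := by
    rw [e]; exact funext dY_swap
  unfold hd
  rw [ex, ey, dX_swap, dY_swap, dX_swap, dY_swap]
  ring

theorem St_sw (f : ℝ × ℝ → ℝ) : St (sw f) = ∫ p in SQ, NN p * hd (fun q => NN q - f q) p := by
  unfold St
  rw [← int_swap (fun p => NN p * hd (fun q => NN q - f q) p)]
  refine integral_congr_ae (Filter.Eventually.of_forall fun p => ?_)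
  simp only
  rw [hd_sw, NN_swap]

theorem Vt_sw (f : ℝ × ℝ → ℝ) :
    Vt (sw f) = (1 / 3) * ∫ p in SQ, (NN p - f p) * hd (fun q => NN q - f q) p := by
  unfold Vt
  rw [← int_swap (fun p => (NN p - f p) * hd (fun q => NN q - f q) p)]
  congr 1
  refine integral_congr_ae (Filter.Eventually.of_forall fun p => ?_)
  simp only
  rw [hd_sw, NN_swap]
  rfl

theorem Good.swap' {g : ℝ × ℝ → ℝ} (h : Good g) : Good (fun p => g (p.2, p.1)) := by
  obtain ⟨mg, B, cB, bB⟩ := h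
  exact ⟨mg.comp measurable_swap, fun p => B (p.2, p.1), cB.comp continuous_swap, fun p => bB _⟩

theorem ghd' (hf : Adm f) : Good (hd (fun q => NN q - f q)) := by
  have h1 := Good.swap' hf.swap.ghd
  have e : (fun p : ℝ × ℝ => hd (sw f) (p.2, p.1)) = hd (fun q => NN q - f q) := by
    funext p
    rw [hd_sw]
  rwa [e] at h1

/-- areas and the volume formula -/
theorem area_const (hf : Adm f) (hh : Adm h) :
    St f + St (sw f) - ∫ p in SQ, qd f p * (NN p ^ 3)⁻¹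
      = St h + St (sw h) - ∫ p in SQ, qd h p * (NN p ^ 3)⁻¹ := by
  have key : ∀ {k : ℝ × ℝ → ℝ}, Adm k → St k + St (sw k) - ∫ p in SQ, qd k p * (NN p ^ 3)⁻¹
      = (∫ p in SQ, (Jc (A1 k) (dY k) p + Jc (dX k) (A2 k) p))
        - (∫ p in SQ, (Jc (A1 k) nY p + Jc nX (A2 k) p))
        + (∫ p in SQ, (Jc (fun p => k p * dX k p) nY p + Jc nX (fun p => k p * dY k p) p))
        - ∫ p in SQ, (Jc (B1 k) (fun p => p.2) p + Jc (fun p => p.1) (B2 k) p) := by
    intro k hk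
    have i0 : IntegrableOn (fun p => NN p * hd k p) SQ := ((Good.cont NN_cont).mul hk.ghd).int
    have i0' : IntegrableOn (fun p => NN p * hd (fun q => NN q - k q) p) SQ :=
      ((Good.cont NN_cont).mul (ghd' hk)).int
    have iq := (qd_good_adm hk).int
    have i1 : IntegrableOn (fun p => Jc (A1 k) (dY k) p + Jc (dX k) (A2 k) p) SQ :=
      ((A1_lp hk).jint hk.lpY).add (hk.lpX.jint (A2_lp hk))
    have i2 : IntegrableOn (fun p => Jc (A1 k) nY p + Jc nX (A2 k) p) SQ :=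
      ((A1_lp hk).jint nY_lp).add (nX_lp.jint (A2_lp hk))
    have i3 : IntegrableOn (fun p => Jc (fun p => k p * dX k p) nY p
        + Jc nX (fun p => k p * dY k p) p) SQ :=
      ((hk.lp.mul hk.lpX).jint nY_lp).add (nX_lp.jint (hk.lp.mul hk.lpY))
    have i4 : IntegrableOn (fun p => Jc (B1 k) (fun p => p.2) p + Jc (fun p => p.1) (B2 k) p) SQ :=
      ((B1_lp hk).jint Lp.snd).add (Lp.fst.jint (B2_lp hk))
    rw [St_sw]
    unfold St
    rw [← integral_add i0 i0']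
    have e : ∫ p in SQ, (NN p * hd k p + NN p * hd (fun q => NN q - k q) p)
        = ∫ p in SQ, (qd k p * (NN p ^ 3)⁻¹ + (Jc (A1 k) (dY k) p + Jc (dX k) (A2 k) p)
        - (Jc (A1 k) nY p + Jc nX (A2 k) p)
        + (Jc (fun p => k p * dX k p) nY p + Jc nX (fun p => k p * dY k p) p)
        - (Jc (B1 k) (fun p => p.2) p + Jc (fun p => p.1) (B2 k) p)) := by
      refine setIntegral_congr_ae SQ_meas ?_
      filter_upwards [hk.hess_ae] with p H _
      exact area_pt hk H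
    have j1 : IntegrableOn (fun p => qd k p * (NN p ^ 3)⁻¹
        + (Jc (A1 k) (dY k) p + Jc (dX k) (A2 k) p)) SQ := iq.add i1
    have j2 : IntegrableOn (fun p => qd k p * (NN p ^ 3)⁻¹
        + (Jc (A1 k) (dY k) p + Jc (dX k) (A2 k) p) - (Jc (A1 k) nY p + Jc nX (A2 k) p)) SQ :=
      j1.sub i2
    have j3 : IntegrableOn (fun p => qd k p * (NN p ^ 3)⁻¹
        + (Jc (A1 k) (dY k) p + Jc (dX k) (A2 k) p) - (Jc (A1 k) nY p + Jc nX (A2 k) p)
        + (Jc (fun p => k p * dX k p) nY p + Jc nX (fun p => k p * dY k p) p)) SQ := j2.add i3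
    rw [e, integral_sub j3 i4, integral_add j2 i3, integral_sub j1 i2, integral_add iq i1]
    ring
  rw [key hf, key hh, c1 hf hh, c2 hf hh, c3' hf hh, c4 hf hh]

/-- **Blaschke relation**: area minus twice the volume -/
theorem blaschke (hf : Adm f) (hh : Adm h) :
    St f + St (sw f) - 2 * (Vt f + Vt (sw f)) = St h + St (sw h) - 2 * (Vt h + Vt (sw h)) := by
  have key : ∀ {k : ℝ × ℝ → ℝ}, Adm k → St k + St (sw k) - 2 * (Vt k + Vt (sw k))
      = 2 / 3 * (∫ p in SQ, (Jc (A1 k) (dY k) p + Jc (dX k) (A2 k) p))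
        - 1 / 3 * (∫ p in SQ, (Jc (A1 k) nY p + Jc nX (A2 k) p))
        + 1 / 3 * ∫ p in SQ, (NN p ^ 3)⁻¹ := by
    intro k hk
    have i0 : IntegrableOn (fun p => NN p * hd k p) SQ := ((Good.cont NN_cont).mul hk.ghd).int
    have i0' : IntegrableOn (fun p => NN p * hd (fun q => NN q - k q) p) SQ :=
      ((Good.cont NN_cont).mul (ghd' hk)).int
    have iv : IntegrableOn (fun p => k p * hd k p) SQ := (hk.gf.mul hk.ghd).int
    have iv' : IntegrableOn (fun p => (NN p - k p) * hd (fun q => NN q - k q) p) SQ :=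
      (((Good.cont NN_cont).sub hk.gf).mul (ghd' hk)).int
    have i1 : IntegrableOn (fun p => Jc (A1 k) (dY k) p + Jc (dX k) (A2 k) p) SQ :=
      ((A1_lp hk).jint hk.lpY).add (hk.lpX.jint (A2_lp hk))
    have i2 : IntegrableOn (fun p => Jc (A1 k) nY p + Jc nX (A2 k) p) SQ :=
      ((A1_lp hk).jint nY_lp).add (nX_lp.jint (A2_lp hk))
    have i5 : IntegrableOn (fun p => (NN p ^ 3)⁻¹) SQ :=
      (Good.cont ((NN_cont.pow 3).inv₀ fun p => pow_ne_zero 3 (NN_ne p))).int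
    have e : ∫ p in SQ, (NN p * hd k p + NN p * hd (fun q => NN q - k q) p
        - 2 / 3 * (k p * hd k p + (NN p - k p) * hd (fun q => NN q - k q) p))
        = ∫ p in SQ, (2 / 3 * (Jc (A1 k) (dY k) p + Jc (dX k) (A2 k) p)
        - 1 / 3 * (Jc (A1 k) nY p + Jc nX (A2 k) p) + 1 / 3 * (NN p ^ 3)⁻¹) := by
      refine setIntegral_congr_ae SQ_meas ?_
      filter_upwards [hk.hess_ae] with p H _
      exact bla_pt hk H
    have m1 : IntegrableOn (fun p => NN p * hd k p + NN p * hd (fun q => NN q - k q) p) SQ :=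
      i0.add i0'
    have m2 : IntegrableOn (fun p => k p * hd k p + (NN p - k p) * hd (fun q => NN q - k q) p) SQ :=
      iv.add iv'
    have m3 : IntegrableOn (fun p => 2 / 3 * (Jc (A1 k) (dY k) p + Jc (dX k) (A2 k) p)
        - 1 / 3 * (Jc (A1 k) nY p + Jc nX (A2 k) p)) SQ :=
      (i1.const_mul _).sub (i2.const_mul _)
    rw [integral_sub m1 (m2.const_mul _), integral_const_mul, integral_add i0 i0',
      integral_add iv iv', integral_add m3 (i5.const_mul _),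
      integral_sub (i1.const_mul _) (i2.const_mul _), integral_const_mul, integral_const_mul,
      integral_const_mul] at e
    rw [St_sw, Vt_sw]
    unfold St Vt
    linarith
  rw [key hf, key hh, c1 hf hh, c2 hf hh]

theorem f1_sw : f1 = sw f0 := rfl

/-- **row D, (N1)** -/
theorem dfun_vol (hf : Adm f) :
    Dfun (fun p => f0 p - f p) = 2 * ((Vt f + Vt (sw f)) - (Vt f0 + Vt f1)) := by
  have h1 := bridge hf
  have h2 := area_const hf adm_f0
  have h3 := blaschke hf adm_f0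
  rw [f1_sw]
  linarith

/-- the loss form of (N1): `l f = Vt f0 - Vt f` and `v_L = Vt f0 - Vt f1` -/
theorem dfun_loss (hf : Adm f) :
    Dfun (fun p => f0 p - f p)
      = 2 * ((Vt f0 - Vt f1) - (Vt f0 - Vt f) - (Vt f0 - Vt (sw f))) := by
  rw [dfun_vol hf]; ring

end Helper55.MEI
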