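import Pool.Agent.Helper55.MEI.D2
import Pool.Agent.Helper22.MEI.Flux2

/-!
# Project MEI, row D: (N1) in the notation of the sheet
-/

namespace Helper55.MEI

open Helper22.MEI

/-- **(N1)** -/
theorem N1 {f : ℝ × ℝ → ℝ} (hf : Adm f) : Dfun (fun p => f0 p - f p)
    = 2 * ((Helper22.MEI.Vt f0 - Helper22.MEI.Vt f1) - (Helper22.MEI.Vt f0 - Helper22.MEI.Vt f)
      - (Helper22.MEI.Vt f0 - Helper22.MEI.Vt (sw f))) := dfun_loss hf

end Helper55.MEI
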