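import Pool.Agent.Helper55.MEI.ApexM

/-!
# The exact filling: `u = (b - N u)⁺`
-/

namespace Pool.Agent.Helper55.Fill

open Set MeasureTheory Pool.Agent.Helper55.Sx Pool.Agent.Helper55.Mass Pool.Agent.Helper55.Apex

variable {N : Fin 3 → Fin 3 → ℝ} {b : Fin 3 → ℝ}

/-- `u` is an exact filling of `b` -/
def IsF (N : Fin 3 → Fin 3 → ℝ) (b u : Fin 3 → ℝ) : Prop := ∀ k, u k = max (b k - LN N u k) 0

theorem abs_LN (hN : ∀ k m, 0 ≤ N k m) (x y : Fin 3 → ℝ) (k : Fin 3) :
    |LN N x k - LN N y k| ≤ N k 0 * |x 0 - y 0| + N k 1 * |x 1 - y 1| + N k 2 * |x 2 - y 2| := by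
  have e : LN N x k - LN N y k = N k 0 * (x 0 - y 0) + N k 1 * (x 1 - y 1)
      + N k 2 * (x 2 - y 2) := by
    simp only [LN]; ring
  rw [e]
  refine (abs_add_three _ _ _).trans ?_
  rw [abs_mul, abs_mul, abs_mul, abs_of_nonneg (hN k 0), abs_of_nonneg (hN k 1),
    abs_of_nonneg (hN k 2)]

/-- one step of the iteration -/
theorem step_le (hN : ∀ k m, 0 ≤ N k m) {c : ℝ} (hcol : ∀ m, nc N m ≤ c) (b b' x y : Fin 3 → ℝ) :
    |max (b 0 - LN N x 0) 0 - max (b' 0 - LN N y 0) 0|
      + |max (b 1 - LN N x 1) 0 - max (b' 1 - LN N y 1) 0|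
      + |max (b 2 - LN N x 2) 0 - max (b' 2 - LN N y 2) 0|
      ≤ (|b 0 - b' 0| + |b 1 - b' 1| + |b 2 - b' 2|)
        + c * (|x 0 - y 0| + |x 1 - y 1| + |x 2 - y 2|) := by
  have key : ∀ k, |max (b k - LN N x k) 0 - max (b' k - LN N y k) 0| ≤ |b k - b' k|
      + (N k 0 * |x 0 - y 0| + N k 1 * |x 1 - y 1| + N k 2 * |x 2 - y 2|) := by
    intro k
    have h1 := abs_max_sub_max_le_abs (b k - LN N x k) (b' k - LN N y k) 0
    have h2 : |b k - LN N x k - (b' k - LN N y k)| ≤ |b k - b' k| + |LN N x k - LN N y k| := by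
      have e : b k - LN N x k - (b' k - LN N y k) = (b k - b' k) - (LN N x k - LN N y k) := by ring
      rw [e]
      exact abs_sub _ _
    have h3 := abs_LN hN x y k
    linarith
  have k0 := key 0
  have k1 := key 1
  have k2 := key 2
  have c0 := mul_le_mul_of_nonneg_right (hcol 0) (abs_nonneg (x 0 - y 0))
  have c1 := mul_le_mul_of_nonneg_right (hcol 1) (abs_nonneg (x 1 - y 1))
  have c2 := mul_le_mul_of_nonneg_right (hcol 2) (abs_nonneg (x 2 - y 2))
  simp only [nc] at c0 c1 c2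
  linarith

/-- existence of the exact filling -/
theorem exists_F (hN : ∀ k m, 0 ≤ N k m) {c : ℝ} (hc : c < 1) (hcol : ∀ m, nc N m ≤ c)
    (b : Fin 3 → ℝ) : ∃ u, IsF N b u := by
  have hc0 : 0 ≤ c := by
    have := hcol 0
    have h1 := hN 0 0
    have h2 := hN 1 0
    have h3 := hN 2 0
    simp only [nc] at this
    linarith
  let T : PiLp 1 (fun _ : Fin 3 => ℝ) → PiLp 1 (fun _ : Fin 3 => ℝ) :=
    fun x => WithLp.toLp 1 (fun k => max (b k - LN N x.ofLp k) 0)
  have hT : ContractingWith ⟨c, hc0⟩ T := by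
    refine ⟨?_, ?_⟩
    · rw [← NNReal.coe_lt_coe]
      exact hc
    · refine LipschitzWith.of_dist_le_mul fun x y => ?_
      rw [PiLp.dist_eq_of_L1, PiLp.dist_eq_of_L1]
      simp only [Fin.sum_univ_three, Real.dist_eq, T]
      have h := step_le hN hcol b b x.ofLp y.ofLp
      simp only [sub_self, abs_zero, add_zero, zero_add] at h
      exact h
  refine ⟨(ContractingWith.fixedPoint T hT).ofLp, fun k => ?_⟩
  have h := hT.fixedPoint_isFixedPt
  have h2 := congrArg (fun z : PiLp 1 (fun _ : Fin 3 => ℝ) => z.ofLp k) h.eq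
  exact h2.symm

/-- the filling is Lipschitz -/
theorem F_lip (hN : ∀ k m, 0 ≤ N k m) {c : ℝ} (hcol : ∀ m, nc N m ≤ c)
    {b b' x y : Fin 3 → ℝ} (hx : IsF N b x) (hy : IsF N b' y) :
    (1 - c) * (|x 0 - y 0| + |x 1 - y 1| + |x 2 - y 2|)
      ≤ |b 0 - b' 0| + |b 1 - b' 1| + |b 2 - b' 2| := by
  have h := step_le hN hcol b b' x y
  rw [← hx 0, ← hx 1, ← hx 2, ← hy 0, ← hy 1, ← hy 2] at h
  linarith

theorem F_unique (hN : ∀ k m, 0 ≤ N k m) {c : ℝ} (hc : c < 1) (hcol : ∀ m, nc N m ≤ c)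
    {b x y : Fin 3 → ℝ} (hx : IsF N b x) (hy : IsF N b y) : x = y := by
  have h := F_lip hN hcol hx hy
  simp only [sub_self, abs_zero, add_zero] at h
  have a0 := abs_nonneg (x 0 - y 0)
  have a1 := abs_nonneg (x 1 - y 1)
  have a2 := abs_nonneg (x 2 - y 2)
  have hs : |x 0 - y 0| + |x 1 - y 1| + |x 2 - y 2| ≤ 0 := by
    by_contra h'
    push Not at h'
    have := mul_pos (sub_pos.2 hc) h'
    linarith
  funext k
  rw [← sub_eq_zero, ← abs_eq_zero]
  fin_cases k
  · change |x 0 - y 0| = 0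
    linarith
  · change |x 1 - y 1| = 0
    linarith
  · change |x 2 - y 2| = 0
    linarith

open Classical in
/-- the exact filling -/
noncomputable def uu (N : Fin 3 → Fin 3 → ℝ) (b : Fin 3 → ℝ) : Fin 3 → ℝ :=
  if h : ∃ u, IsF N b u then h.choose else 0

/-- factor of the wall `l` -/
noncomputable def tu (N : Fin 3 → Fin 3 → ℝ) (b : Fin 3 → ℝ) (l : Fin 3) : ℝ :=
  if b l < LN N (uu N b) l then b l / LN N (uu N b) l else 1

/-- common factor -/
noncomputable def tq (N : Fin 3 → Fin 3 → ℝ) (b : Fin 3 → ℝ) : ℝ :=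
  min (tu N b 0) (min (tu N b 1) (tu N b 2))

/-- the loads -/
noncomputable def xx (N : Fin 3 → Fin 3 → ℝ) (b : Fin 3 → ℝ) (j : Fin 3) : ℝ :=
  tq N b * uu N b j

/-- the residual -/
noncomputable def rr (N : Fin 3 → Fin 3 → ℝ) (b : Fin 3 → ℝ) (k : Fin 3) : ℝ :=
  b k - (xx N b k + LN N (xx N b) k)

section
variable (hN : ∀ k m, 0 ≤ N k m) {c : ℝ} (hc : c < 1) (hcol : ∀ m, nc N m ≤ c)
include hN hc hcol

theorem uu_F (b : Fin 3 → ℝ) : IsF N b (uu N b) := by
  have h := exists_F hN hc hcol b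
  unfold uu
  rw [dif_pos h]
  exact h.choose_spec

theorem uu_nonneg (b : Fin 3 → ℝ) (k : Fin 3) : 0 ≤ uu N b k := by
  rw [uu_F hN hc hcol b k]
  exact le_max_right _ _

theorem uu_ge (b : Fin 3 → ℝ) (k : Fin 3) : b k - LN N (uu N b) k ≤ uu N b k := by
  have h := uu_F hN hc hcol b k
  have h1 : b k - LN N (uu N b) k ≤ max (b k - LN N (uu N b) k) 0 := le_max_left _ _
  rw [← h] at h1
  exact h1

theorem uu_le (hb : ∀ k, 0 ≤ b k) (k : Fin 3) : uu N b k ≤ b k := by
  have h := uu_F hN hc hcol b k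
  have h2 := LN_nonneg hN (uu_nonneg hN hc hcol b) k
  rw [h]
  exact max_le (by linarith) (hb k)

theorem LN_uu_le (hb : ∀ k, 0 ≤ b k) (k : Fin 3) : LN N (uu N b) k ≤ LN N b k := by
  have h0 := mul_le_mul_of_nonneg_left (uu_le hN hc hcol hb 0) (hN k 0)
  have h1 := mul_le_mul_of_nonneg_left (uu_le hN hc hcol hb 1) (hN k 1)
  have h2 := mul_le_mul_of_nonneg_left (uu_le hN hc hcol hb 2) (hN k 2)
  unfold LN
  linarith

theorem uu_zero {l : Fin 3} (h : b l < LN N (uu N b) l) : uu N b l = 0 := by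
  have h1 := uu_F hN hc hcol b l
  rw [max_eq_right (by linarith)] at h1
  exact h1

theorem uu_exact {l : Fin 3} (h : LN N (uu N b) l ≤ b l) : uu N b l + LN N (uu N b) l = b l := by
  have h1 := uu_F hN hc hcol b l
  rw [max_eq_left (by linarith)] at h1
  linarith

theorem tu_nonneg (hb : ∀ k, 0 ≤ b k) (l : Fin 3) : 0 ≤ tu N b l := by
  unfold tu
  split_ifs
  · exact div_nonneg (hb l) (LN_nonneg hN (uu_nonneg hN hc hcol b) l)
  · exact zero_le_one

omit hN hc hcol in
theorem tu_le_one (hb : ∀ k, 0 ≤ b k) (l : Fin 3) : tu N b l ≤ 1 := by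
  unfold tu
  split_ifs with h
  · exact (div_le_one (lt_of_le_of_lt (hb l) h)).2 h.le
  · exact le_rfl

theorem thl_le_tu (hb : ∀ k, 0 ≤ b k) (l : Fin 3) : thl N b l ≤ tu N b l := by
  have h1 := LN_uu_le hN hc hcol hb l
  unfold tu
  split_ifs with h
  · unfold thl
    rw [if_pos (lt_of_lt_of_le h h1)]
    exact div_le_div_of_nonneg_left (hb l) (lt_of_le_of_lt (hb l) h) h1
  · exact thl_le_one hb l

omit hN hc hcol in
theorem tq_le (l : Fin 3) : tq N b ≤ tu N b l := by
  unfold tq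
  fin_cases l
  · exact min_le_left _ _
  · exact (min_le_right _ _).trans (min_le_left _ _)
  · exact (min_le_right _ _).trans (min_le_right _ _)

omit hN hc hcol in
theorem tq_eq : tq N b = tu N b 0 ∨ tq N b = tu N b 1 ∨ tq N b = tu N b 2 := by
  unfold tq
  rcases min_choice (tu N b 0) (min (tu N b 1) (tu N b 2)) with h | h
  · exact Or.inl h
  · rw [h]
    rcases min_choice (tu N b 1) (tu N b 2) with h2 | h2
    · exact Or.inr (Or.inl h2)
    · exact Or.inr (Or.inr h2)

theorem tq_nonneg (hb : ∀ k, 0 ≤ b k) : 0 ≤ tq N b :=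
  le_min (tu_nonneg hN hc hcol hb 0) (le_min (tu_nonneg hN hc hcol hb 1)
    (tu_nonneg hN hc hcol hb 2))

omit hN hc hcol in
theorem tq_le_one (hb : ∀ k, 0 ≤ b k) : tq N b ≤ 1 := (tq_le 0).trans (tu_le_one hb 0)

theorem xx_nonneg (hb : ∀ k, 0 ≤ b k) (j : Fin 3) : 0 ≤ xx N b j :=
  mul_nonneg (tq_nonneg hN hc hcol hb) (uu_nonneg hN hc hcol b j)

theorem xx_le (hb : ∀ k, 0 ≤ b k) (j : Fin 3) : xx N b j ≤ b j := by
  have h1 := tq_le_one (N := N) hb
  calc xx N b j ≤ 1 * uu N b j :=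
        mul_le_mul_of_nonneg_right h1 (uu_nonneg hN hc hcol b j)
    _ ≤ b j := by rw [one_mul]; exact uu_le hN hc hcol hb j

omit hN hc hcol in
theorem LN_xx (k : Fin 3) : LN N (xx N b) k = tq N b * LN N (uu N b) k := by
  simp only [LN, xx]; ring

/-- **feasibility** -/
theorem xx_feas (hb : ∀ k, 0 ≤ b k) (k : Fin 3) : xx N b k + LN N (xx N b) k ≤ b k := by
  rw [LN_xx]
  rcases lt_or_ge (b k) (LN N (uu N b) k) with h | h
  · have h0 := uu_zero hN hc hcol h
    have h1 : tu N b k = b k / LN N (uu N b) k := by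
      unfold tu
      rw [if_pos h]
    have hL : 0 < LN N (uu N b) k := lt_of_le_of_lt (hb k) h
    have h2 := mul_le_mul_of_nonneg_right (tq_le (N := N) (b := b) k) hL.le
    rw [h1, div_mul_cancel₀ _ hL.ne'] at h2
    have h3 : xx N b k = 0 := by rw [xx, h0, mul_zero]
    linarith
  · have h1 := uu_exact hN hc hcol h
    have h2 := mul_le_mul_of_nonneg_right (tq_le_one (N := N) hb) (hb k)
    rw [← h1] at h2
    have e : xx N b k + tq N b * LN N (uu N b) k = tq N b * (uu N b k + LN N (uu N b) k) := by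
      rw [xx]; ring
    rw [e]
    linarith

theorem rr_nonneg (hb : ∀ k, 0 ≤ b k) (k : Fin 3) : 0 ≤ rr N b k :=
  sub_nonneg.2 (xx_feas hN hc hcol hb k)

/-- **the residual** is small away from the other walls -/
theorem rr_le (hb : ∀ k, 0 ≤ b k) {j l k : Fin 3} (hjl : j ≠ l) (hjk : j ≠ k) (hlk : l ≠ k) :
    rr N b j ≤ (1 - thl N b l) * b j + (1 - thl N b k) * b j := by
  have hl := thl_le_tu hN hc hcol hb l
  have hk := thl_le_tu hN hc hcol hb k
  have hl1 := tu_le_one (N := N) hb l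
  have hk1 := tu_le_one (N := N) hb k
  have hbj := hb j
  have pl := mul_nonneg (sub_nonneg.2 hl) hbj
  have pk := mul_nonneg (sub_nonneg.2 hk) hbj
  have ql := mul_nonneg (sub_nonneg.2 hl1) hbj
  have qk := mul_nonneg (sub_nonneg.2 hk1) hbj
  unfold rr
  rw [LN_xx]
  have hcase : tq N b = tu N b j ∨ tq N b = tu N b l ∨ tq N b = tu N b k := by
    have hi : ∀ i : Fin 3, i = j ∨ i = l ∨ i = k := by
      intro i
      revert hjl hjk hlk
      clear * -
      revert i j l k
      decide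
    rcases tq_eq (N := N) (b := b) with h | h | h <;> rw [h]
    · rcases hi 0 with h' | h' | h' <;> rw [h'] <;> simp
    · rcases hi 1 with h' | h' | h' <;> rw [h'] <;> simp
    · rcases hi 2 with h' | h' | h' <;> rw [h'] <;> simp
  rcases lt_or_ge (b j) (LN N (uu N b) j) with h | h
  · have h0 := uu_zero hN hc hcol h
    have h3 : xx N b j = 0 := by rw [xx, h0, mul_zero]
    rw [h3, zero_add]
    rcases hcase with h4 | h4 | h4
    · have h1 : tu N b j = b j / LN N (uu N b) j := by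
        unfold tu
        rw [if_pos h]
      have hL : 0 < LN N (uu N b) j := lt_of_le_of_lt (hb j) h
      rw [h4, h1, div_mul_cancel₀ _ hL.ne']
      linarith
    · have h5 : tq N b * b j ≤ tq N b * LN N (uu N b) j :=
        mul_le_mul_of_nonneg_left h.le (tq_nonneg hN hc hcol hb)
      rw [h4] at h5 ⊢
      linarith
    · have h5 : tq N b * b j ≤ tq N b * LN N (uu N b) j :=
        mul_le_mul_of_nonneg_left h.le (tq_nonneg hN hc hcol hb)
      rw [h4] at h5 ⊢
      linarith
  · have h1 := uu_exact hN hc hcol h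
    have e : b j - (xx N b j + tq N b * LN N (uu N b) j) = (1 - tq N b) * b j := by
      have : xx N b j + tq N b * LN N (uu N b) j = tq N b * b j := by
        rw [xx, ← mul_add, h1]
      rw [this]; ring
    rw [e]
    rcases hcase with h4 | h4 | h4
    · have h5 : tu N b j = 1 := by
        unfold tu
        rw [if_neg (not_lt.2 h)]
      rw [h4, h5]
      linarith
    · rw [h4]
      linarith
    · rw [h4]
      linarith

/-- lower bound of the loads -/
theorem xx_low (hb : ∀ k, 0 ≤ b k) {j l k : Fin 3} (hjl : j ≠ l) (hjk : j ≠ k) (hlk : l ≠ k) :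
    b j - LN N b j - (1 - thl N b l) * b j - (1 - thl N b k) * b j ≤ xx N b j := by
  have h1 := rr_le hN hc hcol hb hjl hjk hlk
  unfold rr at h1
  have h2 : LN N (xx N b) j ≤ LN N b j := by
    have g0 := mul_le_mul_of_nonneg_left (xx_le hN hc hcol hb 0) (hN j 0)
    have g1 := mul_le_mul_of_nonneg_left (xx_le hN hc hcol hb 1) (hN j 1)
    have g2 := mul_le_mul_of_nonneg_left (xx_le hN hc hcol hb 2) (hN j 2)
    unfold LN
    linarith
  linarith

/-- inside the cone of the contact points -/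
theorem uu_cone {x : Fin 3 → ℝ} (hx : ∀ k, 0 ≤ x k) (h : ∀ k, x k + LN N x k = b k) :
    uu N b = x := by
  refine F_unique hN hc hcol (uu_F hN hc hcol b) fun k => ?_
  have e : b k - LN N x k = x k := by rw [← h k]; ring
  rw [e, max_eq_left (hx k)]

theorem xx_cone {x : Fin 3 → ℝ} (hx : ∀ k, 0 ≤ x k) (h : ∀ k, x k + LN N x k = b k) :
    xx N b = x := by
  have hu := uu_cone hN hc hcol hx h
  have ht : ∀ l, tu N b l = 1 := fun l => by
    unfold tu
    rw [hu, if_neg]
    rw [not_lt, ← h l]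
    linarith [hx l]
  funext j
  unfold xx tq
  rw [ht, ht, ht, hu]
  simp

/-- continuity of the filling -/
theorem uu_cont (k : Fin 3) : Continuous fun t => uu N (vv t) k := by
  have hcp : 0 < 1 - c := by linarith
  have hv : ∀ k, Continuous fun t : ℝ × ℝ => vv t k := by
    intro k
    fin_cases k
    · exact continuous_fst
    · exact continuous_snd
    · change Continuous t3
      unfold t3
      fun_prop
  rw [continuous_iff_continuousAt]
  intro s
  rw [ContinuousAt, tendsto_iff_dist_tendsto_zero]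
  have hle : ∀ t, dist (uu N (vv t) k) (uu N (vv s) k)
      ≤ (|vv t 0 - vv s 0| + |vv t 1 - vv s 1| + |vv t 2 - vv s 2|) / (1 - c) := by
    intro t
    rw [le_div_iff₀ hcp, Real.dist_eq]
    have h := F_lip hN hcol (uu_F hN hc hcol (vv t)) (uu_F hN hc hcol (vv s))
    have a0 := abs_nonneg (uu N (vv t) 0 - uu N (vv s) 0)
    have a1 := abs_nonneg (uu N (vv t) 1 - uu N (vv s) 1)
    have a2 := abs_nonneg (uu N (vv t) 2 - uu N (vv s) 2)
    refine le_trans ?_ h
    rw [mul_comm]
    refine mul_le_mul_of_nonneg_left ?_ hcp.le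
    fin_cases k
    · change |uu N (vv t) 0 - uu N (vv s) 0| ≤ _
      linarith
    · change |uu N (vv t) 1 - uu N (vv s) 1| ≤ _
      linarith
    · change |uu N (vv t) 2 - uu N (vv s) 2| ≤ _
      linarith
  refine squeeze_zero (fun t => dist_nonneg) hle ?_
  have hg : Continuous fun t : ℝ × ℝ =>
      (|vv t 0 - vv s 0| + |vv t 1 - vv s 1| + |vv t 2 - vv s 2|) / (1 - c) :=
    ((((hv 0).sub continuous_const).abs.add ((hv 1).sub continuous_const).abs).add
      ((hv 2).sub continuous_const).abs).div_const _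
  have h := hg.tendsto s
  simpa using h

theorem LN_uu_meas (k : Fin 3) : Measurable fun t => LN N (uu N (vv t)) k := by
  unfold LN
  exact (((uu_cont hN hc hcol 0).measurable.const_mul _).add
    ((uu_cont hN hc hcol 1).measurable.const_mul _)).add
    ((uu_cont hN hc hcol 2).measurable.const_mul _)

theorem tu_meas (l : Fin 3) : Measurable fun t => tu N (vv t) l := by
  unfold tu
  exact Measurable.ite (measurableSet_lt (vv_meas l) (LN_uu_meas hN hc hcol l))
    ((vv_meas l).div (LN_uu_meas hN hc hcol l)) measurable_const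

theorem xx_meas (j : Fin 3) : Measurable fun t => xx N (vv t) j := by
  unfold xx tq
  exact ((tu_meas hN hc hcol 0).min ((tu_meas hN hc hcol 1).min (tu_meas hN hc hcol 2))).mul
    (uu_cont hN hc hcol j).measurable

theorem xx_int (j : Fin 3) : IntegrableOn (fun t => xx N (vv t) j / mm t ^ 2) Sim :=
  intOn (C := 1) (xx_meas hN hc hcol j) fun t ht => by
    rw [abs_of_nonneg (xx_nonneg hN hc hcol (fun k => vv_nonneg ht k) j)]
    exact (xx_le hN hc hcol (fun k => vv_nonneg ht k) j).trans (vv_le ht j)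

theorem rr_meas (j : Fin 3) : Measurable fun t => rr N (vv t) j := by
  unfold rr LN
  exact (vv_meas j).sub ((xx_meas hN hc hcol j).add
    ((((xx_meas hN hc hcol 0).const_mul _).add ((xx_meas hN hc hcol 1).const_mul _)).add
      ((xx_meas hN hc hcol 2).const_mul _)))

theorem rr_int (j : Fin 3) : IntegrableOn (fun t => rr N (vv t) j / mm t ^ 2) Sim :=
  intOn (C := 1) (rr_meas hN hc hcol j) fun t ht => by
    have hb := fun k => vv_nonneg ht k
    rw [abs_of_nonneg (rr_nonneg hN hc hcol hb j)]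
    have h1 := xx_nonneg hN hc hcol hb j
    have h2 := LN_nonneg hN (xx_nonneg hN hc hcol hb) j
    have h3 := vv_le ht j
    unfold rr
    linarith

end

end Pool.Agent.Helper55.Fill
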