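import Pool.Agent.Helper73.MEI.FW6

/-!
# Project MEI (M2): one multi-affine weight of the apex for all classes

`gM` = a multi-affine polynomial of the three columns; `apxN_common`: the structure `ApxN` of a
face with `gc = gs l = gM` from polynomial inequalities on the box of the columns.
-/

set_option autoImplicit false

namespace Pool.Agent.Helper55.GApx

open Pool.Agent.Helper55.Apex (nc)
open Pool.Agent.Helper55.TentL (PC PX)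
open Pool.Agent.Helper73.MEI.SideP (TN QN TN_nonneg nc_nonneg)
open Pool.Agent.Helper73.MEI.ArCor (ApxN DomN MasB phiN)

/-- a multi-affine polynomial, coefficients by masks (`x` = 1, `y` = 2, `z` = 4) -/
def gM (c0 c1 c2 c3 c4 c5 c6 c7 x y z : ℝ) : ℝ :=
  c0 + c1 * x + c2 * y + c3 * (x * y) + c4 * z + c5 * (x * z) + c6 * (y * z) + c7 * (x * y * z)

/-- the inequalities of one common weight on the box `[0, t0] × [0, t1] × [0, t2]` -/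
structure GBx (rb q r V γ t0 t1 t2 : ℝ) (g : ℝ → ℝ → ℝ → ℝ) : Prop where
  k0 : ∀ x y z : ℝ, 0 ≤ x → x ≤ t0 → 0 ≤ y → y ≤ t1 → 0 ≤ z → z ≤ t2 → 0 ≤ g x y z
  k1 : ∀ x y z : ℝ, 0 ≤ x → x ≤ t0 → 0 ≤ y → y ≤ t1 → 0 ≤ z → z ≤ t2 →
    0 ≤ (2.04 * (1 - (x + y + z) ^ 2 / 4) - 22.6276 * rb * C1 (x + y + z) (x ^ 2 + y ^ 2 + z ^ 2) ^ 2)
      * (1872 / 10000 * ((1 - 19 / 20 * x) * (1 - 19 / 20 * y) * (1 - 19 / 20 * z)))
      - q * g x y z * (1 - (x + y + z) ^ 2 / 4)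
  k2 : ∀ x y z : ℝ, 0 ≤ x → x ≤ t0 → 0 ≤ y → y ≤ t1 → 0 ≤ z → z ≤ t2 →
    0 ≤ 2.04 * (22.6276 * C1 (x + y + z) (x ^ 2 + y ^ 2 + z ^ 2) ^ 2)
      * (1872 / 10000 * ((1 - 19 / 20 * x) * (1 - 19 / 20 * y) * (1 - 19 / 20 * z)))
      - γ * q * (1 - (x + y + z) ^ 2 / 4)
  k3 : ∀ x y z : ℝ, 0 ≤ x → x ≤ t0 → 0 ≤ y → y ≤ t1 → 0 ≤ z → z ≤ t2 →
    0 ≤ 2.04 * (1 - (x + y + z) ^ 2 / 4) - 22.6276 * rb * C1 (x + y + z) (x ^ 2 + y ^ 2 + z ^ 2) ^ 2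
  s1x : ∀ x y z : ℝ, 0 ≤ x → x ≤ t0 → 0 ≤ y → y ≤ t1 → 0 ≤ z → z ≤ t2 →
    0 ≤ (2.04 * (1 - (x + y + z) ^ 2 / 4) - 22.6276 * rb * C1 (x + y + z) (x ^ 2 + y ^ 2 + z ^ 2) ^ 2)
      * (192 / 1000 * ((1 - 11 / 10 * x) * (1 - 13 / 10 * y) * (1 - 13 / 10 * z)))
      - (r + x * V) * g x y z * (1 - (x + y + z) ^ 2 / 4)
  s1y : ∀ x y z : ℝ, 0 ≤ x → x ≤ t0 → 0 ≤ y → y ≤ t1 → 0 ≤ z → z ≤ t2 →
    0 ≤ (2.04 * (1 - (x + y + z) ^ 2 / 4) - 22.6276 * rb * C1 (x + y + z) (x ^ 2 + y ^ 2 + z ^ 2) ^ 2)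
      * (192 / 1000 * ((1 - 13 / 10 * x) * (1 - 11 / 10 * y) * (1 - 13 / 10 * z)))
      - (r + y * V) * g x y z * (1 - (x + y + z) ^ 2 / 4)
  s1z : ∀ x y z : ℝ, 0 ≤ x → x ≤ t0 → 0 ≤ y → y ≤ t1 → 0 ≤ z → z ≤ t2 →
    0 ≤ (2.04 * (1 - (x + y + z) ^ 2 / 4) - 22.6276 * rb * C1 (x + y + z) (x ^ 2 + y ^ 2 + z ^ 2) ^ 2)
      * (192 / 1000 * ((1 - 13 / 10 * x) * (1 - 13 / 10 * y) * (1 - 11 / 10 * z)))
      - (r + z * V) * g x y z * (1 - (x + y + z) ^ 2 / 4)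
  s2x : ∀ x y z : ℝ, 0 ≤ x → x ≤ t0 → 0 ≤ y → y ≤ t1 → 0 ≤ z → z ≤ t2 →
    0 ≤ 2.04 * (22.6276 * C1 (x + y + z) (x ^ 2 + y ^ 2 + z ^ 2) ^ 2)
      * (192 / 1000 * ((1 - 11 / 10 * x) * (1 - 13 / 10 * y) * (1 - 13 / 10 * z)))
      - γ * (r + x * V) * (1 - (x + y + z) ^ 2 / 4)
  s2y : ∀ x y z : ℝ, 0 ≤ x → x ≤ t0 → 0 ≤ y → y ≤ t1 → 0 ≤ z → z ≤ t2 →
    0 ≤ 2.04 * (22.6276 * C1 (x + y + z) (x ^ 2 + y ^ 2 + z ^ 2) ^ 2)
      * (192 / 1000 * ((1 - 13 / 10 * x) * (1 - 11 / 10 * y) * (1 - 13 / 10 * z)))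
      - γ * (r + y * V) * (1 - (x + y + z) ^ 2 / 4)
  s2z : ∀ x y z : ℝ, 0 ≤ x → x ≤ t0 → 0 ≤ y → y ≤ t1 → 0 ≤ z → z ≤ t2 →
    0 ≤ 2.04 * (22.6276 * C1 (x + y + z) (x ^ 2 + y ^ 2 + z ^ 2) ^ 2)
      * (192 / 1000 * ((1 - 13 / 10 * x) * (1 - 13 / 10 * y) * (1 - 11 / 10 * z)))
      - γ * (r + z * V) * (1 - (x + y + z) ^ 2 / 4)
  γ0 : 0 ≤ γ
  q0 : 0 < q

theorem PX0 (N : Fin 3 → Fin 3 → ℝ) : PX N 0 = (1 - 11 / 10 * nc N 0) * (1 - 13 / 10 * nc N 1) *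
    (1 - 13 / 10 * nc N 2) := PX_perm N (by decide) (by decide) (by decide)

theorem PX1 (N : Fin 3 → Fin 3 → ℝ) : PX N 1 = (1 - 13 / 10 * nc N 0) * (1 - 11 / 10 * nc N 1) *
    (1 - 13 / 10 * nc N 2) := by
  rw [PX_perm N (l := 1) (j := 0) (k := 2) (by decide) (by decide) (by decide)]
  ring

theorem PX2 (N : Fin 3 → Fin 3 → ℝ) : PX N 2 = (1 - 13 / 10 * nc N 0) * (1 - 13 / 10 * nc N 1) *
    (1 - 11 / 10 * nc N 2) := by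
  rw [PX_perm N (l := 2) (j := 0) (k := 1) (by decide) (by decide) (by decide)]
  ring

/-- **one common weight of the apex on a face** -/
theorem apxN_common {rb q r V γ : ℝ} {g : ℝ → ℝ → ℝ → ℝ} {D tt : Fin 3 → ℝ} {sg : ℝ}
    (H : GBx rb q r V γ (tt 0) (tt 1) (tt 2) g) :
    ApxN 2.04 rb q r V γ (fun _ => γ) (fun N => g (nc N 0) (nc N 1) (nc N 2))
      (fun _ N => g (nc N 0) (nc N 1) (nc N 2)) (DomN D tt sg) := by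
  have key : ∀ N, DomN D tt sg N → 0 ≤ nc N 0 ∧ nc N 0 ≤ tt 0 ∧ 0 ≤ nc N 1 ∧ nc N 1 ≤ tt 1 ∧
      0 ≤ nc N 2 ∧ nc N 2 ≤ tt 2 := fun N h =>
    ⟨nc_nonneg h.1 0, h.2.2.1 0, nc_nonneg h.1 1, h.2.2.1 1, nc_nonneg h.1 2, h.2.2.1 2⟩
  refine ⟨?_, ?_, ?_, ?_, ?_, ?_, ?_, H.γ0, fun _ => H.γ0, H.q0⟩
  · intro N hN
    obtain ⟨a0, a1, b0, b1, c0, c1⟩ := key N hN
    exact H.k0 _ _ _ a0 a1 b0 b1 c0 c1
  · intro N hN
    obtain ⟨a0, a1, b0, b1, c0, c1⟩ := key N hN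
    have h := H.k1 _ _ _ a0 a1 b0 b1 c0 c1
    unfold PC TN QN
    linarith
  · intro N hN
    obtain ⟨a0, a1, b0, b1, c0, c1⟩ := key N hN
    have h := H.k2 _ _ _ a0 a1 b0 b1 c0 c1
    unfold PC TN QN
    linarith
  · intro N hN
    obtain ⟨a0, a1, b0, b1, c0, c1⟩ := key N hN
    have h := H.k3 _ _ _ a0 a1 b0 b1 c0 c1
    unfold TN QN
    linarith
  · intro l N hN
    obtain ⟨a0, a1, b0, b1, c0, c1⟩ := key N hN
    exact H.k0 _ _ _ a0 a1 b0 b1 c0 c1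
  · intro l N hN
    obtain ⟨a0, a1, b0, b1, c0, c1⟩ := key N hN
    fin_cases l
    · have h := H.s1x _ _ _ a0 a1 b0 b1 c0 c1
      show (r + nc N 0 * V) * g (nc N 0) (nc N 1) (nc N 2) * (1 - TN N ^ 2 / 4) ≤
        (2.04 * (1 - TN N ^ 2 / 4) - 22.6276 * rb * C1 (TN N) (QN N) ^ 2) * (192 / 1000 * PX N 0)
      rw [PX0]
      unfold TN QN
      linarith
    · have h := H.s1y _ _ _ a0 a1 b0 b1 c0 c1
      show (r + nc N 1 * V) * g (nc N 0) (nc N 1) (nc N 2) * (1 - TN N ^ 2 / 4) ≤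
        (2.04 * (1 - TN N ^ 2 / 4) - 22.6276 * rb * C1 (TN N) (QN N) ^ 2) * (192 / 1000 * PX N 1)
      rw [PX1]
      unfold TN QN
      linarith
    · have h := H.s1z _ _ _ a0 a1 b0 b1 c0 c1
      show (r + nc N 2 * V) * g (nc N 0) (nc N 1) (nc N 2) * (1 - TN N ^ 2 / 4) ≤
        (2.04 * (1 - TN N ^ 2 / 4) - 22.6276 * rb * C1 (TN N) (QN N) ^ 2) * (192 / 1000 * PX N 2)
      rw [PX2]
      unfold TN QN
      linarith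
  · intro l N hN
    obtain ⟨a0, a1, b0, b1, c0, c1⟩ := key N hN
    fin_cases l
    · have h := H.s2x _ _ _ a0 a1 b0 b1 c0 c1
      show γ * (r + nc N 0 * V) * (1 - TN N ^ 2 / 4) ≤
        2.04 * (22.6276 * C1 (TN N) (QN N) ^ 2) * (192 / 1000 * PX N 0)
      rw [PX0]
      unfold TN QN
      linarith
    · have h := H.s2y _ _ _ a0 a1 b0 b1 c0 c1
      show γ * (r + nc N 1 * V) * (1 - TN N ^ 2 / 4) ≤
        2.04 * (22.6276 * C1 (TN N) (QN N) ^ 2) * (192 / 1000 * PX N 1)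
      rw [PX1]
      unfold TN QN
      linarith
    · have h := H.s2z _ _ _ a0 a1 b0 b1 c0 c1
      show γ * (r + nc N 2 * V) * (1 - TN N ^ 2 / 4) ≤
        2.04 * (22.6276 * C1 (TN N) (QN N) ^ 2) * (192 / 1000 * PX N 2)
      rw [PX2]
      unfold TN QN
      linarith

theorem sh_eq {rb T Q : ℝ} (hT0 : 0 ≤ T) (hT1 : T ≤ 1) :
    2.04 * (1 - T ^ 2 / 4) - 22.6276 * rb * C1 T Q ^ 2 =
      2.04 * (1 - phiN 2.04 rb T Q) * (1 - T ^ 2 / 4) := by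
  have hD : 0 < 1 - T ^ 2 / 4 := by nlinarith
  have e : phiN 2.04 rb T Q * (2.04 * (1 - T ^ 2 / 4)) = 22.6276 * rb * C1 T Q ^ 2 := by
    unfold phiN C1
    exact div_mul_cancel₀ _ (by positivity)
  linarith

/-- **one common weight of the apex on a face**, in the form of `MasB` -/
theorem masB_common {rb q r V γ s : ℝ} {g : ℝ → ℝ → ℝ → ℝ} {tt : Fin 3 → ℝ}
    (H : GBx rb q r V γ (tt 0) (tt 1) (tt 2) g) (ht1 : tt 0 + tt 1 + tt 2 ≤ 1)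
    (hs : 1 + s ≤ q ^ 2) (cl : Option (Fin 3)) (N : Fin 3 → Fin 3 → ℝ)
    (hN : ∀ k m, 0 ≤ N k m) (hnc : ∀ k, nc N k ≤ tt k) :
    0 ≤ g (nc N 0) (nc N 1) (nc N 2) ∧
      MasB 2.04 s r V (phiN 2.04 rb (TN N) (QN N)) (g (nc N 0) (nc N 1) (nc N 2)) N cl := by
  have a0 := nc_nonneg hN 0
  have b0 := nc_nonneg hN 1
  have c0 := nc_nonneg hN 2
  have a1 := hnc 0
  have b1 := hnc 1
  have c1 := hnc 2
  have g0 := H.k0 _ _ _ a0 a1 b0 b1 c0 c1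
  refine ⟨g0, ?_⟩
  have eT : TN N = nc N 0 + nc N 1 + nc N 2 := rfl
  have eQ : QN N = nc N 0 ^ 2 + nc N 1 ^ 2 + nc N 2 ^ 2 := rfl
  have hT0 := TN_nonneg hN
  have hT1 : TN N ≤ 1 := by rw [eT]; linarith
  have hD : 0 < 1 - TN N ^ 2 / 4 := by nlinarith
  have sh := sh_eq (rb := rb) (Q := QN N) hT0 hT1
  cases cl with
  | none =>
    have h := H.k1 _ _ _ a0 a1 b0 b1 c0 c1
    rw [← eT, ← eQ, sh] at h
    have eP : PC N = (1 - 19 / 20 * nc N 0) * (1 - 19 / 20 * nc N 1) * (1 - 19 / 20 * nc N 2) := rfl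
    rw [← eP] at h
    have h1 : √(1 + s) ≤ q := Real.sqrt_le_iff.2 ⟨H.q0.le, hs⟩
    have h3 := mul_le_mul_of_nonneg_left h1 g0
    refine h3.trans ?_
    have h4 : g (nc N 0) (nc N 1) (nc N 2) * q * (1 - TN N ^ 2 / 4) ≤
        2.04 * (1 - phiN 2.04 rb (TN N) (QN N)) * (1872 / 10000 * PC N) * (1 - TN N ^ 2 / 4) := by
      linarith
    exact le_of_mul_le_mul_right h4 hD
  | some l =>
    have fin : ∀ P : ℝ, 0 ≤ 2.04 * (1 - phiN 2.04 rb (TN N) (QN N)) * (1 - TN N ^ 2 / 4) *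
        (192 / 1000 * P) - (r + nc N l * V) * g (nc N 0) (nc N 1) (nc N 2) *
          (1 - TN N ^ 2 / 4) →
        g (nc N 0) (nc N 1) (nc N 2) * (r + nc N l * V) ≤
          2.04 * (1 - phiN 2.04 rb (TN N) (QN N)) * (192 / 1000 * P) := by
      intro P h
      have h4 : g (nc N 0) (nc N 1) (nc N 2) * (r + nc N l * V) * (1 - TN N ^ 2 / 4) ≤
          2.04 * (1 - phiN 2.04 rb (TN N) (QN N)) * (192 / 1000 * P) * (1 - TN N ^ 2 / 4) := by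
        linarith
      exact le_of_mul_le_mul_right h4 hD
    apply fin
    fin_cases l
    · have h := H.s1x _ _ _ a0 a1 b0 b1 c0 c1
      rw [← eT, ← eQ, sh, ← PX0] at h
      exact h
    · have h := H.s1y _ _ _ a0 a1 b0 b1 c0 c1
      rw [← eT, ← eQ, sh, ← PX1] at h
      exact h
    · have h := H.s1z _ _ _ a0 a1 b0 b1 c0 c1
      rw [← eT, ← eQ, sh, ← PX2] at h
      exact h

end Pool.Agent.Helper55.GApx
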