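import Pool.Agent.Helper75.MEI.Top

/-!
# Project MEI: the case of equality on one pair of squares

If `Vt f = Vt f0` then `f = f0` on the closed square.
-/

namespace Pool.Agent.Helper55.MEIEq

open Set MeasureTheory Filter Topology Helper22.MEI
open Helper75.MEI (mem_SQ)

variable {f h : ℝ × ℝ → ℝ}

/-- the determinant on the segment dominates the last term -/
theorem hq_ge {p : ℝ × ℝ} (Hf : Hess f p) (Hh : Hess h p) {r : ℝ}
    (h0 : 0 ≤ r) (h1 : r ≤ 1) : r ^ 2 * hd h p ≤ hq f h (p, r) := by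
  have d1 := hd_nonneg Hf
  have d2 := hd_nonneg Hh
  have s1 := Hf.symm
  have s2 := Hh.symm
  have a1 := Hf.pos 1 0
  have a2 := Hf.pos 0 1
  have b1 := Hh.pos 1 0
  have b2 := Hh.pos 0 1
  unfold hd at d1 d2 ⊢
  unfold hq it
  rw [s1] at d1
  rw [s2] at d2
  rw [s1, s2]
  simp only
  set a := dX (dX f) p
  set b := dX (dY f) p
  set c := dY (dY f) p
  set a' := dX (dX h) p
  set b' := dX (dY h) p
  set c' := dY (dY h) p
  have ha : 0 ≤ a := by nlinarith
  have hc : 0 ≤ c := by nlinarith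
  have ha' : 0 ≤ a' := by nlinarith
  have hc' : 0 ≤ c' := by nlinarith
  have e1 : (b * b') ^ 2 ≤ (a * c) * (a' * c') := by
    have k1 : b * b ≤ a * c := by linarith
    have k2 : b' * b' ≤ a' * c' := by linarith
    calc (b * b') ^ 2 = (b * b) * (b' * b') := by ring
      _ ≤ (a * c) * (a' * c') :=
        mul_le_mul k1 k2 (mul_self_nonneg _) (mul_nonneg ha hc)
  have e2 : (2 * (b * b')) ^ 2 ≤ (a * c' + a' * c) ^ 2 := by
    nlinarith [sq_nonneg (a * c' - a' * c)]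
  have e3 : 0 ≤ a * c' + a' * c := add_nonneg (mul_nonneg ha hc') (mul_nonneg ha' hc)
  have e4 := (abs_le_of_sq_le_sq' e2 e3).2
  have e5 : 0 ≤ (1 - r) ^ 2 * (a * c - b * b) := mul_nonneg (sq_nonneg _) (by linarith)
  have e6 : 0 ≤ (1 - r) * r * (a * c' + a' * c - 2 * (b * b')) :=
    mul_nonneg (mul_nonneg (by linarith) h0) (by linarith)
  nlinarith [e5, e6]

theorem int_sq : ∫ r in Ioc (0 : ℝ) 1, r ^ 2 = 1 / 3 := by
  rw [← intervalIntegral.integral_of_le zero_le_one, integral_pow]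
  norm_num

/-- strict form of the monotonicity of the volume functional -/
theorem Vt_sub_ge (hf : Adm f) (hh : Adm h) (hle : ∀ p ∈ SQ, f p ≤ h p) :
    (1 / 3) * ∫ p in SQ, (h p - f p) * hd h p ≤ Vt h - Vt f := by
  have hc : ∀ g : ℝ × ℝ → ℝ, Phi (fun q => (1 / 3) * q.1) (fun q => (1 / 3) * q.2.1)
      (fun q => (1 / 3) * q.2.2) g = Vt g := by
    intro g
    rw [Helper75.MEI.Phi_id]
    ring
  have hfl := flux' (Helper75.MEI.id_smooth1 (1 / 3)) (Helper75.MEI.id_smooth2 (1 / 3))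
    (Helper75.MEI.id_smooth3 (1 / 3)) hf hh
  rw [hc, hc] at hfl
  rw [hfl]
  have g1 := dq_GB (Helper75.MEI.id_smooth1 (1 / 3)) (Helper75.MEI.id_smooth2 (1 / 3))
    (Helper75.MEI.id_smooth3 (1 / 3)) hf hh
  have gw : Good (fun p => (h p - f p) * hd h p) := (hh.gf.sub hf.gf).mul hh.ghd
  have e0 : (1 / 3) * ∫ p in SQ, (h p - f p) * hd h p
      = ∫ r in Ioc (0 : ℝ) 1, ∫ p in SQ, r ^ 2 * ((h p - f p) * hd h p) := by
    have : ∀ r : ℝ, ∫ p in SQ, r ^ 2 * ((h p - f p) * hd h p)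
        = r ^ 2 * ∫ p in SQ, (h p - f p) * hd h p := fun r => integral_const_mul _ _
    simp only [this]
    rw [integral_mul_const, int_sq]
  rw [e0]
  have i1 : IntegrableOn (fun r : ℝ => ∫ p in SQ, r ^ 2 * ((h p - f p) * hd h p))
      (Ioc (0 : ℝ) 1) := by
    have : (fun r : ℝ => ∫ p in SQ, r ^ 2 * ((h p - f p) * hd h p))
        = fun r => r ^ 2 * ∫ p in SQ, (h p - f p) * hd h p := by
      funext r
      exact integral_const_mul _ _
    rw [this]
    exact ((by fun_prop : Continuous fun r : ℝ => r ^ 2 *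
      ∫ p in SQ, (h p - f p) * hd h p).integrableOn_Icc).mono_set Ioc_subset_Icc_self
  refine setIntegral_mono_on i1 g1.outer measurableSet_Ioc fun r hr => ?_
  refine setIntegral_mono_on_ae (gw.int.const_mul _) (g1.slice r).int SQ_meas ?_
  filter_upwards [hf.hess_ae, hh.hess_ae] with p Hf Hh hp
  have a1 := hq_ge Hf Hh hr.1.le hr.2
  have a2 := sub_nonneg.2 (hle p hp)
  unfold dq
  rw [Helper75.MEI.dv_id]
  have a3 := mul_le_mul_of_nonneg_left a1 a2
  calc r ^ 2 * ((h p - f p) * hd h p) = (h p - f p) * (r ^ 2 * hd h p) := by ring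
    _ ≤ (h p - f p) * hq f h (p, r) := a3
    _ = 3 * (1 / 3) * (h p - f p) * hq f h (p, r) := by ring

/-- the lens part of the open square -/
def LU : Set (ℝ × ℝ) := SQ ∩ {p | 1 + p.1 ^ 2 < 3 * p.2 ^ 2}

theorem LU_open : IsOpen LU :=
  (isOpen_Ioo.prod isOpen_Ioo).inter (isOpen_lt (by fun_prop) (by fun_prop))

/-- equality of the volumes gives equality on the lenses -/
theorem eq_lens (hf : Adm f) (he : Vt f = Vt f0) : EqOn f f0 LU := by
  have A0 := Helper55.MEI.adm_f0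
  have hle : ∀ p ∈ SQ, f p ≤ f0 p := fun p hp => hf.le_f0 (mem_SQ hp).1
  have h1 := Vt_sub_ge hf A0 hle
  rw [he, sub_self] at h1
  have gw : Good (fun p => (f0 p - f p) * hd f0 p) := (A0.gf.sub hf.gf).mul A0.ghd
  have hnn : 0 ≤ᵐ[volume.restrict SQ] fun p => (f0 p - f p) * hd f0 p := by
    rw [EventuallyLE, ae_restrict_iff' SQ_meas]
    filter_upwards [A0.hess_ae] with p Hp hp
    exact mul_nonneg (sub_nonneg.2 (hle p hp)) (hd_nonneg Hp)
  have h2 : 0 ≤ ∫ p in SQ, (f0 p - f p) * hd f0 p := integral_nonneg_of_ae hnn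
  have h3 : ∫ p in SQ, (f0 p - f p) * hd f0 p = 0 := by linarith
  have h4 := (setIntegral_eq_zero_iff_of_nonneg_ae hnn gw.int).1 h3
  have h5 : f =ᵐ[volume.restrict LU] f0 := by
    have h6 := ae_restrict_of_ae_restrict_of_subset (inter_subset_left : LU ⊆ SQ) h4
    have h6' := (ae_restrict_iff' LU_open.measurableSet).1 h6
    refine (ae_restrict_iff' LU_open.measurableSet).2 ?_
    filter_upwards [h6'] with p hp hm
    have h7 := hp hm
    have h8 : hd f0 p = 1 / NN p ^ 4 := Helper52.MEI.hd_f0_lens hm.2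
    have h9 : hd f0 p ≠ 0 := by
      rw [h8]
      exact one_div_ne_zero (pow_ne_zero _ (NN_ne p))
    have h10 : (f0 p - f p) * hd f0 p = 0 := h7
    rcases mul_eq_zero.1 h10 with h11 | h11
    · linarith
    · exact absurd h11 h9
  exact Measure.eqOn_open_of_ae_eq h5 LU_open hf.diff.continuous.continuousOn
    A0.diff.continuous.continuousOn

theorem dY_eq_lens (hf : Adm f) (he : Vt f = Vt f0) : EqOn (dY f) (dY f0) LU := by
  intro p hp
  have h1 : f =ᶠ[𝓝 p] f0 := by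
    filter_upwards [LU_open.mem_nhds hp] with q hq
    exact eq_lens hf he hq
  unfold dY
  rw [h1.fderiv_eq]

/-- height of the interface -/
noncomputable def yi (x : ℝ) : ℝ := √((1 + x ^ 2) / 3)

theorem yi_sq (x : ℝ) : yi x ^ 2 = (1 + x ^ 2) / 3 := Real.sq_sqrt (by positivity)

theorem yi_nonneg (x : ℝ) : 0 ≤ yi x := Real.sqrt_nonneg _

theorem s_sq : s ^ 2 = 1 / 2 := by
  unfold s
  rw [div_pow, Real.sq_sqrt (by norm_num)]
  norm_num

theorem yi_lt {x : ℝ} (hx : |x| < s) : yi x < s := by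
  have h1 := s_sq
  have h2 := yi_sq x
  have h3 : x ^ 2 < s ^ 2 := by
    rw [← sq_abs x]
    exact pow_lt_pow_left₀ hx (abs_nonneg _) two_ne_zero
  refine lt_of_pow_lt_pow_left₀ 2 s_pos.le ?_
  rw [h2, h1]
  linarith

theorem mem_LU {x y : ℝ} (hx : |x| < s) (hy : y ∈ Ioo (yi x) s) : (x, y) ∈ LU := by
  have h1 := abs_lt.1 hx
  have h2 := yi_nonneg x
  refine ⟨⟨⟨h1.1, h1.2⟩, ⟨by linarith [hy.1, s_pos], hy.2⟩⟩, ?_⟩
  have h3 := yi_sq x
  have h4 : yi x ^ 2 < y ^ 2 := pow_lt_pow_left₀ hy.1 h2 two_ne_zero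
  have : 1 + x ^ 2 < 3 * y ^ 2 := by linarith
  exact this

/-- equality on the interface -/
theorem eq_iface (hf : Adm f) (he : Vt f = Vt f0) {x : ℝ} (hx : |x| < s) :
    f (x, yi x) = f0 (x, yi x) ∧ dY f (x, yi x) = 0 := by
  have A0 := Helper55.MEI.adm_f0
  have hm : yi x ∈ closure (Ioo (yi x) s) := by
    rw [closure_Ioo (yi_lt hx).ne]
    exact left_mem_Icc.2 (yi_lt hx).le
  have e1 : EqOn (fun y : ℝ => f (x, y)) (fun y : ℝ => f0 (x, y)) (Ioo (yi x) s) :=
    fun y hy => eq_lens hf he (mem_LU hx hy)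
  have e2 : EqOn (fun y : ℝ => dY f (x, y)) (fun y : ℝ => dY f0 (x, y)) (Ioo (yi x) s) :=
    fun y hy => dY_eq_lens hf he (mem_LU hx hy)
  have c0 : Continuous fun y : ℝ => (x, y) := by fun_prop
  have e3 := e1.closure (hf.diff.continuous.comp c0) (A0.diff.continuous.comp c0) hm
  have e4 := e2.closure (hf.cY.comp c0) (A0.cY.comp c0) hm
  refine ⟨e3, ?_⟩
  have e5 : dY f (x, yi x) = dY f0 (x, yi x) := e4
  rw [e5, dY_f0]
  unfold g0Y
  rw [if_pos]
  have := yi_sq x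
  simp only
  linarith

/-- **Equality on one square.** -/
theorem eq_SQ (hf : Adm f) (he : Vt f = Vt f0) : EqOn f f0 SQ := by
  intro p hp
  have hx : |p.1| < s := abs_lt.2 ⟨hp.1.1, hp.1.2⟩
  rcases lt_or_ge (1 + p.1 ^ 2) (3 * p.2 ^ 2) with h | h
  · exact eq_lens hf he ⟨hp, h⟩
  · obtain ⟨h1, h2⟩ := eq_iface hf he hx
    have h3 := Helper14.CW.Geo.tangW hf (p.1, yi p.1) p
    have h4 : Helper14.CW.Geo.pz f (p.1, yi p.1) = f (p.1, yi p.1) - p.1 * dX f (p.1, yi p.1)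
        - yi p.1 * dY f (p.1, yi p.1) := rfl
    have h5 : f0 (p.1, yi p.1) = f0 p := by
      unfold f0
      rw [if_pos h, if_pos]
      have := yi_sq p.1
      simp only
      linarith
    rw [h4, h2, h1, h5] at h3
    have h6 : f p ≤ f0 p := hf.le_f0 hx.le
    linarith

/-- **Equality on one closed square.** -/
theorem eq_top (hf : Adm f) (he : Vt f = Vt f0) {p : ℝ × ℝ} (h1 : |p.1| ≤ s) (h2 : |p.2| ≤ s) :
    f p = f0 p := by
  have A0 := Helper55.MEI.adm_f0
  have e := (eq_SQ hf he).closure hf.diff.continuous A0.diff.continuous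
  refine e ?_
  have hs : (-s) ≠ s := by
    have := s_pos
    intro h
    linarith
  unfold SQ
  rw [closure_prod_eq, closure_Ioo hs]
  exact ⟨abs_le.1 h1, abs_le.1 h2⟩

/-- equality for the mirrored function -/
theorem eq_bot (hf : Adm f) (he : Vt (sw f) = Vt f0) {p : ℝ × ℝ} (h1 : |p.1| ≤ s)
    (h2 : |p.2| ≤ s) : f p = f1 p := by
  have e : sw f (p.2, p.1) = f0 (p.2, p.1) := eq_top hf.swap he (p := (p.2, p.1)) h2 h1
  have e2 : sw f (p.2, p.1) = NN (p.2, p.1) - f (p.1, p.2) := rfl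
  have e3 : NN (p.2, p.1) = NN p := by
    unfold NN
    simp only
    congr 1
    ring
  unfold f1
  rw [← e, e2, e3]
  ring_nf

/-- **The case of equality in the analytic inequality.** -/
theorem eq_cases (hf : Adm f) (he : Vt f + Vt (sw f) = Vt f0 + Vt f1) :
    (∀ p : ℝ × ℝ, |p.1| ≤ s → |p.2| ≤ s → f p = f0 p)
      ∨ (∀ p : ℝ × ℝ, |p.1| ≤ s → |p.2| ≤ s → f p = f1 p) := by
  rcases (Helper75.MEI.main_eq hf).2 he with h | h
  · exact Or.inl fun p h1 h2 => eq_top hf h h1 h2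
  · exact Or.inr fun p h1 h2 => eq_bot hf h h1 h2

/-- the same in terms of the functional `Dfun` -/
theorem eq_cases_D (hf : Adm f) (he : Dfun (fun p => f0 p - f p) = 0) :
    (∀ p : ℝ × ℝ, |p.1| ≤ s → |p.2| ≤ s → f p = f0 p)
      ∨ (∀ p : ℝ × ℝ, |p.1| ≤ s → |p.2| ≤ s → f p = f1 p) := by
  have h := Helper55.MEI.st_D f hf
  refine eq_cases hf ?_
  linarith [h.1, h.2]

end Pool.Agent.Helper55.MEIEq
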