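import Mathlib

/-!
# Elementary integrals for the volume of the Meissner bodies (MP_8bdc10_gt), part a

Antiderivatives in one variable.
-/

open MeasureTheory Set Real

namespace Pool.Agent.Helper55.MEI

/-- the hypotenuse -/
noncomputable def nr (r Y : ℝ) : ℝ := √(r ^ 2 + Y ^ 2)

theorem nr_sq (r Y : ℝ) : nr r Y ^ 2 = r ^ 2 + Y ^ 2 := Real.sq_sqrt (by positivity)

theorem nr_pos {r : ℝ} (hr : 0 < r) (Y : ℝ) : 0 < nr r Y := Real.sqrt_pos.2 (by positivity)

theorem nr_deriv {r : ℝ} (hr : 0 < r) (Y : ℝ) : HasDerivAt (nr r) (Y / nr r Y) Y := by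
  have h1 : HasDerivAt (fun Y : ℝ => r ^ 2 + Y ^ 2) (2 * Y) Y := by
    have := (hasDerivAt_pow 2 Y).const_add (r ^ 2)
    refine this.congr_deriv ?_
    norm_num
  have h2 := h1.sqrt (by positivity : r ^ 2 + Y ^ 2 ≠ 0)
  refine h2.congr_deriv ?_
  unfold nr
  have : √(r ^ 2 + Y ^ 2) ≠ 0 := (nr_pos hr Y).ne'
  field_simp

section yint

variable {r : ℝ} (hr : 0 < r) (Y : ℝ)
include hr

theorem w_deriv : HasDerivAt (fun Y => Y / nr r Y) (r ^ 2 / nr r Y ^ 3) Y := by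
  have hN := (nr_pos hr Y).ne'
  have h := (hasDerivAt_id Y).div (nr_deriv hr Y) hN
  refine h.congr_deriv ?_
  have h2 := nr_sq r Y
  simp only [id]
  field_simp
  rw [h2]
  ring

theorem v_deriv : HasDerivAt (fun Y => (nr r Y)⁻¹) (-Y / nr r Y ^ 3) Y := by
  have hN := (nr_pos hr Y).ne'
  have h := (nr_deriv hr Y).inv hN
  refine h.congr_deriv ?_
  field_simp

theorem at_deriv : HasDerivAt (fun Y => arctan (Y / r)) (r / nr r Y ^ 2) Y := by
  have h := ((hasDerivAt_id Y).div_const r).arctan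
  refine h.congr_deriv ?_
  rw [nr_sq]
  simp only [id]
  field_simp

/-- antiderivative of `N ^ (-3)` -/
theorem a3_deriv : HasDerivAt (fun Y => Y / nr r Y / r ^ 2) (1 / nr r Y ^ 3) Y := by
  have hN := (nr_pos hr Y).ne'
  refine ((w_deriv hr Y).div_const (r ^ 2)).congr_deriv ?_
  field_simp

/-- antiderivative of `N ^ (-4)` -/
theorem a4_deriv : HasDerivAt (fun Y => Y / nr r Y * (nr r Y)⁻¹ / (2 * r ^ 2) +
    arctan (Y / r) / (2 * r ^ 3)) (1 / nr r Y ^ 4) Y := by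
  have hN := (nr_pos hr Y).ne'
  have h := (((w_deriv hr Y).mul (v_deriv hr Y)).div_const (2 * r ^ 2)).add
    ((at_deriv hr Y).div_const (2 * r ^ 3))
  refine h.congr_deriv ?_
  have h2 := nr_sq r Y
  field_simp
  rw [h2]
  ring

/-- antiderivative of `N ^ (-5)` -/
theorem a5_deriv : HasDerivAt (fun Y => Y / nr r Y * (nr r Y)⁻¹ ^ 2 / (3 * r ^ 2) +
    2 * (Y / nr r Y) / (3 * r ^ 4)) (1 / nr r Y ^ 5) Y := by
  have hN := (nr_pos hr Y).ne'
  have h := (((w_deriv hr Y).mul ((v_deriv hr Y).pow 2)).div_const (3 * r ^ 2)).add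
    (((w_deriv hr Y).const_mul 2).div_const (3 * r ^ 4))
  refine h.congr_deriv ?_
  have h2 := nr_sq r Y
  have h3 : r ^ 2 = nr r Y ^ 2 - Y ^ 2 := by linarith
  simp only [Pi.pow_apply, Nat.cast_ofNat, Nat.reduceSub, pow_one]
  field_simp
  rw [h3]
  ring

/-- antiderivative of `Y N ^ (-4)` -/
theorem b4_deriv : HasDerivAt (fun Y => -(nr r Y)⁻¹ ^ 2 / 2) (Y / nr r Y ^ 4) Y := by
  have hN := (nr_pos hr Y).ne'
  have h := (((v_deriv hr Y).pow 2).neg).div_const 2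
  refine h.congr_deriv ?_
  simp only [Nat.cast_ofNat, Nat.reduceSub, pow_one]
  field_simp

/-- antiderivative of `Y N ^ (-5)` -/
theorem b5_deriv : HasDerivAt (fun Y => -(nr r Y)⁻¹ ^ 3 / 3) (Y / nr r Y ^ 5) Y := by
  have hN := (nr_pos hr Y).ne'
  have h := (((v_deriv hr Y).pow 3).neg).div_const 3
  refine h.congr_deriv ?_
  simp only [Nat.cast_ofNat, Nat.reduceSub]
  field_simp

/-- antiderivative of `Y ^ 2 N ^ (-5)` -/
theorem c5_deriv : HasDerivAt (fun Y => (Y / nr r Y) ^ 3 / (3 * r ^ 2))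
    (Y ^ 2 / nr r Y ^ 5) Y := by
  have hN := (nr_pos hr Y).ne'
  have h := ((w_deriv hr Y).pow 3).div_const (3 * r ^ 2)
  refine h.congr_deriv ?_
  simp only [Nat.cast_ofNat, Nat.reduceSub]
  field_simp

end yint

end Pool.Agent.Helper55.MEI
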