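import Pool.Agent.Helper55.MEI.L3a

/-!
# Elementary integrals for the volume of the Meissner bodies (MP_8bdc10_gt), part b

The integrals over `Y`.
-/

open MeasureTheory Set Real

namespace Pool.Agent.Helper55.MEI

/-- half of the diagonal of the unit square -/
noncomputable def s0 : ℝ := √2 / 2

theorem s0_pos : 0 < s0 := by
  unfold s0
  positivity

theorem s0_sq : s0 ^ 2 = 1 / 2 := by
  unfold s0
  rw [div_pow, Real.sq_sqrt (by norm_num)]
  norm_num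

/-- half of the root of three -/
noncomputable def c0 : ℝ := √3 / 2

theorem c0_pos : 0 < c0 := by
  unfold c0
  positivity

theorem c0_sq : c0 ^ 2 = 3 / 4 := by
  unfold c0
  rw [div_pow, Real.sq_sqrt (by norm_num)]
  norm_num

theorem nr_cont (r : ℝ) : Continuous (nr r) := by
  unfold nr
  fun_prop

/-- the integrand on the lens, `Y > 0` -/
noncomputable def gl (r Y : ℝ) : ℝ :=
  5 / 8 * (1 / nr r Y ^ 3) - (Y / nr r Y ^ 4 + s0 * (1 / nr r Y ^ 4)) +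
    3 * (1 / 4 * (Y ^ 2 / nr r Y ^ 5) + s0 / 2 * (Y / nr r Y ^ 5) +
      s0 ^ 2 / 4 * (1 / nr r Y ^ 5))

/-- antiderivative -/
noncomputable def HL (r Y : ℝ) : ℝ :=
  5 / 8 * (Y / nr r Y / r ^ 2) - (-(nr r Y)⁻¹ ^ 2 / 2 + s0 * (Y / nr r Y * (nr r Y)⁻¹ / (2 * r ^ 2) +
    arctan (Y / r) / (2 * r ^ 3))) +
    3 * (1 / 4 * ((Y / nr r Y) ^ 3 / (3 * r ^ 2)) + s0 / 2 * (-(nr r Y)⁻¹ ^ 3 / 3) +
      s0 ^ 2 / 4 * (Y / nr r Y * (nr r Y)⁻¹ ^ 2 / (3 * r ^ 2) +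
    2 * (Y / nr r Y) / (3 * r ^ 4)))

/-- the integrand in the middle -/
noncomputable def gm (r Y : ℝ) : ℝ :=
  3 * (c0 * r - s0 / 2) ^ 2 * (1 / nr r Y ^ 5) + (1 / 8 + c0 * s0 / r) * (1 / nr r Y ^ 3) -
    2 * (c0 * r - s0 / 2) * (1 / nr r Y ^ 4)

/-- antiderivative -/
noncomputable def HM (r Y : ℝ) : ℝ :=
  3 * (c0 * r - s0 / 2) ^ 2 * (Y / nr r Y * (nr r Y)⁻¹ ^ 2 / (3 * r ^ 2) +
    2 * (Y / nr r Y) / (3 * r ^ 4)) + (1 / 8 + c0 * s0 / r) * (Y / nr r Y / r ^ 2) -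
    2 * (c0 * r - s0 / 2) * (Y / nr r Y * (nr r Y)⁻¹ / (2 * r ^ 2) +
    arctan (Y / r) / (2 * r ^ 3))

/-- the integrand on the triangle -/
noncomputable def gt (l r Y : ℝ) : ℝ :=
  6 * l ^ 2 * (1 / nr r Y ^ 5) - 4 * l * (1 / nr r Y ^ 4) + 5 / 4 * (1 / nr r Y ^ 3)

/-- antiderivative -/
noncomputable def HT (l r Y : ℝ) : ℝ :=
  6 * l ^ 2 * (Y / nr r Y * (nr r Y)⁻¹ ^ 2 / (3 * r ^ 2) +
    2 * (Y / nr r Y) / (3 * r ^ 4)) - 4 * l * (Y / nr r Y * (nr r Y)⁻¹ / (2 * r ^ 2) +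
    arctan (Y / r) / (2 * r ^ 3)) + 5 / 4 * (Y / nr r Y / r ^ 2)

section

variable {r : ℝ} (hr : 0 < r)
include hr

theorem HL_deriv (Y : ℝ) : HasDerivAt (HL r) (gl r Y) Y :=
  (((a3_deriv hr Y).const_mul (5 / 8)).sub ((b4_deriv hr Y).add
    ((a4_deriv hr Y).const_mul s0))).add ((((c5_deriv hr Y).const_mul (1 / 4)).add
      ((b5_deriv hr Y).const_mul (s0 / 2))).add ((a5_deriv hr Y).const_mul (s0 ^ 2 / 4)) |>.const_mul 3)

theorem HM_deriv (Y : ℝ) : HasDerivAt (HM r) (gm r Y) Y :=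
  (((a5_deriv hr Y).const_mul (3 * (c0 * r - s0 / 2) ^ 2)).add
    ((a3_deriv hr Y).const_mul (1 / 8 + c0 * s0 / r))).sub
      ((a4_deriv hr Y).const_mul (2 * (c0 * r - s0 / 2)))

theorem HT_deriv (l Y : ℝ) : HasDerivAt (HT l r) (gt l r Y) Y :=
  (((a5_deriv hr Y).const_mul (6 * l ^ 2)).sub ((a4_deriv hr Y).const_mul (4 * l))).add
    ((a3_deriv hr Y).const_mul (5 / 4))

theorem inv_cont (k : ℕ) : Continuous fun Y => 1 / nr r Y ^ k :=
  continuous_const.div ((nr_cont r).pow k) fun Y => (pow_pos (nr_pos hr Y) k).ne'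

theorem gl_cont : Continuous (gl r) := by
  have h : gl r = fun Y => 5 / 8 * (1 / nr r Y ^ 3) - (Y * (1 / nr r Y ^ 4) +
      s0 * (1 / nr r Y ^ 4)) +
    3 * (1 / 4 * (Y ^ 2 * (1 / nr r Y ^ 5)) + s0 / 2 * (Y * (1 / nr r Y ^ 5)) +
      s0 ^ 2 / 4 * (1 / nr r Y ^ 5)) := by
    funext Y
    unfold gl
    ring
  rw [h]
  have h3 := inv_cont hr 3
  have h4 := inv_cont hr 4
  have h5 := inv_cont hr 5
  fun_prop

theorem gm_cont : Continuous (gm r) := by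
  unfold gm
  have h3 := inv_cont hr 3
  have h4 := inv_cont hr 4
  have h5 := inv_cont hr 5
  fun_prop

theorem gt_cont (l : ℝ) : Continuous (gt l r) := by
  unfold gt
  have h3 := inv_cont hr 3
  have h4 := inv_cont hr 4
  have h5 := inv_cont hr 5
  fun_prop

theorem gl_int (a b : ℝ) : ∫ Y in a..b, gl r Y = HL r b - HL r a :=
  intervalIntegral.integral_eq_sub_of_hasDerivAt (fun Y _ => HL_deriv hr Y)
    ((gl_cont hr).intervalIntegrable _ _)

theorem gm_int (a b : ℝ) : ∫ Y in a..b, gm r Y = HM r b - HM r a :=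
  intervalIntegral.integral_eq_sub_of_hasDerivAt (fun Y _ => HM_deriv hr Y)
    ((gm_cont hr).intervalIntegrable _ _)

theorem gt_int (l a b : ℝ) : ∫ Y in a..b, gt l r Y = HT l r b - HT l r a :=
  intervalIntegral.integral_eq_sub_of_hasDerivAt (fun Y _ => HT_deriv hr l Y)
    ((gt_cont hr l).intervalIntegrable _ _)

omit hr in
theorem HM_zero : HM r 0 = 0 := by
  unfold HM
  simp

/-- the difference of the antiderivatives at the interface -/
theorem HML : 2 * (HM r (r / √3) - HL r (r / √3)) =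
    -(c0 * π / 3) / r ^ 2 + s0 * π / 3 / r ^ 3 := by
  have h3 : √3 ^ 2 = 3 := Real.sq_sqrt (by norm_num)
  have h30 : 0 < √3 := by positivity
  have hn : nr r (r / √3) = 2 * r / √3 := by
    unfold nr
    rw [show r ^ 2 + (r / √3) ^ 2 = (2 * r / √3) ^ 2 by
      rw [div_pow, div_pow, h3]
      ring]
    exact Real.sqrt_sq (by positivity)
  have hw : r / √3 / nr r (r / √3) = 1 / 2 := by
    rw [hn]
    field_simp
  have hv : (nr r (r / √3))⁻¹ = c0 / r := by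
    rw [hn, c0]
    field_simp
  have ha : arctan (r / √3 / r) = π / 6 := by
    rw [show r / √3 / r = tan (π / 6) by
      rw [Real.tan_pi_div_six]
      field_simp]
    exact Real.arctan_tan (by linarith [Real.pi_pos]) (by linarith [Real.pi_pos])
  unfold HM HL
  rw [hw, hv, ha]
  have hs := s0_sq
  have hc := c0_sq
  have hc4 : c0 ^ 4 = 9 / 16 := by rw [show c0 ^ 4 = (c0 ^ 2) ^ 2 by ring, hc]; norm_num
  field_simp
  ring_nf
  rw [hc4]
  ring

end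

end Pool.Agent.Helper55.MEI
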