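import Pool.Agent.Helper55.MEI.L3b

/-!
# Elementary integrals for the volume of the Meissner bodies (MP_8bdc10_gt), part c

The integrals over `X`.
-/

open MeasureTheory Set Real

namespace Pool.Agent.Helper55.MEI

/-- the root of 3/2 -/
noncomputable def k0 : ℝ := √(3 / 2)

theorem k0_pos : 0 < k0 := Real.sqrt_pos.2 (by norm_num)

theorem k0_sq : k0 ^ 2 = 3 / 2 := Real.sq_sqrt (by norm_num)

theorem nr_s0 (X : ℝ) : nr (nr 1 X) s0 = nr k0 X := by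
  rw [nr, nr_sq, s0_sq, nr, k0_sq]
  congr 1
  ring

/-- the integral over the line -/
noncomputable def JI (X : ℝ) : ℝ :=
  -(c0 * π / 3) / nr 1 X ^ 2 + s0 * π / 3 / nr 1 X ^ 3 + 2 * HL (nr 1 X) s0

/-- antiderivative -/
noncomputable def FI (X : ℝ) : ℝ :=
  -(c0 * π / 3) * arctan X + s0 * π / 3 * (X / nr 1 X) +
    2 * (arctan (s0 * (X / nr k0 X)) + 1 / (4 * k0) * arctan (X / k0) -
      s0 / 2 * (X / nr 1 X * arctan (s0 * (nr 1 X)⁻¹)) - 2 * s0 / 3 * (X / nr k0 X) +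
      s0 / 4 * (X / nr 1 X * (nr k0 X * (nr 1 X)⁻¹)))

theorem FI_deriv (X : ℝ) : HasDerivAt FI (JI X) X := by
  have hp := nr_pos one_pos X
  have hq := nr_pos k0_pos X
  have hk := k0_pos
  have hb := s0_pos
  have h1 := Real.hasDerivAt_arctan X
  have h2 := w_deriv one_pos X
  have h3 := ((w_deriv k0_pos X).const_mul s0).arctan
  have h4 := at_deriv k0_pos X
  have h5 := h2.mul (((v_deriv one_pos X).const_mul s0).arctan)
  have h6 := w_deriv k0_pos X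
  have h7 := h2.mul ((nr_deriv k0_pos X).mul (v_deriv one_pos X))
  have h := ((h1.const_mul (-(c0 * π / 3))).add (h2.const_mul (s0 * π / 3))).add
    (((((h3.add (h4.const_mul (1 / (4 * k0)))).sub (h5.const_mul (s0 / 2))).sub
      (h6.const_mul (2 * s0 / 3))).add (h7.const_mul (s0 / 4))).const_mul 2)
  refine h.congr_deriv ?_
  have p2 : nr 1 X ^ 2 = 1 + X ^ 2 := by rw [nr_sq]; ring
  have q2 : nr k0 X ^ 2 = 3 / 2 + X ^ 2 := by rw [nr_sq, k0_sq]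
  have b2 := s0_sq
  have k2 := k0_sq
  unfold JI HL
  rw [nr_s0, ← div_eq_mul_inv s0 (nr 1 X)]
  generalize hP : nr 1 X = p at *
  generalize hQ : nr k0 X = q at *
  generalize hA : arctan (s0 / p) = A
  have e3 : 1 / (1 + (s0 * (X / q)) ^ 2) * (s0 * (k0 ^ 2 / q ^ 3)) = s0 / (p ^ 2 * q) := by
    rw [k2, mul_pow, div_pow, b2, q2, p2]
    have : q ^ 3 = q * (3 / 2 + X ^ 2) := by rw [pow_succ, q2]; ring
    rw [this]
    field_simp
    ring
  have e5 : 1 / (1 + (s0 / p) ^ 2) = p ^ 2 / q ^ 2 := by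
    rw [div_pow, b2, q2, p2]
    field_simp
    ring
  rw [e3, e5, k2]
  have hX : X ^ 2 = p ^ 2 - 1 := by linarith
  have hq2 : q ^ 2 = p ^ 2 + 1 / 2 := by linarith
  have hs3 : s0 ^ 3 = s0 / 2 := by rw [pow_succ, b2]; ring
  have hs4 : s0 ^ 4 = 1 / 4 := by rw [show s0 ^ 4 = (s0 ^ 2) ^ 2 by ring, b2]; norm_num
  rw [← p2]
  clear e3 e5 h h7 h6 h5 h4 h3 h2 h1 hA
  simp only [Pi.mul_apply]
  rw [hP, hQ]
  field_simp
  have q3 : q ^ 3 = q * (p ^ 2 + 1 / 2) := by rw [pow_succ, hq2]; ring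
  have q4 : q ^ 4 = (p ^ 2 + 1 / 2) ^ 2 := by rw [show q ^ 4 = (q ^ 2) ^ 2 by ring, hq2]
  ring_nf
  rw [q3, q4, hq2, hX, hs3, b2]
  ring

/-- the hypotenuse on the side of the triangle -/
theorem m_deriv (X : ℝ) : HasDerivAt (fun X => nr 1 (k0 * X)) (3 / 2 * X / nr 1 (k0 * X)) X := by
  have h1 := (nr_deriv one_pos (k0 * X)).comp X ((hasDerivAt_id X).const_mul k0)
  refine h1.congr_deriv ?_
  have hm := (nr_pos one_pos (k0 * X)).ne'
  have k2 := k0_sq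
  field_simp
  rw [k2]
  ring

theorem nr_tri (X : ℝ) : nr (nr 1 X) (s0 * X) = nr 1 (k0 * X) := by
  rw [nr, nr_sq, nr, mul_pow, mul_pow, s0_sq, k0_sq]
  congr 1
  ring

/-- the integral over the line in the triangle -/
noncomputable def JT (X : ℝ) : ℝ := 2 * HT (1 / 2 + s0 / 2 * X) (nr 1 X) (s0 * X)

/-- antiderivative -/
noncomputable def FT (X : ℝ) : ℝ :=
  -(4 * ((X / nr 1 X / 2 - s0 / 2 * (nr 1 X)⁻¹) * arctan (s0 * (X / nr 1 X)))) -
    1 / k0 * arctan (k0 * X) + 4 * arctan (2 * s0 * nr 1 (k0 * X)) +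
    s0 * (nr 1 (k0 * X) * (nr 1 X)⁻¹ ^ 2) - 4 * s0 / 3 * (nr 1 (k0 * X))⁻¹ -
    2 * (X / nr 1 (k0 * X)) + 2 * (X / nr 1 X * (nr 1 (k0 * X) * (nr 1 X)⁻¹))

theorem FT_deriv (X : ℝ) : HasDerivAt FT (JT X) X := by
  have hp := nr_pos one_pos X
  have hm := nr_pos one_pos (k0 * X)
  have hk := k0_pos
  have hb := s0_pos
  have h1 := (((w_deriv one_pos X).div_const 2).sub ((v_deriv one_pos X).const_mul (s0 / 2))).mul
    (((w_deriv one_pos X).const_mul s0).arctan)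
  have h2 := ((hasDerivAt_id X).const_mul k0).arctan
  have h3 := ((m_deriv X).const_mul (2 * s0)).arctan
  have h4 := (m_deriv X).mul ((v_deriv one_pos X).pow 2)
  have h5 := (m_deriv X).inv hm.ne'
  have h6 := (hasDerivAt_id X).div (m_deriv X) hm.ne'
  have h7 := (w_deriv one_pos X).mul ((m_deriv X).mul (v_deriv one_pos X))
  have h := ((((((h1.const_mul 4).neg.sub (h2.const_mul (1 / k0))).add (h3.const_mul 4)).add
    (h4.const_mul s0)).sub (h5.const_mul (4 * s0 / 3))).sub (h6.const_mul 2)).add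
    (h7.const_mul 2)
  refine h.congr_deriv ?_
  have p2 : nr 1 X ^ 2 = 1 + X ^ 2 := by rw [nr_sq]; ring
  have m2 : nr 1 (k0 * X) ^ 2 = 1 + 3 / 2 * X ^ 2 := by rw [nr_sq, mul_pow, k0_sq]; ring
  have b2 := s0_sq
  have k2 := k0_sq
  unfold JT HT
  rw [nr_tri, mul_div_assoc s0 X (nr 1 X)]
  simp only [id, Pi.mul_apply, Pi.sub_apply, Pi.pow_apply, Nat.cast_ofNat, Nat.reduceSub, pow_one]
  generalize hP : nr 1 X = p at *
  generalize hM : nr 1 (k0 * X) = m at *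
  generalize hA : arctan (s0 * (X / p)) = A
  have e1 : 1 / (1 + (s0 * (X / p)) ^ 2) = p ^ 2 / m ^ 2 := by
    rw [mul_pow, div_pow, b2, m2, p2]
    field_simp
    ring
  have e2 : 1 / (1 + (k0 * X) ^ 2) = 1 / m ^ 2 := by
    rw [mul_pow, k2, m2]
  have e3 : 1 / (1 + (2 * s0 * m) ^ 2) = 1 / (3 * p ^ 2) := by
    rw [mul_pow, mul_pow, b2, m2, p2]
    congr 1
    ring
  rw [e1, e2, e3]
  have hX : X ^ 2 = p ^ 2 - 1 := by linarith
  have hm2 : m ^ 2 = 3 / 2 * p ^ 2 - 1 / 2 := by linarith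
  have hs3 : s0 ^ 3 = s0 / 2 := by rw [pow_succ, b2]; ring
  have hs4 : s0 ^ 4 = 1 / 4 := by rw [show s0 ^ 4 = (s0 ^ 2) ^ 2 by ring, b2]; norm_num
  clear e1 e2 e3 h h7 h6 h5 h4 h3 h2 h1 hA
  field_simp
  have m3 : m ^ 3 = m * (3 / 2 * p ^ 2 - 1 / 2) := by rw [pow_succ, hm2]; ring
  have m4 : m ^ 4 = (3 / 2 * p ^ 2 - 1 / 2) ^ 2 := by
    rw [show m ^ 4 = (m ^ 2) ^ 2 by ring, hm2]
  have X3 : X ^ 3 = X * (p ^ 2 - 1) := by rw [pow_succ, hX]; ring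
  have X4 : X ^ 4 = (p ^ 2 - 1) ^ 2 := by
    rw [show X ^ 4 = (X ^ 2) ^ 2 by ring, hX]
  ring_nf
  rw [m3, m4, hm2, X3, hX, hs3, b2]
  ring_nf

end Pool.Agent.Helper55.MEI
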