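import Pool.Agent.Helper55.MEI.L3c

/-!
# Elementary integrals for the volume of the Meissner bodies (MP_8bdc10_gt), part d

The values of the antiderivatives.
-/

open MeasureTheory Set Real

namespace Pool.Agent.Helper55.MEI

theorem arctan_s0 : arctan s0 = arccos (1 / 3) / 2 := by
  have h1 : cos (arctan s0) ^ 2 = 2 / 3 := by
    rw [Real.cos_sq_arctan, s0_sq]
    norm_num
  have h2 : cos (2 * arctan s0) = 1 / 3 := by
    rw [Real.cos_two_mul, h1]
    norm_num
  have h3 : 0 ≤ arctan s0 := Real.arctan_nonneg.2 s0_pos.le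
  have h4 := Real.arctan_lt_pi_div_two s0
  have h5 := Real.arccos_cos (x := 2 * arctan s0) (by linarith) (by linarith)
  rw [h2] at h5
  linarith

theorem arctan_four : arctan (4 * s0) = arccos (1 / 3) := by
  rw [Real.arccos_eq_arctan (by norm_num)]
  congr 1
  have h : √(1 - (1 / 3) ^ 2) = 4 * s0 / 3 := by
    have h1 : (4 * s0 / 3) ^ 2 = 1 - (1 / 3) ^ 2 := by
      rw [div_pow, mul_pow, s0_sq]
      norm_num
    rw [← h1]
    exact Real.sqrt_sq (by have := s0_pos; positivity)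
  rw [h]
  ring

theorem arctan_half : arctan (s0 / 2) = π / 2 - arccos (1 / 3) := by
  rw [← arctan_four, ← Real.arctan_inv_of_pos (by have := s0_pos; positivity)]
  congr 1
  have := s0_sq
  have h0 := s0_pos.ne'
  field_simp
  linarith

theorem arctan_two : arctan (2 * s0) = π / 2 - arccos (1 / 3) / 2 := by
  rw [← arctan_s0, ← Real.arctan_inv_of_pos s0_pos]
  congr 1
  have := s0_sq
  have h0 := s0_pos.ne'
  field_simp
  linarith

theorem k0_eq : k0 = 2 * s0 * c0 := by
  have h1 : (2 * s0 * c0) ^ 2 = 3 / 2 := by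
    rw [mul_pow, mul_pow, s0_sq, c0_sq]
    norm_num
  rw [k0, ← h1]
  exact Real.sqrt_sq (by have := s0_pos; have := c0_pos; positivity)

theorem arctan_third : arctan (2 * c0 / 3) = π / 6 := by
  have h : 2 * c0 / 3 = tan (π / 6) := by
    rw [Real.tan_pi_div_six, c0]
    have h3 : √3 ^ 2 = 3 := Real.sq_sqrt (by norm_num)
    have h30 : 0 < √3 := by positivity
    field_simp
    linarith
  rw [h]
  exact Real.arctan_tan (by linarith [Real.pi_pos]) (by linarith [Real.pi_pos])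

theorem arctan_root : arctan (2 * c0) = π / 3 := by
  have h : 2 * c0 = tan (π / 3) := by
    rw [Real.tan_pi_div_three, c0]
    ring
  rw [h]
  exact Real.arctan_tan (by linarith [Real.pi_pos]) (by linarith [Real.pi_pos])

theorem nr_one_s0 : nr 1 s0 = k0 := by
  rw [nr, s0_sq, k0]
  norm_num

theorem nr_k0_s0 : nr k0 s0 = 2 * s0 := by
  rw [nr, s0_sq, k0_sq]
  have h1 : (2 * s0) ^ 2 = 3 / 2 + 1 / 2 := by
    rw [mul_pow, s0_sq]
    norm_num
  rw [← h1]
  exact Real.sqrt_sq (by have := s0_pos; positivity)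

theorem FI_odd (X : ℝ) : FI (-X) = -FI X := by
  have h : ∀ r : ℝ, nr r (-X) = nr r X := fun r => by rw [nr, nr, neg_sq]
  unfold FI
  simp only [h, neg_div, mul_neg, Real.arctan_neg]
  ring

theorem FI_val : FI s0 = -(c0 * π / 6) * arccos (1 / 3) + 2 * s0 * c0 * π / 9 + π -
    2 * arccos (1 / 3) - s0 / 3 := by
  have hs := s0_pos
  have hc := c0_pos
  have b2 := s0_sq
  have c2 := c0_sq
  have k2 := k0_sq
  have hk := k0_pos
  have e1 : s0 / k0 = 2 * c0 / 3 := by
    rw [k0_eq]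
    field_simp
    linarith
  have e2 : s0 * k0⁻¹ = 2 * c0 / 3 := by rw [← div_eq_mul_inv, e1]
  have e3 : s0 / (2 * s0) = 1 / 2 := by field_simp
  unfold FI
  rw [nr_one_s0, nr_k0_s0, e1, e2, e3, arctan_third, arctan_s0,
    show s0 * (1 / 2) = s0 / 2 by ring, arctan_half, k0_eq]
  field_simp
  ring_nf
  rw [c2, b2]
  ring

theorem FT_zero : FT 0 = 2 * π - 2 * arccos (1 / 3) - s0 / 3 := by
  unfold FT
  have h1 : nr 1 0 = 1 := by
    rw [nr]
    norm_num
  rw [mul_zero, h1, mul_one, arctan_two]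
  simp
  ring

theorem FT_val : FT (2 * s0) = 4 * arccos (1 / 3) + 2 * s0 / 3 - s0 * c0 * 2 * π / 3 := by
  have hs := s0_pos
  have hc := c0_pos
  have b2 := s0_sq
  have c2 := c0_sq
  have h1 : nr 1 (2 * s0) = 2 * c0 := by
    rw [nr, mul_pow, s0_sq]
    have h1 : (2 * c0) ^ 2 = 1 ^ 2 + 2 ^ 2 * (1 / 2) := by
      rw [mul_pow, c0_sq]
      norm_num
    rw [← h1]
    exact Real.sqrt_sq (by positivity)
  have h2 : k0 * (2 * s0) = 2 * c0 := by
    rw [k0_eq]
    ring_nf
    rw [b2]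
    ring
  have h3 : nr 1 (2 * c0) = 2 := by
    rw [nr, mul_pow, c0_sq]
    have h1 : (2 : ℝ) ^ 2 = 1 ^ 2 + 2 ^ 2 * (3 / 4) := by norm_num
    rw [← h1]
    exact Real.sqrt_sq (by norm_num)
  have h4 : s0 * (2 * s0 / (2 * c0)) = 2 * c0 / 3 := by
    field_simp
    linarith
  unfold FT
  rw [h2, h1, h3, h4, arctan_third, arctan_root, show 2 * s0 * 2 = 4 * s0 by ring, arctan_four,
    k0_eq]
  have c3 : c0 ^ 3 = 3 / 4 * c0 := by rw [pow_succ, c2]
  field_simp
  ring_nf
  rw [c3, c2, b2]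
  ring

end Pool.Agent.Helper55.MEI
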