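import Pool.Agent.Helper55.MEI.L3d

/-!
# Elementary integrals for the volume of the Meissner bodies (MP_8bdc10_gt), part e

The double integrals.
-/

open MeasureTheory Set Real

namespace Pool.Agent.Helper55.MEI

theorem rho_cont : Continuous (nr 1) := nr_cont 1

theorem NN_cont : Continuous fun p : ℝ × ℝ => nr (nr 1 p.1) p.2 := by
  have h := rho_cont.comp (continuous_fst (X := ℝ) (Y := ℝ))
  have h2 : (fun p : ℝ × ℝ => nr (nr 1 p.1) p.2) =
    fun p => √(((nr 1) ∘ Prod.fst) p ^ 2 + p.2 ^ 2) := rfl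
  rw [h2]
  fun_prop

theorem NN_pos (p : ℝ × ℝ) : 0 < nr (nr 1 p.1) p.2 := nr_pos (nr_pos one_pos _) _

theorem NNi_cont (k : ℕ) : Continuous fun p : ℝ × ℝ => 1 / nr (nr 1 p.1) p.2 ^ k :=
  continuous_const.div (NN_cont.pow k) fun p => (pow_pos (NN_pos p) k).ne'

theorem ri_cont : Continuous fun p : ℝ × ℝ => 1 / nr 1 p.1 :=
  continuous_const.div (rho_cont.comp continuous_fst) fun _ => (nr_pos one_pos _).ne'

theorem r_cont : Continuous fun p : ℝ × ℝ => nr 1 p.1 := rho_cont.comp continuous_fst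

theorem gm2_cont : Continuous fun p : ℝ × ℝ => gm (nr 1 p.1) p.2 := by
  have h : (fun p : ℝ × ℝ => gm (nr 1 p.1) p.2) = fun p : ℝ × ℝ =>
      3 * (c0 * nr 1 p.1 - s0 / 2) ^ 2 * (1 / nr (nr 1 p.1) p.2 ^ 5) +
      (1 / 8 + c0 * s0 * (1 / nr 1 p.1)) * (1 / nr (nr 1 p.1) p.2 ^ 3) -
      2 * (c0 * nr 1 p.1 - s0 / 2) * (1 / nr (nr 1 p.1) p.2 ^ 4) := by
    funext p
    rw [gm, mul_one_div (c0 * s0)]
  rw [h]
  have h3 := NNi_cont 3
  have h4 := NNi_cont 4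
  have h5 := NNi_cont 5
  have hi := ri_cont
  have hr := r_cont
  fun_prop

theorem gl2_cont : Continuous fun p : ℝ × ℝ => gl (nr 1 p.1) |p.2| := by
  have h : (fun p : ℝ × ℝ => gl (nr 1 p.1) |p.2|) = fun p : ℝ × ℝ =>
      5 / 8 * (1 / nr (nr 1 p.1) p.2 ^ 3) - (|p.2| * (1 / nr (nr 1 p.1) p.2 ^ 4) +
      s0 * (1 / nr (nr 1 p.1) p.2 ^ 4)) +
    3 * (1 / 4 * (|p.2| ^ 2 * (1 / nr (nr 1 p.1) p.2 ^ 5)) +
      s0 / 2 * (|p.2| * (1 / nr (nr 1 p.1) p.2 ^ 5)) +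
      s0 ^ 2 / 4 * (1 / nr (nr 1 p.1) p.2 ^ 5)) := by
    funext p
    have h1 : nr (nr 1 p.1) |p.2| = nr (nr 1 p.1) p.2 := by
      unfold nr
      rw [sq_abs]
    rw [gl, h1]
    ring
  rw [h]
  have h3 := NNi_cont 3
  have h4 := NNi_cont 4
  have h5 := NNi_cont 5
  have ha : Continuous fun p : ℝ × ℝ => |p.2| := continuous_snd.abs
  fun_prop

/-- the integrand on the square -/
noncomputable def G2 (p : ℝ × ℝ) : ℝ :=
  if 3 * p.2 ^ 2 ≤ 1 + p.1 ^ 2 then gm (nr 1 p.1) p.2 else gl (nr 1 p.1) |p.2|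

/-- the square -/
def SQ : Set (ℝ × ℝ) := Ioo (-s0) s0 ×ˢ Ioo (-s0) s0

theorem G2_int : IntegrableOn G2 SQ := by
  have hK : IsCompact (Icc (-s0) s0 ×ˢ Icc (-s0) s0) := isCompact_Icc.prod isCompact_Icc
  have hsub : SQ ⊆ Icc (-s0) s0 ×ˢ Icc (-s0) s0 :=
    prod_mono Ioo_subset_Icc_self Ioo_subset_Icc_self
  have h1 : IntegrableOn (fun p : ℝ × ℝ => gm (nr 1 p.1) p.2) SQ :=
    (gm2_cont.continuousOn.integrableOn_compact hK).mono_set hsub
  have h2 : IntegrableOn (fun p : ℝ × ℝ => gl (nr 1 p.1) |p.2|) SQ :=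
    (gl2_cont.continuousOn.integrableOn_compact hK).mono_set hsub
  have hm : MeasurableSet {p : ℝ × ℝ | 3 * p.2 ^ 2 ≤ 1 + p.1 ^ 2} := by
    refine (isClosed_le ?_ ?_).measurableSet <;> fun_prop
  have h3 : G2 = {p : ℝ × ℝ | 3 * p.2 ^ 2 ≤ 1 + p.1 ^ 2}.piecewise
      (fun p : ℝ × ℝ => gm (nr 1 p.1) p.2) (fun p : ℝ × ℝ => gl (nr 1 p.1) |p.2|) := by
    funext p
    unfold G2 Set.piecewise
    rfl
  rw [h3]
  exact Integrable.piecewise hm h1.integrableOn h2.integrableOn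

/-- the integral over a line of the square -/
theorem line_sq {X : ℝ} (hX : X ∈ Ioo (-s0) s0) : ∫ y in Ioo (-s0) s0, G2 (X, y) = JI X := by
  have hs := s0_pos
  have hr := nr_pos one_pos X
  have hX2 : X ^ 2 ≤ 1 / 2 := by
    rw [← s0_sq]
    exact sq_le_sq' hX.1.le hX.2.le
  have r2 : nr 1 X ^ 2 = 1 + X ^ 2 := by rw [nr_sq]; ring
  have h3 : √3 ^ 2 = 3 := Real.sq_sqrt (by norm_num)
  have h30 : 0 < √3 := by positivity
  obtain ⟨a, ha⟩ : ∃ a : ℝ, a = nr 1 X / √3 := ⟨_, rfl⟩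
  have a0 : 0 < a := by rw [ha]; positivity
  have a2 : 3 * a ^ 2 = 1 + X ^ 2 := by
    rw [ha, div_pow, h3, r2]
    ring
  have as : a ≤ s0 := by
    have : a ^ 2 ≤ s0 ^ 2 := by rw [s0_sq]; linarith
    exact (sq_le_sq₀ a0.le hs.le).1 this
  have e1 : ∀ y ∈ Set.uIoc 0 a, G2 (X, y) = gm (nr 1 X) y := by
    intro y hy
    rw [uIoc_of_le a0.le] at hy
    have : 3 * y ^ 2 ≤ 1 + X ^ 2 := by
      have : y ^ 2 ≤ a ^ 2 := pow_le_pow_left₀ hy.1.le hy.2 2
      linarith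
    exact if_pos this
  have e2 : ∀ y ∈ Set.uIoc a s0, G2 (X, y) = gl (nr 1 X) y := by
    intro y hy
    rw [uIoc_of_le as] at hy
    have h0 : 0 < y := a0.trans hy.1
    have : ¬ 3 * y ^ 2 ≤ 1 + X ^ 2 := by
      have : a ^ 2 < y ^ 2 := pow_lt_pow_left₀ hy.1 a0.le two_ne_zero
      linarith
    have h2 : G2 (X, y) = gl (nr 1 X) |y| := if_neg this
    rw [h2, abs_of_pos h0]
  have i1 : IntervalIntegrable (fun y => G2 (X, y)) volume 0 a :=
    ((gm_cont hr).intervalIntegrable 0 a).congr fun y hy => (e1 y hy).symm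
  have i2 : IntervalIntegrable (fun y => G2 (X, y)) volume a s0 :=
    ((gl_cont hr).intervalIntegrable a s0).congr fun y hy => (e2 y hy).symm
  have j1 : ∫ y in (0:ℝ)..a, G2 (X, y) = HM (nr 1 X) a := by
    have : ∫ y in (0:ℝ)..a, G2 (X, y) = ∫ y in (0:ℝ)..a, gm (nr 1 X) y :=
      intervalIntegral.integral_congr_ae (Filter.Eventually.of_forall e1)
    rw [this, gm_int hr, HM_zero, sub_zero]
  have j2 : ∫ y in a..s0, G2 (X, y) = HL (nr 1 X) s0 - HL (nr 1 X) a := by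
    have : ∫ y in a..s0, G2 (X, y) = ∫ y in a..s0, gl (nr 1 X) y :=
      intervalIntegral.integral_congr_ae (Filter.Eventually.of_forall e2)
    rw [this, gl_int hr]
  have even : ∀ y, G2 (X, -y) = G2 (X, y) := by
    intro y
    unfold G2
    simp only [neg_sq, abs_neg]
    have : gm (nr 1 X) (-y) = gm (nr 1 X) y := by
      unfold gm nr
      rw [neg_sq]
    rw [this]
  have i12 := i1.trans i2
  have j3 : ∫ y in (-s0)..0, G2 (X, y) = ∫ y in (0:ℝ)..s0, G2 (X, y) := by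
    have := intervalIntegral.integral_comp_neg (a := 0) (b := s0) (fun y => G2 (X, y))
    rw [neg_zero] at this
    rw [← this]
    exact intervalIntegral.integral_congr fun y _ => even y
  have i3 : IntervalIntegrable (fun y => G2 (X, y)) volume (-s0) 0 := by
    have h := (IntervalIntegrable.iff_comp_neg (f := fun y => G2 (X, y)) (a := 0)
      (b := s0)).1 i12
    rw [neg_zero] at h
    have h2 : (fun x => G2 (X, -x)) = fun y => G2 (X, y) := funext even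
    rw [h2] at h
    exact h.symm
  rw [← integral_Ioc_eq_integral_Ioo, ← intervalIntegral.integral_of_le (by linarith),
    ← intervalIntegral.integral_add_adjacent_intervals i3 i12, j3,
    ← intervalIntegral.integral_add_adjacent_intervals i1 i2, j1, j2]
  have h := HML hr
  rw [← ha] at h
  unfold JI
  linarith

theorem JI_cont : Continuous JI := by
  have h : JI = fun X : ℝ => -(c0 * π / 3) * (1 / nr 1 X) ^ 2 + s0 * π / 3 * (1 / nr 1 X) ^ 3 +
    2 * (5 / 8 * (s0 * (1 / nr k0 X) * (1 / nr 1 X) ^ 2) - (-(1 / nr k0 X) ^ 2 / 2 + s0 *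
    (s0 * (1 / nr k0 X) * (1 / nr k0 X) * ((1 / nr 1 X) ^ 2 / 2) +
    arctan (s0 * (1 / nr 1 X)) * ((1 / nr 1 X) ^ 3 / 2))) +
    3 * (1 / 4 * ((s0 * (1 / nr k0 X)) ^ 3 * ((1 / nr 1 X) ^ 2 / 3)) +
      s0 / 2 * (-(1 / nr k0 X) ^ 3 / 3) +
      s0 ^ 2 / 4 * (s0 * (1 / nr k0 X) * (1 / nr k0 X) ^ 2 * ((1 / nr 1 X) ^ 2 / 3) +
    2 * (s0 * (1 / nr k0 X)) * ((1 / nr 1 X) ^ 4 / 3)))) := by
    funext X
    unfold JI HL
    rw [nr_s0]
    have : s0 / nr 1 X = s0 * (1 / nr 1 X) := by ring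
    rw [this]
    ring
  rw [h]
  have h1 : Continuous fun X => 1 / nr 1 X :=
    continuous_const.div rho_cont fun X => (nr_pos one_pos X).ne'
  have h2 : Continuous fun X => 1 / nr k0 X :=
    continuous_const.div (nr_cont k0) fun X => (nr_pos k0_pos X).ne'
  fun_prop

/-- the integral over the square -/
theorem sq_val : ∫ p in SQ, G2 p = 2 * FI s0 := by
  unfold SQ
  have hi := G2_int
  unfold SQ at hi
  rw [Measure.volume_eq_prod] at hi ⊢
  rw [setIntegral_prod _ hi, setIntegral_congr_fun measurableSet_Ioo (g := JI)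
    fun X hX => line_sq hX, ← integral_Ioc_eq_integral_Ioo,
    ← intervalIntegral.integral_of_le (by linarith [s0_pos]),
    intervalIntegral.integral_eq_sub_of_hasDerivAt (fun X _ => FI_deriv X)
      (JI_cont.intervalIntegrable _ _), FI_odd]
  ring

end Pool.Agent.Helper55.MEI
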