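import Pool.Agent.Helper55.MEI.L3e
import Pool.Agent.Helper14.CW.Vol2

/-!
# Elementary integrals for the volume of the Meissner bodies (MP_8bdc10_gt), part f

The triangle part.
-/

open MeasureTheory Set Real

namespace Pool.Agent.Helper55.MEI

theorem Nn_eq (p : ℝ × ℝ) : Helper14.CW.Nn p = nr (nr 1 p.1) p.2 := by
  rw [Helper14.CW.Nn, nr, nr_sq]
  congr 1
  ring

theorem gT_eq (p : ℝ × ℝ) : Helper14.CW.gT p = gt (1 / 2 + s0 / 2 * p.1) (nr 1 p.1) p.2 := by
  unfold Helper14.CW.gT gt Helper14.CW.lT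
  rw [Nn_eq]
  have h := (NN_pos p).ne'
  have hl : √2 / 4 = s0 / 2 := by unfold s0; ring
  rw [hl]
  field_simp

theorem HT_odd (l r Y : ℝ) : HT l r (-Y) = -HT l r Y := by
  have h : nr r (-Y) = nr r Y := by rw [nr, nr, neg_sq]
  unfold HT
  simp only [h, neg_div, Real.arctan_neg]
  ring

theorem JT_cont : Continuous JT := by
  have h : JT = fun X : ℝ => 2 * (6 * (1 / 2 + s0 / 2 * X) ^ 2 *
    (s0 * X * (1 / nr 1 (k0 * X)) * (1 / nr 1 (k0 * X)) ^ 2 * ((1 / nr 1 X) ^ 2 / 3) +
    2 * (s0 * X * (1 / nr 1 (k0 * X))) * ((1 / nr 1 X) ^ 4 / 3)) -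
    4 * (1 / 2 + s0 / 2 * X) * (s0 * X * (1 / nr 1 (k0 * X)) * (1 / nr 1 (k0 * X)) *
    ((1 / nr 1 X) ^ 2 / 2) + arctan (s0 * X * (1 / nr 1 X)) * ((1 / nr 1 X) ^ 3 / 2)) +
    5 / 4 * (s0 * X * (1 / nr 1 (k0 * X)) * (1 / nr 1 X) ^ 2)) := by
    funext X
    unfold JT HT
    rw [nr_tri]
    have : s0 * X / nr 1 X = s0 * X * (1 / nr 1 X) := by ring
    rw [this]
    ring
  rw [h]
  have h1 : Continuous fun X => 1 / nr 1 X :=
    continuous_const.div rho_cont fun X => (nr_pos one_pos X).ne'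
  have h2 : Continuous fun X => 1 / nr 1 (k0 * X) :=
    continuous_const.div (rho_cont.comp (continuous_const.mul continuous_id))
      fun X => (nr_pos one_pos _).ne'
  fun_prop

theorem gT_cont : Continuous Helper14.CW.gT := by
  have h : Helper14.CW.gT = fun p : ℝ × ℝ =>
      6 * (1 / 2 + s0 / 2 * p.1) ^ 2 * (1 / nr (nr 1 p.1) p.2 ^ 5) -
      4 * (1 / 2 + s0 / 2 * p.1) * (1 / nr (nr 1 p.1) p.2 ^ 4) +
      5 / 4 * (1 / nr (nr 1 p.1) p.2 ^ 3) := funext gT_eq
  rw [h]
  have h3 := NNi_cont 3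
  have h4 := NNi_cont 4
  have h5 := NNi_cont 5
  fun_prop

theorem root_two : √2 = 2 * s0 := by
  unfold s0
  ring

/-- the triangle part -/
theorem tri_val : ∫ p in Helper14.CW.TR, Helper14.CW.gT p = FT (2 * s0) - FT 0 := by
  have hs := s0_pos
  have hK : IsCompact (Icc (0 : ℝ) √2 ×ˢ Icc (-1 : ℝ) 1) := isCompact_Icc.prod isCompact_Icc
  have s2 : √2 * √2 = 2 := Real.mul_self_sqrt (by norm_num)
  have hsub : Helper14.CW.TR ⊆ Icc (0 : ℝ) √2 ×ˢ Icc (-1 : ℝ) 1 := by
    rintro p ⟨h1, h2, h3⟩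
    have h0 : 0 < √2 := by positivity
    have h4 : |p.2| < 1 := by
      have : √2 / 2 * p.1 < 1 := by nlinarith
      linarith
    rw [abs_lt] at h4
    exact ⟨⟨h1.le, h2.le⟩, h4.1.le, h4.2.le⟩
  have hi : IntegrableOn Helper14.CW.gT Helper14.CW.TR :=
    (gT_cont.continuousOn.integrableOn_compact hK).mono_set hsub
  have hi2 : Integrable (Helper14.CW.TR.indicator Helper14.CW.gT) :=
    (integrable_indicator_iff Helper14.CW.TR_meas).2 hi
  rw [← integral_indicator Helper14.CW.TR_meas, Measure.volume_eq_prod]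
  rw [Measure.volume_eq_prod] at hi2
  rw [integral_prod _ hi2]
  have key : ∀ x : ℝ, ∫ y, Helper14.CW.TR.indicator Helper14.CW.gT (x, y) =
      (Ioo 0 (2 * s0)).indicator JT x := by
    intro x
    by_cases hx : x ∈ Ioo 0 (2 * s0)
    · rw [indicator_of_mem hx]
      have e : (fun y => Helper14.CW.TR.indicator Helper14.CW.gT (x, y)) =
          (Ioo (-(s0 * x)) (s0 * x)).indicator (gt (1 / 2 + s0 / 2 * x) (nr 1 x)) := by
        funext y
        by_cases hy : y ∈ Ioo (-(s0 * x)) (s0 * x)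
        · rw [indicator_of_mem hy, indicator_of_mem, gT_eq]
          refine ⟨hx.1, ?_, ?_⟩
          · rw [root_two]
            exact hx.2
          · have : √2 / 2 * x = s0 * x := rfl
            show |y| < √2 / 2 * x
            rw [this, abs_lt]
            exact hy
        · rw [indicator_of_notMem hy, indicator_of_notMem]
          rintro ⟨h1, h2, h3⟩
          have : √2 / 2 * x = s0 * x := rfl
          have h3' : |y| < √2 / 2 * x := h3
          rw [this, abs_lt] at h3'
          exact hy h3'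
      have hx0 : 0 < s0 * x := mul_pos hs hx.1
      rw [e, integral_indicator measurableSet_Ioo, ← integral_Ioc_eq_integral_Ioo,
        ← intervalIntegral.integral_of_le (by linarith), gt_int (nr_pos one_pos x), HT_odd]
      unfold JT
      ring
    · rw [indicator_of_notMem hx]
      have e : (fun y => Helper14.CW.TR.indicator Helper14.CW.gT (x, y)) = fun _ => 0 := by
        funext y
        rw [indicator_of_notMem]
        rintro ⟨h1, h2, h3⟩
        rw [root_two] at h2
        exact hx ⟨h1, h2⟩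
      rw [e, integral_zero]
  rw [integral_congr_ae (Filter.Eventually.of_forall key), integral_indicator measurableSet_Ioo,
    ← integral_Ioc_eq_integral_Ioo, ← intervalIntegral.integral_of_le (by linarith),
    intervalIntegral.integral_eq_sub_of_hasDerivAt (fun X _ => FT_deriv X)
      (JT_cont.intervalIntegrable _ _)]

/-- the constant of the triangle part -/
theorem CT_val : Helper14.CW.CT = 6 * arccos (1 / 3) - 7 * π / 3 + √2 / 2 - √2 * √3 * π / 6 := by
  unfold Helper14.CW.CT
  rw [tri_val, FT_val, FT_zero]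
  unfold s0 c0
  ring

end Pool.Agent.Helper55.MEI
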