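import Pool.Agent.Helper22.MEI.CylAdm

/-!
# Project MEI, regime I, row R1: cylinder coordinates
-/

namespace Helper55.MEI

open Set MeasureTheory Real Helper22.MEI
open Helper96.MEI (z0 p0 Cyl z0_pos z0_sq p0_pos p0_lt cos_p0 z0_lt_s cos_le_cos_p0)
open Pool.Agent.Helper55.MEI (nz nz_pos nz_sq nz_neg nz_cont c0 om om_pos om_neg om_cont Wz Wz_om
  Wz_cont)

/-- cylinder coordinates -/
noncomputable def Ph (q : ℝ × ℝ) : ℝ × ℝ := (tan q.1, q.2 / cos q.1)

/-- the square in cylinder coordinates -/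
noncomputable def Om : Set (ℝ × ℝ) := {q | q.1 ∈ Ioo (-p0) p0 ∧ |q.2| < s * cos q.1}

/-- the weight of the linear term -/
noncomputable def Wl (z : ℝ) : ℝ := if |z| ≤ z0 then Wz z else -2 / (1 + z ^ 2) ^ 2

noncomputable def Phd (q : ℝ × ℝ) : ℝ × ℝ →L[ℝ] ℝ × ℝ :=
  (Matrix.toLin (.finTwoProd ℝ) (.finTwoProd ℝ)
    !![1 / cos q.1 ^ 2, 0; q.2 * sin q.1 / cos q.1 ^ 2, 1 / cos q.1]).toContinuousLinearMap

theorem Ph_fd {q : ℝ × ℝ} (h : cos q.1 ≠ 0) : HasFDerivAt Ph (Phd q) q := by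
  unfold Phd
  rw [Matrix.toLin_finTwoProd_toContinuousLinearMap]
  have h0 : HasFDerivAt (fun q : ℝ × ℝ => q.1) (ContinuousLinearMap.fst ℝ ℝ ℝ) q :=
    hasFDerivAt_fst
  have h3 : HasFDerivAt (fun q : ℝ × ℝ => q.2) (ContinuousLinearMap.snd ℝ ℝ ℝ) q :=
    hasFDerivAt_snd
  have h1 := (Real.hasDerivAt_tan h).comp_hasFDerivAt q h0
  have h2 := h3.mul (((Real.hasDerivAt_cos q.1).inv h).comp_hasFDerivAt q h0)
  have h4 := h1.prodMk h2
  refine HasFDerivAt.congr_fderiv (f := Ph) h4 ?_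
  ext <;> simp
  ring

theorem Phd_det (q : ℝ × ℝ) : (Phd q).det = 1 / cos q.1 ^ 3 := by
  unfold Phd
  simp only [LinearMap.det_toContinuousLinearMap, LinearMap.det_toLin,
    Matrix.det_fin_two_of]
  ring

theorem cos_pos_Om {q : ℝ × ℝ} (h : q ∈ Om) : 0 < cos q.1 :=
  cos_pos_p0 ⟨h.1.1.le, h.1.2.le⟩

theorem Om_open : IsOpen Om := by
  have h1 : IsOpen {q : ℝ × ℝ | q.1 ∈ Ioo (-p0) p0} := isOpen_Ioo.preimage continuous_fst
  have h2 : IsOpen {q : ℝ × ℝ | |q.2| < s * cos q.1} :=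
    isOpen_lt continuous_snd.abs (by fun_prop)
  exact h1.inter h2

theorem Ph_image : Ph '' Om = SQ := by
  ext ⟨x, y⟩
  constructor
  · rintro ⟨⟨a, z⟩, h, he⟩
    have hc := cos_pos_Om h
    have h1 := p0_lt
    rw [Ph, Prod.mk.injEq] at he
    simp only at he hc
    obtain ⟨rfl, rfl⟩ := he
    have ht : tan p0 = s := Real.tan_arctan s
    refine ⟨⟨?_, ?_⟩, ?_⟩
    · rw [← ht, ← Real.tan_neg]
      exact Real.tan_lt_tan_of_lt_of_lt_pi_div_two (by linarith) (by linarith [h.1.2]) h.1.1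
    · show tan a < s
      rw [← ht]
      exact Real.tan_lt_tan_of_lt_of_lt_pi_div_two (by linarith [h.1.1]) h1 h.1.2
    · show z / cos a ∈ Ioo (-s) s
      have h2 : |z| < s * cos a := h.2
      rw [mem_Ioo, ← abs_lt, abs_div, abs_of_pos hc, div_lt_iff₀ hc]
      exact h2
  · rintro ⟨hx, hy⟩
    have hc : 0 < cos (arctan x) := Real.cos_arctan_pos x
    refine ⟨(arctan x, y * cos (arctan x)), ⟨⟨?_, ?_⟩, ?_⟩, ?_⟩
    · show -p0 < arctan x
      unfold p0
      rw [← Real.arctan_neg]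
      exact Real.arctan_strictMono hx.1
    · exact Real.arctan_strictMono hx.2
    · show |y * cos (arctan x)| < s * cos (arctan x)
      rw [abs_mul, abs_of_pos hc]
      exact mul_lt_mul_of_pos_right (abs_lt.2 hy) hc
    · unfold Ph
      simp only [Real.tan_arctan]
      rw [mul_div_cancel_right₀ _ hc.ne']

theorem Ph_inj : InjOn Ph Om := by
  rintro ⟨a, z⟩ h ⟨b, y⟩ h' he
  have h1 := p0_lt
  have hc := cos_pos_Om h
  unfold Ph at he
  rw [Prod.mk.injEq] at he
  simp only at he hc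
  have hab : a = b := by
    have e1 : arctan (tan a) = a := Real.arctan_tan (by linarith [h.1.1]) (by linarith [h.1.2])
    have e2 : arctan (tan b) = b := Real.arctan_tan (by linarith [h'.1.1]) (by linarith [h'.1.2])
    rw [← e1, ← e2, he.1]
  subst hab
  have h2 := he.2
  rw [div_left_inj' hc.ne'] at h2
  rw [h2]

theorem change (F : ℝ × ℝ → ℝ) :
    ∫ p in SQ, F p = ∫ q in Om, 1 / cos q.1 ^ 3 * F (Ph q) := by
  rw [← Ph_image, integral_image_eq_integral_abs_det_fderiv_smul volume Om_open.measurableSet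
    (fun q hq => (Ph_fd (cos_pos_Om hq).ne').hasFDerivWithinAt) Ph_inj]
  refine setIntegral_congr_fun Om_open.measurableSet fun q hq => ?_
  have hc := cos_pos_Om hq
  simp only [smul_eq_mul]
  rw [Phd_det, abs_of_pos (by positivity)]

theorem mid_cu {z a : ℝ} (h : 0 < cos a) :
    3 * (cu z a).2 ^ 2 ≤ 1 + (cu z a).1 ^ 2 ↔ |z| ≤ z0 := by
  have h1 := Real.sin_sq_add_cos_sq a
  have e : 1 + (cu z a).1 ^ 2 = 1 / cos a ^ 2 := by
    unfold cu
    simp only
    rw [Real.tan_eq_sin_div_cos]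
    field_simp
    linarith
  rw [e]
  unfold cu
  simp only
  rw [div_pow, ← mul_div_assoc, div_le_div_iff_of_pos_right (by positivity)]
  have hz := z0_sq
  have hp := z0_pos
  constructor
  · intro hh
    refine abs_le_of_sq_le_sq ?_ hp.le
    rw [hz]; linarith
  · intro hh
    have := pow_le_pow_left₀ (abs_nonneg z) hh 2
    rw [sq_abs, hz] at this
    linarith

theorem point_cyl (f : ℝ × ℝ → ℝ) {a : ℝ} (h : 0 < cos a) (z : ℝ) :
    1 / cos a ^ 3 * (W (cu z a) * PP f (cu z a)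
      - cq (cu z a) (dX (PP f) (cu z a)) (dY (PP f) (cu z a)))
    = Wl z * wF f a z - wzF f a z ^ 2 / √(1 + z ^ 2)
      - om z * (wpF f a z + tan a * wF f a z) ^ 2 := by
  have h1 := Real.sin_sq_add_cos_sq a
  have hN := NN_cu z h
  have hA := AA_tan h
  have hn : 0 < √(1 + z ^ 2) := Real.sqrt_pos.2 (by positivity)
  have hn2 : √(1 + z ^ 2) ^ 2 = 1 + z ^ 2 := Real.sq_sqrt (by positivity)
  have hn4 : (1 + z ^ 2) ^ 2 = √(1 + z ^ 2) ^ 4 := by
    calc (1 + z ^ 2) ^ 2 = (√(1 + z ^ 2) ^ 2) ^ 2 := by rw [hn2]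
      _ = √(1 + z ^ 2) ^ 4 := by ring
  have e1 : 1 / cos a ^ 3 * (W (cu z a) * PP f (cu z a)) = Wl z * wF f a z := by
    unfold W Wl wF hat
    by_cases hm : |z| ≤ z0
    · rw [if_pos ((mid_cu h).2 hm), if_pos hm, hN]
      have hcc : c0 = c3 := rfl
      unfold Wz nz
      rw [show (cu z a).1 = tan a from rfl, hA, hcc]
      field_simp
    · rw [if_neg (fun k => hm ((mid_cu h).1 k)), if_neg hm, hN, hn4]
      field_simp
  have e2 : 1 / cos a ^ 3 * cq (cu z a) (dX (PP f) (cu z a)) (dY (PP f) (cu z a))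
      = wzF f a z ^ 2 / √(1 + z ^ 2) + om z * (wpF f a z + tan a * wF f a z) ^ 2 := by
    unfold cq wzF wpF wF hatp hat om nz
    rw [hN, show (cu z a).1 = tan a from rfl, show (cu z a).2 = z / cos a from rfl,
      Real.tan_eq_sin_div_cos]
    set u := dX (PP f) (cu z a)
    set v := dY (PP f) (cu z a)
    set P := PP f (cu z a)
    set n := √(1 + z ^ 2)
    set S := sin a
    set C := cos a
    have e3 : -S * P + (u + z * S * v) / C + S / C * (C * P) = (u + z * S * v) / C := by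
      field_simp
      ring
    rw [e3]
    have e4 : 1 + (S / C) ^ 2 = 1 / C ^ 2 := by field_simp; linarith
    rw [e4]
    field_simp
    rw [hn2]
    linear_combination (-(v ^ 2 * z ^ 2)) * h1
  rw [mul_sub, e1, e2]
  ring

end Helper55.MEI
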