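import Pool.Agent.Helper55.MEI.R1a

/-!
# Project MEI, regime I, row R1: both orders of integration and the formula for `Dfun`
-/

namespace Helper55.MEI

open Set MeasureTheory Real Helper22.MEI
open Helper96.MEI (z0 p0 Cyl z0_pos z0_sq p0_pos p0_lt cos_p0 z0_lt_s cos_le_cos_p0)
open Pool.Agent.Helper55.MEI (nz nz_pos nz_sq nz_neg nz_cont c0 om om_pos om_neg om_cont Wz Wz_om
  Wz_cont)

/-- the closed rectangle -/
noncomputable def Rc : Set (ℝ × ℝ) := Icc (-p0) p0 ×ˢ Icc (-s) s

theorem Rc_compact : IsCompact Rc := isCompact_Icc.prod isCompact_Icc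

theorem Om_Rc : Om ⊆ Rc := by
  rintro ⟨a, z⟩ h
  have h1 : |z| < s * cos a := h.2
  have h2 := Real.cos_le_one a
  have h3 : |z| ≤ s := by nlinarith [s_pos]
  exact ⟨⟨h.1.1.le, h.1.2.le⟩, abs_le.1 h3⟩

theorem Om_meas : MeasurableSet Om := Om_open.measurableSet

theorem int_of_cont {F : ℝ × ℝ → ℝ} (h : ContinuousOn F Rc) : IntegrableOn F Om :=
  (h.integrableOn_compact Rc_compact).mono_set Om_Rc

/-- the half length of the latitude circle -/
noncomputable def bz (z : ℝ) : ℝ := arccos (max z0 |z| / s)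

theorem cosp0_eq : cos p0 = z0 / s := by
  have h := cos_p0
  have hs := s_pos
  field_simp
  linarith

theorem bz_mid {z : ℝ} (h : |z| ≤ z0) : bz z = p0 := by
  unfold bz
  rw [max_eq_left h, ← cosp0_eq]
  exact Real.arccos_cos p0_pos.le (by linarith [p0_lt, Real.pi_pos])

theorem max_le_s {z : ℝ} (h : |z| ≤ s) : max z0 |z| / s ≤ 1 := by
  rw [div_le_one s_pos]
  exact max_le z0_lt_s.le h

theorem max_nonneg' (z : ℝ) : 0 ≤ max z0 |z| / s :=
  div_nonneg (le_max_of_le_left z0_pos.le) s_pos.le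

theorem cos_bz {z : ℝ} (h : |z| ≤ s) : s * cos (bz z) = max z0 |z| := by
  unfold bz
  rw [Real.cos_arccos (by linarith [max_nonneg' z]) (max_le_s h)]
  have hs := s_pos
  field_simp

theorem cos_bz' {z : ℝ} (h : |z| ≤ s) (h0 : z0 ≤ |z|) : |z| = s * cos (bz z) := by
  rw [cos_bz h, max_eq_right h0]

theorem bz_nonneg (z : ℝ) : 0 ≤ bz z := Real.arccos_nonneg _

theorem bz_le {z : ℝ} : bz z ≤ p0 := by
  have h1 : z0 / s ≤ max z0 |z| / s := by
    gcongr
    · exact s_pos.le
    · exact le_max_left _ _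
  have h2 : arccos (z0 / s) = p0 := by
    rw [← cosp0_eq]
    exact Real.arccos_cos p0_pos.le (by linarith [p0_lt, Real.pi_pos])
  rw [← h2]
  exact Real.arccos_le_arccos h1

theorem section_z {z : ℝ} (hz : z ∈ Ioo (-s) s) (a : ℝ) :
    (a, z) ∈ Om ↔ a ∈ Ioo (-bz z) (bz z) := by
  have hzs : |z| ≤ s := (abs_lt.2 hz).le
  have hs := s_pos
  have hc := cos_bz hzs
  have hb := bz_le (z := z)
  have hb0 := bz_nonneg z
  have hp := p0_lt
  have hpi := Real.pi_pos
  constructor
  · rintro ⟨h1, h2⟩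
    have h1' : |a| < p0 := abs_lt.2 h1
    have h2' : |z| < s * cos a := h2
    rw [mem_Ioo, ← abs_lt]
    by_contra hcon
    push Not at hcon
    have h3 : cos |a| ≤ cos (bz z) :=
      Real.cos_le_cos_of_nonneg_of_le_pi hb0 (by linarith) hcon
    rw [Real.cos_abs] at h3
    have h4 : s * cos a ≤ max z0 |z| := by
      rw [← hc]; exact mul_le_mul_of_nonneg_left h3 hs.le
    have h5 : z0 < s * cos a := by
      rw [← cos_p0, ← Real.cos_abs a]
      exact mul_lt_mul_of_pos_left
        (Real.cos_lt_cos_of_nonneg_of_le_pi (abs_nonneg _) (by linarith) h1') hs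
    rcases max_choice z0 |z| with h6 | h6
    · rw [h6] at h4; linarith
    · rw [h6] at h4; linarith
  · intro h
    have h1 : |a| < bz z := abs_lt.2 h
    have h2 : cos (bz z) < cos |a| :=
      Real.cos_lt_cos_of_nonneg_of_le_pi (abs_nonneg _) (by linarith) h1
    rw [Real.cos_abs] at h2
    refine ⟨abs_lt.1 (by linarith), ?_⟩
    show |z| < s * cos a
    have h3 := mul_lt_mul_of_pos_left h2 hs
    rw [hc] at h3
    exact lt_of_le_of_lt (le_max_right _ _) h3

/-- first the height, then the angle -/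
theorem fub1 {F : ℝ × ℝ → ℝ} (h : IntegrableOn F Om) :
    ∫ q in Om, F q = ∫ a in (-p0)..p0, ∫ z in (-(s * cos a))..(s * cos a), F (a, z) := by
  rw [← integral_indicator Om_meas, Measure.volume_eq_prod,
    integral_prod _ (by rw [← Measure.volume_eq_prod]; exact h.integrable_indicator Om_meas),
    intervalIntegral.integral_of_le (by linarith [p0_pos]), integral_Ioc_eq_integral_Ioo,
    ← integral_indicator measurableSet_Ioo]
  refine integral_congr_ae (Filter.Eventually.of_forall fun a => ?_)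
  simp only
  by_cases ha : a ∈ Ioo (-p0) p0
  · rw [indicator_of_mem ha]
    have hc : 0 < cos a := cos_pos_p0 ⟨ha.1.le, ha.2.le⟩
    have hsc := mul_pos s_pos hc
    rw [intervalIntegral.integral_of_le (by linarith), integral_Ioc_eq_integral_Ioo,
      ← integral_indicator measurableSet_Ioo]
    refine integral_congr_ae (Filter.Eventually.of_forall fun z => ?_)
    simp only
    have hiff : (a, z) ∈ Om ↔ z ∈ Ioo (-(s * cos a)) (s * cos a) := by
      rw [mem_Ioo, ← abs_lt]
      exact ⟨fun h => h.2, fun h => ⟨ha, h⟩⟩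
    by_cases hz : z ∈ Ioo (-(s * cos a)) (s * cos a)
    · rw [indicator_of_mem (hiff.2 hz), indicator_of_mem hz]
    · rw [indicator_of_notMem (fun k => hz (hiff.1 k)), indicator_of_notMem hz]
  · rw [indicator_of_notMem ha]
    have : (fun z => indicator Om F (a, z)) = fun _ => 0 := by
      funext z
      exact indicator_of_notMem (fun k => ha k.1) _
    rw [this, integral_zero]

/-- first the angle, then the height -/
theorem fub2 {F : ℝ × ℝ → ℝ} (h : IntegrableOn F Om) :
    ∫ q in Om, F q = ∫ z in (-s)..s, ∫ a in (-bz z)..(bz z), F (a, z) := by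
  rw [← integral_indicator Om_meas, Measure.volume_eq_prod,
    integral_prod_symm _ (by rw [← Measure.volume_eq_prod]; exact h.integrable_indicator Om_meas),
    intervalIntegral.integral_of_le (by linarith [s_pos]), integral_Ioc_eq_integral_Ioo,
    ← integral_indicator measurableSet_Ioo]
  refine integral_congr_ae (Filter.Eventually.of_forall fun z => ?_)
  simp only
  by_cases hz : z ∈ Ioo (-s) s
  · rw [indicator_of_mem hz]
    have hb := bz_nonneg z
    rw [intervalIntegral.integral_of_le (by linarith), integral_Ioc_eq_integral_Ioo,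
      ← integral_indicator measurableSet_Ioo]
    refine integral_congr_ae (Filter.Eventually.of_forall fun a => ?_)
    simp only
    have hiff := section_z hz a
    by_cases ha : a ∈ Ioo (-bz z) (bz z)
    · rw [indicator_of_mem (hiff.2 ha), indicator_of_mem ha]
    · rw [indicator_of_notMem (fun k => ha (hiff.1 k)), indicator_of_notMem ha]
  · rw [indicator_of_notMem hz]
    have : (fun a => indicator Om F (a, z)) = fun _ => 0 := by
      funext a
      refine indicator_of_notMem (fun k => hz ?_) _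
      have h1 : |z| < s * cos a := k.2
      have h2 := Real.cos_le_one a
      have h3 : |z| < s := by nlinarith [s_pos]
      exact abs_lt.1 h3
    rw [this, integral_zero]

variable {w wp wz : ℝ → ℝ → ℝ}

theorem w_end (h : Cyl w wp wz) {z : ℝ} (hz : z ∈ Icc (-s) s) :
    w (bz z) z = 0 ∧ w (-bz z) z = 0 := by
  have hzs : |z| ≤ s := abs_le.2 hz
  have hb0 := bz_nonneg z
  have hb1 := bz_le (z := z)
  rcases le_or_gt |z| z0 with h1 | h1
  · rw [bz_mid h1]
    exact h.b1 z (abs_le.1 h1)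
  · have h2 := cos_bz' hzs h1.le
    constructor
    · exact h.b2 _ ⟨by linarith, hb1⟩ z h2
    · exact h.b2 _ ⟨by linarith, by linarith⟩ z (by rw [Real.cos_neg]; exact h2)

theorem tan_contOn : ContinuousOn (fun q : ℝ × ℝ => tan q.1) Rc := by
  have e : (fun q : ℝ × ℝ => tan q.1) = fun q => sin q.1 / cos q.1 := by
    funext q; exact Real.tan_eq_sin_div_cos _
  rw [e]
  exact ContinuousOn.div (by fun_prop) (by fun_prop) fun q hq => (cos_pos_p0 hq.1).ne'

theorem cw' (h : Cyl w wp wz) : ContinuousOn (fun q : ℝ × ℝ => w q.1 q.2) Rc := h.cw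

theorem cp' (h : Cyl w wp wz) : ContinuousOn (fun q : ℝ × ℝ => wp q.1 q.2) Rc := h.cp

theorem cz' (h : Cyl w wp wz) : ContinuousOn (fun q : ℝ × ℝ => wz q.1 q.2) Rc := h.cz

theorem com : ContinuousOn (fun q : ℝ × ℝ => om q.2) Rc :=
  (om_cont.comp continuous_snd).continuousOn

/-- the exact term -/
noncomputable def Ex (w wp : ℝ → ℝ → ℝ) (q : ℝ × ℝ) : ℝ :=
  om q.2 * (2 * tan q.1 * w q.1 q.2 * wp q.1 q.2 + (1 + tan q.1 ^ 2) * w q.1 q.2 ^ 2)

theorem Ex_cont (h : Cyl w wp wz) : ContinuousOn (Ex w wp) Rc := by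
  unfold Ex
  exact com.mul ((((continuousOn_const.mul tan_contOn).mul (cw' h)).mul (cp' h)).add
    ((continuousOn_const.add (tan_contOn.pow 2)).mul ((cw' h).pow 2)))

theorem Ex_int (h : Cyl w wp wz) : ∫ q in Om, Ex w wp q = 0 := by
  rw [fub2 (int_of_cont (Ex_cont h))]
  have key : ∀ z ∈ uIcc (-s) s, ∫ a in (-bz z)..(bz z), Ex w wp (a, z) = 0 := by
    intro z hz
    rw [uIcc_of_le (by linarith [s_pos])] at hz
    have hb0 := bz_nonneg z
    have hb1 := bz_le (z := z)
    have hle : -bz z ≤ bz z := by linarith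
    have hsub : Icc (-bz z) (bz z) ⊆ Icc (-p0) p0 := Icc_subset_Icc (by linarith) hb1
    have hd : ∀ a ∈ uIcc (-bz z) (bz z), HasDerivAt (fun a => om z * (tan a * w a z ^ 2))
        (Ex w wp (a, z)) a := by
      intro a ha
      rw [uIcc_of_le hle] at ha
      have hc := cos_pos_p0 (hsub ha)
      have h1 := ((Real.hasDerivAt_tan hc.ne').mul ((h.dp a (hsub ha) z hz).pow 2)).const_mul (om z)
      refine h1.congr_deriv ?_
      unfold Ex
      simp only [Pi.pow_apply, Nat.cast_ofNat, Nat.add_one_sub_one, pow_one]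
      have e : 1 / cos a ^ 2 = 1 + tan a ^ 2 := by
        rw [Real.tan_eq_sin_div_cos]
        have := Real.sin_sq_add_cos_sq a
        field_simp
        linarith
      rw [e]
      ring
    have hci : ContinuousOn (fun a => Ex w wp (a, z)) (uIcc (-bz z) (bz z)) := by
      rw [uIcc_of_le hle]
      have h1 : ContinuousOn (fun a : ℝ => (a, z)) (Icc (-bz z) (bz z)) := by fun_prop
      exact (Ex_cont h).comp h1 fun a ha => ⟨hsub ha, hz⟩
    rw [intervalIntegral.integral_eq_sub_of_hasDerivAt hd hci.intervalIntegrable]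
    obtain ⟨e1, e2⟩ := w_end h hz
    rw [e1, e2]
    ring
  rw [intervalIntegral.integral_congr key]
  simp

theorem Wl_meas : Measurable Wl := by
  have hWl : Wl = fun z => if |z| ≤ z0 then Wz z else -2 / (1 + z ^ 2) ^ 2 := rfl
  rw [hWl]
  refine Measurable.ite (measurableSet_le measurable_norm measurable_const)
    Wz_cont.measurable ?_
  exact (Continuous.div (by fun_prop) (by fun_prop) fun z => by positivity).measurable

theorem Wl_bdd : ∃ C, ∀ q ∈ Om, ‖Wl q.2‖ ≤ C := by
  obtain ⟨C, hC⟩ := (isCompact_Icc (a := -s) (b := s)).exists_bound_of_continuousOn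
    Wz_cont.continuousOn
  refine ⟨max C 2, fun q hq => ?_⟩
  unfold Wl
  split_ifs with h
  · exact (hC q.2 (Om_Rc hq).2).trans (le_max_left _ _)
  · refine le_trans ?_ (le_max_right _ _)
    rw [Real.norm_eq_abs, abs_div, abs_of_pos (by positivity : (0 : ℝ) < (1 + q.2 ^ 2) ^ 2),
      abs_neg, abs_two]
    rw [div_le_iff₀ (by positivity)]
    nlinarith [sq_nonneg q.2, sq_nonneg (q.2 ^ 2)]

theorem Wl_int {F : ℝ × ℝ → ℝ} (h : IntegrableOn F Om) :
    IntegrableOn (fun q : ℝ × ℝ => Wl q.2 * F q) Om := by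
  obtain ⟨C, hC⟩ := Wl_bdd
  refine Integrable.bdd_mul (c := C) h (Wl_meas.comp measurable_snd).aestronglyMeasurable ?_
  rw [ae_restrict_iff' Om_meas]
  exact Filter.Eventually.of_forall hC

/-- **(0.1)** the functional in cylinder coordinates -/
theorem dfun_cyl {f : ℝ × ℝ → ℝ} (h : Adm f) : Dfun (fun p => f0 p - f p) =
    ∫ q in Om, (Wl q.2 * wF f q.1 q.2 - wzF f q.1 q.2 ^ 2 / √(1 + q.2 ^ 2)
      - om q.2 * (wpF f q.1 q.2 ^ 2 - wF f q.1 q.2 ^ 2)) := by
  have hC := cyl_of_adm h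
  have e1 : Dfun (fun p => f0 p - f p) = ∫ q in Om,
      (Wl q.2 * wF f q.1 q.2 - wzF f q.1 q.2 ^ 2 / √(1 + q.2 ^ 2)
      - om q.2 * (wpF f q.1 q.2 + tan q.1 * wF f q.1 q.2) ^ 2) := by
    unfold Dfun
    rw [change]
    refine setIntegral_congr_fun Om_meas fun q hq => ?_
    exact point_cyl f (cos_pos_Om hq) q.2
  have i1 : IntegrableOn (fun q : ℝ × ℝ => Wl q.2 * wF f q.1 q.2) Om :=
    Wl_int (int_of_cont (cw' hC))
  have i2 : IntegrableOn (fun q : ℝ × ℝ => wzF f q.1 q.2 ^ 2 / √(1 + q.2 ^ 2)) Om :=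
    int_of_cont (((cz' hC).pow 2).div (by fun_prop) fun q _ =>
      (Real.sqrt_pos.2 (by positivity)).ne')
  have i3 : IntegrableOn (fun q : ℝ × ℝ => om q.2 * (wpF f q.1 q.2 ^ 2 - wF f q.1 q.2 ^ 2)) Om :=
    int_of_cont (com.mul (((cp' hC).pow 2).sub ((cw' hC).pow 2)))
  have i4 : IntegrableOn (Ex (wF f) (wpF f)) Om := int_of_cont (Ex_cont hC)
  have e2 : ∫ q in Om, (Wl q.2 * wF f q.1 q.2 - wzF f q.1 q.2 ^ 2 / √(1 + q.2 ^ 2)
      - om q.2 * (wpF f q.1 q.2 + tan q.1 * wF f q.1 q.2) ^ 2) =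
      ∫ q in Om, ((Wl q.2 * wF f q.1 q.2 - wzF f q.1 q.2 ^ 2 / √(1 + q.2 ^ 2)
      - om q.2 * (wpF f q.1 q.2 ^ 2 - wF f q.1 q.2 ^ 2)) - Ex (wF f) (wpF f) q) := by
    refine setIntegral_congr_fun Om_meas fun q _ => ?_
    unfold Ex
    ring
  have e3 := integral_sub ((i1.sub i2).sub i3) i4
  rw [Ex_int hC, sub_zero] at e3
  rw [e1, e2]
  exact e3

end Helper55.MEI
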