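import Pool.Agent.Helper55.MEI.R1b
import Pool.Agent.Helper96.MEI.E2c

/-!
# Project MEI, regime I, row R1: the functional as an integral over the slices, and (E2)
-/

namespace Helper55.MEI

open Set MeasureTheory Real Helper22.MEI
open Helper96.MEI (z0 p0 Cyl z0_pos z0_sq p0_pos p0_lt cos_p0 z0_lt_s cos_le_cos_p0 DS FS iz e_mem
  ne_mem z0_mem nz0_mem z0_le_e gA_cont gB_cont gD_cont gP_cont E2)
open Pool.Agent.Helper55.MEI (nz nz_pos nz_sq nz_neg nz_cont c0 om om_pos om_neg om_cont Wz Wz_om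
  Wz_cont)

variable {w wp wz : ℝ → ℝ → ℝ}

theorem Wl_slice (h : Cyl w wp wz) {a : ℝ} (ha : a ∈ Icc (-p0) p0) :
    IntervalIntegrable (fun z => Wl z * w a z) volume (-(s * cos a)) (s * cos a) ∧
    ∫ z in (-(s * cos a))..(s * cos a), Wl z * w a z =
    (∫ z in (-z0)..z0, Wz z * w a z) - (∫ z in z0..(s * cos a), 2 * w a z / (1 + z ^ 2) ^ 2) -
      ∫ z in (-(s * cos a))..(-z0), 2 * w a z / (1 + z ^ 2) ^ 2 := by
  have me := e_mem ha
  have mne := ne_mem ha
  have mz := z0_mem
  have mnz := nz0_mem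
  have hz0 := z0_pos
  have hze := z0_le_e ha
  have iA := iz (gA_cont h) ha mnz mz
  have iB := iz (gB_cont h) ha mz me
  have iB' := iz (gB_cont h) ha mne mnz
  have cA : EqOn (fun z => Wz z * w a z) (fun z => Wl z * w a z) (uIoo (-z0) z0) := by
    intro z hz
    rw [uIoo_of_le (by linarith)] at hz
    simp only
    unfold Wl
    rw [if_pos (abs_le.2 ⟨hz.1.le, hz.2.le⟩)]
  have cB : EqOn (fun z => -(2 * w a z / (1 + z ^ 2) ^ 2)) (fun z => Wl z * w a z)
      (uIoo z0 (s * cos a)) := by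
    intro z hz
    rw [uIoo_of_le hze] at hz
    simp only
    unfold Wl
    rw [if_neg (fun k => absurd ((le_abs_self z).trans k) (not_le.2 hz.1))]
    ring
  have cB' : EqOn (fun z => -(2 * w a z / (1 + z ^ 2) ^ 2)) (fun z => Wl z * w a z)
      (uIoo (-(s * cos a)) (-z0)) := by
    intro z hz
    rw [uIoo_of_le (by linarith)] at hz
    simp only
    unfold Wl
    rw [if_neg (fun k => by
      have := (abs_le.1 k).1
      linarith [hz.2])]
    ring
  have jA : IntervalIntegrable (fun z => Wl z * w a z) volume (-z0) z0 :=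
    (intervalIntegrable_congr_uIoo cA).1 iA
  have jB : IntervalIntegrable (fun z => Wl z * w a z) volume z0 (s * cos a) :=
    (intervalIntegrable_congr_uIoo cB).1 iB.neg
  have jB' : IntervalIntegrable (fun z => Wl z * w a z) volume (-(s * cos a)) (-z0) :=
    (intervalIntegrable_congr_uIoo cB').1 iB'.neg
  refine ⟨(jB'.trans jA).trans jB, ?_⟩
  rw [← intervalIntegral.integral_add_adjacent_intervals (jB'.trans jA) jB,
    ← intervalIntegral.integral_add_adjacent_intervals jB' jA,
    ← intervalIntegral.integral_congr_uIoo cA, ← intervalIntegral.integral_congr_uIoo cB,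
    ← intervalIntegral.integral_congr_uIoo cB', intervalIntegral.integral_neg,
    intervalIntegral.integral_neg]
  ring

/-- **row R1** -/
theorem dfun_DS {f : ℝ × ℝ → ℝ} (h : Adm f) : Dfun (fun p => f0 p - f p) =
    ∫ a in (-p0)..p0, DS (s * cos a) (wF f a) (wzF f a) (wpF f a) := by
  have hC := cyl_of_adm h
  have i1 : IntegrableOn (fun q : ℝ × ℝ => Wl q.2 * wF f q.1 q.2) Om :=
    Wl_int (int_of_cont (cw' hC))
  have i2 : IntegrableOn (fun q : ℝ × ℝ => wzF f q.1 q.2 ^ 2 / √(1 + q.2 ^ 2)) Om :=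
    int_of_cont (((cz' hC).pow 2).div (by fun_prop) fun q _ =>
      (Real.sqrt_pos.2 (by positivity)).ne')
  have i3 : IntegrableOn (fun q : ℝ × ℝ => om q.2 * (wpF f q.1 q.2 ^ 2 - wF f q.1 q.2 ^ 2)) Om :=
    int_of_cont (com.mul (((cp' hC).pow 2).sub ((cw' hC).pow 2)))
  rw [dfun_cyl h]
  refine (fub1 ((i1.sub i2).sub i3)).trans ?_
  refine intervalIntegral.integral_congr fun a ha => ?_
  rw [uIcc_of_le (by linarith [p0_pos])] at ha
  have me := e_mem ha
  have mne := ne_mem ha
  obtain ⟨j1, e1⟩ := Wl_slice hC ha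
  have j2 : IntervalIntegrable (fun z => wzF f a z ^ 2 / nz z) volume (-(s * cos a)) (s * cos a) :=
    iz (gD_cont hC) ha mne me
  have j3 : IntervalIntegrable (fun z => om z * (wpF f a z ^ 2 - wF f a z ^ 2)) volume
      (-(s * cos a)) (s * cos a) := iz (gP_cont hC) ha mne me
  have e2 := intervalIntegral.integral_sub (j1.sub j2) j3
  have e3 := intervalIntegral.integral_sub j1 j2
  unfold DS
  rw [← e1]
  simp only [Pi.sub_apply] at e2 ⊢
  unfold nz at *
  linarith

/-- regime I up to the slice lemma -/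
theorem dfun_ge {f : ℝ × ℝ → ℝ} (h : Adm f) :
    ∫ a in (-p0)..p0, FS (s * cos a) (wF f a) (wzF f a) ≤ Dfun (fun p => f0 p - f p) := by
  rw [dfun_DS h]
  exact E2 (cyl_of_adm h)

end Helper55.MEI
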