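import Pool.Agent.Helper93.MEI.Side

/-!
# The contact cone chamber with the slack of the largest coordinate (face cell of vertex 0)
-/

namespace Pool.Agent.Helper55.Slack

open Set Metric Helper80.CW Helper14.CW Helper93.MEI
open scoped RealInnerProductSpace

/-- the quadratic form is at most twice the square of the largest coordinate -/
theorem quad_le {x y z : ℝ} (hy : 0 ≤ y) (hz : 0 ≤ z) (hyx : y ≤ x) (hzx : z ≤ x) :
    3 / 2 * (x ^ 2 + y ^ 2 + z ^ 2) - (x * y + x * z + y * z) ≤ 2 * x ^ 2 := by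
  rcases le_total y z with h | h
  · nlinarith [mul_nonneg hy (sub_nonneg.2 h), mul_nonneg hz (sub_nonneg.2 hzx),
      mul_nonneg hy (sub_nonneg.2 hyx), mul_nonneg (sub_nonneg.2 hzx) (sub_nonneg.2 hyx),
      mul_nonneg (sub_nonneg.2 hzx) (sub_nonneg.2 hzx)]
  · nlinarith [mul_nonneg hz (sub_nonneg.2 h), mul_nonneg hz (sub_nonneg.2 hzx),
      mul_nonneg hy (sub_nonneg.2 hyx), mul_nonneg (sub_nonneg.2 hzx) (sub_nonneg.2 hyx),
      mul_nonneg (sub_nonneg.2 hyx) (sub_nonneg.2 hyx)]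

section gram
variable {a : Fin 4 → E3} (h : Gram4 (al a))
include h

/-- one of the three numbers `y_k` is at least `√(δ/2)` and it is the largest one -/
theorem exists_large {q : E3} (hq : Pl a q) :
    (√(‖a 0 - q‖ ^ 2 / 2) ≤ yv a 0 1 q ∧ yv a 0 2 q ≤ yv a 0 1 q ∧ yv a 0 3 q ≤ yv a 0 1 q) ∨
    (√(‖a 0 - q‖ ^ 2 / 2) ≤ yv a 0 2 q ∧ yv a 0 1 q ≤ yv a 0 2 q ∧ yv a 0 3 q ≤ yv a 0 2 q) ∨
    (√(‖a 0 - q‖ ^ 2 / 2) ≤ yv a 0 3 q ∧ yv a 0 1 q ≤ yv a 0 3 q ∧ yv a 0 2 q ≤ yv a 0 3 q) := by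
  have hd := norm_d_sq h q
  have y1 := yv_nonneg hq (i := 0) (j := 1) (by decide)
  have y2 := yv_nonneg hq (i := 0) (j := 2) (by decide)
  have y3 := yv_nonneg hq (i := 0) (j := 3) (by decide)
  rw [hd]
  set Y1 := yv a 0 1 q
  set Y2 := yv a 0 2 q
  set Y3 := yv a 0 3 q
  rcases le_total Y2 Y1 with h21 | h12
  · rcases le_total Y3 Y1 with h31 | h13
    · left
      refine ⟨?_, h21, h31⟩
      have := quad_le y2 y3 h21 h31
      exact Real.sqrt_le_iff.2 ⟨y1, by nlinarith⟩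
    · right; right
      refine ⟨?_, h13, h21.trans h13⟩
      have := quad_le y1 y2 h13 (h21.trans h13)
      exact Real.sqrt_le_iff.2 ⟨y3, by nlinarith⟩
  · rcases le_total Y3 Y2 with h32 | h23
    · right; left
      refine ⟨?_, h12, h32⟩
      have := quad_le y1 y3 h12 h32
      exact Real.sqrt_le_iff.2 ⟨y2, by nlinarith⟩
    · right; right
      refine ⟨?_, h12.trans h23, h23⟩
      have := quad_le y1 y2 (h12.trans h23) h23
      exact Real.sqrt_le_iff.2 ⟨y3, by nlinarith⟩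

end gram

/-- slack of one contact coupling: `P` is the coordinate vector `(P1, P2, P3)` of the contact point,
`Y1` the largest of the `Y`'s -/
theorem slack_one {P1 P2 P3 Y1 Y2 Y3 δ s η : ℝ} (hs : s ≤ Y1) (hs0 : 0 ≤ s)
    (h2 : 0 ≤ Y2) (h3 : 0 ≤ Y3) (h21 : Y2 ≤ Y1) (h31 : Y3 ≤ Y1)
    (hη : η ≤ P1 - pp (-P2) - pp (-P3)) (hη0 : 0 ≤ η) :
    2 * η * s - δ ≤ 2 * (P1 * Y1 + P2 * Y2 + P3 * Y3) - δ := by
  have hY1 : 0 ≤ Y1 := hs0.trans hs
  have a2 : -(pp (-P2) * Y1) ≤ P2 * Y2 := by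
    have k1 := le_pp (-P2)
    have k0 := pp_nonneg (-P2)
    have e1 : -(pp (-P2)) * Y2 ≤ P2 * Y2 := mul_le_mul_of_nonneg_right (by linarith) h2
    have e2 : pp (-P2) * Y2 ≤ pp (-P2) * Y1 := mul_le_mul_of_nonneg_left h21 k0
    linarith
  have a3 : -(pp (-P3) * Y1) ≤ P3 * Y3 := by
    have k1 := le_pp (-P3)
    have k0 := pp_nonneg (-P3)
    have e1 : -(pp (-P3)) * Y3 ≤ P3 * Y3 := mul_le_mul_of_nonneg_right (by linarith) h3
    have e2 : pp (-P3) * Y3 ≤ pp (-P3) * Y1 := mul_le_mul_of_nonneg_left h31 k0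
    linarith
  have a1 : η * Y1 ≤ (P1 - pp (-P2) - pp (-P3)) * Y1 := mul_le_mul_of_nonneg_right hη hY1
  have a0 : η * s ≤ η * Y1 := mul_le_mul_of_nonneg_left hs hη0
  nlinarith

section gram2
variable {a : Fin 4 → E3} (h : Gram4 (al a))
include h

/-- **contact cone chamber with slack.**  `b(p) = M + ξ_1 P_1 + ξ_2 P_2 + ξ_3 P_3` exactly,
`(L, m; M)` any load, `P_k` the contact points with values `v_k`.  The `δ` term is only a cost as
long as the slack of the contact coupling of the largest coordinate does not pay it. -/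
theorem cone_slack {p q : E3} {A κ L m ξ η ρ : ℝ} {M x v : Fin 3 → ℝ} {P : Fin 3 → Fin 3 → ℝ}
    (hA : 0 ≤ A) (hq : Pl a q) (hpq : ‖p - q‖ = 1)
    (hL : L + m * ‖a 0 - q‖ ^ 2 ≤
      2 * (M 0 * yv a 0 1 q + M 1 * yv a 0 2 q + M 2 * yv a 0 3 q))
    (hP : ∀ k, v k + ‖a 0 - q‖ ^ 2 ≤
      2 * (P k 0 * yv a 0 1 q + P k 1 * yv a 0 2 q + P k 2 * yv a 0 3 q))
    (hx : ∀ k, ξ ≤ x k) (hξ : 0 ≤ ξ) (hv : ∀ k, v k ≤ ρ)
    (e1 : bar a 1 p = M 0 + (x 0 * P 0 0 + x 1 * P 1 0 + x 2 * P 2 0))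
    (e2 : bar a 2 p = M 1 + (x 0 * P 0 1 + x 1 * P 1 1 + x 2 * P 2 1))
    (e3 : bar a 3 p = M 2 + (x 0 * P 0 2 + x 1 * P 1 2 + x 2 * P 2 2))
    (hη0 : 0 ≤ η) (hη1 : η ≤ P 0 0 - pp (-P 0 1) - pp (-P 0 2))
    (hη2 : η ≤ P 1 1 - pp (-P 1 0) - pp (-P 1 2))
    (hη3 : η ≤ P 2 2 - pp (-P 2 0) - pp (-P 2 1)) :
    A * (L + (x 0 * v 0 + x 1 * v 1 + x 2 * v 2))
      - pp ((A * (1 - m - (x 0 + x 1 + x 2)) + κ) * ‖a 0 - q‖ ^ 2
        - A * ξ * pp (2 * η * √(‖a 0 - q‖ ^ 2 / 2) - ‖a 0 - q‖ ^ 2 - ρ)) ≤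
      A * Qv a 0 p - κ * ‖a 0 - q‖ ^ 2 := by
  have f0 := face_id h p q
  rw [hpq] at f0
  have y1 := yv_nonneg hq (i := 0) (j := 1) (by decide)
  have y2 := yv_nonneg hq (i := 0) (j := 2) (by decide)
  have y3 := yv_nonneg hq (i := 0) (j := 3) (by decide)
  have hlarge := exists_large h hq
  set δ := ‖a 0 - q‖ ^ 2 with hδdef
  set Y1 := yv a 0 1 q
  set Y2 := yv a 0 2 q
  set Y3 := yv a 0 3 q
  set s := √(δ / 2)
  have hs0 : 0 ≤ s := Real.sqrt_nonneg _
  -- the three slacks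
  obtain ⟨S, hS⟩ : ∃ S : Fin 3 → ℝ, ∀ k, S k =
      2 * (P k 0 * Y1 + P k 1 * Y2 + P k 2 * Y3) - δ - v k := ⟨_, fun _ => rfl⟩
  have hS0 : ∀ k, 0 ≤ S k := fun k => by rw [hS]; linarith [hP k]
  have hsum : ξ * pp (2 * η * s - δ - ρ) ≤ x 0 * S 0 + x 1 * S 1 + x 2 * S 2 := by
    have hx0 : ∀ k, 0 ≤ x k := fun k => hξ.trans (hx k)
    have key : ∀ k, 2 * η * s - δ - ρ ≤ S k → ξ * pp (2 * η * s - δ - ρ) ≤ x k * S k := by
      intro k hk
      have g1 : pp (2 * η * s - δ - ρ) ≤ S k := by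
        unfold pp
        exact max_le hk (hS0 k)
      calc ξ * pp (2 * η * s - δ - ρ) ≤ ξ * S k := mul_le_mul_of_nonneg_left g1 hξ
        _ ≤ x k * S k := mul_le_mul_of_nonneg_right (hx k) (hS0 k)
    have n0 := mul_nonneg (hx0 0) (hS0 0)
    have n1 := mul_nonneg (hx0 1) (hS0 1)
    have n2 := mul_nonneg (hx0 2) (hS0 2)
    rcases hlarge with ⟨g1, g2, g3⟩ | ⟨g1, g2, g3⟩ | ⟨g1, g2, g3⟩
    · have hk : 2 * η * s - δ - ρ ≤ S 0 := by
        have := slack_one (δ := δ) g1 hs0 y2 y3 g2 g3 hη1 hη0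
        rw [hS]
        linarith [hv 0]
      linarith [key 0 hk]
    · have hk : 2 * η * s - δ - ρ ≤ S 1 := by
        have := slack_one (δ := δ) g1 hs0 y1 y3 g2 g3 hη2 hη0
        rw [hS]
        linarith [hv 1]
      linarith [key 1 hk]
    · have hk : 2 * η * s - δ - ρ ≤ S 2 := by
        have := slack_one (δ := δ) g1 hs0 y1 y2 g2 g3 hη3 hη0
        rw [hS]
        linarith [hv 2]
      linarith [key 2 hk]
  have hQ : Qv a 0 p = 2 * (bar a 1 p * Y1 + bar a 2 p * Y2 + bar a 3 p * Y3) - δ := by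
    linarith
  have hQ2 : Qv a 0 p = 2 * (M 0 * Y1 + M 1 * Y2 + M 2 * Y3)
      + (x 0 * (S 0 + δ + v 0) + x 1 * (S 1 + δ + v 1) + x 2 * (S 2 + δ + v 2)) - δ := by
    rw [hQ, e1, e2, e3, hS, hS, hS]
    ring
  have g0 := mul_le_mul_of_nonneg_left hL hA
  have g1 := mul_le_mul_of_nonneg_left hsum hA
  have g2 := le_pp ((A * (1 - m - (x 0 + x 1 + x 2)) + κ) * δ
        - A * ξ * pp (2 * η * s - δ - ρ))
  rw [hQ2]
  linarith

end gram2

/-- closed form of the `δ` cost for `δ ≤ w1`: the crossing value `T wc` or the value at `w1` -/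
theorem slack_fun {T B η ρ w w1 wc : ℝ} (hT : 0 ≤ T) (hB : 0 ≤ B) (hw : 0 ≤ w) (hw1 : w ≤ w1)
    (hwc0 : 0 ≤ wc) (hwc : wc + ρ ≤ 2 * η * √(wc / 2)) :
    pp (T * w - B * pp (2 * η * √(w / 2) - w - ρ)) ≤
      max (T * wc) (pp (T * w1 - B * (2 * η * √(w1 / 2) - w1 - ρ))) := by
  rcases le_total w wc with h | h
  · refine le_max_of_le_left ?_
    unfold pp
    refine max_le ?_ (mul_nonneg hT hwc0)
    have h0 : 0 ≤ B * max (2 * η * √(w / 2) - w - ρ) 0 := mul_nonneg hB (le_max_right _ _)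
    have h1 : T * w ≤ T * wc := mul_le_mul_of_nonneg_left h hT
    linarith
  · have hc0 := Real.sqrt_nonneg (wc / 2)
    have hu0 := Real.sqrt_nonneg (w / 2)
    have h10 := Real.sqrt_nonneg (w1 / 2)
    have hc2 : √(wc / 2) ^ 2 = wc / 2 := Real.sq_sqrt (by positivity)
    have hu2 : √(w / 2) ^ 2 = w / 2 := Real.sq_sqrt (by positivity)
    have h12 : √(w1 / 2) ^ 2 = w1 / 2 := Real.sq_sqrt (by linarith)
    have hcu : √(wc / 2) ≤ √(w / 2) := Real.sqrt_le_sqrt (by linarith)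
    have hu1 : √(w / 2) ≤ √(w1 / 2) := Real.sqrt_le_sqrt (by linarith)
    set uc := √(wc / 2)
    set u := √(w / 2)
    set u1 := √(w1 / 2)
    have hf : T * w - B * (2 * η * u - w - ρ) ≤
        max (T * wc - B * (2 * η * uc - wc - ρ)) (T * w1 - B * (2 * η * u1 - w1 - ρ)) := by
      -- convexity in `u`
      by_contra hcon
      rw [not_le, max_lt_iff] at hcon
      obtain ⟨c1, c2⟩ := hcon
      have e : ∀ x z : ℝ, z = 2 * x ^ 2 → T * z - B * (2 * η * x - z - ρ)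
          = (T + B) * 2 * x ^ 2 - 2 * B * η * x + B * ρ := by
        intro x z hz
        rw [hz]; ring
      rw [e uc wc (by linarith), e u w (by linarith)] at c1
      rw [e u1 w1 (by linarith), e u w (by linarith)] at c2
      have k1 : 0 < (u - uc) * (((T + B) * 2) * (u + uc) - 2 * B * η) := by nlinarith
      have k2 : (u1 - u) * (((T + B) * 2) * (u1 + u) - 2 * B * η) < 0 := by nlinarith
      have hTB : 0 ≤ (T + B) * 2 := by positivity
      have d1 : 0 ≤ u - uc := by linarith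
      have d2 : 0 ≤ u1 - u := by linarith
      have p1 : 0 < ((T + B) * 2) * (u + uc) - 2 * B * η := by
        by_contra hn
        have := mul_nonneg d1 (show 0 ≤ -(((T + B) * 2) * (u + uc) - 2 * B * η) by linarith)
        linarith
      have p2 : ((T + B) * 2) * (u1 + u) - 2 * B * η < 0 := by
        by_contra hn
        have := mul_nonneg d2 (show 0 ≤ ((T + B) * 2) * (u1 + u) - 2 * B * η by linarith)
        linarith
      have := mul_le_mul_of_nonneg_left (show u + uc ≤ u1 + u by linarith) hTB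
      linarith
    have hX : 0 ≤ B * (2 * η * uc - wc - ρ) := mul_nonneg hB (by linarith)
    have hXle : B * (2 * η * u - w - ρ) ≤ B * pp (2 * η * u - w - ρ) :=
      mul_le_mul_of_nonneg_left (le_pp _) hB
    unfold pp at hXle ⊢
    rcases max_choice (T * wc - B * (2 * η * uc - wc - ρ))
      (T * w1 - B * (2 * η * u1 - w1 - ρ)) with hm | hm
    · rw [hm] at hf
      refine le_max_of_le_left (max_le ?_ (mul_nonneg hT hwc0))
      linarith
    · rw [hm] at hf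
      refine le_max_of_le_right (max_le ?_ (le_max_right _ _))
      refine le_trans ?_ (le_max_left _ _)
      linarith

end Pool.Agent.Helper55.Slack
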