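import Pool.Agent.Helper93.MEI.Side

/-!
# The strip lemma with gains (face cell of vertex 0)
-/

namespace Pool.Agent.Helper55.Strip

open Set Metric Helper80.CW Helper14.CW Helper93.MEI
open scoped RealInnerProductSpace

section gram
variable {a : Fin 4 → E3} (h : Gram4 (al a))
include h

/-- **strip algebra**: coefficients `c_k ≥ μ ≥ 0` and any `T ≥ 0`. -/
theorem strip_alg {q : E3} {A T v μ c1 c2 c3 : ℝ} (hA : 0 ≤ A) (hT : 0 ≤ T) (hv : 0 ≤ v)
    (hv' : v ≤ 0.2) (hμ : 0 ≤ μ) (hq : Pl a q) (h1 : μ ≤ c1) (h2 : μ ≤ c2) (h3 : μ ≤ c3)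
    (v1 : Qv a 1 q ≤ v) (v2 : Qv a 2 q ≤ v) (v3 : Qv a 3 q ≤ v) (hδ : ‖a 0 - q‖ ^ 2 ≤ 1.2) :
    T * ‖a 0 - q‖ ^ 2 - 2 * A * (c1 * yv a 0 1 q + c2 * yv a 0 2 q + c3 * yv a 0 3 q) ≤
      pp (T * v - 2 * A * μ * √(2 / 3 * v)) +
        pp (T - A * (c1 + c2 + c3)) * pp (‖a 0 - q‖ ^ 2 - v) := by
  have hd := norm_d_sq h q
  rw [Qv_yv h (by decide) q] at v1 v2 v3
  have y1 := yv_nonneg hq (i := 0) (j := 1) (by decide)
  have y2 := yv_nonneg hq (i := 0) (j := 2) (by decide)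
  have y3 := yv_nonneg hq (i := 0) (j := 3) (by decide)
  have hδ0 : 0 ≤ ‖a 0 - q‖ ^ 2 := by positivity
  have hle := delta_le_sq h hq
  set δ := ‖a 0 - q‖ ^ 2 with hδdef
  set Y1 := yv a 0 1 q
  set Y2 := yv a 0 2 q
  set Y3 := yv a 0 3 q
  have hc : √(2 / 3 * v) ^ 2 = 2 / 3 * v := Real.sq_sqrt (by positivity)
  have hc0 : 0 ≤ √(2 / 3 * v) := Real.sqrt_nonneg _
  set C := √(2 / 3 * v)
  have hpp := le_pp (T * v - 2 * A * μ * C)
  have hpp0 := pp_nonneg (T * v - 2 * A * μ * C)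
  rcases le_total δ v with hdv | hdv
  · have e1 : pp (δ - v) = 0 := by
      unfold pp
      exact max_eq_right (by linarith)
    rw [e1, mul_zero, add_zero]
    set S := Y1 + Y2 + Y3 with hS
    have hS0 : 0 ≤ S := by positivity
    have hm : μ * S ≤ c1 * Y1 + c2 * Y2 + c3 * Y3 := by
      have := mul_le_mul_of_nonneg_right h1 y1
      have := mul_le_mul_of_nonneg_right h2 y2
      have := mul_le_mul_of_nonneg_right h3 y3
      rw [hS]
      linarith
    set r := √(2 / 3 * δ) with hr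
    have hr0 : 0 ≤ r := Real.sqrt_nonneg _
    have hr2 : r ^ 2 = 2 / 3 * δ := Real.sq_sqrt (by positivity)
    have hrS : r ≤ S := by
      apply Real.sqrt_le_iff.2 ⟨hS0, by linarith⟩
    have hrC : r ≤ C := Real.sqrt_le_sqrt (by linarith)
    have k1 : 2 * A * (μ * r) ≤ 2 * A * (c1 * Y1 + c2 * Y2 + c3 * Y3) := by
      apply mul_le_mul_of_nonneg_left _ (by positivity)
      exact (mul_le_mul_of_nonneg_left hrS hμ).trans hm
    have k2 : δ = 3 / 2 * r ^ 2 := by linarith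
    have k3 : v = 3 / 2 * C ^ 2 := by linarith
    rcases le_total (2 * A * μ) (T * (3 / 2) * C) with hcase | hcase
    · have k4 : r * (2 * A * μ - T * (3 / 2) * r) ≥ C * (2 * A * μ - T * (3 / 2) * C) := by
        have g1 : r * (2 * A * μ - T * (3 / 2) * r) ≥
            r * (2 * A * μ - T * (3 / 2) * C) := by
          apply mul_le_mul_of_nonneg_left _ hr0
          have : T * (3 / 2) * r ≤ T * (3 / 2) * C :=
            mul_le_mul_of_nonneg_left hrC (by positivity)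
          linarith
        have g2 : r * (2 * A * μ - T * (3 / 2) * C) ≥
            C * (2 * A * μ - T * (3 / 2) * C) := by
          nlinarith
        linarith
      have k5 : T * v - 2 * A * μ * C = - (C * (2 * A * μ - T * (3 / 2) * C)) := by
        rw [k3]; ring
      have k6 : T * δ = r * (T * (3 / 2) * r) := by rw [k2]; ring
      linarith
    · have k4 : 0 ≤ r * (2 * A * μ - T * (3 / 2) * r) := by
        apply mul_nonneg hr0
        have : T * (3 / 2) * r ≤ T * (3 / 2) * C :=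
          mul_le_mul_of_nonneg_left hrC (by positivity)
        linarith
      have k6 : T * δ = r * (T * (3 / 2) * r) := by rw [k2]; ring
      linarith
  · have e1 : pp (δ - v) = δ - v := by
      unfold pp
      exact max_eq_left (by linarith)
    rw [e1]
    obtain ⟨m, hm⟩ : ∃ m, m = (δ - v) / 2 := ⟨_, rfl⟩
    have hm0 : 0 ≤ m := by rw [hm]; linarith
    have z1 : 0 ≤ Y1 - m := by rw [hm]; linarith
    have z2 : 0 ≤ Y2 - m := by rw [hm]; linarith
    have z3 : 0 ≤ Y3 - m := by rw [hm]; linarith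
    obtain ⟨S, hS⟩ : ∃ S, S = (Y1 - m) + (Y2 - m) + (Y3 - m) := ⟨_, rfl⟩
    have hS0 : 0 ≤ S := by rw [hS]; positivity
    have hsum : m * (c1 + c2 + c3) + μ * S ≤ c1 * Y1 + c2 * Y2 + c3 * Y3 := by
      have g1 := mul_le_mul_of_nonneg_right h1 z1
      have g2 := mul_le_mul_of_nonneg_right h2 z2
      have g3 := mul_le_mul_of_nonneg_right h3 z3
      rw [hS]
      linarith
    have hdS : v + 2 * m ≤ 3 / 2 * m ^ 2 + m * S + 3 / 2 * S ^ 2 := by
      have : v + 2 * m = δ := by rw [hm]; ring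
      rw [this, hd, hS]
      nlinarith [mul_nonneg z1 z2, mul_nonneg z1 z3, mul_nonneg z2 z3]
    have hm6 : m ≤ 0.6 := by rw [hm]; linarith
    have hCS : C ≤ S := by
      by_contra hcon
      push Not at hcon
      have hC4 : C ≤ 0.4 := by nlinarith
      have t1 : S * S < C * C := mul_self_lt_mul_self hS0 hcon
      have t2 : m * S ≤ m * 0.4 := mul_le_mul_of_nonneg_left (by linarith) hm0
      have t3 : m * m ≤ m * 0.6 := mul_le_mul_of_nonneg_left hm6 hm0
      rw [pow_two] at hc hdS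
      rw [pow_two] at hdS
      linarith
    have g5 : μ * C ≤ μ * S := mul_le_mul_of_nonneg_left hCS hμ
    have g6 : 2 * A * (m * (c1 + c2 + c3) + μ * C) ≤ 2 * A * (c1 * Y1 + c2 * Y2 + c3 * Y3) :=
      mul_le_mul_of_nonneg_left (by linarith) (by positivity)
    have g7 : δ = v + 2 * m := by rw [hm]; ring
    have g8 := mul_le_mul_of_nonneg_right (le_pp (T - A * (c1 + c2 + c3)))
      (show 0 ≤ 2 * m by linarith)
    rw [g7]
    have e3 : v + 2 * m - v = 2 * m := by ring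
    rw [e3]
    nlinarith

/-- **strip lemma with gains.** `L, m, M1, M2, M3` is any load (a combination of loss points):
`L + m δ ≤ 2 Σ M_k y_k`.  The part of `b(p)` which the load does not use is at least `μ`. -/
theorem strip_gain {p q : E3} {A κ v μ L m M1 M2 M3 : ℝ} (hA : 0 ≤ A) (hv : 0 ≤ v)
    (hv' : v ≤ 0.2) (hμ : 0 ≤ μ) (hq : Pl a q) (hpq : ‖p - q‖ = 1)
    (hL : L + m * ‖a 0 - q‖ ^ 2 ≤ 2 * (M1 * yv a 0 1 q + M2 * yv a 0 2 q + M3 * yv a 0 3 q))
    (hT : 0 ≤ A * (1 - m) + κ)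
    (h1 : μ ≤ bar a 1 p - M1) (h2 : μ ≤ bar a 2 p - M2) (h3 : μ ≤ bar a 3 p - M3)
    (v1 : Qv a 1 q ≤ v) (v2 : Qv a 2 q ≤ v) (v3 : Qv a 3 q ≤ v) (hδ : ‖a 0 - q‖ ^ 2 ≤ 1.2) :
    A * L - (pp ((A * (1 - m) + κ) * v - 2 * A * μ * √(2 / 3 * v)) +
        pp (κ - A * (- bar a 0 p - (M1 + M2 + M3 - m))) * pp (‖a 0 - q‖ ^ 2 - v)) ≤
      A * Qv a 0 p - κ * ‖a 0 - q‖ ^ 2 := by
  have e0 := face_id h p q
  rw [hpq] at e0
  have hb := bar_sum h p
  have hs := strip_alg h (c1 := bar a 1 p - M1) (c2 := bar a 2 p - M2) (c3 := bar a 3 p - M3)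
    hA hT hv hv' hμ hq h1 h2 h3 v1 v2 v3 hδ
  have e1 : A * (1 - m) + κ - A * (bar a 1 p - M1 + (bar a 2 p - M2) + (bar a 3 p - M3))
      = κ - A * (- bar a 0 p - (M1 + M2 + M3 - m)) := by
    have : bar a 1 p + bar a 2 p + bar a 3 p = 1 - bar a 0 p := by linarith
    linear_combination (-A) * this
  rw [e1] at hs
  have hL' := mul_le_mul_of_nonneg_left hL hA
  have hQ : Qv a 0 p = 2 * (bar a 1 p * yv a 0 1 q + bar a 2 p * yv a 0 2 q
      + bar a 3 p * yv a 0 3 q) - ‖a 0 - q‖ ^ 2 := by linarith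
  rw [hQ]
  linarith

end gram

end Pool.Agent.Helper55.Strip
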