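import Mathlib

/-!
# Integrals over the flat simplex
-/

namespace Pool.Agent.Helper55.Sx

open Set MeasureTheory

/-- the flat simplex -/
def Sim : Set (ℝ × ℝ) := {t | 0 ≤ t.1 ∧ 0 ≤ t.2 ∧ t.1 + t.2 ≤ 1}

theorem Sim_closed : IsClosed Sim :=
  (isClosed_le continuous_const continuous_fst).inter
    ((isClosed_le continuous_const continuous_snd).inter
      (isClosed_le (continuous_fst.add continuous_snd) continuous_const))

theorem Sim_meas : MeasurableSet Sim := Sim_closed.measurableSet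

theorem Sim_sub : Sim ⊆ Icc (0 : ℝ) 1 ×ˢ Icc (0 : ℝ) 1 := by
  rintro ⟨x, y⟩ ⟨h1, h2, h3⟩
  simp only at h1 h2 h3
  exact ⟨⟨h1, by simp only; linarith⟩, ⟨h2, by simp only; linarith⟩⟩

theorem Sim_compact : IsCompact Sim :=
  (isCompact_Icc.prod isCompact_Icc).of_isClosed_subset Sim_closed Sim_sub

/-- Fubini on a region between two graphs -/
theorem int_region {f : ℝ × ℝ → ℝ} (hf : Continuous f) {a b : ℝ} (hab : a ≤ b) {φ ψ : ℝ → ℝ}
    (hφ : Continuous φ) (hψ : Continuous ψ) (hle : ∀ x ∈ Icc a b, φ x ≤ ψ x) :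
    ∫ p in {p : ℝ × ℝ | a ≤ p.1 ∧ p.1 ≤ b ∧ φ p.1 ≤ p.2 ∧ p.2 ≤ ψ p.1}, f p
      = ∫ x in a..b, ∫ y in (φ x)..(ψ x), f (x, y) := by
  set R : Set (ℝ × ℝ) := {p : ℝ × ℝ | a ≤ p.1 ∧ p.1 ≤ b ∧ φ p.1 ≤ p.2 ∧ p.2 ≤ ψ p.1} with hR
  have hRc : IsClosed R :=
    (isClosed_le continuous_const continuous_fst).inter
      ((isClosed_le continuous_fst continuous_const).inter
        ((isClosed_le (hφ.comp continuous_fst) continuous_snd).inter
          (isClosed_le continuous_snd (hψ.comp continuous_fst))))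
  obtain ⟨m, hm⟩ := (isCompact_Icc (a := a) (b := b)).exists_bound_of_continuousOn
    hφ.continuousOn
  obtain ⟨M, hM⟩ := (isCompact_Icc (a := a) (b := b)).exists_bound_of_continuousOn
    hψ.continuousOn
  have hRs : R ⊆ Icc a b ×ˢ Icc (-m) M := by
    rintro ⟨x, y⟩ ⟨h1, h2, h3, h4⟩
    simp only at h1 h2 h3 h4
    have k1 := hm x ⟨h1, h2⟩
    have k2 := hM x ⟨h1, h2⟩
    rw [Real.norm_eq_abs] at k1 k2
    exact ⟨⟨h1, h2⟩, ⟨by have := (abs_le.1 k1).1; simp only; linarith,
      by have := (abs_le.1 k2).2; simp only; linarith⟩⟩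
  have hRk : IsCompact R := (isCompact_Icc.prod isCompact_Icc).of_isClosed_subset hRc hRs
  have hi : Integrable (R.indicator f) := by
    rw [integrable_indicator_iff hRc.measurableSet]
    exact hf.continuousOn.integrableOn_compact hRk
  rw [← integral_indicator hRc.measurableSet]
  have e1 : ∫ p, R.indicator f p = ∫ x, ∫ y, R.indicator f (x, y) := by
    have := integral_prod (μ := (volume : Measure ℝ)) (ν := (volume : Measure ℝ))
      (R.indicator f) (by rw [← Measure.volume_eq_prod]; exact hi)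
    rw [← Measure.volume_eq_prod] at this
    exact this
  rw [e1, intervalIntegral.integral_of_le hab, ← integral_Icc_eq_integral_Ioc,
    ← integral_indicator measurableSet_Icc]
  refine integral_congr_ae (Filter.Eventually.of_forall fun x => ?_)
  by_cases hx : x ∈ Icc a b
  · simp only [indicator_of_mem hx]
    rw [intervalIntegral.integral_of_le (hle x hx), ← integral_Icc_eq_integral_Ioc,
      ← integral_indicator measurableSet_Icc]
    refine integral_congr_ae (Filter.Eventually.of_forall fun y => ?_)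
    simp only [indicator]
    by_cases hy : y ∈ Icc (φ x) (ψ x)
    · rw [if_pos hy, if_pos]
      exact ⟨hx.1, hx.2, hy.1, hy.2⟩
    · rw [if_neg hy, if_neg]
      rintro ⟨-, -, h3, h4⟩
      exact hy ⟨h3, h4⟩
  · simp only [indicator_of_notMem hx]
    have : ∀ y, R.indicator f (x, y) = 0 := by
      intro y
      rw [indicator_of_notMem]
      rintro ⟨h1, h2, -, -⟩
      exact hx ⟨h1, h2⟩
    simp [this]

/-- Fubini on the simplex -/
theorem int_Sim {f : ℝ × ℝ → ℝ} (hf : Continuous f) :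
    ∫ p in Sim, f p = ∫ x in (0 : ℝ)..1, ∫ y in (0 : ℝ)..(1 - x), f (x, y) := by
  have h := int_region hf (zero_le_one (α := ℝ)) (φ := fun _ => 0) (ψ := fun x => 1 - x)
    continuous_const (by fun_prop) (fun x hx => by linarith [hx.2])
  rw [← h]
  congr 2
  ext ⟨x, y⟩
  simp only [Sim, mem_ofPred_eq]
  constructor
  · rintro ⟨h1, h2, h3⟩
    exact ⟨h1, by linarith, h2, by linarith⟩
  · rintro ⟨h1, h2, h3, h4⟩
    exact ⟨h1, h3, by linarith⟩

end Pool.Agent.Helper55.Sx
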