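import Pool.Agent.Helper55.MEI.Sx

/-!
# Integrals over the flat simplex: symmetries and the leak bound
-/

namespace Pool.Agent.Helper55.Sx

open Set MeasureTheory

/-- third coordinate -/
def t3 (t : ℝ × ℝ) : ℝ := 1 - t.1 - t.2

/-- second elementary symmetric function -/
def e2 (t : ℝ × ℝ) : ℝ := t.1 * t.2 + t.1 * t3 t + t.2 * t3 t

/-- squared norm of the direction -/
def mm (t : ℝ × ℝ) : ℝ := 1 - e2 t

theorem e2_eq (t : ℝ × ℝ) : e2 t = t.1 * t.2 + (t.1 + t.2) * (1 - t.1 - t.2) := by
  simp only [e2, t3]; ring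

theorem e2_cont : Continuous e2 := by
  unfold e2 t3; fun_prop

theorem mm_cont : Continuous mm := continuous_const.sub e2_cont

theorem mm_pos (t : ℝ × ℝ) : 2 / 3 ≤ mm t := by
  simp only [mm, e2, t3]
  nlinarith [sq_nonneg (t.1 - t.2), sq_nonneg (t.1 - (1 - t.1 - t.2)),
    sq_nonneg (t.2 - (1 - t.1 - t.2))]

theorem e2_nonneg {t : ℝ × ℝ} (ht : t ∈ Sim) : 0 ≤ e2 t := by
  obtain ⟨h1, h2, h3⟩ := ht
  have : 0 ≤ t3 t := by simp only [t3]; linarith
  simp only [e2]
  positivity

theorem e2_le (t : ℝ × ℝ) : e2 t ≤ 1 / 3 := by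
  have := mm_pos t
  simp only [mm] at this
  linarith

theorem mm_le {t : ℝ × ℝ} (ht : t ∈ Sim) : mm t ≤ 1 := by
  have := e2_nonneg ht
  simp only [mm]
  linarith

/-! ### symmetries -/

theorem Sim_swap (f : ℝ × ℝ → ℝ) : ∫ t in Sim, f (t.2, t.1) = ∫ t in Sim, f t := by
  rw [← integral_indicator Sim_meas, ← integral_indicator Sim_meas]
  have h := integral_prod_swap (μ := (volume : Measure ℝ)) (ν := (volume : Measure ℝ))
    (Sim.indicator f)
  rw [← Measure.volume_eq_prod] at h
  rw [← h]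
  refine integral_congr_ae (Filter.Eventually.of_forall fun t => ?_)
  have : (t ∈ Sim) ↔ (t.swap ∈ Sim) := by
    simp only [Sim, mem_ofPred_eq, Prod.fst_swap, Prod.snd_swap]
    constructor
    · rintro ⟨h1, h2, h3⟩
      exact ⟨h2, h1, by linarith⟩
    · rintro ⟨h1, h2, h3⟩
      exact ⟨h2, h1, by linarith⟩
  by_cases ht : t ∈ Sim
  · rw [indicator_of_mem ht]
    exact (indicator_of_mem (this.1 ht) f).symm
  · rw [indicator_of_notMem ht]
    exact (indicator_of_notMem (fun h => ht (this.2 h)) f).symm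

/-- the affine map exchanging the first and the third coordinate -/
def sh (t : ℝ × ℝ) : ℝ × ℝ := (1 - t.1 - t.2, t.2)

theorem sh_mp : MeasurePreserving sh volume volume := by
  have h1 : MeasurePreserving (fun t : ℝ × ℝ => (t.1, 1 - t.1 - t.2)) volume volume := by
    rw [Measure.volume_eq_prod]
    have := MeasurePreserving.skew_product (μa := (volume : Measure ℝ))
      (μb := (volume : Measure ℝ)) (μc := (volume : Measure ℝ)) (μd := (volume : Measure ℝ))
      (f := fun x : ℝ => x) (MeasurePreserving.id _) (g := fun x y => 1 - x - y)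
      (by simp only [Function.uncurry_def]; fun_prop)
      (Filter.Eventually.of_forall fun x =>
        (Measure.measurePreserving_sub_left (volume : Measure ℝ) (1 - x)).map_eq)
    exact this
  have h2 : MeasurePreserving (Prod.swap : ℝ × ℝ → ℝ × ℝ) volume volume := by
    rw [Measure.volume_eq_prod]
    exact Measure.measurePreserving_swap
  have h3 := (h2.comp h1).comp h2
  have h4 : ((Prod.swap ∘ fun t : ℝ × ℝ => (t.1, 1 - t.1 - t.2)) ∘ Prod.swap) = sh := by
    funext t
    simp only [Function.comp, Prod.swap, sh]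
    ext
    · simp only
      ring
    · rfl
  rw [h4] at h3
  exact h3

theorem sh_sh (t : ℝ × ℝ) : sh (sh t) = t := by
  ext
  · simp only [sh]
    ring
  · simp only [sh]

theorem sh_meas : Measurable sh := by
  unfold sh
  fun_prop

theorem Sim_sh (f : ℝ × ℝ → ℝ) : ∫ t in Sim, f (sh t) = ∫ t in Sim, f t := by
  have hem : MeasurableEmbedding sh :=
    (MeasurableEquiv.mk ⟨sh, sh, sh_sh, sh_sh⟩ sh_meas sh_meas).measurableEmbedding
  have h := sh_mp.setIntegral_preimage_emb hem f Sim
  have : sh ⁻¹' Sim = Sim := by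
    ext t
    simp only [mem_preimage, Sim, mem_ofPred_eq, sh]
    constructor
    · rintro ⟨h1, h2, h3⟩
      exact ⟨by linarith, h2, by linarith⟩
    · rintro ⟨h1, h2, h3⟩
      exact ⟨by linarith, h2, by linarith⟩
  rw [this] at h
  exact h

theorem e2_swap (t : ℝ × ℝ) : e2 (t.2, t.1) = e2 t := by
  simp only [e2, t3]; ring

theorem e2_sh (t : ℝ × ℝ) : e2 (sh t) = e2 t := by
  simp only [e2, t3, sh]; ring

theorem mm_swap (t : ℝ × ℝ) : mm (t.2, t.1) = mm t := by
  simp only [mm, e2_swap]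

theorem mm_sh (t : ℝ × ℝ) : mm (sh t) = mm t := by
  simp only [mm, e2_sh]

/-- second coordinate from the first -/
theorem Sim_c2 (φ : ℝ → ℝ → ℝ) :
    ∫ t in Sim, φ t.2 (mm t) = ∫ t in Sim, φ t.1 (mm t) := by
  have h := Sim_swap (fun t => φ t.1 (mm t))
  rw [← h]
  refine integral_congr_ae (Filter.Eventually.of_forall fun t => ?_)
  simp only [mm_swap]

/-- third coordinate from the first -/
theorem Sim_c3 (φ : ℝ → ℝ → ℝ) :
    ∫ t in Sim, φ (t3 t) (mm t) = ∫ t in Sim, φ t.1 (mm t) := by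
  have h := Sim_sh (fun t => φ t.1 (mm t))
  rw [← h]
  refine integral_congr_ae (Filter.Eventually.of_forall fun t => ?_)
  simp only [mm_sh]
  rfl

end Pool.Agent.Helper55.Sx
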