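import Pool.Agent.Helper55.MEI.Sx2

/-!
# The leak integral over the flat simplex
-/

namespace Pool.Agent.Helper55.Sx

open Set MeasureTheory

/-- positive part squared -/
theorem hasDeriv_pp_sq (u : ℝ) : HasDerivAt (fun x : ℝ => (max x 0) ^ 2) (2 * max u 0) u := by
  rcases lt_trichotomy u 0 with h | h | h
  · have : (fun x : ℝ => (max x 0) ^ 2) =ᶠ[nhds u] fun _ => (0 : ℝ) := by
      filter_upwards [gt_mem_nhds h] with x hx
      rw [max_eq_right hx.le]
      norm_num
    rw [max_eq_right h.le, mul_zero]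
    exact (hasDerivAt_const u (0 : ℝ)).congr_of_eventuallyEq this
  · subst h
    rw [max_self, mul_zero, hasDerivAt_iff_isLittleO]
    simp only [max_self, sub_zero, smul_zero, ne_eq, OfNat.ofNat_ne_zero, not_false_eq_true,
      zero_pow]
    have h1 : (fun x : ℝ => (max x 0) ^ 2) =O[nhds 0] fun x => x ^ 2 := by
      refine Asymptotics.isBigO_of_le _ fun x => ?_
      rw [Real.norm_eq_abs, Real.norm_eq_abs, abs_of_nonneg (by positivity),
        abs_of_nonneg (by positivity)]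
      rcases le_total x 0 with hx | hx
      · rw [max_eq_right hx]
        nlinarith [sq_nonneg x]
      · rw [max_eq_left hx]
    have h2 : (fun x : ℝ => x ^ 2) =o[nhds 0] fun x : ℝ => x := by
      have := Asymptotics.isLittleO_pow_id (𝕜 := ℝ) (n := 2) (by norm_num)
      exact this
    exact h1.trans_isLittleO h2
  · have : (fun x : ℝ => (max x 0) ^ 2) =ᶠ[nhds u] fun x => x ^ 2 := by
      filter_upwards [lt_mem_nhds h] with x hx
      rw [max_eq_left hx.le]
    rw [max_eq_left h.le]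
    have h2 := hasDerivAt_pow 2 u
    refine (h2.congr_of_eventuallyEq this).congr_deriv ?_
    norm_num

/-- the one dimensional leak inequality -/
theorem leak_one {a b g : ℝ} (hb : 0 < b) (hg : 0 < g) :
    ∫ x in (0 : ℝ)..1, (1 - x) * (max (a - b * (x / √(g * (1 - x) ^ 2 + x))) 0
      / ((g * (1 - x) ^ 2 + x) * √(g * (1 - x) ^ 2 + x))) ≤ a ^ 2 / (2 * b) * (1 / g) := by
  set m : ℝ → ℝ := fun x => g * (1 - x) ^ 2 + x with hm
  have hmpos : ∀ x ∈ Icc (0 : ℝ) 1, 0 < m x := by
    intro x hx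
    simp only [hm]
    rcases eq_or_lt_of_le hx.1 with h | h
    · rw [← h]; nlinarith
    · have := sq_nonneg (1 - x)
      nlinarith
  have hmc : Continuous m := by simp only [hm]; fun_prop
  have hv : ∀ x ∈ Icc (0 : ℝ) 1, HasDerivAt (fun x => x / √(m x))
      ((2 * g * (1 - x) + x) / (2 * (m x * √(m x)))) x := by
    intro x hx
    have h0 := hmpos x hx
    have hs : 0 < √(m x) := Real.sqrt_pos.2 h0
    have hss : √(m x) * √(m x) = m x := Real.mul_self_sqrt h0.le
    have h1 : HasDerivAt m (g * (2 * (1 - x) * (-1)) + 1) x := by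
      have h2 : HasDerivAt (fun x : ℝ => (1 - x) ^ 2) (2 * (1 - x) * (-1)) x := by
        have := ((hasDerivAt_id x).const_sub 1).pow 2
        refine this.congr_deriv ?_
        simp
      exact (h2.const_mul g).add (hasDerivAt_id x)
    have h2 := h1.sqrt h0.ne'
    have h3 := (hasDerivAt_id x).div h2 hs.ne'
    refine h3.congr_deriv ?_
    simp only [id]
    have e1 : √(m x) ^ 2 = m x := by rw [pow_two]; exact hss
    rw [e1]
    field_simp
    rw [e1]
    simp only [hm]
    ring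
  have hH : ∀ x ∈ Icc (0 : ℝ) 1, HasDerivAt
      (fun x => -(max (a - b * (x / √(m x))) 0) ^ 2 / (2 * b))
      (max (a - b * (x / √(m x))) 0 * ((2 * g * (1 - x) + x) / (2 * (m x * √(m x))))) x := by
    intro x hx
    have h1 := ((hv x hx).const_mul b).const_sub a
    have h2 := (hasDeriv_pp_sq (a - b * (x / √(m x)))).comp x h1
    have h3 := (h2.neg).div_const (2 * b)
    refine h3.congr_deriv ?_
    field_simp
  have hsc : Continuous fun x => √(m x) := hmc.sqrt
  have c1 : ContinuousOn (fun x => x / √(m x)) (Icc (0 : ℝ) 1) :=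
    continuousOn_id.div hsc.continuousOn fun x hx => (Real.sqrt_pos.2 (hmpos x hx)).ne'
  have c2 : ContinuousOn (fun x => max (a - b * (x / √(m x))) 0) (Icc (0 : ℝ) 1) :=
    ContinuousOn.sup (continuousOn_const.sub (continuousOn_const.mul c1)) continuousOn_const
  have c3 : ContinuousOn (fun x => m x * √(m x)) (Icc (0 : ℝ) 1) :=
    (hmc.mul hsc).continuousOn
  have n3 : ∀ x ∈ Icc (0 : ℝ) 1, 0 < m x * √(m x) := fun x hx =>
    mul_pos (hmpos x hx) (Real.sqrt_pos.2 (hmpos x hx))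
  have i1 : IntervalIntegrable (fun x => max (a - b * (x / √(m x))) 0
      * ((2 * g * (1 - x) + x) / (2 * (m x * √(m x))))) volume 0 1 := by
    refine ContinuousOn.intervalIntegrable ?_
    rw [uIcc_of_le zero_le_one]
    exact c2.mul ((by fun_prop : Continuous fun x : ℝ => 2 * g * (1 - x) + x).continuousOn.div
      (continuousOn_const.mul c3) fun x hx => (mul_pos two_pos (n3 x hx)).ne')
  have i0 : IntervalIntegrable (fun x => (1 - x) * (max (a - b * (x / √(m x))) 0
      / (m x * √(m x)))) volume 0 1 := by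
    refine ContinuousOn.intervalIntegrable ?_
    rw [uIcc_of_le zero_le_one]
    exact (by fun_prop : Continuous fun x : ℝ => 1 - x).continuousOn.mul
      (c2.div c3 fun x hx => (n3 x hx).ne')
  have hI := intervalIntegral.integral_eq_sub_of_hasDerivAt
    (fun x hx => hH x (by rwa [uIcc_of_le zero_le_one] at hx)) i1
  have hle : ∫ x in (0 : ℝ)..1, (1 - x) * (max (a - b * (x / √(m x))) 0 / (m x * √(m x)))
      ≤ ∫ x in (0 : ℝ)..1, (1 / g) * (max (a - b * (x / √(m x))) 0
      * ((2 * g * (1 - x) + x) / (2 * (m x * √(m x))))) := by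
    refine intervalIntegral.integral_mono_on zero_le_one i0 (i1.const_mul _) fun x hx => ?_
    have k1 : 0 ≤ max (a - b * (x / √(m x))) 0 := le_max_right _ _
    have k2 := n3 x hx
    have e : (1 / g) * (max (a - b * (x / √(m x))) 0
        * ((2 * g * (1 - x) + x) / (2 * (m x * √(m x)))))
        = ((2 * g * (1 - x) + x) / (2 * g)) * (max (a - b * (x / √(m x))) 0 / (m x * √(m x))) := by
      field_simp
    rw [e]
    refine mul_le_mul_of_nonneg_right ?_ (div_nonneg k1 k2.le)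
    rw [le_div_iff₀ (by positivity)]
    nlinarith [hx.1]
  rw [intervalIntegral.integral_const_mul, hI] at hle
  refine hle.trans ?_
  have q1 : -(max (a - b * ((1 : ℝ) / √(m 1))) 0) ^ 2 / (2 * b) ≤ 0 := by
    rw [neg_div]
    exact neg_nonpos.2 (by positivity)
  have q2 : (max (a - b * ((0 : ℝ) / √(m 0))) 0) ^ 2 ≤ a ^ 2 := by
    rw [zero_div, mul_zero, sub_zero]
    rcases le_total a 0 with h | h
    · rw [max_eq_right h]
      nlinarith [sq_nonneg a]
    · rw [max_eq_left h]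
  have q3 : -(max (a - b * ((0 : ℝ) / √(m 0))) 0) ^ 2 / (2 * b) ≥ - (a ^ 2 / (2 * b)) := by
    rw [neg_div]
    exact neg_le_neg (by gcongr)
  have : -(max (a - b * ((1 : ℝ) / √(m 1))) 0) ^ 2 / (2 * b)
      - -(max (a - b * ((0 : ℝ) / √(m 0))) 0) ^ 2 / (2 * b) ≤ a ^ 2 / (2 * b) := by linarith
  have hg' : 0 ≤ 1 / g := by positivity
  calc _ ≤ 1 / g * (a ^ 2 / (2 * b)) := mul_le_mul_of_nonneg_left this hg'
    _ = _ := by ring

theorem mm_ray (x s : ℝ) :
    mm (x, (1 - x) * s) = (1 - s + s ^ 2) * (1 - x) ^ 2 + x := by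
  simp only [mm, e2, t3]
  ring

theorem int_fin {n : ℕ} (c : Fin n → ℝ) (a b : ℝ) :
    ∫ y in a..b, ∑ j, c j * y ^ (j : ℕ)
      = ∑ j, c j * ((b ^ ((j : ℕ) + 1) - a ^ ((j : ℕ) + 1)) / ((j : ℕ) + 1)) := by
  rw [intervalIntegral.integral_finsetSum]
  · refine Finset.sum_congr rfl fun j _ => ?_
    rw [intervalIntegral.integral_const_mul, integral_pow]
  · intro j _
    exact (by fun_prop : Continuous fun y : ℝ => c j * y ^ (j : ℕ)).intervalIntegrable _ _

theorem sum9 {f : Fin 9 → ℝ} : ∑ j, f j = f 0 + f 1 + f 2 + f 3 + f 4 + f 5 + f 6 + f 7 + f 8 := by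
  simp only [Fin.sum_univ_succ, Finset.univ_eq_empty, Finset.sum_empty]
  simp only [add_zero, add_assoc]
  rfl

theorem inv_g_le : ∫ s in (0 : ℝ)..1, 1 / (1 - s + s ^ 2) ≤ 653/540 := by
  have h1 : ∀ s ∈ Icc (0 : ℝ) 1, 1 / (1 - s + s ^ 2)
      ≤ 1 + s * (1 - s) + (s * (1 - s)) ^ 2 + (s * (1 - s)) ^ 3 + 4 / 3 * (s * (1 - s)) ^ 4 := by
    intro s hs
    have hp : 0 < 1 - s + s ^ 2 := by nlinarith [sq_nonneg (s - 1 / 2)]
    rw [div_le_iff₀ hp]
    have k1 : 0 ≤ s * (1 - s) := mul_nonneg hs.1 (by linarith [hs.2])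
    have k2 : s * (1 - s) ≤ 1 / 4 := by nlinarith [sq_nonneg (s - 1 / 2)]
    have e : 1 - s + s ^ 2 = 1 - s * (1 - s) := by ring
    rw [e]
    set σ := s * (1 - s)
    have : (1 + σ + σ ^ 2 + σ ^ 3 + 4 / 3 * σ ^ 4) * (1 - σ) - 1 = σ ^ 4 * (1 / 3 * (1 - 4 * σ)) := by
      ring
    have h3 : 0 ≤ σ ^ 4 * (1 / 3 * (1 - 4 * σ)) := mul_nonneg (by positivity) (by linarith)
    linarith
  have h2 : ∫ s in (0 : ℝ)..1, (1 + s * (1 - s) + (s * (1 - s)) ^ 2 + (s * (1 - s)) ^ 3
      + 4 / 3 * (s * (1 - s)) ^ 4) = 653/540 := by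
    have h := int_fin (n := 9) ![(1), (1), (0), (-1), (-2 / 3), (-7 / 3), (7), (-16 / 3), (4 / 3)] (0 : ℝ) 1
    simp only [sum9] at h
    refine Eq.trans (intervalIntegral.integral_congr fun y _ => ?_) (h.trans ?_)
    · simp
      ring
    · simp
      norm_num
  rw [← h2]
  refine intervalIntegral.integral_mono_on zero_le_one ?_ ?_ h1
  · refine ContinuousOn.intervalIntegrable ?_
    refine continuousOn_const.div (by fun_prop) fun s _ => ?_
    have hp : 0 < 1 - s + s ^ 2 := by nlinarith [sq_nonneg (s - 1 / 2)]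
    exact hp.ne'
  · exact (by fun_prop : Continuous fun s : ℝ => (1 + s * (1 - s) + (s * (1 - s)) ^ 2
      + (s * (1 - s)) ^ 3 + 4 / 3 * (s * (1 - s)) ^ 4)).intervalIntegrable _ _

/-- the leak integrand -/
noncomputable def lk (a b x m : ℝ) : ℝ := max (a - b * (x / √m)) 0 / (m * √m)

theorem lk_cont (a b : ℝ) : Continuous fun t : ℝ × ℝ => lk a b t.1 (mm t) := by
  have hs : Continuous fun t : ℝ × ℝ => √(mm t) := mm_cont.sqrt
  have hsp : ∀ t : ℝ × ℝ, √(mm t) ≠ 0 := fun t =>
    (Real.sqrt_pos.2 (by have := mm_pos t; linarith)).ne'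
  have hmp : ∀ t : ℝ × ℝ, mm t * √(mm t) ≠ 0 := fun t =>
    mul_ne_zero (by have := mm_pos t; linarith) (hsp t)
  exact ((continuous_const.sub (continuous_const.mul
    (continuous_fst.div hs hsp))).sup continuous_const).div (mm_cont.mul hs) hmp

theorem lk_Sim {a b : ℝ} (hb : 0 < b) :
    ∫ t in Sim, lk a b t.1 (mm t) ≤ a ^ 2 / (2 * b) * (653 / 540) := by
  have hF := lk_cont a b
  rw [int_Sim hF]
  set G : ℝ → ℝ → ℝ := fun x s => (1 - x) * lk a b x (mm (x, (1 - x) * s)) with hG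
  have hGc : Continuous (Function.uncurry G) := by
    simp only [hG, Function.uncurry_def]
    have h1 : Continuous fun p : ℝ × ℝ => (p.1, (1 - p.1) * p.2) := by fun_prop
    exact (by fun_prop : Continuous fun p : ℝ × ℝ => 1 - p.1).mul (hF.comp h1)
  have e1 : ∫ x in (0 : ℝ)..1, ∫ y in (0 : ℝ)..(1 - x), lk a b (x, y).1 (mm (x, y))
      = ∫ x in (0 : ℝ)..1, ∫ s in (0 : ℝ)..1, G x s := by
    refine intervalIntegral.integral_congr fun x _ => ?_
    simp only [hG]
    rw [intervalIntegral.integral_const_mul]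
    have := intervalIntegral.mul_integral_comp_mul_left (a := 0) (b := 1)
      (f := fun y => lk a b x (mm (x, y))) (c := 1 - x)
    rw [this, mul_zero, mul_one]
  rw [e1, intervalIntegral_intervalIntegral_swap]
  swap
  · exact (hGc.continuousOn.integrableOn_compact (isCompact_uIcc.prod isCompact_uIcc)).mono_set
      (prod_mono uIoc_subset_uIcc uIoc_subset_uIcc)
  have hpar : Continuous fun s : ℝ => ∫ x in (0 : ℝ)..1, G x s := by
    refine intervalIntegral.continuous_parametric_intervalIntegral_of_continuous' ?_ _ _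
    exact hGc.comp continuous_swap
  have hgc : ContinuousOn (fun s : ℝ => a ^ 2 / (2 * b) * (1 / (1 - s + s ^ 2))) (uIcc 0 1) := by
    refine continuousOn_const.mul (continuousOn_const.div (by fun_prop) fun s _ => ?_)
    have hp : 0 < 1 - s + s ^ 2 := by nlinarith [sq_nonneg (s - 1 / 2)]
    exact hp.ne'
  calc ∫ s in (0 : ℝ)..1, ∫ x in (0 : ℝ)..1, G x s
      ≤ ∫ s in (0 : ℝ)..1, a ^ 2 / (2 * b) * (1 / (1 - s + s ^ 2)) := by
        refine intervalIntegral.integral_mono_on zero_le_one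
          (hpar.intervalIntegrable _ _) hgc.intervalIntegrable fun s hs => ?_
        have hp : 0 < 1 - s + s ^ 2 := by nlinarith [sq_nonneg (s - 1 / 2)]
        have := leak_one (a := a) hb hp
        simp only [hG, mm_ray, lk]
        exact this
    _ = a ^ 2 / (2 * b) * ∫ s in (0 : ℝ)..1, 1 / (1 - s + s ^ 2) := by
        rw [intervalIntegral.integral_const_mul]
    _ ≤ a ^ 2 / (2 * b) * (653 / 540) :=
        mul_le_mul_of_nonneg_left inv_g_le (by positivity)

theorem lk_Sim2 {a b : ℝ} (hb : 0 < b) :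
    ∫ t in Sim, lk a b t.2 (mm t) ≤ a ^ 2 / (2 * b) * (653 / 540) := by
  rw [Sim_c2 (lk a b)]
  exact lk_Sim hb

theorem lk_Sim3 {a b : ℝ} (hb : 0 < b) :
    ∫ t in Sim, lk a b (t3 t) (mm t) ≤ a ^ 2 / (2 * b) * (653 / 540) := by
  rw [Sim_c3 (lk a b)]
  exact lk_Sim hb

theorem const_le : 1 / √2 * (653 / 540 : ℝ) ≤ 0.8551 := by
  have h : (1.4142 : ℝ) ≤ √2 := Real.le_sqrt_of_sq_le (by norm_num)
  rw [one_div, inv_mul_le_iff₀ (by positivity)]
  nlinarith

/-- the leak of one side, in the measure of directions -/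
theorem leak_side {a b : ℝ} (hb : 0 < b) :
    1 / √2 * ∫ t in Sim, lk a b t.1 (mm t) ≤ 0.8551 * (a ^ 2 / (2 * b)) ∧
    1 / √2 * ∫ t in Sim, lk a b t.2 (mm t) ≤ 0.8551 * (a ^ 2 / (2 * b)) ∧
    1 / √2 * ∫ t in Sim, lk a b (t3 t) (mm t) ≤ 0.8551 * (a ^ 2 / (2 * b)) := by
  have h0 : 0 ≤ a ^ 2 / (2 * b) := by positivity
  have h1 : (0 : ℝ) ≤ 1 / √2 := by positivity
  have key : ∀ I : ℝ, I ≤ a ^ 2 / (2 * b) * (653 / 540) →
      1 / √2 * I ≤ 0.8551 * (a ^ 2 / (2 * b)) := by
    intro I hI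
    calc 1 / √2 * I ≤ 1 / √2 * (a ^ 2 / (2 * b) * (653 / 540)) :=
          mul_le_mul_of_nonneg_left hI h1
      _ = (1 / √2 * (653 / 540)) * (a ^ 2 / (2 * b)) := by ring
      _ ≤ _ := mul_le_mul_of_nonneg_right const_le h0
  exact ⟨key _ (lk_Sim hb), key _ (lk_Sim2 hb), key _ (lk_Sim3 hb)⟩

/-- the leak of the minimum of the three coordinates -/
theorem leak_min {a b : ℝ} (hb : 0 < b) :
    1 / √2 * ∫ t in Sim, lk a b (min t.1 (min t.2 (t3 t))) (mm t)
      ≤ 3 * 0.8551 * (a ^ 2 / (2 * b)) := by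
  obtain ⟨h1, h2, h3⟩ := leak_side (a := a) hb
  have hc : ∀ f : ℝ × ℝ → ℝ, Continuous f → IntegrableOn f Sim := fun f hf =>
    hf.continuousOn.integrableOn_compact Sim_compact
  have hs : Continuous fun t : ℝ × ℝ => √(mm t) := mm_cont.sqrt
  have hsp : ∀ t : ℝ × ℝ, √(mm t) ≠ 0 := fun t =>
    (Real.sqrt_pos.2 (by have := mm_pos t; linarith)).ne'
  have hmp : ∀ t : ℝ × ℝ, mm t * √(mm t) ≠ 0 := fun t =>
    mul_ne_zero (by have := mm_pos t; linarith) (hsp t)
  have cc : ∀ g : ℝ × ℝ → ℝ, Continuous g → Continuous fun t : ℝ × ℝ => lk a b (g t) (mm t) := by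
    intro g hg
    exact ((continuous_const.sub (continuous_const.mul
      (hg.div hs hsp))).sup continuous_const).div (mm_cont.mul hs) hmp
  have c3 : Continuous t3 := by unfold t3; fun_prop
  have k1 := hc _ (cc _ continuous_fst)
  have k2 := hc _ (cc _ continuous_snd)
  have k3 := hc _ (cc _ c3)
  have k0 := hc _ (cc _ (continuous_fst.inf (continuous_snd.inf c3)))
  have hle : ∫ t in Sim, lk a b (min t.1 (min t.2 (t3 t))) (mm t)
      ≤ ∫ t in Sim, (lk a b t.1 (mm t) + lk a b t.2 (mm t) + lk a b (t3 t) (mm t)) := by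
    refine integral_mono k0 ((k1.add k2).add k3) fun t => ?_
    have p : ∀ x, 0 ≤ lk a b x (mm t) := fun x => by
      have h := mm_pos t
      exact div_nonneg (le_max_right _ _) (mul_nonneg (by linarith) (Real.sqrt_nonneg _))
    have p1 := p t.1
    have p2 := p t.2
    have p3 := p (t3 t)
    simp only
    rcases min_choice t.1 (min t.2 (t3 t)) with h | h
    · rw [h]; linarith
    · rw [h]
      rcases min_choice t.2 (t3 t) with h' | h'
      · rw [h']; linarith
      · rw [h']; linarith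
  have x1 := integral_add (k1.add k2) k3
  have x2 := integral_add k1 k2
  simp only [Pi.add_apply] at x1
  rw [x2] at x1
  rw [x1] at hle
  have h0 : (0 : ℝ) ≤ 1 / √2 := by positivity
  have h4 := mul_le_mul_of_nonneg_left hle h0
  rw [mul_add, mul_add] at h4
  linarith

end Pool.Agent.Helper55.Sx
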