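import Pool.Agent.Helper55.MEI.Sx3

/-!
# Corner and side constants of the flat simplex
-/

namespace Pool.Agent.Helper55.Sx

open Set MeasureTheory

theorem sum11 {f : Fin 11 → ℝ} : ∑ j, f j = f 0 + f 1 + f 2 + f 3 + f 4 + f 5 + f 6 + f 7 + f 8 + f 9 + f 10 := by
  simp only [Fin.sum_univ_succ, Finset.univ_eq_empty, Finset.sum_empty]
  simp only [add_zero, add_assoc]
  rfl

theorem P11 (c0 c1 c2 c3 c4 c5 c6 c7 c8 c9 c10 a b : ℝ) :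
    ∫ y in a..b, (c0 * y ^ 0 + c1 * y ^ 1 + c2 * y ^ 2 + c3 * y ^ 3 + c4 * y ^ 4 + c5 * y ^ 5 + c6 * y ^ 6 + c7 * y ^ 7 + c8 * y ^ 8 + c9 * y ^ 9 + c10 * y ^ 10)
      = c0 * ((b ^ 1 - a ^ 1) / 1) + c1 * ((b ^ 2 - a ^ 2) / 2) + c2 * ((b ^ 3 - a ^ 3) / 3) + c3 * ((b ^ 4 - a ^ 4) / 4) + c4 * ((b ^ 5 - a ^ 5) / 5) + c5 * ((b ^ 6 - a ^ 6) / 6) + c6 * ((b ^ 7 - a ^ 7) / 7) + c7 * ((b ^ 8 - a ^ 8) / 8) + c8 * ((b ^ 9 - a ^ 9) / 9) + c9 * ((b ^ 10 - a ^ 10) / 10) + c10 * ((b ^ 11 - a ^ 11) / 11) := by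
  have h := int_fin (n := 11) ![c0, c1, c2, c3, c4, c5, c6, c7, c8, c9, c10] a b
  simp only [sum11] at h
  refine Eq.trans (intervalIntegral.integral_congr fun y _ => ?_) (h.trans ?_)
  · simp
  · simp
    norm_num

theorem sum12 {f : Fin 12 → ℝ} : ∑ j, f j = f 0 + f 1 + f 2 + f 3 + f 4 + f 5 + f 6 + f 7 + f 8 + f 9 + f 10 + f 11 := by
  simp only [Fin.sum_univ_succ, Finset.univ_eq_empty, Finset.sum_empty]
  simp only [add_zero, add_assoc]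
  rfl

theorem P12 (c0 c1 c2 c3 c4 c5 c6 c7 c8 c9 c10 c11 a b : ℝ) :
    ∫ y in a..b, (c0 * y ^ 0 + c1 * y ^ 1 + c2 * y ^ 2 + c3 * y ^ 3 + c4 * y ^ 4 + c5 * y ^ 5 + c6 * y ^ 6 + c7 * y ^ 7 + c8 * y ^ 8 + c9 * y ^ 9 + c10 * y ^ 10 + c11 * y ^ 11)
      = c0 * ((b ^ 1 - a ^ 1) / 1) + c1 * ((b ^ 2 - a ^ 2) / 2) + c2 * ((b ^ 3 - a ^ 3) / 3) + c3 * ((b ^ 4 - a ^ 4) / 4) + c4 * ((b ^ 5 - a ^ 5) / 5) + c5 * ((b ^ 6 - a ^ 6) / 6) + c6 * ((b ^ 7 - a ^ 7) / 7) + c7 * ((b ^ 8 - a ^ 8) / 8) + c8 * ((b ^ 9 - a ^ 9) / 9) + c9 * ((b ^ 10 - a ^ 10) / 10) + c10 * ((b ^ 11 - a ^ 11) / 11) + c11 * ((b ^ 12 - a ^ 12) / 12) := by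
  have h := int_fin (n := 12) ![c0, c1, c2, c3, c4, c5, c6, c7, c8, c9, c10, c11] a b
  simp only [sum12] at h
  refine Eq.trans (intervalIntegral.integral_congr fun y _ => ?_) (h.trans ?_)
  · simp
  · simp
    norm_num

theorem sum13 {f : Fin 13 → ℝ} : ∑ j, f j = f 0 + f 1 + f 2 + f 3 + f 4 + f 5 + f 6 + f 7 + f 8 + f 9 + f 10 + f 11 + f 12 := by
  simp only [Fin.sum_univ_succ, Finset.univ_eq_empty, Finset.sum_empty]
  simp only [add_zero, add_assoc]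
  rfl

theorem P13 (c0 c1 c2 c3 c4 c5 c6 c7 c8 c9 c10 c11 c12 a b : ℝ) :
    ∫ y in a..b, (c0 * y ^ 0 + c1 * y ^ 1 + c2 * y ^ 2 + c3 * y ^ 3 + c4 * y ^ 4 + c5 * y ^ 5 + c6 * y ^ 6 + c7 * y ^ 7 + c8 * y ^ 8 + c9 * y ^ 9 + c10 * y ^ 10 + c11 * y ^ 11 + c12 * y ^ 12)
      = c0 * ((b ^ 1 - a ^ 1) / 1) + c1 * ((b ^ 2 - a ^ 2) / 2) + c2 * ((b ^ 3 - a ^ 3) / 3) + c3 * ((b ^ 4 - a ^ 4) / 4) + c4 * ((b ^ 5 - a ^ 5) / 5) + c5 * ((b ^ 6 - a ^ 6) / 6) + c6 * ((b ^ 7 - a ^ 7) / 7) + c7 * ((b ^ 8 - a ^ 8) / 8) + c8 * ((b ^ 9 - a ^ 9) / 9) + c9 * ((b ^ 10 - a ^ 10) / 10) + c10 * ((b ^ 11 - a ^ 11) / 11) + c11 * ((b ^ 12 - a ^ 12) / 12) + c12 * ((b ^ 13 - a ^ 13) / 13) := by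
  have h := int_fin (n := 13) ![c0, c1, c2, c3, c4, c5, c6, c7, c8, c9, c10, c11, c12] a b
  simp only [sum13] at h
  refine Eq.trans (intervalIntegral.integral_congr fun y _ => ?_) (h.trans ?_)
  · simp
  · simp
    norm_num

theorem int_t1W : ∫ x in ((0) : ℝ)..(1), ∫ y in (0 : ℝ)..(1 - x), x * (1 + 2 * e2 (x, y) + 3 * e2 (x, y) ^ 2 + 4 * e2 (x, y) ^ 3 + 5 * e2 (x, y) ^ 4
      + 6 * e2 (x, y) ^ 5) = (199 / 660) := by
  have h1 : ∀ x : ℝ, ∫ y in (0 : ℝ)..(1 - x), x * (1 + 2 * e2 (x, y) + 3 * e2 (x, y) ^ 2 + 4 * e2 (x, y) ^ 3 + 5 * e2 (x, y) ^ 4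
      + 6 * e2 (x, y) ^ 5) = (10201 / 6930) * x ^ 1 + (167 / 210) * x ^ 2 + (-181 / 70) * x ^ 3 + (-157 / 42) * x ^ 4 + (13 / 14) * x ^ 5 + (63 / 10) * x ^ 6 + (14 / 5) * x ^ 7 + (-162 / 35) * x ^ 8 + (-108 / 7) * x ^ 9 + (1579 / 63) * x ^ 10 + (-571 / 42) * x ^ 11 + (403 / 154) * x ^ 12 := by
    intro x
    refine Eq.trans (intervalIntegral.integral_congr fun y _ => ?_)
      ((P11
      ((1) * x ^ 1 + (2) * x ^ 2 + (1) * x ^ 3 + (-2) * x ^ 4 + (-4) * x ^ 5 + (-2) * x ^ 6 + (-4) * x ^ 7 + (40) * x ^ 8 + (-55) * x ^ 9 + (30) * x ^ 10 + (-6) * x ^ 11)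
      ((2) * x ^ 1 + (4) * x ^ 2 + (-10) * x ^ 4 + (-14) * x ^ 5 + (-42) * x ^ 6 + (220) * x ^ 7 + (-280) * x ^ 8 + (150) * x ^ 9 + (-30) * x ^ 10)
      ((1) * x ^ 1 + (-9) * x ^ 3 + (-20) * x ^ 4 + (-114) * x ^ 5 + (540) * x ^ 6 + (-730) * x ^ 7 + (420) * x ^ 8 + (-90) * x ^ 9)
      ((-2) * x ^ 1 + (-10) * x ^ 2 + (-20) * x ^ 3 + (-148) * x ^ 4 + (820) * x ^ 5 + (-1240) * x ^ 6 + (780) * x ^ 7 + (-180) * x ^ 8)
      ((-4) * x ^ 1 + (-14) * x ^ 2 + (-114) * x ^ 3 + (820) * x ^ 4 + (-1465) * x ^ 5 + (1050) * x ^ 6 + (-270) * x ^ 7)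
      ((-2) * x ^ 1 + (-42) * x ^ 2 + (540) * x ^ 3 + (-1240) * x ^ 4 + (1050) * x ^ 5 + (-306) * x ^ 6)
      ((-4) * x ^ 1 + (220) * x ^ 2 + (-730) * x ^ 3 + (780) * x ^ 4 + (-270) * x ^ 5)
      ((40) * x ^ 1 + (-280) * x ^ 2 + (420) * x ^ 3 + (-180) * x ^ 4)
      ((-55) * x ^ 1 + (150) * x ^ 2 + (-90) * x ^ 3)
      ((30) * x ^ 1 + (-30) * x ^ 2)
      ((-6) * x ^ 1)
      (0 : ℝ) (1 - x)).trans ?_)
    · simp only [e2, t3]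
      ring
    · ring
  simp only [h1]
  refine Eq.trans (intervalIntegral.integral_congr fun x _ => ?_)
    ((P13
      (0)
      (10201 / 6930)
      (167 / 210)
      (-181 / 70)
      (-157 / 42)
      (13 / 14)
      (63 / 10)
      (14 / 5)
      (-162 / 35)
      (-108 / 7)
      (1579 / 63)
      (-571 / 42)
      (403 / 154)
      ((0) : ℝ) (1)).trans ?_)
  · ring
  · norm_num

theorem W_le {t : ℝ × ℝ} (ht : t ∈ Sim) :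
    1 + 2 * e2 t + 3 * e2 t ^ 2 + 4 * e2 t ^ 3 + 5 * e2 t ^ 4 + 6 * e2 t ^ 5
      ≤ 1 / mm t ^ 2 := by
  have h0 := e2_nonneg ht
  have h1 := e2_le t
  have h2 := mm_pos t
  rw [le_div_iff₀ (by positivity)]
  simp only [mm]
  set e := e2 t
  have : (1 + 2 * e + 3 * e ^ 2 + 4 * e ^ 3 + 5 * e ^ 4 + 6 * e ^ 5) * (1 - e) ^ 2
      = 1 - e ^ 6 * (7 - 6 * e) := by ring
  rw [this]
  have : 0 ≤ e ^ 6 * (7 - 6 * e) := mul_nonneg (by positivity) (by linarith)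
  linarith

theorem W_cont : Continuous fun t : ℝ × ℝ =>
    1 + 2 * e2 t + 3 * e2 t ^ 2 + 4 * e2 t ^ 3 + 5 * e2 t ^ 4 + 6 * e2 t ^ 5 := by
  have := e2_cont
  fun_prop

/-- lower bounds for integrals with weight `m ^ (-2)` -/
theorem low {f : ℝ × ℝ → ℝ} (hf : Continuous f) (h0 : ∀ t ∈ Sim, 0 ≤ f t) :
    ∫ t in Sim, f t * (1 + 2 * e2 t + 3 * e2 t ^ 2 + 4 * e2 t ^ 3 + 5 * e2 t ^ 4 + 6 * e2 t ^ 5)
      ≤ ∫ t in Sim, f t / mm t ^ 2 := by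
  refine setIntegral_mono_on ((hf.mul W_cont).continuousOn.integrableOn_compact Sim_compact)
    ((hf.div (mm_cont.pow 2) fun t => ?_).continuousOn.integrableOn_compact Sim_compact)
    Sim_meas fun t ht => ?_
  · have := mm_pos t
    have h2 : 0 < mm t ^ 2 := by positivity
    exact h2.ne'
  · have h1 := mul_le_mul_of_nonneg_left (W_le ht) (h0 t ht)
    calc _ ≤ _ := h1
      _ = _ := by ring

theorem corner1 : (199 / 660 : ℝ) ≤ ∫ t in Sim, t.1 / mm t ^ 2 := by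
  have h := low continuous_fst (fun t ht => ht.1)
  refine le_trans (le_of_eq ?_) h
  have h2 := int_Sim (f := fun t : ℝ × ℝ => t.1 * (1 + 2 * e2 t + 3 * e2 t ^ 2 + 4 * e2 t ^ 3
    + 5 * e2 t ^ 4 + 6 * e2 t ^ 5)) (continuous_fst.mul W_cont)
  have h1 := int_t1W
  rw [h2, ← h1]

theorem corner2 : (199 / 660 : ℝ) ≤ ∫ t in Sim, t.2 / mm t ^ 2 := by
  rw [Sim_c2 fun x m => x / m ^ 2]
  exact corner1

theorem corner3 : (199 / 660 : ℝ) ≤ ∫ t in Sim, t3 t / mm t ^ 2 := by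
  rw [Sim_c3 fun x m => x / m ^ 2]
  exact corner1

theorem const_ge : (0.2132 : ℝ) ≤ 1 / √2 * (199 / 660 : ℝ) := by
  have h : √2 ≤ (1.41422 : ℝ) := by
    rw [show (1.41422 : ℝ) = √(1.41422 ^ 2) from (Real.sqrt_sq (by norm_num)).symm]
    exact Real.sqrt_le_sqrt (by norm_num)
  rw [one_div, ← div_eq_inv_mul, le_div_iff₀ (by positivity)]
  nlinarith

/-- the mean value of one coordinate function, in the measure of directions -/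
theorem corner_dir : (0.2132 : ℝ) ≤ 1 / √2 * ∫ t in Sim, t.1 / mm t ^ 2 ∧
    (0.2132 : ℝ) ≤ 1 / √2 * ∫ t in Sim, t.2 / mm t ^ 2 ∧
    (0.2132 : ℝ) ≤ 1 / √2 * ∫ t in Sim, t3 t / mm t ^ 2 := by
  have h1 : (0 : ℝ) ≤ 1 / √2 := by positivity
  exact ⟨const_ge.trans (mul_le_mul_of_nonneg_left corner1 h1),
    const_ge.trans (mul_le_mul_of_nonneg_left corner2 h1),
    const_ge.trans (mul_le_mul_of_nonneg_left corner3 h1)⟩

/-- degree one function divided by the weight -/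
theorem deg_one {x m : ℝ} (hm : 0 < m) : x / √m / (m * √m) = x / m ^ 2 := by
  have h := Real.mul_self_sqrt hm.le
  have hs : 0 < √m := Real.sqrt_pos.2 hm
  rw [div_div, ← mul_assoc, mul_comm (√m * m) √m, ← mul_assoc, h, ← pow_two]

/-- three linear loads together: any nonnegative combination -/
theorem lin_dir {A B C : ℝ} (hA : 0 ≤ A) (hB : 0 ≤ B) (hC : 0 ≤ C) :
    0.2132 * (A + B + C)
      ≤ 1 / √2 * ∫ t in Sim, (A * t.1 + B * t.2 + C * t3 t) / mm t ^ 2 := by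
  obtain ⟨h1, h2, h3⟩ := corner_dir
  have c3 : Continuous t3 := by unfold t3; fun_prop
  have hm : ∀ t : ℝ × ℝ, mm t ^ 2 ≠ 0 := fun t => by have := mm_pos t; positivity
  have ii : ∀ f : ℝ × ℝ → ℝ, Continuous f → IntegrableOn (fun t => f t / mm t ^ 2) Sim :=
    fun f hf => (hf.div (mm_cont.pow 2) hm).continuousOn.integrableOn_compact Sim_compact
  have k1 := ii _ continuous_fst
  have k2 := ii _ continuous_snd
  have k3 := ii _ c3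
  have x1 := integral_add ((k1.const_mul A).add (k2.const_mul B)) (k3.const_mul C)
  have x2 := integral_add (k1.const_mul A) (k2.const_mul B)
  simp only [Pi.add_apply] at x1
  rw [x2, integral_const_mul, integral_const_mul, integral_const_mul] at x1
  have e : ∀ t : ℝ × ℝ, (A * t.1 + B * t.2 + C * t3 t) / mm t ^ 2
      = A * (t.1 / mm t ^ 2) + B * (t.2 / mm t ^ 2) + C * (t3 t / mm t ^ 2) := by
    intro t; ring
  simp only [e]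
  rw [x1]
  have g1 := mul_le_mul_of_nonneg_left h1 hA
  have g2 := mul_le_mul_of_nonneg_left h2 hB
  have g3 := mul_le_mul_of_nonneg_left h3 hC
  rw [mul_add, mul_add]
  linarith

end Pool.Agent.Helper55.Sx
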