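import Pool.Agent.Helper55.MEI.Sx3

/-!
# Strip integrals with an arbitrary profile
-/

namespace Pool.Agent.Helper55.Sx

open Set MeasureTheory

/-- one dimensional inequality for a general profile -/
theorem prof_one {φ : ℝ → ℝ} (hφ : Continuous φ) (h0 : ∀ x, 0 ≤ φ x) {g : ℝ} (hg : 0 < g) :
    ∫ x in (0 : ℝ)..1, (1 - x) * (φ (x / √(g * (1 - x) ^ 2 + x))
      / ((g * (1 - x) ^ 2 + x) * √(g * (1 - x) ^ 2 + x)))
      ≤ (∫ x in (0 : ℝ)..1, φ x) * (1 / g) := by
  set m : ℝ → ℝ := fun x => g * (1 - x) ^ 2 + x with hm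
  have hmpos : ∀ x ∈ Icc (0 : ℝ) 1, 0 < m x := by
    intro x hx
    simp only [hm]
    rcases eq_or_lt_of_le hx.1 with h | h
    · rw [← h]; nlinarith
    · have := sq_nonneg (1 - x)
      nlinarith
  have hmc : Continuous m := by simp only [hm]; fun_prop
  have hv : ∀ x ∈ Icc (0 : ℝ) 1, HasDerivAt (fun x => x / √(m x))
      ((2 * g * (1 - x) + x) / (2 * (m x * √(m x)))) x := by
    intro x hx
    have h0 := hmpos x hx
    have hs : 0 < √(m x) := Real.sqrt_pos.2 h0
    have hss : √(m x) * √(m x) = m x := Real.mul_self_sqrt h0.le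
    have h1 : HasDerivAt m (g * (2 * (1 - x) * (-1)) + 1) x := by
      have h2 : HasDerivAt (fun x : ℝ => (1 - x) ^ 2) (2 * (1 - x) * (-1)) x := by
        have := ((hasDerivAt_id x).const_sub 1).pow 2
        refine this.congr_deriv ?_
        simp
      exact (h2.const_mul g).add (hasDerivAt_id x)
    have h2 := h1.sqrt h0.ne'
    have h3 := (hasDerivAt_id x).div h2 hs.ne'
    refine h3.congr_deriv ?_
    simp only [id]
    have e1 : √(m x) ^ 2 = m x := by rw [pow_two]; exact hss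
    rw [e1]
    field_simp
    rw [e1]
    simp only [hm]
    ring
  have hH : ∀ x ∈ Icc (0 : ℝ) 1, HasDerivAt
      (fun x => ∫ r in (0 : ℝ)..(x / √(m x)), φ r)
      (φ (x / √(m x)) * ((2 * g * (1 - x) + x) / (2 * (m x * √(m x))))) x := by
    intro x hx
    have h1 : HasDerivAt (fun y => ∫ r in (0 : ℝ)..y, φ r) (φ (x / √(m x))) (x / √(m x)) :=
      intervalIntegral.integral_hasDerivAt_right (hφ.intervalIntegrable _ _)
        hφ.stronglyMeasurable.stronglyMeasurableAtFilter hφ.continuousAt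
    exact h1.comp x (hv x hx)
  have hsc : Continuous fun x => √(m x) := hmc.sqrt
  have c1 : ContinuousOn (fun x => x / √(m x)) (Icc (0 : ℝ) 1) :=
    continuousOn_id.div hsc.continuousOn fun x hx => (Real.sqrt_pos.2 (hmpos x hx)).ne'
  have c2 : ContinuousOn (fun x => φ (x / √(m x))) (Icc (0 : ℝ) 1) :=
    hφ.comp_continuousOn c1
  have c3 : ContinuousOn (fun x => m x * √(m x)) (Icc (0 : ℝ) 1) :=
    (hmc.mul hsc).continuousOn
  have n3 : ∀ x ∈ Icc (0 : ℝ) 1, 0 < m x * √(m x) := fun x hx =>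
    mul_pos (hmpos x hx) (Real.sqrt_pos.2 (hmpos x hx))
  have i1 : IntervalIntegrable (fun x => φ (x / √(m x))
      * ((2 * g * (1 - x) + x) / (2 * (m x * √(m x))))) volume 0 1 := by
    refine ContinuousOn.intervalIntegrable ?_
    rw [uIcc_of_le zero_le_one]
    exact c2.mul ((by fun_prop : Continuous fun x : ℝ => 2 * g * (1 - x) + x).continuousOn.div
      (continuousOn_const.mul c3) fun x hx => (mul_pos two_pos (n3 x hx)).ne')
  have i0 : IntervalIntegrable (fun x => (1 - x) * (φ (x / √(m x))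
      / (m x * √(m x)))) volume 0 1 := by
    refine ContinuousOn.intervalIntegrable ?_
    rw [uIcc_of_le zero_le_one]
    exact (by fun_prop : Continuous fun x : ℝ => 1 - x).continuousOn.mul
      (c2.div c3 fun x hx => (n3 x hx).ne')
  have hI := intervalIntegral.integral_eq_sub_of_hasDerivAt
    (fun x hx => hH x (by rwa [uIcc_of_le zero_le_one] at hx)) i1
  have hle : ∫ x in (0 : ℝ)..1, (1 - x) * (φ (x / √(m x)) / (m x * √(m x)))
      ≤ ∫ x in (0 : ℝ)..1, (1 / g) * (φ (x / √(m x))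
      * ((2 * g * (1 - x) + x) / (2 * (m x * √(m x))))) := by
    refine intervalIntegral.integral_mono_on zero_le_one i0 (i1.const_mul _) fun x hx => ?_
    have k1 : 0 ≤ φ (x / √(m x)) := h0 _
    have k2 := n3 x hx
    have e : (1 / g) * (φ (x / √(m x))
        * ((2 * g * (1 - x) + x) / (2 * (m x * √(m x)))))
        = ((2 * g * (1 - x) + x) / (2 * g)) * (φ (x / √(m x)) / (m x * √(m x))) := by
      field_simp
    rw [e]
    refine mul_le_mul_of_nonneg_right ?_ (div_nonneg k1 k2.le)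
    rw [le_div_iff₀ (by positivity)]
    nlinarith [hx.1]
  rw [intervalIntegral.integral_const_mul, hI] at hle
  refine hle.trans (le_of_eq ?_)
  have e1 : (1 : ℝ) / √(m 1) = 1 := by
    simp [hm]
  have e0 : (0 : ℝ) / √(m 0) = 0 := zero_div _
  rw [e1, e0, intervalIntegral.integral_same, sub_zero]
  ring

/-- the profile integrand -/
noncomputable def pf (φ : ℝ → ℝ) (x m : ℝ) : ℝ := φ (x / √m) / (m * √m)

theorem pf_cont {φ : ℝ → ℝ} (hφ : Continuous φ) {g : ℝ × ℝ → ℝ} (hg : Continuous g) :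
    Continuous fun t : ℝ × ℝ => pf φ (g t) (mm t) := by
  have hs : Continuous fun t : ℝ × ℝ => √(mm t) := mm_cont.sqrt
  have hsp : ∀ t : ℝ × ℝ, √(mm t) ≠ 0 := fun t =>
    (Real.sqrt_pos.2 (by have := mm_pos t; linarith)).ne'
  have hmp : ∀ t : ℝ × ℝ, mm t * √(mm t) ≠ 0 := fun t =>
    mul_ne_zero (by have := mm_pos t; linarith) (hsp t)
  exact (hφ.comp (hg.div hs hsp)).div (mm_cont.mul hs) hmp

theorem pf_Sim {φ : ℝ → ℝ} (hφ : Continuous φ) (h0 : ∀ x, 0 ≤ φ x) :
    ∫ t in Sim, pf φ t.1 (mm t) ≤ (∫ x in (0 : ℝ)..1, φ x) * (653 / 540) := by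
  have hF := pf_cont hφ continuous_fst
  rw [int_Sim hF]
  set G : ℝ → ℝ → ℝ := fun x s => (1 - x) * pf φ x (mm (x, (1 - x) * s)) with hG
  have hGc : Continuous (Function.uncurry G) := by
    simp only [hG, Function.uncurry_def]
    have h1 : Continuous fun p : ℝ × ℝ => (p.1, (1 - p.1) * p.2) := by fun_prop
    exact (by fun_prop : Continuous fun p : ℝ × ℝ => 1 - p.1).mul (hF.comp h1)
  have e1 : ∫ x in (0 : ℝ)..1, ∫ y in (0 : ℝ)..(1 - x), pf φ (x, y).1 (mm (x, y))
      = ∫ x in (0 : ℝ)..1, ∫ s in (0 : ℝ)..1, G x s := by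
    refine intervalIntegral.integral_congr fun x _ => ?_
    simp only [hG]
    rw [intervalIntegral.integral_const_mul]
    have := intervalIntegral.mul_integral_comp_mul_left (a := 0) (b := 1)
      (f := fun y => pf φ x (mm (x, y))) (c := 1 - x)
    rw [this, mul_zero, mul_one]
  rw [e1, intervalIntegral_intervalIntegral_swap]
  swap
  · exact (hGc.continuousOn.integrableOn_compact (isCompact_uIcc.prod isCompact_uIcc)).mono_set
      (prod_mono uIoc_subset_uIcc uIoc_subset_uIcc)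
  have hpar : Continuous fun s : ℝ => ∫ x in (0 : ℝ)..1, G x s := by
    refine intervalIntegral.continuous_parametric_intervalIntegral_of_continuous' ?_ _ _
    exact hGc.comp continuous_swap
  have hgc : ContinuousOn (fun s : ℝ => (∫ x in (0 : ℝ)..1, φ x) * (1 / (1 - s + s ^ 2)))
      (uIcc 0 1) := by
    refine continuousOn_const.mul (continuousOn_const.div (by fun_prop) fun s _ => ?_)
    have hp : 0 < 1 - s + s ^ 2 := by nlinarith [sq_nonneg (s - 1 / 2)]
    exact hp.ne'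
  have hpos : 0 ≤ ∫ x in (0 : ℝ)..1, φ x :=
    intervalIntegral.integral_nonneg zero_le_one fun x _ => h0 x
  calc ∫ s in (0 : ℝ)..1, ∫ x in (0 : ℝ)..1, G x s
      ≤ ∫ s in (0 : ℝ)..1, (∫ x in (0 : ℝ)..1, φ x) * (1 / (1 - s + s ^ 2)) := by
        refine intervalIntegral.integral_mono_on zero_le_one
          (hpar.intervalIntegrable _ _) hgc.intervalIntegrable fun s hs => ?_
        have hp : 0 < 1 - s + s ^ 2 := by nlinarith [sq_nonneg (s - 1 / 2)]
        have := prof_one hφ h0 hp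
        simp only [hG, mm_ray, pf]
        exact this
    _ = (∫ x in (0 : ℝ)..1, φ x) * ∫ s in (0 : ℝ)..1, 1 / (1 - s + s ^ 2) := by
        rw [intervalIntegral.integral_const_mul]
    _ ≤ (∫ x in (0 : ℝ)..1, φ x) * (653 / 540) :=
        mul_le_mul_of_nonneg_left inv_g_le hpos

/-- **strip integral for every profile**, in the measure of directions -/
theorem pf_side {φ : ℝ → ℝ} (hφ : Continuous φ) (h0 : ∀ x, 0 ≤ φ x) :
    1 / √2 * ∫ t in Sim, pf φ t.1 (mm t) ≤ 0.8551 * ∫ x in (0 : ℝ)..1, φ x ∧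
    1 / √2 * ∫ t in Sim, pf φ t.2 (mm t) ≤ 0.8551 * ∫ x in (0 : ℝ)..1, φ x ∧
    1 / √2 * ∫ t in Sim, pf φ (t3 t) (mm t) ≤ 0.8551 * ∫ x in (0 : ℝ)..1, φ x := by
  have hpos : 0 ≤ ∫ x in (0 : ℝ)..1, φ x :=
    intervalIntegral.integral_nonneg zero_le_one fun x _ => h0 x
  have h1 : (0 : ℝ) ≤ 1 / √2 := by positivity
  have key : ∀ I : ℝ, I ≤ (∫ x in (0 : ℝ)..1, φ x) * (653 / 540) →
      1 / √2 * I ≤ 0.8551 * ∫ x in (0 : ℝ)..1, φ x := by
    intro I hI
    calc 1 / √2 * I ≤ 1 / √2 * ((∫ x in (0 : ℝ)..1, φ x) * (653 / 540)) :=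
          mul_le_mul_of_nonneg_left hI h1
      _ = (1 / √2 * (653 / 540)) * (∫ x in (0 : ℝ)..1, φ x) := by ring
      _ ≤ _ := mul_le_mul_of_nonneg_right const_le hpos
  refine ⟨key _ (pf_Sim hφ h0), ?_, ?_⟩
  · rw [Sim_c2 (pf φ)]
    exact key _ (pf_Sim hφ h0)
  · rw [Sim_c3 (pf φ)]
    exact key _ (pf_Sim hφ h0)

end Pool.Agent.Helper55.Sx
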