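import Pool.Agent.Helper55.MEI.Sx4

/-!
# The ray formula for measurable functions and the cut integral
-/

namespace Pool.Agent.Helper55.Sx

open Set MeasureTheory

/-- coordinates along the rays from the side `t.1 = 0` to the opposite corner -/
def ray (p : ℝ × ℝ) : ℝ × ℝ := (p.1, (1 - p.1) * p.2)

theorem ray_contin : Continuous ray := by
  unfold ray
  fun_prop

/-- the unit square -/
def Sq : Set (ℝ × ℝ) := Icc (0 : ℝ) 1 ×ˢ Icc (0 : ℝ) 1

theorem Sq_meas : MeasurableSet Sq := measurableSet_Icc.prod measurableSet_Icc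

theorem Sq_fin : volume Sq < ⊤ := (isCompact_Icc.prod isCompact_Icc).measure_lt_top

/-- ray formula for continuous functions -/
theorem ray_cont {f : ℝ × ℝ → ℝ} (hf : Continuous f) :
    ∫ t in Sim, f t = ∫ p in Sq, (1 - p.1) * f (ray p) := by
  rw [int_Sim hf]
  have hG : Continuous fun p : ℝ × ℝ => (1 - p.1) * f (ray p) :=
    (by fun_prop : Continuous fun p : ℝ × ℝ => 1 - p.1).mul (hf.comp ray_contin)
  have e2 : ∫ p in Sq, (1 - p.1) * f (ray p)
      = ∫ x in (0 : ℝ)..1, ∫ s in (0 : ℝ)..1, (1 - x) * f (ray (x, s)) := by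
    have h := int_region hG (zero_le_one (α := ℝ)) (φ := fun _ => 0) (ψ := fun _ => 1)
      continuous_const continuous_const (fun _ _ => zero_le_one)
    rw [← h]
    congr 2
    ext ⟨x, y⟩
    simp only [Sq, mem_prod, mem_Icc, mem_ofPred_eq]
    constructor
    · rintro ⟨⟨h1, h2⟩, h3, h4⟩
      exact ⟨h1, h2, h3, h4⟩
    · rintro ⟨h1, h2, h3, h4⟩
      exact ⟨⟨h1, h2⟩, h3, h4⟩
  rw [e2]
  refine intervalIntegral.integral_congr fun x _ => ?_
  simp only [ray]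
  rw [intervalIntegral.integral_const_mul]
  have := intervalIntegral.mul_integral_comp_mul_left (a := 0) (b := 1)
    (f := fun y => f (x, y)) (c := 1 - x)
  rw [this, mul_zero, mul_one]

/-- the weight measure on the square -/
noncomputable def nuS : Measure (ℝ × ℝ) :=
  (volume.restrict Sq).withDensity fun p => ENNReal.ofReal (1 - p.1)

theorem nuS_fin : IsFiniteMeasure nuS := by
  refine ⟨?_⟩
  rw [nuS, withDensity_apply _ MeasurableSet.univ, Measure.restrict_univ]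
  calc ∫⁻ p in Sq, ENNReal.ofReal (1 - p.1) ≤ ∫⁻ p in Sq, 1 := by
        refine setLIntegral_mono' Sq_meas fun p hp => ?_
        rw [← ENNReal.ofReal_one]
        exact ENNReal.ofReal_le_ofReal (by linarith [hp.1.1])
    _ = volume Sq := by simp
    _ < ⊤ := Sq_fin

theorem int_nuS {f : ℝ × ℝ → ℝ} : ∫ p, f p ∂nuS = ∫ p in Sq, (1 - p.1) * f p := by
  have hm : Measurable fun p : ℝ × ℝ => Real.toNNReal (1 - p.1) := by fun_prop
  have h := integral_withDensity_eq_integral_smul (μ := volume.restrict Sq) hm f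
  have e : (fun p : ℝ × ℝ => ENNReal.ofReal (1 - p.1))
      = fun p => ((Real.toNNReal (1 - p.1) : NNReal) : ENNReal) := rfl
  rw [nuS, e, h]
  refine setIntegral_congr_fun Sq_meas fun p hp => ?_
  rw [NNReal.smul_def, Real.coe_toNNReal _ (by linarith [hp.1.2]), smul_eq_mul]

theorem ray_measure : volume.restrict Sim = nuS.map ray := by
  have := nuS_fin
  have : IsFiniteMeasure (volume.restrict Sim) :=
    ⟨by rw [Measure.restrict_apply_univ]; exact Sim_compact.measure_lt_top⟩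
  have : IsFiniteMeasure (nuS.map ray) := Measure.isFiniteMeasure_map _ _
  refine ext_of_forall_integral_eq_of_IsFiniteMeasure fun f => ?_
  rw [integral_map ray_contin.measurable.aemeasurable f.continuous.aestronglyMeasurable, int_nuS]
  exact ray_cont f.continuous

/-- **ray formula** for measurable functions -/
theorem ray_int {f : ℝ × ℝ → ℝ} (hf : Measurable f) :
    ∫ t in Sim, f t = ∫ p in Sq, (1 - p.1) * f (ray p) := by
  rw [ray_measure, integral_map ray_contin.measurable.aemeasurable hf.aestronglyMeasurable,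
    int_nuS]

/-- upper bound of `1/(1-σ)^2` -/
theorem R_ge {σ : ℝ} (h1 : σ ≤ 1 / 4) :
    1 / (1 - σ) ^ 2 ≤ 1 + 2 * σ + 3 * σ ^ 2 + 4 * σ ^ 3 + 64 / 9 * σ ^ 4 := by
  have hp : 0 < (1 - σ) ^ 2 := by
    have : 0 < 1 - σ := by linarith
    positivity
  rw [div_le_iff₀ hp]
  have e : (1 + 2 * σ + 3 * σ ^ 2 + 4 * σ ^ 3 + 64 / 9 * σ ^ 4) * (1 - σ) ^ 2 - 1
      = σ ^ 4 * ((1 / 9) * (1 - 4 * σ) * (19 - 16 * σ)) := by ring
  have h3 : 0 ≤ σ ^ 4 * ((1 / 9) * (1 - 4 * σ) * (19 - 16 * σ)) :=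
    mul_nonneg (by positivity) (mul_nonneg (by linarith) (by linarith))
  linarith

theorem int_R (α β γ : ℝ) : ∫ s in (0 : ℝ)..1, (α * s ^ 2 + β * (s * (1 - s)) + γ * (1 - s) ^ 2)
    * (1 + 2 * (s * (1 - s)) + 3 * (s * (1 - s)) ^ 2 + 4 * (s * (1 - s)) ^ 3
      + 64 / 9 * (s * (1 - s)) ^ 4) = (4916 / 10395) * (α + γ) + (32891 / 124740) * β := by
  refine Eq.trans (intervalIntegral.integral_congr fun y _ => ?_)
    ((P11
      ((0) * α + (0) * β + (1) * γ)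
      ((0) * α + (1) * β + (0) * γ)
      ((1) * α + (1) * β + (-2) * γ)
      ((2) * α + (-1) * β + (-2) * γ)
      ((1) * α + (-3) * β + (28 / 9) * γ)
      ((-2) * α + (1 / 9) * β + (-44 / 3) * γ)
      ((-17 / 9) * α + (-131 / 9) * β + (209 / 3) * γ)
      ((-148 / 9) * α + (496 / 9) * β + (-1100 / 9) * γ)
      ((116 / 3) * α + (-604 / 9) * β + (308 / 3) * γ)
      ((-256 / 9) * α + (320 / 9) * β + (-128 / 3) * γ)
      ((64 / 9) * α + (-64 / 9) * β + (64 / 9) * γ)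
      (0 : ℝ) 1).trans ?_)
  · ring
  · ring

/-- fibre integral of the cut region -/
theorem fibre {g ε S S0 : ℝ} (hg : 0 < g) (hε : 0 ≤ ε) (hS : 0 ≤ S) (hS0 : 0 ≤ S0) :
    ∫ x in Icc (0 : ℝ) 1, (1 - x) * (if x < (1 - x) * ε then
      ((1 - x) * S + x * S0) / (g * (1 - x) ^ 2 + x) ^ 2 else 0)
      ≤ (S * ε + S0 * ε ^ 2 / 2) * (1 / g ^ 2) := by
  set xe : ℝ := ε / (1 + ε) with hxe
  have hxe0 : 0 ≤ xe := by positivity
  have hxe1 : xe < 1 := by
    rw [hxe, div_lt_one (by positivity)]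
    linarith
  have hxee : xe / (1 - xe) = ε := by
    rw [hxe]
    field_simp
    ring
  have hder : ∀ x ∈ uIcc 0 xe, HasDerivAt
      (fun x : ℝ => (S * (x / (1 - x)) + S0 * (x / (1 - x)) ^ 2 / 2) * (1 / g ^ 2))
      ((S + S0 * (x / (1 - x))) / (1 - x) ^ 2 * (1 / g ^ 2)) x := by
    intro x hx
    rw [uIcc_of_le hxe0] at hx
    have h1 : 0 < 1 - x := by linarith [hx.2]
    have hu : HasDerivAt (fun x : ℝ => x / (1 - x)) (1 / (1 - x) ^ 2) x := by
      have := (hasDerivAt_id x).div ((hasDerivAt_id x).const_sub 1) h1.ne'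
      refine this.congr_deriv ?_
      simp only [id]
      field_simp
      ring
    have h2 := ((hu.const_mul S).add (((hu.pow 2).const_mul S0).div_const 2)).mul_const (1 / g ^ 2)
    refine h2.congr_deriv ?_
    simp only [Nat.cast_ofNat, show (2 : ℕ) - 1 = 1 from rfl, pow_one]
    field_simp
  have hcont : ContinuousOn (fun x : ℝ => (S + S0 * (x / (1 - x))) / (1 - x) ^ 2 * (1 / g ^ 2))
      (uIcc 0 xe) := by
    rw [uIcc_of_le hxe0]
    have hne : ∀ x ∈ Icc 0 xe, (1 - x) ≠ 0 := fun x hx => by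
      have : 0 < 1 - x := by linarith [hx.2]
      exact this.ne'
    refine ContinuousOn.mul (ContinuousOn.div ?_ (by fun_prop) fun x hx => pow_ne_zero 2 (hne x hx))
      continuousOn_const
    exact continuousOn_const.add (continuousOn_const.mul
      (continuousOn_id.div (by fun_prop) hne))
  have hint := intervalIntegral.integral_eq_sub_of_hasDerivAt hder hcont.intervalIntegrable
  have hval : ∫ x in (0 : ℝ)..xe, (S + S0 * (x / (1 - x))) / (1 - x) ^ 2 * (1 / g ^ 2)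
      = (S * ε + S0 * ε ^ 2 / 2) * (1 / g ^ 2) := by
    rw [hint, hxee]
    simp
  rw [← hval, intervalIntegral.integral_of_le hxe0, ← integral_Icc_eq_integral_Ioc,
    ← integral_indicator measurableSet_Icc, ← integral_indicator measurableSet_Icc]
  have hco : ContinuousOn (fun x : ℝ => (S + S0 * (x / (1 - x))) / (1 - x) ^ 2 * (1 / g ^ 2))
      (Icc 0 xe) := by rwa [uIcc_of_le hxe0] at hcont
  refine integral_mono_of_nonneg (Filter.Eventually.of_forall fun x => ?_)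
    ((integrable_indicator_iff measurableSet_Icc).2
      (hco.integrableOn_compact isCompact_Icc)) (Filter.Eventually.of_forall fun x => ?_)
  · simp only [Pi.zero_apply, indicator]
    split_ifs with h1 h2
    · refine mul_nonneg (by linarith [h1.2]) (div_nonneg ?_ (by positivity))
      have := mul_nonneg (show 0 ≤ 1 - x by linarith [h1.2]) hS
      have := mul_nonneg h1.1 hS0
      linarith
    · simp
    · exact le_rfl
  · by_cases h1 : x ∈ Icc (0 : ℝ) 1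
    · rw [indicator_of_mem h1]
      by_cases h2 : x < (1 - x) * ε
      · rw [if_pos h2]
        have h4 : x ≤ xe := by
          rw [hxe, le_div_iff₀ (by positivity)]
          nlinarith
        have h5 : x ∈ Icc (0 : ℝ) xe := ⟨h1.1, h4⟩
        rw [indicator_of_mem h5]
        have h6 : 0 < 1 - x := by linarith
        have h7 : (g * (1 - x) ^ 2) ^ 2 ≤ (g * (1 - x) ^ 2 + x) ^ 2 := by
          have : 0 ≤ g * (1 - x) ^ 2 := by positivity
          exact pow_le_pow_left₀ this (by linarith [h1.1]) 2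
        have h8 : 0 ≤ (1 - x) * S + x * S0 := by
          have := mul_nonneg h6.le hS
          have := mul_nonneg h1.1 hS0
          linarith
        have h9 : 0 < (g * (1 - x) ^ 2) ^ 2 := by positivity
        calc (1 - x) * (((1 - x) * S + x * S0) / (g * (1 - x) ^ 2 + x) ^ 2)
            ≤ (1 - x) * (((1 - x) * S + x * S0) / (g * (1 - x) ^ 2) ^ 2) :=
              mul_le_mul_of_nonneg_left (div_le_div_of_nonneg_left h8 h9 h7) h6.le
          _ = (S + S0 * (x / (1 - x))) / (1 - x) ^ 2 * (1 / g ^ 2) := by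
              field_simp
      · rw [if_neg h2, mul_zero]
        by_cases h3 : x ∈ Icc (0 : ℝ) xe
        · rw [indicator_of_mem h3]
          have h6 : 0 < 1 - x := by linarith [h3.2]
          have : 0 ≤ x / (1 - x) := div_nonneg h3.1 h6.le
          positivity
        · rw [indicator_of_notMem h3]
    · rw [indicator_of_notMem h1]
      by_cases h3 : x ∈ Icc (0 : ℝ) xe
      · exact absurd ⟨h3.1, by linarith [h3.2]⟩ h1
      · rw [indicator_of_notMem h3]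

/-- the cost in the cut region beyond a line near the side `t.1 = 0` -/
noncomputable def cutf (ε₁ ε₂ S₁ S₂ S₀ : ℝ) (t : ℝ × ℝ) : ℝ :=
  if t.1 < ε₁ * t.2 + ε₂ * t3 t then (S₁ * t.2 + S₂ * t3 t + S₀ * t.1) / mm t ^ 2 else 0

theorem cutf_meas (ε₁ ε₂ S₁ S₂ S₀ : ℝ) : Measurable (cutf ε₁ ε₂ S₁ S₂ S₀) := by
  have h3 : Measurable t3 := by unfold t3; fun_prop
  unfold cutf
  refine Measurable.ite (measurableSet_lt measurable_fst
    ((measurable_snd.const_mul _).add (h3.const_mul _))) ?_ measurable_const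
  exact (((measurable_snd.const_mul _).add (h3.const_mul _)).add
    (measurable_fst.const_mul _)).div (mm_cont.measurable.pow_const 2)

theorem cutf_ray {ε₁ ε₂ S₁ S₂ S₀ : ℝ} (x s : ℝ) : (1 - x) * cutf ε₁ ε₂ S₁ S₂ S₀ (ray (x, s))
    = (1 - x) * (if x < (1 - x) * (ε₁ * s + ε₂ * (1 - s)) then
      ((1 - x) * (S₁ * s + S₂ * (1 - s)) + x * S₀) / ((1 - s + s ^ 2) * (1 - x) ^ 2 + x) ^ 2
        else 0) := by
  have e1 : ε₁ * ((1 - x) * s) + ε₂ * t3 (x, (1 - x) * s)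
      = (1 - x) * (ε₁ * s + ε₂ * (1 - s)) := by
    simp only [t3]; ring
  have e2 : S₁ * ((1 - x) * s) + S₂ * t3 (x, (1 - x) * s) + S₀ * x
      = (1 - x) * (S₁ * s + S₂ * (1 - s)) + x * S₀ := by
    simp only [t3]; ring
  simp only [cutf, ray, mm_ray, e1, e2]

/-- **cut integral**: upper bound of the cost beyond a line near a side -/
theorem cut_Sim {ε₁ ε₂ S₁ S₂ S₀ : ℝ} (h1 : 0 ≤ ε₁) (h2 : 0 ≤ ε₂) (hS1 : 0 ≤ S₁) (hS2 : 0 ≤ S₂)
    (hS0 : 0 ≤ S₀) : ∫ t in Sim, cutf ε₁ ε₂ S₁ S₂ S₀ t ≤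
      4916 / 10395 * (S₁ * ε₁ + S₂ * ε₂) + 32891 / 124740 * (S₁ * ε₂ + S₂ * ε₁)
        + S₀ / 2 * (4916 / 10395 * (ε₁ ^ 2 + ε₂ ^ 2) + 32891 / 124740 * (2 * ε₁ * ε₂)) := by
  rw [ray_int (cutf_meas _ _ _ _ _)]
  set H : ℝ × ℝ → ℝ := fun p => (1 - p.1) * cutf ε₁ ε₂ S₁ S₂ S₀ (ray p) with hH
  have hHm : Measurable H :=
    (by fun_prop : Measurable fun p : ℝ × ℝ => 1 - p.1).mul
      ((cutf_meas _ _ _ _ _).comp ray_contin.measurable)
  have hHi : IntegrableOn H Sq := by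
    refine Measure.integrableOn_of_bounded (M := (S₁ + S₂ + S₀) * (9 / 4)) Sq_fin.ne
      hHm.aestronglyMeasurable ?_
    filter_upwards [ae_restrict_mem Sq_meas] with p hp
    obtain ⟨⟨a1, a2⟩, a3, a4⟩ := hp
    have hx : 0 ≤ 1 - p.1 := by linarith
    have hs : 0 ≤ 1 - p.2 := by linarith
    rw [Real.norm_eq_abs]
    have e : H p = (1 - p.1) * (if p.1 < (1 - p.1) * (ε₁ * p.2 + ε₂ * (1 - p.2)) then
      ((1 - p.1) * (S₁ * p.2 + S₂ * (1 - p.2)) + p.1 * S₀)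
        / ((1 - p.2 + p.2 ^ 2) * (1 - p.1) ^ 2 + p.1) ^ 2 else 0) := cutf_ray p.1 p.2
    rw [e]
    split_ifs with hc
    · have hm := mm_pos (ray p)
      have em : mm (ray p) = (1 - p.2 + p.2 ^ 2) * (1 - p.1) ^ 2 + p.1 := mm_ray p.1 p.2
      rw [em] at hm
      set m := (1 - p.2 + p.2 ^ 2) * (1 - p.1) ^ 2 + p.1
      have hm2 : (4 / 9 : ℝ) ≤ m ^ 2 := by nlinarith
      have n1 : 0 ≤ S₁ * p.2 := mul_nonneg hS1 a3
      have n2 : 0 ≤ S₂ * (1 - p.2) := mul_nonneg hS2 hs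
      have n3 : 0 ≤ p.1 * S₀ := mul_nonneg a1 hS0
      have n4 : 0 ≤ (1 - p.1) * (S₁ * p.2 + S₂ * (1 - p.2)) := mul_nonneg hx (by linarith)
      have u1 : S₁ * p.2 ≤ S₁ := mul_le_of_le_one_right hS1 a4
      have u2 : S₂ * (1 - p.2) ≤ S₂ := mul_le_of_le_one_right hS2 (by linarith)
      have u3 : p.1 * S₀ ≤ S₀ := mul_le_of_le_one_left hS0 a2
      have u4 : (1 - p.1) * (S₁ * p.2 + S₂ * (1 - p.2)) ≤ S₁ * p.2 + S₂ * (1 - p.2) :=
        mul_le_of_le_one_left (by linarith) (by linarith)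
      have v1 : ((1 - p.1) * (S₁ * p.2 + S₂ * (1 - p.2)) + p.1 * S₀) / m ^ 2
          ≤ (S₁ + S₂ + S₀) * (9 / 4) := by
        rw [div_le_iff₀ (by positivity)]
        have : (S₁ + S₂ + S₀) * 1 ≤ (S₁ + S₂ + S₀) * (9 / 4 * m ^ 2) :=
          mul_le_mul_of_nonneg_left (by linarith) (by linarith)
        linarith
      have v0 : 0 ≤ ((1 - p.1) * (S₁ * p.2 + S₂ * (1 - p.2)) + p.1 * S₀) / m ^ 2 :=
        div_nonneg (by linarith) (by positivity)
      rw [abs_of_nonneg (mul_nonneg hx v0)]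
      exact (mul_le_of_le_one_left v0 (by linarith)).trans v1
    · rw [mul_zero, abs_zero]
      positivity
  have hFub : ∫ p in Sq, H p = ∫ s in Icc (0 : ℝ) 1, ∫ x in Icc (0 : ℝ) 1, H (x, s) := by
    have hi := hHi
    rw [IntegrableOn, Sq, Measure.volume_eq_prod, ← Measure.prod_restrict] at hi
    rw [Sq, Measure.volume_eq_prod, ← Measure.prod_restrict]
    exact integral_prod_symm _ hi
  rw [hFub]
  -- outer estimate
  set α := S₁ * ε₁ + S₀ / 2 * ε₁ ^ 2 with hα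
  set γ := S₂ * ε₂ + S₀ / 2 * ε₂ ^ 2 with hγ
  set β := S₁ * ε₂ + S₂ * ε₁ + S₀ / 2 * (2 * ε₁ * ε₂) with hβ
  have hα0 : 0 ≤ α := by positivity
  have hγ0 : 0 ≤ γ := by positivity
  have hβ0 : 0 ≤ β := by positivity
  have hout : ∫ s in Icc (0 : ℝ) 1, ∫ x in Icc (0 : ℝ) 1, H (x, s)
      ≤ ∫ s in Icc (0 : ℝ) 1, (α * s ^ 2 + β * (s * (1 - s)) + γ * (1 - s) ^ 2)
    * (1 + 2 * (s * (1 - s)) + 3 * (s * (1 - s)) ^ 2 + 4 * (s * (1 - s)) ^ 3
      + 64 / 9 * (s * (1 - s)) ^ 4) := by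
    refine integral_mono_of_nonneg ?_ ?_ ?_
    · filter_upwards [ae_restrict_mem measurableSet_Icc] with s hs
      refine setIntegral_nonneg measurableSet_Icc fun x hx => ?_
      have hx' : 0 ≤ 1 - x := by linarith [hx.2]
      have hs' : 0 ≤ 1 - s := by linarith [hs.2]
      have e : H (x, s) = _ := cutf_ray x s
      rw [e]
      split_ifs with hc
      · have n1 : 0 ≤ S₁ * s := mul_nonneg hS1 hs.1
        have n2 : 0 ≤ S₂ * (1 - s) := mul_nonneg hS2 hs'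
        have n3 : 0 ≤ x * S₀ := mul_nonneg hx.1 hS0
        have n4 : 0 ≤ (1 - x) * (S₁ * s + S₂ * (1 - s)) := mul_nonneg hx' (by linarith)
        exact mul_nonneg hx' (div_nonneg (by linarith) (by positivity))
      · rw [mul_zero]
    · exact (by fun_prop : Continuous fun s : ℝ =>
        (α * s ^ 2 + β * (s * (1 - s)) + γ * (1 - s) ^ 2)
    * (1 + 2 * (s * (1 - s)) + 3 * (s * (1 - s)) ^ 2 + 4 * (s * (1 - s)) ^ 3
      + 64 / 9 * (s * (1 - s)) ^ 4)).continuousOn.integrableOn_compact isCompact_Icc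
    · filter_upwards [ae_restrict_mem measurableSet_Icc] with s hs
      have hs' : 0 ≤ 1 - s := by linarith [hs.2]
      have hg : 0 < 1 - s + s ^ 2 := by nlinarith [sq_nonneg (s - 1 / 2)]
      have n1 : 0 ≤ S₁ * s := mul_nonneg hS1 hs.1
      have n2 : 0 ≤ S₂ * (1 - s) := mul_nonneg hS2 hs'
      have n3 : 0 ≤ ε₁ * s := mul_nonneg h1 hs.1
      have n4 : 0 ≤ ε₂ * (1 - s) := mul_nonneg h2 hs'
      have hf := fibre (S := S₁ * s + S₂ * (1 - s)) (S0 := S₀) (ε := ε₁ * s + ε₂ * (1 - s))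
        hg (by linarith) (by linarith) hS0
      have e : ∀ x, H (x, s) = (1 - x) * (if x < (1 - x) * (ε₁ * s + ε₂ * (1 - s)) then
        ((1 - x) * (S₁ * s + S₂ * (1 - s)) + x * S₀) / ((1 - s + s ^ 2) * (1 - x) ^ 2 + x) ^ 2
        else 0) := fun x => cutf_ray x s
      simp only [e]
      refine hf.trans ?_
      have k1 : 0 ≤ s * (1 - s) := mul_nonneg hs.1 hs'
      have k2 : s * (1 - s) ≤ 1 / 4 := by nlinarith [sq_nonneg (s - 1 / 2)]
      have hR := R_ge k2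
      have eg : 1 - s + s ^ 2 = 1 - s * (1 - s) := by ring
      rw [eg]
      have e3 : (S₁ * s + S₂ * (1 - s)) * (ε₁ * s + ε₂ * (1 - s))
          + S₀ * (ε₁ * s + ε₂ * (1 - s)) ^ 2 / 2
          = α * s ^ 2 + β * (s * (1 - s)) + γ * (1 - s) ^ 2 := by
        rw [hα, hβ, hγ]; ring
      rw [e3]
      refine mul_le_mul_of_nonneg_left hR ?_
      positivity
  refine hout.trans (le_of_eq ?_)
  rw [integral_Icc_eq_integral_Ioc, ← intervalIntegral.integral_of_le zero_le_one, int_R]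
  rw [hα, hβ, hγ]
  ring

/-- **cut integral** in the measure of directions -/
theorem cut_dir {ε₁ ε₂ S₁ S₂ S₀ : ℝ} (h1 : 0 ≤ ε₁) (h2 : 0 ≤ ε₂) (hS1 : 0 ≤ S₁) (hS2 : 0 ≤ S₂)
    (hS0 : 0 ≤ S₀) : 1 / √2 * ∫ t in Sim, cutf ε₁ ε₂ S₁ S₂ S₀ t ≤
      0.3345 * (S₁ * ε₁ + S₂ * ε₂) + 0.1865 * (S₁ * ε₂ + S₂ * ε₁)
        + S₀ / 2 * (0.3345 * (ε₁ ^ 2 + ε₂ ^ 2) + 0.1865 * (2 * ε₁ * ε₂)) := by
  have h := cut_Sim h1 h2 hS1 hS2 hS0
  have h0 : (0 : ℝ) ≤ 1 / √2 := by positivity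
  have hsq : (1.4142 : ℝ) ≤ √2 := Real.le_sqrt_of_sq_le (by norm_num)
  have c1 : 1 / √2 * (4916 / 10395 : ℝ) ≤ 0.3345 := by
    rw [one_div, inv_mul_le_iff₀ (by positivity)]
    nlinarith
  have c2 : 1 / √2 * (32891 / 124740 : ℝ) ≤ 0.1865 := by
    rw [one_div, inv_mul_le_iff₀ (by positivity)]
    nlinarith
  have n1 : 0 ≤ S₁ * ε₁ + S₂ * ε₂ := by positivity
  have n2 : 0 ≤ S₁ * ε₂ + S₂ * ε₁ := by positivity
  have n3 : 0 ≤ S₀ / 2 * (ε₁ ^ 2 + ε₂ ^ 2) := by positivity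
  have n4 : 0 ≤ S₀ / 2 * (2 * ε₁ * ε₂) := by positivity
  have k1 := mul_le_mul_of_nonneg_right c1 n1
  have k2 := mul_le_mul_of_nonneg_right c2 n2
  have k3 := mul_le_mul_of_nonneg_right c1 n3
  have k4 := mul_le_mul_of_nonneg_right c2 n4
  have h3 := mul_le_mul_of_nonneg_left h h0
  refine h3.trans ?_
  nlinarith

/-- side `t.2 = 0`: region `t.2 < ε₁ t.1 + ε₂ t3` -/
theorem cut_dir2 {ε₁ ε₂ S₁ S₂ S₀ : ℝ} (h1 : 0 ≤ ε₁) (h2 : 0 ≤ ε₂) (hS1 : 0 ≤ S₁) (hS2 : 0 ≤ S₂)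
    (hS0 : 0 ≤ S₀) : 1 / √2 * ∫ t in Sim, (if t.2 < ε₁ * t.1 + ε₂ * t3 t then
      (S₁ * t.1 + S₂ * t3 t + S₀ * t.2) / mm t ^ 2 else 0) ≤
      0.3345 * (S₁ * ε₁ + S₂ * ε₂) + 0.1865 * (S₁ * ε₂ + S₂ * ε₁)
        + S₀ / 2 * (0.3345 * (ε₁ ^ 2 + ε₂ ^ 2) + 0.1865 * (2 * ε₁ * ε₂)) := by
  have h := cut_dir h1 h2 hS1 hS2 hS0
  rw [← Sim_swap] at h
  refine le_trans (le_of_eq ?_) h
  congr 2
  funext t
  have e : t3 (t.2, t.1) = t3 t := by simp only [t3]; ring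
  simp only [cutf, mm_swap, e]

/-- side `t3 = 0`: region `t3 < ε₁ t.2 + ε₂ t.1` -/
theorem cut_dir3 {ε₁ ε₂ S₁ S₂ S₀ : ℝ} (h1 : 0 ≤ ε₁) (h2 : 0 ≤ ε₂) (hS1 : 0 ≤ S₁) (hS2 : 0 ≤ S₂)
    (hS0 : 0 ≤ S₀) : 1 / √2 * ∫ t in Sim, (if t3 t < ε₁ * t.2 + ε₂ * t.1 then
      (S₁ * t.2 + S₂ * t.1 + S₀ * t3 t) / mm t ^ 2 else 0) ≤
      0.3345 * (S₁ * ε₁ + S₂ * ε₂) + 0.1865 * (S₁ * ε₂ + S₂ * ε₁)
        + S₀ / 2 * (0.3345 * (ε₁ ^ 2 + ε₂ ^ 2) + 0.1865 * (2 * ε₁ * ε₂)) := by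
  have h := cut_dir h1 h2 hS1 hS2 hS0
  rw [← Sim_sh] at h
  refine le_trans (le_of_eq ?_) h
  congr 2
  funext t
  have e1 : (sh t).1 = t3 t := rfl
  have e2 : (sh t).2 = t.2 := rfl
  have e3 : t3 (sh t) = t.1 := by simp only [t3, sh]; ring
  simp only [cutf, mm_sh, e1, e2, e3]

end Pool.Agent.Helper55.Sx
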