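import Pool.Agent.Helper55.MEI.Sx7

/-!
# The wall integral with linear profile
-/

namespace Pool.Agent.Helper55.Sx

open Set MeasureTheory

/-- fibre integral of the wall function -/
theorem fibre2 {g ε S : ℝ} (hg : 0 < g) (hε : 0 ≤ ε) (hS : 0 ≤ S) :
    ∫ x in Icc (0 : ℝ) 1, (1 - x) * (if x < (1 - x) * ε then
      (1 - x / ((1 - x) * ε)) * ((1 - x) * S) / (g * (1 - x) ^ 2 + x) ^ 2 else 0)
      ≤ (S * ε / 2) * (1 / g ^ 2) := by
  rcases eq_or_lt_of_le hε with h00 | hεp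
  · -- empty region
    have : ∀ x ∈ Icc (0 : ℝ) 1, (1 - x) * (if x < (1 - x) * ε then
      (1 - x / ((1 - x) * ε)) * ((1 - x) * S) / (g * (1 - x) ^ 2 + x) ^ 2 else 0) = 0 := by
      intro x hx
      rw [← h00, mul_zero, if_neg (by linarith [hx.1]), mul_zero]
    rw [setIntegral_congr_fun measurableSet_Icc this]
    rw [← h00]
    simp
  set xe : ℝ := ε / (1 + ε) with hxe
  have hxe0 : 0 ≤ xe := by positivity
  have hxe1 : xe < 1 := by
    rw [hxe, div_lt_one (by positivity)]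
    linarith
  have hxee : xe / (1 - xe) = ε := by
    rw [hxe]
    field_simp
    ring
  have hder : ∀ x ∈ uIcc 0 xe, HasDerivAt
      (fun x : ℝ => (S * (x / (1 - x) - (x / (1 - x)) ^ 2 / (2 * ε))) * (1 / g ^ 2))
      (S * (1 - x / (1 - x) / ε) / (1 - x) ^ 2 * (1 / g ^ 2)) x := by
    intro x hx
    rw [uIcc_of_le hxe0] at hx
    have h1 : 0 < 1 - x := by linarith [hx.2]
    have hu : HasDerivAt (fun x : ℝ => x / (1 - x)) (1 / (1 - x) ^ 2) x := by
      have := (hasDerivAt_id x).div ((hasDerivAt_id x).const_sub 1) h1.ne'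
      refine this.congr_deriv ?_
      simp only [id]
      field_simp
      ring
    have h2 := ((hu.sub ((hu.pow 2).div_const (2 * ε))).const_mul S).mul_const (1 / g ^ 2)
    refine h2.congr_deriv ?_
    simp only [Nat.cast_ofNat, show (2 : ℕ) - 1 = 1 from rfl, pow_one]
    field_simp
  have hcont : ContinuousOn (fun x : ℝ => S * (1 - x / (1 - x) / ε) / (1 - x) ^ 2 * (1 / g ^ 2))
      (uIcc 0 xe) := by
    rw [uIcc_of_le hxe0]
    have hne : ∀ x ∈ Icc 0 xe, (1 - x) ≠ 0 := fun x hx => by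
      have : 0 < 1 - x := by linarith [hx.2]
      exact this.ne'
    refine ContinuousOn.mul (ContinuousOn.div ?_ (by fun_prop) fun x hx => pow_ne_zero 2 (hne x hx))
      continuousOn_const
    exact continuousOn_const.mul (continuousOn_const.sub
      ((continuousOn_id.div (by fun_prop) hne).div_const ε))
  have hint := intervalIntegral.integral_eq_sub_of_hasDerivAt hder hcont.intervalIntegrable
  have hval : ∫ x in (0 : ℝ)..xe, S * (1 - x / (1 - x) / ε) / (1 - x) ^ 2 * (1 / g ^ 2)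
      = (S * ε / 2) * (1 / g ^ 2) := by
    rw [hint, hxee]
    have e : ε - ε ^ 2 / (2 * ε) = ε / 2 := by
      field_simp
      ring
    have e0 : (0 : ℝ) / (1 - 0) - (0 / (1 - 0)) ^ 2 / (2 * ε) = 0 := by simp
    rw [e, e0]
    ring
  rw [← hval, intervalIntegral.integral_of_le hxe0, ← integral_Icc_eq_integral_Ioc,
    ← integral_indicator measurableSet_Icc, ← integral_indicator measurableSet_Icc]
  have hco : ContinuousOn (fun x : ℝ => S * (1 - x / (1 - x) / ε) / (1 - x) ^ 2 * (1 / g ^ 2))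
      (Icc 0 xe) := by rwa [uIcc_of_le hxe0] at hcont
  -- pointwise facts
  have hnn : ∀ x ∈ Icc (0 : ℝ) 1, x < (1 - x) * ε → 0 < 1 - x ∧ 0 ≤ 1 - x / ((1 - x) * ε) := by
    intro x hx h2
    have h6 : 0 < 1 - x := by
      rcases eq_or_lt_of_le hx.2 with h | h
      · rw [h] at h2
        norm_num at h2
      · linarith
    refine ⟨h6, ?_⟩
    have : x / ((1 - x) * ε) ≤ 1 := by
      rw [div_le_one (by positivity)]
      exact h2.le
    linarith
  refine integral_mono_of_nonneg (Filter.Eventually.of_forall fun x => ?_)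
    ((integrable_indicator_iff measurableSet_Icc).2
      (hco.integrableOn_compact isCompact_Icc)) (Filter.Eventually.of_forall fun x => ?_)
  · simp only [Pi.zero_apply, indicator]
    split_ifs with h1 h2
    · obtain ⟨h6, h7⟩ := hnn x h1 h2
      exact mul_nonneg h6.le (div_nonneg (mul_nonneg h7 (mul_nonneg h6.le hS)) (by positivity))
    · simp
    · exact le_rfl
  · by_cases h1 : x ∈ Icc (0 : ℝ) 1
    · rw [indicator_of_mem h1]
      by_cases h2 : x < (1 - x) * ε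
      · rw [if_pos h2]
        obtain ⟨h6, h10⟩ := hnn x h1 h2
        have h4 : x ≤ xe := by
          rw [hxe, le_div_iff₀ (by positivity)]
          nlinarith
        have h5 : x ∈ Icc (0 : ℝ) xe := ⟨h1.1, h4⟩
        rw [indicator_of_mem h5]
        have h7 : (g * (1 - x) ^ 2) ^ 2 ≤ (g * (1 - x) ^ 2 + x) ^ 2 := by
          have : 0 ≤ g * (1 - x) ^ 2 := by positivity
          exact pow_le_pow_left₀ this (by linarith [h1.1]) 2
        have h8 : 0 ≤ (1 - x / ((1 - x) * ε)) * ((1 - x) * S) :=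
          mul_nonneg h10 (mul_nonneg h6.le hS)
        have h9 : 0 < (g * (1 - x) ^ 2) ^ 2 := by positivity
        calc (1 - x) * ((1 - x / ((1 - x) * ε)) * ((1 - x) * S) / (g * (1 - x) ^ 2 + x) ^ 2)
            ≤ (1 - x) * ((1 - x / ((1 - x) * ε)) * ((1 - x) * S) / (g * (1 - x) ^ 2) ^ 2) :=
              mul_le_mul_of_nonneg_left (div_le_div_of_nonneg_left h8 h9 h7) h6.le
          _ = S * (1 - x / (1 - x) / ε) / (1 - x) ^ 2 * (1 / g ^ 2) := by
              field_simp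
      · rw [if_neg h2, mul_zero]
        by_cases h3 : x ∈ Icc (0 : ℝ) xe
        · rw [indicator_of_mem h3]
          have h6 : 0 < 1 - x := by linarith [h3.2]
          have h7 : x / (1 - x) / ε ≤ 1 := by
            rw [div_div, div_le_one (by positivity)]
            have := h3.2
            rw [hxe, le_div_iff₀ (by positivity)] at this
            nlinarith
          have : 0 ≤ 1 - x / (1 - x) / ε := by linarith
          positivity
        · rw [indicator_of_notMem h3]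
    · rw [indicator_of_notMem h1]
      by_cases h3 : x ∈ Icc (0 : ℝ) xe
      · exact absurd ⟨h3.1, by linarith [h3.2]⟩ h1
      · rw [indicator_of_notMem h3]

/-- the wall function near the side `t.1 = 0` -/
noncomputable def wallf (ε₁ ε₂ S₁ S₂ : ℝ) (t : ℝ × ℝ) : ℝ :=
  if t.1 < ε₁ * t.2 + ε₂ * t3 t then
    (1 - t.1 / (ε₁ * t.2 + ε₂ * t3 t)) * (S₁ * t.2 + S₂ * t3 t) / mm t ^ 2 else 0

theorem wallf_meas (ε₁ ε₂ S₁ S₂ : ℝ) : Measurable (wallf ε₁ ε₂ S₁ S₂) := by
  have h3 : Measurable t3 := by unfold t3; fun_prop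
  have h4 : Measurable fun t : ℝ × ℝ => ε₁ * t.2 + ε₂ * t3 t :=
    (measurable_snd.const_mul _).add (h3.const_mul _)
  unfold wallf
  refine Measurable.ite (measurableSet_lt measurable_fst h4) ?_ measurable_const
  exact ((measurable_const.sub (measurable_fst.div h4)).mul
    ((measurable_snd.const_mul _).add (h3.const_mul _))).div (mm_cont.measurable.pow_const 2)

theorem wallf_ray {ε₁ ε₂ S₁ S₂ : ℝ} (x s : ℝ) : (1 - x) * wallf ε₁ ε₂ S₁ S₂ (ray (x, s))
    = (1 - x) * (if x < (1 - x) * (ε₁ * s + ε₂ * (1 - s)) then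
      (1 - x / ((1 - x) * (ε₁ * s + ε₂ * (1 - s)))) * ((1 - x) * (S₁ * s + S₂ * (1 - s)))
        / ((1 - s + s ^ 2) * (1 - x) ^ 2 + x) ^ 2 else 0) := by
  have e1 : ε₁ * ((1 - x) * s) + ε₂ * t3 (x, (1 - x) * s)
      = (1 - x) * (ε₁ * s + ε₂ * (1 - s)) := by
    simp only [t3]; ring
  have e2 : S₁ * ((1 - x) * s) + S₂ * t3 (x, (1 - x) * s)
      = (1 - x) * (S₁ * s + S₂ * (1 - s)) := by
    simp only [t3]; ring
  simp only [wallf, ray, mm_ray, e1, e2]

/-- **wall integral** -/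
theorem wall_Sim {ε₁ ε₂ S₁ S₂ : ℝ} (h1 : 0 ≤ ε₁) (h2 : 0 ≤ ε₂) (hS1 : 0 ≤ S₁) (hS2 : 0 ≤ S₂) :
    IntegrableOn (wallf ε₁ ε₂ S₁ S₂) Sim ∧ ∫ t in Sim, wallf ε₁ ε₂ S₁ S₂ t ≤
      1 / 2 * (4916 / 10395 * (S₁ * ε₁ + S₂ * ε₂) + 32891 / 124740 * (S₁ * ε₂ + S₂ * ε₁)) := by
  -- pointwise bounds on the simplex
  have hbd : ∀ t ∈ Sim, 0 ≤ wallf ε₁ ε₂ S₁ S₂ t ∧
      wallf ε₁ ε₂ S₁ S₂ t ≤ (S₁ + S₂) * (9 / 4) := by
    rintro t ⟨a1, a2, a3⟩
    have a4 : 0 ≤ t3 t := by simp only [t3]; linarith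
    have a5 : t3 t ≤ 1 := by simp only [t3]; linarith
    unfold wallf
    split_ifs with hc
    · have hL : 0 < ε₁ * t.2 + ε₂ * t3 t := lt_of_le_of_lt a1 hc
      have hm := mm_pos t
      have hm2 : (4 / 9 : ℝ) ≤ mm t ^ 2 := by nlinarith
      have n1 : 0 ≤ 1 - t.1 / (ε₁ * t.2 + ε₂ * t3 t) := by
        have : t.1 / (ε₁ * t.2 + ε₂ * t3 t) ≤ 1 := by
          rw [div_le_one hL]; exact hc.le
        linarith
      have n2 : 1 - t.1 / (ε₁ * t.2 + ε₂ * t3 t) ≤ 1 := by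
        have : 0 ≤ t.1 / (ε₁ * t.2 + ε₂ * t3 t) := div_nonneg a1 hL.le
        linarith
      have n3 : 0 ≤ S₁ * t.2 + S₂ * t3 t := by positivity
      have u1 : S₁ * t.2 ≤ S₁ := mul_le_of_le_one_right hS1 (by linarith)
      have u2 : S₂ * t3 t ≤ S₂ := mul_le_of_le_one_right hS2 a5
      refine ⟨by positivity, ?_⟩
      rw [div_le_iff₀ (by positivity)]
      have k1 : (1 - t.1 / (ε₁ * t.2 + ε₂ * t3 t)) * (S₁ * t.2 + S₂ * t3 t)
          ≤ S₁ * t.2 + S₂ * t3 t := mul_le_of_le_one_left n3 n2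
      have k2 : (S₁ + S₂) * 1 ≤ (S₁ + S₂) * (9 / 4 * mm t ^ 2) :=
        mul_le_mul_of_nonneg_left (by linarith) (by linarith)
      linarith
    · exact ⟨le_rfl, by positivity⟩
  have hint : IntegrableOn (wallf ε₁ ε₂ S₁ S₂) Sim := by
    refine Measure.integrableOn_of_bounded (M := (S₁ + S₂) * (9 / 4))
      Sim_compact.measure_lt_top.ne (wallf_meas _ _ _ _).aestronglyMeasurable ?_
    filter_upwards [ae_restrict_mem Sim_meas] with t ht
    obtain ⟨b1, b2⟩ := hbd t ht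
    rw [Real.norm_eq_abs, abs_of_nonneg b1]
    exact b2
  refine ⟨hint, ?_⟩
  rw [ray_int (wallf_meas _ _ _ _)]
  set H : ℝ × ℝ → ℝ := fun p => (1 - p.1) * wallf ε₁ ε₂ S₁ S₂ (ray p) with hH
  have hHm : Measurable H :=
    (by fun_prop : Measurable fun p : ℝ × ℝ => 1 - p.1).mul
      ((wallf_meas _ _ _ _).comp ray_contin.measurable)
  have hrS : ∀ p ∈ Sq, ray p ∈ Sim := by
    rintro p ⟨⟨a1, a2⟩, a3, a4⟩
    have hx : 0 ≤ 1 - p.1 := by linarith
    refine ⟨a1, mul_nonneg hx a3, ?_⟩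
    have : (1 - p.1) * p.2 ≤ 1 - p.1 := mul_le_of_le_one_right hx a4
    simp only [ray]
    linarith
  have hHi : IntegrableOn H Sq := by
    refine Measure.integrableOn_of_bounded (M := (S₁ + S₂) * (9 / 4)) Sq_fin.ne
      hHm.aestronglyMeasurable ?_
    filter_upwards [ae_restrict_mem Sq_meas] with p hp
    obtain ⟨b1, b2⟩ := hbd _ (hrS p hp)
    have hx : 0 ≤ 1 - p.1 := by linarith [hp.1.2]
    have hx1 : 1 - p.1 ≤ 1 := by linarith [hp.1.1]
    rw [Real.norm_eq_abs, abs_of_nonneg (mul_nonneg hx b1)]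
    exact (mul_le_of_le_one_left b1 hx1).trans b2
  have hFub : ∫ p in Sq, H p = ∫ s in Icc (0 : ℝ) 1, ∫ x in Icc (0 : ℝ) 1, H (x, s) := by
    have hi := hHi
    rw [IntegrableOn, Sq, Measure.volume_eq_prod, ← Measure.prod_restrict] at hi
    rw [Sq, Measure.volume_eq_prod, ← Measure.prod_restrict]
    exact integral_prod_symm _ hi
  rw [hFub]
  set α := S₁ * ε₁ / 2 with hα
  set γ := S₂ * ε₂ / 2 with hγ
  set β := (S₁ * ε₂ + S₂ * ε₁) / 2 with hβ
  have hα0 : 0 ≤ α := by positivity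
  have hγ0 : 0 ≤ γ := by positivity
  have hβ0 : 0 ≤ β := by positivity
  have hout : ∫ s in Icc (0 : ℝ) 1, ∫ x in Icc (0 : ℝ) 1, H (x, s)
      ≤ ∫ s in Icc (0 : ℝ) 1, (α * s ^ 2 + β * (s * (1 - s)) + γ * (1 - s) ^ 2)
    * (1 + 2 * (s * (1 - s)) + 3 * (s * (1 - s)) ^ 2 + 4 * (s * (1 - s)) ^ 3
      + 64 / 9 * (s * (1 - s)) ^ 4) := by
    refine integral_mono_of_nonneg ?_ ?_ ?_
    · filter_upwards [ae_restrict_mem measurableSet_Icc] with s hs
      refine setIntegral_nonneg measurableSet_Icc fun x hx => ?_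
      exact mul_nonneg (by simp only; linarith [hx.2]) (hbd _ (hrS (x, s) ⟨hx, hs⟩)).1
    · exact (by fun_prop : Continuous fun s : ℝ =>
        (α * s ^ 2 + β * (s * (1 - s)) + γ * (1 - s) ^ 2)
    * (1 + 2 * (s * (1 - s)) + 3 * (s * (1 - s)) ^ 2 + 4 * (s * (1 - s)) ^ 3
      + 64 / 9 * (s * (1 - s)) ^ 4)).continuousOn.integrableOn_compact isCompact_Icc
    · filter_upwards [ae_restrict_mem measurableSet_Icc] with s hs
      have hs' : 0 ≤ 1 - s := by linarith [hs.2]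
      have hg : 0 < 1 - s + s ^ 2 := by nlinarith [sq_nonneg (s - 1 / 2)]
      have n1 : 0 ≤ S₁ * s := mul_nonneg hS1 hs.1
      have n2 : 0 ≤ S₂ * (1 - s) := mul_nonneg hS2 hs'
      have n3 : 0 ≤ ε₁ * s := mul_nonneg h1 hs.1
      have n4 : 0 ≤ ε₂ * (1 - s) := mul_nonneg h2 hs'
      have hf := fibre2 (S := S₁ * s + S₂ * (1 - s)) (ε := ε₁ * s + ε₂ * (1 - s))
        hg (by linarith) (by linarith)
      have e : ∀ x, H (x, s) = (1 - x) * (if x < (1 - x) * (ε₁ * s + ε₂ * (1 - s)) then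
      (1 - x / ((1 - x) * (ε₁ * s + ε₂ * (1 - s)))) * ((1 - x) * (S₁ * s + S₂ * (1 - s)))
        / ((1 - s + s ^ 2) * (1 - x) ^ 2 + x) ^ 2 else 0) := fun x => wallf_ray x s
      simp only [e]
      refine hf.trans ?_
      have k2 : s * (1 - s) ≤ 1 / 4 := by nlinarith [sq_nonneg (s - 1 / 2)]
      have k1 : 0 ≤ s * (1 - s) := mul_nonneg hs.1 hs'
      have hR := R_ge k2
      have eg : 1 - s + s ^ 2 = 1 - s * (1 - s) := by ring
      rw [eg]
      have e3 : (S₁ * s + S₂ * (1 - s)) * (ε₁ * s + ε₂ * (1 - s)) / 2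
          = α * s ^ 2 + β * (s * (1 - s)) + γ * (1 - s) ^ 2 := by
        rw [hα, hβ, hγ]; ring
      rw [e3]
      refine mul_le_mul_of_nonneg_left hR ?_
      positivity
  refine hout.trans (le_of_eq ?_)
  rw [integral_Icc_eq_integral_Ioc, ← intervalIntegral.integral_of_le zero_le_one, int_R]
  rw [hα, hβ, hγ]
  ring

end Pool.Agent.Helper55.Sx
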