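import Mathlib

namespace Pool.Agent.Helper55.TentL

theorem polyA {x y z : ℝ} (hx : 0 ≤ x) (hy : 0 ≤ y) (hz : 0 ≤ z) (h : x + y + z = 1)
    {e D q κ η : ℝ} (he : e = x * y + x * z + y * z) (hD : D = 1 - 2 / 15 * e)
    (hq : q = (2 - e) / 3) (hκ : κ = (1 + y) / 3 + (1 + x + y + 2 * x * y) / 15)
    (hη : η = y * (1 + x)) :
    0 ≤ 2 * (1119 / 1000) * (1 - 5506 / 10000 * e) - D ^ 2
      + 1119 / 2000 * (η * (1 + e / 2)) - 2 * D * κ
      - (κ ^ 2 + 2 * D * q - 2 * κ * q) / 9 := by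
  have key : 2 * (1119 / 1000) * (1 - 5506 / 10000 * e) - D ^ 2
      + 1119 / 2000 * (η * (1 + e / 2)) - 2 * D * κ
      - (κ ^ 2 + 2 * D * q - 2 * κ * q) / 9 =
    (8159 / 40500) * (x ^ 7) + (169033333 / 202500000) * (x ^ 6 * y)
      + (153635833 / 202500000) * (x ^ 6 * z) + (75266833 / 40500000) * (x ^ 5 * y ^ 2)
      + (439554163 / 202500000) * (x ^ 5 * y * z) + (43029833 / 40500000) * (x ^ 5 * z ^ 2)
      + (118929541 / 40500000) * (x ^ 4 * y ^ 3) + (50638777 / 13500000) * (x ^ 4 * y ^ 2 * z)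
      + (24366853 / 20250000) * (x ^ 4 * y * z ^ 2) + (21283333 / 20250000) * (x ^ 4 * z ^ 3)
      + (124788041 / 40500000) * (x ^ 3 * y ^ 4) + (11098079 / 2025000) * (x ^ 3 * y ^ 3 * z)
      + (6892763 / 6750000) * (x ^ 3 * y ^ 2 * z ^ 2)
      + (2625941 / 8100000) * (x ^ 3 * y * z ^ 3) + (33913333 / 20250000) * (x ^ 3 * z ^ 4)
      + (2427944 / 1265625) * (x ^ 2 * y ^ 5) + (103048603 / 20250000) * (x ^ 2 * y ^ 4 * z)
      + (3555229 / 1265625) * (x ^ 2 * y ^ 3 * z ^ 2)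
      + (12189703 / 40500000) * (x ^ 2 * y ^ 2 * z ^ 3)
      + (57817603 / 20250000) * (x ^ 2 * y * z ^ 4) + (88809833 / 40500000) * (x ^ 2 * z ^ 5)
      + (65338229 / 101250000) * (x * y ^ 6) + (54879907 / 22500000) * (x * y ^ 5 * z)
      + (58380103 / 20250000) * (x * y ^ 4 * z ^ 2)
      + (15759541 / 8100000) * (x * y ^ 3 * z ^ 3)
      + (42760277 / 13500000) * (x * y ^ 2 * z ^ 4) + (187627447 / 50625000) * (x * y * z ^ 5)
      + (94178611 / 67500000) * (x * z ^ 6) + (209 / 2160) * (y ^ 7)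
      + (24894427 / 50625000) * (y ^ 6 * z) + (12881861 / 13500000) * (y ^ 5 * z ^ 2)
      + (12085229 / 10125000) * (y ^ 4 * z ^ 3) + (4183901 / 2531250) * (y ^ 3 * z ^ 4)
      + (841648 / 421875) * (y ^ 2 * z ^ 5) + (264834583 / 202500000) * (y * z ^ 6)
      + (497 / 1500) * (z ^ 7) := by
    have hz' : z = 1 - x - y := by linarith
    subst hκ hη hq hD he
    subst hz'
    ring
  rw [key]
  positivity

theorem polyB {x y z : ℝ} (hx : 0 ≤ x) (hy : 0 ≤ y) (hz : 0 ≤ z) (h : x + y + z = 1)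
    {e D q κ η : ℝ} (he : e = x * y + x * z + y * z) (hD : D = 1 - 2 / 15 * e)
    (hq : q = (2 - e) / 3) (hκ : κ = (1 + y) / 3 + (1 + x + y + 2 * x * y) / 15)
    (hη : η = y * (1 + x)) :
    0 ≤ 1119 / 1000 * (1 - 5506 / 10000 * e) + 1119 / 2000 * (η * (1 + e / 2))
      - 1119 / 8000 * (η ^ 2 * (1 + 2512 / 1000 * e))
      - 4 / 9 * (κ ^ 2 + 2 * D * q) - 10 / 9 * (κ * q) := by
  have key : 1119 / 1000 * (1 - 5506 / 10000 * e) + 1119 / 2000 * (η * (1 + e / 2))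
      - 1119 / 8000 * (η ^ 2 * (1 + 2512 / 1000 * e))
      - 4 / 9 * (κ ^ 2 + 2 * D * q) - 10 / 9 * (κ * q) =
    (6799 / 81000) * (x ^ 6) + (137078611 / 135000000) * (x ^ 5 * y)
      + (69213611 / 135000000) * (x ^ 5 * z) + (178048229 / 50625000) * (x ^ 4 * y ^ 2)
      + (2203662497 / 405000000) * (x ^ 4 * y * z) + (132252083 / 101250000) * (x ^ 4 * z ^ 2)
      + (32228611 / 8437500) * (x ^ 3 * y ^ 3) + (906359651 / 67500000) * (x ^ 3 * y ^ 2 * z)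
      + (1086528019 / 101250000) * (x ^ 3 * y * z ^ 2)
      + (126920833 / 67500000) * (x ^ 3 * z ^ 3) + (892913537 / 405000000) * (x ^ 2 * y ^ 4)
      + (2418554783 / 202500000) * (x ^ 2 * y ^ 3 * z)
      + (7992418943 / 405000000) * (x ^ 2 * y ^ 2 * z ^ 2)
      + (230889907 / 22500000) * (x ^ 2 * y * z ^ 3)
      + (165252083 / 101250000) * (x ^ 2 * z ^ 4) + (278725103 / 405000000) * (x * y ^ 5)
      + (1962606137 / 405000000) * (x * y ^ 4 * z)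
      + (2493969733 / 202500000) * (x * y ^ 3 * z ^ 2)
      + (2492494423 / 202500000) * (x * y ^ 2 * z ^ 3)
      + (666723749 / 135000000) * (x * y * z ^ 4) + (106413611 / 135000000) * (x * z ^ 5)
      + (14903 / 216000) * (y ^ 6) + (283026353 / 405000000) * (y ^ 5 * z)
      + (126547109 / 50625000) * (y ^ 4 * z ^ 2) + (778247759 / 202500000) * (y ^ 3 * z ^ 3)
      + (1132645207 / 405000000) * (y ^ 2 * z ^ 4) + (397838333 / 405000000) * (y * z ^ 5)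
      + (159 / 1000) * (z ^ 6) := by
    have hz' : z = 1 - x - y := by linarith
    subst hκ hη hq hD he
    subst hz'
    ring
  rw [key]
  positivity

theorem polyC {a : ℝ} (h1 : 1 / 2 ≤ a) (h2 : a ≤ 1) {e D q κ K c0 d1 d2 : ℝ}
    (he : e = a * (1 - a)) (hD : D = 1 - 2 / 15 * e) (hq : q = (1 + a) / 3)
    (hκ : κ = (1 + a) / 3 + (2 + 2 * e) / 15)
    (hK : K = 5 / 4 * κ ^ 2 + 5 / 2 * D * q - 2 * κ * q)
    (hc0 : c0 = 1119 / 1000 * (1 - 536 / 1000 * e) - D ^ 2)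
    (hd1 : d1 = 5 / 4 * D ^ 2 - 2 * D * κ - 9 / 100 * K)
    (hd2 : d2 = 5 / 2 * D * κ - 1119 / 4000 * a - κ ^ 2 - 2 * D * q + 6 / 10 * K) :
    0 ≤ c0 ∧ 0 < d2 ∧ d1 ^ 2 ≤ 4 * c0 * d2 := by
  obtain ⟨t, ht⟩ : ∃ t, t = 2 * a - 1 := ⟨_, rfl⟩
  obtain ⟨u, hu⟩ : ∃ u, u = 2 - 2 * a := ⟨_, rfl⟩
  have t0 : 0 ≤ t := by rw [ht]; linarith
  have u0 : 0 ≤ u := by rw [hu]; linarith
  have k0 : c0 =
    (155743 / 4500000) * (u ^ 4) + (155743 / 1125000) * (t ^ 1 * u ^ 3)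
      + (263843 / 900000) * (t ^ 2 * u ^ 2) + (232081 / 750000) * (t ^ 3 * u ^ 1)
      + (119 / 1000) * (t ^ 4) := by
    subst hc0 hκ hq hD he ht hu
    ring
  have k2 : d2 - 1 / 2 =
    (5243 / 24000) * (u ^ 4) + (3683 / 4800) * (t ^ 1 * u ^ 3)
      + (7589 / 8000) * (t ^ 2 * u ^ 2) + (35263 / 72000) * (t ^ 3 * u ^ 1)
      + (1043 / 12000) * (t ^ 4) := by
    subst hd2 hK hκ hq hD he ht hu
    ring
  have kd : 4 * c0 * d2 - d1 ^ 2 =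
    (2767243723 / 54000000000) * (u ^ 8) + (3269365333 / 13500000000) * (t ^ 1 * u ^ 7)
      + (34261023893 / 81000000000) * (t ^ 2 * u ^ 6)
      + (254279639 / 720000000) * (t ^ 3 * u ^ 5)
      + (11878425253 / 43200000000) * (t ^ 4 * u ^ 4)
      + (17563978241 / 40500000000) * (t ^ 5 * u ^ 3)
      + (2193251641 / 4500000000) * (t ^ 6 * u ^ 2) + (6101923 / 23437500) * (t ^ 7 * u ^ 1)
      + (158389 / 3000000) * (t ^ 8) := by
    subst hd1 hd2 hc0 hK hκ hq hD he ht hu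
    ring
  refine ⟨?_, ?_, ?_⟩
  · rw [k0]; positivity
  · have : 0 ≤ d2 - 1 / 2 := by rw [k2]; positivity
    linarith
  · have : 0 ≤ 4 * c0 * d2 - d1 ^ 2 := by rw [kd]; positivity
    linarith

theorem s_bounds {e : ℝ} (e0 : 0 ≤ e) (e1 : e ≤ 1 / 3) :
    √(1 - e) ^ 2 = 1 - e ∧ 81649 / 100000 ≤ √(1 - e) ∧ √(1 - e) ≤ 1 := by
  refine ⟨Real.sq_sqrt (by linarith), ?_, ?_⟩
  · refine Real.le_sqrt_of_sq_le ?_
    norm_num
    linarith
  · rw [Real.sqrt_le_one]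
    linarith

theorem sqrt_chord3 {e : ℝ} (e0 : 0 ≤ e) (e1 : e ≤ 1 / 3) : 1 - 5506 / 10000 * e ≤ √(1 - e) := by
  obtain ⟨h1, h2, h3⟩ := s_bounds e0 e1
  have : 0 ≤ (1 - √(1 - e)) * (5506 / 10000 * √(1 - e) - 4494 / 10000) :=
    mul_nonneg (by linarith) (by linarith)
  nlinarith

theorem sqrt_chord4 {e : ℝ} (e0 : 0 ≤ e) (e1 : e ≤ 1 / 4) : 1 - 536 / 1000 * e ≤ √(1 - e) := by
  refine Real.le_sqrt_of_sq_le ?_
  nlinarith

/-- lower bound of the square root -/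
theorem sqrt_low {e v : ℝ} (e0 : 0 ≤ e) (e1 : e ≤ 1 / 3) (v0 : 0 ≤ v) (v1 : v ≤ 4) :
    1 - 5506 / 10000 * e + v * (1 + e / 2) / 2 - v ^ 2 * (1 + 2512 / 1000 * e) / 8
      ≤ √(1 - e + v) := by
  obtain ⟨h1, h2, h3⟩ := s_bounds e0 e1
  have h4 := sqrt_chord3 e0 e1
  set s := √(1 - e)
  have s0 : 0 < s := by linarith
  obtain ⟨i, hi⟩ : ∃ i, i = 1 / s := ⟨_, rfl⟩
  have hsi : s * i = 1 := by rw [hi]; field_simp
  have i0 : 0 < i := by rw [hi]; positivity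
  have ee : e = 1 - s ^ 2 := by linarith
  have b1 : (1 + e / 2) ≤ i := by
    have : s * (1 + e / 2) ≤ s * i := by
      rw [hsi, ee]
      nlinarith [mul_nonneg (sq_nonneg (1 - s)) (show 0 ≤ s + 2 by linarith)]
    exact le_of_mul_le_mul_left this s0
  have b2 : i ^ 3 ≤ 1 + 2512 / 1000 * e := by
    have k1 : 0 ≤ 2512 / 1000 * s ^ 4 + 2512 / 1000 * s ^ 3 - s ^ 2 - s - 1 := by
      have t0 : 0 ≤ s - 81649 / 100000 := by linarith
      obtain ⟨d, hd⟩ : ∃ d, d = s - 81649 / 100000 := ⟨_, rfl⟩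
      have hs : s = 81649 / 100000 + d := by rw [hd]; ring
      rw [← hd] at t0
      rw [hs]
      nlinarith [mul_nonneg t0 t0, mul_nonneg (mul_nonneg t0 t0) t0,
        mul_nonneg (mul_nonneg (mul_nonneg t0 t0) t0) t0]
    have k2 : 0 ≤ (1 - s) * (2512 / 1000 * s ^ 4 + 2512 / 1000 * s ^ 3 - s ^ 2 - s - 1) :=
      mul_nonneg (by linarith) k1
    have k3 : s ^ 3 * i ^ 3 = 1 := by rw [← mul_pow, hsi, one_pow]
    have : s ^ 3 * i ^ 3 ≤ s ^ 3 * (1 + 2512 / 1000 * e) := by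
      rw [k3, ee]
      nlinarith
    exact le_of_mul_le_mul_left this (by positivity)
  have b3 : i ^ 2 ≤ 2 := by
    have k3 : s ^ 2 * i ^ 2 = 1 := by rw [← mul_pow, hsi, one_pow]
    have : s ^ 2 * i ^ 2 ≤ s ^ 2 * 2 := by
      rw [k3]
      nlinarith
    exact le_of_mul_le_mul_left this (by positivity)
  have hR : (s + v * i / 2 - v ^ 2 * i ^ 3 / 8) ^ 2
      = s ^ 2 + v - v ^ 3 * i ^ 4 * (1 / 8 - v * i ^ 2 / 64) := by
    linear_combination (v - v ^ 2 * i ^ 2 / 4) * hsi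
  have hvi : v * i ^ 2 ≤ 8 := by nlinarith [sq_nonneg i]
  have hR2 : (s + v * i / 2 - v ^ 2 * i ^ 3 / 8) ^ 2 ≤ 1 - e + v := by
    rw [hR, h1]
    have : 0 ≤ v ^ 3 * i ^ 4 * (1 / 8 - v * i ^ 2 / 64) :=
      mul_nonneg (by positivity) (by linarith)
    linarith
  refine le_trans ?_ (Real.le_sqrt_of_sq_le hR2)
  have c1 := mul_le_mul_of_nonneg_left b1 v0
  have c2 := mul_le_mul_of_nonneg_left b2 (sq_nonneg v)
  linarith

/-- **one pair of contact points** -/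
theorem ineq1 {x y z : ℝ} (hx : 0 ≤ x) (hy : 0 ≤ y) (hz : 0 ≤ z) (h : x + y + z = 1)
    {e D q κ η T : ℝ} (he : e = x * y + x * z + y * z) (hD : D = 1 - 2 / 15 * e)
    (hq : q = (2 - e) / 3) (hκ : κ = (1 + y) / 3 + (1 + x + y + 2 * x * y) / 15)
    (hη : η = y * (1 + x)) (T0 : 0 ≤ T) (T1 : T ≤ 1) :
    (1 - T) * (D + κ * T + q * T ^ 2) ^ 2 ≤ 1119 / 1000 * √(1 - e + η * T) := by
  have pA := polyA hx hy hz h he hD hq hκ hη
  have pB := polyB hx hy hz h he hD hq hκ hη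
  have e0 : 0 ≤ e := by rw [he]; positivity
  have e1 : e ≤ 1 / 3 := by
    rw [he]
    nlinarith [sq_nonneg (x - y), sq_nonneg (x - z), sq_nonneg (y - z)]
  have η0 : 0 ≤ η := by rw [hη]; positivity
  have x1 : x ≤ 1 := by linarith
  have y1 : y ≤ 1 := by linarith
  have η1 : η ≤ 2 := by rw [hη]; nlinarith
  have hv : η * T ≤ 4 := by nlinarith
  have hs := sqrt_low e0 e1 (mul_nonneg η0 T0) hv
  have κ0 : 2 / 5 ≤ κ := by
    have : 0 ≤ x * y := by positivity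
    rw [hκ]
    linarith
  have q0 : 5 / 9 ≤ q := by rw [hq]; linarith
  have q1 : q ≤ 2 / 3 := by rw [hq]; linarith
  have D0 : 43 / 45 ≤ D := by rw [hD]; linarith
  have pc : 0 ≤ 1119 / 1000 * (1 - 5506 / 10000 * e) - D ^ 2 := by
    rw [hD]
    nlinarith [mul_nonneg e0 (sub_nonneg.2 e1)]
  have hK : 0 ≤ κ ^ 2 + 2 * D * q - 2 * κ * q := by
    nlinarith [sq_nonneg (κ - q), mul_nonneg (show 0 ≤ q by linarith)
      (show 0 ≤ 2 * D - q by linarith)]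
  have t1 : 0 ≤ (1119 / 1000 * (1 - 5506 / 10000 * e) - D ^ 2) * (1 - T) ^ 2 := by positivity
  have t2 : 0 ≤ T * ((1 - T) * (2 * (1119 / 1000) * (1 - 5506 / 10000 * e) - D ^ 2
      + 1119 / 2000 * (η * (1 + e / 2)) - 2 * D * κ
      - (κ ^ 2 + 2 * D * q - 2 * κ * q) / 9)) :=
    mul_nonneg T0 (mul_nonneg (by linarith) pA)
  have t3 : 0 ≤ T * (T * (1119 / 1000 * (1 - 5506 / 10000 * e) + 1119 / 2000 * (η * (1 + e / 2))
      - 1119 / 8000 * (η ^ 2 * (1 + 2512 / 1000 * e))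
      - 4 / 9 * (κ ^ 2 + 2 * D * q) - 10 / 9 * (κ * q))) :=
    mul_nonneg T0 (mul_nonneg T0 pB)
  have t4 : 0 ≤ (κ ^ 2 + 2 * D * q - 2 * κ * q) * (T * (T - 1 / 3) ^ 2) := by positivity
  have t5 : 0 ≤ T ^ 4 * (q * (2 * κ - q)) :=
    mul_nonneg (by positivity) (mul_nonneg (by linarith) (by linarith))
  have t6 : 0 ≤ q ^ 2 * T ^ 5 := by positivity
  have key : 1119 / 1000 * (1 - 5506 / 10000 * e + η * T * (1 + e / 2) / 2
      - (η * T) ^ 2 * (1 + 2512 / 1000 * e) / 8) - (1 - T) * (D + κ * T + q * T ^ 2) ^ 2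
      = (1119 / 1000 * (1 - 5506 / 10000 * e) - D ^ 2) * (1 - T) ^ 2
        + T * ((1 - T) * (2 * (1119 / 1000) * (1 - 5506 / 10000 * e) - D ^ 2
      + 1119 / 2000 * (η * (1 + e / 2)) - 2 * D * κ
      - (κ ^ 2 + 2 * D * q - 2 * κ * q) / 9))
        + T * (T * (1119 / 1000 * (1 - 5506 / 10000 * e) + 1119 / 2000 * (η * (1 + e / 2))
      - 1119 / 8000 * (η ^ 2 * (1 + 2512 / 1000 * e))
      - 4 / 9 * (κ ^ 2 + 2 * D * q) - 10 / 9 * (κ * q)))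
        + (κ ^ 2 + 2 * D * q - 2 * κ * q) * (T * (T - 1 / 3) ^ 2)
        + T ^ 4 * (q * (2 * κ - q)) + q ^ 2 * T ^ 5 := by
    ring
  have hs' := mul_le_mul_of_nonneg_left hs (show (0 : ℝ) ≤ 1119 / 1000 by norm_num)
  linarith

/-- **the clipped case** -/
theorem ineq2 {a : ℝ} (h1 : 1 / 2 ≤ a) (h2 : a ≤ 1) {e D q κ T : ℝ}
    (he : e = a * (1 - a)) (hD : D = 1 - 2 / 15 * e) (hq : q = (1 + a) / 3)
    (hκ : κ = (1 + a) / 3 + (2 + 2 * e) / 15) (T0 : 0 ≤ T) :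
    (1 - 5 / 4 * T) * (D + κ * T + q * T ^ 2) ^ 2
      ≤ 1119 / 1000 * (√(1 - e) - a * T ^ 2 / 4) := by
  obtain ⟨K, hK⟩ : ∃ K, K = 5 / 4 * κ ^ 2 + 5 / 2 * D * q - 2 * κ * q := ⟨_, rfl⟩
  obtain ⟨c0, hc0⟩ : ∃ c0, c0 = 1119 / 1000 * (1 - 536 / 1000 * e) - D ^ 2 := ⟨_, rfl⟩
  obtain ⟨d1, hd1⟩ : ∃ d1, d1 = 5 / 4 * D ^ 2 - 2 * D * κ - 9 / 100 * K := ⟨_, rfl⟩
  obtain ⟨d2, hd2⟩ : ∃ d2, d2 = 5 / 2 * D * κ - 1119 / 4000 * a - κ ^ 2 - 2 * D * q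
    + 6 / 10 * K := ⟨_, rfl⟩
  obtain ⟨p0, p2, pd⟩ := polyC h1 h2 he hD hq hκ hK hc0 hd1 hd2
  have e0 : 0 ≤ e := by rw [he]; nlinarith
  have e1 : e ≤ 1 / 4 := by rw [he]; nlinarith [sq_nonneg (a - 1 / 2)]
  have hs := sqrt_chord4 e0 e1
  have κ0 : 1 / 2 ≤ κ := by rw [hκ]; linarith
  have q0 : 1 / 2 ≤ q := by rw [hq]; linarith
  have q1 : q ≤ 2 / 3 := by rw [hq]; linarith
  have D0 : 29 / 30 ≤ D := by rw [hD]; linarith
  have K0 : 0 ≤ K := by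
    rw [hK]
    nlinarith [sq_nonneg (κ - q), mul_nonneg (show 0 ≤ q by linarith)
      (show 0 ≤ 5 / 2 * D - q by linarith), sq_nonneg κ]
  have t1 : 0 ≤ c0 + d1 * T + d2 * T ^ 2 := by
    have : 0 ≤ d2 * (c0 + d1 * T + d2 * T ^ 2) := by nlinarith [sq_nonneg (d1 + 2 * d2 * T)]
    exact nonneg_of_mul_nonneg_right (by linarith) p2
  have t2 : 0 ≤ K * (T * (T - 3 / 10) ^ 2) := by positivity
  have t3 : 0 ≤ T ^ 4 * (q * (5 / 2 * κ - q)) :=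
    mul_nonneg (by positivity) (mul_nonneg (by linarith) (by linarith))
  have t4 : 0 ≤ 5 / 4 * (q ^ 2 * T ^ 5) := by positivity
  have key : 1119 / 1000 * (1 - 536 / 1000 * e - a * T ^ 2 / 4)
      - (1 - 5 / 4 * T) * (D + κ * T + q * T ^ 2) ^ 2
      = (c0 + d1 * T + d2 * T ^ 2) + K * (T * (T - 3 / 10) ^ 2) + T ^ 4 * (q * (5 / 2 * κ - q))
        + 5 / 4 * (q ^ 2 * T ^ 5) := by
    rw [hd1, hd2, hc0, hK]
    ring
  have hs' := mul_le_mul_of_nonneg_left hs (show (0 : ℝ) ≤ 1119 / 1000 by norm_num)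
  linarith

end Pool.Agent.Helper55.TentL
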