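import Pool.Agent.Helper55.MEI.ApexP
import Pool.Agent.Helper55.MEI.TentPoly

/-!
# Lower bound of the apex mass, linear in the sum of the leaks
-/

namespace Pool.Agent.Helper55.TentL

open Set MeasureTheory Matrix Pool.Agent.Helper55.Sx Pool.Agent.Helper55.Mass
open Pool.Agent.Helper55.Apex Pool.Agent.Helper55.Fill Pool.Agent.Helper55.ApexP
open Helper75.MEI2 (vt Qf mu TC nn dd cc)

variable {N : Fin 3 → Fin 3 → ℝ}

/-- the sum of all leaks -/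
def TT (N : Fin 3 → Fin 3 → ℝ) : ℝ := N 0 1 + N 1 0 + (N 0 2 + N 2 0) + (N 1 2 + N 2 1)

/-- the second order part of the determinant -/
def pp (N : Fin 3 → Fin 3 → ℝ) : ℝ := N 0 1 * N 1 0 + N 0 2 * N 2 0 + N 1 2 * N 2 1

/-- the weight of the leak `N j k` in the mean of the form -/
noncomputable def kp (x y : ℝ) : ℝ := (1 + y) / 3 + (1 + x + y + 2 * x * y) / 15

/-- the first order part of the mean of the form -/
noncomputable def K1 (N : Fin 3 → Fin 3 → ℝ) (A : Fin 3 → ℝ) : ℝ :=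
  N 0 1 * kp (A 0) (A 1) + N 1 0 * kp (A 1) (A 0) + N 0 2 * kp (A 0) (A 2)
    + N 2 0 * kp (A 2) (A 0) + N 1 2 * kp (A 1) (A 2) + N 2 1 * kp (A 2) (A 1)

/-- the first order part of the form at the position -/
noncomputable def Y1 (N : Fin 3 → Fin 3 → ℝ) (A : Fin 3 → ℝ) : ℝ :=
  N 0 1 * (A 1 * (1 + A 0)) + N 1 0 * (A 0 * (1 + A 1)) + N 0 2 * (A 2 * (1 + A 0))
    + N 2 0 * (A 0 * (1 + A 2)) + N 1 2 * (A 2 * (1 + A 1)) + N 2 1 * (A 1 * (1 + A 2))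

section
variable (hN : ∀ k m, 0 ≤ N k m)
include hN

theorem TT_nonneg : 0 ≤ TT N := by
  have := hN 0 1
  have := hN 1 0
  have := hN 0 2
  have := hN 2 0
  have := hN 1 2
  have := hN 2 1
  unfold TT
  linarith

theorem pp_nonneg : 0 ≤ pp N := by
  have h1 := mul_nonneg (hN 0 1) (hN 1 0)
  have h2 := mul_nonneg (hN 0 2) (hN 2 0)
  have h3 := mul_nonneg (hN 1 2) (hN 2 1)
  unfold pp
  linarith

theorem pp_le : pp N ≤ TT N ^ 2 / 4 := by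
  have a := hN 0 1
  have b := hN 1 0
  have c := hN 0 2
  have d := hN 2 0
  have e := hN 1 2
  have f := hN 2 1
  have h1 : 0 ≤ (N 0 1 + N 1 0) * (N 0 2 + N 2 0) := by positivity
  have h2 : 0 ≤ (N 0 1 + N 1 0) * (N 1 2 + N 2 1) := by positivity
  have h3 : 0 ≤ (N 0 2 + N 2 0) * (N 1 2 + N 2 1) := by positivity
  unfold pp TT
  nlinarith [sq_nonneg (N 0 1 - N 1 0), sq_nonneg (N 0 2 - N 2 0), sq_nonneg (N 1 2 - N 2 1)]

theorem det_ge (hd : ∀ k, N k k = 0) : 1 - pp N ≤ (PN N).det := by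
  have p1 := mul_nonneg (mul_nonneg (hN 0 1) (hN 1 2)) (hN 2 0)
  have p2 := mul_nonneg (mul_nonneg (hN 0 2) (hN 1 0)) (hN 2 1)
  rw [PN_det hd]
  unfold pp
  linarith

/-- upper bound of the mean of the form -/
theorem cbP_le (hd : ∀ k, N k k = 0) {A : Fin 3 → ℝ} {b : ℝ}
    (hb : ∀ k, A k ≤ b) (hb0 : 0 ≤ b) {e : ℝ} (he : e = A 0 * A 1 + A 0 * A 2 + A 1 * A 2) :
    4 * cbP N A ≤ 1 - 2 / 15 * e + K1 N A + (1 + b) / 3 * TT N ^ 2
      - 2 * ((1 + b) / 3) * pp N := by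
  have n01 := hN 0 1
  have n10 := hN 1 0
  have n02 := hN 0 2
  have n20 := hN 2 0
  have n12 := hN 1 2
  have n21 := hN 2 1
  have q0 : 0 ≤ nc N 0 ^ 2 - N 1 0 * N 2 0 := by
    simp only [nc, hd]
    nlinarith [mul_nonneg n10 n20]
  have q1 : 0 ≤ nc N 1 ^ 2 - N 0 1 * N 2 1 := by
    simp only [nc, hd]
    nlinarith [mul_nonneg n01 n21]
  have q2 : 0 ≤ nc N 2 ^ 2 - N 0 2 * N 1 2 := by
    simp only [nc, hd]
    nlinarith [mul_nonneg n02 n12]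
  have g0 := mul_le_mul_of_nonneg_right (hb 0) q0
  have g1 := mul_le_mul_of_nonneg_right (hb 1) q1
  have g2 := mul_le_mul_of_nonneg_right (hb 2) q2
  have hsum : (nc N 0 ^ 2 - N 1 0 * N 2 0) + (nc N 1 ^ 2 - N 0 1 * N 2 1)
      + (nc N 2 ^ 2 - N 0 2 * N 1 2) ≤ TT N ^ 2 - 2 * pp N := by
    have m1 : 0 ≤ N 0 1 * (N 0 2 + N 2 0 + N 1 2) := by positivity
    have m2 : 0 ≤ N 1 0 * (N 0 2 + N 1 2 + N 2 1) := by positivity
    have m3 : 0 ≤ N 0 2 * (N 2 1) := by positivity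
    have m4 : 0 ≤ N 2 0 * (N 1 2 + N 2 1) := by positivity
    have m5 : 0 ≤ N 0 1 * N 2 1 := by positivity
    have m6 : 0 ≤ N 1 0 * N 2 0 := by positivity
    have m7 : 0 ≤ N 0 2 * N 1 2 := by positivity
    simp only [nc, hd]
    unfold TT pp
    nlinarith
  have hs := mul_le_mul_of_nonneg_left hsum (show 0 ≤ 1 + b by linarith)
  have d0 := hd 0
  have d1 := hd 1
  have d2 := hd 2
  have e1 : 4 * cbP N A = 1 - 2 / 15 * e + K1 N A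
      + ((1 + A 0) * (nc N 0 ^ 2 - N 1 0 * N 2 0) + (1 + A 1) * (nc N 1 ^ 2 - N 0 1 * N 2 1)
        + (1 + A 2) * (nc N 2 ^ 2 - N 0 2 * N 1 2)) / 3 := by
    rw [he]
    simp only [cbP, K1, kp, nc, hd]
    ring
  rw [e1]
  linarith

theorem cbP_pos (hd : ∀ k, N k k = 0) {A : Fin 3 → ℝ} (hA : ∀ k, 0 ≤ A k)
    (hs : A 0 + A 1 + A 2 = 1) : 1 / 5 ≤ cbP N A := by
  have n01 := hN 0 1
  have n10 := hN 1 0
  have n02 := hN 0 2
  have n20 := hN 2 0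
  have n12 := hN 1 2
  have n21 := hN 2 1
  have a0 := hA 0
  have a1 := hA 1
  have a2 := hA 2
  have q0 : 0 ≤ (1 + A 0) * (nc N 0 + nc N 0 ^ 2 - N 1 0 * N 2 0) := by
    refine mul_nonneg (by linarith) ?_
    simp only [nc, hd]
    nlinarith [mul_nonneg n10 n20]
  have q1 : 0 ≤ (1 + A 1) * (nc N 1 + nc N 1 ^ 2 - N 0 1 * N 2 1) := by
    refine mul_nonneg (by linarith) ?_
    simp only [nc, hd]
    nlinarith [mul_nonneg n01 n21]
  have q2 : 0 ≤ (1 + A 2) * (nc N 2 + nc N 2 ^ 2 - N 0 2 * N 1 2) := by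
    refine mul_nonneg (by linarith) ?_
    simp only [nc, hd]
    nlinarith [mul_nonneg n02 n12]
  have r0 : 0 ≤ (N 0 1 + N 1 0) * (1 + A 0 + A 1 + 2 * A 0 * A 1) := by positivity
  have r1 : 0 ≤ (N 0 2 + N 2 0) * (1 + A 0 + A 2 + 2 * A 0 * A 2) := by positivity
  have r2 : 0 ≤ (N 1 2 + N 2 1) * (1 + A 1 + A 2 + 2 * A 1 * A 2) := by positivity
  have he : A 0 * A 1 + A 0 * A 2 + A 1 * A 2 ≤ 1 / 3 := by
    nlinarith [sq_nonneg (A 0 - A 1), sq_nonneg (A 0 - A 2), sq_nonneg (A 1 - A 2)]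
  unfold cbP
  linarith

/-- lower bound of the form at the position -/
theorem Qf_PA_ge (hd : ∀ k, N k k = 0) {A : Fin 3 → ℝ} (hA : ∀ k, 0 ≤ A k)
    (hs : A 0 + A 1 + A 2 = 1) {e : ℝ} (he : e = A 0 * A 1 + A 0 * A 2 + A 1 * A 2) :
    1 - e + Y1 N A ≤ Qf (PN N *ᵥ A) := by
  have l0 := LN_nonneg hN hA 0
  have l1 := LN_nonneg hN hA 1
  have l2 := LN_nonneg hN hA 2
  have h01 := mul_nonneg l0 l1
  have h02 := mul_nonneg l0 l2
  have h12 := mul_nonneg l1 l2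
  have e1 : Qf (PN N *ᵥ A) = 1 - e + Y1 N A
      + (LN N A 0 ^ 2 + LN N A 1 ^ 2 + LN N A 2 ^ 2 + LN N A 0 * LN N A 1
        + LN N A 0 * LN N A 2 + LN N A 1 * LN N A 2) := by
    have c0 := PN_mul (N := N) A 0
    have c1 := PN_mul (N := N) A 1
    have c2 := PN_mul (N := N) A 2
    simp only [Qf, c0, c1, c2]
    rw [he]
    simp only [LN, Y1, hd]
    have hs2 : A 2 = 1 - A 0 - A 1 := by linarith
    rw [hs2]
    ring
  rw [e1]
  nlinarith [sq_nonneg (LN N A 0), sq_nonneg (LN N A 1), sq_nonneg (LN N A 2)]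

end

/-- Cauchy-Schwarz for six weights -/
theorem cs6 {n1 n2 n3 n4 n5 n6 x1 x2 x3 x4 x5 x6 : ℝ} (h1 : 0 ≤ n1) (h2 : 0 ≤ n2)
    (h3 : 0 ≤ n3) (h4 : 0 ≤ n4) (h5 : 0 ≤ n5) (h6 : 0 ≤ n6) :
    (n1 * x1 + n2 * x2 + n3 * x3 + n4 * x4 + n5 * x5 + n6 * x6) ^ 2
      ≤ (n1 + n2 + n3 + n4 + n5 + n6) * (n1 * x1 ^ 2 + n2 * x2 ^ 2 + n3 * x3 ^ 2
        + n4 * x4 ^ 2 + n5 * x5 ^ 2 + n6 * x6 ^ 2) := by
  have e : (n1 + n2 + n3 + n4 + n5 + n6) * (n1 * x1 ^ 2 + n2 * x2 ^ 2 + n3 * x3 ^ 2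
        + n4 * x4 ^ 2 + n5 * x5 ^ 2 + n6 * x6 ^ 2)
      - (n1 * x1 + n2 * x2 + n3 * x3 + n4 * x4 + n5 * x5 + n6 * x6) ^ 2
      = n1 * n2 * (x1 - x2) ^ 2 + n1 * n3 * (x1 - x3) ^ 2 + n1 * n4 * (x1 - x4) ^ 2
        + n1 * n5 * (x1 - x5) ^ 2 + n1 * n6 * (x1 - x6) ^ 2 + n2 * n3 * (x2 - x3) ^ 2
        + n2 * n4 * (x2 - x4) ^ 2 + n2 * n5 * (x2 - x5) ^ 2 + n2 * n6 * (x2 - x6) ^ 2
        + n3 * n4 * (x3 - x4) ^ 2 + n3 * n5 * (x3 - x5) ^ 2 + n3 * n6 * (x3 - x6) ^ 2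
        + n4 * n5 * (x4 - x5) ^ 2 + n4 * n6 * (x4 - x6) ^ 2 + n5 * n6 * (x5 - x6) ^ 2 := by
    ring
  have p : 0 ≤ n1 * n2 * (x1 - x2) ^ 2 + n1 * n3 * (x1 - x3) ^ 2 + n1 * n4 * (x1 - x4) ^ 2
        + n1 * n5 * (x1 - x5) ^ 2 + n1 * n6 * (x1 - x6) ^ 2 + n2 * n3 * (x2 - x3) ^ 2
        + n2 * n4 * (x2 - x4) ^ 2 + n2 * n5 * (x2 - x5) ^ 2 + n2 * n6 * (x2 - x6) ^ 2
        + n3 * n4 * (x3 - x4) ^ 2 + n3 * n5 * (x3 - x5) ^ 2 + n3 * n6 * (x3 - x6) ^ 2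
        + n4 * n5 * (x4 - x5) ^ 2 + n4 * n6 * (x4 - x6) ^ 2 + n5 * n6 * (x5 - x6) ^ 2 := by
    positivity
  linarith

/-- the pair of contact points, in the form used below -/
theorem pair_low {x y z e T : ℝ} (hx : 0 ≤ x) (hy : 0 ≤ y) (hz : 0 ≤ z) (h : x + y + z = 1)
    (he : e = x * y + x * z + y * z) (T0 : 0 ≤ T) (T1 : T ≤ 1) {n : ℝ} (hn : 0 ≤ n) :
    (1 - T) * (n * (1 - 2 / 15 * e + kp x y * T + (2 - e) / 3 * T ^ 2) ^ 2)
      ≤ 1119 / 1000 * (n * √(1 - e + y * (1 + x) * T)) := by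
  have := mul_le_mul_of_nonneg_left
    (ineq1 hx hy hz h he rfl rfl (rfl : kp x y = _) rfl T0 T1) hn
  linarith

/-- **Jensen over the leaks** -/
theorem cone_alpha (hN : ∀ k m, 0 ≤ N k m) {A : Fin 3 → ℝ} (hA : ∀ k, 0 ≤ A k)
    (hs : A 0 + A 1 + A 2 = 1) {e : ℝ} (he : e = A 0 * A 1 + A 0 * A 2 + A 1 * A 2)
    (hT : TT N ≤ 1) :
    (1 - TT N) * (1 - 2 / 15 * e + K1 N A + (2 - e) / 3 * TT N ^ 2) ^ 2
      ≤ 1119 / 1000 * √(1 - e + Y1 N A) := by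
  have T0 := TT_nonneg hN
  have a0 := hA 0
  have a1 := hA 1
  have a2 := hA 2
  have n01 := hN 0 1
  have n10 := hN 1 0
  have n02 := hN 0 2
  have n20 := hN 2 0
  have n12 := hN 1 2
  have n21 := hN 2 1
  rcases T0.eq_or_lt with h0 | h0
  · have hz : N 0 1 = 0 ∧ N 1 0 = 0 ∧ N 0 2 = 0 ∧ N 2 0 = 0 ∧ N 1 2 = 0 ∧ N 2 1 = 0 := by
      unfold TT at h0
      refine ⟨?_, ?_, ?_, ?_, ?_, ?_⟩ <;> linarith
    obtain ⟨z1, z2, z3, z4, z5, z6⟩ := hz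
    have hk : K1 N A = 0 := by simp [K1, z1, z2, z3, z4, z5, z6]
    have hy : Y1 N A = 0 := by simp [Y1, z1, z2, z3, z4, z5, z6]
    have h1 := ineq1 (T := 0) a0 a1 a2 hs he rfl rfl rfl rfl le_rfl zero_le_one
    rw [hk, hy, ← h0]
    simpa using h1
  · set T := TT N with hTd
    have p01 := pair_low a0 a1 a2 hs he T0 hT n01
    have p10 := pair_low (x := A 1) (y := A 0) (z := A 2) (e := e) a1 a0 a2 (by linarith)
      (by rw [he]; ring) T0 hT n10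
    have p02 := pair_low (x := A 0) (y := A 2) (z := A 1) (e := e) a0 a2 a1 (by linarith)
      (by rw [he]; ring) T0 hT n02
    have p20 := pair_low (x := A 2) (y := A 0) (z := A 1) (e := e) a2 a0 a1 (by linarith)
      (by rw [he]; ring) T0 hT n20
    have p12 := pair_low (x := A 1) (y := A 2) (z := A 0) (e := e) a1 a2 a0 (by linarith)
      (by rw [he]; ring) T0 hT n12
    have p21 := pair_low (x := A 2) (y := A 1) (z := A 0) (e := e) a2 a1 a0 (by linarith)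
      (by rw [he]; ring) T0 hT n21
    set E : ℝ → ℝ → ℝ := fun x y => 1 - 2 / 15 * e + kp x y * T + (2 - e) / 3 * T ^ 2 with hE
    set r : ℝ → ℝ → ℝ := fun x y => √(1 - e + y * (1 + x) * T) with hr
    have e1 : e ≤ 1 / 3 := by
      rw [he]
      nlinarith [sq_nonneg (A 0 - A 1), sq_nonneg (A 0 - A 2), sq_nonneg (A 1 - A 2)]
    have c1 := cs6 (x1 := E (A 0) (A 1)) (x2 := E (A 1) (A 0)) (x3 := E (A 0) (A 2))
      (x4 := E (A 2) (A 0)) (x5 := E (A 1) (A 2)) (x6 := E (A 2) (A 1)) n01 n10 n02 n20 n12 n21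
    have c2 := cs6 (x1 := r (A 0) (A 1)) (x2 := r (A 1) (A 0)) (x3 := r (A 0) (A 2))
      (x4 := r (A 2) (A 0)) (x5 := r (A 1) (A 2)) (x6 := r (A 2) (A 1)) n01 n10 n02 n20 n12 n21
    have hTs : N 0 1 + N 1 0 + N 0 2 + N 2 0 + N 1 2 + N 2 1 = T := by
      rw [hTd]; unfold TT; ring
    rw [hTs] at c1 c2
    have s1 : N 0 1 * E (A 0) (A 1) + N 1 0 * E (A 1) (A 0) + N 0 2 * E (A 0) (A 2)
        + N 2 0 * E (A 2) (A 0) + N 1 2 * E (A 1) (A 2) + N 2 1 * E (A 2) (A 1)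
        = T * (1 - 2 / 15 * e + K1 N A + (2 - e) / 3 * T ^ 2) := by
      have hT2 : T = N 0 1 + N 1 0 + N 0 2 + N 2 0 + N 1 2 + N 2 1 := hTs.symm
      have : N 0 1 * E (A 0) (A 1) + N 1 0 * E (A 1) (A 0) + N 0 2 * E (A 0) (A 2)
        + N 2 0 * E (A 2) (A 0) + N 1 2 * E (A 1) (A 2) + N 2 1 * E (A 2) (A 1)
        = (N 0 1 + N 1 0 + N 0 2 + N 2 0 + N 1 2 + N 2 1) *
          (1 - 2 / 15 * e + (2 - e) / 3 * T ^ 2) + T * K1 N A := by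
        simp only [hE, K1]
        ring
      rw [this, hTs]
      ring
    have sq : ∀ x y : ℝ, 0 ≤ x → 0 ≤ y → r x y ^ 2 = 1 - e + y * (1 + x) * T := by
      intro x y hx hy
      simp only [hr]
      refine Real.sq_sqrt ?_
      have : 0 ≤ y * (1 + x) * T := by positivity
      linarith
    have s2 : N 0 1 * r (A 0) (A 1) ^ 2 + N 1 0 * r (A 1) (A 0) ^ 2 + N 0 2 * r (A 0) (A 2) ^ 2
        + N 2 0 * r (A 2) (A 0) ^ 2 + N 1 2 * r (A 1) (A 2) ^ 2 + N 2 1 * r (A 2) (A 1) ^ 2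
        = T * (1 - e + Y1 N A) := by
      rw [sq _ _ a0 a1, sq _ _ a1 a0, sq _ _ a0 a2, sq _ _ a2 a0, sq _ _ a1 a2, sq _ _ a2 a1]
      have : N 0 1 * (1 - e + A 1 * (1 + A 0) * T) + N 1 0 * (1 - e + A 0 * (1 + A 1) * T)
          + N 0 2 * (1 - e + A 2 * (1 + A 0) * T) + N 2 0 * (1 - e + A 0 * (1 + A 2) * T)
          + N 1 2 * (1 - e + A 2 * (1 + A 1) * T) + N 2 1 * (1 - e + A 1 * (1 + A 2) * T)
          = (N 0 1 + N 1 0 + N 0 2 + N 2 0 + N 1 2 + N 2 1) * (1 - e) + T * Y1 N A := by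
        simp only [Y1]
        ring
      rw [this, hTs]
      ring
    rw [s1] at c1
    rw [s2] at c2
    set Sr := N 0 1 * r (A 0) (A 1) + N 1 0 * r (A 1) (A 0) + N 0 2 * r (A 0) (A 2)
        + N 2 0 * r (A 2) (A 0) + N 1 2 * r (A 1) (A 2) + N 2 1 * r (A 2) (A 1) with hSr
    set SE := N 0 1 * E (A 0) (A 1) ^ 2 + N 1 0 * E (A 1) (A 0) ^ 2 + N 0 2 * E (A 0) (A 2) ^ 2
        + N 2 0 * E (A 2) (A 0) ^ 2 + N 1 2 * E (A 1) (A 2) ^ 2 + N 2 1 * E (A 2) (A 1) ^ 2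
      with hSE
    set G := 1 - 2 / 15 * e + K1 N A + (2 - e) / 3 * T ^ 2
    have hsum : (1 - T) * SE ≤ 1119 / 1000 * Sr := by
      rw [hSE, hSr]
      simp only [hE, hr]
      linarith
    have hTG : T * G ^ 2 ≤ SE := by
      have : T * (T * G ^ 2) ≤ T * SE := by
        calc T * (T * G ^ 2) = (T * G) ^ 2 := by ring
          _ ≤ T * SE := c1
      exact le_of_mul_le_mul_left this h0
    have hF0 : 0 ≤ 1 - e + Y1 N A := by
      have : 0 ≤ Y1 N A := by unfold Y1; positivity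
      linarith
    have hSr2 : Sr ≤ T * √(1 - e + Y1 N A) := by
      have h2 : Sr ^ 2 ≤ (T * √(1 - e + Y1 N A)) ^ 2 := by
        rw [mul_pow, Real.sq_sqrt hF0]
        calc Sr ^ 2 ≤ T * (T * (1 - e + Y1 N A)) := c2
          _ = T ^ 2 * (1 - e + Y1 N A) := by ring
      exact le_of_sq_le_sq h2 (by positivity)
    have h1T : 0 ≤ 1 - T := by linarith
    have g1 := mul_le_mul_of_nonneg_left hTG h1T
    have : T * ((1 - T) * G ^ 2) ≤ T * (1119 / 1000 * √(1 - e + Y1 N A)) := by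
      calc T * ((1 - T) * G ^ 2) = (1 - T) * (T * G ^ 2) := by ring
        _ ≤ (1 - T) * SE := g1
        _ ≤ 1119 / 1000 * Sr := hsum
        _ ≤ 1119 / 1000 * (T * √(1 - e + Y1 N A)) :=
          mul_le_mul_of_nonneg_left hSr2 (by norm_num)
        _ = T * (1119 / 1000 * √(1 - e + Y1 N A)) := by ring
    exact le_of_mul_le_mul_left this h0

end Pool.Agent.Helper55.TentL
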