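import Pool.Agent.Helper55.MEI.Tent1

/-!
# Lower bound of the apex mass: cone case and clipped case
-/

namespace Pool.Agent.Helper55.TentL

open Set MeasureTheory Matrix Pool.Agent.Helper55.Sx Pool.Agent.Helper55.Mass
open Pool.Agent.Helper55.Apex Pool.Agent.Helper55.Fill Pool.Agent.Helper55.ApexP
open Helper75.MEI2 (vt Qf mu TC nn dd cc)

variable {N : Fin 3 → Fin 3 → ℝ}

theorem pi_step {E q p T : ℝ} (hp0 : 0 ≤ p) (hp : p ≤ T ^ 2 / 4)
    (hq : q ^ 2 * T ^ 2 ≤ E * (4 * q - E)) : (E - 2 * q * p) ^ 2 ≤ (1 - p) * E ^ 2 := by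
  have h1 : 4 * q ^ 2 * p ≤ q ^ 2 * T ^ 2 := by nlinarith [sq_nonneg q]
  have h2 : 0 ≤ p * (E * (4 * q - E) - 4 * q ^ 2 * p) := mul_nonneg hp0 (by linarith)
  nlinarith

/-- the weights of the leaks are bounded -/
theorem K1_bounds (hN : ∀ k m, 0 ≤ N k m) {A : Fin 3 → ℝ} {lo hi : ℝ}
    (h : ∀ j k, j ≠ k → lo ≤ kp (A j) (A k) ∧ kp (A j) (A k) ≤ hi) :
    lo * TT N ≤ K1 N A ∧ K1 N A ≤ hi * TT N := by
  have g : ∀ j k, j ≠ k → N j k * lo ≤ N j k * kp (A j) (A k) ∧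
      N j k * kp (A j) (A k) ≤ N j k * hi := fun j k hjk =>
    ⟨mul_le_mul_of_nonneg_left (h j k hjk).1 (hN j k),
      mul_le_mul_of_nonneg_left (h j k hjk).2 (hN j k)⟩
  have g01 := g 0 1 (by decide)
  have g10 := g 1 0 (by decide)
  have g02 := g 0 2 (by decide)
  have g20 := g 2 0 (by decide)
  have g12 := g 1 2 (by decide)
  have g21 := g 2 1 (by decide)
  unfold K1 TT
  constructor
  · linarith [g01.1, g10.1, g02.1, g20.1, g12.1, g21.1]
  · linarith [g01.2, g10.2, g02.2, g20.2, g12.2, g21.2]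

/-- two coordinates of a point of the simplex -/
theorem two_coord {A : Fin 3 → ℝ} (hA : ∀ k, 0 ≤ A k) (hs : A 0 + A 1 + A 2 = 1) {e : ℝ}
    (he : e = A 0 * A 1 + A 0 * A 2 + A 1 * A 2) {j k : Fin 3} (hjk : j ≠ k) :
    A j + A k ≤ 1 ∧ A j * A k ≤ e ∧ A k ≤ 1 - e ∧ A j * A k ≤ 1 / 4 := by
  have a0 := hA 0
  have a1 := hA 1
  have a2 := hA 2
  have m01 := mul_nonneg a0 a1
  have m02 := mul_nonneg a0 a2
  have m12 := mul_nonneg a1 a2
  have key : ∀ x y z : ℝ, 0 ≤ x → 0 ≤ y → 0 ≤ z → x + y + z = 1 → e = x * y + x * z + y * z →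
      x + y ≤ 1 ∧ x * y ≤ e ∧ y ≤ 1 - e ∧ x * y ≤ 1 / 4 := by
    intro x y z hx hy hz h h'
    have hz' : z = 1 - x - y := by linarith
    refine ⟨by linarith, ?_, ?_, ?_⟩
    · rw [h']
      nlinarith [mul_nonneg hx hz, mul_nonneg hy hz]
    · rw [h', hz']
      rw [hz'] at hz
      nlinarith [sq_nonneg (2 * x - (1 - y)), sq_nonneg (1 - y)]
    · nlinarith [sq_nonneg (x - y)]
  fin_cases j <;> fin_cases k
  · exact absurd rfl hjk
  · exact key (A 0) (A 1) (A 2) a0 a1 a2 hs (by rw [he])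
  · exact key (A 0) (A 2) (A 1) a0 a2 a1 (by linarith) (by rw [he]; ring)
  · exact key (A 1) (A 0) (A 2) a1 a0 a2 (by linarith) (by rw [he]; ring)
  · exact absurd rfl hjk
  · exact key (A 1) (A 2) (A 0) a1 a2 a0 (by linarith) (by rw [he]; ring)
  · exact key (A 2) (A 0) (A 1) a2 a0 a1 (by linarith) (by rw [he]; ring)
  · exact key (A 2) (A 1) (A 0) a2 a1 a0 (by linarith) (by rw [he]; ring)
  · exact absurd rfl hjk

theorem last_num {T e : ℝ} (h0 : 17 / 20 ≤ T) (h1 : T ≤ 1) (e0 : 0 ≤ e) (e1 : e ≤ 1 / 3) :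
    (1 - T) * (1 - 2 / 15 * e + ((2 - e) / 3 + 1 / 6) * T + (2 - e) / 3 * T ^ 2) ^ 2
      ≤ 3 / 4 * (1119 / 1000 * (1 - 5506 / 10000 * e)) := by
  obtain ⟨t, ht⟩ : ∃ t, t = 1 - T := ⟨_, rfl⟩
  have t0 : 0 ≤ t := by linarith
  have t1 : t ≤ 3 / 20 := by linarith
  have hT : T = 1 - t := by linarith
  have p1 : 0 ≤ (2 - e) / 3 := by linarith
  have te := mul_nonneg t0 e0
  have hE : 1 - 2 / 15 * e + ((2 - e) / 3 + 1 / 6) * T + (2 - e) / 3 * T ^ 2
      ≤ (5 / 2 - 103 / 50 * t) * (1 - 28 / 100 * e) := by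
    rw [hT]
    nlinarith [mul_nonneg t0 (sub_nonneg.2 t1), mul_nonneg te (sub_nonneg.2 t1),
      mul_nonneg e0 (sub_nonneg.2 t1)]
  have hE0 : 0 ≤ 1 - 2 / 15 * e + ((2 - e) / 3 + 1 / 6) * T + (2 - e) / 3 * T ^ 2 := by
    have q1 := mul_nonneg (show 0 ≤ (2 - e) / 3 + 1 / 6 by linarith) (show 0 ≤ T by linarith)
    have q2 := mul_nonneg p1 (sq_nonneg T)
    linarith
  have hsq := pow_le_pow_left₀ hE0 hE 2
  have hs := mul_le_mul_of_nonneg_left hsq (show 0 ≤ 1 - T by linarith)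
  have n1 : t * (5 / 2 - 103 / 50 * t) ^ 2 ≤ 73 / 100 := by
    nlinarith [mul_nonneg t0 (sub_nonneg.2 t1), mul_nonneg t0 t0,
      mul_nonneg (mul_nonneg t0 t0) (sub_nonneg.2 t1),
      mul_nonneg (sub_nonneg.2 t1) (sub_nonneg.2 t1)]
  have n2 := mul_le_mul_of_nonneg_right n1 (sq_nonneg (1 - 28 / 100 * e))
  have n3 : 73 / 100 * (1 - 28 / 100 * e) ^ 2 ≤ 3 / 4 * (1119 / 1000 * (1 - 5506 / 10000 * e)) := by
    nlinarith [mul_nonneg e0 (sub_nonneg.2 e1)]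
  refine hs.trans (le_trans (le_of_eq ?_) (n2.trans n3))
  rw [ht]
  ring

section
variable (hN : ∀ k m, 0 ≤ N k m) (hd : ∀ k, N k k = 0)
include hN hd

/-- **the apex mass in the cone of the contact points** -/
theorem cone_core {A : Fin 3 → ℝ} (hA : ∀ k, 0 ≤ A k) (hs : A 0 + A 1 + A 2 = 1)
    (hT : TT N ≤ 1) :
    (1 - TT N) * (4 * cbP N A) ^ 2
      ≤ 1119 / 1000 * ((PN N).det * √(Qf (PN N *ᵥ A))) := by
  obtain ⟨e, he⟩ : ∃ e, e = A 0 * A 1 + A 0 * A 2 + A 1 * A 2 := ⟨_, rfl⟩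
  have T0 := TT_nonneg hN
  have p0 := pp_nonneg hN
  have p4 := pp_le hN
  have hdet := det_ge hN hd
  have hc := cbP_pos hN hd hA hs
  have a0 := hA 0
  have a1 := hA 1
  have a2 := hA 2
  have e0 : 0 ≤ e := by rw [he]; positivity
  have e1 : e ≤ 1 / 3 := by
    rw [he]
    nlinarith [sq_nonneg (A 0 - A 1), sq_nonneg (A 0 - A 2), sq_nonneg (A 1 - A 2)]
  have hb : ∀ k, A k ≤ 1 - e := fun k => by
    obtain ⟨j, hj⟩ : ∃ j : Fin 3, j ≠ k := ⟨k + 1, by fin_cases k <;> decide⟩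
    exact (two_coord hA hs he hj).2.2.1
  have hC := cbP_le hN hd hb (by linarith) he
  have eq1 : (1 + (1 - e)) / 3 = (2 - e) / 3 := by ring
  rw [eq1] at hC
  obtain ⟨q, hq⟩ : ∃ q, q = (2 - e) / 3 := ⟨_, rfl⟩
  rw [← hq] at hC
  have q0 : 5 / 9 ≤ q := by linarith
  have q1 : q ≤ 2 / 3 := by linarith
  obtain ⟨k0, k1⟩ := K1_bounds hN (A := A) (lo := 2 / 5) (hi := q + 1 / 6) fun j k hjk => by
    obtain ⟨c1, c2, c3, c4⟩ := two_coord hA hs he hjk
    have c5 := mul_nonneg (hA j) (hA k)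
    have c6 := hA j
    have c7 := hA k
    unfold kp
    rw [hq]
    constructor
    · linarith
    · linarith
  have hF := Qf_PA_ge hN hd hA hs he
  have hY : 0 ≤ Y1 N A := by
    have := hN 0 1
    have := hN 1 0
    have := hN 0 2
    have := hN 2 0
    have := hN 1 2
    have := hN 2 1
    unfold Y1
    positivity
  set T := TT N with hTd
  set E := 1 - 2 / 15 * e + K1 N A + q * T ^ 2 with hE
  have hCE : 4 * cbP N A ≤ E - 2 * q * pp N := by linarith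
  have h1T : 0 ≤ 1 - T := by linarith
  have hrt : √(1 - e + Y1 N A) ≤ √(Qf (PN N *ᵥ A)) := Real.sqrt_le_sqrt hF
  have r0 := Real.sqrt_nonneg (Qf (PN N *ᵥ A))
  have hpT : pp N ≤ 1 / 4 := by nlinarith
  have hC2 : (4 * cbP N A) ^ 2 ≤ (E - 2 * q * pp N) ^ 2 :=
    pow_le_pow_left₀ (by linarith) hCE 2
  rcases le_total T (17 / 20) with hT1 | hT1
  · have hal := cone_alpha hN hA hs he hT
    rw [← hTd, ← hq] at hal
    have hT2 : T ^ 2 ≤ 289 / 400 := by nlinarith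
    have hqT := mul_le_mul_of_nonneg_left hT2 (show 0 ≤ q by linarith)
    have hqT1 := mul_le_mul_of_nonneg_left hT1 (show 0 ≤ q by linarith)
    have h3 : 3 * q * T ≤ E := by
      have g1 : 0 ≤ (1 - 2 / 15 * e) - (3 * q - 2 / 5) * T + q * T ^ 2 := by
        have g2 : 43 / 45 ≤ 1 - 2 / 15 * e := by linarith
        nlinarith [sq_nonneg (T - 1), mul_nonneg (sub_nonneg.2 q1) T0,
          mul_nonneg (sub_nonneg.2 q0) (sq_nonneg T), sq_nonneg (T - 9 / 10)]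
      linarith
    have h4 : 3 * E + q * T ≤ 12 * q := by
      have g1 := mul_le_mul_of_nonneg_left hT1 (show 0 ≤ q + 1 / 6 by linarith)
      rw [hE]
      linarith
    have hpi : q ^ 2 * T ^ 2 ≤ E * (4 * q - E) := by
      have g1 : q * T / 3 ≤ 4 * q - E := by linarith
      have g2 : 0 ≤ q * T := mul_nonneg (by linarith) T0
      have g3 := mul_le_mul h3 g1 (by positivity) (by linarith)
      nlinarith
    have h5 := pi_step p0 p4 hpi
    have h6 := mul_le_mul_of_nonneg_left (hC2.trans h5) h1T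
    have h7 := mul_le_mul_of_nonneg_left hal (show 0 ≤ 1 - pp N by linarith)
    have h8 : 0 ≤ √(1 - e + Y1 N A) := Real.sqrt_nonneg _
    calc (1 - T) * (4 * cbP N A) ^ 2 ≤ (1 - T) * ((1 - pp N) * E ^ 2) := h6
      _ = (1 - pp N) * ((1 - T) * E ^ 2) := by ring
      _ ≤ (1 - pp N) * (1119 / 1000 * √(1 - e + Y1 N A)) := h7
      _ = 1119 / 1000 * ((1 - pp N) * √(1 - e + Y1 N A)) := by ring
      _ ≤ 1119 / 1000 * ((PN N).det * √(Qf (PN N *ᵥ A))) :=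
        mul_le_mul_of_nonneg_left (mul_le_mul hdet hrt h8 (by linarith)) (by norm_num)
  · have hEE : E ≤ 1 - 2 / 15 * e + ((2 - e) / 3 + 1 / 6) * T + (2 - e) / 3 * T ^ 2 := by
      rw [hE, ← hq]
      linarith
    have hE0 : 4 * cbP N A ≤ E := by
      have := mul_nonneg (show 0 ≤ 2 * q by linarith) p0
      linarith
    have h2 := pow_le_pow_left₀ (by linarith) (hE0.trans hEE) 2
    have h3 := mul_le_mul_of_nonneg_left h2 h1T
    have h4 := last_num hT1 hT e0 e1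
    have h5 := sqrt_chord3 e0 e1
    have h6 : √(1 - e) ≤ √(Qf (PN N *ᵥ A)) := Real.sqrt_le_sqrt (by linarith)
    have h7 : 3 / 4 * (1 - 5506 / 10000 * e) ≤ (PN N).det * √(Qf (PN N *ᵥ A)) :=
      mul_le_mul (by linarith) (h5.trans h6) (by linarith) (by linarith)
    linarith

/-- **the apex mass, clipped position** -/
theorem clip_core {A : Fin 3 → ℝ} (hA : ∀ k, 0 ≤ A k) (hs : A 0 + A 1 + A 2 = 1) {a e : ℝ}
    (ha1 : 1 / 2 ≤ a) (ha2 : a ≤ 1) (hb : ∀ k, A k ≤ a)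
    (he : e = A 0 * A 1 + A 0 * A 2 + A 1 * A 2) (hea : e = a * (1 - a)) (hT : TT N ≤ 4 / 5) :
    (1 - 5 / 4 * TT N) * (4 * cbP N A) ^ 2
      ≤ 1119 / 1000 * ((PN N).det * (√(1 - e) - a * TT N ^ 2 / 4)) := by
  have T0 := TT_nonneg hN
  have p0 := pp_nonneg hN
  have p4 := pp_le hN
  have hdet := det_ge hN hd
  have hc := cbP_pos hN hd hA hs
  have a0 := hA 0
  have a1 := hA 1
  have a2 := hA 2
  have e0 : 0 ≤ e := by rw [he]; positivity
  have e1 : e ≤ 1 / 4 := by rw [hea]; nlinarith [sq_nonneg (a - 1 / 2)]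
  have hC := cbP_le hN hd hb (by linarith) he
  obtain ⟨q, hq⟩ : ∃ q, q = (1 + a) / 3 := ⟨_, rfl⟩
  obtain ⟨κ, hκ⟩ : ∃ κ, κ = (1 + a) / 3 + (2 + 2 * e) / 15 := ⟨_, rfl⟩
  rw [← hq] at hC
  have q0 : 1 / 2 ≤ q := by linarith
  have q1 : q ≤ 2 / 3 := by linarith
  have hκq : κ = q + (2 + 2 * e) / 15 := by rw [hκ, hq]
  obtain ⟨k0, k1⟩ := K1_bounds hN (A := A) (lo := 2 / 5) (hi := κ) fun j k hjk => by
    obtain ⟨c1, c2, c3, c4⟩ := two_coord hA hs he hjk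
    have c5 := mul_nonneg (hA j) (hA k)
    have c6 := hA j
    have c7 := hA k
    have c8 := hb k
    unfold kp
    rw [hκ]
    constructor
    · linarith
    · linarith
  have hal := ineq2 ha1 ha2 hea (rfl : 1 - 2 / 15 * e = _) hq hκ T0
  set T := TT N with hTd
  set E := 1 - 2 / 15 * e + κ * T + q * T ^ 2 with hE
  have hCE : 4 * cbP N A ≤ E - 2 * q * pp N := by linarith
  have h1T : 0 ≤ 1 - 5 / 4 * T := by linarith
  have hpT : pp N ≤ 1 / 4 := by nlinarith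
  have hC2 : (4 * cbP N A) ^ 2 ≤ (E - 2 * q * pp N) ^ 2 :=
    pow_le_pow_left₀ (by linarith) hCE 2
  have hT2 : T ^ 2 ≤ 16 / 25 := by nlinarith
  have hqT := mul_le_mul_of_nonneg_left hT2 (show 0 ≤ q by linarith)
  have hqT1 := mul_le_mul_of_nonneg_left hT (show 0 ≤ q by linarith)
  have h3 : 3 * q * T ≤ E := by
    have g1 : 0 ≤ 29 / 30 - (2 * q - 2 / 15) * T + q * T ^ 2 := by
      nlinarith [mul_nonneg (sub_nonneg.2 q1) T0, mul_nonneg (sub_nonneg.2 q0) (sq_nonneg T),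
        mul_nonneg (mul_nonneg (sub_nonneg.2 q1) T0) (sub_nonneg.2 hT),
        mul_nonneg T0 (sub_nonneg.2 hT)]
    have g2 := mul_nonneg e0 T0
    rw [hE, hκq]
    linarith
  have h4 : 3 * E + q * T ≤ 12 * q := by
    have g1 := mul_le_mul_of_nonneg_left hT (show 0 ≤ κ by rw [hκq]; linarith)
    have g2 : 3 / 2 * (1 - 2 / 15 * e) + 6 / 5 * κ + 136 / 100 * q ≤ 6 * q := by
      have : 3 * e ≤ 3 * (1 / 4) := by linarith
      have g3 : q = (1 + a) / 3 := hq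
      have g4 : e ≤ 1 / 4 - (a - 1 / 2) ^ 2 := by rw [hea]; nlinarith
      rw [hκq]
      nlinarith
    rw [hE]
    linarith
  have hpi : q ^ 2 * T ^ 2 ≤ E * (4 * q - E) := by
    have g1 : q * T / 3 ≤ 4 * q - E := by linarith
    have g2 : 0 ≤ q * T := mul_nonneg (by linarith) T0
    have g3 := mul_le_mul h3 g1 (by positivity) (by linarith)
    nlinarith
  have h5 := pi_step p0 p4 hpi
  have h6 := mul_le_mul_of_nonneg_left (hC2.trans h5) h1T
  have h7 := mul_le_mul_of_nonneg_left hal (show 0 ≤ 1 - pp N by linarith)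
  have h8 : 0 ≤ √(1 - e) - a * T ^ 2 / 4 := by
    have : 0 ≤ (1 - 5 / 4 * T) * E ^ 2 := by positivity
    linarith
  calc (1 - 5 / 4 * T) * (4 * cbP N A) ^ 2 ≤ (1 - 5 / 4 * T) * ((1 - pp N) * E ^ 2) := h6
    _ = (1 - pp N) * ((1 - 5 / 4 * T) * E ^ 2) := by ring
    _ ≤ (1 - pp N) * (1119 / 1000 * (√(1 - e) - a * T ^ 2 / 4)) := h7
    _ = 1119 / 1000 * ((1 - pp N) * (√(1 - e) - a * T ^ 2 / 4)) := by ring
    _ ≤ 1119 / 1000 * ((PN N).det * (√(1 - e) - a * T ^ 2 / 4)) :=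
      mul_le_mul_of_nonneg_left (mul_le_mul_of_nonneg_right hdet h8) (by norm_num)

end

end Pool.Agent.Helper55.TentL
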