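import Pool.Agent.Helper55.MEI.Tent3

/-!
# Product form of the apex mass
-/

namespace Pool.Agent.Helper55.TentL

open Set MeasureTheory Matrix Pool.Agent.Helper55.Sx Pool.Agent.Helper55.Mass
open Pool.Agent.Helper55.Apex Pool.Agent.Helper55.Fill Pool.Agent.Helper55.ApexP
open Helper75.MEI2 (vt Qf mu TC nn dd cc)

variable {N : Fin 3 → Fin 3 → ℝ}

/-- mixing two distributions of one column (Hoelder) -/
theorem mix1 {M P w C0 C1 D0 D1 W0 W1 C D W : ℝ} (hM : 0 ≤ M) (hP : 0 ≤ P) (w0 : 0 ≤ w)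
    (w1 : w ≤ 1) (_hC0 : 0 ≤ C0) (_hC1 : 0 ≤ C1) (hD0 : 0 ≤ D0) (hD1 : 0 ≤ D1) (hW0 : 0 ≤ W0)
    (hW1 : 0 ≤ W1) (eC : C = (1 - w) * C0 + w * C1) (eD : (1 - w) * D0 + w * D1 ≤ D)
    (eW : (1 - w) * W0 + w * W1 ≤ W) (h0 : P * C0 ^ 2 ≤ M * (D0 * W0))
    (h1 : P * C1 ^ 2 ≤ M * (D1 * W1)) : P * C ^ 2 ≤ M * (D * W) := by
  have v0 : 0 ≤ 1 - w := by linarith
  have hx : P * C0 * C1 * 2 ≤ M * (D0 * W1 + D1 * W0) := by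
    have p1 : 0 ≤ M * (D0 * W1 + D1 * W0) := by positivity
    have p2 : (P * C0 ^ 2) * (P * C1 ^ 2) ≤ (M * (D0 * W0)) * (M * (D1 * W1)) :=
      mul_le_mul h0 h1 (by positivity) (by positivity)
    have p3 : (P * C0 * C1 * 2) ^ 2 ≤ (M * (D0 * W1 + D1 * W0)) ^ 2 := by
      nlinarith [sq_nonneg (M * (D0 * W1 - D1 * W0))]
    exact le_of_sq_le_sq p3 p1
  have k1 : P * C ^ 2 ≤ M * (((1 - w) * D0 + w * D1) * ((1 - w) * W0 + w * W1)) := by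
    have a0 := mul_le_mul_of_nonneg_left h0 (mul_nonneg v0 v0)
    have a1 := mul_le_mul_of_nonneg_left h1 (mul_nonneg w0 w0)
    have a2 := mul_le_mul_of_nonneg_left hx (mul_nonneg v0 w0)
    rw [eC]
    nlinarith
  have q0 : 0 ≤ (1 - w) * D0 + w * D1 := by positivity
  have q1 : 0 ≤ (1 - w) * W0 + w * W1 := by positivity
  exact k1.trans (mul_le_mul_of_nonneg_left (mul_le_mul eD eW q1 (q0.trans eD)) hM)

theorem sqrt_mix {w F0 F1 : ℝ} (w0 : 0 ≤ w) (w1 : w ≤ 1) (h0 : 0 ≤ F0) (h1 : 0 ≤ F1) :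
    (1 - w) * √F0 + w * √F1 ≤ √((1 - w) * F0 + w * F1) := by
  have v0 : 0 ≤ 1 - w := by linarith
  refine Real.le_sqrt_of_sq_le ?_
  have s0 := Real.sq_sqrt h0
  have s1 := Real.sq_sqrt h1
  nlinarith [mul_nonneg (mul_nonneg v0 w0) (sq_nonneg (√F0 - √F1))]

/-- better lower bound of the square root for large arguments -/
theorem sqrt_low2 {e v : ℝ} (e0 : 0 ≤ e) (e1 : e ≤ 1 / 3) (v0 : 0 ≤ v) (v1 : v ≤ 2) :
    1 - 5506 / 10000 * e + 485 / 1000 * (v * (1 + e / 2))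
      - 85 / 1000 * (v ^ 2 * (1 + 2512 / 1000 * e)) ≤ √(1 - e + v) := by
  obtain ⟨h1, h2, h3⟩ := s_bounds e0 e1
  have h4 := sqrt_chord3 e0 e1
  set s := √(1 - e)
  have s0 : 0 < s := by linarith
  obtain ⟨i, hi⟩ : ∃ i, i = 1 / s := ⟨_, rfl⟩
  have hsi : s * i = 1 := by rw [hi]; field_simp
  have i0 : 0 < i := by rw [hi]; positivity
  have ee : e = 1 - s ^ 2 := by linarith
  have b1 : (1 + e / 2) ≤ i := by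
    have : s * (1 + e / 2) ≤ s * i := by
      rw [hsi, ee]
      nlinarith [mul_nonneg (sq_nonneg (1 - s)) (show 0 ≤ s + 2 by linarith)]
    exact le_of_mul_le_mul_left this s0
  have b2 : i ^ 3 ≤ 1 + 2512 / 1000 * e := by
    have k1 : 0 ≤ 2512 / 1000 * s ^ 4 + 2512 / 1000 * s ^ 3 - s ^ 2 - s - 1 := by
      have t0 : 0 ≤ s - 81649 / 100000 := by linarith
      obtain ⟨d, hd⟩ : ∃ d, d = s - 81649 / 100000 := ⟨_, rfl⟩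
      have hs : s = 81649 / 100000 + d := by rw [hd]; ring
      rw [← hd] at t0
      rw [hs]
      nlinarith [mul_nonneg t0 t0, mul_nonneg (mul_nonneg t0 t0) t0,
        mul_nonneg (mul_nonneg (mul_nonneg t0 t0) t0) t0]
    have k2 : 0 ≤ (1 - s) * (2512 / 1000 * s ^ 4 + 2512 / 1000 * s ^ 3 - s ^ 2 - s - 1) :=
      mul_nonneg (by linarith) k1
    have k3 : s ^ 3 * i ^ 3 = 1 := by rw [← mul_pow, hsi, one_pow]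
    have : s ^ 3 * i ^ 3 ≤ s ^ 3 * (1 + 2512 / 1000 * e) := by
      rw [k3, ee]
      nlinarith
    exact le_of_mul_le_mul_left this (by positivity)
  have b3 : i ^ 2 ≤ 2 := by
    have k3 : s ^ 2 * i ^ 2 = 1 := by rw [← mul_pow, hsi, one_pow]
    have : s ^ 2 * i ^ 2 ≤ s ^ 2 * 2 := by
      rw [k3]
      nlinarith
    exact le_of_mul_le_mul_left this (by positivity)
  obtain ⟨w, hw⟩ : ∃ w, w = v * i ^ 2 := ⟨_, rfl⟩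
  have w0 : 0 ≤ w := by rw [hw]; positivity
  have w4 : w ≤ 4 := by rw [hw]; nlinarith [sq_nonneg i]
  have hvw : v = w * s ^ 2 := by
    rw [hw]
    have : i ^ 2 * s ^ 2 = 1 := by rw [← mul_pow, mul_comm i s, hsi, one_pow]
    linear_combination -v * this
  have hR : (s * (1 + 485 / 1000 * w - 85 / 1000 * w ^ 2)) ^ 2 ≤ 1 - e + v := by
    rw [hvw, show (1 : ℝ) - e = s ^ 2 by linarith]
    have key : (1 + 485 / 1000 * w - 85 / 1000 * w ^ 2) ^ 2 ≤ 1 + w := by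
      have : 0 ≤ w * (3 / 100 - 65225 / 1000000 * w + 8245 / 100000 * w ^ 2
          - 7225 / 1000000 * w ^ 3) := by
        refine mul_nonneg w0 ?_
        have k1 : 7225 / 1000000 * w ^ 3 ≤ 289 / 10000 * w ^ 2 := by
          have := mul_le_mul_of_nonneg_left w4 (sq_nonneg w)
          nlinarith
        nlinarith [sq_nonneg (w - 6 / 10)]
      nlinarith
    have := mul_le_mul_of_nonneg_left key (sq_nonneg s)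
    nlinarith
  refine le_trans ?_ (Real.le_sqrt_of_sq_le hR)
  have c1 := mul_le_mul_of_nonneg_left b1 v0
  have c2 := mul_le_mul_of_nonneg_left b2 (sq_nonneg v)
  have e1 : s * (1 + 485 / 1000 * w - 85 / 1000 * w ^ 2)
      = s + 485 / 1000 * (v * i) - 85 / 1000 * (v ^ 2 * i ^ 3) := by
    rw [hw]
    linear_combination (485 / 1000 * v * i - 85 / 1000 * v ^ 2 * i ^ 3) * hsi
  rw [e1]
  linarith

/-- the mean of the form, the determinant and the form at the position as functions of the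
distribution `w` of the columns `t` -/
noncomputable def Cw (A t : Fin 3 → ℝ) (w0 w1 w2 : ℝ) : ℝ :=
  1 - 2 / 15 * (A 0 * A 1 + A 0 * A 2 + A 1 * A 2)
    + t 0 * (w0 * kp (A 1) (A 0) + (1 - w0) * kp (A 2) (A 0))
    + t 1 * (w1 * kp (A 0) (A 1) + (1 - w1) * kp (A 2) (A 1))
    + t 2 * (w2 * kp (A 0) (A 2) + (1 - w2) * kp (A 1) (A 2))
    + ((1 + A 0) * t 0 ^ 2 + (1 + A 1) * t 1 ^ 2 + (1 + A 2) * t 2 ^ 2) / 3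

noncomputable def Dw (t : Fin 3 → ℝ) (w0 w1 w2 : ℝ) : ℝ :=
  1 - (t 0 * t 1 * (w0 * w1) + t 0 * t 2 * ((1 - w0) * w2) + t 1 * t 2 * ((1 - w1) * (1 - w2)))

noncomputable def Fw (A t : Fin 3 → ℝ) (w0 w1 w2 : ℝ) : ℝ :=
  1 - (A 0 * A 1 + A 0 * A 2 + A 1 * A 2)
    + t 0 * (w0 * (A 0 * (1 + A 1)) + (1 - w0) * (A 0 * (1 + A 2)))
    + t 1 * (w1 * (A 1 * (1 + A 0)) + (1 - w1) * (A 1 * (1 + A 2)))
    + t 2 * (w2 * (A 2 * (1 + A 0)) + (1 - w2) * (A 2 * (1 + A 1)))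

theorem kp_nonneg {x y : ℝ} (hx : 0 ≤ x) (hy : 0 ≤ y) : 0 ≤ kp x y := by
  unfold kp
  positivity

theorem Cw_nonneg {A t : Fin 3 → ℝ} (hA : ∀ k, 0 ≤ A k) (hs : A 0 + A 1 + A 2 = 1)
    (ht : ∀ k, 0 ≤ t k) {w0 w1 w2 : ℝ} (a0 : 0 ≤ w0) (a1 : 0 ≤ w1) (a2 : 0 ≤ w2) (b0 : w0 ≤ 1)
    (b1 : w1 ≤ 1) (b2 : w2 ≤ 1) : 0 ≤ Cw A t w0 w1 w2 := by
  have A0 := hA 0
  have A1 := hA 1
  have A2 := hA 2
  have t0 := ht 0
  have t1 := ht 1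
  have t2 := ht 2
  have k10 := kp_nonneg A1 A0
  have k20 := kp_nonneg A2 A0
  have k01 := kp_nonneg A0 A1
  have k21 := kp_nonneg A2 A1
  have k02 := kp_nonneg A0 A2
  have k12 := kp_nonneg A1 A2
  have c0 : 0 ≤ 1 - w0 := by linarith
  have c1 : 0 ≤ 1 - w1 := by linarith
  have c2 : 0 ≤ 1 - w2 := by linarith
  have he : A 0 * A 1 + A 0 * A 2 + A 1 * A 2 ≤ 1 / 3 := by
    nlinarith [sq_nonneg (A 0 - A 1), sq_nonneg (A 0 - A 2), sq_nonneg (A 1 - A 2)]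
  have p : 0 ≤ t 0 * (w0 * kp (A 1) (A 0) + (1 - w0) * kp (A 2) (A 0))
    + t 1 * (w1 * kp (A 0) (A 1) + (1 - w1) * kp (A 2) (A 1))
    + t 2 * (w2 * kp (A 0) (A 2) + (1 - w2) * kp (A 1) (A 2))
    + ((1 + A 0) * t 0 ^ 2 + (1 + A 1) * t 1 ^ 2 + (1 + A 2) * t 2 ^ 2) / 3 := by positivity
  unfold Cw
  linarith

theorem Dw_nonneg {t : Fin 3 → ℝ} (ht : ∀ k, 0 ≤ t k) (ht2 : ∀ k, t k ≤ 1 / 2) {w0 w1 w2 : ℝ}
    (a0 : 0 ≤ w0) (a1 : 0 ≤ w1) (a2 : 0 ≤ w2) (b0 : w0 ≤ 1)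
    (b1 : w1 ≤ 1) (b2 : w2 ≤ 1) : 0 ≤ Dw t w0 w1 w2 := by
  have key : ∀ x y p q : ℝ, 0 ≤ x → 0 ≤ y → x ≤ 1 / 2 → y ≤ 1 / 2 → 0 ≤ p → 0 ≤ q → p ≤ 1 →
      q ≤ 1 → x * y * (p * q) ≤ 1 / 4 := by
    intro x y p q hx hy hx' hy' hp hq hp' hq'
    have h1 : x * y ≤ 1 / 4 := by nlinarith
    have h2 : p * q ≤ 1 := by nlinarith
    have h3 : 0 ≤ p * q := mul_nonneg hp hq
    have h4 : 0 ≤ x * y := mul_nonneg hx hy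
    nlinarith
  have k1 := key _ _ _ _ (ht 0) (ht 1) (ht2 0) (ht2 1) a0 a1 b0 b1
  have k2 := key _ _ _ _ (ht 0) (ht 2) (ht2 0) (ht2 2) (show 0 ≤ 1 - w0 by linarith) a2
    (by linarith) b2
  have k3 := key _ _ _ _ (ht 1) (ht 2) (ht2 1) (ht2 2) (show 0 ≤ 1 - w1 by linarith)
    (show 0 ≤ 1 - w2 by linarith) (by linarith) (by linarith)
  unfold Dw
  linarith

theorem Fw_nonneg {A t : Fin 3 → ℝ} (hA : ∀ k, 0 ≤ A k) (hs : A 0 + A 1 + A 2 = 1)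
    (ht : ∀ k, 0 ≤ t k) {w0 w1 w2 : ℝ} (a0 : 0 ≤ w0) (a1 : 0 ≤ w1) (a2 : 0 ≤ w2) (b0 : w0 ≤ 1)
    (b1 : w1 ≤ 1) (b2 : w2 ≤ 1) : 0 ≤ Fw A t w0 w1 w2 := by
  have A0 := hA 0
  have A1 := hA 1
  have A2 := hA 2
  have t0 := ht 0
  have t1 := ht 1
  have t2 := ht 2
  have c0 : 0 ≤ 1 - w0 := by linarith
  have c1 : 0 ≤ 1 - w1 := by linarith
  have c2 : 0 ≤ 1 - w2 := by linarith
  have he : A 0 * A 1 + A 0 * A 2 + A 1 * A 2 ≤ 1 / 3 := by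
    nlinarith [sq_nonneg (A 0 - A 1), sq_nonneg (A 0 - A 2), sq_nonneg (A 1 - A 2)]
  have p : 0 ≤ t 0 * (w0 * (A 0 * (1 + A 1)) + (1 - w0) * (A 0 * (1 + A 2)))
    + t 1 * (w1 * (A 1 * (1 + A 0)) + (1 - w1) * (A 1 * (1 + A 2)))
    + t 2 * (w2 * (A 2 * (1 + A 0)) + (1 - w2) * (A 2 * (1 + A 1))) := by positivity
  unfold Fw
  linarith

/-- from the eight distributions to all distributions; `W` concave in every variable -/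
theorem mix3 {M P : ℝ} (hM : 0 ≤ M) (hP : 0 ≤ P) {A t : Fin 3 → ℝ} (hA : ∀ k, 0 ≤ A k)
    (hs : A 0 + A 1 + A 2 = 1) (ht : ∀ k, 0 ≤ t k) (ht2 : ∀ k, t k ≤ 1 / 2)
    {W : ℝ → ℝ → ℝ → ℝ}
    (hW0 : ∀ x y z, 0 ≤ x → x ≤ 1 → 0 ≤ y → y ≤ 1 → 0 ≤ z → z ≤ 1 → 0 ≤ W x y z)
    (c0 : ∀ x y z, 0 ≤ x → x ≤ 1 → 0 ≤ y → y ≤ 1 → 0 ≤ z → z ≤ 1 →
      (1 - x) * W 0 y z + x * W 1 y z ≤ W x y z)
    (c1 : ∀ x y z, 0 ≤ x → x ≤ 1 → 0 ≤ y → y ≤ 1 → 0 ≤ z → z ≤ 1 →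
      (1 - y) * W x 0 z + y * W x 1 z ≤ W x y z)
    (c2 : ∀ x y z, 0 ≤ x → x ≤ 1 → 0 ≤ y → y ≤ 1 → 0 ≤ z → z ≤ 1 →
      (1 - z) * W x y 0 + z * W x y 1 ≤ W x y z)
    (h000 : P * Cw A t 0 0 0 ^ 2 ≤ M * (Dw t 0 0 0 * W 0 0 0))
    (h001 : P * Cw A t 0 0 1 ^ 2 ≤ M * (Dw t 0 0 1 * W 0 0 1))
    (h010 : P * Cw A t 0 1 0 ^ 2 ≤ M * (Dw t 0 1 0 * W 0 1 0))
    (h011 : P * Cw A t 0 1 1 ^ 2 ≤ M * (Dw t 0 1 1 * W 0 1 1))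
    (h100 : P * Cw A t 1 0 0 ^ 2 ≤ M * (Dw t 1 0 0 * W 1 0 0))
    (h101 : P * Cw A t 1 0 1 ^ 2 ≤ M * (Dw t 1 0 1 * W 1 0 1))
    (h110 : P * Cw A t 1 1 0 ^ 2 ≤ M * (Dw t 1 1 0 * W 1 1 0))
    (h111 : P * Cw A t 1 1 1 ^ 2 ≤ M * (Dw t 1 1 1 * W 1 1 1))
    {x y z : ℝ} (x0 : 0 ≤ x) (x1 : x ≤ 1) (y0 : 0 ≤ y) (y1 : y ≤ 1) (z0 : 0 ≤ z) (z1 : z ≤ 1) :
    P * Cw A t x y z ^ 2 ≤ M * (Dw t x y z * W x y z) := by
  have O0 : (0 : ℝ) ≤ 0 := le_rfl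
  have O1 : (0 : ℝ) ≤ 1 := zero_le_one
  have I1 : (1 : ℝ) ≤ 1 := le_rfl
  -- first variable
  have s1 : ∀ b c : ℝ, 0 ≤ b → b ≤ 1 → 0 ≤ c → c ≤ 1 →
      P * Cw A t 0 b c ^ 2 ≤ M * (Dw t 0 b c * W 0 b c) →
      P * Cw A t 1 b c ^ 2 ≤ M * (Dw t 1 b c * W 1 b c) →
      P * Cw A t x b c ^ 2 ≤ M * (Dw t x b c * W x b c) := by
    intro b c hb0 hb1 hc0 hc1 h0 h1
    exact mix1 hM hP x0 x1 (Cw_nonneg hA hs ht O0 hb0 hc0 O1 hb1 hc1)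
      (Cw_nonneg hA hs ht O1 hb0 hc0 I1 hb1 hc1) (Dw_nonneg ht ht2 O0 hb0 hc0 O1 hb1 hc1)
      (Dw_nonneg ht ht2 O1 hb0 hc0 I1 hb1 hc1) (hW0 0 b c O0 O1 hb0 hb1 hc0 hc1)
      (hW0 1 b c O1 I1 hb0 hb1 hc0 hc1) (by unfold Cw; ring) (le_of_eq (by unfold Dw; ring))
      (c0 x b c x0 x1 hb0 hb1 hc0 hc1) h0 h1
  have s2 : ∀ c : ℝ, 0 ≤ c → c ≤ 1 →
      P * Cw A t x 0 c ^ 2 ≤ M * (Dw t x 0 c * W x 0 c) →
      P * Cw A t x 1 c ^ 2 ≤ M * (Dw t x 1 c * W x 1 c) →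
      P * Cw A t x y c ^ 2 ≤ M * (Dw t x y c * W x y c) := by
    intro c hc0 hc1 h0 h1
    exact mix1 hM hP y0 y1 (Cw_nonneg hA hs ht x0 O0 hc0 x1 O1 hc1)
      (Cw_nonneg hA hs ht x0 O1 hc0 x1 I1 hc1) (Dw_nonneg ht ht2 x0 O0 hc0 x1 O1 hc1)
      (Dw_nonneg ht ht2 x0 O1 hc0 x1 I1 hc1) (hW0 x 0 c x0 x1 O0 O1 hc0 hc1)
      (hW0 x 1 c x0 x1 O1 I1 hc0 hc1) (by unfold Cw; ring) (le_of_eq (by unfold Dw; ring))
      (c1 x y c x0 x1 y0 y1 hc0 hc1) h0 h1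
  have h00 := s1 0 0 O0 O1 O0 O1 h000 h100
  have h01 := s1 0 1 O0 O1 O1 I1 h001 h101
  have h10 := s1 1 0 O1 I1 O0 O1 h010 h110
  have h11 := s1 1 1 O1 I1 O1 I1 h011 h111
  have g0 := s2 0 O0 O1 h00 h10
  have g1 := s2 1 O1 I1 h01 h11
  exact mix1 hM hP z0 z1 (Cw_nonneg hA hs ht x0 y0 O0 x1 y1 O1)
      (Cw_nonneg hA hs ht x0 y0 O1 x1 y1 I1) (Dw_nonneg ht ht2 x0 y0 O0 x1 y1 O1)
      (Dw_nonneg ht ht2 x0 y0 O1 x1 y1 I1) (hW0 x y 0 x0 x1 y0 y1 O0 O1)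
      (hW0 x y 1 x0 x1 y0 y1 O1 I1) (by unfold Cw; ring) (le_of_eq (by unfold Dw; ring))
      (c2 x y z x0 x1 y0 y1 z0 z1) g0 g1

end Pool.Agent.Helper55.TentL
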