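import Pool.Agent.Helper43.MEI.KBox

set_option autoImplicit false
set_option maxRecDepth 1000000

namespace Pool.Agent.Helper55.TentK
open Helper43 Helper43.KBox Helper43.KBox.KT

theorem cl1_ok : checkK 96 30 [4, 5, 5, 5]
    (N 0 (N 2 (N 0 O (N 1 (N 2 O O) O)) O) (N 1 (N 0 (N 2 (N 1 O O) O) O) O))
    [[(13104000, [0, 0, 0, 0]), (21600000, [0, 0, 0, 1]), (1920000, [0, 0, 0, 2]), (11568000,
    [0, 0, 0, 3]), (1640000, [0, 0, 0, 4]), (550000, [0, 0, 0, 5]), (-21600000, [0, 0, 1, 0]),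
    (26280000, [0, 0, 1, 1]), (1824000, [0, 0, 1, 2]), (-2239200, [0, 0, 1, 3]), (-1066000,
    [0, 0, 1, 4]), (-357500, [0, 0, 1, 5]), (3840000, [0, 0, 2, 0]), (3264000, [0, 0, 2, 1]),
    (-716800, [0, 0, 2, 2]), (-1232000, [0, 0, 2, 3]), (26976000, [0, 0, 3, 0]), (-8596800,
    [0, 0, 3, 1]), (-832000, [0, 0, 3, 2]), (-1430000, [0, 0, 3, 3]), (8480000, [0, 0, 4, 0]),
    (-4664000, [0, 0, 4, 1]), (2600000, [0, 0, 5, 0]), (-1430000, [0, 0, 5, 1]), (26400000,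
    [0, 1, 0, 0]), (9480000, [0, 1, 0, 1]), (544000, [0, 1, 0, 2]), (-4439200, [0, 1, 0, 3]),
    (-1066000, [0, 1, 0, 4]), (-357500, [0, 1, 0, 5]), (-8436000, [0, 1, 1, 0]), (-17586000,
    [0, 1, 1, 1]), (-2350400, [0, 1, 1, 2]), (-546520, [0, 1, 1, 3]), (692900, [0, 1, 1, 4]),
    (232375, [0, 1, 1, 5]), (3776000, [0, 1, 2, 0]), (-5571200, [0, 1, 2, 1]), (465920, [0, 1,
    2, 2]), (800800, [0, 1, 2, 3]), (-10254400, [0, 1, 3, 0]), (1583920, [0, 1, 3, 1]),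
    (540800, [0, 1, 3, 2]), (929500, [0, 1, 3, 3]), (-5512000, [0, 1, 4, 0]), (3031600, [0, 1,
    4, 1]), (-1690000, [0, 1, 5, 0]), (929500, [0, 1, 5, 1]), (11840000, [0, 2, 0, 0]),
    (-2576000, [0, 2, 0, 1]), (-524800, [0, 2, 0, 2]), (-902000, [0, 2, 0, 3]), (176000, [0,
    2, 1, 0]), (-2655200, [0, 2, 1, 1]), (341120, [0, 2, 1, 2]), (586300, [0, 2, 1, 3]),
    (-1836800, [0, 2, 2, 0]), (1010240, [0, 2, 2, 1]), (-2132000, [0, 2, 3, 0]), (1172600, [0,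
    2, 3, 1]), (15096000, [0, 3, 0, 0]), (-5182800, [0, 3, 0, 1]), (-416000, [0, 3, 0, 2]),
    (-715000, [0, 3, 0, 3]), (-3572400, [0, 3, 1, 0]), (-63180, [0, 3, 1, 1]), (270400, [0, 3,
    1, 2]), (464750, [0, 3, 1, 3]), (-1456000, [0, 3, 2, 0]), (800800, [0, 3, 2, 1]),
    (-1690000, [0, 3, 3, 0]), (929500, [0, 3, 3, 1]), (2640000, [0, 4, 0, 0]), (-1452000, [0,
    4, 0, 1]), (-1716000, [0, 4, 1, 0]), (943800, [0, 4, 1, 1]), (650000, [0, 5, 0, 0]),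
    (-357500, [0, 5, 0, 1]), (-422500, [0, 5, 1, 0]), (232375, [0, 5, 1, 1]), (-45807744, [1,
    0, 0, 0]), (-23040000, [1, 0, 0, 1]), (2336000, [1, 0, 0, 2]), (-1504000, [1, 0, 0, 3]),
    (440000, [1, 0, 0, 4]), (19200000, [1, 0, 1, 0]), (-7392000, [1, 0, 1, 1]), (-174400, [1,
    0, 1, 2]), (-342400, [1, 0, 1, 3]), (-286000, [1, 0, 1, 4]), (13216000, [1, 0, 2, 0]),
    (-5316800, [1, 0, 2, 1]), (-633600, [1, 0, 2, 2]), (-242000, [1, 0, 2, 3]), (-12848000,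
    [1, 0, 3, 0]), (4986400, [1, 0, 3, 1]), (-156000, [1, 0, 3, 2]), (715000, [1, 0, 3, 3]),
    (-5360000, [1, 0, 4, 0]), (2948000, [1, 0, 4, 1]), (-2600000, [1, 0, 5, 0]), (1430000, [1,
    0, 5, 1]), (-83200000, [1, 1, 0, 0]), (31328000, [1, 1, 0, 1]), (1505600, [1, 1, 0, 2]),
    (4057600, [1, 1, 0, 3]), (-286000, [1, 1, 0, 4]), (26267936, [1, 1, 1, 0]), (5264000, [1,
    1, 1, 1]), (-1852240, [1, 1, 1, 2]), (-1779440, [1, 1, 1, 3]), (185900, [1, 1, 1, 4]),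
    (-1086400, [1, 1, 2, 0]), (-671280, [1, 1, 2, 1]), (411840, [1, 1, 2, 2]), (157300, [1, 1,
    2, 3]), (11991200, [1, 1, 3, 0]), (-5243160, [1, 1, 3, 1]), (101400, [1, 1, 3, 2]),
    (-464750, [1, 1, 3, 3]), (3484000, [1, 1, 4, 0]), (-1916200, [1, 1, 4, 1]), (1690000, [1,
    1, 5, 0]), (-929500, [1, 1, 5, 1]), (1376000, [1, 2, 0, 0]), (3835200, [1, 2, 0, 1]),
    (-885600, [1, 2, 0, 2]), (-902000, [1, 2, 0, 3]), (5009600, [1, 2, 1, 0]), (-5740080, [1,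
    2, 1, 1]), (575640, [1, 2, 1, 2]), (586300, [1, 2, 1, 3]), (-2197600, [1, 2, 2, 0]),
    (1208680, [1, 2, 2, 1]), (-1066000, [1, 2, 3, 0]), (586300, [1, 2, 3, 1]), (12512000, [1,
    3, 0, 0]), (-3241600, [1, 3, 0, 1]), (-702000, [1, 3, 0, 2]), (-715000, [1, 3, 0, 3]),
    (-3452800, [1, 3, 1, 0]), (-466960, [1, 3, 1, 1]), (456300, [1, 3, 1, 2]), (464750, [1, 3,
    1, 3]), (-1742000, [1, 3, 2, 0]), (958100, [1, 3, 2, 1]), (-845000, [1, 3, 3, 0]),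
    (464750, [1, 3, 3, 1]), (5280000, [1, 4, 0, 0]), (-2904000, [1, 4, 0, 1]), (-3432000, [1,
    4, 1, 0]), (1887600, [1, 4, 1, 1]), (1300000, [1, 5, 0, 0]), (-715000, [1, 5, 0, 1]),
    (-845000, [1, 5, 1, 0]), (464750, [1, 5, 1, 1]), (43247744, [2, 0, 0, 0]), (16128000, [2,
    0, 0, 1]), (160000, [2, 0, 0, 2]), (1848000, [2, 0, 0, 3]), (26624000, [2, 0, 1, 0]),
    (-5683200, [2, 0, 1, 1]), (-1144000, [2, 0, 1, 2]), (-2081200, [2, 0, 1, 3]), (-3360000,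
    [2, 0, 2, 0]), (-472000, [2, 0, 2, 1]), (236000, [2, 0, 2, 2]), (572000, [2, 0, 2, 3]),
    (2984000, [2, 0, 3, 0]), (-2161200, [2, 0, 3, 1]), (286000, [2, 0, 3, 2]), (-1520000, [2,
    0, 4, 0]), (836000, [2, 0, 4, 1]), (650000, [2, 0, 5, 0]), (-357500, [2, 0, 5, 1]),
    (45824000, [2, 1, 0, 0]), (-19443200, [2, 1, 0, 1]), (616000, [2, 1, 0, 2]), (-2081200,
    [2, 1, 0, 3]), (-31957536, [2, 1, 1, 0]), (-865920, [2, 1, 1, 1]), (275600, [2, 1, 1, 2]),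
    (1924780, [2, 1, 1, 3]), (-1288000, [2, 1, 2, 0]), (2216400, [2, 1, 2, 1]), (-153400, [2,
    1, 2, 2]), (-371800, [2, 1, 2, 3]), (-7659600, [2, 1, 3, 0]), (4550780, [2, 1, 3, 1]),
    (-185900, [2, 1, 3, 2]), (988000, [2, 1, 4, 0]), (-543400, [2, 1, 4, 1]), (-422500, [2, 1,
    5, 0]), (232375, [2, 1, 5, 1]), (-15840000, [2, 2, 0, 0]), (6872000, [2, 2, 0, 1]),
    (-28000, [2, 2, 0, 2]), (572000, [2, 2, 0, 3]), (2024000, [2, 2, 1, 0]), (82800, [2, 2, 1,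
    1]), (18200, [2, 2, 1, 2]), (-371800, [2, 2, 1, 3]), (1656800, [2, 2, 2, 0]), (-911240,
    [2, 2, 2, 1]), (2418000, [2, 2, 3, 0]), (-1329900, [2, 2, 3, 1]), (-1816000, [2, 3, 0,
    0]), (1518800, [2, 3, 0, 1]), (-286000, [2, 3, 0, 2]), (-1419600, [2, 3, 1, 0]), (442780,
    [2, 3, 1, 1]), (185900, [2, 3, 1, 2]), (390000, [2, 3, 2, 0]), (-214500, [2, 3, 2, 1]),
    (845000, [2, 3, 3, 0]), (-464750, [2, 3, 3, 1]), (1600000, [2, 4, 0, 0]), (-880000, [2, 4,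
    0, 1]), (-1040000, [2, 4, 1, 0]), (572000, [2, 4, 1, 1]), (650000, [2, 5, 0, 0]),
    (-357500, [2, 5, 0, 1]), (-422500, [2, 5, 1, 0]), (232375, [2, 5, 1, 1]), (5120000, [3, 0,
    0, 0]), (-4096000, [3, 0, 0, 1]), (704000, [3, 0, 0, 2]), (-2048000, [3, 0, 1, 0]),
    (2598400, [3, 0, 1, 1]), (-809600, [3, 0, 1, 2]), (448000, [3, 0, 2, 0]), (-662400, [3, 0,
    2, 1]), (228800, [3, 0, 2, 2]), (-2432000, [3, 0, 3, 0]), (1337600, [3, 0, 3, 1]),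
    (1040000, [3, 0, 4, 0]), (-572000, [3, 0, 4, 1]), (-14848000, [3, 1, 0, 0]), (9638400, [3,
    1, 0, 1]), (-809600, [3, 1, 0, 2]), (11379200, [3, 1, 1, 0]), (-7631360, [3, 1, 1, 1]),
    (755040, [3, 1, 1, 2]), (-3555200, [3, 1, 2, 0]), (2225760, [3, 1, 2, 1]), (-148720, [3,
    1, 2, 2]), (2620800, [3, 1, 3, 0]), (-1441440, [3, 1, 3, 1]), (-676000, [3, 1, 4, 0]),
    (371800, [3, 1, 4, 1]), (8768000, [3, 2, 0, 0]), (-5238400, [3, 2, 0, 1]), (228800, [3, 2,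
    0, 2]), (-5763200, [3, 2, 1, 0]), (3440160, [3, 2, 1, 1]), (-148720, [3, 2, 1, 2]),
    (1081600, [3, 2, 2, 0]), (-594880, [3, 2, 2, 1]), (-676000, [3, 2, 3, 0]), (371800, [3, 2,
    3, 1]), (768000, [3, 3, 0, 0]), (-422400, [3, 3, 0, 1]), (-1539200, [3, 3, 1, 0]),
    (846560, [3, 3, 1, 1]), (676000, [3, 3, 2, 0]), (-371800, [3, 3, 2, 1]), (-1040000, [3, 4,
    0, 0]), (572000, [3, 4, 0, 1]), (676000, [3, 4, 1, 0]), (-371800, [3, 4, 1, 1]),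
    (-2560000, [4, 0, 0, 0]), (1408000, [4, 0, 0, 1]), (4224000, [4, 0, 1, 0]), (-2323200, [4,
    0, 1, 1]), (-2304000, [4, 0, 2, 0]), (1267200, [4, 0, 2, 1]), (416000, [4, 0, 3, 0]),
    (-228800, [4, 0, 3, 1]), (4224000, [4, 1, 0, 0]), (-2323200, [4, 1, 0, 1]), (-5689600, [4,
    1, 1, 0]), (3129280, [4, 1, 1, 1]), (2329600, [4, 1, 2, 0]), (-1281280, [4, 1, 2, 1]),
    (-270400, [4, 1, 3, 0]), (148720, [4, 1, 3, 1]), (-2304000, [4, 2, 0, 0]), (1267200, [4,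
    2, 0, 1]), (2329600, [4, 2, 1, 0]), (-1281280, [4, 2, 1, 1]), (-540800, [4, 2, 2, 0]),
    (297440, [4, 2, 2, 1]), (416000, [4, 3, 0, 0]), (-228800, [4, 3, 0, 1]), (-270400, [4, 3,
    1, 0]), (148720, [4, 3, 1, 1])]] = true := by
  decide +kernel

theorem cl1 {x a b t : ℝ}
    (hx0 : 0 ≤ x) (hx1 : x ≤ 1) (ha0 : 0 ≤ a) (ha1 : a ≤ 1 / 2) (hb0 : 0 ≤ b) (hb1 : b ≤ 1 /
    2) (ht0 : 0 ≤ t) (ht1 : t ≤ 1 / 2) :
    0 ≤ 1091 / 1000 * ((1 - a * b) * (1 - 536 / 1000 * (x * (1 - x)) - t * (0))) - (1 - 13 /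
    10 * a) * (1 - 13 / 10 * b) * (1 - 11 / 10 * t) * (1 - 2 / 15 * (x * (1 - x)) + a * ((1 +
    x) / 3 + (1 + (1 - x) + x + 2 * (1 - x) * x) / 15) + b * ((1 + (1 - x)) / 3 + (1 + x + (1
    - x) + 2 * x * (1 - x)) / 15) + t * ((1 + 0) / 3 + (1 + x + 0 + 2 * x * 0) / 15) + ((1 +
    x) * a ^ 2 + (1 + (1 - x)) * b ^ 2 + t ^ 2) / 3) ^ 2 := by
  obtain ⟨m, hm, h⟩ := checkK_sound cl1_ok
    [(x - (0)) * (1), (a - (0)) * (2), (b - (0)) * (2), (t - (0)) * (2)]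
    (by
      intro a ha
      simp only [List.mem_cons, List.not_mem_nil, or_false] at ha
      rcases ha with rfl | rfl | rfl | rfl
      all_goals constructor
      all_goals linarith)
  simp only [List.mem_cons, List.not_mem_nil, or_false] at hm
  subst hm
  · apply nonneg_of_mul_nonneg_right (a := (144000000 : ℝ)) _ (by norm_num)
    refine le_of_le_of_eq h ?_
    simp only [PBox.evm, PBox.mon, PBox.xs]
    push_cast
    ring

theorem cl2_ok : checkK 86 30 [4, 5, 5, 5]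
    (N 0 O (N 1 (N 0 (N 1 O O) O) O))
    [[(13104000, [0, 0, 0, 0]), (21600000, [0, 0, 0, 1]), (1920000, [0, 0, 0, 2]), (11568000,
    [0, 0, 0, 3]), (1640000, [0, 0, 0, 4]), (550000, [0, 0, 0, 5]), (-21600000, [0, 0, 1, 0]),
    (-12996000, [0, 0, 1, 1]), (1824000, [0, 0, 1, 2]), (-2239200, [0, 0, 1, 3]), (-1066000,
    [0, 0, 1, 4]), (-357500, [0, 0, 1, 5]), (3840000, [0, 0, 2, 0]), (3264000, [0, 0, 2, 1]),
    (-716800, [0, 0, 2, 2]), (-1232000, [0, 0, 2, 3]), (26976000, [0, 0, 3, 0]), (-8596800,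
    [0, 0, 3, 1]), (-832000, [0, 0, 3, 2]), (-1430000, [0, 0, 3, 3]), (8480000, [0, 0, 4, 0]),
    (-4664000, [0, 0, 4, 1]), (2600000, [0, 0, 5, 0]), (-1430000, [0, 0, 5, 1]), (26400000,
    [0, 1, 0, 0]), (9480000, [0, 1, 0, 1]), (544000, [0, 1, 0, 2]), (-4439200, [0, 1, 0, 3]),
    (-1066000, [0, 1, 0, 4]), (-357500, [0, 1, 0, 5]), (30840000, [0, 1, 1, 0]), (-17586000,
    [0, 1, 1, 1]), (-2350400, [0, 1, 1, 2]), (-546520, [0, 1, 1, 3]), (692900, [0, 1, 1, 4]),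
    (232375, [0, 1, 1, 5]), (3776000, [0, 1, 2, 0]), (-5571200, [0, 1, 2, 1]), (465920, [0, 1,
    2, 2]), (800800, [0, 1, 2, 3]), (-10254400, [0, 1, 3, 0]), (1583920, [0, 1, 3, 1]),
    (540800, [0, 1, 3, 2]), (929500, [0, 1, 3, 3]), (-5512000, [0, 1, 4, 0]), (3031600, [0, 1,
    4, 1]), (-1690000, [0, 1, 5, 0]), (929500, [0, 1, 5, 1]), (11840000, [0, 2, 0, 0]),
    (-2576000, [0, 2, 0, 1]), (-524800, [0, 2, 0, 2]), (-902000, [0, 2, 0, 3]), (176000, [0,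
    2, 1, 0]), (-2655200, [0, 2, 1, 1]), (341120, [0, 2, 1, 2]), (586300, [0, 2, 1, 3]),
    (-1836800, [0, 2, 2, 0]), (1010240, [0, 2, 2, 1]), (-2132000, [0, 2, 3, 0]), (1172600, [0,
    2, 3, 1]), (15096000, [0, 3, 0, 0]), (-5182800, [0, 3, 0, 1]), (-416000, [0, 3, 0, 2]),
    (-715000, [0, 3, 0, 3]), (-3572400, [0, 3, 1, 0]), (-63180, [0, 3, 1, 1]), (270400, [0, 3,
    1, 2]), (464750, [0, 3, 1, 3]), (-1456000, [0, 3, 2, 0]), (800800, [0, 3, 2, 1]),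
    (-1690000, [0, 3, 3, 0]), (929500, [0, 3, 3, 1]), (2640000, [0, 4, 0, 0]), (-1452000, [0,
    4, 0, 1]), (-1716000, [0, 4, 1, 0]), (943800, [0, 4, 1, 1]), (650000, [0, 5, 0, 0]),
    (-357500, [0, 5, 0, 1]), (-422500, [0, 5, 1, 0]), (232375, [0, 5, 1, 1]), (-45807744, [1,
    0, 0, 0]), (-23040000, [1, 0, 0, 1]), (2336000, [1, 0, 0, 2]), (-1504000, [1, 0, 0, 3]),
    (440000, [1, 0, 0, 4]), (48000000, [1, 0, 1, 0]), (21804000, [1, 0, 1, 1]), (-942400, [1,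
    0, 1, 2]), (-1662400, [1, 0, 1, 3]), (-286000, [1, 0, 1, 4]), (6016000, [1, 0, 2, 0]),
    (-5100800, [1, 0, 2, 1]), (-134400, [1, 0, 2, 2]), (616000, [1, 0, 2, 3]), (-15536000, [1,
    0, 3, 0]), (6464800, [1, 0, 3, 1]), (-156000, [1, 0, 3, 2]), (715000, [1, 0, 3, 3]),
    (-8480000, [1, 0, 4, 0]), (4664000, [1, 0, 4, 1]), (-2600000, [1, 0, 5, 0]), (1430000, [1,
    0, 5, 1]), (-83200000, [1, 1, 0, 0]), (31328000, [1, 1, 0, 1]), (1505600, [1, 1, 0, 2]),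
    (4057600, [1, 1, 0, 3]), (-286000, [1, 1, 0, 4]), (-6784000, [1, 1, 1, 0]), (8120000, [1,
    1, 1, 1]), (-1353040, [1, 1, 1, 2]), (-921440, [1, 1, 1, 3]), (185900, [1, 1, 1, 4]),
    (-774400, [1, 1, 2, 0]), (1590720, [1, 1, 2, 1]), (87360, [1, 1, 2, 2]), (-400400, [1, 1,
    2, 3]), (13738400, [1, 1, 3, 0]), (-6204120, [1, 1, 3, 1]), (101400, [1, 1, 3, 2]),
    (-464750, [1, 1, 3, 3]), (5512000, [1, 1, 4, 0]), (-3031600, [1, 1, 4, 1]), (1690000, [1,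
    1, 5, 0]), (-929500, [1, 1, 5, 1]), (1376000, [1, 2, 0, 0]), (3835200, [1, 2, 0, 1]),
    (-885600, [1, 2, 0, 2]), (-902000, [1, 2, 0, 3]), (3041600, [1, 2, 1, 0]), (-4657680, [1,
    2, 1, 1]), (575640, [1, 2, 1, 2]), (586300, [1, 2, 1, 3]), (-918400, [1, 2, 2, 0]),
    (505120, [1, 2, 2, 1]), (-1066000, [1, 2, 3, 0]), (586300, [1, 2, 3, 1]), (12512000, [1,
    3, 0, 0]), (-3241600, [1, 3, 0, 1]), (-702000, [1, 3, 0, 2]), (-715000, [1, 3, 0, 3]),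
    (-5012800, [1, 3, 1, 0]), (391040, [1, 3, 1, 1]), (456300, [1, 3, 1, 2]), (464750, [1, 3,
    1, 3]), (-728000, [1, 3, 2, 0]), (400400, [1, 3, 2, 1]), (-845000, [1, 3, 3, 0]), (464750,
    [1, 3, 3, 1]), (5280000, [1, 4, 0, 0]), (-2904000, [1, 4, 0, 1]), (-3432000, [1, 4, 1,
    0]), (1887600, [1, 4, 1, 1]), (1300000, [1, 5, 0, 0]), (-715000, [1, 5, 0, 1]), (-845000,
    [1, 5, 1, 0]), (464750, [1, 5, 1, 1]), (43247744, [2, 0, 0, 0]), (16128000, [2, 0, 0, 1]),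
    (160000, [2, 0, 0, 2]), (1848000, [2, 0, 0, 3]), (3584000, [2, 0, 1, 0]), (4108800, [2, 0,
    1, 1]), (-1160000, [2, 0, 1, 2]), (-1201200, [2, 0, 1, 3]), (-384000, [2, 0, 2, 0]),
    (-236800, [2, 0, 2, 1]), (246400, [2, 0, 2, 2]), (5184000, [2, 0, 3, 0]), (-3371200, [2,
    0, 3, 1]), (286000, [2, 0, 3, 2]), (2120000, [2, 0, 4, 0]), (-1166000, [2, 0, 4, 1]),
    (650000, [2, 0, 5, 0]), (-357500, [2, 0, 5, 1]), (45824000, [2, 1, 0, 0]), (-19443200, [2,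
    1, 0, 1]), (616000, [2, 1, 0, 2]), (-2081200, [2, 1, 0, 3]), (6310400, [2, 1, 1, 0]),
    (-8462720, [2, 1, 1, 1]), (286000, [2, 1, 1, 2]), (1352780, [2, 1, 1, 3]), (-4678400, [2,
    1, 2, 0]), (2864320, [2, 1, 2, 1]), (-160160, [2, 1, 2, 2]), (-9089600, [2, 1, 3, 0]),
    (5337280, [2, 1, 3, 1]), (-185900, [2, 1, 3, 2]), (-1378000, [2, 1, 4, 0]), (757900, [2,
    1, 4, 1]), (-422500, [2, 1, 5, 0]), (232375, [2, 1, 5, 1]), (-15840000, [2, 2, 0, 0]),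
    (6872000, [2, 2, 0, 1]), (-28000, [2, 2, 0, 2]), (572000, [2, 2, 0, 3]), (1368000, [2, 2,
    1, 0]), (443600, [2, 2, 1, 1]), (18200, [2, 2, 1, 2]), (-371800, [2, 2, 1, 3]), (2083200,
    [2, 2, 2, 0]), (-1145760, [2, 2, 2, 1]), (2418000, [2, 2, 3, 0]), (-1329900, [2, 2, 3,
    1]), (-1816000, [2, 3, 0, 0]), (1518800, [2, 3, 0, 1]), (-286000, [2, 3, 0, 2]),
    (-1939600, [2, 3, 1, 0]), (728780, [2, 3, 1, 1]), (185900, [2, 3, 1, 2]), (728000, [2, 3,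
    2, 0]), (-400400, [2, 3, 2, 1]), (845000, [2, 3, 3, 0]), (-464750, [2, 3, 3, 1]),
    (1600000, [2, 4, 0, 0]), (-880000, [2, 4, 0, 1]), (-1040000, [2, 4, 1, 0]), (572000, [2,
    4, 1, 1]), (650000, [2, 5, 0, 0]), (-357500, [2, 5, 0, 1]), (-422500, [2, 5, 1, 0]),
    (232375, [2, 5, 1, 1]), (5120000, [3, 0, 0, 0]), (-4096000, [3, 0, 0, 1]), (704000, [3, 0,
    0, 2]), (4352000, [3, 0, 1, 0]), (-1561600, [3, 0, 1, 1]), (-457600, [3, 0, 1, 2]),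
    (-1792000, [3, 0, 2, 0]), (985600, [3, 0, 2, 1]), (-2080000, [3, 0, 3, 0]), (1144000, [3,
    0, 3, 1]), (-14848000, [3, 1, 0, 0]), (9638400, [3, 1, 0, 1]), (-809600, [3, 1, 0, 2]),
    (819200, [3, 1, 1, 0]), (-1407360, [3, 1, 1, 1]), (526240, [3, 1, 1, 2]), (2060800, [3, 1,
    2, 0]), (-1133440, [3, 1, 2, 1]), (2392000, [3, 1, 3, 0]), (-1315600, [3, 1, 3, 1]),
    (8768000, [3, 2, 0, 0]), (-5238400, [3, 2, 0, 1]), (228800, [3, 2, 0, 2]), (-3203200, [3,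
    2, 1, 0]), (2032160, [3, 2, 1, 1]), (-148720, [3, 2, 1, 2]), (-582400, [3, 2, 2, 0]),
    (320320, [3, 2, 2, 1]), (-676000, [3, 2, 3, 0]), (371800, [3, 2, 3, 1]), (768000, [3, 3,
    0, 0]), (-422400, [3, 3, 0, 1]), (-499200, [3, 3, 1, 0]), (274560, [3, 3, 1, 1]),
    (-1040000, [3, 4, 0, 0]), (572000, [3, 4, 0, 1]), (676000, [3, 4, 1, 0]), (-371800, [3, 4,
    1, 1]), (-2560000, [4, 0, 0, 0]), (1408000, [4, 0, 0, 1]), (1664000, [4, 0, 1, 0]),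
    (-915200, [4, 0, 1, 1]), (4224000, [4, 1, 0, 0]), (-2323200, [4, 1, 0, 1]), (-2745600, [4,
    1, 1, 0]), (1510080, [4, 1, 1, 1]), (-2304000, [4, 2, 0, 0]), (1267200, [4, 2, 0, 1]),
    (1497600, [4, 2, 1, 0]), (-823680, [4, 2, 1, 1]), (416000, [4, 3, 0, 0]), (-228800, [4, 3,
    0, 1]), (-270400, [4, 3, 1, 0]), (148720, [4, 3, 1, 1])]] = true := by
  decide +kernel

theorem cl2 {x a b t : ℝ}
    (hx0 : 0 ≤ x) (hx1 : x ≤ 1) (ha0 : 0 ≤ a) (ha1 : a ≤ 1 / 2) (hb0 : 0 ≤ b) (hb1 : b ≤ 1 /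
    2) (ht0 : 0 ≤ t) (ht1 : t ≤ 1 / 2) :
    0 ≤ 1091 / 1000 * ((1 - 0) * (1 - 536 / 1000 * (x * (1 - x)) - t * (b * (1 - x)))) - (1 -
    13 / 10 * a) * (1 - 13 / 10 * b) * (1 - 11 / 10 * t) * (1 - 2 / 15 * (x * (1 - x)) + a *
    ((1 + x) / 3 + (1 + (1 - x) + x + 2 * (1 - x) * x) / 15) + b * ((1 + (1 - x)) / 3 + (1 + 0
    + (1 - x) + 2 * 0 * (1 - x)) / 15) + t * ((1 + 0) / 3 + (1 + x + 0 + 2 * x * 0) / 15) +
    ((1 + x) * a ^ 2 + (1 + (1 - x)) * b ^ 2 + t ^ 2) / 3) ^ 2 := by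
  obtain ⟨m, hm, h⟩ := checkK_sound cl2_ok
    [(x - (0)) * (1), (a - (0)) * (2), (b - (0)) * (2), (t - (0)) * (2)]
    (by
      intro a ha
      simp only [List.mem_cons, List.not_mem_nil, or_false] at ha
      rcases ha with rfl | rfl | rfl | rfl
      all_goals constructor
      all_goals linarith)
  simp only [List.mem_cons, List.not_mem_nil, or_false] at hm
  subst hm
  · apply nonneg_of_mul_nonneg_right (a := (144000000 : ℝ)) _ (by norm_num)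
    refine le_of_le_of_eq h ?_
    simp only [PBox.evm, PBox.mon, PBox.xs]
    push_cast
    ring

theorem cl3_ok : checkK 86 30 [4, 5, 5, 5]
    (N 0 (N 2 O (N 3 O O)) (N 1 (N 0 (N 1 O O) O) O))
    [[(13104000, [0, 0, 0, 0]), (12000000, [0, 0, 0, 1]), (5120000, [0, 0, 0, 2]), (11912000,
    [0, 0, 0, 3]), (2080000, [0, 0, 0, 4]), (550000, [0, 0, 0, 5]), (-21600000, [0, 0, 1, 0]),
    (-49872000, [0, 0, 1, 1]), (1856000, [0, 0, 1, 2]), (-2462800, [0, 0, 1, 3]), (-1352000,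
    [0, 0, 1, 4]), (-357500, [0, 0, 1, 5]), (3840000, [0, 0, 2, 0]), (4160000, [0, 0, 2, 1]),
    (8609400, [0, 0, 2, 2]), (-1232000, [0, 0, 2, 3]), (26976000, [0, 0, 3, 0]), (-7556800,
    [0, 0, 3, 1]), (-1404000, [0, 0, 3, 2]), (-1430000, [0, 0, 3, 3]), (8480000, [0, 0, 4,
    0]), (-4664000, [0, 0, 4, 1]), (2600000, [0, 0, 5, 0]), (-1430000, [0, 0, 5, 1]),
    (26400000, [0, 1, 0, 0]), (13480000, [0, 1, 0, 1]), (-304000, [0, 1, 0, 2]), (-4662800,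
    [0, 1, 0, 3]), (-1352000, [0, 1, 0, 4]), (-357500, [0, 1, 0, 5]), (30840000, [0, 1, 1,
    0]), (-17690000, [0, 1, 1, 1]), (-3172000, [0, 1, 1, 2]), (-401180, [0, 1, 1, 3]),
    (878800, [0, 1, 1, 4]), (232375, [0, 1, 1, 5]), (3776000, [0, 1, 2, 0]), (-6153600, [0, 1,
    2, 1]), (786240, [0, 1, 2, 2]), (800800, [0, 1, 2, 3]), (-10254400, [0, 1, 3, 0]),
    (907920, [0, 1, 3, 1]), (912600, [0, 1, 3, 2]), (929500, [0, 1, 3, 3]), (-5512000, [0, 1,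
    4, 0]), (3031600, [0, 1, 4, 1]), (-1690000, [0, 1, 5, 0]), (929500, [0, 1, 5, 1]),
    (11840000, [0, 2, 0, 0]), (-1920000, [0, 2, 0, 1]), (-885600, [0, 2, 0, 2]), (-902000, [0,
    2, 0, 3]), (176000, [0, 2, 1, 0]), (-3081600, [0, 2, 1, 1]), (575640, [0, 2, 1, 2]),
    (586300, [0, 2, 1, 3]), (-1836800, [0, 2, 2, 0]), (1010240, [0, 2, 2, 1]), (-2132000, [0,
    2, 3, 0]), (1172600, [0, 2, 3, 1]), (15096000, [0, 3, 0, 0]), (-4662800, [0, 3, 0, 1]),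
    (-702000, [0, 3, 0, 2]), (-715000, [0, 3, 0, 3]), (-3572400, [0, 3, 1, 0]), (-401180, [0,
    3, 1, 1]), (456300, [0, 3, 1, 2]), (464750, [0, 3, 1, 3]), (-1456000, [0, 3, 2, 0]),
    (800800, [0, 3, 2, 1]), (-1690000, [0, 3, 3, 0]), (929500, [0, 3, 3, 1]), (2640000, [0, 4,
    0, 0]), (-1452000, [0, 4, 0, 1]), (-1716000, [0, 4, 1, 0]), (943800, [0, 4, 1, 1]),
    (650000, [0, 5, 0, 0]), (-357500, [0, 5, 0, 1]), (-422500, [0, 5, 1, 0]), (232375, [0, 5,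
    1, 1]), (-45807744, [1, 0, 0, 0]), (-2560000, [1, 0, 0, 1]), (-4768000, [1, 0, 0, 2]),
    (-2192000, [1, 0, 0, 3]), (-440000, [1, 0, 0, 4]), (48000000, [1, 0, 1, 0]), (39143936,
    [1, 0, 1, 1]), (-1604800, [1, 0, 1, 2]), (-1215200, [1, 0, 1, 3]), (286000, [1, 0, 1, 4]),
    (6016000, [1, 0, 2, 0]), (-7340800, [1, 0, 2, 1]), (-8721400, [1, 0, 2, 2]), (616000, [1,
    0, 2, 3]), (-15536000, [1, 0, 3, 0]), (3864800, [1, 0, 3, 1]), (1274000, [1, 0, 3, 2]),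
    (715000, [1, 0, 3, 3]), (-8480000, [1, 0, 4, 0]), (4664000, [1, 0, 4, 1]), (-2600000, [1,
    0, 5, 0]), (1430000, [1, 0, 5, 1]), (-83200000, [1, 1, 0, 0]), (20256000, [1, 1, 0, 1]),
    (4891200, [1, 1, 0, 2]), (4504800, [1, 1, 0, 3]), (286000, [1, 1, 0, 4]), (-6784000, [1,
    1, 1, 0]), (9076800, [1, 1, 1, 1]), (-121680, [1, 1, 1, 2]), (-1212120, [1, 1, 1, 3]),
    (-185900, [1, 1, 1, 4]), (-774400, [1, 1, 2, 0]), (3046720, [1, 1, 2, 1]), (-713440, [1,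
    1, 2, 2]), (-400400, [1, 1, 2, 3]), (13738400, [1, 1, 3, 0]), (-4514120, [1, 1, 3, 1]),
    (-828100, [1, 1, 3, 2]), (-464750, [1, 1, 3, 3]), (5512000, [1, 1, 4, 0]), (-3031600, [1,
    1, 4, 1]), (1690000, [1, 1, 5, 0]), (-929500, [1, 1, 5, 1]), (1376000, [1, 2, 0, 0]),
    (3179200, [1, 2, 0, 1]), (-524800, [1, 2, 0, 2]), (-902000, [1, 2, 0, 3]), (3041600, [1,
    2, 1, 0]), (-4231280, [1, 2, 1, 1]), (341120, [1, 2, 1, 2]), (586300, [1, 2, 1, 3]),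
    (-918400, [1, 2, 2, 0]), (505120, [1, 2, 2, 1]), (-1066000, [1, 2, 3, 0]), (586300, [1, 2,
    3, 1]), (12512000, [1, 3, 0, 0]), (-3761600, [1, 3, 0, 1]), (-416000, [1, 3, 0, 2]),
    (-715000, [1, 3, 0, 3]), (-5012800, [1, 3, 1, 0]), (729040, [1, 3, 1, 1]), (270400, [1, 3,
    1, 2]), (464750, [1, 3, 1, 3]), (-728000, [1, 3, 2, 0]), (400400, [1, 3, 2, 1]), (-845000,
    [1, 3, 3, 0]), (464750, [1, 3, 3, 1]), (5280000, [1, 4, 0, 0]), (-2904000, [1, 4, 0, 1]),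
    (-3432000, [1, 4, 1, 0]), (1887600, [1, 4, 1, 1]), (1300000, [1, 5, 0, 0]), (-715000, [1,
    5, 0, 1]), (-845000, [1, 5, 1, 0]), (464750, [1, 5, 1, 1]), (43247744, [2, 0, 0, 0]),
    (12288000, [2, 0, 0, 1]), (2272000, [2, 0, 0, 2]), (1848000, [2, 0, 0, 3]), (3584000, [2,
    0, 1, 0]), (-18287136, [2, 0, 1, 1]), (-420800, [2, 0, 1, 2]), (-1201200, [2, 0, 1, 3]),
    (-384000, [2, 0, 2, 0]), (659200, [2, 0, 2, 1]), (-246400, [2, 0, 2, 2]), (5184000, [2, 0,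
    3, 0]), (-2331200, [2, 0, 3, 1]), (-286000, [2, 0, 3, 2]), (2120000, [2, 0, 4, 0]),
    (-1166000, [2, 0, 4, 1]), (650000, [2, 0, 5, 0]), (-357500, [2, 0, 5, 1]), (45824000, [2,
    1, 0, 0]), (-11827200, [2, 1, 0, 1]), (-3572800, [2, 1, 0, 2]), (-2081200, [2, 1, 0, 3]),
    (6310400, [2, 1, 1, 0]), (-10917120, [2, 1, 1, 1]), (1635920, [2, 1, 1, 2]), (1352780, [2,
    1, 1, 3]), (-4678400, [2, 1, 2, 0]), (2281920, [2, 1, 2, 1]), (160160, [2, 1, 2, 2]),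
    (-9089600, [2, 1, 3, 0]), (4661280, [2, 1, 3, 1]), (185900, [2, 1, 3, 2]), (-1378000, [2,
    1, 4, 0]), (757900, [2, 1, 4, 1]), (-422500, [2, 1, 5, 0]), (232375, [2, 1, 5, 1]),
    (-15840000, [2, 2, 0, 0]), (5144000, [2, 2, 0, 1]), (922400, [2, 2, 0, 2]), (572000, [2,
    2, 0, 3]), (1368000, [2, 2, 1, 0]), (1566800, [2, 2, 1, 1]), (-599560, [2, 2, 1, 2]),
    (-371800, [2, 2, 1, 3]), (2083200, [2, 2, 2, 0]), (-1145760, [2, 2, 2, 1]), (2418000, [2,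
    2, 3, 0]), (-1329900, [2, 2, 3, 1]), (-1816000, [2, 3, 0, 0]), (478800, [2, 3, 0, 1]),
    (286000, [2, 3, 0, 2]), (-1939600, [2, 3, 1, 0]), (1404780, [2, 3, 1, 1]), (-185900, [2,
    3, 1, 2]), (728000, [2, 3, 2, 0]), (-400400, [2, 3, 2, 1]), (845000, [2, 3, 3, 0]),
    (-464750, [2, 3, 3, 1]), (1600000, [2, 4, 0, 0]), (-880000, [2, 4, 0, 1]), (-1040000, [2,
    4, 1, 0]), (572000, [2, 4, 1, 1]), (650000, [2, 5, 0, 0]), (-357500, [2, 5, 0, 1]),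
    (-422500, [2, 5, 1, 0]), (232375, [2, 5, 1, 1]), (5120000, [3, 0, 0, 0]), (-1536000, [3,
    0, 0, 1]), (-704000, [3, 0, 0, 2]), (4352000, [3, 0, 1, 0]), (-3225600, [3, 0, 1, 1]),
    (457600, [3, 0, 1, 2]), (-1792000, [3, 0, 2, 0]), (985600, [3, 0, 2, 1]), (-2080000, [3,
    0, 3, 0]), (1144000, [3, 0, 3, 1]), (-14848000, [3, 1, 0, 0]), (6694400, [3, 1, 0, 1]),
    (809600, [3, 1, 0, 2]), (819200, [3, 1, 1, 0]), (506240, [3, 1, 1, 1]), (-526240, [3, 1,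
    1, 2]), (2060800, [3, 1, 2, 0]), (-1133440, [3, 1, 2, 1]), (2392000, [3, 1, 3, 0]),
    (-1315600, [3, 1, 3, 1]), (8768000, [3, 2, 0, 0]), (-4406400, [3, 2, 0, 1]), (-228800, [3,
    2, 0, 2]), (-3203200, [3, 2, 1, 0]), (1491360, [3, 2, 1, 1]), (148720, [3, 2, 1, 2]),
    (-582400, [3, 2, 2, 0]), (320320, [3, 2, 2, 1]), (-676000, [3, 2, 3, 0]), (371800, [3, 2,
    3, 1]), (768000, [3, 3, 0, 0]), (-422400, [3, 3, 0, 1]), (-499200, [3, 3, 1, 0]), (274560,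
    [3, 3, 1, 1]), (-1040000, [3, 4, 0, 0]), (572000, [3, 4, 0, 1]), (676000, [3, 4, 1, 0]),
    (-371800, [3, 4, 1, 1]), (-2560000, [4, 0, 0, 0]), (1408000, [4, 0, 0, 1]), (1664000, [4,
    0, 1, 0]), (-915200, [4, 0, 1, 1]), (4224000, [4, 1, 0, 0]), (-2323200, [4, 1, 0, 1]),
    (-2745600, [4, 1, 1, 0]), (1510080, [4, 1, 1, 1]), (-2304000, [4, 2, 0, 0]), (1267200, [4,
    2, 0, 1]), (1497600, [4, 2, 1, 0]), (-823680, [4, 2, 1, 1]), (416000, [4, 3, 0, 0]),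
    (-228800, [4, 3, 0, 1]), (-270400, [4, 3, 1, 0]), (148720, [4, 3, 1, 1])]] = true := by
  decide +kernel

theorem cl3 {x a b t : ℝ}
    (hx0 : 0 ≤ x) (hx1 : x ≤ 1) (ha0 : 0 ≤ a) (ha1 : a ≤ 1 / 2) (hb0 : 0 ≤ b) (hb1 : b ≤ 1 /
    2) (ht0 : 0 ≤ t) (ht1 : t ≤ 1 / 2) :
    0 ≤ 1091 / 1000 * ((1 - b * t) * (1 - 536 / 1000 * (x * (1 - x)) - t * (b * (1 - x)))) -
    (1 - 13 / 10 * a) * (1 - 13 / 10 * b) * (1 - 11 / 10 * t) * (1 - 2 / 15 * (x * (1 - x)) +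
    a * ((1 + x) / 3 + (1 + (1 - x) + x + 2 * (1 - x) * x) / 15) + b * ((1 + (1 - x)) / 3 + (1
    + 0 + (1 - x) + 2 * 0 * (1 - x)) / 15) + t * ((1 + 0) / 3 + (1 + (1 - x) + 0 + 2 * (1 - x)
    * 0) / 15) + ((1 + x) * a ^ 2 + (1 + (1 - x)) * b ^ 2 + t ^ 2) / 3) ^ 2 := by
  obtain ⟨m, hm, h⟩ := checkK_sound cl3_ok
    [(x - (0)) * (1), (a - (0)) * (2), (b - (0)) * (2), (t - (0)) * (2)]
    (by
      intro a ha
      simp only [List.mem_cons, List.not_mem_nil, or_false] at ha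
      rcases ha with rfl | rfl | rfl | rfl
      all_goals constructor
      all_goals linarith)
  simp only [List.mem_cons, List.not_mem_nil, or_false] at hm
  subst hm
  · apply nonneg_of_mul_nonneg_right (a := (144000000 : ℝ)) _ (by norm_num)
    refine le_of_le_of_eq h ?_
    simp only [PBox.evm, PBox.mon, PBox.xs]
    push_cast
    ring

theorem cl4_ok : checkK 78 30 [4, 5, 5, 5]
    (N 1 (N 0 O O) (N 0 O (N 3 O O)))
    [[(13104000, [0, 0, 0, 0]), (21600000, [0, 0, 0, 1]), (1920000, [0, 0, 0, 2]), (11568000,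
    [0, 0, 0, 3]), (1640000, [0, 0, 0, 4]), (550000, [0, 0, 0, 5]), (-21600000, [0, 0, 1, 0]),
    (-12996000, [0, 0, 1, 1]), (1824000, [0, 0, 1, 2]), (-2239200, [0, 0, 1, 3]), (-1066000,
    [0, 0, 1, 4]), (-357500, [0, 0, 1, 5]), (3840000, [0, 0, 2, 0]), (3264000, [0, 0, 2, 1]),
    (-716800, [0, 0, 2, 2]), (-1232000, [0, 0, 2, 3]), (26976000, [0, 0, 3, 0]), (-8596800,
    [0, 0, 3, 1]), (-832000, [0, 0, 3, 2]), (-1430000, [0, 0, 3, 3]), (8480000, [0, 0, 4, 0]),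
    (-4664000, [0, 0, 4, 1]), (2600000, [0, 0, 5, 0]), (-1430000, [0, 0, 5, 1]), (36000000,
    [0, 1, 0, 0]), (-33156000, [0, 1, 0, 1]), (288000, [0, 1, 0, 2]), (-4879200, [0, 1, 0,
    3]), (-1066000, [0, 1, 0, 4]), (-357500, [0, 1, 0, 5]), (28440000, [0, 1, 1, 0]),
    (-17514000, [0, 1, 1, 1]), (7635000, [0, 1, 1, 2]), (-260520, [0, 1, 1, 3]), (692900, [0,
    1, 1, 4]), (232375, [0, 1, 1, 5]), (2880000, [0, 1, 2, 0]), (-5078400, [0, 1, 2, 1]),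
    (465920, [0, 1, 2, 2]), (800800, [0, 1, 2, 3]), (-11294400, [0, 1, 3, 0]), (2155920, [0,
    1, 3, 1]), (540800, [0, 1, 3, 2]), (929500, [0, 1, 3, 3]), (-5512000, [0, 1, 4, 0]),
    (3031600, [0, 1, 4, 1]), (-1690000, [0, 1, 5, 0]), (929500, [0, 1, 5, 1]), (7680000, [0,
    2, 0, 0]), (-1536000, [0, 2, 0, 1]), (-358400, [0, 2, 0, 2]), (-616000, [0, 2, 0, 3]),
    (384000, [0, 2, 1, 0]), (-1958400, [0, 2, 1, 1]), (232960, [0, 2, 1, 2]), (400400, [0, 2,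
    1, 3]), (-1254400, [0, 2, 2, 0]), (689920, [0, 2, 2, 1]), (-1456000, [0, 2, 3, 0]),
    (800800, [0, 2, 3, 1]), (14544000, [0, 3, 0, 0]), (-4879200, [0, 3, 0, 1]), (-416000, [0,
    3, 0, 2]), (-715000, [0, 3, 0, 3]), (-3213600, [0, 3, 1, 0]), (-260520, [0, 3, 1, 1]),
    (270400, [0, 3, 1, 2]), (464750, [0, 3, 1, 3]), (-1456000, [0, 3, 2, 0]), (800800, [0, 3,
    2, 1]), (-1690000, [0, 3, 3, 0]), (929500, [0, 3, 3, 1]), (2120000, [0, 4, 0, 0]),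
    (-1166000, [0, 4, 0, 1]), (-1378000, [0, 4, 1, 0]), (757900, [0, 4, 1, 1]), (650000, [0,
    5, 0, 0]), (-357500, [0, 5, 0, 1]), (-422500, [0, 5, 1, 0]), (232375, [0, 5, 1, 1]),
    (-45807744, [1, 0, 0, 0]), (-23040000, [1, 0, 0, 1]), (2336000, [1, 0, 0, 2]), (-1504000,
    [1, 0, 0, 3]), (440000, [1, 0, 0, 4]), (48000000, [1, 0, 1, 0]), (21804000, [1, 0, 1, 1]),
    (-942400, [1, 0, 1, 2]), (-1662400, [1, 0, 1, 3]), (-286000, [1, 0, 1, 4]), (6016000, [1,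
    0, 2, 0]), (-5100800, [1, 0, 2, 1]), (-134400, [1, 0, 2, 2]), (616000, [1, 0, 2, 3]),
    (-15536000, [1, 0, 3, 0]), (6464800, [1, 0, 3, 1]), (-156000, [1, 0, 3, 2]), (715000, [1,
    0, 3, 3]), (-8480000, [1, 0, 4, 0]), (4664000, [1, 0, 4, 1]), (-2600000, [1, 0, 5, 0]),
    (1430000, [1, 0, 5, 1]), (-74880000, [1, 1, 0, 0]), (10767936, [1, 1, 0, 1]), (1073600,
    [1, 1, 0, 2]), (3617600, [1, 1, 0, 3]), (-286000, [1, 1, 0, 4]), (-10272000, [1, 1, 1,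
    0]), (8582400, [1, 1, 1, 1]), (-10891240, [1, 1, 1, 2]), (-635440, [1, 1, 1, 3]), (185900,
    [1, 1, 1, 4]), (-1222400, [1, 1, 2, 0]), (1837120, [1, 1, 2, 1]), (87360, [1, 1, 2, 2]),
    (-400400, [1, 1, 2, 3]), (13218400, [1, 1, 3, 0]), (-5918120, [1, 1, 3, 1]), (101400, [1,
    1, 3, 2]), (-464750, [1, 1, 3, 3]), (5512000, [1, 1, 4, 0]), (-3031600, [1, 1, 4, 1]),
    (1690000, [1, 1, 5, 0]), (-929500, [1, 1, 5, 1]), (128000, [1, 2, 0, 0]), (3065600, [1, 2,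
    0, 1]), (9214200, [1, 2, 0, 2]), (-616000, [1, 2, 0, 3]), (2604800, [1, 2, 1, 0]),
    (-3471040, [1, 2, 1, 1]), (393120, [1, 2, 1, 2]), (400400, [1, 2, 1, 3]), (-627200, [1, 2,
    2, 0]), (344960, [1, 2, 2, 1]), (-728000, [1, 2, 3, 0]), (400400, [1, 2, 3, 1]),
    (11408000, [1, 3, 0, 0]), (-2634400, [1, 3, 0, 1]), (-702000, [1, 3, 0, 2]), (-715000, [1,
    3, 0, 3]), (-4295200, [1, 3, 1, 0]), (-3640, [1, 3, 1, 1]), (456300, [1, 3, 1, 2]),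
    (464750, [1, 3, 1, 3]), (-728000, [1, 3, 2, 0]), (400400, [1, 3, 2, 1]), (-845000, [1, 3,
    3, 0]), (464750, [1, 3, 3, 1]), (4240000, [1, 4, 0, 0]), (-2332000, [1, 4, 0, 1]),
    (-2756000, [1, 4, 1, 0]), (1515800, [1, 4, 1, 1]), (1300000, [1, 5, 0, 0]), (-715000, [1,
    5, 0, 1]), (-845000, [1, 5, 1, 0]), (464750, [1, 5, 1, 1]), (43247744, [2, 0, 0, 0]),
    (16128000, [2, 0, 0, 1]), (160000, [2, 0, 0, 2]), (1848000, [2, 0, 0, 3]), (3584000, [2,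
    0, 1, 0]), (4108800, [2, 0, 1, 1]), (-1160000, [2, 0, 1, 2]), (-1201200, [2, 0, 1, 3]),
    (-384000, [2, 0, 2, 0]), (-236800, [2, 0, 2, 1]), (246400, [2, 0, 2, 2]), (5184000, [2, 0,
    3, 0]), (-3371200, [2, 0, 3, 1]), (286000, [2, 0, 3, 2]), (2120000, [2, 0, 4, 0]),
    (-1166000, [2, 0, 4, 1]), (650000, [2, 0, 5, 0]), (-357500, [2, 0, 5, 1]), (26624000, [2,
    1, 0, 0]), (-33455136, [2, 1, 0, 1]), (952000, [2, 1, 0, 2]), (-1201200, [2, 1, 0, 3]),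
    (9190400, [2, 1, 1, 0]), (-7758720, [2, 1, 1, 1]), (67600, [2, 1, 1, 2]), (780780, [2, 1,
    1, 3]), (-2438400, [2, 1, 2, 0]), (1632320, [2, 1, 2, 1]), (-160160, [2, 1, 2, 2]),
    (-6489600, [2, 1, 3, 0]), (3907280, [2, 1, 3, 1]), (-185900, [2, 1, 3, 2]), (-1378000, [2,
    1, 4, 0]), (757900, [2, 1, 4, 1]), (-422500, [2, 1, 5, 0]), (232375, [2, 1, 5, 1]),
    (-5760000, [2, 2, 0, 0]), (3616000, [2, 2, 0, 1]), (-246400, [2, 2, 0, 2]), (1056000, [2,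
    2, 1, 0]), (-872000, [2, 2, 1, 1]), (160160, [2, 2, 1, 2]), (627200, [2, 2, 2, 0]),
    (-344960, [2, 2, 2, 1]), (728000, [2, 2, 3, 0]), (-400400, [2, 2, 3, 1]), (-1056000, [2,
    3, 0, 0]), (1100800, [2, 3, 0, 1]), (-286000, [2, 3, 0, 2]), (-2433600, [2, 3, 1, 0]),
    (1000480, [2, 3, 1, 1]), (185900, [2, 3, 1, 2]), (728000, [2, 3, 2, 0]), (-400400, [2, 3,
    2, 1]), (845000, [2, 3, 3, 0]), (-464750, [2, 3, 3, 1]), (2120000, [2, 4, 0, 0]),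
    (-1166000, [2, 4, 0, 1]), (-1378000, [2, 4, 1, 0]), (757900, [2, 4, 1, 1]), (650000, [2,
    5, 0, 0]), (-357500, [2, 5, 0, 1]), (-422500, [2, 5, 1, 0]), (232375, [2, 5, 1, 1]),
    (5120000, [3, 0, 0, 0]), (-4096000, [3, 0, 0, 1]), (704000, [3, 0, 0, 2]), (4352000, [3,
    0, 1, 0]), (-1561600, [3, 0, 1, 1]), (-457600, [3, 0, 1, 2]), (-1792000, [3, 0, 2, 0]),
    (985600, [3, 0, 2, 1]), (-2080000, [3, 0, 3, 0]), (1144000, [3, 0, 3, 1]), (-11008000, [3,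
    1, 0, 0]), (6886400, [3, 1, 0, 1]), (-457600, [3, 1, 0, 2]), (2163200, [3, 1, 1, 0]),
    (-1730560, [3, 1, 1, 1]), (297440, [3, 1, 1, 2]), (1164800, [3, 1, 2, 0]), (-640640, [3,
    1, 2, 1]), (1352000, [3, 1, 3, 0]), (-743600, [3, 1, 3, 1]), (1792000, [3, 2, 0, 0]),
    (-985600, [3, 2, 0, 1]), (-1164800, [3, 2, 1, 0]), (640640, [3, 2, 1, 1]), (2080000, [3,
    3, 0, 0]), (-1144000, [3, 3, 0, 1]), (-1352000, [3, 3, 1, 0]), (743600, [3, 3, 1, 1]),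
    (-2560000, [4, 0, 0, 0]), (1408000, [4, 0, 0, 1]), (1664000, [4, 0, 1, 0]), (-915200, [4,
    0, 1, 1]), (1664000, [4, 1, 0, 0]), (-915200, [4, 1, 0, 1]), (-1081600, [4, 1, 1, 0]),
    (594880, [4, 1, 1, 1])]] = true := by
  decide +kernel

theorem cl4 {x a b t : ℝ}
    (hx0 : 0 ≤ x) (hx1 : x ≤ 1) (ha0 : 0 ≤ a) (ha1 : a ≤ 1 / 2) (hb0 : 0 ≤ b) (hb1 : b ≤ 1 /
    2) (ht0 : 0 ≤ t) (ht1 : t ≤ 1 / 2) :
    0 ≤ 1091 / 1000 * ((1 - a * t) * (1 - 536 / 1000 * (x * (1 - x)) - t * (a * x + b * (1 -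
    x)))) - (1 - 13 / 10 * a) * (1 - 13 / 10 * b) * (1 - 11 / 10 * t) * (1 - 2 / 15 * (x * (1
    - x)) + a * ((1 + x) / 3 + (1 + 0 + x + 2 * 0 * x) / 15) + b * ((1 + (1 - x)) / 3 + (1 + 0
    + (1 - x) + 2 * 0 * (1 - x)) / 15) + t * ((1 + 0) / 3 + (1 + x + 0 + 2 * x * 0) / 15) +
    ((1 + x) * a ^ 2 + (1 + (1 - x)) * b ^ 2 + t ^ 2) / 3) ^ 2 := by
  obtain ⟨m, hm, h⟩ := checkK_sound cl4_ok
    [(x - (0)) * (1), (a - (0)) * (2), (b - (0)) * (2), (t - (0)) * (2)]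
    (by
      intro a ha
      simp only [List.mem_cons, List.not_mem_nil, or_false] at ha
      rcases ha with rfl | rfl | rfl | rfl
      all_goals constructor
      all_goals linarith)
  simp only [List.mem_cons, List.not_mem_nil, or_false] at hm
  subst hm
  · apply nonneg_of_mul_nonneg_right (a := (144000000 : ℝ)) _ (by norm_num)
    refine le_of_le_of_eq h ?_
    simp only [PBox.evm, PBox.mon, PBox.xs]
    push_cast
    ring

theorem ve100_ok : checkK 66 29 [5, 5, 6]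
    (N 0 O (N 0 O O))
    [[(20966400, [0, 0, 0]), (13440000, [0, 0, 1]), (24224000, [0, 0, 2]), (26521600, [0, 0,
    3]), (7243200, [0, 0, 4]), (1568000, [0, 0, 5]), (130000, [0, 0, 6]), (19200000, [0, 1,
    0]), (23968000, [0, 1, 1]), (-376000, [0, 1, 2]), (-7844480, [0, 1, 3]), (-3255760, [0, 1,
    4]), (-862400, [0, 1, 5]), (-71500, [0, 1, 6]), (8192000, [0, 2, 0]), (537600, [0, 2, 1]),
    (-1477760, [0, 2, 2]), (-1300320, [0, 2, 3]), (-140400, [0, 2, 4]), (19059200, [0, 3, 0]),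
    (-5078080, [0, 3, 1]), (-2375760, [0, 3, 2]), (-1324400, [0, 3, 3]), (-143000, [0, 3, 4]),
    (3328000, [0, 4, 0]), (-1747200, [0, 4, 1]), (-270400, [0, 4, 2]), (880000, [0, 5, 0]),
    (-462000, [0, 5, 1]), (-71500, [0, 5, 2]), (-34560000, [1, 0, 0]), (45024000, [1, 0, 1]),
    (6449600, [1, 0, 2]), (-5680640, [1, 0, 3]), (-3460080, [1, 0, 4]), (-1019200, [1, 0, 5]),
    (-84500, [1, 0, 6]), (-79795200, [1, 1, 0]), (-22568000, [1, 1, 1]), (-8468560, [1, 1,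
    2]), (-1258208, [1, 1, 3]), (1429844, [1, 1, 4]), (560560, [1, 1, 5]), (46475, [1, 1, 6]),
    (2969600, [1, 2, 0]), (-4704000, [1, 2, 1]), (286624, [1, 2, 2]), (845208, [1, 2, 3]),
    (91260, [1, 2, 4]), (-3940480, [1, 3, 0]), (-1134448, [1, 3, 1]), (857844, [1, 3, 2]),
    (860860, [1, 3, 3]), (92950, [1, 3, 4]), (-2163200, [1, 4, 0]), (1135680, [1, 4, 1]),
    (175760, [1, 4, 2]), (-572000, [1, 5, 0]), (300300, [1, 5, 1]), (46475, [1, 5, 2]),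
    (6144000, [2, 0, 0]), (6809600, [2, 0, 1]), (-2183680, [2, 0, 2]), (-2696960, [2, 0, 3]),
    (-291200, [2, 0, 4]), (6656000, [2, 1, 0]), (-9013760, [2, 1, 1]), (385664, [2, 1, 2]),
    (1483328, [2, 1, 3]), (160160, [2, 1, 4]), (13775040, [2, 2, 0]), (1016064, [2, 2, 1]),
    (157248, [2, 2, 2]), (-1971200, [2, 3, 0]), (1034880, [2, 3, 1]), (160160, [2, 3, 2]),
    (43161600, [3, 0, 0]), (-11011840, [3, 0, 1]), (-5462080, [3, 0, 2]), (-3130400, [3, 0,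
    3]), (-338000, [3, 0, 4]), (-12090880, [3, 1, 0]), (-58688, [3, 1, 1]), (2057744, [3, 1,
    2]), (1721720, [3, 1, 3]), (185900, [3, 1, 4]), (-2246400, [3, 2, 0]), (1179360, [3, 2,
    1]), (182520, [3, 2, 2]), (-2288000, [3, 3, 0]), (1201200, [3, 3, 1]), (185900, [3, 3,
    2]), (13568000, [4, 0, 0]), (-7123200, [4, 0, 1]), (-1102400, [4, 0, 2]), (-7462400, [4,
    1, 0]), (3917760, [4, 1, 1]), (606320, [4, 1, 2]), (4160000, [5, 0, 0]), (-2184000, [5, 0,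
    1]), (-338000, [5, 0, 2]), (-2288000, [5, 1, 0]), (1201200, [5, 1, 1]), (185900, [5, 1,
    2])]] = true := by
  decide +kernel

theorem ve100 {a b t : ℝ}
    (ha0 : 0 ≤ a) (ha1 : a ≤ 1 / 2) (hb0 : 0 ≤ b) (hb1 : b ≤ 1 / 2) (ht0 : 0 ≤ t) (ht1 : t ≤ 1
    / 2) :
    0 ≤ 1091 / 1000 * ((1 - a * b) * (1 - a * b)) - (1 - 13 / 10 * a) * (1 - 11 / 10 * b) * (1
    - 13 / 10 * t) * (1 + 1 / 4 * t) * (1 + 4 / 5 * a + 7 / 15 * b + 7 / 15 * t + (2 * a ^ 2 +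
    b ^ 2 + t ^ 2) / 3) ^ 2 := by
  obtain ⟨m, hm, h⟩ := checkK_sound ve100_ok
    [(a - (0)) * (2), (b - (0)) * (2), (t - (0)) * (2)]
    (by
      intro a ha
      simp only [List.mem_cons, List.not_mem_nil, or_false] at ha
      rcases ha with rfl | rfl | rfl
      all_goals constructor
      all_goals linarith)
  simp only [List.mem_cons, List.not_mem_nil, or_false] at hm
  subst hm
  · apply nonneg_of_mul_nonneg_right (a := (230400000 : ℝ)) _ (by norm_num)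
    refine le_of_le_of_eq h ?_
    simp only [PBox.evm, PBox.mon, PBox.xs]
    push_cast
    ring

theorem ve101_ok : checkK 66 29 [5, 5, 6]
    (N 0 O (N 0 O O))
    [[(20966400, [0, 0, 0]), (28800000, [0, 0, 1]), (19488000, [0, 0, 2]), (24806400, [0, 0,
    3]), (6300800, [0, 0, 4]), (1464000, [0, 0, 5]), (130000, [0, 0, 6]), (19200000, [0, 1,
    0]), (19104000, [0, 1, 1]), (347200, [0, 1, 2]), (-7192320, [0, 1, 3]), (-2737440, [0, 1,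
    4]), (-805200, [0, 1, 5]), (-71500, [0, 1, 6]), (8192000, [0, 2, 0]), (-153600, [0, 2,
    1]), (-1114880, [0, 2, 2]), (-1244160, [0, 2, 3]), (-140400, [0, 2, 4]), (19059200, [0, 3,
    0]), (-5782080, [0, 3, 1]), (-2006160, [0, 3, 2]), (-1267200, [0, 3, 3]), (-143000, [0, 3,
    4]), (3328000, [0, 4, 0]), (-1747200, [0, 4, 1]), (-270400, [0, 4, 2]), (880000, [0, 5,
    0]), (-462000, [0, 5, 1]), (-71500, [0, 5, 2]), (-34560000, [1, 0, 0]), (41184000, [1, 0,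
    1]), (6302400, [1, 0, 2]), (-5064960, [1, 0, 3]), (-2847520, [1, 0, 4]), (-951600, [1, 0,
    5]), (-84500, [1, 0, 6]), (-79795200, [1, 1, 0]), (-22785600, [1, 1, 1]), (-7164560, [1,
    1, 2]), (-1407552, [1, 1, 3]), (1092936, [1, 1, 4]), (523380, [1, 1, 5]), (46475, [1, 1,
    6]), (2969600, [1, 2, 0]), (-4254720, [1, 2, 1]), (50752, [1, 2, 2]), (808704, [1, 2, 3]),
    (91260, [1, 2, 4]), (-3940480, [1, 3, 0]), (-676848, [1, 3, 1]), (617604, [1, 3, 2]),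
    (823680, [1, 3, 3]), (92950, [1, 3, 4]), (-2163200, [1, 4, 0]), (1135680, [1, 4, 1]),
    (175760, [1, 4, 2]), (-572000, [1, 5, 0]), (300300, [1, 5, 1]), (46475, [1, 5, 2]),
    (6144000, [2, 0, 0]), (5376000, [2, 0, 1]), (-1431040, [2, 0, 2]), (-2580480, [2, 0, 3]),
    (-291200, [2, 0, 4]), (6656000, [2, 1, 0]), (-8225280, [2, 1, 1]), (-28288, [2, 1, 2]),
    (1419264, [2, 1, 3]), (160160, [2, 1, 4]), (13775040, [2, 2, 0]), (1016064, [2, 2, 1]),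
    (157248, [2, 2, 2]), (-1971200, [2, 3, 0]), (1034880, [2, 3, 1]), (160160, [2, 3, 2]),
    (43161600, [3, 0, 0]), (-12675840, [3, 0, 1]), (-4588480, [3, 0, 2]), (-2995200, [3, 0,
    3]), (-338000, [3, 0, 4]), (-12090880, [3, 1, 0]), (856512, [3, 1, 1]), (1577264, [3, 1,
    2]), (1647360, [3, 1, 3]), (185900, [3, 1, 4]), (-2246400, [3, 2, 0]), (1179360, [3, 2,
    1]), (182520, [3, 2, 2]), (-2288000, [3, 3, 0]), (1201200, [3, 3, 1]), (185900, [3, 3,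
    2]), (13568000, [4, 0, 0]), (-7123200, [4, 0, 1]), (-1102400, [4, 0, 2]), (-7462400, [4,
    1, 0]), (3917760, [4, 1, 1]), (606320, [4, 1, 2]), (4160000, [5, 0, 0]), (-2184000, [5, 0,
    1]), (-338000, [5, 0, 2]), (-2288000, [5, 1, 0]), (1201200, [5, 1, 1]), (185900, [5, 1,
    2])]] = true := by
  decide +kernel

theorem ve101 {a b t : ℝ}
    (ha0 : 0 ≤ a) (ha1 : a ≤ 1 / 2) (hb0 : 0 ≤ b) (hb1 : b ≤ 1 / 2) (ht0 : 0 ≤ t) (ht1 : t ≤ 1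
    / 2) :
    0 ≤ 1091 / 1000 * ((1 - a * b) * (1 - a * b)) - (1 - 13 / 10 * a) * (1 - 11 / 10 * b) * (1
    - 13 / 10 * t) * (1 + 1 / 4 * t) * (1 + 4 / 5 * a + 7 / 15 * b + 2 / 5 * t + (2 * a ^ 2 +
    b ^ 2 + t ^ 2) / 3) ^ 2 := by
  obtain ⟨m, hm, h⟩ := checkK_sound ve101_ok
    [(a - (0)) * (2), (b - (0)) * (2), (t - (0)) * (2)]
    (by
      intro a ha
      simp only [List.mem_cons, List.not_mem_nil, or_false] at ha
      rcases ha with rfl | rfl | rfl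
      all_goals constructor
      all_goals linarith)
  simp only [List.mem_cons, List.not_mem_nil, or_false] at hm
  subst hm
  · apply nonneg_of_mul_nonneg_right (a := (230400000 : ℝ)) _ (by norm_num)
    refine le_of_le_of_eq h ?_
    simp only [PBox.evm, PBox.mon, PBox.xs]
    push_cast
    ring

theorem ve120_ok : checkK 46 29 [5, 5, 6]
    O
    [[(20966400, [0, 0, 0]), (13440000, [0, 0, 1]), (24224000, [0, 0, 2]), (26521600, [0, 0,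
    3]), (7243200, [0, 0, 4]), (1568000, [0, 0, 5]), (130000, [0, 0, 6]), (34560000, [0, 1,
    0]), (19488000, [0, 1, 1]), (-2225600, [0, 1, 2]), (-8807680, [0, 1, 3]), (-3359760, [0,
    1, 4]), (-862400, [0, 1, 5]), (-71500, [0, 1, 6]), (3072000, [0, 2, 0]), (1254400, [0, 2,
    1]), (-730880, [0, 2, 2]), (-770560, [0, 2, 3]), (-83200, [0, 2, 4]), (18508800, [0, 3,
    0]), (-4789120, [0, 3, 1]), (-2331040, [0, 3, 2]), (-1324400, [0, 3, 3]), (-143000, [0, 3,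
    4]), (2624000, [0, 4, 0]), (-1377600, [0, 4, 1]), (-213200, [0, 4, 2]), (880000, [0, 5,
    0]), (-462000, [0, 5, 1]), (-71500, [0, 5, 2]), (-34560000, [1, 0, 0]), (45024000, [1, 0,
    1]), (6449600, [1, 0, 2]), (-5680640, [1, 0, 3]), (-3460080, [1, 0, 4]), (-1019200, [1, 0,
    5]), (-84500, [1, 0, 6]), (42048000, [1, 1, 0]), (-22881600, [1, 1, 1]), (-7765520, [1, 1,
    2]), (-632128, [1, 1, 3]), (1497444, [1, 1, 4]), (560560, [1, 1, 5]), (46475, [1, 1, 6]),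
    (2918400, [1, 2, 0]), (-3395840, [1, 2, 1]), (75712, [1, 2, 2]), (500864, [1, 2, 3]),
    (54080, [1, 2, 4]), (-3582720, [1, 3, 0]), (-1322272, [1, 3, 1]), (828776, [1, 3, 2]),
    (860860, [1, 3, 3]), (92950, [1, 3, 4]), (-1705600, [1, 4, 0]), (895440, [1, 4, 1]),
    (138580, [1, 4, 2]), (-572000, [1, 5, 0]), (300300, [1, 5, 1]), (46475, [1, 5, 2]),
    (6144000, [2, 0, 0]), (6809600, [2, 0, 1]), (-2183680, [2, 0, 2]), (-2696960, [2, 0, 3]),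
    (-291200, [2, 0, 4]), (5222400, [2, 1, 0]), (-8261120, [2, 1, 1]), (502144, [2, 1, 2]),
    (1483328, [2, 1, 3]), (160160, [2, 1, 4]), (-1146880, [2, 2, 0]), (602112, [2, 2, 1]),
    (93184, [2, 2, 2]), (-1971200, [2, 3, 0]), (1034880, [2, 3, 1]), (160160, [2, 3, 2]),
    (43161600, [3, 0, 0]), (-11011840, [3, 0, 1]), (-5462080, [3, 0, 2]), (-3130400, [3, 0,
    3]), (-338000, [3, 0, 4]), (-13754880, [3, 1, 0]), (814912, [3, 1, 1]), (2192944, [3, 1,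
    2]), (1721720, [3, 1, 3]), (185900, [3, 1, 4]), (-1331200, [3, 2, 0]), (698880, [3, 2,
    1]), (108160, [3, 2, 2]), (-2288000, [3, 3, 0]), (1201200, [3, 3, 1]), (185900, [3, 3,
    2]), (13568000, [4, 0, 0]), (-7123200, [4, 0, 1]), (-1102400, [4, 0, 2]), (-7462400, [4,
    1, 0]), (3917760, [4, 1, 1]), (606320, [4, 1, 2]), (4160000, [5, 0, 0]), (-2184000, [5, 0,
    1]), (-338000, [5, 0, 2]), (-2288000, [5, 1, 0]), (1201200, [5, 1, 1]), (185900, [5, 1,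
    2])]] = true := by
  decide +kernel

theorem ve120 {a b t : ℝ}
    (ha0 : 0 ≤ a) (ha1 : a ≤ 1 / 2) (hb0 : 0 ≤ b) (hb1 : b ≤ 1 / 2) (ht0 : 0 ≤ t) (ht1 : t ≤ 1
    / 2) :
    0 ≤ 1091 / 1000 * ((1 - 0) * (1 - 0)) - (1 - 13 / 10 * a) * (1 - 11 / 10 * b) * (1 - 13 /
    10 * t) * (1 + 1 / 4 * t) * (1 + 4 / 5 * a + 2 / 5 * b + 7 / 15 * t + (2 * a ^ 2 + b ^ 2 +
    t ^ 2) / 3) ^ 2 := by
  obtain ⟨m, hm, h⟩ := checkK_sound ve120_ok
    [(a - (0)) * (2), (b - (0)) * (2), (t - (0)) * (2)]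
    (by
      intro a ha
      simp only [List.mem_cons, List.not_mem_nil, or_false] at ha
      rcases ha with rfl | rfl | rfl
      all_goals constructor
      all_goals linarith)
  simp only [List.mem_cons, List.not_mem_nil, or_false] at hm
  subst hm
  · apply nonneg_of_mul_nonneg_right (a := (230400000 : ℝ)) _ (by norm_num)
    refine le_of_le_of_eq h ?_
    simp only [PBox.evm, PBox.mon, PBox.xs]
    push_cast
    ring

theorem ve121_ok : checkK 46 29 [5, 5, 6]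
    O
    [[(20966400, [0, 0, 0]), (28800000, [0, 0, 1]), (19488000, [0, 0, 2]), (24806400, [0, 0,
    3]), (6300800, [0, 0, 4]), (1464000, [0, 0, 5]), (130000, [0, 0, 6]), (34560000, [0, 1,
    0]), (-48729600, [0, 1, 1]), (-1233600, [0, 1, 2]), (-8113920, [0, 1, 3]), (-2841440, [0,
    1, 4]), (-805200, [0, 1, 5]), (-71500, [0, 1, 6]), (3072000, [0, 2, 0]), (844800, [0, 2,
    1]), (-515840, [0, 2, 2]), (-737280, [0, 2, 3]), (-83200, [0, 2, 4]), (18508800, [0, 3,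
    0]), (-5493120, [0, 3, 1]), (-1961440, [0, 3, 2]), (-1267200, [0, 3, 3]), (-143000, [0, 3,
    4]), (2624000, [0, 4, 0]), (-1377600, [0, 4, 1]), (-213200, [0, 4, 2]), (880000, [0, 5,
    0]), (-462000, [0, 5, 1]), (-71500, [0, 5, 2]), (-34560000, [1, 0, 0]), (41184000, [1, 0,
    1]), (6302400, [1, 0, 2]), (-5064960, [1, 0, 3]), (-2847520, [1, 0, 4]), (-951600, [1, 0,
    5]), (-84500, [1, 0, 6]), (42048000, [1, 1, 0]), (-22766400, [1, 1, 1]), (-6636240, [1, 1,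
    2]), (-808512, [1, 1, 3]), (1160536, [1, 1, 4]), (523380, [1, 1, 5]), (46475, [1, 1, 6]),
    (2918400, [1, 2, 0]), (-3129600, [1, 2, 1]), (-64064, [1, 2, 2]), (479232, [1, 2, 3]),
    (54080, [1, 2, 4]), (-3582720, [1, 3, 0]), (-864672, [1, 3, 1]), (588536, [1, 3, 2]),
    (823680, [1, 3, 3]), (92950, [1, 3, 4]), (-1705600, [1, 4, 0]), (895440, [1, 4, 1]),
    (138580, [1, 4, 2]), (-572000, [1, 5, 0]), (300300, [1, 5, 1]), (46475, [1, 5, 2]),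
    (6144000, [2, 0, 0]), (5376000, [2, 0, 1]), (-1431040, [2, 0, 2]), (-2580480, [2, 0, 3]),
    (-291200, [2, 0, 4]), (5222400, [2, 1, 0]), (-7472640, [2, 1, 1]), (88192, [2, 1, 2]),
    (1419264, [2, 1, 3]), (160160, [2, 1, 4]), (-1146880, [2, 2, 0]), (602112, [2, 2, 1]),
    (93184, [2, 2, 2]), (-1971200, [2, 3, 0]), (1034880, [2, 3, 1]), (160160, [2, 3, 2]),
    (43161600, [3, 0, 0]), (-12675840, [3, 0, 1]), (-4588480, [3, 0, 2]), (-2995200, [3, 0,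
    3]), (-338000, [3, 0, 4]), (-13754880, [3, 1, 0]), (1730112, [3, 1, 1]), (1712464, [3, 1,
    2]), (1647360, [3, 1, 3]), (185900, [3, 1, 4]), (-1331200, [3, 2, 0]), (698880, [3, 2,
    1]), (108160, [3, 2, 2]), (-2288000, [3, 3, 0]), (1201200, [3, 3, 1]), (185900, [3, 3,
    2]), (13568000, [4, 0, 0]), (-7123200, [4, 0, 1]), (-1102400, [4, 0, 2]), (-7462400, [4,
    1, 0]), (3917760, [4, 1, 1]), (606320, [4, 1, 2]), (4160000, [5, 0, 0]), (-2184000, [5, 0,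
    1]), (-338000, [5, 0, 2]), (-2288000, [5, 1, 0]), (1201200, [5, 1, 1]), (185900, [5, 1,
    2])]] = true := by
  decide +kernel

theorem ve121 {a b t : ℝ}
    (ha0 : 0 ≤ a) (ha1 : a ≤ 1 / 2) (hb0 : 0 ≤ b) (hb1 : b ≤ 1 / 2) (ht0 : 0 ≤ t) (ht1 : t ≤ 1
    / 2) :
    0 ≤ 1091 / 1000 * ((1 - b * t) * (1 - 0)) - (1 - 13 / 10 * a) * (1 - 11 / 10 * b) * (1 -
    13 / 10 * t) * (1 + 1 / 4 * t) * (1 + 4 / 5 * a + 2 / 5 * b + 2 / 5 * t + (2 * a ^ 2 + b ^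
    2 + t ^ 2) / 3) ^ 2 := by
  obtain ⟨m, hm, h⟩ := checkK_sound ve121_ok
    [(a - (0)) * (2), (b - (0)) * (2), (t - (0)) * (2)]
    (by
      intro a ha
      simp only [List.mem_cons, List.not_mem_nil, or_false] at ha
      rcases ha with rfl | rfl | rfl
      all_goals constructor
      all_goals linarith)
  simp only [List.mem_cons, List.not_mem_nil, or_false] at hm
  subst hm
  · apply nonneg_of_mul_nonneg_right (a := (230400000 : ℝ)) _ (by norm_num)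
    refine le_of_le_of_eq h ?_
    simp only [PBox.evm, PBox.mon, PBox.xs]
    push_cast
    ring

theorem ve200_ok : checkK 56 29 [5, 5, 6]
    (N 0 O O)
    [[(20966400, [0, 0, 0]), (13440000, [0, 0, 1]), (24224000, [0, 0, 2]), (26521600, [0, 0,
    3]), (7243200, [0, 0, 4]), (1568000, [0, 0, 5]), (130000, [0, 0, 6]), (19200000, [0, 1,
    0]), (23968000, [0, 1, 1]), (-376000, [0, 1, 2]), (-7844480, [0, 1, 3]), (-3255760, [0, 1,
    4]), (-862400, [0, 1, 5]), (-71500, [0, 1, 6]), (8192000, [0, 2, 0]), (537600, [0, 2, 1]),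
    (-1477760, [0, 2, 2]), (-1300320, [0, 2, 3]), (-140400, [0, 2, 4]), (19059200, [0, 3, 0]),
    (-5078080, [0, 3, 1]), (-2375760, [0, 3, 2]), (-1324400, [0, 3, 3]), (-143000, [0, 3, 4]),
    (3328000, [0, 4, 0]), (-1747200, [0, 4, 1]), (-270400, [0, 4, 2]), (880000, [0, 5, 0]),
    (-462000, [0, 5, 1]), (-71500, [0, 5, 2]), (-34560000, [1, 0, 0]), (-80659200, [1, 0, 1]),
    (6449600, [1, 0, 2]), (-5680640, [1, 0, 3]), (-3460080, [1, 0, 4]), (-1019200, [1, 0, 5]),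
    (-84500, [1, 0, 6]), (45888000, [1, 1, 0]), (-22568000, [1, 1, 1]), (-8468560, [1, 1, 2]),
    (-1258208, [1, 1, 3]), (1429844, [1, 1, 4]), (560560, [1, 1, 5]), (46475, [1, 1, 6]),
    (2969600, [1, 2, 0]), (-4704000, [1, 2, 1]), (286624, [1, 2, 2]), (845208, [1, 2, 3]),
    (91260, [1, 2, 4]), (-3940480, [1, 3, 0]), (-1134448, [1, 3, 1]), (857844, [1, 3, 2]),
    (860860, [1, 3, 3]), (92950, [1, 3, 4]), (-2163200, [1, 4, 0]), (1135680, [1, 4, 1]),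
    (175760, [1, 4, 2]), (-572000, [1, 5, 0]), (300300, [1, 5, 1]), (46475, [1, 5, 2]),
    (6144000, [2, 0, 0]), (6809600, [2, 0, 1]), (13526720, [2, 0, 2]), (-2696960, [2, 0, 3]),
    (-291200, [2, 0, 4]), (6656000, [2, 1, 0]), (-9013760, [2, 1, 1]), (385664, [2, 1, 2]),
    (1483328, [2, 1, 3]), (160160, [2, 1, 4]), (-1935360, [2, 2, 0]), (1016064, [2, 2, 1]),
    (157248, [2, 2, 2]), (-1971200, [2, 3, 0]), (1034880, [2, 3, 1]), (160160, [2, 3, 2]),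
    (43161600, [3, 0, 0]), (-11011840, [3, 0, 1]), (-5462080, [3, 0, 2]), (-3130400, [3, 0,
    3]), (-338000, [3, 0, 4]), (-12090880, [3, 1, 0]), (-58688, [3, 1, 1]), (2057744, [3, 1,
    2]), (1721720, [3, 1, 3]), (185900, [3, 1, 4]), (-2246400, [3, 2, 0]), (1179360, [3, 2,
    1]), (182520, [3, 2, 2]), (-2288000, [3, 3, 0]), (1201200, [3, 3, 1]), (185900, [3, 3,
    2]), (13568000, [4, 0, 0]), (-7123200, [4, 0, 1]), (-1102400, [4, 0, 2]), (-7462400, [4,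
    1, 0]), (3917760, [4, 1, 1]), (606320, [4, 1, 2]), (4160000, [5, 0, 0]), (-2184000, [5, 0,
    1]), (-338000, [5, 0, 2]), (-2288000, [5, 1, 0]), (1201200, [5, 1, 1]), (185900, [5, 1,
    2])]] = true := by
  decide +kernel

theorem ve200 {a b t : ℝ}
    (ha0 : 0 ≤ a) (ha1 : a ≤ 1 / 2) (hb0 : 0 ≤ b) (hb1 : b ≤ 1 / 2) (ht0 : 0 ≤ t) (ht1 : t ≤ 1
    / 2) :
    0 ≤ 1091 / 1000 * ((1 - a * t) * (1 - a * t)) - (1 - 13 / 10 * a) * (1 - 11 / 10 * b) * (1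
    - 13 / 10 * t) * (1 + 1 / 4 * t) * (1 + 4 / 5 * a + 7 / 15 * b + 7 / 15 * t + (2 * a ^ 2 +
    b ^ 2 + t ^ 2) / 3) ^ 2 := by
  obtain ⟨m, hm, h⟩ := checkK_sound ve200_ok
    [(a - (0)) * (2), (b - (0)) * (2), (t - (0)) * (2)]
    (by
      intro a ha
      simp only [List.mem_cons, List.not_mem_nil, or_false] at ha
      rcases ha with rfl | rfl | rfl
      all_goals constructor
      all_goals linarith)
  simp only [List.mem_cons, List.not_mem_nil, or_false] at hm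
  subst hm
  · apply nonneg_of_mul_nonneg_right (a := (230400000 : ℝ)) _ (by norm_num)
    refine le_of_le_of_eq h ?_
    simp only [PBox.evm, PBox.mon, PBox.xs]
    push_cast
    ring

theorem ve201_ok : checkK 46 29 [5, 5, 6]
    O
    [[(20966400, [0, 0, 0]), (28800000, [0, 0, 1]), (19488000, [0, 0, 2]), (24806400, [0, 0,
    3]), (6300800, [0, 0, 4]), (1464000, [0, 0, 5]), (130000, [0, 0, 6]), (19200000, [0, 1,
    0]), (19104000, [0, 1, 1]), (347200, [0, 1, 2]), (-7192320, [0, 1, 3]), (-2737440, [0, 1,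
    4]), (-805200, [0, 1, 5]), (-71500, [0, 1, 6]), (8192000, [0, 2, 0]), (-153600, [0, 2,
    1]), (-1114880, [0, 2, 2]), (-1244160, [0, 2, 3]), (-140400, [0, 2, 4]), (19059200, [0, 3,
    0]), (-5782080, [0, 3, 1]), (-2006160, [0, 3, 2]), (-1267200, [0, 3, 3]), (-143000, [0, 3,
    4]), (3328000, [0, 4, 0]), (-1747200, [0, 4, 1]), (-270400, [0, 4, 2]), (880000, [0, 5,
    0]), (-462000, [0, 5, 1]), (-71500, [0, 5, 2]), (-34560000, [1, 0, 0]), (41184000, [1, 0,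
    1]), (6302400, [1, 0, 2]), (-5064960, [1, 0, 3]), (-2847520, [1, 0, 4]), (-951600, [1, 0,
    5]), (-84500, [1, 0, 6]), (45888000, [1, 1, 0]), (-22785600, [1, 1, 1]), (-7164560, [1, 1,
    2]), (-1407552, [1, 1, 3]), (1092936, [1, 1, 4]), (523380, [1, 1, 5]), (46475, [1, 1, 6]),
    (2969600, [1, 2, 0]), (-4254720, [1, 2, 1]), (50752, [1, 2, 2]), (808704, [1, 2, 3]),
    (91260, [1, 2, 4]), (-3940480, [1, 3, 0]), (-676848, [1, 3, 1]), (617604, [1, 3, 2]),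
    (823680, [1, 3, 3]), (92950, [1, 3, 4]), (-2163200, [1, 4, 0]), (1135680, [1, 4, 1]),
    (175760, [1, 4, 2]), (-572000, [1, 5, 0]), (300300, [1, 5, 1]), (46475, [1, 5, 2]),
    (6144000, [2, 0, 0]), (5376000, [2, 0, 1]), (-1431040, [2, 0, 2]), (-2580480, [2, 0, 3]),
    (-291200, [2, 0, 4]), (6656000, [2, 1, 0]), (-8225280, [2, 1, 1]), (-28288, [2, 1, 2]),
    (1419264, [2, 1, 3]), (160160, [2, 1, 4]), (-1935360, [2, 2, 0]), (1016064, [2, 2, 1]),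
    (157248, [2, 2, 2]), (-1971200, [2, 3, 0]), (1034880, [2, 3, 1]), (160160, [2, 3, 2]),
    (43161600, [3, 0, 0]), (-12675840, [3, 0, 1]), (-4588480, [3, 0, 2]), (-2995200, [3, 0,
    3]), (-338000, [3, 0, 4]), (-12090880, [3, 1, 0]), (856512, [3, 1, 1]), (1577264, [3, 1,
    2]), (1647360, [3, 1, 3]), (185900, [3, 1, 4]), (-2246400, [3, 2, 0]), (1179360, [3, 2,
    1]), (182520, [3, 2, 2]), (-2288000, [3, 3, 0]), (1201200, [3, 3, 1]), (185900, [3, 3,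
    2]), (13568000, [4, 0, 0]), (-7123200, [4, 0, 1]), (-1102400, [4, 0, 2]), (-7462400, [4,
    1, 0]), (3917760, [4, 1, 1]), (606320, [4, 1, 2]), (4160000, [5, 0, 0]), (-2184000, [5, 0,
    1]), (-338000, [5, 0, 2]), (-2288000, [5, 1, 0]), (1201200, [5, 1, 1]), (185900, [5, 1,
    2])]] = true := by
  decide +kernel

theorem ve201 {a b t : ℝ}
    (ha0 : 0 ≤ a) (ha1 : a ≤ 1 / 2) (hb0 : 0 ≤ b) (hb1 : b ≤ 1 / 2) (ht0 : 0 ≤ t) (ht1 : t ≤ 1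
    / 2) :
    0 ≤ 1091 / 1000 * ((1 - 0) * (1 - 0)) - (1 - 13 / 10 * a) * (1 - 11 / 10 * b) * (1 - 13 /
    10 * t) * (1 + 1 / 4 * t) * (1 + 4 / 5 * a + 7 / 15 * b + 2 / 5 * t + (2 * a ^ 2 + b ^ 2 +
    t ^ 2) / 3) ^ 2 := by
  obtain ⟨m, hm, h⟩ := checkK_sound ve201_ok
    [(a - (0)) * (2), (b - (0)) * (2), (t - (0)) * (2)]
    (by
      intro a ha
      simp only [List.mem_cons, List.not_mem_nil, or_false] at ha
      rcases ha with rfl | rfl | rfl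
      all_goals constructor
      all_goals linarith)
  simp only [List.mem_cons, List.not_mem_nil, or_false] at hm
  subst hm
  · apply nonneg_of_mul_nonneg_right (a := (230400000 : ℝ)) _ (by norm_num)
    refine le_of_le_of_eq h ?_
    simp only [PBox.evm, PBox.mon, PBox.xs]
    push_cast
    ring

theorem ve220_ok : checkK 56 29 [5, 5, 6]
    (N 0 O O)
    [[(20966400, [0, 0, 0]), (13440000, [0, 0, 1]), (24224000, [0, 0, 2]), (26521600, [0, 0,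
    3]), (7243200, [0, 0, 4]), (1568000, [0, 0, 5]), (130000, [0, 0, 6]), (34560000, [0, 1,
    0]), (19488000, [0, 1, 1]), (-2225600, [0, 1, 2]), (-8807680, [0, 1, 3]), (-3359760, [0,
    1, 4]), (-862400, [0, 1, 5]), (-71500, [0, 1, 6]), (3072000, [0, 2, 0]), (1254400, [0, 2,
    1]), (-730880, [0, 2, 2]), (-770560, [0, 2, 3]), (-83200, [0, 2, 4]), (18508800, [0, 3,
    0]), (-4789120, [0, 3, 1]), (-2331040, [0, 3, 2]), (-1324400, [0, 3, 3]), (-143000, [0, 3,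
    4]), (2624000, [0, 4, 0]), (-1377600, [0, 4, 1]), (-213200, [0, 4, 2]), (880000, [0, 5,
    0]), (-462000, [0, 5, 1]), (-71500, [0, 5, 2]), (-34560000, [1, 0, 0]), (-80659200, [1, 0,
    1]), (6449600, [1, 0, 2]), (-5680640, [1, 0, 3]), (-3460080, [1, 0, 4]), (-1019200, [1, 0,
    5]), (-84500, [1, 0, 6]), (42048000, [1, 1, 0]), (-22881600, [1, 1, 1]), (-7765520, [1, 1,
    2]), (-632128, [1, 1, 3]), (1497444, [1, 1, 4]), (560560, [1, 1, 5]), (46475, [1, 1, 6]),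
    (2918400, [1, 2, 0]), (-3395840, [1, 2, 1]), (75712, [1, 2, 2]), (500864, [1, 2, 3]),
    (54080, [1, 2, 4]), (-3582720, [1, 3, 0]), (-1322272, [1, 3, 1]), (828776, [1, 3, 2]),
    (860860, [1, 3, 3]), (92950, [1, 3, 4]), (-1705600, [1, 4, 0]), (895440, [1, 4, 1]),
    (138580, [1, 4, 2]), (-572000, [1, 5, 0]), (300300, [1, 5, 1]), (46475, [1, 5, 2]),
    (6144000, [2, 0, 0]), (6809600, [2, 0, 1]), (13526720, [2, 0, 2]), (-2696960, [2, 0, 3]),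
    (-291200, [2, 0, 4]), (5222400, [2, 1, 0]), (-8261120, [2, 1, 1]), (502144, [2, 1, 2]),
    (1483328, [2, 1, 3]), (160160, [2, 1, 4]), (-1146880, [2, 2, 0]), (602112, [2, 2, 1]),
    (93184, [2, 2, 2]), (-1971200, [2, 3, 0]), (1034880, [2, 3, 1]), (160160, [2, 3, 2]),
    (43161600, [3, 0, 0]), (-11011840, [3, 0, 1]), (-5462080, [3, 0, 2]), (-3130400, [3, 0,
    3]), (-338000, [3, 0, 4]), (-13754880, [3, 1, 0]), (814912, [3, 1, 1]), (2192944, [3, 1,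
    2]), (1721720, [3, 1, 3]), (185900, [3, 1, 4]), (-1331200, [3, 2, 0]), (698880, [3, 2,
    1]), (108160, [3, 2, 2]), (-2288000, [3, 3, 0]), (1201200, [3, 3, 1]), (185900, [3, 3,
    2]), (13568000, [4, 0, 0]), (-7123200, [4, 0, 1]), (-1102400, [4, 0, 2]), (-7462400, [4,
    1, 0]), (3917760, [4, 1, 1]), (606320, [4, 1, 2]), (4160000, [5, 0, 0]), (-2184000, [5, 0,
    1]), (-338000, [5, 0, 2]), (-2288000, [5, 1, 0]), (1201200, [5, 1, 1]), (185900, [5, 1,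
    2])]] = true := by
  decide +kernel

theorem ve220 {a b t : ℝ}
    (ha0 : 0 ≤ a) (ha1 : a ≤ 1 / 2) (hb0 : 0 ≤ b) (hb1 : b ≤ 1 / 2) (ht0 : 0 ≤ t) (ht1 : t ≤ 1
    / 2) :
    0 ≤ 1091 / 1000 * ((1 - a * t) * (1 - a * t)) - (1 - 13 / 10 * a) * (1 - 11 / 10 * b) * (1
    - 13 / 10 * t) * (1 + 1 / 4 * t) * (1 + 4 / 5 * a + 2 / 5 * b + 7 / 15 * t + (2 * a ^ 2 +
    b ^ 2 + t ^ 2) / 3) ^ 2 := by
  obtain ⟨m, hm, h⟩ := checkK_sound ve220_ok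
    [(a - (0)) * (2), (b - (0)) * (2), (t - (0)) * (2)]
    (by
      intro a ha
      simp only [List.mem_cons, List.not_mem_nil, or_false] at ha
      rcases ha with rfl | rfl | rfl
      all_goals constructor
      all_goals linarith)
  simp only [List.mem_cons, List.not_mem_nil, or_false] at hm
  subst hm
  · apply nonneg_of_mul_nonneg_right (a := (230400000 : ℝ)) _ (by norm_num)
    refine le_of_le_of_eq h ?_
    simp only [PBox.evm, PBox.mon, PBox.xs]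
    push_cast
    ring

theorem ve221_ok : checkK 46 29 [5, 5, 6]
    O
    [[(20966400, [0, 0, 0]), (28800000, [0, 0, 1]), (19488000, [0, 0, 2]), (24806400, [0, 0,
    3]), (6300800, [0, 0, 4]), (1464000, [0, 0, 5]), (130000, [0, 0, 6]), (34560000, [0, 1,
    0]), (-48729600, [0, 1, 1]), (-1233600, [0, 1, 2]), (-8113920, [0, 1, 3]), (-2841440, [0,
    1, 4]), (-805200, [0, 1, 5]), (-71500, [0, 1, 6]), (3072000, [0, 2, 0]), (844800, [0, 2,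
    1]), (-515840, [0, 2, 2]), (-737280, [0, 2, 3]), (-83200, [0, 2, 4]), (18508800, [0, 3,
    0]), (-5493120, [0, 3, 1]), (-1961440, [0, 3, 2]), (-1267200, [0, 3, 3]), (-143000, [0, 3,
    4]), (2624000, [0, 4, 0]), (-1377600, [0, 4, 1]), (-213200, [0, 4, 2]), (880000, [0, 5,
    0]), (-462000, [0, 5, 1]), (-71500, [0, 5, 2]), (-34560000, [1, 0, 0]), (41184000, [1, 0,
    1]), (6302400, [1, 0, 2]), (-5064960, [1, 0, 3]), (-2847520, [1, 0, 4]), (-951600, [1, 0,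
    5]), (-84500, [1, 0, 6]), (42048000, [1, 1, 0]), (-22766400, [1, 1, 1]), (-6636240, [1, 1,
    2]), (-808512, [1, 1, 3]), (1160536, [1, 1, 4]), (523380, [1, 1, 5]), (46475, [1, 1, 6]),
    (2918400, [1, 2, 0]), (-3129600, [1, 2, 1]), (-64064, [1, 2, 2]), (479232, [1, 2, 3]),
    (54080, [1, 2, 4]), (-3582720, [1, 3, 0]), (-864672, [1, 3, 1]), (588536, [1, 3, 2]),
    (823680, [1, 3, 3]), (92950, [1, 3, 4]), (-1705600, [1, 4, 0]), (895440, [1, 4, 1]),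
    (138580, [1, 4, 2]), (-572000, [1, 5, 0]), (300300, [1, 5, 1]), (46475, [1, 5, 2]),
    (6144000, [2, 0, 0]), (5376000, [2, 0, 1]), (-1431040, [2, 0, 2]), (-2580480, [2, 0, 3]),
    (-291200, [2, 0, 4]), (5222400, [2, 1, 0]), (-7472640, [2, 1, 1]), (88192, [2, 1, 2]),
    (1419264, [2, 1, 3]), (160160, [2, 1, 4]), (-1146880, [2, 2, 0]), (602112, [2, 2, 1]),
    (93184, [2, 2, 2]), (-1971200, [2, 3, 0]), (1034880, [2, 3, 1]), (160160, [2, 3, 2]),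
    (43161600, [3, 0, 0]), (-12675840, [3, 0, 1]), (-4588480, [3, 0, 2]), (-2995200, [3, 0,
    3]), (-338000, [3, 0, 4]), (-13754880, [3, 1, 0]), (1730112, [3, 1, 1]), (1712464, [3, 1,
    2]), (1647360, [3, 1, 3]), (185900, [3, 1, 4]), (-1331200, [3, 2, 0]), (698880, [3, 2,
    1]), (108160, [3, 2, 2]), (-2288000, [3, 3, 0]), (1201200, [3, 3, 1]), (185900, [3, 3,
    2]), (13568000, [4, 0, 0]), (-7123200, [4, 0, 1]), (-1102400, [4, 0, 2]), (-7462400, [4,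
    1, 0]), (3917760, [4, 1, 1]), (606320, [4, 1, 2]), (4160000, [5, 0, 0]), (-2184000, [5, 0,
    1]), (-338000, [5, 0, 2]), (-2288000, [5, 1, 0]), (1201200, [5, 1, 1]), (185900, [5, 1,
    2])]] = true := by
  decide +kernel

theorem ve221 {a b t : ℝ}
    (ha0 : 0 ≤ a) (ha1 : a ≤ 1 / 2) (hb0 : 0 ≤ b) (hb1 : b ≤ 1 / 2) (ht0 : 0 ≤ t) (ht1 : t ≤ 1
    / 2) :
    0 ≤ 1091 / 1000 * ((1 - b * t) * (1 - 0)) - (1 - 13 / 10 * a) * (1 - 11 / 10 * b) * (1 -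
    13 / 10 * t) * (1 + 1 / 4 * t) * (1 + 4 / 5 * a + 2 / 5 * b + 2 / 5 * t + (2 * a ^ 2 + b ^
    2 + t ^ 2) / 3) ^ 2 := by
  obtain ⟨m, hm, h⟩ := checkK_sound ve221_ok
    [(a - (0)) * (2), (b - (0)) * (2), (t - (0)) * (2)]
    (by
      intro a ha
      simp only [List.mem_cons, List.not_mem_nil, or_false] at ha
      rcases ha with rfl | rfl | rfl
      all_goals constructor
      all_goals linarith)
  simp only [List.mem_cons, List.not_mem_nil, or_false] at hm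
  subst hm
  · apply nonneg_of_mul_nonneg_right (a := (230400000 : ℝ)) _ (by norm_num)
    refine le_of_le_of_eq h ?_
    simp only [PBox.evm, PBox.mon, PBox.xs]
    push_cast
    ring

end Pool.Agent.Helper55.TentK
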