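import Pool.Agent.Helper55.MEI.Tent4
import Pool.Agent.Helper55.MEI.TentK1
import Pool.Agent.Helper55.MEI.TentK2

/-!
# Product form of the apex mass: the eight distributions of the columns
-/

namespace Pool.Agent.Helper55.TentL

open Set MeasureTheory Matrix Pool.Agent.Helper55.Sx Pool.Agent.Helper55.Mass
open Pool.Agent.Helper55.Apex Pool.Agent.Helper55.Fill Pool.Agent.Helper55.ApexP
open Helper75.MEI2 (vt Qf mu TC nn dd cc)

variable {N : Fin 3 → Fin 3 → ℝ}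

theorem col_g {p q r : ℝ} (hp' : p ≤ 1 / 2) (hq : 0 ≤ q) (hr : 0 ≤ r) (hr' : r ≤ 1) :
    p * (q * (1 + r)) ≤ q := by
  have h1 : p * (1 + r) ≤ 1 / 2 * 2 := by
    have h2 : p * (1 + r) ≤ 1 / 2 * (1 + r) := mul_le_mul_of_nonneg_right hp' (by linarith)
    linarith
  calc p * (q * (1 + r)) = q * (p * (1 + r)) := by ring
    _ ≤ q * 1 := mul_le_mul_of_nonneg_left (by linarith) hq
    _ = q := mul_one q

/-- cone, cyclic distribution -/
theorem vcyc {x y z a b t C D F : ℝ} (hx : 0 ≤ x) (hy : 0 ≤ y) (hz : 0 ≤ z)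
    (h : x + y + z = 1) (a0 : 0 ≤ a) (a1 : a ≤ 1 / 2) (b0 : 0 ≤ b) (b1 : b ≤ 1 / 2)
    (t0 : 0 ≤ t) (t1 : t ≤ 1 / 2)
    (hC : C = 1 - 2 / 15 * (x * y + x * z + y * z) + a * kp y x + b * kp z y + t * kp x z
      + ((1 + x) * a ^ 2 + (1 + y) * b ^ 2 + (1 + z) * t ^ 2) / 3)
    (hD : D = 1)
    (hF : F = 1 - (x * y + x * z + y * z) + (a * (x * (1 + y)) + b * (y * (1 + z))
      + t * (z * (1 + x)))) :
    (1 - 19 / 20 * a) * (1 - 19 / 20 * b) * (1 - 19 / 20 * t) * C ^ 2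
      ≤ 1119 / 1000 * (D * √F) := by
  have hz' : z = 1 - x - y := by linarith
  have e0 : 0 ≤ x * y + x * z + y * z := by positivity
  have e1 : x * y + x * z + y * z ≤ 1 / 3 := by
    nlinarith [sq_nonneg (x - y), sq_nonneg (x - z), sq_nonneg (y - z)]
  have v0 : 0 ≤ a * (x * (1 + y)) + b * (y * (1 + z)) + t * (z * (1 + x)) := by positivity
  have v1 : a * (x * (1 + y)) + b * (y * (1 + z)) + t * (z * (1 + x)) ≤ 2 := by
    have := col_g a1 hx hy (by linarith)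
    have := col_g b1 hy hz (by linarith)
    have := col_g t1 hz hx (by linarith)
    linarith
  have hs := sqrt_low2 e0 e1 v0 v1
  rw [hD, hF, hC, one_mul]
  have hs' := mul_le_mul_of_nonneg_left hs (show (0 : ℝ) ≤ 1119 / 1000 by norm_num)
  refine le_trans ?_ hs'
  rw [← sub_nonneg]
  have k := TentK.cyc hx (by linarith) hy (by linarith) a0 a1 b0 b1 t0 t1
    (show x + y - 1 ≤ 0 by linarith)
  refine le_of_le_of_eq k ?_
  rw [hz']
  unfold kp
  ring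

/-- cone, distribution with a mutual pair -/
theorem vmtl {x y z a b t C D F : ℝ} (hx : 0 ≤ x) (hy : 0 ≤ y) (hz : 0 ≤ z)
    (h : x + y + z = 1) (a0 : 0 ≤ a) (a1 : a ≤ 1 / 2) (b0 : 0 ≤ b) (b1 : b ≤ 1 / 2)
    (t0 : 0 ≤ t) (t1 : t ≤ 1 / 2)
    (hC : C = 1 - 2 / 15 * (x * y + x * z + y * z) + a * kp y x + b * kp x y + t * kp x z
      + ((1 + x) * a ^ 2 + (1 + y) * b ^ 2 + (1 + z) * t ^ 2) / 3)
    (hD : D = 1 - a * b)
    (hF : F = 1 - (x * y + x * z + y * z) + (a * (x * (1 + y)) + b * (y * (1 + x))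
      + t * (z * (1 + x)))) :
    (1 - 19 / 20 * a) * (1 - 19 / 20 * b) * (1 - 19 / 20 * t) * C ^ 2
      ≤ 1119 / 1000 * (D * √F) := by
  have hz' : z = 1 - x - y := by linarith
  have e0 : 0 ≤ x * y + x * z + y * z := by positivity
  have e1 : x * y + x * z + y * z ≤ 1 / 3 := by
    nlinarith [sq_nonneg (x - y), sq_nonneg (x - z), sq_nonneg (y - z)]
  have v0 : 0 ≤ a * (x * (1 + y)) + b * (y * (1 + x)) + t * (z * (1 + x)) := by positivity
  have v1 : a * (x * (1 + y)) + b * (y * (1 + x)) + t * (z * (1 + x)) ≤ 2 := by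
    have := col_g a1 hx hy (by linarith)
    have := col_g b1 hy hx (by linarith)
    have := col_g t1 hz hx (by linarith)
    linarith
  have hs := sqrt_low2 e0 e1 v0 v1
  have hab : 0 ≤ 1 - a * b := by nlinarith
  rw [hD, hF, hC]
  have hs' := mul_le_mul_of_nonneg_left (mul_le_mul_of_nonneg_left hs hab)
    (show (0 : ℝ) ≤ 1119 / 1000 by norm_num)
  refine le_trans ?_ hs'
  rw [← sub_nonneg]
  have k := TentK.mtl hx (by linarith) hy (by linarith) a0 a1 b0 b1 t0 t1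
    (show x + y - 1 ≤ 0 by linarith)
  refine le_of_le_of_eq k ?_
  rw [hz']
  unfold kp
  ring

/-- **cone**: all distributions -/
theorem cone_all {A t : Fin 3 → ℝ} (hA : ∀ k, 0 ≤ A k)
    (hs : A 0 + A 1 + A 2 = 1) (ht : ∀ k, 0 ≤ t k) (ht2 : ∀ k, t k ≤ 1 / 2)
    {x y z : ℝ} (x0 : 0 ≤ x) (x1 : x ≤ 1) (y0 : 0 ≤ y) (y1 : y ≤ 1) (z0 : 0 ≤ z) (z1 : z ≤ 1) :
    (1 - 19 / 20 * t 0) * (1 - 19 / 20 * t 1) * (1 - 19 / 20 * t 2) * Cw A t x y z ^ 2
      ≤ 1119 / 1000 * (Dw t x y z * √(Fw A t x y z)) := by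
  have A0 := hA 0
  have A1 := hA 1
  have A2 := hA 2
  have t0 := ht 0
  have t1 := ht 1
  have t2 := ht 2
  have s0 := ht2 0
  have s1 := ht2 1
  have s2 := ht2 2
  have hP : 0 ≤ (1 - 19 / 20 * t 0) * (1 - 19 / 20 * t 1) * (1 - 19 / 20 * t 2) :=
    mul_nonneg (mul_nonneg (by linarith) (by linarith)) (by linarith)
  have O0 : (0 : ℝ) ≤ 0 := le_rfl
  have O1 : (0 : ℝ) ≤ 1 := zero_le_one
  have I1 : (1 : ℝ) ≤ 1 := le_rfl
  refine mix3 (W := fun a b c => √(Fw A t a b c)) (by norm_num) hP hA hs ht ht2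
    (fun _ _ _ _ _ _ _ _ _ => Real.sqrt_nonneg _) ?_ ?_ ?_ ?_ ?_ ?_ ?_ ?_ ?_ ?_ ?_
    x0 x1 y0 y1 z0 z1
  · intro a b c a0 a1 b0 b1 c0 c1
    have := sqrt_mix a0 a1 (Fw_nonneg hA hs ht O0 b0 c0 O1 b1 c1)
      (Fw_nonneg hA hs ht O1 b0 c0 I1 b1 c1)
    refine this.trans (le_of_eq ?_)
    congr 1
    unfold Fw
    ring
  · intro a b c a0 a1 b0 b1 c0 c1
    have := sqrt_mix b0 b1 (Fw_nonneg hA hs ht a0 O0 c0 a1 O1 c1)
      (Fw_nonneg hA hs ht a0 O1 c0 a1 I1 c1)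
    refine this.trans (le_of_eq ?_)
    congr 1
    unfold Fw
    ring
  · intro a b c a0 a1 b0 b1 c0 c1
    have := sqrt_mix c0 c1 (Fw_nonneg hA hs ht a0 b0 O0 a1 b1 O1)
      (Fw_nonneg hA hs ht a0 b0 O1 a1 b1 I1)
    refine this.trans (le_of_eq ?_)
    congr 1
    unfold Fw
    ring
  · have := vmtl (C := Cw A t 0 0 0) (D := Dw t 0 0 0) (F := Fw A t 0 0 0) A2 A1 A0
      (by linarith) t2 s2 t1 s1 t0 s0 (by unfold Cw; ring) (by unfold Dw; ring)
      (by unfold Fw; ring)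
    refine le_trans (le_of_eq ?_) this
    ring
  · have := vmtl (C := Cw A t 0 0 1) (D := Dw t 0 0 1) (F := Fw A t 0 0 1) A2 A0 A1
      (by linarith) t2 s2 t0 s0 t1 s1 (by unfold Cw; ring) (by unfold Dw; ring)
      (by unfold Fw; ring)
    refine le_trans (le_of_eq ?_) this
    ring
  · have := vcyc (C := Cw A t 0 1 0) (D := Dw t 0 1 0) (F := Fw A t 0 1 0) A0 A2 A1
      (by linarith) t0 s0 t2 s2 t1 s1 (by unfold Cw; ring) (by unfold Dw; ring)
      (by unfold Fw; ring)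
    refine le_trans (le_of_eq ?_) this
    ring
  · have := vmtl (C := Cw A t 0 1 1) (D := Dw t 0 1 1) (F := Fw A t 0 1 1) A0 A2 A1
      (by linarith) t0 s0 t2 s2 t1 s1 (by unfold Cw; ring) (by unfold Dw; ring)
      (by unfold Fw; ring)
    refine le_trans (le_of_eq ?_) this
    ring
  · have := vmtl (C := Cw A t 1 0 0) (D := Dw t 1 0 0) (F := Fw A t 1 0 0) A1 A2 A0
      (by linarith) t1 s1 t2 s2 t0 s0 (by unfold Cw; ring) (by unfold Dw; ring)
      (by unfold Fw; ring)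
    refine le_trans (le_of_eq ?_) this
    ring
  · have := vcyc (C := Cw A t 1 0 1) (D := Dw t 1 0 1) (F := Fw A t 1 0 1) A0 A1 A2
      (by linarith) t0 s0 t1 s1 t2 s2 (by unfold Cw; ring) (by unfold Dw; ring)
      (by unfold Fw; ring)
    exact this
  · have := vmtl (C := Cw A t 1 1 0) (D := Dw t 1 1 0) (F := Fw A t 1 1 0) A1 A0 A2
      (by linarith) t1 s1 t0 s0 t2 s2 (by unfold Cw; ring) (by unfold Dw; ring)
      (by unfold Fw; ring)
    refine le_trans (le_of_eq ?_) this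
    ring
  · have := vmtl (C := Cw A t 1 1 1) (D := Dw t 1 1 1) (F := Fw A t 1 1 1) A0 A1 A2
      (by linarith) t0 s0 t1 s1 t2 s2 (by unfold Cw; ring) (by unfold Dw; ring)
      (by unfold Fw; ring)
    exact this

/-- the loss of the clipped coordinate `2` -/
noncomputable def l2w (A t : Fin 3 → ℝ) (w0 w1 : ℝ) : ℝ :=
  t 2 * (t 0 * (1 - w0) * A 0 + t 1 * (1 - w1) * A 1)

/-- clipped coordinate `2`, one distribution -/
theorem vclip {x y a b t P C D W L : ℝ} (hx : 0 ≤ x) (hy : 0 ≤ y) (h : x + y = 1) (hD : 0 ≤ D)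
    (hW : W = √(1 - x * y) - L)
    (k : 0 ≤ 1091 / 1000 * (D * (1 - 536 / 1000 * (x * (1 - x)) - L)) - P * C ^ 2)
    (hP : P = (1 - 13 / 10 * a) * (1 - 13 / 10 * b) * (1 - 11 / 10 * t)) :
    (1 - 13 / 10 * a) * (1 - 13 / 10 * b) * (1 - 11 / 10 * t) * C ^ 2
      ≤ 1091 / 1000 * (D * W) := by
  have hy' : y = 1 - x := by linarith
  have e0 : 0 ≤ x * y := by positivity
  have e1 : x * y ≤ 1 / 4 := by nlinarith [sq_nonneg (x - y)]
  have hs := sqrt_chord4 e0 e1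
  have g : 1 - 536 / 1000 * (x * (1 - x)) - L ≤ W := by
    rw [hW]
    rw [hy'] at hs ⊢
    linarith
  have := mul_le_mul_of_nonneg_left (mul_le_mul_of_nonneg_left g hD)
    (show (0 : ℝ) ≤ 1091 / 1000 by norm_num)
  rw [← hP]
  linarith

/-- **clipped coordinate `2`**: all distributions -/
theorem clip_all {A t : Fin 3 → ℝ} (hA : ∀ k, 0 ≤ A k)
    (hs : A 0 + A 1 + A 2 = 1) (hz : A 2 = 0) (ht : ∀ k, 0 ≤ t k) (ht2 : ∀ k, t k ≤ 1 / 2)
    {x y z : ℝ} (x0 : 0 ≤ x) (x1 : x ≤ 1) (y0 : 0 ≤ y) (y1 : y ≤ 1) (z0 : 0 ≤ z) (z1 : z ≤ 1) :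
    (1 - 13 / 10 * t 0) * (1 - 13 / 10 * t 1) * (1 - 11 / 10 * t 2) * Cw A t x y z ^ 2
      ≤ 1091 / 1000 * (Dw t x y z * (√(1 - A 0 * A 1) - l2w A t x y)) := by
  have A0 := hA 0
  have A1 := hA 1
  have t0 := ht 0
  have t1 := ht 1
  have t2 := ht 2
  have s0 := ht2 0
  have s1 := ht2 1
  have s2 := ht2 2
  have hs' : A 0 + A 1 = 1 := by linarith
  have A1' : A 1 = 1 - A 0 := by linarith
  have hP : 0 ≤ (1 - 13 / 10 * t 0) * (1 - 13 / 10 * t 1) * (1 - 11 / 10 * t 2) :=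
    mul_nonneg (mul_nonneg (by linarith) (by linarith)) (by linarith)
  have e0 : 0 ≤ A 0 * A 1 := by positivity
  have e1 : A 0 * A 1 ≤ 1 / 4 := by nlinarith [sq_nonneg (A 0 - A 1)]
  have hsq := sqrt_chord4 e0 e1
  have O0 : (0 : ℝ) ≤ 0 := le_rfl
  have O1 : (0 : ℝ) ≤ 1 := zero_le_one
  have I1 : (1 : ℝ) ≤ 1 := le_rfl
  have dn : ∀ u v w : ℝ, 0 ≤ u → u ≤ 1 → 0 ≤ v → v ≤ 1 → 0 ≤ w → w ≤ 1 → 0 ≤ Dw t u v w :=
    fun u v w a0 a1 b0 b1 c0 c1 => Dw_nonneg ht ht2 a0 b0 c0 a1 b1 c1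
  refine mix3 (W := fun a b _ => √(1 - A 0 * A 1) - l2w A t a b) (by norm_num) hP hA hs ht ht2
    ?_ ?_ ?_ ?_ ?_ ?_ ?_ ?_ ?_ ?_ ?_ ?_ x0 x1 y0 y1 z0 z1
  · intro a b c a0 a1 b0 b1 _ _
    have g0 : t 0 * (1 - a) * A 0 ≤ 1 / 2 * A 0 := by
      have : t 0 * (1 - a) ≤ 1 / 2 := by nlinarith
      exact mul_le_mul_of_nonneg_right this A0
    have g1 : t 1 * (1 - b) * A 1 ≤ 1 / 2 * A 1 := by
      have : t 1 * (1 - b) ≤ 1 / 2 := by nlinarith
      exact mul_le_mul_of_nonneg_right this A1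
    have g2 : 0 ≤ t 0 * (1 - a) * A 0 + t 1 * (1 - b) * A 1 := by
      have : 0 ≤ 1 - a := by linarith
      have : 0 ≤ 1 - b := by linarith
      positivity
    have g3 : l2w A t a b ≤ 1 / 4 := by
      unfold l2w
      nlinarith
    linarith
  · intro a b c _ _ _ _ _ _
    refine le_of_eq ?_
    unfold l2w
    ring
  · intro a b c _ _ _ _ _ _
    refine le_of_eq ?_
    unfold l2w
    ring
  · intro a b c _ _ _ _ _ _
    refine le_of_eq ?_
    ring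
  · have k := TentK.cl4 A1 (by linarith) t1 s1 t0 s0 t2 s2
    have := vclip (C := Cw A t 0 0 0) (D := Dw t 0 0 0) (L := l2w A t 0 0) (a := t 1) (b := t 0)
      (t := t 2) A1 A0 (by linarith)
      (dn 0 0 0 O0 O1 O0 O1 O0 O1) (by rw [mul_comm (A 1)])
      (by
        refine le_of_le_of_eq k ?_
        unfold Cw Dw l2w kp
        rw [hz, A1']
        ring) rfl
    refine le_trans (le_of_eq ?_) this
    ring
  · have k := TentK.cl4 A0 (by linarith) t0 s0 t1 s1 t2 s2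
    exact vclip (C := Cw A t 0 0 1) (D := Dw t 0 0 1) (L := l2w A t 0 0) (a := t 0) (b := t 1)
      (t := t 2) A0 A1 hs'
      (dn 0 0 1 O0 O1 O0 O1 O1 I1) rfl
      (by
        refine le_of_le_of_eq k ?_
        unfold Cw Dw l2w kp
        rw [hz, A1']
        ring) rfl
  · have k := TentK.cl2 A1 (by linarith) t1 s1 t0 s0 t2 s2
    have := vclip (C := Cw A t 0 1 0) (D := Dw t 0 1 0) (L := l2w A t 0 1) (a := t 1) (b := t 0)
      (t := t 2) A1 A0 (by linarith)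
      (dn 0 1 0 O0 O1 O1 I1 O0 O1) (by rw [mul_comm (A 1)])
      (by
        refine le_of_le_of_eq k ?_
        unfold Cw Dw l2w kp
        rw [hz, A1']
        ring) rfl
    refine le_trans (le_of_eq ?_) this
    ring
  · have k := TentK.cl3 A1 (by linarith) t1 s1 t0 s0 t2 s2
    have := vclip (C := Cw A t 0 1 1) (D := Dw t 0 1 1) (L := l2w A t 0 1) (a := t 1) (b := t 0)
      (t := t 2) A1 A0 (by linarith)
      (dn 0 1 1 O0 O1 O1 I1 O1 I1) (by rw [mul_comm (A 1)])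
      (by
        refine le_of_le_of_eq k ?_
        unfold Cw Dw l2w kp
        rw [hz, A1']
        ring) rfl
    refine le_trans (le_of_eq ?_) this
    ring
  · have k := TentK.cl3 A0 (by linarith) t0 s0 t1 s1 t2 s2
    exact vclip (C := Cw A t 1 0 0) (D := Dw t 1 0 0) (L := l2w A t 1 0) (a := t 0) (b := t 1)
      (t := t 2) A0 A1 hs'
      (dn 1 0 0 O1 I1 O0 O1 O0 O1) rfl
      (by
        refine le_of_le_of_eq k ?_
        unfold Cw Dw l2w kp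
        rw [hz, A1']
        ring) rfl
  · have k := TentK.cl2 A0 (by linarith) t0 s0 t1 s1 t2 s2
    exact vclip (C := Cw A t 1 0 1) (D := Dw t 1 0 1) (L := l2w A t 1 0) (a := t 0) (b := t 1)
      (t := t 2) A0 A1 hs'
      (dn 1 0 1 O1 I1 O0 O1 O1 I1) rfl
      (by
        refine le_of_le_of_eq k ?_
        unfold Cw Dw l2w kp
        rw [hz, A1']
        ring) rfl
  · have k := TentK.cl1 A1 (by linarith) t1 s1 t0 s0 t2 s2
    have := vclip (C := Cw A t 1 1 0) (D := Dw t 1 1 0) (L := l2w A t 1 1) (a := t 1) (b := t 0)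
      (t := t 2) A1 A0 (by linarith)
      (dn 1 1 0 O1 I1 O1 I1 O0 O1) (by rw [mul_comm (A 1)])
      (by
        refine le_of_le_of_eq k ?_
        unfold Cw Dw l2w kp
        rw [hz, A1']
        ring) rfl
    refine le_trans (le_of_eq ?_) this
    ring
  · have k := TentK.cl1 A0 (by linarith) t0 s0 t1 s1 t2 s2
    exact vclip (C := Cw A t 1 1 1) (D := Dw t 1 1 1) (L := l2w A t 1 1) (a := t 0) (b := t 1)
      (t := t 2) A0 A1 hs'
      (dn 1 1 1 O1 I1 O1 I1 O1 I1) rfl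
      (by
        refine le_of_le_of_eq k ?_
        unfold Cw Dw l2w kp
        rw [hz, A1']
        ring) rfl

/-- **two clipped coordinates `1`, `2`**: all distributions -/
theorem vert_all {t : Fin 3 → ℝ} (ht : ∀ k, 0 ≤ t k) (ht2 : ∀ k, t k ≤ 1 / 2)
    {x y z : ℝ} (x0 : 0 ≤ x) (x1 : x ≤ 1) (y0 : 0 ≤ y) (y1 : y ≤ 1) (z0 : 0 ≤ z) (z1 : z ≤ 1) :
    (1 - 13 / 10 * t 0) * (1 - 11 / 10 * t 1) * (1 - 13 / 10 * t 2) * (1 + 1 / 4 * t 2)
      * Cw ![1, 0, 0] t x y z ^ 2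
      ≤ 1091 / 1000 * (Dw t x y z * (1 - (t 0 * t 1 * (x * y) + t 0 * t 2 * ((1 - x) * z)))) := by
  have t0 := ht 0
  have t1 := ht 1
  have t2 := ht 2
  have s0 := ht2 0
  have s1 := ht2 1
  have s2 := ht2 2
  have hP : 0 ≤ (1 - 13 / 10 * t 0) * (1 - 11 / 10 * t 1) * (1 - 13 / 10 * t 2)
      * (1 + 1 / 4 * t 2) :=
    mul_nonneg (mul_nonneg (mul_nonneg (by linarith) (by linarith)) (by linarith)) (by linarith)
  have hA : ∀ k : Fin 3, (0 : ℝ) ≤ (![1, 0, 0] : Fin 3 → ℝ) k := by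
    intro k
    fin_cases k
    · exact zero_le_one
    · exact le_rfl
    · exact le_rfl
  have hs : (![1, 0, 0] : Fin 3 → ℝ) 0 + (![1, 0, 0] : Fin 3 → ℝ) 1
      + (![1, 0, 0] : Fin 3 → ℝ) 2 = 1 := by
    show (1 : ℝ) + 0 + 0 = 1
    norm_num
  have q0 : (![1, 0, 0] : Fin 3 → ℝ) 0 = 1 := rfl
  have q1 : (![1, 0, 0] : Fin 3 → ℝ) 1 = 0 := rfl
  have q2 : (![1, 0, 0] : Fin 3 → ℝ) 2 = 0 := rfl
  refine mix3 (W := fun a b c => 1 - (t 0 * t 1 * (a * b) + t 0 * t 2 * ((1 - a) * c)))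
    (by norm_num) hP hA hs ht ht2 ?_ ?_ ?_ ?_ ?_ ?_ ?_ ?_ ?_ ?_ ?_ ?_ x0 x1 y0 y1 z0 z1
  · intro a b c a0 a1 b0 b1 c0 c1
    have g : ∀ p q r s : ℝ, 0 ≤ p → 0 ≤ q → p ≤ 1 / 2 → q ≤ 1 / 2 → 0 ≤ r → 0 ≤ s → r ≤ 1 →
      s ≤ 1 → p * q * (r * s) ≤ 1 / 4 := by
      intro p q r s hp hq hp' hq' hr hs hr' hs'
      have h1 : p * q ≤ 1 / 4 := by nlinarith
      have h2 : r * s ≤ 1 := by nlinarith
      have h3 : 0 ≤ r * s := mul_nonneg hr hs
      have h4 : 0 ≤ p * q := mul_nonneg hp hq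
      nlinarith
    have k1 := g _ _ _ _ t0 t1 s0 s1 a0 b0 a1 b1
    have k2 := g _ _ _ _ t0 t2 s0 s2 (show 0 ≤ 1 - a by linarith) c0 (by linarith) c1
    linarith
  · intro a b c _ _ _ _ _ _
    refine le_of_eq ?_
    ring
  · intro a b c _ _ _ _ _ _
    refine le_of_eq ?_
    ring
  · intro a b c _ _ _ _ _ _
    refine le_of_eq ?_
    ring
  · have k := TentK.ve221 t0 s0 t1 s1 t2 s2
    rw [← sub_nonneg]
    refine le_of_le_of_eq k ?_
    unfold Cw Dw kp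
    rw [q0, q1, q2]
    ring
  · have k := TentK.ve220 t0 s0 t1 s1 t2 s2
    rw [← sub_nonneg]
    refine le_of_le_of_eq k ?_
    unfold Cw Dw kp
    rw [q0, q1, q2]
    ring
  · have k := TentK.ve201 t0 s0 t1 s1 t2 s2
    rw [← sub_nonneg]
    refine le_of_le_of_eq k ?_
    unfold Cw Dw kp
    rw [q0, q1, q2]
    ring
  · have k := TentK.ve200 t0 s0 t1 s1 t2 s2
    rw [← sub_nonneg]
    refine le_of_le_of_eq k ?_
    unfold Cw Dw kp
    rw [q0, q1, q2]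
    ring
  · have k := TentK.ve121 t0 s0 t1 s1 t2 s2
    rw [← sub_nonneg]
    refine le_of_le_of_eq k ?_
    unfold Cw Dw kp
    rw [q0, q1, q2]
    ring
  · have k := TentK.ve120 t0 s0 t1 s1 t2 s2
    rw [← sub_nonneg]
    refine le_of_le_of_eq k ?_
    unfold Cw Dw kp
    rw [q0, q1, q2]
    ring
  · have k := TentK.ve101 t0 s0 t1 s1 t2 s2
    rw [← sub_nonneg]
    refine le_of_le_of_eq k ?_
    unfold Cw Dw kp
    rw [q0, q1, q2]
    ring
  · have k := TentK.ve100 t0 s0 t1 s1 t2 s2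
    rw [← sub_nonneg]
    refine le_of_le_of_eq k ?_
    unfold Cw Dw kp
    rw [q0, q1, q2]
    ring

end Pool.Agent.Helper55.TentL
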