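import Pool.Agent.Helper55.MEI.Tent5

/-!
# Product form of the apex mass
-/

namespace Pool.Agent.Helper55.TentL

open Set MeasureTheory Matrix Pool.Agent.Helper55.Sx Pool.Agent.Helper55.Mass
open Pool.Agent.Helper55.Apex Pool.Agent.Helper55.Fill Pool.Agent.Helper55.ApexP
open Helper75.MEI2 (vt Qf mu TC nn dd cc)

variable {N : Fin 3 → Fin 3 → ℝ}

theorem split {p q : ℝ} (hp : 0 ≤ p) (hq : 0 ≤ q) :
    ∃ w, 0 ≤ w ∧ w ≤ 1 ∧ p = (p + q) * w ∧ q = (p + q) * (1 - w) := by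
  rcases (add_nonneg hp hq).eq_or_lt with h | h
  · refine ⟨0, le_rfl, zero_le_one, ?_, ?_⟩
    · linarith
    · linarith
  · refine ⟨p / (p + q), div_nonneg hp h.le, ?_, ?_, ?_⟩
    · rw [div_le_one h]
      linarith
    · field_simp
    · field_simp
      ring

/-- the data of the leaks in the coordinates of the distributions -/
theorem dist (hN : ∀ k m, 0 ≤ N k m) (hd : ∀ k, N k k = 0) {A : Fin 3 → ℝ}
    (hA : ∀ k, 0 ≤ A k) (hs : A 0 + A 1 + A 2 = 1) :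
    ∃ x y z : ℝ, (0 ≤ x ∧ x ≤ 1) ∧ (0 ≤ y ∧ y ≤ 1) ∧ (0 ≤ z ∧ z ≤ 1) ∧
      N 1 0 = nc N 0 * x ∧ N 2 0 = nc N 0 * (1 - x) ∧ N 0 1 = nc N 1 * y ∧
      N 2 1 = nc N 1 * (1 - y) ∧ N 0 2 = nc N 2 * z ∧ N 1 2 = nc N 2 * (1 - z) ∧
      4 * cbP N A ≤ Cw A (nc N) x y z ∧ Dw (nc N) x y z ≤ (PN N).det ∧
      Fw A (nc N) x y z ≤ Qf (PN N *ᵥ A) := by
  obtain ⟨x, x0, x1, ex, ex'⟩ := split (hN 1 0) (hN 2 0)
  obtain ⟨y, y0, y1, ey, ey'⟩ := split (hN 0 1) (hN 2 1)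
  obtain ⟨z, z0, z1, ez, ez'⟩ := split (hN 0 2) (hN 1 2)
  have n0 : nc N 0 = N 1 0 + N 2 0 := by simp only [nc, hd]; ring
  have n1 : nc N 1 = N 0 1 + N 2 1 := by simp only [nc, hd]; ring
  have n2 : nc N 2 = N 0 2 + N 1 2 := by simp only [nc, hd]; ring
  rw [← n0] at ex ex'
  rw [← n1] at ey ey'
  rw [← n2] at ez ez'
  refine ⟨x, y, z, ⟨x0, x1⟩, ⟨y0, y1⟩, ⟨z0, z1⟩, ex, ex', ey, ey', ez, ez', ?_, ?_, ?_⟩
  · have a0 := hA 0
    have a1 := hA 1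
    have a2 := hA 2
    have g0 : 0 ≤ (1 + A 0) * (N 1 0 * N 2 0) :=
      mul_nonneg (by linarith) (mul_nonneg (hN 1 0) (hN 2 0))
    have g1 : 0 ≤ (1 + A 1) * (N 0 1 * N 2 1) :=
      mul_nonneg (by linarith) (mul_nonneg (hN 0 1) (hN 2 1))
    have g2 : 0 ≤ (1 + A 2) * (N 0 2 * N 1 2) :=
      mul_nonneg (by linarith) (mul_nonneg (hN 0 2) (hN 1 2))
    have e1 : Cw A (nc N) x y z = 4 * cbP N A + ((1 + A 0) * (N 1 0 * N 2 0)
        + (1 + A 1) * (N 0 1 * N 2 1) + (1 + A 2) * (N 0 2 * N 1 2)) / 3 := by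
      have h1 : Cw A (nc N) x y z = 1 - 2 / 15 * (A 0 * A 1 + A 0 * A 2 + A 1 * A 2)
          + (nc N 0 * x * kp (A 1) (A 0) + nc N 0 * (1 - x) * kp (A 2) (A 0))
          + (nc N 1 * y * kp (A 0) (A 1) + nc N 1 * (1 - y) * kp (A 2) (A 1))
          + (nc N 2 * z * kp (A 0) (A 2) + nc N 2 * (1 - z) * kp (A 1) (A 2))
          + ((1 + A 0) * nc N 0 ^ 2 + (1 + A 1) * nc N 1 ^ 2 + (1 + A 2) * nc N 2 ^ 2) / 3 := by
        unfold Cw
        ring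
      rw [h1, ← ex, ← ex', ← ey, ← ey', ← ez, ← ez']
      unfold cbP kp
      rw [n0, n1, n2]
      ring
    rw [e1]
    linarith
  · have h1 : Dw (nc N) x y z = 1 - (nc N 0 * x * (nc N 1 * y)
        + nc N 0 * (1 - x) * (nc N 2 * z) + nc N 1 * (1 - y) * (nc N 2 * (1 - z))) := by
      unfold Dw
      ring
    rw [h1, ← ex, ← ex', ← ey, ← ey', ← ez, ← ez']
    have := det_ge hN hd
    unfold pp at this
    linarith
  · have h1 : Fw A (nc N) x y z = 1 - (A 0 * A 1 + A 0 * A 2 + A 1 * A 2)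
        + (nc N 0 * x * (A 0 * (1 + A 1)) + nc N 0 * (1 - x) * (A 0 * (1 + A 2)))
        + (nc N 1 * y * (A 1 * (1 + A 0)) + nc N 1 * (1 - y) * (A 1 * (1 + A 2)))
        + (nc N 2 * z * (A 2 * (1 + A 0)) + nc N 2 * (1 - z) * (A 2 * (1 + A 1))) := by
      unfold Fw
      ring
    rw [h1, ← ex, ← ex', ← ey, ← ey', ← ez, ← ez']
    have := Qf_PA_ge hN hd hA hs rfl
    unfold Y1 at this
    linarith

theorem nc_nonneg (hN : ∀ k m, 0 ≤ N k m) (k : Fin 3) : 0 ≤ nc N k := by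
  have := hN 0 k
  have := hN 1 k
  have := hN 2 k
  unfold nc
  linarith

/-- **cone** -/
theorem cone_prod (hN : ∀ k m, 0 ≤ N k m) (hd : ∀ k, N k k = 0) (ht : ∀ k, nc N k ≤ 1 / 2)
    {A : Fin 3 → ℝ} (hA : ∀ k, 0 ≤ A k) (hs : A 0 + A 1 + A 2 = 1) :
    (1 - 19 / 20 * nc N 0) * (1 - 19 / 20 * nc N 1) * (1 - 19 / 20 * nc N 2)
      * (4 * cbP N A) ^ 2 ≤ 1119 / 1000 * ((PN N).det * √(Qf (PN N *ᵥ A))) := by
  obtain ⟨x, y, z, ⟨x0, x1⟩, ⟨y0, y1⟩, ⟨z0, z1⟩, -, -, -, -, -, -, h1, h2, h3⟩ := dist hN hd hA hs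
  have n0 := nc_nonneg hN
  have k := cone_all hA hs n0 ht x0 x1 y0 y1 z0 z1
  have hP : 0 ≤ (1 - 19 / 20 * nc N 0) * (1 - 19 / 20 * nc N 1) * (1 - 19 / 20 * nc N 2) := by
    have := ht 0
    have := ht 1
    have := ht 2
    exact mul_nonneg (mul_nonneg (by linarith) (by linarith)) (by linarith)
  have hc := cbP_pos hN hd hA hs
  have hD := Dw_nonneg n0 ht x0 y0 z0 x1 y1 z1
  refine (mul_le_mul_of_nonneg_left (pow_le_pow_left₀ (by linarith) h1 2) hP).trans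
    (k.trans ?_)
  exact mul_le_mul_of_nonneg_left (mul_le_mul h2 (Real.sqrt_le_sqrt h3) (Real.sqrt_nonneg _)
    (hD.trans h2)) (by norm_num)

/-- **clipped coordinate `2`** -/
theorem clip_prod2 (hN : ∀ k m, 0 ≤ N k m) (hd : ∀ k, N k k = 0) (ht : ∀ k, nc N k ≤ 1 / 2)
    {A : Fin 3 → ℝ} (hA : ∀ k, 0 ≤ A k) (hs : A 0 + A 1 + A 2 = 1) (hz : A 2 = 0) :
    (1 - 13 / 10 * nc N 0) * (1 - 13 / 10 * nc N 1) * (1 - 11 / 10 * nc N 2)
      * (4 * cbP N A) ^ 2 ≤ 1091 / 1000 * ((PN N).det *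
        (√(1 - A 0 * A 1) - nc N 2 * (N 2 0 * A 0 + N 2 1 * A 1))) := by
  obtain ⟨x, y, z, ⟨x0, x1⟩, ⟨y0, y1⟩, ⟨z0, z1⟩, e1, e2, e3, e4, e5, e6, h1, h2, h3⟩ :=
    dist hN hd hA hs
  have n0 := nc_nonneg hN
  have k := clip_all hA hs hz n0 ht x0 x1 y0 y1 z0 z1
  have hP : 0 ≤ (1 - 13 / 10 * nc N 0) * (1 - 13 / 10 * nc N 1) * (1 - 11 / 10 * nc N 2) := by
    have := ht 0
    have := ht 1
    have := ht 2
    exact mul_nonneg (mul_nonneg (by linarith) (by linarith)) (by linarith)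
  have hc := cbP_pos hN hd hA hs
  have hD := Dw_nonneg n0 ht x0 y0 z0 x1 y1 z1
  have hl : l2w A (nc N) x y = nc N 2 * (N 2 0 * A 0 + N 2 1 * A 1) := by
    rw [e2, e4]
    unfold l2w
    rfl
  rw [hl] at k
  have hW : 0 ≤ √(1 - A 0 * A 1) - nc N 2 * (N 2 0 * A 0 + N 2 1 * A 1) := by
    have a0 := hA 0
    have a1 := hA 1
    have e0' : 0 ≤ A 0 * A 1 := by positivity
    have e1' : A 0 * A 1 ≤ 1 / 4 := by nlinarith [sq_nonneg (A 0 - A 1)]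
    have hsq := sqrt_chord4 e0' e1'
    have c0 : N 2 0 ≤ 1 / 2 := by
      have := ht 0
      have := hN 1 0
      simp only [nc, hd] at *
      linarith
    have c1 : N 2 1 ≤ 1 / 2 := by
      have := ht 1
      have := hN 0 1
      simp only [nc, hd] at *
      linarith
    have g0 := mul_le_mul_of_nonneg_right c0 a0
    have g1 := mul_le_mul_of_nonneg_right c1 a1
    have g2 : 0 ≤ N 2 0 * A 0 + N 2 1 * A 1 :=
      add_nonneg (mul_nonneg (hN 2 0) a0) (mul_nonneg (hN 2 1) a1)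
    have g3 := mul_le_mul (ht 2) (show N 2 0 * A 0 + N 2 1 * A 1 ≤ 1 / 2 by linarith) g2
      (by norm_num)
    linarith
  refine (mul_le_mul_of_nonneg_left (pow_le_pow_left₀ (by linarith) h1 2) hP).trans
    (k.trans ?_)
  exact mul_le_mul_of_nonneg_left (mul_le_mul_of_nonneg_right h2 hW) (by norm_num)

/-- permuted leaks -/
def pN (σ : Fin 3 → Fin 3) (N : Fin 3 → Fin 3 → ℝ) : Fin 3 → Fin 3 → ℝ := fun i j => N (σ i) (σ j)

/-- the three even permutations and the transposition -/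
theorem perm_data (hd : ∀ k, N k k = 0) (A : Fin 3 → ℝ) {σ : Fin 3 → Fin 3}
    (hσ : σ = ![1, 2, 0] ∨ σ = ![2, 0, 1] ∨ σ = ![0, 2, 1] ∨ σ = ![1, 0, 2] ∨ σ = ![2, 1, 0]
      ∨ σ = ![0, 1, 2]) :
    cbP (pN σ N) (fun k => A (σ k)) = cbP N A ∧ (PN (pN σ N)).det = (PN N).det ∧
      (∀ k, nc (pN σ N) k = nc N (σ k)) ∧ A (σ 0) + A (σ 1) + A (σ 2) = A 0 + A 1 + A 2 := by
  have hd' : ∀ k, pN σ N k k = 0 := fun k => hd _
  rw [PN_det hd', PN_det hd]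
  rcases hσ with rfl | rfl | rfl | rfl | rfl | rfl
  all_goals
    refine ⟨?_, ?_, ?_, ?_⟩
    · simp only [cbP, nc, pN, Matrix.cons_val_zero, Matrix.cons_val_one, Matrix.cons_val] <;> ring
    · simp only [pN, Matrix.cons_val_zero, Matrix.cons_val_one, Matrix.cons_val] <;> ring
    · intro k
      simp only [nc, pN, Matrix.cons_val_zero, Matrix.cons_val_one, Matrix.cons_val] <;> ring
    · simp only [Matrix.cons_val_zero, Matrix.cons_val_one, Matrix.cons_val] <;> ring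

/-- **two clipped coordinates `1`, `2`** -/
theorem vert_prod12 (hN : ∀ k m, 0 ≤ N k m) (hd : ∀ k, N k k = 0) (ht : ∀ k, nc N k ≤ 1 / 2)
    {A : Fin 3 → ℝ} (h0 : A 0 = 1) (h1 : A 1 = 0) (h2 : A 2 = 0) :
    (1 - 13 / 10 * nc N 0) * (1 - 11 / 10 * nc N 1) * (1 - 13 / 10 * nc N 2)
      * (1 + 1 / 4 * nc N 2) * (4 * cbP N A) ^ 2 ≤ 1091 / 1000 * ((PN N).det *
        (1 - (N 0 1 * N 1 0 + N 0 2 * N 2 0))) := by
  have hA1 : A = ![1, 0, 0] := by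
    funext k
    fin_cases k
    · exact h0
    · exact h1
    · exact h2
  have hA : ∀ k, 0 ≤ A k := by
    intro k
    fin_cases k
    · show 0 ≤ A 0
      rw [h0]; norm_num
    · show 0 ≤ A 1
      rw [h1]
    · show 0 ≤ A 2
      rw [h2]
  have hs : A 0 + A 1 + A 2 = 1 := by rw [h0, h1, h2]; norm_num
  obtain ⟨x, y, z, ⟨x0, x1⟩, ⟨y0, y1⟩, ⟨z0, z1⟩, e1, e2, e3, e4, e5, e6, k1, k2, k3⟩ :=
    dist hN hd hA hs
  have n0 := nc_nonneg hN
  have k := vert_all n0 ht x0 x1 y0 y1 z0 z1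
  rw [← hA1] at k
  have m0 := n0 2
  have hP : 0 ≤ (1 - 13 / 10 * nc N 0) * (1 - 11 / 10 * nc N 1) * (1 - 13 / 10 * nc N 2)
      * (1 + 1 / 4 * nc N 2) := by
    have := ht 0
    have := ht 1
    have := ht 2
    exact mul_nonneg (mul_nonneg (mul_nonneg (by linarith) (by linarith)) (by linarith))
      (by linarith)
  have hc := cbP_pos hN hd hA hs
  have hl : nc N 0 * nc N 1 * (x * y) + nc N 0 * nc N 2 * ((1 - x) * z)
      = N 0 1 * N 1 0 + N 0 2 * N 2 0 := by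
    have h1 : nc N 0 * nc N 1 * (x * y) + nc N 0 * nc N 2 * ((1 - x) * z)
        = nc N 1 * y * (nc N 0 * x) + nc N 2 * z * (nc N 0 * (1 - x)) := by ring
    rw [h1, ← e1, ← e2, ← e3, ← e5]
  rw [hl] at k
  have hW : 0 ≤ 1 - (N 0 1 * N 1 0 + N 0 2 * N 2 0) := by
    have a1 := ht 0
    have a2 := ht 1
    have a3 := ht 2
    simp only [nc, hd] at a1 a2 a3
    have b1 : N 0 1 ≤ 1 / 2 := by linarith [hN 2 1]
    have b2 : N 0 2 ≤ 1 / 2 := by linarith [hN 1 2]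
    have c1 := mul_le_mul_of_nonneg_right b1 (hN 1 0)
    have c2 := mul_le_mul_of_nonneg_right b2 (hN 2 0)
    linarith
  refine (mul_le_mul_of_nonneg_left (pow_le_pow_left₀ (by linarith) k1 2) hP).trans
    (k.trans ?_)
  exact mul_le_mul_of_nonneg_left (mul_le_mul_of_nonneg_right k2 hW) (by norm_num)

/-- the clipped coordinates, one clipped coordinate, scalars -/
theorem clip_one {mi mj mn ui uj un Nij Nji Nin Nni Njn Nnj V : ℝ} (h1 : 0 ≤ Nij)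
    (h2 : 0 ≤ Nji) (h3 : 0 ≤ Nin) (h5 : 0 ≤ Njn)
    (hui : ui = mi + Nij * mj + Nin * mn) (huj : uj = mj + Nji * mi + Njn * mn)
    (hun : un = mn + Nni * mi + Nnj * mj) (hmn : mn ≤ 0)
    (v3 : -V ≤ un) (hi : 0 ≤ mi) (hj : 0 ≤ mj) :
    ∃ yi yj, 0 ≤ yi ∧ 0 ≤ yj ∧ mi ≤ max ui 0 + yi ∧ mj ≤ max uj 0 + yj ∧
      yi + yj ≤ (Nin + Njn) * (Nni * mi + Nnj * mj + V) := by
  have x1 := le_max_left ui 0
  have x2 := le_max_left uj 0
  have nm : 0 ≤ -mn := by linarith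
  refine ⟨Nin * (-mn), Njn * (-mn), by positivity, by positivity, ?_, ?_, ?_⟩
  · have := mul_nonneg h1 hj
    linarith
  · have := mul_nonneg h2 hi
    linarith
  · have g1 : -mn ≤ Nni * mi + Nnj * mj + V := by linarith
    have g2 := mul_le_mul_of_nonneg_left g1 (show 0 ≤ Nin + Njn by linarith)
    linarith

/-- the clipped coordinates, two clipped coordinates, scalars -/
theorem clip_two {mi mj mn ui uj un Nij Nji Nin Nni Njn Nnj V : ℝ} (h1 : 0 ≤ Nij)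
    (h3 : 0 ≤ Nin) (h5 : 0 ≤ Njn) (h6 : 0 ≤ Nnj)
    (hui : ui = mi + Nij * mj + Nin * mn) (huj : uj = mj + Nji * mi + Njn * mn)
    (hun : un = mn + Nni * mi + Nnj * mj) (hmn : mn ≤ 0) (hmj : mj ≤ 0)
    (v2 : -V ≤ uj) (v3 : -V ≤ un) :
    ∃ yi, 0 ≤ yi ∧ mi ≤ max ui 0 + yi ∧
      yi ≤ (Nin * Nni + Nij * Nji) * mi + (Nin + Nij) * V := by
  have x1 := le_max_left ui 0
  have nm : 0 ≤ -mn := by linarith
  have nj : 0 ≤ -mj := by linarith
  refine ⟨Nin * (-mn) + Nij * (-mj), by positivity, by linarith, ?_⟩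
  have m1 := mul_nonneg h6 nj
  have m2 := mul_nonneg h5 nm
  have g1 : -mn ≤ Nni * mi + V := by linarith
  have g2 : -mj ≤ Nji * mi + V := by linarith
  have g3 := mul_le_mul_of_nonneg_left g1 h3
  have g4 := mul_le_mul_of_nonneg_left g2 h1
  linarith

end Pool.Agent.Helper55.TentL
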